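import Pool.Agent.W_MP_43c969_h13.Defs

/-!
# Task Basic: elementary facts on embeddings, transport, mirror image

* `phi` is injective (`rho a`, `pi x` are permutations: from `phi e = phi f` the second components
  agree, `pi y e.1 = pi y f.1` gives `e.1 = f.1`, then `rho e.1 e.2 = rho e.1 f.2`), hence a
  permutation on a finite type (`phiPerm`).
* `map`: relabelling of rows and columns; `phi` is conjugated.
* `mirror`: the inverse rotations. An arc `x → y` of row `a` becomes the arc `y → x`. If every arc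
  of `E` is good then every arc of the mirror image is good: let `(a, y)` be an arc of the mirror,
  `x = (rho a)⁻¹ y`; its next arc in the mirror is `((pi x)⁻¹ a, x)`. Put `b = pi y a`
  (so that `phi (a, x) = (b, y)`); goodness of `(a, x)` gives `rho b y = x`, `pi x b = a`. So
  `(pi x)⁻¹ a = b`, the mirror arc `(b, x)` goes to `(rho b)⁻¹ x = y`, and `(pi y)⁻¹ b = a`.
-/

set_option autoImplicit false

namespace Pool.Agent.W_MP_43c969_h13

open Equiv

namespace Emb

variable {P N P' N' : Type*} (E : Emb P N)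

theorem phi_injective : Function.Injective E.phi := by
  rintro ⟨a, x⟩ ⟨b, y⟩ h
  have h2 : E.rho a x = E.rho b y := congrArg Prod.snd h
  have h1 : E.pi (E.rho a x) a = E.pi (E.rho b y) b := congrArg Prod.fst h
  rw [h2] at h1
  have h3 : a = b := (E.pi (E.rho b y)).injective h1
  subst h3
  rw [(E.rho a).injective h2]

/-- `phi` as a permutation. -/
noncomputable def phiPerm [Finite P] [Finite N] : Perm (P × N) :=
  Equiv.ofBijective E.phi (Finite.injective_iff_bijective.mp E.phi_injective)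

@[simp] theorem phiPerm_apply [Finite P] [Finite N] (e : P × N) : E.phiPerm e = E.phi e := rfl

/-- If an arc is good, so is the next one. -/
theorem Good.phi {e : P × N} (h : E.Good e) : E.Good (E.phi e) := by
  have h' : E.phi (E.phi e) = e := h
  show E.phi (E.phi (E.phi e)) = E.phi e
  rw [h']

theorem good_iff (a : P) (x : N) : E.Good (a, x) ↔
    E.rho (E.pi (E.rho a x) a) (E.rho a x) = x ∧ E.pi x (E.pi (E.rho a x) a) = a := by
  show (E.pi (E.rho (E.pi (E.rho a x) a) (E.rho a x)) (E.pi (E.rho a x) a),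
    E.rho (E.pi (E.rho a x) a) (E.rho a x)) = (a, x) ↔ _
  rw [Prod.mk.injEq]
  constructor
  · rintro ⟨h1, h2⟩
    refine ⟨h2, ?_⟩
    rwa [h2] at h1
  · rintro ⟨h1, h2⟩
    refine ⟨?_, h1⟩
    rw [h1, h2]

/-- `FaceAt e0 2` means that all the arcs are good (and `phi e0 ≠ e0`). -/
theorem FaceAt.allGood {e0 : P × N} (h : E.FaceAt e0 2) : E.AllGood := by
  obtain ⟨-, h1, -, h2⟩ := h
  have h0 : E.Good e0 := h1
  intro e
  by_cases ha : e = e0
  · rw [ha]
    exact h0
  by_cases hb : e = E.phi e0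
  · rw [hb]
    exact Good.phi E h0
  refine h2 e fun i hi => ?_
  interval_cases i
  · exact ha
  · exact hb

/-- In a row with at least two elements an arc is never fixed by `phi`. -/
theorem faceAt_two (hg : E.AllGood) (e0 : P × N) (h : E.rho e0.1 e0.2 ≠ e0.2) :
    E.FaceAt e0 2 := by
  refine ⟨by norm_num, hg e0, ?_, fun e _ => hg e⟩
  intro i j hij hj
  have h1 : i = 0 := by omega
  have h2 : j = 1 := by omega
  subst h1 h2
  intro h3
  have h4 : e0 = E.phi e0 := h3
  exact h (congrArg Prod.snd h4).symm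

/-- The bad arcs of an embedding with one special face of `k` arcs. -/
theorem FaceAt.bound [DecidableEq P] [DecidableEq N] {e0 : P × N} {k : ℕ} (h : E.FaceAt e0 k) :
    ∃ B : Finset (P × N), B.card ≤ k ∧ ∀ e, e ∉ B → E.Good e := by
  refine ⟨(Finset.range k).image fun i => E.phi^[i] e0, ?_, fun e he => h.2.2.2 e fun i hi heq => ?_⟩
  · exact Finset.card_image_le.trans (by rw [Finset.card_range])
  · exact he (Finset.mem_image.2 ⟨i, Finset.mem_range.2 hi, heq.symm⟩)

theorem basic_conj {X X' : Type*} (g : X ≃ X') (σ : Perm X) (x y : X) :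
    Equiv.Perm.SameCycle (g.symm.trans (σ.trans g) : Perm X') (g x) (g y) ↔ σ.SameCycle x y := by
  have key : ∀ i : ℤ, ((g.symm.trans (σ.trans g)) ^ i : Perm X') (g x) = g ((σ ^ i) x) := by
    intro i
    have h1 : (g.symm.trans (σ.trans g) : Perm X') = g.permCongrHom σ := by
      ext z
      rfl
    rw [h1, ← map_zpow]
    show g ((σ ^ i) (g.symm (g x))) = _
    rw [Equiv.symm_apply_apply]
  constructor
  · rintro ⟨i, hi⟩
    refine ⟨i, ?_⟩
    rw [key] at hi
    exact g.injective hi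
  · rintro ⟨i, hi⟩
    refine ⟨i, ?_⟩
    rw [key, hi]

theorem basic_tr {X X' : Type*} (g : X ≃ X') {σ : Perm X} (h : Tr σ) :
    Tr (g.symm.trans (σ.trans g)) := by
  intro x y
  have h1 := (basic_conj g σ (g.symm x) (g.symm y)).2 (h _ _)
  rwa [Equiv.apply_symm_apply, Equiv.apply_symm_apply] at h1

theorem basic_two {X X' : Type*} (g : X ≃ X') {σ : Perm X} (h : Two σ) :
    Two (g.symm.trans (σ.trans g)) := by
  obtain ⟨a, b, hab, hc⟩ := h
  refine ⟨g a, g b, fun h1 => hab ((basic_conj g σ a b).1 h1), fun c => ?_⟩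
  have e : c = g (g.symm c) := (Equiv.apply_symm_apply g c).symm
  rcases hc (g.symm c) with h1 | h1
  · left
    rw [e]
    exact (basic_conj g σ _ _).2 h1
  · right
    rw [e]
    exact (basic_conj g σ _ _).2 h1

/-- Relabelling. -/
def map (f : P ≃ P') (g : N ≃ N') : Emb P' N' where
  rho a := g.symm.trans ((E.rho (f.symm a)).trans g)
  pi x := f.symm.trans ((E.pi (g.symm x)).trans f)

theorem map_phi (f : P ≃ P') (g : N ≃ N') (a : P) (x : N) :
    (E.map f g).phi (f a, g x) = (f (E.phi (a, x)).1, g (E.phi (a, x)).2) := by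
  simp [map, phi]

theorem map_good (f : P ≃ P') (g : N ≃ N') (a : P) (x : N) :
    (E.map f g).Good (f a, g x) ↔ E.Good (a, x) := by
  show (E.map f g).phi ((E.map f g).phi (f a, g x)) = (f a, g x) ↔ E.phi (E.phi (a, x)) = (a, x)
  rw [map_phi, map_phi]
  constructor
  · intro h
    have h1 := f.injective (congrArg Prod.fst h)
    have h2 := g.injective (congrArg Prod.snd h)
    exact Prod.ext h1 h2
  · intro h
    have h' : E.phi ((E.phi (a, x)).1, (E.phi (a, x)).2) = (a, x) := h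
    rw [h']

theorem map_rowsTr (f : P ≃ P') (g : N ≃ N') (h : E.RowsTr) : (E.map f g).RowsTr :=
  fun a => basic_tr g (h (f.symm a))

theorem map_tr_pi (f : P ≃ P') (g : N ≃ N') (x : N) (h : Tr (E.pi x)) :
    Tr ((E.map f g).pi (g x)) := by
  show Tr (f.symm.trans ((E.pi (g.symm (g x))).trans f))
  rw [Equiv.symm_apply_apply]
  exact basic_tr f h

theorem map_two_pi (f : P ≃ P') (g : N ≃ N') (x : N) (h : Two (E.pi x)) :
    Two ((E.map f g).pi (g x)) := by
  show Two (f.symm.trans ((E.pi (g.symm (g x))).trans f))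
  rw [Equiv.symm_apply_apply]
  exact basic_two f h

theorem map_cov (f : P ≃ P') (g : N ≃ N') (x y : N) (h : E.Cov x y) :
    (E.map f g).Cov (g x) (g y) := by
  obtain ⟨a, h⟩ := h
  refine ⟨f a, ?_⟩
  have key : ∀ z, (E.map f g).rho (f a) (g z) = g (E.rho a z) := by
    intro z
    simp [map]
  rw [key, key]
  rcases h with h | h
  · left
    rw [h]
  · right
    rw [h]

/-- The mirror image. -/
def mirror : Emb P N where
  rho a := (E.rho a)⁻¹
  pi x := (E.pi x)⁻¹

theorem mirror_allGood (h : E.AllGood) : E.mirror.AllGood := by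
  rintro ⟨a, y⟩
  obtain ⟨x, rfl⟩ : ∃ x, E.rho a x = y := (E.rho a).surjective y
  obtain ⟨h1, h2⟩ := (E.good_iff a x).1 (h (a, x))
  have e1 : (E.rho a)⁻¹ (E.rho a x) = x := by
    rw [Equiv.Perm.inv_eq_iff_eq]
  have e2 : (E.pi x)⁻¹ a = E.pi (E.rho a x) a := by
    rw [Equiv.Perm.inv_eq_iff_eq]
    exact h2.symm
  have e3 : (E.rho (E.pi (E.rho a x) a))⁻¹ x = E.rho a x := by
    rw [Equiv.Perm.inv_eq_iff_eq]
    exact h1.symm
  have e4 : (E.pi (E.rho a x))⁻¹ (E.pi (E.rho a x) a) = a := by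
    rw [Equiv.Perm.inv_eq_iff_eq]
  have p1 : E.mirror.phi (a, E.rho a x) = (E.pi (E.rho a x) a, x) := by
    show ((E.pi ((E.rho a)⁻¹ (E.rho a x)))⁻¹ a, (E.rho a)⁻¹ (E.rho a x)) = _
    rw [e1, e2]
  have p2 : E.mirror.phi (E.pi (E.rho a x) a, x) = (a, E.rho a x) := by
    show ((E.pi ((E.rho (E.pi (E.rho a x) a))⁻¹ x))⁻¹ (E.pi (E.rho a x) a),
      (E.rho (E.pi (E.rho a x) a))⁻¹ x) = _
    rw [e3, e4]
  show E.mirror.phi (E.mirror.phi (a, E.rho a x)) = (a, E.rho a x)
  rw [p1, p2]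

theorem mirror_cov (x y : N) (h : E.Cov x y) : E.mirror.Cov x y := by
  obtain ⟨a, h⟩ := h
  refine ⟨a, ?_⟩
  show (E.rho a)⁻¹ x = y ∨ (E.rho a)⁻¹ y = x
  rw [Equiv.Perm.inv_eq_iff_eq, Equiv.Perm.inv_eq_iff_eq]
  rcases h with h | h
  · right
    exact h.symm
  · left
    exact h.symm

theorem basic_cov_symm {x y : N} (h : E.Cov x y) : E.Cov y x := by
  obtain ⟨a, h⟩ := h
  exact ⟨a, h.symm⟩

theorem basic_map_cov (f : P ≃ P') (g : N ≃ N') {C : N → N → Prop} {C' : N' → N' → Prop}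
    (h : ∀ x y, C x y → E.Cov x y) (hC : ∀ x y, C' x y → C (g.symm x) (g.symm y)) :
    ∀ x y, C' x y → (E.map f g).Cov x y := by
  intro x y hxy
  have h1 := E.map_cov f g _ _ (h _ _ (hC x y hxy))
  rwa [Equiv.apply_symm_apply, Equiv.apply_symm_apply] at h1

theorem basic_map_allGood (f : P ≃ P') (g : N ≃ N') (h : E.AllGood) : (E.map f g).AllGood := by
  rintro ⟨a, x⟩
  have h1 := (E.map_good f g (f.symm a) (g.symm x)).2 (h _)
  rwa [Equiv.apply_symm_apply, Equiv.apply_symm_apply] at h1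

theorem basic_map_colsTr (f : P ≃ P') (g : N ≃ N') (h : E.ColsTr) : (E.map f g).ColsTr := by
  intro x
  have h1 := E.map_tr_pi f g (g.symm x) (h _)
  rwa [Equiv.apply_symm_apply] at h1

end Emb

section transport
variable {P N P' N' : Type*}

theorem St.map {C : N → N → Prop} {C' : N' → N' → Prop} {k : ℕ} (h : St P N C k) (f : P ≃ P')
    (g : N ≃ N') (hC : ∀ x y, C' x y → C (g.symm x) (g.symm y)) : St P' N' C' k := by
  obtain ⟨E, h1, h2, ⟨B, hB, hB'⟩, h3⟩ := h
  refine ⟨E.map f g, E.map_rowsTr f g h1, E.basic_map_colsTr f g h2, ?_,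
    E.basic_map_cov f g h3 hC⟩
  refine ⟨B.map (Equiv.prodCongr f g).toEmbedding, by rwa [Finset.card_map], ?_⟩
  rintro ⟨a, x⟩ he
  have h4 : (f.symm a, g.symm x) ∉ B := by
    intro h5
    apply he
    refine Finset.mem_map.2 ⟨_, h5, ?_⟩
    show (f (f.symm a), g (g.symm x)) = (a, x)
    rw [Equiv.apply_symm_apply, Equiv.apply_symm_apply]
  have h5 := (E.map_good f g (f.symm a) (g.symm x)).2 (hB' _ h4)
  rwa [Equiv.apply_symm_apply, Equiv.apply_symm_apply] at h5

theorem Ex.map {C : N → N → Prop} {C' : N' → N' → Prop} (h : Ex P N C) (f : P ≃ P')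
    (g : N ≃ N') (hC : ∀ x y, C' x y → C (g.symm x) (g.symm y)) : Ex P' N' C' := by
  obtain ⟨E, h1, h2, h4, h3⟩ := h
  exact ⟨E.map f g, E.map_rowsTr f g h1, E.basic_map_colsTr f g h2, E.basic_map_allGood f g h4,
    E.basic_map_cov f g h3 hC⟩

theorem PSt.map {C : N → N → Prop} {C' : N' → N' → Prop} (h : PSt P N C) (f : P ≃ P')
    (g : N ≃ N') (hC : ∀ x y, C' x y → C (g.symm x) (g.symm y)) : PSt P' N' C' := by
  obtain ⟨E, v, h1, h2, h5, h4, h3⟩ := h
  refine ⟨E.map f g, g v, E.map_rowsTr f g h1, ?_, E.map_two_pi f g v h5,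
    E.basic_map_allGood f g h4, E.basic_map_cov f g h3 hC⟩
  intro x hx
  have h6 := E.map_tr_pi f g (g.symm x) (h2 _ fun h7 => hx (by rw [← h7, Equiv.apply_symm_apply]))
  rwa [Equiv.apply_symm_apply] at h6

theorem St.mono {C C' : N → N → Prop} {k l : ℕ} (h : St P N C k) (hkl : k ≤ l)
    (hC : ∀ x y, C' x y → C x y) : St P N C' l := by
  obtain ⟨E, h1, h2, ⟨B, hB, hB'⟩, h3⟩ := h
  exact ⟨E, h1, h2, ⟨B, hB.trans hkl, hB'⟩, fun x y hxy => h3 x y (hC x y hxy)⟩

theorem Ex.st {C : N → N → Prop} (h : Ex P N C) (k : ℕ) : St P N C k := by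
  obtain ⟨E, h1, h2, h4, h3⟩ := h
  exact ⟨E, h1, h2, ⟨∅, by simp, fun e _ => h4 e⟩, h3⟩

theorem St.ex {C : N → N → Prop} (h : St P N C 0) : Ex P N C := by
  obtain ⟨E, h1, h2, ⟨B, hB, hB'⟩, h3⟩ := h
  have h5 : B = ∅ := Finset.card_eq_zero.1 (Nat.le_zero.1 hB)
  exact ⟨E, h1, h2, fun e => hB' e (by simp [h5]), h3⟩

/-- The relation `Across` under relabelling. -/
theorem basic_across {Y Z Y' Z' : Type*} (g : Y ≃ Y') (g' : Z ≃ Z') (x y : Y' ⊕ Z')
    (h : Across x y) : Across ((Equiv.sumCongr g g').symm x) ((Equiv.sumCongr g g').symm y) := by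
  obtain ⟨y', z', rfl, rfl⟩ := h
  exact ⟨g.symm y', g'.symm z', rfl, rfl⟩

theorem Ex.basic_symm {C : N → N → Prop} (h : Ex P N C) : Ex P N (fun x y => C y x) := by
  obtain ⟨E, h1, h2, h4, h3⟩ := h
  exact ⟨E, h1, h2, h4, fun x y hxy => E.basic_cov_symm (h3 y x hxy)⟩

theorem PSt.basic_symm {C : N → N → Prop} (h : PSt P N C) : PSt P N (fun x y => C y x) := by
  obtain ⟨E, v, h1, h2, h5, h4, h3⟩ := h
  exact ⟨E, v, h1, h2, h5, h4, fun x y hxy => E.basic_cov_symm (h3 y x hxy)⟩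

/-- Relabelling with a distinguished element. -/
theorem basic_star {N : Type*} [Fintype N] {q : ℕ} (z0 : N) (hq : Fintype.card N = q + 1) :
    ∃ g : N ≃ Fin q ⊕ Fin 1, (∀ i, g.symm (Sum.inl i) ≠ z0) ∧ ∀ i, g.symm (Sum.inr i) = z0 := by
  classical
  have c1 : Fintype.card {x : N // x ≠ z0} = q := by
    have h1 := Fintype.card_subtype_compl (fun x : N => x = z0)
    rw [Fintype.card_subtype_eq, hq, Nat.add_sub_cancel] at h1
    exact h1
  have c2 : Fintype.card {x : N // ¬ x ≠ z0} = 1 := by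
    have h1 : ∀ x : N, ¬ x ≠ z0 ↔ x = z0 := fun x => not_not
    rw [Fintype.card_congr (Equiv.subtypeEquivRight h1), Fintype.card_subtype_eq]
  let e1 : {x : N // x ≠ z0} ≃ Fin q := Fintype.equivFinOfCardEq c1
  let e2 : {x : N // ¬ x ≠ z0} ≃ Fin 1 := Fintype.equivFinOfCardEq c2
  refine ⟨(Equiv.sumCompl fun x => x ≠ z0).symm.trans (Equiv.sumCongr e1 e2), ?_, ?_⟩
  · intro i
    exact (e1.symm i).2
  · intro i
    exact not_not.1 (e2.symm i).2

/-- Transport to the standard types. -/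
theorem St.toFin {P Y Z : Type*} [Fintype P] [Fintype Y] [Fintype Z] {p q r k : ℕ}
    (h : St P (Y ⊕ Z) Across k) (hp : Fintype.card P = p) (hq : Fintype.card Y = q)
    (hr : Fintype.card Z = r) : St (Fin p) (Fin q ⊕ Fin r) Across k :=
  h.map (Fintype.equivFinOfCardEq hp)
    (Equiv.sumCongr (Fintype.equivFinOfCardEq hq) (Fintype.equivFinOfCardEq hr))
    (basic_across _ _)

theorem Ex.toFin {P Y Z : Type*} [Fintype P] [Fintype Y] [Fintype Z] {p q r : ℕ}
    (h : Ex P (Y ⊕ Z) Across) (hp : Fintype.card P = p) (hq : Fintype.card Y = q)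
    (hr : Fintype.card Z = r) : Ex (Fin p) (Fin q ⊕ Fin r) Across :=
  h.map (Fintype.equivFinOfCardEq hp)
    (Equiv.sumCongr (Fintype.equivFinOfCardEq hq) (Fintype.equivFinOfCardEq hr))
    (basic_across _ _)

theorem PSt.toFin {P Y Z : Type*} [Fintype P] [Fintype Y] [Fintype Z] {p q r : ℕ}
    (h : PSt P (Y ⊕ Z) Across) (hp : Fintype.card P = p) (hq : Fintype.card Y = q)
    (hr : Fintype.card Z = r) : PSt (Fin p) (Fin q ⊕ Fin r) Across :=
  h.map (Fintype.equivFinOfCardEq hp)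
    (Equiv.sumCongr (Fintype.equivFinOfCardEq hq) (Fintype.equivFinOfCardEq hr))
    (basic_across _ _)

/-- One vertex `z0` covered with all the others: this is the case `r = 1`. -/
theorem Ex.toFin_star {P N : Type*} [Fintype P] [Fintype N] {p q : ℕ} (z0 : N)
    (h : Ex P N (fun x y => x = z0 ∧ y ≠ z0)) (hp : Fintype.card P = p)
    (hq : Fintype.card N = q + 1) : Ex (Fin p) (Fin q ⊕ Fin 1) Across := by
  obtain ⟨g, hg1, hg2⟩ := basic_star z0 hq
  refine h.basic_symm.map (Fintype.equivFinOfCardEq hp) g ?_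
  rintro x y ⟨y', z', rfl, rfl⟩
  exact ⟨hg2 z', hg1 y'⟩

theorem PSt.toFin_star {P N : Type*} [Fintype P] [Fintype N] {p q : ℕ} (z0 : N)
    (h : PSt P N (fun x y => x = z0 ∧ y ≠ z0)) (hp : Fintype.card P = p)
    (hq : Fintype.card N = q + 1) : PSt (Fin p) (Fin q ⊕ Fin 1) Across := by
  obtain ⟨g, hg1, hg2⟩ := basic_star z0 hq
  refine h.basic_symm.map (Fintype.equivFinOfCardEq hp) g ?_
  rintro x y ⟨y', z', rfl, rfl⟩
  exact ⟨hg2 z', hg1 y'⟩

end transport

end Pool.Agent.W_MP_43c969_h13
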