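import Pool.Agent.W_MP_43c969_h13.Defs
import Pool.Agent.W_MP_43c969_h13.Basic

/-!
# Task Gap: translation invariant embeddings

`q ≥ 1`; the rows are `ZMod q`, the columns `ZMod q ⊕ H` where `H` is a set of positions in
`ZMod q`. `c : Perm (ZMod q)`: `c i` is the column of the row `0` at the position `i`; the row `a`
is the translate: it visits `a + c 0, a + c 1, …`, and for `i ∈ H` the extra column `inr i` is
visited between `a + c i` and `a + c (i + 1)`. `τ` is an involution on the positions (gaps), fixing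
the points of `H`, with `c (τ i + 1) - c (τ i) = -(c (i + 1) - c i)` for `i ∉ H`.

*Rows*: `rho a (inl x)`, with `i = c⁻¹ (x - a)`: `inr i` if `i ∈ H`, else `inl (a + c (i + 1))`;
`rho a (inr i) = inl (a + c (i + 1))`.
*Columns*: `pi (inl y) a`, with `i = c⁻¹ (y - a) - 1` (the gap before `y`): `y - c (τ i)`;
`pi (inr i) a = a - (c (i + 1) - c i)`.

*All arcs are good*. Let `D i = c (i + 1) - c i`.
* `(a, inl x)`, `x = a + c i`, `i ∉ H`; `y = a + c (i + 1)`, next row `b = y - c (τ i)`; in the row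
  `b`, `y` is at the position `τ i ∉ H`, followed by `b + c (τ i + 1) = y + D (τ i) = y - D i = x`, and
  in the column `x` the row after `b` is `x - c (τ (τ i)) = a`.
* `(a, inl x)`, `i ∈ H`: goes to `(b, inr i)` with `b = a - D i`; this goes to
  `inl (b + c (i + 1)) = inl x`, the row after `b` in this column is `x - c (τ i) = x - c i = a`.
* `(a, inr i)`: goes to `y = a + c (i + 1)`, next row `b = y - c i`; there `y` is at the position
  `i ∈ H`, followed by `inr i`, and `pi (inr i) b = b - D i = a`.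
*Cycles*. Every row is one cycle. The column `inl y` is conjugate (by `a ↦ c⁻¹ (y - a)`) to
`j ↦ τ (j - 1)`. The column `inr i` is `a ↦ a - D i`.
*Coverage*: the row `a = y - c i` has the arc `inl y → inr i`.
-/

set_option autoImplicit false

namespace Pool.Agent.W_MP_43c969_h13

open Equiv

section gap

variable {q : ℕ} (c τ : Perm (ZMod q)) (H : Finset (ZMod q))

/-- the row `a` -/
noncomputable def gapRow (a : ZMod q) : Perm (ZMod q ⊕ H) := by
  classical
  exact
  { toFun := fun z => match z with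
      | Sum.inl x => if h : c.symm (x - a) ∈ H then Sum.inr ⟨c.symm (x - a), h⟩
          else Sum.inl (a + c (c.symm (x - a) + 1))
      | Sum.inr i => Sum.inl (a + c (i + 1))
    invFun := fun z => match z with
      | Sum.inl y => if h : c.symm (y - a) - 1 ∈ H then Sum.inr ⟨c.symm (y - a) - 1, h⟩
          else Sum.inl (a + c (c.symm (y - a) - 1))
      | Sum.inr i => Sum.inl (a + c i)
    left_inv := by
      intro z
      rcases z with x | i
      · by_cases h : c.symm (x - a) ∈ H
        · simp [h]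
        · simp [h]
      · simp
    right_inv := by
      intro z
      rcases z with x | i
      · by_cases h : c.symm (x - a) - 1 ∈ H
        · simp [h]
        · simp [h]
      · simp }

theorem gapRow_notMem (a i : ZMod q) (hi : i ∉ H) :
    gapRow c H a (Sum.inl (a + c i)) = Sum.inl (a + c (i + 1)) := by
  have h1 : c.symm (a + c i - a) = i := by rw [add_sub_cancel_left, symm_apply_apply]
  change (dite _ _ _ : ZMod q ⊕ H) = _
  rw [dif_neg (by rw [h1]; exact hi), h1]

theorem gapRow_mem (a i : ZMod q) (hi : i ∈ H) :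
    gapRow c H a (Sum.inl (a + c i)) = Sum.inr ⟨i, hi⟩ := by
  have h1 : c.symm (a + c i - a) = i := by rw [add_sub_cancel_left, symm_apply_apply]
  change (dite _ _ _ : ZMod q ⊕ H) = _
  rw [dif_pos (by rw [h1]; exact hi)]
  congr 1
  exact Subtype.ext h1

theorem gapRow_inr (a : ZMod q) (i : H) :
    gapRow c H a (Sum.inr i) = Sum.inl (a + c ((i : ZMod q) + 1)) := rfl

/-- the conjugation for the column `y` -/
noncomputable def gapConj (y : ZMod q) : Perm (ZMod q) := c.trans (Equiv.subLeft y)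

theorem gapConj_apply (y j : ZMod q) : gapConj c y j = y - c j := rfl

theorem gapConj_inv (y a : ZMod q) : (gapConj c y)⁻¹ a = c.symm (y - a) := by
  rw [Perm.inv_eq_iff_eq, gapConj_apply]
  simp

/-- the columns -/
noncomputable def gapCol : ZMod q ⊕ H → Perm (ZMod q)
  | Sum.inl y => gapConj c y * (τ * Equiv.addRight (-1 : ZMod q)) * (gapConj c y)⁻¹
  | Sum.inr i => Equiv.addRight (-(c ((i : ZMod q) + 1) - c i))

theorem gapCol_inl (y a : ZMod q) :
    gapCol c τ H (Sum.inl y) a = y - c (τ (c.symm (y - a) - 1)) := by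
  change gapConj c y (τ ((gapConj c y)⁻¹ a + -1)) = _
  rw [gapConj_apply, gapConj_inv, sub_eq_add_neg (c.symm (y - a))]

theorem gapCol_inr (i : H) (a : ZMod q) :
    gapCol c τ H (Sum.inr i) a = a + -(c ((i : ZMod q) + 1) - c i) := rfl

/-- the embedding -/
noncomputable def gapE : Emb (ZMod q) (ZMod q ⊕ H) where
  rho := gapRow c H
  pi := gapCol c τ H

theorem gapE_phi_notMem (a i : ZMod q) (hi : i ∉ H) :
    (gapE c τ H).phi (a, Sum.inl (a + c i)) =
      (a + c (i + 1) - c (τ i), Sum.inl (a + c (i + 1))) := by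
  change (gapCol c τ H (gapRow c H a (Sum.inl (a + c i))) a, gapRow c H a (Sum.inl (a + c i))) = _
  rw [gapRow_notMem c H a i hi, gapCol_inl]
  have h1 : c.symm (a + c (i + 1) - a) - 1 = i := by
    rw [add_sub_cancel_left, symm_apply_apply, add_sub_cancel_right]
  rw [h1]

theorem gapE_phi_mem (a i : ZMod q) (hi : i ∈ H) :
    (gapE c τ H).phi (a, Sum.inl (a + c i)) = (a + -(c (i + 1) - c i), Sum.inr ⟨i, hi⟩) := by
  change (gapCol c τ H (gapRow c H a (Sum.inl (a + c i))) a, gapRow c H a (Sum.inl (a + c i))) = _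
  rw [gapRow_mem c H a i hi, gapCol_inr]

theorem gapE_phi_inr (hH : ∀ i ∈ H, τ i = i) (a : ZMod q) (i : H) :
    (gapE c τ H).phi (a, Sum.inr i) =
      (a + c ((i : ZMod q) + 1) - c i, Sum.inl (a + c ((i : ZMod q) + 1))) := by
  change (gapCol c τ H (gapRow c H a (Sum.inr i)) a, gapRow c H a (Sum.inr i)) = _
  rw [gapRow_inr, gapCol_inl]
  have h1 : c.symm (a + c ((i : ZMod q) + 1) - a) - 1 = i := by
    rw [add_sub_cancel_left, symm_apply_apply, add_sub_cancel_right]
  rw [h1, hH i i.2]

theorem gapE_allGood (hτ : ∀ i, τ (τ i) = i) (hH : ∀ i ∈ H, τ i = i)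
    (hD : ∀ i, i ∉ H → c (τ i + 1) - c (τ i) = -(c (i + 1) - c i)) : (gapE c τ H).AllGood := by
  rintro ⟨a, z⟩
  unfold Emb.Good
  rcases z with x | i
  · obtain ⟨i, rfl⟩ : ∃ i, x = a + c i := ⟨c.symm (x - a), by simp⟩
    by_cases hi : i ∈ H
    · rw [gapE_phi_mem c τ H a i hi, gapE_phi_inr c τ H hH]
      simp only [Prod.mk.injEq, Sum.inl.injEq]
      constructor <;> ring
    · have hi' : τ i ∉ H := by
        intro h
        have h1 := hH _ h
        rw [hτ] at h1
        rw [← h1] at h
        exact hi h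
      have h2 := hD i hi
      rw [gapE_phi_notMem c τ H a i hi]
      have h3 : a + c (i + 1) = (a + c (i + 1) - c (τ i)) + c (τ i) := by ring
      have h4 : (gapE c τ H).phi (a + c (i + 1) - c (τ i), Sum.inl (a + c (i + 1))) =
          (gapE c τ H).phi (a + c (i + 1) - c (τ i),
            Sum.inl ((a + c (i + 1) - c (τ i)) + c (τ i))) := by
        rw [← h3]
      rw [h4, gapE_phi_notMem c τ H _ _ hi', hτ]
      simp only [Prod.mk.injEq, Sum.inl.injEq]
      constructor
      · linear_combination h2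
      · linear_combination h2
  · rw [gapE_phi_inr c τ H hH]
    have h3 : a + c ((i : ZMod q) + 1) = (a + c ((i : ZMod q) + 1) - c i) + c i := by ring
    have h4 : (gapE c τ H).phi (a + c ((i : ZMod q) + 1) - c i,
        Sum.inl (a + c ((i : ZMod q) + 1))) =
        (gapE c τ H).phi (a + c ((i : ZMod q) + 1) - c i,
          Sum.inl ((a + c ((i : ZMod q) + 1) - c i) + c i)) := by
      rw [← h3]
    rw [h4, gapE_phi_mem c τ H _ i i.2]
    simp only [Prod.mk.injEq, and_true]
    ring

theorem gapE_rowsTr [NeZero q] : (gapE c τ H).RowsTr := by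
  intro a
  change Tr (gapRow c H a)
  have step : ∀ z, (gapRow c H a).SameCycle z (gapRow c H a z) := fun z =>
    Perm.sameCycle_apply_right.2 (Perm.SameCycle.refl _ z)
  have h1 : ∀ i, (gapRow c H a).SameCycle (Sum.inl (a + c i)) (Sum.inl (a + c (i + 1))) := by
    intro i
    by_cases hi : i ∈ H
    · have e1 := step (Sum.inl (a + c i))
      rw [gapRow_mem c H a i hi] at e1
      have e2 := step (Sum.inr ⟨i, hi⟩)
      rw [gapRow_inr] at e2
      exact e1.trans e2
    · have e1 := step (Sum.inl (a + c i))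
      rw [gapRow_notMem c H a i hi] at e1
      exact e1
  have h2 : ∀ n : ℕ, (gapRow c H a).SameCycle (Sum.inl (a + c 0)) (Sum.inl (a + c (n : ZMod q))) := by
    intro n
    induction n with
    | zero => rw [Nat.cast_zero]
    | succ n ih =>
      rw [Nat.cast_succ]
      exact ih.trans (h1 _)
  have h3 : ∀ z, (gapRow c H a).SameCycle (Sum.inl (a + c 0)) z := by
    have h4 : ∀ i : ZMod q, (gapRow c H a).SameCycle (Sum.inl (a + c 0)) (Sum.inl (a + c i)) := by
      intro i
      have := h2 i.val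
      rwa [ZMod.natCast_zmod_val] at this
    intro z
    rcases z with x | i
    · have := h4 (c.symm (x - a))
      rwa [apply_symm_apply, add_sub_cancel] at this
    · have e1 := step (Sum.inl (a + c i))
      rw [gapRow_mem c H a i i.2] at e1
      exact (h4 i).trans e1
  intro x y
  exact (h3 x).symm.trans (h3 y)

theorem gapE_col_inl (hcol : Tr (τ * (Equiv.addRight (-1 : ZMod q)))) (y : ZMod q) :
    Tr ((gapE c τ H).pi (Sum.inl y)) := by
  intro u v
  change (gapConj c y * (τ * Equiv.addRight (-1 : ZMod q)) * (gapConj c y)⁻¹).SameCycle u v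
  rw [Perm.sameCycle_conj]
  exact hcol _ _

theorem gapE_cov (x y : ZMod q ⊕ H) (h : Across x y) : (gapE c τ H).Cov x y := by
  obtain ⟨y', i, rfl, rfl⟩ := h
  refine ⟨y' - c i, Or.inl ?_⟩
  have h1 := gapRow_mem c H (y' - c i) i i.2
  rw [sub_add_cancel] at h1
  exact h1

end gap

theorem gap_ex (q : ℕ) [NeZero q] (c τ : Perm (ZMod q)) (H : Finset (ZMod q))
    (hτ : ∀ i, τ (τ i) = i) (hH : ∀ i ∈ H, τ i = i)
    (hD : ∀ i, i ∉ H → c (τ i + 1) - c (τ i) = -(c (i + 1) - c i))
    (hcol : Tr (τ * (Equiv.addRight (-1 : ZMod q))))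
    (hz : ∀ i ∈ H, Tr (Equiv.addRight (-(c (i + 1) - c i)))) :
    Ex (Fin q) (Fin q ⊕ Fin H.card) Across := by
  refine Ex.toFin (P := ZMod q) (Y := ZMod q) (Z := H)
    ⟨gapE c τ H, gapE_rowsTr c τ H, ?_, gapE_allGood c τ H hτ hH hD, gapE_cov c τ H⟩
    (ZMod.card q) (ZMod.card q) (Fintype.card_coe H)
  rintro (y | i)
  · exact gapE_col_inl c τ H hcol y
  · exact hz i i.2

theorem gap_pst (q : ℕ) [NeZero q] (c τ : Perm (ZMod q)) (H : Finset (ZMod q)) (i0 : ZMod q)
    (hi0 : i0 ∈ H)
    (hτ : ∀ i, τ (τ i) = i) (hH : ∀ i ∈ H, τ i = i)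
    (hD : ∀ i, i ∉ H → c (τ i + 1) - c (τ i) = -(c (i + 1) - c i))
    (hcol : Tr (τ * (Equiv.addRight (-1 : ZMod q))))
    (hz : ∀ i ∈ H, i ≠ i0 → Tr (Equiv.addRight (-(c (i + 1) - c i))))
    (hz0 : Two (Equiv.addRight (-(c (i0 + 1) - c i0)))) :
    PSt (Fin q) (Fin q ⊕ Fin H.card) Across := by
  refine PSt.toFin (P := ZMod q) (Y := ZMod q) (Z := H)
    ⟨gapE c τ H, Sum.inr ⟨i0, hi0⟩, gapE_rowsTr c τ H, ?_, hz0, gapE_allGood c τ H hτ hH hD,
      gapE_cov c τ H⟩
    (ZMod.card q) (ZMod.card q) (Fintype.card_coe H)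
  rintro (y | i) hne
  · exact gapE_col_inl c τ H hcol y
  · refine hz i i.2 ?_
    intro h
    apply hne
    congr 1
    exact Subtype.ext h

end Pool.Agent.W_MP_43c969_h13
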