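import Pool.Agent.W_MP_43c969_h13.Defs
import Pool.Agent.W_MP_43c969_h13.Basic
import Pool.Agent.W_MP_43c969_h13.Gap

/-!
# Task GapNat: the same with natural number positions, and the ladder involution

Here `c : ℕ → ℤ` gives the sequence `c 0, …, c (q - 1)`, a complete system of residues modulo `q`,
with `c q ≡ c 0`. The involution `τ` exchanges `i` and `m + i` for `i < t` (ladders), where
`t ≤ m`, `m + t ≤ q`, `t` even.

`ladder_Tr`: `j ↦ τ (j - 1)` is one cycle. For `i < t`: `i + 1 ↦ m + i` and `m + i + 1 ↦ i`;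
`j ↦ j - 1` for the other `j` (with `0 ↦ q - 1`). So from `t` we descend by crossings
`t ↦ m + t - 1 ↦ t - 2 ↦ …` and from `m + t` by `m + t ↦ t - 1 ↦ m + t - 2 ↦ …`;
since `t` is even, from `t` we arrive at `0` and from `m + t` at `m` (all the points
`0, …, t, m, …, m + t` are visited). The complete cycle is
`0 ↦ q - 1 ↦ q - 2 ↦ … ↦ m + t ⇝ m ↦ m - 1 ↦ … ↦ t ⇝ 0`
(if `m + t = q` the point `m + t` is `0`: `0 ↦ τ (q - 1) = t - 1 ↦ …`, the same description).
For `t = 0`, `τ = 1`.

`gap_nat_ex`, `gap_nat_pst` follow from `gap_ex`, `gap_pst` applied to the cast of `c` to `ZMod q`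
(`i ↦ c i.val`); `a ↦ a - D` is one cycle on `ZMod q` iff `gcd (D, q) = 1`, and it has exactly two
cycles if `gcd (D, q) = 2` (`q` even).
-/

set_option autoImplicit false

namespace Pool.Agent.W_MP_43c969_h13

open Equiv

/-- the ladder involution on `ZMod q`. -/
theorem ladder_Tr (q t m : ℕ) [NeZero q] (ht : Even t) (htm : t ≤ m) (hmq : m + t ≤ q) (hm : m < q)
    (τ : Perm (ZMod q))
    (h1 : ∀ i : ℕ, i < t → τ (i : ZMod q) = ((m + i : ℕ) : ZMod q))
    (h2 : ∀ i : ℕ, i < t → τ ((m + i : ℕ) : ZMod q) = (i : ZMod q))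
    (h3 : ∀ i : ℕ, i < q → ¬ i < t → ¬ (m ≤ i ∧ i < m + t) → τ (i : ZMod q) = (i : ZMod q)) :
    Tr (τ * (Equiv.addRight (-1 : ZMod q))) := by
  obtain ⟨f, hf⟩ : ∃ f : Perm (ZMod q), f = τ * (Equiv.addRight (-1 : ZMod q)) := ⟨_, rfl⟩
  rw [← hf]
  have hf1 : ∀ x : ZMod q, f (x + 1) = τ x := by
    intro x
    rw [hf]
    show τ (x + 1 + -1) = τ x
    rw [add_neg_cancel_right]
  let S : ℕ → ℕ → Prop := fun i j => f.SameCycle (i : ZMod q) (j : ZMod q)
  have Srefl : ∀ i, S i i := fun i => Equiv.Perm.SameCycle.refl _ _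
  have Ssymm : ∀ {i j}, S i j → S j i := fun h => Equiv.Perm.SameCycle.symm h
  have Strans : ∀ {i j k}, S i j → S j k → S i k := fun h h' => Equiv.Perm.SameCycle.trans h h'
  have step : ∀ i j : ℕ, τ (i : ZMod q) = (j : ZMod q) → S (i + 1) j := by
    intro i j hij
    show f.SameCycle ((i + 1 : ℕ) : ZMod q) (j : ZMod q)
    refine ⟨1, ?_⟩
    rw [zpow_one, Nat.cast_add, Nat.cast_one, hf1, hij]
  have s1 : ∀ i, i < t → S (i + 1) (m + i) := fun i hi => step _ _ (h1 i hi)
  have s2 : ∀ i, i < t → S (m + i + 1) i := fun i hi => step _ _ (h2 i hi)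
  have s3 : ∀ i, i < q → ¬ i < t → ¬ (m ≤ i ∧ i < m + t) → S (i + 1) i :=
    fun i a b c => step _ _ (h3 i a b c)
  -- steps of length two
  have d1 : ∀ i, i + 2 ≤ t → S (i + 2) i := by
    intro i hi
    exact Strans (s1 (i + 1) (by omega)) (s2 i (by omega))
  have d2 : ∀ i, i + 2 ≤ t → S (m + i + 2) (m + i) := by
    intro i hi
    have := s2 (i + 1) (by omega)
    exact Strans this (s1 i (by omega))
  have e1 : ∀ j, 2 * j ≤ t → S (2 * j) 0 := by
    intro j
    induction j with
    | zero => intro _; exact Srefl 0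
    | succ j ih =>
      intro hj
      exact Strans (d1 (2 * j) (by omega)) (ih (by omega))
  have e2 : ∀ j, 2 * j + 1 ≤ t → S (2 * j + 1) 1 := by
    intro j
    induction j with
    | zero => intro _; exact Srefl 1
    | succ j ih =>
      intro hj
      exact Strans (d1 (2 * j + 1) (by omega)) (ih (by omega))
  have e3 : ∀ j, 2 * j ≤ t → S (m + 2 * j) m := by
    intro j
    induction j with
    | zero => intro _; exact Srefl m
    | succ j ih =>
      intro hj
      exact Strans (d2 (2 * j) (by omega)) (ih (by omega))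
  have e4 : ∀ j, 2 * j + 1 ≤ t → S (m + (2 * j + 1)) (m + 1) := by
    intro j
    induction j with
    | zero => intro _; exact Srefl (m + 1)
    | succ j ih =>
      intro hj
      exact Strans (d2 (2 * j + 1) (by omega)) (ih (by omega))
  -- the runs
  have r1 : ∀ j, t + j ≤ m → S (t + j) t := by
    intro j
    induction j with
    | zero => intro _; exact Srefl t
    | succ j ih =>
      intro hj
      exact Strans (s3 (t + j) (by omega) (by omega) (by omega)) (ih (by omega))
  have r2 : ∀ j, m + t + j ≤ q → S (m + t + j) (m + t) := by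
    intro j
    induction j with
    | zero => intro _; exact Srefl _
    | succ j ih =>
      intro hj
      exact Strans (s3 (m + t + j) (by omega) (by omega) (by omega)) (ih (by omega))
  obtain ⟨k, hk⟩ := ht
  have ht0 : S t 0 := by
    have h := e1 k (by omega)
    have h' : 2 * k = t := by omega
    rwa [h'] at h
  have hm0 : S m 0 := by
    have h := r1 (m - t) (by omega)
    have h' : t + (m - t) = m := by omega
    rw [h'] at h
    exact Strans h ht0
  have all : ∀ i, i < q → S i 0 := by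
    intro i hi
    by_cases c1 : i ≤ t
    · rcases Nat.even_or_odd' i with ⟨j, hj | hj⟩
      · rw [hj]
        exact e1 j (by omega)
      · rw [hj]
        refine Strans (e2 j (by omega)) (Strans (s1 0 (by omega)) ?_)
        exact hm0
    · by_cases c2 : i ≤ m
      · have h := r1 (i - t) (by omega)
        have h' : t + (i - t) = i := by omega
        rw [h'] at h
        exact Strans h ht0
      · by_cases c3 : i ≤ m + t
        · obtain ⟨j, rfl⟩ : ∃ j, i = m + j := ⟨i - m, by omega⟩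
          rcases Nat.even_or_odd' j with ⟨l, hl | hl⟩
          · rw [hl]
            exact Strans (e3 l (by omega)) hm0
          · rw [hl]
            exact Strans (e4 l (by omega)) (s2 0 (by omega))
        · have h := r2 (i - (m + t)) (by omega)
          have h' : m + t + (i - (m + t)) = i := by omega
          rw [h'] at h
          refine Strans h ?_
          have h5 := e3 k (by omega)
          have h6 : m + 2 * k = m + t := by omega
          rw [h6] at h5
          exact Strans h5 hm0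
  intro x y
  have hx := all x.val (ZMod.val_lt x)
  have hy := all y.val (ZMod.val_lt y)
  have h := Strans hx (Ssymm hy)
  have h' : f.SameCycle ((x.val : ℕ) : ZMod q) ((y.val : ℕ) : ZMod q) := h
  rwa [ZMod.natCast_zmod_val, ZMod.natCast_zmod_val] at h'

theorem gapnat_pow (q : ℕ) (D : ZMod q) (n : ℕ) (x : ZMod q) :
    ((Equiv.addRight (-D)) ^ n) x = x - n * D := by
  induction n generalizing x with
  | zero => simp
  | succ n ih =>
    rw [pow_succ, Equiv.Perm.mul_apply, ih]
    show x + -D - n * D = _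
    push_cast
    ring

theorem gapnat_zpow (q : ℕ) (D : ZMod q) (n : ℤ) (x : ZMod q) :
    ((Equiv.addRight (-D)) ^ n) x = x - n * D := by
  obtain ⟨k, rfl | rfl⟩ := n.eq_nat_or_neg
  · rw [zpow_natCast, gapnat_pow]
    simp
  · rw [zpow_neg, zpow_natCast, Equiv.Perm.inv_eq_iff_eq, gapnat_pow]
    push_cast
    ring

theorem gapnat_same (q : ℕ) (D : ZMod q) (x y : ZMod q) (k : ℤ) (h : k * D = x - y) :
    (Equiv.addRight (-D)).SameCycle x y := by
  refine ⟨k, ?_⟩
  rw [gapnat_zpow, h]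
  ring

theorem gapnat_lift (q : ℕ) (x : ZMod q) : ∃ n : ℤ, (n : ZMod q) = x :=
  ZMod.intCast_surjective x

theorem addRight_Tr (q : ℕ) [NeZero q] (D : ℤ) (h : Int.gcd D q = 1) :
    Tr (Equiv.addRight (-(D : ZMod q))) := by
  intro x y
  obtain ⟨n, hn⟩ := gapnat_lift q (x - y)
  have hb := Int.gcd_eq_gcd_ab D q
  rw [h] at hb
  refine gapnat_same q _ x y (n * Int.gcdA D q) ?_
  have h1 : ((1 : ℤ) : ZMod q) = ((D * Int.gcdA D q + q * Int.gcdB D q : ℤ) : ZMod q) := by
    rw [← hb]
    simp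
  push_cast at h1
  rw [ZMod.natCast_self, zero_mul, add_zero] at h1
  rw [← hn]
  push_cast
  calc (n : ZMod q) * (Int.gcdA D q : ZMod q) * (D : ZMod q)
      = n * ((D : ZMod q) * (Int.gcdA D q : ZMod q)) := by ring
    _ = n := by rw [← h1, mul_one]

theorem addRight_Two (q : ℕ) [NeZero q] (D : ℤ) (h : Int.gcd D q = 2) :
    Two (Equiv.addRight (-(D : ZMod q))) := by
  have hD2 : (2 : ℤ) ∣ D := by
    have := Int.gcd_dvd_left D q
    rw [h] at this
    exact this
  have hq2 : (2 : ℤ) ∣ q := by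
    have := Int.gcd_dvd_right D q
    rw [h] at this
    exact this
  have hb := Int.gcd_eq_gcd_ab D q
  rw [h] at hb
  have h1 : ((2 : ℤ) : ZMod q) = ((D * Int.gcdA D q + q * Int.gcdB D q : ℤ) : ZMod q) := by
    rw [← hb]
    simp
  push_cast at h1
  rw [ZMod.natCast_self, zero_mul, add_zero] at h1
  have key : ∀ (x y : ZMod q) (n : ℤ), x - y = ((2 * n : ℤ) : ZMod q) →
      (Equiv.addRight (-(D : ZMod q))).SameCycle x y := by
    intro x y n hn
    refine gapnat_same q _ x y (n * Int.gcdA D q) ?_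
    rw [hn]
    push_cast
    rw [h1]
    ring
  refine ⟨0, 1, ?_, ?_⟩
  · rintro ⟨k, hk⟩
    rw [gapnat_zpow] at hk
    have h2 : ((k * D + 1 : ℤ) : ZMod q) = 0 := by
      push_cast
      rw [← hk]
      ring
    rw [ZMod.intCast_zmod_eq_zero_iff_dvd] at h2
    have h3 : (2 : ℤ) ∣ k * D + 1 := dvd_trans hq2 h2
    have h4 : (2 : ℤ) ∣ k * D := Dvd.dvd.mul_left hD2 k
    omega
  · intro c
    obtain ⟨n, rfl⟩ := gapnat_lift q c
    rcases Int.even_or_odd' n with ⟨l, hl | hl⟩
    · left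
      exact key _ _ l (by rw [hl, sub_zero])
    · right
      exact key _ _ l (by rw [hl]; push_cast; ring)

/-- the common part of `gap_nat_ex` and `gap_nat_pst`. -/
theorem gapnat_core (q t m : ℕ) [NeZero q] (c : ℕ → ℤ) (H : Finset ℕ) (ht : Even t)
    (htm : t ≤ m) (hmq : m + t ≤ q) (hm : m < q)
    (hper : (q : ℤ) ∣ c q - c 0)
    (hinj : ∀ i j : ℕ, i < j → j < q → ¬ (q : ℤ) ∣ c i - c j)
    (hH : ∀ i ∈ H, i < q ∧ t ≤ i ∧ (i < m ∨ m + t ≤ i))
    (hlad : ∀ i : ℕ, i < t → (q : ℤ) ∣ (c (i + 1) - c i) + (c (m + i + 1) - c (m + i)))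
    (hE : ∀ i : ℕ, i < q → i ∉ H → t ≤ i → (i < m ∨ m + t ≤ i) →
      (q : ℤ) ∣ 2 * (c (i + 1) - c i)) :
    ∃ (c' τ : Perm (ZMod q)), (∀ i : ℕ, i ≤ q → c' (i : ZMod q) = ((c i : ℤ) : ZMod q)) ∧
      (∀ i, τ (τ i) = i) ∧
      (∀ i ∈ H.image (Nat.cast : ℕ → ZMod q), τ i = i) ∧
      (∀ i, i ∉ H.image (Nat.cast : ℕ → ZMod q) →
        c' (τ i + 1) - c' (τ i) = -(c' (i + 1) - c' i)) ∧
      Tr (τ * (Equiv.addRight (-1 : ZMod q))) ∧
      (H.image (Nat.cast : ℕ → ZMod q)).card = H.card := by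
  classical
  have hcinj : Function.Injective (fun x : ZMod q => ((c x.val : ℤ) : ZMod q)) := by
    intro x y hxy
    have hxy' : ((c x.val - c y.val : ℤ) : ZMod q) = 0 := by
      push_cast
      exact sub_eq_zero.mpr hxy
    rw [ZMod.intCast_zmod_eq_zero_iff_dvd] at hxy'
    rcases lt_trichotomy x.val y.val with h | h | h
    · exact absurd hxy' (hinj _ _ h (ZMod.val_lt y))
    · exact ZMod.val_injective q h
    · refine absurd ?_ (hinj _ _ h (ZMod.val_lt x))
      rw [← neg_sub, dvd_neg]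
      exact hxy'
  let c' : Perm (ZMod q) := Equiv.ofBijective _ (Finite.injective_iff_bijective.mp hcinj)
  have hc'lt : ∀ i : ℕ, i < q → c' (i : ZMod q) = ((c i : ℤ) : ZMod q) := by
    intro i hi
    show ((c (i : ZMod q).val : ℤ) : ZMod q) = _
    rw [ZMod.val_natCast_of_lt hi]
  have hc' : ∀ i : ℕ, i ≤ q → c' (i : ZMod q) = ((c i : ℤ) : ZMod q) := by
    intro i hi
    rcases Nat.lt_or_ge i q with h | h
    · exact hc'lt i h
    · obtain rfl : i = q := le_antisymm hi h
      have h0 := hc'lt 0 (by omega)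
      rw [Nat.cast_zero] at h0
      rw [ZMod.natCast_self, h0]
      have h5 : ((c i - c 0 : ℤ) : ZMod i) = 0 := by
        rw [ZMod.intCast_zmod_eq_zero_iff_dvd]
        exact hper
      push_cast at h5
      exact (sub_eq_zero.mp h5).symm
  -- the involution
  let g : ℕ → ℕ := fun i => if i < t then m + i else if m ≤ i ∧ i < m + t then i - m else i
  have hglt : ∀ i, i < q → g i < q := by
    intro i hi
    simp only [g]
    split_ifs <;> omega
  have hgg : ∀ i, i < q → g (g i) = i := by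
    intro i hi
    simp only [g]
    split_ifs <;> omega
  have hinv : Function.Involutive (fun x : ZMod q => ((g x.val : ℕ) : ZMod q)) := by
    intro x
    show ((g ((g x.val : ℕ) : ZMod q).val : ℕ) : ZMod q) = x
    rw [ZMod.val_natCast_of_lt (hglt _ (ZMod.val_lt x)), hgg _ (ZMod.val_lt x),
      ZMod.natCast_zmod_val]
  let τ : Perm (ZMod q) := hinv.toPerm
  have hτ : ∀ i : ℕ, i < q → τ (i : ZMod q) = ((g i : ℕ) : ZMod q) := by
    intro i hi
    show ((g (i : ZMod q).val : ℕ) : ZMod q) = _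
    rw [ZMod.val_natCast_of_lt hi]
  have hcastH : ∀ i ∈ H, ∀ j ∈ H, (i : ZMod q) = (j : ZMod q) → i = j := by
    intro i hi j hj hij
    have h1 := congrArg ZMod.val hij
    rwa [ZMod.val_natCast_of_lt (hH i hi).1, ZMod.val_natCast_of_lt (hH j hj).1] at h1
  refine ⟨c', τ, hc', fun i => hinv i, ?_, ?_, ?_, ?_⟩
  · intro i hi
    obtain ⟨j, hj, rfl⟩ := Finset.mem_image.mp hi
    obtain ⟨a1, a2, a3⟩ := hH j hj
    rw [hτ j a1]
    congr 1
    simp only [g]
    split_ifs <;> omega
  · intro x hx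
    obtain ⟨i, hi, rfl⟩ : ∃ i : ℕ, i < q ∧ (i : ZMod q) = x :=
      ⟨x.val, ZMod.val_lt x, ZMod.natCast_zmod_val x⟩
    have hiH : i ∉ H := fun h => hx (Finset.mem_image_of_mem _ h)
    rw [hτ i hi]
    have hgi := hglt i hi
    have a1 := hc' (g i + 1) (by omega)
    have a2 := hc' (g i) (by omega)
    have a3 := hc' (i + 1) (by omega)
    have a4 := hc' i (by omega)
    rw [Nat.cast_add, Nat.cast_one] at a1 a3
    rw [a1, a2, a3, a4]
    have goal' : (q : ℤ) ∣ (c (g i + 1) - c (g i)) + (c (i + 1) - c i) := by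
      by_cases b1 : i < t
      · have hg : g i = m + i := if_pos b1
        rw [hg, add_comm (c (m + i + 1) - c (m + i))]
        exact hlad i b1
      · by_cases b2 : m ≤ i ∧ i < m + t
        · have hg : g i = i - m := by
            show (if i < t then m + i else if m ≤ i ∧ i < m + t then i - m else i) = _
            rw [if_neg b1, if_pos b2]
          rw [hg]
          have h6 := hlad (i - m) (by omega)
          have h7 : m + (i - m) = i := by omega
          rw [h7] at h6
          exact h6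
        · have hg : g i = i := by
            show (if i < t then m + i else if m ≤ i ∧ i < m + t then i - m else i) = _
            rw [if_neg b1, if_neg b2]
          rw [hg, ← two_mul]
          exact hE i hi hiH (by omega) (by omega)
    have h8 : (((c (g i + 1) - c (g i)) + (c (i + 1) - c i) : ℤ) : ZMod q) = 0 := by
      rw [ZMod.intCast_zmod_eq_zero_iff_dvd]
      exact goal'
    push_cast at h8
    exact eq_neg_of_add_eq_zero_left h8
  · refine ladder_Tr q t m ht htm hmq hm τ ?_ ?_ ?_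
    · intro i hi
      rw [hτ i (by omega)]
      congr 1
      exact if_pos hi
    · intro i hi
      rw [hτ (m + i) (by omega)]
      congr 1
      simp only [g]
      split_ifs <;> omega
    · intro i h1 h2 h3
      rw [hτ i h1]
      congr 1
      show (if i < t then m + i else if m ≤ i ∧ i < m + t then i - m else i) = _
      rw [if_neg h2, if_neg h3]
  · exact Finset.card_image_of_injOn (fun i hi j hj hij => hcastH i hi j hj hij)

theorem gap_nat_ex (q t m : ℕ) (c : ℕ → ℤ) (H : Finset ℕ) (hq : 1 ≤ q) (ht : Even t)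
    (htm : t ≤ m) (hmq : m + t ≤ q) (hm : m < q)
    (hper : (q : ℤ) ∣ c q - c 0)
    (hinj : ∀ i j : ℕ, i < j → j < q → ¬ (q : ℤ) ∣ c i - c j)
    (hH : ∀ i ∈ H, i < q ∧ t ≤ i ∧ (i < m ∨ m + t ≤ i))
    (hlad : ∀ i : ℕ, i < t → (q : ℤ) ∣ (c (i + 1) - c i) + (c (m + i + 1) - c (m + i)))
    (hE : ∀ i : ℕ, i < q → i ∉ H → t ≤ i → (i < m ∨ m + t ≤ i) → (q : ℤ) ∣ 2 * (c (i + 1) - c i))
    (hz : ∀ i ∈ H, Int.gcd (c (i + 1) - c i) q = 1) :
    Ex (Fin q) (Fin q ⊕ Fin H.card) Across := by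
  have : NeZero q := ⟨by omega⟩
  obtain ⟨c', τ, hc', h1, h2, h3, h4, h5⟩ :=
    gapnat_core q t m c H ht htm hmq hm hper hinj hH hlad hE
  have h6 := gap_ex q c' τ _ h1 h2 h3 h4 (by
    intro x hx
    obtain ⟨i, hi, rfl⟩ := Finset.mem_image.mp hx
    have hiq := (hH i hi).1
    have a3 := hc' (i + 1) (by omega)
    have a4 := hc' i (by omega)
    rw [Nat.cast_add, Nat.cast_one] at a3
    rw [a3, a4, ← Int.cast_sub]
    exact addRight_Tr q _ (hz i hi))
  rwa [h5] at h6

theorem gap_nat_pst (q t m i0 : ℕ) (c : ℕ → ℤ) (H : Finset ℕ) (hq : 1 ≤ q) (ht : Even t)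
    (htm : t ≤ m) (hmq : m + t ≤ q) (hm : m < q)
    (hper : (q : ℤ) ∣ c q - c 0)
    (hinj : ∀ i j : ℕ, i < j → j < q → ¬ (q : ℤ) ∣ c i - c j)
    (hH : ∀ i ∈ H, i < q ∧ t ≤ i ∧ (i < m ∨ m + t ≤ i))
    (hlad : ∀ i : ℕ, i < t → (q : ℤ) ∣ (c (i + 1) - c i) + (c (m + i + 1) - c (m + i)))
    (hE : ∀ i : ℕ, i < q → i ∉ H → t ≤ i → (i < m ∨ m + t ≤ i) → (q : ℤ) ∣ 2 * (c (i + 1) - c i))
    (hi0 : i0 ∈ H) (hz0 : Int.gcd (c (i0 + 1) - c i0) q = 2)
    (hz : ∀ i ∈ H, i ≠ i0 → Int.gcd (c (i + 1) - c i) q = 1) :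
    PSt (Fin q) (Fin q ⊕ Fin H.card) Across := by
  have : NeZero q := ⟨by omega⟩
  obtain ⟨c', τ, hc', h1, h2, h3, h4, h5⟩ :=
    gapnat_core q t m c H ht htm hmq hm hper hinj hH hlad hE
  have h6 := gap_pst q c' τ _ (i0 : ZMod q) (Finset.mem_image_of_mem _ hi0) h1 h2 h3 h4 (by
    intro x hx hne
    obtain ⟨i, hi, rfl⟩ := Finset.mem_image.mp hx
    have hiq := (hH i hi).1
    have a3 := hc' (i + 1) (by omega)
    have a4 := hc' i (by omega)
    rw [Nat.cast_add, Nat.cast_one] at a3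
    rw [a3, a4, ← Int.cast_sub]
    exact addRight_Tr q _ (hz i hi (fun h => hne (by rw [h])))) (by
    have hiq := (hH i0 hi0).1
    have a3 := hc' (i0 + 1) (by omega)
    have a4 := hc' i0 (by omega)
    rw [Nat.cast_add, Nat.cast_one] at a3
    rw [a3, a4, ← Int.cast_sub]
    exact addRight_Two q _ hz0)
  rwa [h5] at h6

end Pool.Agent.W_MP_43c969_h13
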