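import Pool.Agent.W_MP_43c969_h13.Defs
import Pool.Agent.W_MP_43c969_h13.Basic
import Pool.Agent.W_MP_43c969_h13.Gap
import Pool.Agent.W_MP_43c969_h13.GapNat

/-!
# Task FamA: the families `r = q`, and `q` odd, `r ≡ q` modulo `4`

Both use `gap_nat_ex`. All the data were checked by computer for all `q ≤ 61`.

`fam_id`: `c i = i`, `t = 0`, `m = 0`, `H = {0, …, q - 1}` (all the differences are `1`).

`fam_odd` (`3 ≤ r`; the case `r = q` is `fam_id`): `m = (q - 1) / 2`, `t = (q - r) / 2` (even,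
`t ≤ m - 1`), `c i = i` for `i < m`, `c i = m - 1 - i` for `m ≤ i < q`, `c q = 0`;
`H` = the positions `i < q` which are not in a ladder (`t ≤ i < m` or `m + t ≤ i < q`), there are
`q - 2 t = r` of them. The differences are `+1` (`i < m - 1`), `-m` (`i = m - 1`), `-1`
(`m ≤ i < q - 1`) and `c q - c (q - 1) = q - m` for `i = q - 1`; `gcd (m, q) = 1` as
`q = 2 m + 1`. There is no other position (`hE` is void).
-/

set_option autoImplicit false

namespace Pool.Agent.W_MP_43c969_h13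

open Equiv

theorem FamA_not_dvd {q : ℕ} {x : ℤ} (h0 : x ≠ 0) (h1 : -(q : ℤ) < x) (h2 : x < q) :
    ¬ (q : ℤ) ∣ x := fun h => h0 (Int.eq_zero_of_abs_lt_dvd h (abs_lt.2 ⟨h1, h2⟩))

theorem FamA_gcd {q : ℕ} {x : ℤ} (h : IsCoprime x (q : ℤ)) : Int.gcd x q = 1 :=
  Int.isCoprime_iff_gcd_eq_one.1 h

/-- the sequence with two runs. -/
def FamA_c (q m : ℕ) (i : ℕ) : ℤ := if i < m then (i : ℤ) else if i < q then (m : ℤ) - 1 - i else 0

theorem FamA_c1 {q m i : ℕ} (h : i < m) : FamA_c q m i = i := if_pos h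

theorem FamA_c2 {q m i : ℕ} (h : m ≤ i) (h' : i < q) : FamA_c q m i = (m : ℤ) - 1 - i := by
  unfold FamA_c
  rw [if_neg (not_lt.2 h), if_pos h']

theorem FamA_c3 {q m : ℕ} (h : m ≤ q) : FamA_c q m q = 0 := by
  unfold FamA_c
  rw [if_neg (not_lt.2 h), if_neg (lt_irrefl _)]

/-- the differences of the sequence with two runs. -/
theorem FamA_diff {q m i : ℕ} (hm : 1 ≤ m) (hmq : m < q) (hi : i < q) :
    (i + 1 < m ∧ FamA_c q m (i + 1) - FamA_c q m i = 1) ∨
    (i + 1 = m ∧ FamA_c q m (i + 1) - FamA_c q m i = -m) ∨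
    (m ≤ i ∧ i + 1 < q ∧ FamA_c q m (i + 1) - FamA_c q m i = -1) ∨
    (i + 1 = q ∧ FamA_c q m (i + 1) - FamA_c q m i = q - m) := by
  rcases lt_trichotomy (i + 1) m with h | h | h
  · left
    refine ⟨h, ?_⟩
    rw [FamA_c1 h, FamA_c1 (by omega)]
    push_cast
    ring
  · right; left
    refine ⟨h, ?_⟩
    rw [FamA_c2 (i := i + 1) (by omega) (by omega), FamA_c1 (by omega)]
    have : (m : ℤ) = i + 1 := by exact_mod_cast h.symm
    push_cast
    linarith
  · rcases Nat.lt_or_ge (i + 1) q with h' | h'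
    · right; right; left
      refine ⟨by omega, h', ?_⟩
      rw [FamA_c2 (i := i + 1) (by omega) h', FamA_c2 (i := i) (by omega) hi]
      push_cast
      ring
    · right; right; right
      have hq : i + 1 = q := by omega
      refine ⟨hq, ?_⟩
      have hq' : (q : ℤ) = i + 1 := by exact_mod_cast hq.symm
      rw [FamA_c2 (i := i) (by omega) hi, hq, FamA_c3 hmq.le, hq']
      ring

/-- the two run families. -/
theorem FamA_two (q t m : ℕ) (H : Finset ℕ) (ht : Even t) (htm : t < m) (hmq : m + t < q)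
    (hH : ∀ i ∈ H, i < q ∧ t ≤ i ∧ (i < m ∨ m + t ≤ i))
    (hE : ∀ i : ℕ, i < q → i ∉ H → t ≤ i → (i < m ∨ m + t ≤ i) →
      (i + 1 = m ∨ i + 1 = q) ∧ q = 2 * m)
    (hz : ∀ i ∈ H, (i + 1 = m ∨ i + 1 = q) → IsCoprime (m : ℤ) q) :
    Ex (Fin q) (Fin q ⊕ Fin H.card) Across := by
  refine gap_nat_ex q t m (FamA_c q m) H (by omega) ht htm.le hmq.le (by omega) ?_ ?_ hH ?_ ?_ ?_
  · rw [FamA_c3 (by omega), FamA_c1 (by omega)]
    simp
  · intro i j hij hj
    rcases Nat.lt_or_ge j m with h1 | h1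
    · rw [FamA_c1 (hij.trans h1), FamA_c1 h1]
      apply FamA_not_dvd <;> omega
    · rcases Nat.lt_or_ge i m with h2 | h2
      · rw [FamA_c1 h2, FamA_c2 h1 hj]
        apply FamA_not_dvd <;> omega
      · rw [FamA_c2 h2 (hij.trans hj), FamA_c2 h1 hj]
        apply FamA_not_dvd <;> omega
  · intro i hi
    rw [FamA_c1 (by omega), FamA_c1 (by omega), FamA_c2 (i := m + i + 1) (by omega) (by omega),
      FamA_c2 (i := m + i) (by omega) (by omega)]
    have : ((i + 1 : ℕ) : ℤ) - i + ((m : ℤ) - 1 - ((m + i + 1 : ℕ) : ℤ) -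
        ((m : ℤ) - 1 - ((m + i : ℕ) : ℤ))) = 0 := by
      push_cast
      ring
    rw [this]
    exact dvd_zero _
  · intro i hi hiH h1 h2
    obtain ⟨h3, h4⟩ := hE i hi hiH h1 h2
    have h4' : (q : ℤ) = 2 * m := by exact_mod_cast h4
    rcases FamA_diff (q := q) (m := m) (i := i) (by omega) (by omega) hi with
      ⟨a, b⟩ | ⟨a, b⟩ | ⟨a, a', b⟩ | ⟨a, b⟩
    · omega
    · rw [b]
      exact ⟨-1, by rw [h4']; ring⟩
    · omega
    · rw [b]
      exact ⟨1, by rw [h4']; ring⟩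
  · intro i hi
    have hq := (hH i hi).1
    rcases FamA_diff (q := q) (m := m) (i := i) (by omega) (by omega) hq with
      ⟨a, b⟩ | ⟨a, b⟩ | ⟨a, a', b⟩ | ⟨a, b⟩
    · rw [b]
      exact FamA_gcd isCoprime_one_left
    · rw [b]
      exact FamA_gcd (hz i hi (Or.inl a)).neg_left
    · rw [b]
      exact FamA_gcd isCoprime_one_left.neg_left
    · rw [b]
      obtain ⟨u, v, huv⟩ := hz i hi (Or.inr a)
      exact FamA_gcd ⟨-u, v + u, by rw [← huv]; ring⟩

theorem fam_id (q : ℕ) (hq : 1 ≤ q) : Ex (Fin q) (Fin q ⊕ Fin q) Across := by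
  have h := gap_nat_ex q 0 0 (fun i => (i : ℤ)) (Finset.range q) hq Even.zero le_rfl (by omega)
    (by omega) ?_ ?_ ?_ ?_ ?_ ?_
  · rwa [Finset.card_range] at h
  · simp
  · intro i j hij hj
    apply FamA_not_dvd <;> omega
  · intro i hi
    have := Finset.mem_range.1 hi
    omega
  · intro i hi
    omega
  · intro i hi hi'
    exact absurd (Finset.mem_range.2 hi) hi'
  · intro i hi
    have : (((i + 1 : ℕ) : ℤ) - (i : ℤ)) = 1 := by push_cast; ring
    show Int.gcd (((i + 1 : ℕ) : ℤ) - (i : ℤ)) q = 1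
    rw [this]
    exact FamA_gcd isCoprime_one_left

theorem fam_odd (q r : ℕ) (hq : q % 2 = 1) (h : q % 4 = r % 4) (hr : 3 ≤ r) (hrq : r ≤ q) :
    Ex (Fin q) (Fin q ⊕ Fin r) Across := by
  rcases Nat.eq_or_lt_of_le hrq with h1 | h1
  · subst h1
    exact fam_id r (by omega)
  obtain ⟨m, hm⟩ : ∃ m, q = 2 * m + 1 := ⟨q / 2, by omega⟩
  obtain ⟨t, ht⟩ : ∃ t, q = r + 2 * t := ⟨(q - r) / 2, by omega⟩
  have ht' : Even t := Nat.even_iff.2 (by omega)
  have hcop : IsCoprime (m : ℤ) q := by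
    have hm' : (q : ℤ) = 2 * m + 1 := by exact_mod_cast hm
    exact ⟨-2, 1, by rw [hm']; ring⟩
  have key := FamA_two q t m (Finset.Ico t m ∪ Finset.Ico (m + t) q) ht' (by omega) (by omega)
    ?_ ?_ (fun _ _ _ => hcop)
  · have hc : (Finset.Ico t m ∪ Finset.Ico (m + t) q).card = r := by
      rw [Finset.card_union_of_disjoint, Nat.card_Ico, Nat.card_Ico]
      · omega
      · rw [Finset.disjoint_left]
        intro a ha hb
        rw [Finset.mem_Ico] at ha hb
        omega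
    rwa [hc] at key
  · intro i hi
    rw [Finset.mem_union, Finset.mem_Ico, Finset.mem_Ico] at hi
    omega
  · intro i hi hiH h2 h3
    exfalso
    apply hiH
    rw [Finset.mem_union, Finset.mem_Ico, Finset.mem_Ico]
    omega

end Pool.Agent.W_MP_43c969_h13
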