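import Pool.Agent.W_MP_43c969_h13.Defs
import Pool.Agent.W_MP_43c969_h13.Basic
import Pool.Agent.W_MP_43c969_h13.Gap
import Pool.Agent.W_MP_43c969_h13.GapNat
import Pool.Agent.W_MP_43c969_h13.FamA

/-!
# Task FamB: the families `q`, `r` even

They use `gap_nat_ex`. All the data were checked by computer for all `q ≤ 61`.
Two runs: `c i = i` for `i < m`, `c i = m - 1 - i` for `m ≤ i < q`, `c q = 0`; the differences are
`+1` (`i < m - 1`), `-m` (`i = m - 1`), `-1` (`m ≤ i < q - 1`), `q - m` (`i = q - 1`).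

`fam_even2` (`q - r ≡ 2` modulo `4`): `m = q / 2`, `t = (q - 2 - r) / 2`, even, `t ≤ m - 1`; `H` is
the set of the positions which are not in a ladder and different from `m - 1`, `q - 1` (there
the difference is `-q/2`, `q/2`, so twice it is `0`); `q - 2 - 2 t = r` elements.
`fam_even0` (`4 ∣ q`, `4 ∣ r`, `4 ≤ r < q`): `m = q / 2 - 1`, `t = (q - r) / 2`, even, `t ≤ m - 1`;
`H` = all the positions which are not in a ladder; `gcd (m, q) = 1` as `q = 2 m + 2`, `m` odd.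
`fam_even22` (`q ≡ r ≡ 2` modulo `4`, `6 ≤ r < q`): `m = q / 2 - 2`, `t = (q - r) / 2`, even,
`t ≤ m - 1`; `H` = all the positions which are not in a ladder; `gcd (m, q) = 1` as `q = 2 m + 4`,
`m` odd.
`fam_even_two` (`q ≡ 2` modulo `4`, `6 ≤ q`, `r = 2`): `m = q / 2`, `t = m - 1` (even),
`c i = 2 i` for `i < m`, `c i = q - 1 - 2 (i - m)` for `m ≤ i < q`, `c q = 0`, `H = {m - 1, q - 1}`
(differences `+1`, `-1`); ladder differences `+2`, `-2`.
`fam_even` collects them: `q`, `r` even, `2 ≤ r ≤ q` (`r = q` is `fam_id`; if `q - r ≡ 2` modulo `4`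
use `fam_even2`; otherwise `q ≡ r` modulo `4`).
-/

set_option autoImplicit false

namespace Pool.Agent.W_MP_43c969_h13

open Equiv

theorem FamB_card (a b c d r : ℕ) (h1 : b ≤ c) (h : (b - a) + (d - c) = r) :
    (Finset.Ico a b ∪ Finset.Ico c d).card = r := by
  rw [Finset.card_union_of_disjoint, Nat.card_Ico, Nat.card_Ico]
  · exact h
  · rw [Finset.disjoint_left]
    intro x ha hb
    rw [Finset.mem_Ico] at ha hb
    omega

theorem fam_even2 (q r : ℕ) (hq : Even q) (h : (q - r) % 4 = 2) (hr : 2 ≤ r) (hrq : r < q) :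
    Ex (Fin q) (Fin q ⊕ Fin r) Across := by
  rw [Nat.even_iff] at hq
  obtain ⟨m, hm⟩ : ∃ m, q = 2 * m := ⟨q / 2, by omega⟩
  obtain ⟨t, ht⟩ : ∃ t, q = r + 2 + 2 * t := ⟨(q - 2 - r) / 2, by omega⟩
  have ht' : Even t := Nat.even_iff.2 (by omega)
  have key := FamA_two q t m (Finset.Ico t (m - 1) ∪ Finset.Ico (m + t) (q - 1)) ht' (by omega)
    (by omega) ?_ ?_ ?_
  · rwa [FamB_card _ _ _ _ r (by omega) (by omega)] at key
  · intro i hi
    rw [Finset.mem_union, Finset.mem_Ico, Finset.mem_Ico] at hi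
    omega
  · intro i hi hiH h2 h3
    rw [Finset.mem_union, Finset.mem_Ico, Finset.mem_Ico] at hiH
    omega
  · intro i hi hi'
    exfalso
    rw [Finset.mem_union, Finset.mem_Ico, Finset.mem_Ico] at hi
    omega

theorem fam_even0 (q r : ℕ) (hq : q % 4 = 0) (h : r % 4 = 0) (hr : 4 ≤ r) (hrq : r < q) :
    Ex (Fin q) (Fin q ⊕ Fin r) Across := by
  obtain ⟨k, hk⟩ : ∃ k, q = 4 * k + 4 := ⟨q / 4 - 1, by omega⟩
  obtain ⟨m, hm⟩ : ∃ m, m = 2 * k + 1 := ⟨_, rfl⟩
  obtain ⟨t, ht⟩ : ∃ t, q = r + 2 * t := ⟨(q - r) / 2, by omega⟩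
  have ht' : Even t := Nat.even_iff.2 (by omega)
  have hcop : IsCoprime (m : ℤ) q := by
    have h1 : (q : ℤ) = 4 * k + 4 := by exact_mod_cast hk
    have h2 : (m : ℤ) = 2 * k + 1 := by exact_mod_cast hm
    exact ⟨1 + 2 * k, -k, by rw [h1, h2]; ring⟩
  have key := FamA_two q t m (Finset.Ico t m ∪ Finset.Ico (m + t) q) ht' (by omega) (by omega)
    ?_ ?_ (fun _ _ _ => hcop)
  · rwa [FamB_card _ _ _ _ r (by omega) (by omega)] at key
  · intro i hi
    rw [Finset.mem_union, Finset.mem_Ico, Finset.mem_Ico] at hi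
    omega
  · intro i hi hiH h2 h3
    exfalso
    apply hiH
    rw [Finset.mem_union, Finset.mem_Ico, Finset.mem_Ico]
    omega

theorem fam_even22 (q r : ℕ) (hq : q % 4 = 2) (h : r % 4 = 2) (hr : 6 ≤ r) (hrq : r < q) :
    Ex (Fin q) (Fin q ⊕ Fin r) Across := by
  obtain ⟨k, hk⟩ : ∃ k, q = 4 * k + 6 := ⟨q / 4 - 1, by omega⟩
  obtain ⟨m, hm⟩ : ∃ m, m = 2 * k + 1 := ⟨_, rfl⟩
  obtain ⟨t, ht⟩ : ∃ t, q = r + 2 * t := ⟨(q - r) / 2, by omega⟩
  have ht' : Even t := Nat.even_iff.2 (by omega)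
  have hcop : IsCoprime (m : ℤ) q := by
    have h1 : (q : ℤ) = 4 * k + 6 := by exact_mod_cast hk
    have h2 : (m : ℤ) = 2 * k + 1 := by exact_mod_cast hm
    exact ⟨2 * k + 1 + 2 * k * (k + 1), -(k * (k + 1)), by rw [h1, h2]; ring⟩
  have key := FamA_two q t m (Finset.Ico t m ∪ Finset.Ico (m + t) q) ht' (by omega) (by omega)
    ?_ ?_ (fun _ _ _ => hcop)
  · rwa [FamB_card _ _ _ _ r (by omega) (by omega)] at key
  · intro i hi
    rw [Finset.mem_union, Finset.mem_Ico, Finset.mem_Ico] at hi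
    omega
  · intro i hi hiH h2 h3
    exfalso
    apply hiH
    rw [Finset.mem_union, Finset.mem_Ico, Finset.mem_Ico]
    omega

/-- the sequence with steps two. -/
def FamB_c (q m : ℕ) (i : ℕ) : ℤ :=
  if i < m then 2 * (i : ℤ) else if i < q then (q : ℤ) - 1 - 2 * (i - m) else 0

theorem FamB_c1 {q m i : ℕ} (h : i < m) : FamB_c q m i = 2 * i := if_pos h

theorem FamB_c2 {q m i : ℕ} (h : m ≤ i) (h' : i < q) :
    FamB_c q m i = (q : ℤ) - 1 - 2 * (i - m) := by
  unfold FamB_c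
  rw [if_neg (not_lt.2 h), if_pos h']

theorem FamB_c3 {q m : ℕ} (h : m ≤ q) : FamB_c q m q = 0 := by
  unfold FamB_c
  rw [if_neg (not_lt.2 h), if_neg (lt_irrefl _)]

theorem fam_even_two (q : ℕ) (hq : q % 4 = 2) (hq' : 6 ≤ q) :
    Ex (Fin q) (Fin q ⊕ Fin 2) Across := by
  obtain ⟨k, hk⟩ : ∃ k, q = 4 * k + 6 := ⟨q / 4 - 1, by omega⟩
  obtain ⟨m, hm⟩ : ∃ m, m = 2 * k + 3 := ⟨_, rfl⟩
  obtain ⟨t, ht⟩ : ∃ t, t = 2 * k + 2 := ⟨_, rfl⟩
  have hqm : q = 2 * m := by omega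
  have ht' : Even t := Nat.even_iff.2 (by omega)
  have hqm' : (q : ℤ) = 2 * m := by exact_mod_cast hqm
  have d1 : FamB_c q m (m - 1 + 1) - FamB_c q m (m - 1) = 1 := by
    rw [FamB_c2 (i := m - 1 + 1) (by omega) (by omega), FamB_c1 (i := m - 1) (by omega)]
    have h1 : ((m - 1 + 1 : ℕ) : ℤ) = m := by
      have : m - 1 + 1 = m := by omega
      rw [this]
    have h2 : ((m - 1 : ℕ) : ℤ) = (m : ℤ) - 1 := by
      rw [Nat.cast_sub (by omega)]
      simp
    rw [h1, h2, hqm']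
    ring
  have d2 : FamB_c q m (q - 1 + 1) - FamB_c q m (q - 1) = -1 := by
    have h0 : q - 1 + 1 = q := by omega
    rw [h0, FamB_c3 (by omega), FamB_c2 (i := q - 1) (by omega) (by omega)]
    have h2 : ((q - 1 : ℕ) : ℤ) = (q : ℤ) - 1 := by
      rw [Nat.cast_sub (by omega)]
      simp
    rw [h2, hqm']
    ring
  have key := gap_nat_ex q t m (FamB_c q m) {m - 1, q - 1} (by omega) ht' (by omega) (by omega)
    (by omega) ?_ ?_ ?_ ?_ ?_ ?_
  · have hc : ({m - 1, q - 1} : Finset ℕ).card = 2 := Finset.card_pair (by omega)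
    rwa [hc] at key
  · rw [FamB_c3 (by omega), FamB_c1 (by omega)]
    simp
  · intro i j hij hj
    rcases Nat.lt_or_ge j m with h1 | h1
    · rw [FamB_c1 (hij.trans h1), FamB_c1 h1]
      apply FamA_not_dvd <;> omega
    · rcases Nat.lt_or_ge i m with h2 | h2
      · rw [FamB_c1 h2, FamB_c2 h1 hj]
        apply FamA_not_dvd <;> omega
      · rw [FamB_c2 h2 (hij.trans hj), FamB_c2 h1 hj]
        apply FamA_not_dvd <;> omega
  · intro i hi
    rw [Finset.mem_insert, Finset.mem_singleton] at hi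
    omega
  · intro i hi
    rw [FamB_c1 (by omega), FamB_c1 (by omega), FamB_c2 (i := m + i + 1) (by omega) (by omega),
      FamB_c2 (i := m + i) (by omega) (by omega)]
    have : (2 * ((i + 1 : ℕ) : ℤ) - 2 * i + ((q : ℤ) - 1 - 2 * (((m + i + 1 : ℕ) : ℤ) - m) -
        ((q : ℤ) - 1 - 2 * (((m + i : ℕ) : ℤ) - m)))) = 0 := by
      push_cast
      ring
    rw [this]
    exact dvd_zero _
  · intro i hi hiH h2 h3
    exfalso
    apply hiH
    rw [Finset.mem_insert, Finset.mem_singleton]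
    omega
  · intro i hi
    rw [Finset.mem_insert, Finset.mem_singleton] at hi
    rcases hi with rfl | rfl
    · rw [d1]
      exact FamA_gcd isCoprime_one_left
    · rw [d2]
      exact FamA_gcd isCoprime_one_left.neg_left

theorem fam_even (q r : ℕ) (hq : Even q) (hr : Even r) (hr' : 2 ≤ r) (hrq : r < q) :
    Ex (Fin q) (Fin q ⊕ Fin r) Across := by
  have hq2 := Nat.even_iff.1 hq
  have hr2 := Nat.even_iff.1 hr
  by_cases h : (q - r) % 4 = 2
  · exact fam_even2 q r hq h hr' hrq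
  · rcases Nat.lt_or_ge (q % 4) 2 with h1 | h1
    · exact fam_even0 q r (by omega) (by omega) (by omega) hrq
    · rcases Nat.lt_or_ge r 6 with h2 | h2
      · have : r = 2 := by omega
        subst this
        exact fam_even_two q (by omega) (by omega)
      · exact fam_even22 q r (by omega) (by omega) h2 hrq

end Pool.Agent.W_MP_43c969_h13
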