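import Pool.Agent.W_MP_43c969_h13.Defs
import Pool.Agent.W_MP_43c969_h13.Basic
import Pool.Agent.W_MP_43c969_h13.Gap
import Pool.Agent.W_MP_43c969_h13.GapNat

/-!
# Task FamCa: the family F4a, `q ≡ 2` modulo `4`, `r = q - 1` (the text describes F4a, F4b, F4c)

They use `gap_nat_ex` with `q = 2 h`, `h` odd, a number `k` and a block `B` of `2 k` offsets
`B_0 = k - 1 + h, …, B_{2k-1} = k - 1` (the offsets `0, …, k - 1, h, …, h + k - 1` in some order).
`m = h - k + 1`; `c i = k - 1 + i` for `i ≤ h - k`; `c i = m - 1 - i` for `m ≤ i ≤ 2 h - 2 k`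
(that is `c (m + j) = -1 - j`); `c (2 h - 2 k + 1 + l) = B_l` for `0 ≤ l ≤ 2 k - 2`;
`c q = k - 1`. Differences: `+1` for `i < h - k`; `c m - c (m - 1) = -h` at `i = m - 1` (twice it
is `0` modulo `q`: this position is not in `H`); `-1` for `m ≤ i < 2 h - 2 k + 1` (note
`B_0 = h + k - 1 ≡ c (2 h - 2 k) - 1`); then the differences of the block.
`H` = the positions which are not in a ladder, different from `m - 1` and from the positions of the
block where the difference is `h` or `-h`. All the data were checked by computer for `q ≤ 61`.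

`fam_F4a` (`r = q - 1`, `10 ≤ q`): `k = 4`, `t = 0`,
`B = 3+h, 1, 0, 2+h, 1+h, h, 2, 3`; differences `-2-h, -1, 2+h, -1, -1, 2-h, 1`, all in `H`
(`7 + 2 (h - 4) = q - 1`).
`fam_F4b` (`r ≡ 3` modulo `4`, `3 ≤ r ≤ q - 3`): `k = 3`, `t = h - 3 - (r - 3) / 2` (even),
`B = 2+h, 1+h, 1, 0, h, 2`; differences `-1, -h, -1, h, 2-h`; the second and the fourth are not in
`H` (`3 + 2 (h - 3 - t) = r`).
`fam_F4c` (`r ≡ 1` modulo `4`, `5 ≤ r ≤ q - 5`): `k = 5`, `t = h - 5 - (r - 5) / 2` (even),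
`B = 4+h, 3+h, 3, 2, 2+h, 1+h, 1, 0, h, 4`; differences `-1, -h, -1, h, -1, -h, -1, h, 4-h`; the
differences `-h`, `h` are not in `H` (`5 + 2 (h - 5 - t) = r`).
The numbers `h ± 2`, `h - 4` are prime to `2 h` as `h` is odd.
-/

set_option autoImplicit false

namespace Pool.Agent.W_MP_43c969_h13

open Equiv

/-- the sequence of `fam_F4a`. -/
def famCa_c (h i : ℕ) : ℤ :=
  if i + 3 < h then 3 + i
  else if i + 8 ≤ 2 * h then (h : ℤ) - 4 - i
  else if i + 7 = 2 * h then 3 + h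
  else if i + 6 = 2 * h then 1
  else if i + 5 = 2 * h then 0
  else if i + 4 = 2 * h then 2 + h
  else if i + 3 = 2 * h then 1 + h
  else if i + 2 = 2 * h then h
  else if i + 1 = 2 * h then 2
  else 3

theorem famCa_bound (h i : ℕ) (hh : 5 ≤ h) (hi : i < 2 * h) :
    4 - (h : ℤ) ≤ famCa_c h i ∧ famCa_c h i ≤ h + 3 := by
  unfold famCa_c
  split_ifs <;> omega

theorem famCa_inj (h i j : ℕ) (hh : 5 ≤ h) (hij : i < j) (hj : j < 2 * h) :
    famCa_c h i ≠ famCa_c h j := by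
  unfold famCa_c
  split_ifs <;> omega

theorem famCa_diff (h i : ℕ) (hh : 5 ≤ h) (hi : i < 2 * h) (hne : i + 4 ≠ h) :
    famCa_c h (i + 1) - famCa_c h i = 1 ∨ famCa_c h (i + 1) - famCa_c h i = -1 ∨
    famCa_c h (i + 1) - famCa_c h i = 2 * h - 1 ∨ famCa_c h (i + 1) - famCa_c h i = -(h + 2) ∨
    famCa_c h (i + 1) - famCa_c h i = h + 2 ∨ famCa_c h (i + 1) - famCa_c h i = -(h - 2) := by
  unfold famCa_c
  split_ifs <;> omega

theorem famCa_cop (h : ℕ) (ho : h % 2 = 1) : IsCoprime ((h : ℤ) + 2) (2 * h) ∧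
    IsCoprime ((h : ℤ) - 2) (2 * h) := by
  obtain ⟨s, hs⟩ : ∃ s : ℤ, (h : ℤ) = 2 * s + 1 := ⟨(h / 2 : ℕ), by omega⟩
  constructor
  · refine IsCoprime.mul_right ⟨1, -(s + 1), ?_⟩ ⟨-s, 1 + s, ?_⟩
    · rw [hs]
      ring
    · rw [hs]
      ring
  · refine IsCoprime.mul_right ⟨1, -(s - 1), ?_⟩ ⟨s, 1 - s, ?_⟩
    · rw [hs]
      ring
    · rw [hs]
      ring

theorem famCa_gcd (h i : ℕ) (hh : 5 ≤ h) (ho : h % 2 = 1) (hi : i < 2 * h) (hne : i + 4 ≠ h) :
    Int.gcd (famCa_c h (i + 1) - famCa_c h i) ((2 * h : ℕ) : ℤ) = 1 := by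
  rw [← Int.isCoprime_iff_gcd_eq_one, Nat.cast_mul, Nat.cast_ofNat]
  obtain ⟨c1, c2⟩ := famCa_cop h ho
  rcases famCa_diff h i hh hi hne with e | e | e | e | e | e <;> rw [e]
  · exact isCoprime_one_left
  · exact isCoprime_one_left.neg_left
  · exact ⟨-1, 1, by ring⟩
  · exact c1.neg_left
  · exact c1
  · exact c2.neg_left

theorem fam_F4a (q : ℕ) (hq : q % 4 = 2) (hq' : 10 ≤ q) :
    Ex (Fin q) (Fin q ⊕ Fin (q - 1)) Across := by
  obtain ⟨h, rfl⟩ : ∃ h, q = 2 * h := ⟨q / 2, by omega⟩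
  have hh : 5 ≤ h := by omega
  have ho : h % 2 = 1 := by omega
  have hcard : ((Finset.range (2 * h)).erase (h - 4)).card = 2 * h - 1 := by
    rw [Finset.card_erase_of_mem (Finset.mem_range.2 (by omega)), Finset.card_range]
  have key := gap_nat_ex (2 * h) 0 0 (famCa_c h) ((Finset.range (2 * h)).erase (h - 4))
    (by omega) ⟨0, rfl⟩ le_rfl (by omega) (by omega) ?_ ?_ ?_ ?_ ?_ ?_
  · rwa [hcard] at key
  · have e1 : famCa_c h (2 * h) = 3 := by
      unfold famCa_c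
      split_ifs <;> omega
    have e2 : famCa_c h 0 = 3 := by
      unfold famCa_c
      split_ifs <;> omega
    rw [e1, e2]
    exact ⟨0, by ring⟩
  · intro i j hij hj hd
    have b1 := famCa_bound h i hh (by omega)
    have b2 := famCa_bound h j hh hj
    have h0 := Int.eq_zero_of_abs_lt_dvd hd (by
      rw [abs_lt, Nat.cast_mul, Nat.cast_ofNat]
      constructor <;> omega)
    exact famCa_inj h i j hh hij hj (sub_eq_zero.1 h0)
  · intro i hi
    have := Finset.mem_range.1 (Finset.mem_of_mem_erase hi)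
    exact ⟨this, Nat.zero_le _, Or.inr (Nat.zero_le _)⟩
  · intro i hi
    exact absurd hi (Nat.not_lt_zero i)
  · intro i hi hiH _ _
    have hi4 : i = h - 4 := by
      by_contra hne
      exact hiH (Finset.mem_erase.2 ⟨hne, Finset.mem_range.2 hi⟩)
    have e : famCa_c h (i + 1) - famCa_c h i = -h := by
      unfold famCa_c
      split_ifs <;> omega
    rw [e, Nat.cast_mul, Nat.cast_ofNat]
    exact ⟨-1, by ring⟩
  · intro i hi
    obtain ⟨h1, h2⟩ := Finset.mem_erase.1 hi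
    exact famCa_gcd h i hh ho (Finset.mem_range.1 h2) (by omega)

end Pool.Agent.W_MP_43c969_h13
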