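import Pool.Agent.W_MP_43c969_h13.Defs
import Pool.Agent.W_MP_43c969_h13.Basic
import Pool.Agent.W_MP_43c969_h13.Gap
import Pool.Agent.W_MP_43c969_h13.GapNat

/-!
# Task FamCc: the family F4c, `q ≡ 2`, `r ≡ 1` modulo `4` (the text describes F4a, F4b, F4c)

They use `gap_nat_ex` with `q = 2 h`, `h` odd, a number `k` and a block `B` of `2 k` offsets
`B_0 = k - 1 + h, …, B_{2k-1} = k - 1` (the offsets `0, …, k - 1, h, …, h + k - 1` in some order).
`m = h - k + 1`; `c i = k - 1 + i` for `i ≤ h - k`; `c i = m - 1 - i` for `m ≤ i ≤ 2 h - 2 k`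
(that is `c (m + j) = -1 - j`); `c (2 h - 2 k + 1 + l) = B_l` for `0 ≤ l ≤ 2 k - 2`;
`c q = k - 1`. Differences: `+1` for `i < h - k`; `c m - c (m - 1) = -h` at `i = m - 1` (twice it
is `0` modulo `q`: this position is not in `H`); `-1` for `m ≤ i < 2 h - 2 k + 1` (note
`B_0 = h + k - 1 ≡ c (2 h - 2 k) - 1`); then the differences of the block.
`H` = the positions which are not in a ladder, different from `m - 1` and from the positions of the
block where the difference is `h` or `-h`. All the data were checked by computer for `q ≤ 61`.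

`fam_F4a` (`r = q - 1`, `10 ≤ q`): `k = 4`, `t = 0`,
`B = 3+h, 1, 0, 2+h, 1+h, h, 2, 3`; differences `-2-h, -1, 2+h, -1, -1, 2-h, 1`, all in `H`
(`7 + 2 (h - 4) = q - 1`).
`fam_F4b` (`r ≡ 3` modulo `4`, `3 ≤ r ≤ q - 3`): `k = 3`, `t = h - 3 - (r - 3) / 2` (even),
`B = 2+h, 1+h, 1, 0, h, 2`; differences `-1, -h, -1, h, 2-h`; the second and the fourth are not in
`H` (`3 + 2 (h - 3 - t) = r`).
`fam_F4c` (`r ≡ 1` modulo `4`, `5 ≤ r ≤ q - 5`): `k = 5`, `t = h - 5 - (r - 5) / 2` (even),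
`B = 4+h, 3+h, 3, 2, 2+h, 1+h, 1, 0, h, 4`; differences `-1, -h, -1, h, -1, -h, -1, h, 4-h`; the
differences `-h`, `h` are not in `H` (`5 + 2 (h - 5 - t) = r`).
The numbers `h ± 2`, `h - 4` are prime to `2 h` as `h` is odd.
-/

set_option autoImplicit false

namespace Pool.Agent.W_MP_43c969_h13

open Equiv

/-- the sequence of the family F4c. -/
def cF4c (h : ℕ) (i : ℕ) : ℤ :=
  if i + 5 ≤ h then 4 + i
  else if i + 10 ≤ 2 * h then (h : ℤ) - 5 - i
  else if i + 9 = 2 * h then (h : ℤ) + 4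
  else if i + 8 = 2 * h then (h : ℤ) + 3
  else if i + 7 = 2 * h then (3 : ℤ)
  else if i + 6 = 2 * h then (2 : ℤ)
  else if i + 5 = 2 * h then (h : ℤ) + 2
  else if i + 4 = 2 * h then (h : ℤ) + 1
  else if i + 3 = 2 * h then (1 : ℤ)
  else if i + 2 = 2 * h then (0 : ℤ)
  else if i + 1 = 2 * h then (h : ℤ)
  else 4

theorem F4c_a (h i : ℕ) (hi : i + 5 ≤ h) : cF4c h i = 4 + i := by
  unfold cF4c
  rw [if_pos hi]

theorem F4c_b (h i : ℕ) (hi : h < i + 5) (hi2 : i + 10 ≤ 2 * h) :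
    cF4c h i = (h : ℤ) - 5 - i := by
  unfold cF4c
  rw [if_neg (by omega), if_pos hi2]

theorem F4c_v9 (h i : ℕ) (hh : 5 ≤ h) (hi : i + 9 = 2 * h) : cF4c h i = (h : ℤ) + 4 := by
  have _ := hh
  unfold cF4c
  rw [if_neg (by omega), if_neg (by omega), if_pos (by omega)]

theorem F4c_v8 (h i : ℕ) (hh : 5 ≤ h) (hi : i + 8 = 2 * h) : cF4c h i = (h : ℤ) + 3 := by
  have _ := hh
  unfold cF4c
  rw [if_neg (by omega), if_neg (by omega), if_neg (by omega), if_pos (by omega)]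

theorem F4c_v7 (h i : ℕ) (hh : 5 ≤ h) (hi : i + 7 = 2 * h) : cF4c h i = (3 : ℤ) := by
  have _ := hh
  unfold cF4c
  rw [if_neg (by omega), if_neg (by omega), if_neg (by omega), if_neg (by omega),
    if_pos (by omega)]

theorem F4c_v6 (h i : ℕ) (hh : 5 ≤ h) (hi : i + 6 = 2 * h) : cF4c h i = (2 : ℤ) := by
  have _ := hh
  unfold cF4c
  rw [if_neg (by omega), if_neg (by omega), if_neg (by omega), if_neg (by omega),
    if_neg (by omega), if_pos (by omega)]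

theorem F4c_v5 (h i : ℕ) (hh : 5 ≤ h) (hi : i + 5 = 2 * h) : cF4c h i = (h : ℤ) + 2 := by
  have _ := hh
  unfold cF4c
  rw [if_neg (by omega), if_neg (by omega), if_neg (by omega), if_neg (by omega),
    if_neg (by omega), if_neg (by omega), if_pos (by omega)]

theorem F4c_v4 (h i : ℕ) (hh : 5 ≤ h) (hi : i + 4 = 2 * h) : cF4c h i = (h : ℤ) + 1 := by
  have _ := hh
  unfold cF4c
  rw [if_neg (by omega), if_neg (by omega), if_neg (by omega), if_neg (by omega),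
    if_neg (by omega), if_neg (by omega), if_neg (by omega), if_pos (by omega)]

theorem F4c_v3 (h i : ℕ) (hh : 5 ≤ h) (hi : i + 3 = 2 * h) : cF4c h i = (1 : ℤ) := by
  have _ := hh
  unfold cF4c
  rw [if_neg (by omega), if_neg (by omega), if_neg (by omega), if_neg (by omega),
    if_neg (by omega), if_neg (by omega), if_neg (by omega), if_neg (by omega), if_pos (by omega)]

theorem F4c_v2 (h i : ℕ) (hh : 5 ≤ h) (hi : i + 2 = 2 * h) : cF4c h i = (0 : ℤ) := by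
  have _ := hh
  unfold cF4c
  rw [if_neg (by omega), if_neg (by omega), if_neg (by omega), if_neg (by omega),
    if_neg (by omega), if_neg (by omega), if_neg (by omega), if_neg (by omega),
    if_neg (by omega), if_pos (by omega)]

theorem F4c_v1 (h i : ℕ) (hh : 5 ≤ h) (hi : i + 1 = 2 * h) : cF4c h i = (h : ℤ) := by
  have _ := hh
  unfold cF4c
  rw [if_neg (by omega), if_neg (by omega), if_neg (by omega), if_neg (by omega),
    if_neg (by omega), if_neg (by omega), if_neg (by omega), if_neg (by omega),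
    if_neg (by omega), if_neg (by omega), if_pos (by omega)]

theorem F4c_v0 (h i : ℕ) (hh : 5 ≤ h) (hi : i + 0 = 2 * h) : cF4c h i = (4 : ℤ) := by
  have _ := hh
  unfold cF4c
  rw [if_neg (by omega), if_neg (by omega), if_neg (by omega), if_neg (by omega),
    if_neg (by omega), if_neg (by omega), if_neg (by omega), if_neg (by omega),
    if_neg (by omega), if_neg (by omega), if_neg (by omega)]

theorem F4c_val (h : ℕ) (hh : 5 ≤ h) (i : ℕ) (hi : i < 2 * h) :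
    (i + 5 ≤ h ∧ cF4c h i = 4 + i) ∨
      (h < i + 5 ∧ i + 10 ≤ 2 * h ∧ cF4c h i = (h : ℤ) - 5 - i) ∨
      (i + 9 = 2 * h ∧ cF4c h i = (h : ℤ) + 4) ∨
      (i + 8 = 2 * h ∧ cF4c h i = (h : ℤ) + 3) ∨
      (i + 7 = 2 * h ∧ cF4c h i = (3 : ℤ)) ∨
      (i + 6 = 2 * h ∧ cF4c h i = (2 : ℤ)) ∨
      (i + 5 = 2 * h ∧ cF4c h i = (h : ℤ) + 2) ∨
      (i + 4 = 2 * h ∧ cF4c h i = (h : ℤ) + 1) ∨
      (i + 3 = 2 * h ∧ cF4c h i = (1 : ℤ)) ∨
      (i + 2 = 2 * h ∧ cF4c h i = (0 : ℤ)) ∨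
      (i + 1 = 2 * h ∧ cF4c h i = (h : ℤ)) := by
  have hc : i + 5 ≤ h ∨
      (h < i + 5 ∧ i + 10 ≤ 2 * h) ∨
      i + 9 = 2 * h ∨
      i + 8 = 2 * h ∨
      i + 7 = 2 * h ∨
      i + 6 = 2 * h ∨
      i + 5 = 2 * h ∨
      i + 4 = 2 * h ∨
      i + 3 = 2 * h ∨
      i + 2 = 2 * h ∨
      i + 1 = 2 * h := by omega
  rcases hc with hc | ⟨hc, hc2⟩ | hc | hc | hc | hc | hc | hc | hc | hc | hc
  · exact Or.inl ⟨hc, F4c_a h i hc⟩
  · exact Or.inr (Or.inl ⟨hc, hc2, F4c_b h i hc hc2⟩)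
  · exact Or.inr (Or.inr (Or.inl ⟨hc, F4c_v9 h i hh hc⟩))
  · exact Or.inr (Or.inr (Or.inr (Or.inl ⟨hc, F4c_v8 h i hh hc⟩)))
  · exact Or.inr (Or.inr (Or.inr (Or.inr (Or.inl ⟨hc, F4c_v7 h i hh hc⟩))))
  · exact Or.inr (Or.inr (Or.inr (Or.inr (Or.inr (Or.inl ⟨hc, F4c_v6 h i hh hc⟩)))))
  · exact Or.inr (Or.inr (Or.inr (Or.inr (Or.inr (Or.inr (Or.inl ⟨hc, F4c_v5 h i hh hc⟩))))))
  · exact Or.inr (Or.inr (Or.inr (Or.inr (Or.inr (Or.inr (Or.inr (Or.inl ⟨hc, F4c_v4 h i hh hc⟩)))))))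
  · exact Or.inr (Or.inr (Or.inr (Or.inr (Or.inr (Or.inr (Or.inr (Or.inr (Or.inl ⟨hc, F4c_v3 h i hh hc⟩))))))))
  · exact Or.inr (Or.inr (Or.inr (Or.inr (Or.inr (Or.inr (Or.inr (Or.inr (Or.inr (Or.inl ⟨hc, F4c_v2 h i hh hc⟩)))))))))
  · exact Or.inr (Or.inr (Or.inr (Or.inr (Or.inr (Or.inr (Or.inr (Or.inr (Or.inr (Or.inr ⟨hc, F4c_v1 h i hh hc⟩)))))))))

theorem F4c_bound (h : ℕ) (hh : 5 ≤ h) (i : ℕ) (hi : i < 2 * h) :
    (5 : ℤ) - h ≤ cF4c h i ∧ cF4c h i ≤ h + 4 := by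
  rcases F4c_val h hh i hi with h1 | h1 | h1 | h1 | h1 | h1 | h1 | h1 | h1 | h1 | h1 <;> omega

theorem F4c_inj (h : ℕ) (hh : 5 ≤ h) (i j : ℕ) (hij : i < j) (hj : j < 2 * h) :
    ¬ ((2 * h : ℕ) : ℤ) ∣ cF4c h i - cF4c h j := by
  intro hd
  have h0 : cF4c h i - cF4c h j = 0 := by
    have b1 := F4c_bound h hh i (by omega)
    have b2 := F4c_bound h hh j hj
    apply Int.eq_zero_of_abs_lt_dvd hd
    rw [abs_lt]
    push_cast
    constructor <;> omega
  rcases F4c_val h hh i (by omega) with h1 | h1 | h1 | h1 | h1 | h1 | h1 | h1 | h1 | h1 | h1 <;>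
    rcases F4c_val h hh j hj with h2 | h2 | h2 | h2 | h2 | h2 | h2 | h2 | h2 | h2 | h2 <;> omega

theorem F4c_d1 (h i : ℕ) (hi : i + 5 < h) : cF4c h (i + 1) - cF4c h i = 1 := by
  rw [F4c_a h i (by omega), F4c_a h (i + 1) (by omega)]
  push_cast
  ring

theorem F4c_d2 (h i : ℕ) (hh : 5 ≤ h) (hi : i + 5 = h) :
    cF4c h (i + 1) - cF4c h i = h ∨ cF4c h (i + 1) - cF4c h i = -(h : ℤ) := by
  rw [F4c_a h i (by omega)]
  by_cases h1 : h = 5
  · left
    rw [F4c_v9 h (i + 1) hh (by omega)]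
    omega
  · right
    rw [F4c_b h (i + 1) (by omega) (by omega)]
    omega

theorem F4c_d3 (h i : ℕ) (hh : 5 ≤ h) (h1 : h < i + 5) (h2 : i + 9 < 2 * h) :
    cF4c h (i + 1) - cF4c h i = -1 ∨ cF4c h (i + 1) - cF4c h i = 2 * (h : ℤ) - 1 := by
  rw [F4c_b h i h1 (by omega)]
  by_cases h3 : i + 10 < 2 * h
  · left
    rw [F4c_b h (i + 1) (by omega) (by omega)]
    push_cast
    ring
  · right
    rw [F4c_v9 h (i + 1) hh (by omega)]
    omega

theorem F4c_gcd (D : ℤ) (q : ℕ) (h : ∃ a b : ℤ, a * D + b * q = 8 ∨ a * D + b * q = 1)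
    (hD : D % 2 = 1) : Int.gcd D q = 1 := by
  obtain ⟨a, b, hab⟩ := h
  have h1 : ((Int.gcd D q : ℕ) : ℤ) ∣ D := Int.gcd_dvd_left _ _
  have h2 : ((Int.gcd D q : ℕ) : ℤ) ∣ q := Int.gcd_dvd_right _ _
  have h3 : ((Int.gcd D q : ℕ) : ℤ) ∣ a * D + b * q :=
    dvd_add (Dvd.dvd.mul_left h1 a) (Dvd.dvd.mul_left h2 b)
  have h4 : ((Int.gcd D q : ℕ) : ℤ) ∣ 8 := by
    rcases hab with hab | hab
    · rw [hab] at h3; exact h3
    · rw [hab] at h3; exact dvd_trans h3 (by norm_num)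
  have h5 : Int.gcd D q ≤ 8 := by
    have := Int.le_of_dvd (by norm_num) h4
    omega
  generalize Int.gcd D q = g at *
  interval_cases g <;> first | rfl | omega

theorem fam_F4c (q r : ℕ) (hq : q % 4 = 2) (hr : r % 4 = 1) (hr' : 5 ≤ r) (hrq : r + 5 ≤ q) :
    Ex (Fin q) (Fin q ⊕ Fin r) Across := by
  obtain ⟨h, rfl⟩ : ∃ h, q = 2 * h := ⟨q / 2, by omega⟩
  obtain ⟨t, ht⟩ : ∃ t, t + (r - 5) / 2 = h - 5 := ⟨h - 5 - (r - 5) / 2, by omega⟩
  have hh : 5 ≤ h := by omega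
  set H : Finset ℕ := (Finset.Ico t (h - 5) ∪ Finset.Ico (h - 4 + t) (2 * h - 9)) ∪
    {2 * h - 9, 2 * h - 7, 2 * h - 5, 2 * h - 3, 2 * h - 1} with hHdef
  have hmem : ∀ i, i ∈ H ↔ (t ≤ i ∧ i + 5 < h) ∨ (h + t ≤ i + 4 ∧ i + 9 < 2 * h) ∨
      i + 9 = 2 * h ∨ i + 7 = 2 * h ∨ i + 5 = 2 * h ∨ i + 3 = 2 * h ∨ i + 1 = 2 * h := by
    intro i
    rw [hHdef]
    simp only [Finset.mem_union, Finset.mem_Ico, Finset.mem_insert, Finset.mem_singleton]
    omega
  have hcard : H.card = r := by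
    have h5 : ({2 * h - 9, 2 * h - 7, 2 * h - 5, 2 * h - 3, 2 * h - 1} : Finset ℕ).card = 5 := by
      rw [Finset.card_insert_of_notMem, Finset.card_insert_of_notMem,
        Finset.card_insert_of_notMem, Finset.card_pair (by omega)]
      all_goals
        simp only [Finset.mem_insert, Finset.mem_singleton]
        omega
    rw [hHdef, Finset.card_union_of_disjoint, Finset.card_union_of_disjoint, Nat.card_Ico,
      Nat.card_Ico, h5]
    · omega
    · rw [Finset.disjoint_left]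
      intro i hi
      simp only [Finset.mem_Ico] at *
      omega
    · rw [Finset.disjoint_left]
      intro i hi
      simp only [Finset.mem_union, Finset.mem_Ico, Finset.mem_insert, Finset.mem_singleton] at *
      omega
  have key := gap_nat_ex (2 * h) t (h - 4) (cF4c h) H (by omega) (by
      rw [Nat.even_iff]; omega) (by omega) (by omega) (by omega)
    (by
      rw [F4c_v0 h (2 * h) hh rfl, F4c_a h 0 (by omega)]
      exact ⟨0, by norm_num⟩)
    (fun i j hij hj => F4c_inj h hh i j hij hj)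
    (by
      intro i hi
      rw [hmem] at hi
      omega)
    (by
      intro i hi
      have e1 := F4c_d1 h i (by omega)
      rcases F4c_d3 h (h - 4 + i) hh (by omega) (by omega) with e2 | e2
      · rw [e1, e2]; exact ⟨0, by ring⟩
      · rw [e1, e2]; exact ⟨1, by push_cast; ring⟩)
    (by
      intro i hi hiH hti hmi
      rw [hmem] at hiH
      have h1 : i + 5 = h ∨ (i + 8 = 2 * h ∨ i + 4 = 2 * h) ∨ (i + 6 = 2 * h ∨ i + 2 = 2 * h) := by
        omega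
      rcases h1 with h1 | (h1 | h1) | (h1 | h1)
      · rcases F4c_d2 h i hh h1 with h2 | h2
        · rw [h2]; exact ⟨1, by push_cast; ring⟩
        · rw [h2]; exact ⟨-1, by push_cast; ring⟩
      · rw [F4c_v8 h i hh h1, F4c_v7 h (i + 1) hh (by omega)]; exact ⟨-1, by push_cast; ring⟩
      · rw [F4c_v4 h i hh h1, F4c_v3 h (i + 1) hh (by omega)]; exact ⟨-1, by push_cast; ring⟩
      · rw [F4c_v6 h i hh h1, F4c_v5 h (i + 1) hh (by omega)]; exact ⟨1, by push_cast; ring⟩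
      · rw [F4c_v2 h i hh h1, F4c_v1 h (i + 1) hh (by omega)]; exact ⟨1, by push_cast; ring⟩)
    (by
      intro i hi
      rw [hmem] at hi
      have h3 : i + 5 < h ∨ (h < i + 5 ∧ i + 9 < 2 * h) ∨ i + 9 = 2 * h ∨ i + 7 = 2 * h ∨
          i + 5 = 2 * h ∨ i + 3 = 2 * h ∨ i + 1 = 2 * h := by omega
      rcases h3 with h3 | ⟨h3, h4⟩ | h3 | h3 | h3 | h3 | h3
      · rw [F4c_d1 h i h3]; exact F4c_gcd _ _ ⟨1, 0, by right; ring⟩ (by norm_num)
      · rcases F4c_d3 h i hh h3 h4 with h5 | h5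
        · rw [h5]; exact F4c_gcd _ _ ⟨-1, 0, by right; ring⟩ (by norm_num)
        · rw [h5]; exact F4c_gcd _ _ ⟨-1, 1, by right; push_cast; ring⟩ (by omega)
      · rw [F4c_v9 h i hh h3, F4c_v8 h (i + 1) hh (by omega)]
        exact F4c_gcd _ _ ⟨-1, 0, by right; ring⟩ (by omega)
      · rw [F4c_v7 h i hh h3, F4c_v6 h (i + 1) hh (by omega)]
        exact F4c_gcd _ _ ⟨-1, 0, by right; ring⟩ (by omega)
      · rw [F4c_v5 h i hh h3, F4c_v4 h (i + 1) hh (by omega)]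
        exact F4c_gcd _ _ ⟨-1, 0, by right; ring⟩ (by omega)
      · rw [F4c_v3 h i hh h3, F4c_v2 h (i + 1) hh (by omega)]
        exact F4c_gcd _ _ ⟨-1, 0, by right; ring⟩ (by omega)
      · rw [F4c_v1 h i hh h3, F4c_v0 h (i + 1) hh (by omega)]
        exact F4c_gcd _ _ ⟨2, 1, by left; push_cast; ring⟩ (by omega))
  rw [hcard] at key
  exact key

end Pool.Agent.W_MP_43c969_h13
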