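import Pool.Agent.W_MP_43c969_h13.Defs
import Pool.Agent.W_MP_43c969_h13.Basic
import Pool.Agent.W_MP_43c969_h13.Gap
import Pool.Agent.W_MP_43c969_h13.GapNat

/-!
# Task FamDb: the pinched family F5b, `q ≡ 0`, `r ≡ 1` modulo `4` (the text describes F5a, F5b)

They use `gap_nat_pst` with `i0 = q - 1` and `q = 2 h`, `h` even, `k = 3` and a block `B` of `6`
offsets `B_0 = 2 + h, …, B_5 = 2` (the offsets `0, 1, 2, h, h + 1, h + 2` in some order).
`m = h - 2`; `c i = 2 + i` for `i ≤ h - 3`; `c i = m - 1 - i` for `m ≤ i ≤ 2 h - 6`;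
`c (2 h - 5 + l) = B_l` for `0 ≤ l ≤ 4`; `c q = 2`. Differences: `+1` for `i < h - 3`;
`-h` at `i = m - 1` (not in `H`); `-1` for `m ≤ i < 2 h - 5`; then the differences of the block.
`H` = the positions which are not in a ladder, different from `m - 1` and from the positions of the
block where the difference is `h` or `-h`. All the data were checked by computer for `q ≤ 61`.

`fam_F5a` (`r ≡ 3` modulo `4`, `7 ≤ r ≤ q - 1`): `t = h - 3 - (r - 5) / 2` (even),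
`B = 2+h, 1+h, h, 1, 0, 2`; differences `-1, -1, 1-h, -1, 2` all in `H` (`5 + 2 (h - 3 - t) = r`).
`fam_F5b` (`r ≡ 1` modulo `4`, `5 ≤ r ≤ q - 3`): `t = h - 3 - (r - 3) / 2` (even),
`B = 2+h, 1+h, 1, h, 0, 2`; differences `-1, -h, h-1, -h, 2`; the second and the fourth are not in
`H` (`3 + 2 (h - 3 - t) = r`).
The last difference `2` has `gcd (2, q) = 2`; `h - 1` is prime to `2 h` as `h` is even.
-/

set_option autoImplicit false

namespace Pool.Agent.W_MP_43c969_h13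

open Equiv

/-- the sequence of columns (`h = 2 k`; the values are taken between `0` and `q - 1`). -/
def f5bC (k i : ℕ) : ℤ :=
  if i + 3 ≤ 2 * k then 2 + i else if i + 4 ≤ 4 * k then 6 * k - 3 - i else
    if i + 3 = 4 * k then 1 else if i + 2 = 4 * k then 2 * k else if i + 1 = 4 * k then 0 else 2

/-- the positions of the additional columns. -/
def f5bH (k s : ℕ) : Finset ℕ :=
  Finset.Ico (2 * k - 2 - 2 * s) (2 * k - 3) ∪
    (Finset.Ico (2 * k - 2 + (2 * k - 2 - 2 * s)) (4 * k - 4) ∪ {4 * k - 3, 4 * k - 1})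

theorem f5bH_mem (k s i : ℕ) : i ∈ f5bH k s ↔ (2 * k - 2 - 2 * s ≤ i ∧ i < 2 * k - 3) ∨
    (2 * k - 2 + (2 * k - 2 - 2 * s) ≤ i ∧ i < 4 * k - 4) ∨ i = 4 * k - 3 ∨ i = 4 * k - 1 := by
  simp only [f5bH, Finset.mem_union, Finset.mem_Ico, Finset.mem_insert, Finset.mem_singleton]

theorem f5bH_card (k s : ℕ) (hs : 1 ≤ s) (hk : s + 1 ≤ k) : (f5bH k s).card = 4 * s + 1 := by
  unfold f5bH
  rw [Finset.card_union_of_disjoint, Finset.card_union_of_disjoint, Nat.card_Ico, Nat.card_Ico,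
    Finset.card_pair (by omega)]
  · omega
  · rw [Finset.disjoint_left]
    intro i hi hi'
    simp only [Finset.mem_Ico, Finset.mem_insert, Finset.mem_singleton] at hi hi'
    omega
  · rw [Finset.disjoint_left]
    intro i hi hi'
    simp only [Finset.mem_union, Finset.mem_Ico, Finset.mem_insert, Finset.mem_singleton] at hi hi'
    omega

theorem f5b_gcd (k : ℕ) : Int.gcd (2 * k - 1) (4 * k) = 1 := by
  rw [← Int.isCoprime_iff_gcd_eq_one]
  exact ⟨2 * k - 1, -(k - 1), by ring⟩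

theorem f5bC_a {k i : ℕ} (h : i + 3 ≤ 2 * k) : f5bC k i = 2 + i := by
  unfold f5bC
  rw [if_pos h]

theorem f5bC_b {k i : ℕ} (h : 2 * k < i + 3) (h' : i + 4 ≤ 4 * k) : f5bC k i = 6 * k - 3 - i := by
  unfold f5bC
  rw [if_neg (by omega), if_pos h']

theorem f5bC_c {k i : ℕ} (_hk : 2 ≤ k) (h : i + 3 = 4 * k) : f5bC k i = 1 := by
  unfold f5bC
  rw [if_neg (by omega), if_neg (by omega), if_pos h]

theorem f5bC_d {k i : ℕ} (_hk : 2 ≤ k) (h : i + 2 = 4 * k) : f5bC k i = 2 * k := by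
  unfold f5bC
  rw [if_neg (by omega), if_neg (by omega), if_neg (by omega), if_pos h]

theorem f5bC_e {k i : ℕ} (_hk : 2 ≤ k) (h : i + 1 = 4 * k) : f5bC k i = 0 := by
  unfold f5bC
  rw [if_neg (by omega), if_neg (by omega), if_neg (by omega), if_neg (by omega), if_pos h]

theorem f5bC_f {k i : ℕ} (_hk : 2 ≤ k) (h : i = 4 * k) : f5bC k i = 2 := by
  unfold f5bC
  rw [if_neg (by omega), if_neg (by omega), if_neg (by omega), if_neg (by omega),
    if_neg (by omega)]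

/-- description of the values. -/
theorem f5bC_cases {k i : ℕ} (hk : 2 ≤ k) (hi : i < 4 * k) :
    (i + 3 ≤ 2 * k ∧ f5bC k i = 2 + i) ∨
    (2 * k < i + 3 ∧ i + 4 ≤ 4 * k ∧ f5bC k i = 6 * k - 3 - i) ∨
    (i + 3 = 4 * k ∧ f5bC k i = 1) ∨ (i + 2 = 4 * k ∧ f5bC k i = 2 * k) ∨
    (i + 1 = 4 * k ∧ f5bC k i = 0) := by
  rcases Nat.lt_or_ge (2 * k) (i + 3) with h | h
  · rcases Nat.lt_or_ge (4 * k) (i + 4) with h' | h'
    · have h3 : i + 3 = 4 * k ∨ i + 2 = 4 * k ∨ i + 1 = 4 * k := by omega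
      rcases h3 with h3 | h3 | h3
      · exact Or.inr (Or.inr (Or.inl ⟨h3, f5bC_c hk h3⟩))
      · exact Or.inr (Or.inr (Or.inr (Or.inl ⟨h3, f5bC_d hk h3⟩)))
      · exact Or.inr (Or.inr (Or.inr (Or.inr ⟨h3, f5bC_e hk h3⟩)))
    · exact Or.inr (Or.inl ⟨h, h', f5bC_b h h'⟩)
  · exact Or.inl ⟨h, f5bC_a h⟩

/-- description of the differences. -/
theorem f5bC_diff {k i : ℕ} (hk : 2 ≤ k) (hi : i < 4 * k) :
    (i + 3 < 2 * k ∧ f5bC k (i + 1) - f5bC k i = 1) ∨
    (i + 3 = 2 * k ∧ f5bC k (i + 1) - f5bC k i = 2 * k) ∨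
    (2 * k < i + 3 ∧ i + 4 < 4 * k ∧ f5bC k (i + 1) - f5bC k i = -1) ∨
    (i + 4 = 4 * k ∧ f5bC k (i + 1) - f5bC k i = - (2 * k)) ∨
    (i + 3 = 4 * k ∧ f5bC k (i + 1) - f5bC k i = 2 * k - 1) ∨
    (i + 2 = 4 * k ∧ f5bC k (i + 1) - f5bC k i = - (2 * k)) ∨
    (i + 1 = 4 * k ∧ f5bC k (i + 1) - f5bC k i = 2) := by
  rcases f5bC_cases hk hi with ⟨h, e⟩ | ⟨h, h', e⟩ | ⟨h, e⟩ | ⟨h, e⟩ | ⟨h, e⟩
  · rcases Nat.lt_or_ge (i + 3) (2 * k) with h2 | h2
    · exact Or.inl ⟨h2, by rw [e, f5bC_a (by omega)]; push_cast; ring⟩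
    · refine Or.inr (Or.inl ⟨by omega, ?_⟩)
      rw [e, f5bC_b (by omega) (by omega)]
      have : (i : ℤ) = 2 * k - 3 := by omega
      rw [Nat.cast_add, Nat.cast_one, this]
      ring
  · rcases Nat.lt_or_ge (i + 4) (4 * k) with h2 | h2
    · refine Or.inr (Or.inr (Or.inl ⟨h, h2, ?_⟩))
      rw [e, f5bC_b (by omega) (by omega)]
      push_cast
      ring
    · refine Or.inr (Or.inr (Or.inr (Or.inl ⟨by omega, ?_⟩)))
      rw [e, f5bC_c hk (by omega)]
      have : (i : ℤ) = 4 * k - 4 := by omega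
      rw [this]
      ring
  · refine Or.inr (Or.inr (Or.inr (Or.inr (Or.inl ⟨h, ?_⟩))))
    rw [e, f5bC_d hk (by omega)]
  · refine Or.inr (Or.inr (Or.inr (Or.inr (Or.inr (Or.inl ⟨h, ?_⟩)))))
    rw [e, f5bC_e hk (by omega)]
    ring
  · refine Or.inr (Or.inr (Or.inr (Or.inr (Or.inr (Or.inr ⟨h, ?_⟩)))))
    rw [e, f5bC_f hk (by omega)]
    ring

theorem fam_F5b (q r : ℕ) (hq : q % 4 = 0) (hr : r % 4 = 1) (hr' : 5 ≤ r) (hrq : r + 3 ≤ q) :
    PSt (Fin q) (Fin q ⊕ Fin r) Across := by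
  obtain ⟨k, rfl⟩ : ∃ k, q = 4 * k := ⟨q / 4, by omega⟩
  obtain ⟨s, rfl⟩ : ∃ s, r = 4 * s + 1 := ⟨r / 4, by omega⟩
  have hs : 1 ≤ s := by omega
  have hk : s + 1 ≤ k := by omega
  have hk2 : 2 ≤ k := by omega
  rw [← f5bH_card k s hs hk]
  refine gap_nat_pst (4 * k) (2 * k - 2 - 2 * s) (2 * k - 2) (4 * k - 1) (f5bC k) (f5bH k s)
    (by omega) ⟨k - 1 - s, by omega⟩ (by omega) (by omega) (by omega) ?_ ?_ ?_ ?_ ?_ ?_ ?_ ?_
  · -- periodicity
    rw [f5bC_f hk2 rfl, f5bC_a (i := 0) (by omega)]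
    simp
  · -- injectivity
    intro i j hij hj hd
    have hi := f5bC_cases hk2 (hij.trans hj)
    have hj' := f5bC_cases hk2 hj
    generalize f5bC k i = x at *
    generalize f5bC k j = y at *
    have h0 := Int.eq_zero_of_abs_lt_dvd hd (by
      rw [abs_lt]
      constructor <;> push_cast <;> omega)
    omega
  · -- positions
    intro i hi
    rw [f5bH_mem] at hi
    omega
  · -- ladders
    intro i hi
    rw [f5bC_a (i := i) (by omega), f5bC_a (i := i + 1) (by omega),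
      f5bC_b (i := 2 * k - 2 + i) (by omega) (by omega),
      f5bC_b (i := 2 * k - 2 + i + 1) (by omega) (by omega)]
    have h2 : (2 + ((i + 1 : ℕ) : ℤ) - (2 + (i : ℤ)) +
        (6 * (k : ℤ) - 3 - ((2 * k - 2 + i + 1 : ℕ) : ℤ) -
          (6 * (k : ℤ) - 3 - ((2 * k - 2 + i : ℕ) : ℤ)))) = 0 := by
      push_cast
      ring
    rw [h2]
    exact dvd_zero _
  · -- differences equal to half of `q`
    intro i hi hiH ht hor
    rw [f5bH_mem] at hiH
    have h1 : 2 * (f5bC k (i + 1) - f5bC k i) = ((4 * k : ℕ) : ℤ) ∨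
        2 * (f5bC k (i + 1) - f5bC k i) = -((4 * k : ℕ) : ℤ) := by
      have hd := f5bC_diff hk2 hi
      generalize f5bC k (i + 1) - f5bC k i = x at *
      omega
    rcases h1 with h1 | h1 <;> rw [h1]
    exact (dvd_neg).2 (dvd_refl _)
  · rw [f5bH_mem]
    omega
  · -- the last difference
    have h1 : f5bC k (4 * k - 1 + 1) - f5bC k (4 * k - 1) = 2 := by
      rw [f5bC_f hk2 (by omega), f5bC_e hk2 (by omega)]
      ring
    rw [h1]
    have h2 : Int.gcd 2 ((4 * k : ℕ) : ℤ) = Nat.gcd 2 (4 * k) := rfl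
    rw [h2]
    exact Nat.gcd_eq_left ⟨2 * k, by ring⟩
  · -- the other differences
    intro i hi hne
    rw [f5bH_mem] at hi
    have h1 : f5bC k (i + 1) - f5bC k i = 1 ∨ f5bC k (i + 1) - f5bC k i = -1 ∨
        f5bC k (i + 1) - f5bC k i = 2 * k - 1 := by
      have hd := f5bC_diff (k := k) (i := i) hk2 (by omega)
      generalize f5bC k (i + 1) - f5bC k i = x at *
      omega
    rcases h1 with h1 | h1 | h1
    · rw [h1, Int.one_gcd]
    · rw [h1, Int.neg_gcd, Int.one_gcd]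
    · rw [h1]
      push_cast
      exact f5b_gcd k

end Pool.Agent.W_MP_43c969_h13
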