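import Pool.Agent.W_MP_43c969_h13.Defs
import Pool.Agent.W_MP_43c969_h13.Basic
import Pool.Agent.W_MP_43c969_h13.Gap
import Pool.Agent.W_MP_43c969_h13.GapNat

/-!
# Task FamE: the pinched family `q ≡ 0` modulo `4`, `q ≥ 8`, `r = 3`

It uses `gap_pst` (not `gap_nat_pst`, because there are two more exchanged pairs), `q = 2 h`, `h`
even, `m = h - 3`, `t = h - 4`. The sequence is
`c i = 3 + i` for `0 ≤ i ≤ h - 4`; `c (m + j) = -1 - j` for `0 ≤ j ≤ h - 5`
(positions `h - 3, …, 2 h - 8`); and the block at the positions `q - 7, …, q - 1`: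
`3 + h, 2 + h, h, 1 + h, 0, 2, 1`; `c q = 3`.
Differences: `+1` for `i < h - 4`; `-h` at `i = m - 1 = h - 4`; `-1` for `m ≤ i < q - 7`; then at
`q - 7, …, q - 1`: `-1, -2, 1, -1 - h, 2, -1, 2`.
`τ` exchanges `i` and `m + i` for `i < t`, `q - 6` and `q - 3`, `q - 5` and `q - 2`; it fixes
`m - 1`, `q - 7`, `q - 4`, `q - 1`. `H = {q - 7, q - 4, q - 1}`, `i0 = q - 1` (difference `2`);
`-1 - h` is prime to `2 h`. The position `m - 1` is not in `H`, twice its difference is `0`.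
The permutation `j ↦ τ (j - 1)`: on the block
`0 ↦ q-1 ↦ τ(q-2) = q-5 ↦ τ(q-6) = q-3 ↦ τ(q-4) = q-4 ↦ τ(q-5) = q-2 ↦ τ(q-3) = q-6 ↦ τ(q-7) = q-7`
`↦ τ(q-8)`, and `q - 8 = m + t - 1`, so `q - 7 = m + t ⇝ m` through the ladders (`t` even, as in
`ladder_Tr`), `m ↦ τ(m-1) = m - 1 = t`, and `t ⇝ 0` through the ladders. One cycle.
For `q = 8`: `h = 4`, `t = 0`, `m = 1`. All was checked by computer for `q ≤ 61`.
-/

set_option autoImplicit false

namespace Pool.Agent.W_MP_43c969_h13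

open Equiv

/-- the sequence of the family F5c. -/
def cF5c (h : ℕ) (i : ℕ) : ℤ :=
  if i + 4 ≤ h then 3 + i
  else if i + 8 ≤ 2 * h then (h : ℤ) - 4 - i
  else if i + 7 = 2 * h then (h : ℤ) + 3
  else if i + 6 = 2 * h then (h : ℤ) + 2
  else if i + 5 = 2 * h then (h : ℤ)
  else if i + 4 = 2 * h then (h : ℤ) + 1
  else if i + 3 = 2 * h then (0 : ℤ)
  else if i + 2 = 2 * h then (2 : ℤ)
  else if i + 1 = 2 * h then (1 : ℤ)
  else 3

theorem F5c_a (h i : ℕ) (hi : i + 4 ≤ h) : cF5c h i = 3 + i := by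
  unfold cF5c
  rw [if_pos hi]

theorem F5c_b (h i : ℕ) (hi : h < i + 4) (hi2 : i + 8 ≤ 2 * h) :
    cF5c h i = (h : ℤ) - 4 - i := by
  unfold cF5c
  rw [if_neg (by omega), if_pos hi2]

theorem F5c_v7 (h i : ℕ) (hh : 4 ≤ h) (hi : i + 7 = 2 * h) : cF5c h i = (h : ℤ) + 3 := by
  have _ := hh
  unfold cF5c
  rw [if_neg (by omega), if_neg (by omega), if_pos (by omega)]

theorem F5c_v6 (h i : ℕ) (hh : 4 ≤ h) (hi : i + 6 = 2 * h) : cF5c h i = (h : ℤ) + 2 := by
  have _ := hh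
  unfold cF5c
  rw [if_neg (by omega), if_neg (by omega), if_neg (by omega), if_pos (by omega)]

theorem F5c_v5 (h i : ℕ) (hh : 4 ≤ h) (hi : i + 5 = 2 * h) : cF5c h i = (h : ℤ) := by
  have _ := hh
  unfold cF5c
  rw [if_neg (by omega), if_neg (by omega), if_neg (by omega), if_neg (by omega),
    if_pos (by omega)]

theorem F5c_v4 (h i : ℕ) (hh : 4 ≤ h) (hi : i + 4 = 2 * h) : cF5c h i = (h : ℤ) + 1 := by
  have _ := hh
  unfold cF5c
  rw [if_neg (by omega), if_neg (by omega), if_neg (by omega), if_neg (by omega),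
    if_neg (by omega), if_pos (by omega)]

theorem F5c_v3 (h i : ℕ) (hh : 4 ≤ h) (hi : i + 3 = 2 * h) : cF5c h i = (0 : ℤ) := by
  have _ := hh
  unfold cF5c
  rw [if_neg (by omega), if_neg (by omega), if_neg (by omega), if_neg (by omega),
    if_neg (by omega), if_neg (by omega), if_pos (by omega)]

theorem F5c_v2 (h i : ℕ) (hh : 4 ≤ h) (hi : i + 2 = 2 * h) : cF5c h i = (2 : ℤ) := by
  have _ := hh
  unfold cF5c
  rw [if_neg (by omega), if_neg (by omega), if_neg (by omega), if_neg (by omega),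
    if_neg (by omega), if_neg (by omega), if_neg (by omega), if_pos (by omega)]

theorem F5c_v1 (h i : ℕ) (hh : 4 ≤ h) (hi : i + 1 = 2 * h) : cF5c h i = (1 : ℤ) := by
  have _ := hh
  unfold cF5c
  rw [if_neg (by omega), if_neg (by omega), if_neg (by omega), if_neg (by omega),
    if_neg (by omega), if_neg (by omega), if_neg (by omega), if_neg (by omega), if_pos (by omega)]

theorem F5c_v0 (h i : ℕ) (hh : 4 ≤ h) (hi : i + 0 = 2 * h) : cF5c h i = (3 : ℤ) := by
  have _ := hh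
  unfold cF5c
  rw [if_neg (by omega), if_neg (by omega), if_neg (by omega), if_neg (by omega),
    if_neg (by omega), if_neg (by omega), if_neg (by omega), if_neg (by omega), if_neg (by omega)]

theorem F5c_val (h : ℕ) (hh : 4 ≤ h) (i : ℕ) (hi : i < 2 * h) :
    (i + 4 ≤ h ∧ cF5c h i = 3 + i) ∨
      (h < i + 4 ∧ i + 8 ≤ 2 * h ∧ cF5c h i = (h : ℤ) - 4 - i) ∨
      (i + 7 = 2 * h ∧ cF5c h i = (h : ℤ) + 3) ∨
      (i + 6 = 2 * h ∧ cF5c h i = (h : ℤ) + 2) ∨
      (i + 5 = 2 * h ∧ cF5c h i = (h : ℤ)) ∨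
      (i + 4 = 2 * h ∧ cF5c h i = (h : ℤ) + 1) ∨
      (i + 3 = 2 * h ∧ cF5c h i = (0 : ℤ)) ∨
      (i + 2 = 2 * h ∧ cF5c h i = (2 : ℤ)) ∨
      (i + 1 = 2 * h ∧ cF5c h i = (1 : ℤ)) := by
  have hc : i + 4 ≤ h ∨
      (h < i + 4 ∧ i + 8 ≤ 2 * h) ∨
      i + 7 = 2 * h ∨
      i + 6 = 2 * h ∨
      i + 5 = 2 * h ∨
      i + 4 = 2 * h ∨
      i + 3 = 2 * h ∨
      i + 2 = 2 * h ∨
      i + 1 = 2 * h := by omega
  rcases hc with hc | ⟨hc, hc2⟩ | hc | hc | hc | hc | hc | hc | hc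
  · exact Or.inl ⟨hc, F5c_a h i hc⟩
  · exact Or.inr (Or.inl ⟨hc, hc2, F5c_b h i hc hc2⟩)
  · exact Or.inr (Or.inr (Or.inl ⟨hc, F5c_v7 h i hh hc⟩))
  · exact Or.inr (Or.inr (Or.inr (Or.inl ⟨hc, F5c_v6 h i hh hc⟩)))
  · exact Or.inr (Or.inr (Or.inr (Or.inr (Or.inl ⟨hc, F5c_v5 h i hh hc⟩))))
  · exact Or.inr (Or.inr (Or.inr (Or.inr (Or.inr (Or.inl ⟨hc, F5c_v4 h i hh hc⟩)))))
  · exact Or.inr (Or.inr (Or.inr (Or.inr (Or.inr (Or.inr (Or.inl ⟨hc, F5c_v3 h i hh hc⟩))))))
  · exact Or.inr (Or.inr (Or.inr (Or.inr (Or.inr (Or.inr (Or.inr (Or.inl ⟨hc, F5c_v2 h i hh hc⟩)))))))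
  · exact Or.inr (Or.inr (Or.inr (Or.inr (Or.inr (Or.inr (Or.inr (Or.inr ⟨hc, F5c_v1 h i hh hc⟩)))))))

theorem F5c_bound (h : ℕ) (hh : 4 ≤ h) (i : ℕ) (hi : i < 2 * h) :
    (4 : ℤ) - h ≤ cF5c h i ∧ cF5c h i ≤ h + 3 := by
  rcases F5c_val h hh i hi with h1 | h1 | h1 | h1 | h1 | h1 | h1 | h1 | h1 <;> omega

theorem F5c_inj (h : ℕ) (hh : 4 ≤ h) (i j : ℕ) (hij : i < j) (hj : j < 2 * h) :
    ¬ ((2 * h : ℕ) : ℤ) ∣ cF5c h i - cF5c h j := by
  intro hd
  have h0 : cF5c h i - cF5c h j = 0 := by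
    have b1 := F5c_bound h hh i (by omega)
    have b2 := F5c_bound h hh j hj
    apply Int.eq_zero_of_abs_lt_dvd hd
    rw [abs_lt]
    push_cast
    constructor <;> omega
  rcases F5c_val h hh i (by omega) with h1 | h1 | h1 | h1 | h1 | h1 | h1 | h1 | h1 <;>
    rcases F5c_val h hh j hj with h2 | h2 | h2 | h2 | h2 | h2 | h2 | h2 | h2 <;> omega

theorem F5c_d1 (h i : ℕ) (hi : i + 4 < h) : cF5c h (i + 1) - cF5c h i = 1 := by
  rw [F5c_a h i (by omega), F5c_a h (i + 1) (by omega)]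
  push_cast
  ring

theorem F5c_d2 (h i : ℕ) (hh : 4 ≤ h) (hi : i + 4 = h) :
    cF5c h (i + 1) - cF5c h i = h ∨ cF5c h (i + 1) - cF5c h i = -(h : ℤ) := by
  rw [F5c_a h i (by omega)]
  by_cases h1 : h = 4
  · left
    rw [F5c_v7 h (i + 1) hh (by omega)]
    omega
  · right
    rw [F5c_b h (i + 1) (by omega) (by omega)]
    omega

theorem F5c_d3 (h i : ℕ) (hh : 4 ≤ h) (h1 : h < i + 4) (h2 : i + 7 < 2 * h) :
    cF5c h (i + 1) - cF5c h i = -1 ∨ cF5c h (i + 1) - cF5c h i = 2 * (h : ℤ) - 1 := by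
  rw [F5c_b h i h1 (by omega)]
  by_cases h3 : i + 8 < 2 * h
  · left
    rw [F5c_b h (i + 1) (by omega) (by omega)]
    push_cast
    ring
  · right
    rw [F5c_v7 h (i + 1) hh (by omega)]
    omega

theorem F5c_gcd (D : ℤ) (q : ℕ) (h : ∃ a b : ℤ, a * D + b * q = 2 ∨ a * D + b * q = 1)
    (hD : D % 2 = 1) : Int.gcd D q = 1 := by
  obtain ⟨a, b, hab⟩ := h
  have h1 : ((Int.gcd D q : ℕ) : ℤ) ∣ D := Int.gcd_dvd_left _ _
  have h2 : ((Int.gcd D q : ℕ) : ℤ) ∣ q := Int.gcd_dvd_right _ _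
  have h3 : ((Int.gcd D q : ℕ) : ℤ) ∣ a * D + b * q :=
    dvd_add (Dvd.dvd.mul_left h1 a) (Dvd.dvd.mul_left h2 b)
  have h4 : ((Int.gcd D q : ℕ) : ℤ) ∣ 2 := by
    rcases hab with hab | hab
    · rw [hab] at h3; exact h3
    · rw [hab] at h3; exact dvd_trans h3 (by norm_num)
  have h5 : Int.gcd D q ≤ 2 := by
    have := Int.le_of_dvd (by norm_num) h4
    omega
  generalize Int.gcd D q = g at *
  interval_cases g <;> first | rfl | omega

theorem F5c_gap_tau_pst (q : ℕ) [NeZero q] (c : ℕ → ℤ) (tn : ℕ → ℕ) (H : Finset ℕ) (i0 : ℕ)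
    (hper : c q = c 0)
    (hinj : ∀ i j : ℕ, i < j → j < q → ¬ (q : ℤ) ∣ c i - c j)
    (htn : ∀ i, i < q → tn i < q ∧ tn (tn i) = i)
    (hH : ∀ i ∈ H, i < q ∧ tn i = i)
    (hD : ∀ i, i < q → i ∉ H → (q : ℤ) ∣ (c (tn i + 1) - c (tn i)) + (c (i + 1) - c i))
    (hcyc : ∀ S : ℕ → Prop, S 0 → (S 0 → S (tn (q - 1))) →
      (∀ j, 0 < j → j < q → S j → S (tn (j - 1))) → ∀ j, j < q → S j)
    (hi0 : i0 ∈ H) (hz0 : Int.gcd (c (i0 + 1) - c i0) q = 2)
    (hz : ∀ i ∈ H, i ≠ i0 → Int.gcd (c (i + 1) - c i) q = 1) :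
    PSt (Fin q) (Fin q ⊕ Fin H.card) Across := by
  have hq0 : 0 < q := Nat.pos_of_ne_zero (NeZero.ne q)
  have hval : ∀ i : ℕ, i < q → ((i : ℕ) : ZMod q).val = i := fun i hi => ZMod.val_cast_of_lt hi
  have hinjZ : Function.Injective (fun i : ZMod q => ((c i.val : ℤ) : ZMod q)) := by
    intro a b hab
    have hab' : ((c a.val : ℤ) : ZMod q) = ((c b.val : ℤ) : ZMod q) := hab
    have h1 : (q : ℤ) ∣ c a.val - c b.val := by
      rw [← ZMod.intCast_zmod_eq_zero_iff_dvd]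
      push_cast
      rw [hab', sub_self]
    have h2 : (q : ℤ) ∣ c b.val - c a.val := by
      rw [← neg_sub]; exact (dvd_neg).mpr h1
    rcases lt_trichotomy a.val b.val with h | h | h
    · exact absurd h1 (hinj _ _ h (ZMod.val_lt b))
    · exact ZMod.val_injective q h
    · exact absurd h2 (hinj _ _ h (ZMod.val_lt a))
  let cZ : Perm (ZMod q) := Equiv.ofBijective _ (Finite.injective_iff_bijective.mp hinjZ)
  have hcZ : ∀ i : ZMod q, cZ i = ((c i.val : ℤ) : ZMod q) := fun i => rfl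
  have hinv : Function.Involutive (fun i : ZMod q => ((tn i.val : ℕ) : ZMod q)) := by
    intro i
    show ((tn ((tn i.val : ℕ) : ZMod q).val : ℕ) : ZMod q) = i
    obtain ⟨h1, h2⟩ := htn i.val (ZMod.val_lt i)
    rw [hval _ h1, h2, ZMod.natCast_zmod_val]
  let τ : Perm (ZMod q) := hinv.toPerm
  have hτ : ∀ i : ZMod q, τ i = ((tn i.val : ℕ) : ZMod q) := fun i => rfl
  have hcZ1 : ∀ i : ZMod q, cZ (i + 1) = ((c (i.val + 1) : ℤ) : ZMod q) := by
    intro i
    have hi := ZMod.val_lt i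
    rw [hcZ]
    have e1 : i + 1 = ((i.val + 1 : ℕ) : ZMod q) := by
      rw [Nat.cast_add, ZMod.natCast_zmod_val, Nat.cast_one]
    rw [e1]
    by_cases h : i.val + 1 < q
    · rw [hval _ h]
    · have h' : i.val + 1 = q := by omega
      rw [h', ZMod.natCast_self, ZMod.val_zero, hper]
  have hcard : (H.image (fun i : ℕ => (i : ZMod q))).card = H.card := by
    apply Finset.card_image_of_injOn
    intro a ha b hb hab
    have ha' := (hH a ha).1
    have hb' := (hH b hb).1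
    have hab' : ((a : ℕ) : ZMod q) = (b : ZMod q) := hab
    have := congrArg ZMod.val hab'
    rwa [hval a ha', hval b hb'] at this
  have hmemH : ∀ i : ZMod q, i ∈ H.image (fun i : ℕ => (i : ZMod q)) → i.val ∈ H := by
    intro i hi
    rw [Finset.mem_image] at hi
    obtain ⟨a, ha, rfl⟩ := hi
    rw [hval a (hH a ha).1]
    exact ha
  have key := gap_pst q cZ τ (H.image (fun i : ℕ => (i : ZMod q))) (i0 : ZMod q)
    (Finset.mem_image.mpr ⟨i0, hi0, rfl⟩) hinv
    (by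
      intro i hi
      rw [hτ, (hH _ (hmemH i hi)).2, ZMod.natCast_zmod_val])
    (by
      intro i hi
      have hi' : i.val ∉ H := by
        intro h
        exact hi (Finset.mem_image.mpr ⟨i.val, h, ZMod.natCast_zmod_val i⟩)
      obtain ⟨h1, h2⟩ := htn i.val (ZMod.val_lt i)
      have h3 := hD i.val (ZMod.val_lt i) hi'
      rw [hcZ1, hcZ1, hcZ, hcZ, hτ, hval _ h1]
      rw [← ZMod.intCast_zmod_eq_zero_iff_dvd] at h3
      push_cast at h3
      exact eq_neg_of_add_eq_zero_left h3)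
    (by
      have hS : ∀ j : ℕ, j < q →
          (τ * (Equiv.addRight (-1 : ZMod q))).SameCycle 0 ((j : ℕ) : ZMod q) := by
        apply hcyc (fun j => (τ * (Equiv.addRight (-1 : ZMod q))).SameCycle 0 ((j : ℕ) : ZMod q))
        · simp only [Nat.cast_zero]
          exact Perm.SameCycle.refl _ _
        · intro _
          have e : ((tn (q - 1) : ℕ) : ZMod q) = (τ * (Equiv.addRight (-1 : ZMod q))) 0 := by
            have e3 : (τ * (Equiv.addRight (-1 : ZMod q))) 0 =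
                ((tn ((0 : ZMod q) + -1).val : ℕ) : ZMod q) := rfl
            have e2 : (-1 : ZMod q) = ((q - 1 : ℕ) : ZMod q) := by
              rw [Nat.cast_sub hq0, ZMod.natCast_self, Nat.cast_one, zero_sub]
            rw [e3, zero_add, e2, hval _ (by omega)]
          show (τ * (Equiv.addRight (-1 : ZMod q))).SameCycle 0 ((tn (q - 1) : ℕ) : ZMod q)
          rw [e, Perm.sameCycle_apply_right]
        · intro j hj hjq hS
          have e : ((tn (j - 1) : ℕ) : ZMod q) =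
              (τ * (Equiv.addRight (-1 : ZMod q))) ((j : ℕ) : ZMod q) := by
            have e3 : (τ * (Equiv.addRight (-1 : ZMod q))) ((j : ℕ) : ZMod q) =
                ((tn (((j : ℕ) : ZMod q) + -1).val : ℕ) : ZMod q) := rfl
            have e2 : ((j : ℕ) : ZMod q) + -1 = ((j - 1 : ℕ) : ZMod q) := by
              rw [Nat.cast_sub hj, Nat.cast_one, sub_eq_add_neg]
            rw [e3, e2, hval _ (by omega)]
          show (τ * (Equiv.addRight (-1 : ZMod q))).SameCycle 0 ((tn (j - 1) : ℕ) : ZMod q)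
          rw [e, Perm.sameCycle_apply_right]
          exact hS
      have hS' : ∀ x : ZMod q, (τ * (Equiv.addRight (-1 : ZMod q))).SameCycle 0 x := by
        intro x
        have := hS x.val (ZMod.val_lt x)
        rwa [ZMod.natCast_zmod_val] at this
      intro x y
      exact (hS' x).symm.trans (hS' y))
    (by
      intro i hi hne
      have hi' := hmemH i hi
      have h1 : i.val ≠ i0 := by
        intro h
        apply hne
        rw [← h, ZMod.natCast_zmod_val]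
      have h2 := addRight_Tr q _ (hz i.val hi' h1)
      rw [hcZ1, hcZ]
      push_cast at h2
      exact h2)
    (by
      have h2 := addRight_Two q _ hz0
      rw [hcZ1, hcZ, hval i0 (hH i0 hi0).1]
      push_cast at h2
      exact h2)
  rw [hcard] at key
  exact key

/-- the involution of the positions. -/
def F5ctau (h i : ℕ) : ℕ :=
  if i + 4 < h then i + (h - 3)
  else if h ≤ i + 3 ∧ i + 7 < 2 * h then i - (h - 3)
  else if i + 6 = 2 * h then i + 3
  else if i + 5 = 2 * h then i + 3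
  else if i + 3 = 2 * h then i - 3
  else if i + 2 = 2 * h then i - 3
  else i

theorem F5ctau_spec (h : ℕ) (hh : 4 ≤ h) (i : ℕ) (hi : i < 2 * h) :
    (i + 4 < h ∧ F5ctau h i = i + (h - 3)) ∨
    (h ≤ i + 3 ∧ i + 7 < 2 * h ∧ F5ctau h i = i - (h - 3)) ∨
    (i + 6 = 2 * h ∧ F5ctau h i = i + 3) ∨ (i + 5 = 2 * h ∧ F5ctau h i = i + 3) ∨
    (i + 3 = 2 * h ∧ F5ctau h i = i - 3) ∨ (i + 2 = 2 * h ∧ F5ctau h i = i - 3) ∨
    ((i + 4 = h ∨ i + 7 = 2 * h ∨ i + 4 = 2 * h ∨ i + 1 = 2 * h) ∧ F5ctau h i = i) := by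
  unfold F5ctau
  split_ifs <;> omega

theorem F5ctau_inv (h : ℕ) (hh : 4 ≤ h) (i : ℕ) (hi : i < 2 * h) :
    F5ctau h i < 2 * h ∧ F5ctau h (F5ctau h i) = i := by
  have h1 : F5ctau h i < 2 * h := by
    rcases F5ctau_spec h hh i hi with h1 | h1 | h1 | h1 | h1 | h1 | h1 <;> omega
  refine ⟨h1, ?_⟩
  have h2 := F5ctau_spec h hh (F5ctau h i) h1
  generalize F5ctau h (F5ctau h i) = b at *
  rcases F5ctau_spec h hh i hi with h3 | h3 | h3 | h3 | h3 | h3 | h3 <;>
    rcases h2 with h2 | h2 | h2 | h2 | h2 | h2 | h2 <;> omega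

theorem F5c_cyc (h : ℕ) (hh : 4 ≤ h) (he : h % 2 = 0) (S : ℕ → Prop) (h0 : S 0)
    (h1 : S 0 → S (F5ctau h (2 * h - 1)))
    (h2 : ∀ j, 0 < j → j < 2 * h → S j → S (F5ctau h (j - 1))) : ∀ j, j < 2 * h → S j := by
  have step : ∀ j k, 0 < j → j < 2 * h → F5ctau h (j - 1) = k → S j → S k := by
    intro j k hj hj2 hk hS
    rw [← hk]
    exact h2 j hj hj2 hS
  have spec := F5ctau_spec h hh
  have a1 : S (2 * h - 1) := by
    have := h1 h0
    rcases spec (2 * h - 1) (by omega) with e | e | e | e | e | e | e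
    · omega
    · omega
    · omega
    · omega
    · omega
    · omega
    · rwa [e.2] at this
  have a5 : S (2 * h - 5) := step (2 * h - 1) (2 * h - 5) (by omega) (by omega)
    (by rcases spec (2 * h - 1 - 1) (by omega) with e | e | e | e | e | e | e <;> omega) a1
  have a3 : S (2 * h - 3) := step (2 * h - 5) (2 * h - 3) (by omega) (by omega)
    (by rcases spec (2 * h - 5 - 1) (by omega) with e | e | e | e | e | e | e <;> omega) a5
  have a4 : S (2 * h - 4) := step (2 * h - 3) (2 * h - 4) (by omega) (by omega)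
    (by rcases spec (2 * h - 3 - 1) (by omega) with e | e | e | e | e | e | e <;> omega) a3
  have a2 : S (2 * h - 2) := step (2 * h - 4) (2 * h - 2) (by omega) (by omega)
    (by rcases spec (2 * h - 4 - 1) (by omega) with e | e | e | e | e | e | e <;> omega) a4
  have a6 : S (2 * h - 6) := step (2 * h - 2) (2 * h - 6) (by omega) (by omega)
    (by rcases spec (2 * h - 2 - 1) (by omega) with e | e | e | e | e | e | e <;> omega) a2
  have a7 : S (2 * h - 7) := step (2 * h - 6) (2 * h - 7) (by omega) (by omega)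
    (by rcases spec (2 * h - 6 - 1) (by omega) with e | e | e | e | e | e | e <;> omega) a6
  have b : ∀ k, 2 * k + 4 ≤ h → S (2 * h - 7 - 2 * k) ∧ (2 * k + 4 < h → S (h - 5 - 2 * k)) := by
    intro k
    induction k with
    | zero =>
      intro _
      refine ⟨a7, fun hk => ?_⟩
      exact step (2 * h - 7) (h - 5 - 2 * 0) (by omega) (by omega)
        (by rcases spec (2 * h - 7 - 1) (by omega) with e | e | e | e | e | e | e <;> omega) a7
    | succ k ih =>
      intro hk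
      obtain ⟨_, i2⟩ := ih (by omega)
      have i3 := i2 (by omega)
      have i4 : S (2 * h - 7 - 2 * (k + 1)) :=
        step (h - 5 - 2 * k) (2 * h - 7 - 2 * (k + 1)) (by omega) (by omega)
        (by rcases spec (h - 5 - 2 * k - 1) (by omega) with e | e | e | e | e | e | e <;> omega) i3
      refine ⟨i4, fun hk2 => ?_⟩
      exact step (2 * h - 7 - 2 * (k + 1)) (h - 5 - 2 * (k + 1)) (by omega) (by omega)
        (by rcases spec (2 * h - 7 - 2 * (k + 1) - 1) (by omega) with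
          e | e | e | e | e | e | e <;> omega) i4
  have c0 : S (h - 3) := by
    have := (b ((h - 4) / 2) (by omega)).1
    rwa [show 2 * h - 7 - 2 * ((h - 4) / 2) = h - 3 by omega] at this
  have c1 : S (h - 4) := step (h - 3) (h - 4) (by omega) (by omega)
    (by rcases spec (h - 3 - 1) (by omega) with e | e | e | e | e | e | e <;> omega) c0
  have d : ∀ k, 2 * k + 4 ≤ h → S (h - 4 - 2 * k) ∧ (2 * k + 4 < h → S (2 * h - 8 - 2 * k)) := by
    intro k
    induction k with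
    | zero =>
      intro _
      refine ⟨c1, fun hk => ?_⟩
      exact step (h - 4) (2 * h - 8 - 2 * 0) (by omega) (by omega)
        (by rcases spec (h - 4 - 1) (by omega) with e | e | e | e | e | e | e <;> omega) c1
    | succ k ih =>
      intro hk
      obtain ⟨_, i2⟩ := ih (by omega)
      have i3 := i2 (by omega)
      have i4 : S (h - 4 - 2 * (k + 1)) :=
        step (2 * h - 8 - 2 * k) (h - 4 - 2 * (k + 1)) (by omega) (by omega)
        (by rcases spec (2 * h - 8 - 2 * k - 1) (by omega) with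
          e | e | e | e | e | e | e <;> omega) i3
      refine ⟨i4, fun hk2 => ?_⟩
      exact step (h - 4 - 2 * (k + 1)) (2 * h - 8 - 2 * (k + 1)) (by omega) (by omega)
        (by rcases spec (h - 4 - 2 * (k + 1) - 1) (by omega) with
          e | e | e | e | e | e | e <;> omega) i4
  intro j hj
  have hc : (2 * h - 6 ≤ j) ∨ (j ≤ 2 * h - 7 ∧ h - 3 ≤ j ∧ j % 2 = 1) ∨
      (j ≤ 2 * h - 7 ∧ h - 3 ≤ j ∧ j % 2 = 0) ∨ (j ≤ h - 4 ∧ j % 2 = 1) ∨
      (j ≤ h - 4 ∧ j % 2 = 0) := by omega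
  rcases hc with hc | ⟨hc1, hc2, hc3⟩ | ⟨hc1, hc2, hc3⟩ | ⟨hc1, hc2⟩ | ⟨hc1, hc2⟩
  · have : j = 2 * h - 6 ∨ j = 2 * h - 5 ∨ j = 2 * h - 4 ∨ j = 2 * h - 3 ∨ j = 2 * h - 2 ∨
      j = 2 * h - 1 := by omega
    rcases this with e | e | e | e | e | e <;> rw [e] <;> assumption
  · have := (b ((2 * h - 7 - j) / 2) (by omega)).1
    rwa [show 2 * h - 7 - 2 * ((2 * h - 7 - j) / 2) = j by omega] at this
  · have := (d ((2 * h - 8 - j) / 2) (by omega)).2 (by omega)
    rwa [show 2 * h - 8 - 2 * ((2 * h - 8 - j) / 2) = j by omega] at this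
  · have := (b ((h - 5 - j) / 2) (by omega)).2 (by omega)
    rwa [show h - 5 - 2 * ((h - 5 - j) / 2) = j by omega] at this
  · have := (d ((h - 4 - j) / 2) (by omega)).1
    rwa [show h - 4 - 2 * ((h - 4 - j) / 2) = j by omega] at this

theorem fam_F5c (q : ℕ) (hq : q % 4 = 0) (hq' : 8 ≤ q) : PSt (Fin q) (Fin q ⊕ Fin 3) Across := by
  obtain ⟨h, rfl⟩ : ∃ h, q = 2 * h := ⟨q / 2, by omega⟩
  have hh : 4 ≤ h := by omega
  have : NeZero (2 * h) := ⟨by omega⟩
  have hcard : ({2 * h - 7, 2 * h - 4, 2 * h - 1} : Finset ℕ).card = 3 := by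
    rw [Finset.card_insert_of_notMem, Finset.card_pair (by omega)]
    simp only [Finset.mem_insert, Finset.mem_singleton]
    omega
  have hmem : ∀ i, i ∈ ({2 * h - 7, 2 * h - 4, 2 * h - 1} : Finset ℕ) ↔
      i = 2 * h - 7 ∨ i = 2 * h - 4 ∨ i = 2 * h - 1 := by
    intro i
    simp only [Finset.mem_insert, Finset.mem_singleton]
  have key := F5c_gap_tau_pst (2 * h) (cF5c h) (F5ctau h) {2 * h - 7, 2 * h - 4, 2 * h - 1}
    (2 * h - 1)
    (by rw [F5c_v0 h (2 * h) hh rfl, F5c_a h 0 (by omega)]; norm_num)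
    (fun i j hij hj => F5c_inj h hh i j hij hj)
    (fun i hi => F5ctau_inv h hh i hi)
    (by
      intro i hi
      rw [hmem] at hi
      have hi2 : i < 2 * h := by omega
      refine ⟨hi2, ?_⟩
      rcases F5ctau_spec h hh i hi2 with e | e | e | e | e | e | e
      · omega
      · omega
      · omega
      · omega
      · omega
      · omega
      · exact e.2)
    (by
      intro i hi hiH
      rw [hmem] at hiH
      rcases F5ctau_spec h hh i hi with e | e | e | e | e | e | e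
      · rw [e.2, F5c_d1 h i e.1]
        rcases F5c_d3 h (i + (h - 3)) hh (by omega) (by omega) with e2 | e2
        · rw [e2]; exact ⟨0, by ring⟩
        · rw [e2]; exact ⟨1, by push_cast; ring⟩
      · rw [e.2.2, F5c_d1 h (i - (h - 3)) (by omega)]
        rcases F5c_d3 h i hh (by omega) (by omega) with e2 | e2
        · rw [e2]; exact ⟨0, by ring⟩
        · rw [e2]; exact ⟨1, by push_cast; ring⟩
      · rw [e.2, F5c_v6 h i hh e.1, F5c_v5 h (i + 1) hh (by omega), F5c_v3 h (i + 3) hh (by omega),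
          F5c_v2 h (i + 3 + 1) hh (by omega)]
        exact ⟨0, by ring⟩
      · rw [e.2, F5c_v5 h i hh e.1, F5c_v4 h (i + 1) hh (by omega), F5c_v2 h (i + 3) hh (by omega),
          F5c_v1 h (i + 3 + 1) hh (by omega)]
        exact ⟨0, by ring⟩
      · rw [e.2, F5c_v3 h i hh e.1, F5c_v2 h (i + 1) hh (by omega), F5c_v6 h (i - 3) hh (by omega),
          F5c_v5 h (i - 3 + 1) hh (by omega)]
        exact ⟨0, by ring⟩
      · rw [e.2, F5c_v2 h i hh e.1, F5c_v1 h (i + 1) hh (by omega), F5c_v5 h (i - 3) hh (by omega),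
          F5c_v4 h (i - 3 + 1) hh (by omega)]
        exact ⟨0, by ring⟩
      · rw [e.2]
        rcases F5c_d2 h i hh (by omega) with e2 | e2
        · rw [e2]; exact ⟨1, by push_cast; ring⟩
        · rw [e2]; exact ⟨-1, by push_cast; ring⟩)
    (fun S s0 s1 s2 => F5c_cyc h hh (by omega) S s0 s1 s2)
    (by rw [hmem]; omega)
    (by
      rw [F5c_v1 h (2 * h - 1) hh (by omega), F5c_v0 h (2 * h - 1 + 1) hh (by omega)]
      have : ((3 : ℤ) - 1) = ((2 : ℕ) : ℤ) := by norm_num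
      rw [this, Int.gcd_natCast_natCast, Nat.gcd_mul_right_right])
    (by
      intro i hi hi0
      rw [hmem] at hi
      have h3 : i + 7 = 2 * h ∨ i + 4 = 2 * h := by omega
      rcases h3 with h3 | h3
      · rw [F5c_v7 h i hh h3, F5c_v6 h (i + 1) hh (by omega)]
        exact F5c_gcd _ _ ⟨-1, 0, by right; ring⟩ (by omega)
      · rw [F5c_v4 h i hh h3, F5c_v3 h (i + 1) hh (by omega)]
        exact F5c_gcd _ _ ⟨-2, -1, by left; push_cast; ring⟩ (by omega))
  rw [hcard] at key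
  exact key

end Pool.Agent.W_MP_43c969_h13
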