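import Pool.Agent.W_MP_43c969_h13.Defs
import Pool.Agent.W_MP_43c969_h13.Basic

/-!
# Task RingA: embeddings with two rows (the text describes also three rows)

`ring_two`: two rows `ρ`, `ρ⁻¹` (a full cycle on `Fin n`, for instance `finRotate n`) and all the
columns equal to the exchange of the two rows. All arcs are good. Every pair `x, ρ x` is covered.

`ring_three` (no coverage). Start from `ring_two`, `a` the first row, `ρ = rho a`.
* `n = 2 mod 4`: `splitA` with `t = 0`, `j = 0` and `S` the columns of even index (`n / 2` of them,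
  an odd number). Exact.
* `n = 1 mod 4` (`n ≥ 5`): `splitOne` with `k = 2`: three bad arcs.
* `n = 3 mod 4`: split with the same data as in `splitA`, but with one missing column, and insert
  it in an arbitrary place. Precisely: let `x0` be the column `0`, `S` the columns of odd index
  (`1, 3, …, n - 2`, `(n - 1) / 2` of them, an odd number), so `N = S ∪ ρ(S) ∪ {x0}`;
  `κ, θ` from `split_perm`, `E1 = splitEmb E a S ∅ κ θ`. All the arcs of `E1` are good
  (the incidence `(some a, x0)` is missing). Now insert it with `insEmb E1 (some a) x0 u c`, where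
  `c = none` and `u` is chosen so that the arc `(some a, u)` and the arc of the row `none` ending at
  `x0` are in different quadrilaterals: the row `none` has rotation `ρ κ`, the arc ending at `x0`
  starts at `v = n - 1` (the index before `0`, which is in `ρ(S)`), and its quadrilateral is
  `{(none, n - 1), (some b, 0)}` with `b` the second row; so any `u` in `S` works. The result has
  one face with `5` arcs (`ins_face_merge`).
* `n = 0 mod 4`: let `S` be the columns of even index (`n / 2` of them, an even number), `κ` the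
  cyclic shift by two on `S`. `E1 = splitEmb E a S ∅ κ θ` has all its arcs good, the row
  `some a` is one cycle, the row `none` (rotation `ρ κ`: `2 i ↦ 2 i + 3`, `2 i + 1 ↦ 2 i + 2`) has
  two cycles, distinguished by the class modulo `4` (the first cycle contains the `4 i` and
  `4 i + 3`, the second contains the `4 i + 1`, `4 i + 2`). `rowSwap E1 none 1 3` joins the two
  cycles (1 is in the second cycle and 3 in the first) and joins the two quadrilaterals of the arcs
  `(none, 1)`, `(none, 3)` (their partners are the arcs `(some b, 2)`, `(some b, 4)` of the second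
  row) in one face with four arcs.
-/

set_option autoImplicit false

namespace Pool.Agent.W_MP_43c969_h13

open Equiv

/-- two rows with inverse rotations -/
def ringTwo {N : Type*} (ρ : Perm N) : Emb (Fin 2) N where
  rho a := if a = 0 then ρ else ρ⁻¹
  pi _ := Equiv.swap 0 1

theorem ringTwo_cols {N : Type*} (ρ : Perm N) : (ringTwo ρ).ColsTr := by
  intro x a b
  have h : ∀ a b : Fin 2, (Equiv.swap (0 : Fin 2) 1 ^ 0) a = b ∨
      (Equiv.swap (0 : Fin 2) 1 ^ 1) a = b := by decide
  show (Equiv.swap (0 : Fin 2) 1).SameCycle a b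
  rcases h a b with h1 | h1
  · exact ⟨0, by simpa using h1⟩
  · exact ⟨1, by simpa using h1⟩

theorem ringTwo_good {N : Type*} (ρ : Perm N) : (ringTwo ρ).AllGood := by
  rintro ⟨a, x⟩
  have h1 : ∀ a : Fin 2, a = 0 ∨ a = 1 := by decide
  have e1 : Equiv.swap (0 : Fin 2) 1 1 = 0 := by decide
  have e0 : Equiv.swap (0 : Fin 2) 1 0 = 1 := by decide
  have e2 : (1 : Fin 2) ≠ 0 := by decide
  rcases h1 a with rfl | rfl
  · show (ringTwo ρ).phi ((ringTwo ρ).phi (0, x)) = (0, x)
    simp only [Emb.phi, ringTwo, if_true, e0, if_neg e2, e1]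
    rw [show ρ⁻¹ (ρ x) = x from ρ.symm_apply_apply x]
  · show (ringTwo ρ).phi ((ringTwo ρ).phi (1, x)) = (1, x)
    simp only [Emb.phi, ringTwo, if_true, e0, if_neg e2, e1]
    rw [show ρ (ρ⁻¹ x) = x from ρ.apply_symm_apply x]

/-- two rows: everything is good, and there is a row with prescribed rotation. -/
theorem ring_two {N : Type*} [Fintype N] (ρ : Perm N) (hρ : Tr ρ) :
    ∃ E : Emb (Fin 2) N, E.RowsTr ∧ E.ColsTr ∧ E.AllGood ∧ E.rho 0 = ρ := by
  refine ⟨ringTwo ρ, ?_, ringTwo_cols ρ, ringTwo_good ρ, rfl⟩
  intro a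
  by_cases ha : a = 0
  · show Tr (if a = 0 then ρ else ρ⁻¹)
    rw [if_pos ha]
    exact hρ
  · show Tr (if a = 0 then ρ else ρ⁻¹)
    rw [if_neg ha]
    intro x y
    exact (hρ x y).inv

theorem tr_finRotate (n : ℕ) : Tr (finRotate n) := by
  rcases n with _ | _ | n
  · intro x
    exact x.elim0
  · intro x y
    have h : x = y := by
      apply Fin.ext
      have h1 := x.2
      have h2 := y.2
      omega
    rw [h]
  · intro x y
    have h : ∀ z : Fin (n + 2), finRotate (n + 2) z ≠ z := by
      intro z
      have h1 : z ∈ (finRotate (n + 2)).support := by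
        rw [support_finRotate]
        exact Finset.mem_univ _
      exact Perm.mem_support.1 h1
    exact isCycle_finRotate.sameCycle (h x) (h y)

theorem ring_two_ex (n : ℕ) : Ex (Fin 2) (Fin n) (fun _ _ => False) := by
  obtain ⟨E, h1, h2, h3, -⟩ := ring_two (finRotate n) (tr_finRotate n)
  exact ⟨E, h1, h2, h3, fun _ _ h => h.elim⟩

/-- with three columns, all pairs are covered. -/
theorem ring_two_three : Ex (Fin 2) (Fin 2 ⊕ Fin 1) Across := by
  have htr : Tr ((finSumFinEquiv (m := 2) (n := 1)).permCongr.symm (finRotate 3)) := by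
    have h : ∀ x y : Fin 2 ⊕ Fin 1, ∃ n ∈ Finset.range 3,
        ((finSumFinEquiv (m := 2) (n := 1)).permCongr.symm (finRotate 3) ^ n) x = y := by
      decide
    intro x y
    obtain ⟨n, -, hn⟩ := h x y
    exact ⟨n, by rw [zpow_natCast]; exact hn⟩
  obtain ⟨E, h1, h2, h3, h4⟩ := ring_two _ htr
  refine ⟨E, h1, h2, h3, ?_⟩
  rintro x y ⟨y', z', rfl, rfl⟩
  refine ⟨0, ?_⟩
  rw [h4]
  have h : ∀ (y' : Fin 2) (z' : Fin 1),
      (finSumFinEquiv (m := 2) (n := 1)).permCongr.symm (finRotate 3) (Sum.inl y') = Sum.inr z' ∨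
      (finSumFinEquiv (m := 2) (n := 1)).permCongr.symm (finRotate 3) (Sum.inr z') =
        Sum.inl y' := by
    decide
  exact h y' z'

/-- with two columns, the pair is covered. -/
theorem ring_two_one : Ex (Fin 2) (Fin 1 ⊕ Fin 1) Across := by
  have htr : Tr ((finSumFinEquiv (m := 1) (n := 1)).permCongr.symm (finRotate 2)) := by
    have h : ∀ x y : Fin 1 ⊕ Fin 1, ∃ n ∈ Finset.range 2,
        ((finSumFinEquiv (m := 1) (n := 1)).permCongr.symm (finRotate 2) ^ n) x = y := by
      decide
    intro x y
    obtain ⟨n, -, hn⟩ := h x y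
    exact ⟨n, by rw [zpow_natCast]; exact hn⟩
  obtain ⟨E, h1, h2, h3, h4⟩ := ring_two _ htr
  refine ⟨E, h1, h2, h3, ?_⟩
  rintro x y ⟨y', z', rfl, rfl⟩
  refine ⟨0, ?_⟩
  rw [h4]
  have h : ∀ (y' : Fin 1) (z' : Fin 1),
      (finSumFinEquiv (m := 1) (n := 1)).permCongr.symm (finRotate 2) (Sum.inl y') = Sum.inr z' ∨
      (finSumFinEquiv (m := 1) (n := 1)).permCongr.symm (finRotate 2) (Sum.inr z') =
        Sum.inl y' := by
    decide
  exact h y' z'

end Pool.Agent.W_MP_43c969_h13
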