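import Pool.Agent.W_MP_43c969_h13.Small

/-!
# Explicit small embeddings, checked by evaluation
-/

set_option autoImplicit false
set_option maxRecDepth 100000

namespace Pool.Agent.W_MP_43c969_h13

def dsm3_1_St : SD where
  rho := [[3, 2, 0, 1], [3, 0, 1, 2], [2, 3, 1, 0]]
  pi := [[2, 0, 1], [2, 0, 1], [1, 2, 0], [1, 2, 0]]

theorem sm3_1_St : St (Fin 3) (Fin 3 ⊕ Fin 1) Across 4 :=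
  chkSt_sound dsm3_1_St 3 3 1 4 (by decide) (by decide) (by decide)

def dsm3_1_Ex : SD where
  rho := [[3, 2, 0, 1], [1, 2, 3, 0], [3, 0, 1, 2], [2, 3, 1, 0]]
  pi := [[3, 0, 1, 2], [3, 2, 0, 1], [2, 3, 1, 0], [1, 2, 3, 0]]

theorem sm3_1_Ex : St (Fin 4) (Fin 3 ⊕ Fin 1) Across 0 :=
  chkSt_sound dsm3_1_Ex 4 3 1 0 (by decide) (by decide) (by decide)

def dsm3_2_St : SD where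
  rho := [[1, 2, 3, 4, 0], [3, 0, 4, 2, 1], [4, 3, 1, 0, 2]]
  pi := [[2, 0, 1], [1, 2, 0], [2, 0, 1], [1, 2, 0], [1, 2, 0]]

theorem sm3_2_St : St (Fin 3) (Fin 3 ⊕ Fin 2) Across 3 :=
  chkSt_sound dsm3_2_St 3 3 2 3 (by decide) (by decide) (by decide)

def dsm3_2_PSt : SD where
  rho := [[3, 0, 4, 2, 1], [1, 4, 3, 0, 2], [4, 3, 0, 2, 1], [2, 4, 3, 1, 0]]
  pi := [[1, 0, 3, 2], [3, 0, 1, 2], [3, 0, 1, 2], [1, 2, 3, 0], [1, 2, 3, 0]]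

theorem sm3_2_PSt : PSt (Fin 4) (Fin 3 ⊕ Fin 2) Across :=
  chkPSt_sound dsm3_2_PSt 4 3 2 0 2 (by decide) (by decide) (by decide)

def dsm4_1_PSt : SD where
  rho := [[1, 2, 3, 4, 0], [3, 0, 4, 2, 1], [4, 0, 1, 2, 3], [1, 4, 3, 0, 2]]
  pi := [[2, 0, 3, 1], [1, 3, 0, 2], [2, 0, 3, 1], [1, 3, 0, 2], [2, 3, 0, 1]]

theorem sm4_1_PSt : PSt (Fin 4) (Fin 4 ⊕ Fin 1) Across :=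
  chkPSt_sound dsm4_1_PSt 4 4 1 4 1 (by decide) (by decide) (by decide)

def dsm4_3_PSt : SD where
  rho := [[6, 2, 5, 4, 0, 3, 1], [3, 4, 6, 5, 2, 1, 0], [4, 5, 1, 6, 3, 0, 2], [5, 6, 4, 0, 1, 2, 3]]
  pi := [[2, 0, 3, 1], [3, 2, 0, 1], [2, 3, 1, 0], [1, 3, 0, 2], [2, 3, 0, 1], [3, 0, 1, 2], [1, 2, 3, 0]]

theorem sm4_3_PSt : PSt (Fin 4) (Fin 4 ⊕ Fin 3) Across :=
  chkPSt_sound dsm4_3_PSt 4 4 3 4 1 (by decide) (by decide) (by decide)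

def dsm5_1_Ex : SD where
  rho := [[5, 2, 4, 0, 3, 1], [3, 4, 1, 2, 5, 0], [3, 0, 1, 5, 2, 4], [4, 2, 5, 0, 1, 3], [1, 5, 3, 4, 0, 2]]
  pi := [[2, 0, 4, 1, 3], [4, 0, 3, 1, 2], [1, 4, 0, 2, 3], [4, 3, 0, 2, 1], [2, 3, 1, 4, 0], [1, 2, 3, 4, 0]]

theorem sm5_1_Ex : St (Fin 5) (Fin 5 ⊕ Fin 1) Across 0 :=
  chkSt_sound dsm5_1_Ex 5 5 1 0 (by decide) (by decide) (by decide)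

def dsm5_2_St : SD where
  rho := [[6, 2, 5, 1, 3, 0, 4], [6, 3, 4, 5, 0, 2, 1], [4, 5, 1, 0, 6, 3, 2], [3, 2, 6, 4, 5, 1, 0], [5, 6, 1, 0, 2, 4, 3]]
  pi := [[4, 2, 0, 1, 3], [1, 4, 0, 2, 3], [2, 0, 3, 4, 1], [3, 0, 1, 4, 2], [2, 4, 1, 0, 3], [1, 2, 3, 4, 0], [4, 3, 0, 2, 1]]

theorem sm5_2_St : St (Fin 5) (Fin 5 ⊕ Fin 2) Across 3 :=
  chkSt_sound dsm5_2_St 5 5 2 3 (by decide) (by decide) (by decide)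

def dsm5_2_Ex : SD where
  rho := [[4, 3, 5, 2, 1, 6, 0], [6, 5, 4, 1, 0, 2, 3], [2, 4, 3, 1, 6, 0, 5], [4, 3, 0, 6, 5, 1, 2], [5, 6, 0, 1, 2, 3, 4], [2, 3, 6, 5, 0, 4, 1]]
  pi := [[1, 3, 4, 2, 5, 0], [2, 0, 5, 1, 3, 4], [2, 0, 3, 5, 1, 4], [1, 3, 0, 4, 5, 2], [5, 4, 0, 1, 2, 3], [1, 3, 0, 5, 2, 4], [2, 0, 4, 1, 5, 3]]

theorem sm5_2_Ex : St (Fin 6) (Fin 5 ⊕ Fin 2) Across 0 :=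
  chkSt_sound dsm5_2_Ex 6 5 2 0 (by decide) (by decide) (by decide)

def dsm5_3_St : SD where
  rho := [[5, 4, 6, 2, 3, 7, 0, 1], [1, 7, 5, 4, 6, 0, 2, 3], [6, 0, 7, 5, 1, 2, 3, 4], [2, 5, 3, 6, 7, 4, 1, 0], [1, 6, 0, 7, 5, 3, 4, 2]]
  pi := [[2, 0, 4, 1, 3], [1, 3, 0, 4, 2], [3, 0, 1, 4, 2], [1, 4, 3, 0, 2], [2, 0, 3, 4, 1], [1, 2, 4, 0, 3], [1, 4, 0, 2, 3], [3, 0, 4, 2, 1]]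

theorem sm5_3_St : St (Fin 5) (Fin 5 ⊕ Fin 3) Across 4 :=
  chkSt_sound dsm5_3_St 5 5 3 4 (by decide) (by decide) (by decide)

def dsm5_3_Ex : SD where
  rho := [[4, 2, 0, 6, 7, 3, 1, 5], [2, 6, 7, 4, 5, 1, 0, 3], [3, 6, 5, 7, 0, 4, 2, 1], [7, 5, 6, 1, 2, 0, 3, 4], [5, 3, 4, 0, 6, 7, 1, 2], [6, 7, 1, 5, 3, 2, 4, 0]]
  pi := [[1, 5, 0, 4, 2, 3], [1, 3, 5, 4, 2, 0], [5, 0, 3, 4, 1, 2], [5, 2, 4, 0, 3, 1], [2, 5, 1, 0, 3, 4], [4, 2, 5, 1, 3, 0], [3, 0, 4, 2, 5, 1], [3, 4, 1, 5, 0, 2]]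

theorem sm5_3_Ex : St (Fin 6) (Fin 5 ⊕ Fin 3) Across 0 :=
  chkSt_sound dsm5_3_Ex 6 5 3 0 (by decide) (by decide) (by decide)

def dsm5_4_St : SD where
  rho := [[1, 7, 8, 2, 5, 3, 4, 6, 0], [8, 5, 7, 4, 6, 2, 1, 0, 3], [4, 0, 6, 5, 8, 1, 7, 3, 2], [7, 8, 5, 6, 3, 0, 2, 1, 4], [5, 6, 3, 8, 7, 4, 0, 2, 1]]
  pi := [[1, 3, 0, 4, 2], [2, 4, 1, 0, 3], [4, 3, 0, 2, 1], [2, 4, 3, 1, 0], [1, 3, 4, 2, 0], [4, 2, 0, 1, 3], [2, 0, 3, 4, 1], [3, 4, 0, 1, 2], [2, 0, 3, 4, 1]]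

theorem sm5_4_St : St (Fin 5) (Fin 5 ⊕ Fin 4) Across 5 :=
  chkSt_sound dsm5_4_St 5 5 4 5 (by decide) (by decide) (by decide)

def dsm5_4_Ex : SD where
  rho := [[6, 5, 8, 7, 2, 3, 1, 4, 0], [8, 6, 7, 5, 2, 4, 3, 0, 1], [1, 7, 6, 0, 8, 2, 4, 5, 3], [3, 6, 5, 8, 7, 1, 0, 2, 4], [7, 8, 4, 6, 5, 0, 2, 1, 3], [5, 0, 4, 8, 6, 7, 1, 3, 2]]
  pi := [[1, 4, 3, 0, 5, 2], [1, 4, 5, 0, 2, 3], [4, 5, 3, 1, 2, 0], [1, 4, 5, 2, 3, 0], [3, 4, 5, 2, 0, 1], [3, 0, 5, 2, 1, 4], [3, 0, 4, 5, 1, 2], [5, 3, 4, 0, 1, 2], [5, 0, 3, 4, 1, 2]]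

theorem sm5_4_Ex : St (Fin 6) (Fin 5 ⊕ Fin 4) Across 0 :=
  chkSt_sound dsm5_4_Ex 6 5 4 0 (by decide) (by decide) (by decide)

def dsm6_1_Ex : SD where
  rho := [[6, 3, 0, 4, 2, 1, 5], [1, 5, 4, 2, 0, 6, 3], [2, 6, 5, 1, 0, 3, 4], [4, 0, 3, 5, 6, 1, 2], [1, 5, 6, 2, 3, 4, 0], [4, 0, 3, 6, 5, 2, 1]]
  pi := [[2, 3, 5, 4, 0, 1], [4, 5, 0, 1, 3, 2], [1, 3, 0, 4, 5, 2], [2, 5, 3, 1, 0, 4], [4, 0, 3, 1, 5, 2], [1, 3, 5, 2, 0, 4], [4, 0, 5, 2, 3, 1]]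

theorem sm6_1_Ex : St (Fin 6) (Fin 6 ⊕ Fin 1) Across 0 :=
  chkSt_sound dsm6_1_Ex 6 6 1 0 (by decide) (by decide) (by decide)

def dsm6_5_Ex : SD where
  rho := [[7, 10, 9, 8, 6, 2, 1, 3, 5, 4, 0], [3, 6, 7, 9, 8, 10, 5, 4, 0, 1, 2], [9, 8, 10, 0, 7, 6, 2, 1, 3, 5, 4], [8, 7, 5, 6, 10, 9, 4, 0, 2, 3, 1], [6, 4, 8, 10, 9, 7, 3, 2, 1, 0, 5], [10, 9, 6, 7, 1, 8, 0, 5, 4, 2, 3]]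
  pi := [[5, 3, 1, 0, 2, 4], [1, 5, 3, 0, 2, 4], [3, 2, 5, 4, 1, 0], [5, 2, 0, 1, 3, 4], [4, 2, 3, 0, 5, 1], [5, 2, 3, 0, 1, 4], [3, 0, 1, 4, 5, 2], [3, 4, 1, 2, 5, 0], [2, 5, 4, 1, 3, 0], [5, 3, 4, 2, 0, 1], [3, 4, 1, 2, 5, 0]]

theorem sm6_5_Ex : St (Fin 6) (Fin 6 ⊕ Fin 5) Across 0 :=
  chkSt_sound dsm6_5_Ex 6 6 5 0 (by decide) (by decide) (by decide)

def dsm7_1_St : SD where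
  rho := [[1, 5, 0, 6, 3, 7, 2, 4], [3, 2, 6, 7, 1, 4, 0, 5], [5, 4, 7, 6, 0, 2, 1, 3], [2, 4, 3, 6, 5, 0, 7, 1], [4, 6, 5, 0, 7, 1, 3, 2], [6, 7, 1, 4, 5, 2, 3, 0], [7, 0, 5, 2, 1, 4, 3, 6]]
  pi := [[3, 5, 4, 2, 1, 6, 0], [6, 2, 4, 5, 0, 1, 3], [1, 5, 6, 0, 2, 4, 3], [5, 4, 1, 6, 3, 2, 0], [4, 3, 1, 6, 2, 0, 5], [4, 0, 3, 1, 5, 6, 2], [6, 0, 5, 4, 2, 1, 3], [3, 2, 4, 6, 0, 1, 5]]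

theorem sm7_1_St : St (Fin 7) (Fin 7 ⊕ Fin 1) Across 4 :=
  chkSt_sound dsm7_1_St 7 7 1 4 (by decide) (by decide) (by decide)

def dsm7_1_Ex : SD where
  rho := [[7, 0, 1, 5, 2, 4, 3, 6], [6, 3, 4, 7, 5, 0, 1, 2], [1, 6, 7, 2, 3, 4, 5, 0], [6, 0, 4, 2, 7, 3, 5, 1], [5, 2, 4, 1, 6, 7, 0, 3], [5, 0, 3, 1, 2, 6, 7, 4], [1, 3, 7, 4, 2, 6, 0, 5], [1, 7, 3, 6, 5, 0, 4, 2]]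
  pi := [[7, 5, 0, 2, 1, 6, 3, 4], [4, 2, 3, 7, 6, 1, 5, 0], [3, 2, 7, 5, 0, 1, 4, 6], [7, 5, 6, 0, 1, 3, 4, 2], [7, 5, 1, 0, 6, 3, 2, 4], [3, 2, 6, 5, 7, 1, 4, 0], [5, 4, 1, 6, 7, 3, 2, 0], [2, 4, 1, 5, 6, 0, 7, 3]]

theorem sm7_1_Ex : St (Fin 8) (Fin 7 ⊕ Fin 1) Across 0 :=
  chkSt_sound dsm7_1_Ex 8 7 1 0 (by decide) (by decide) (by decide)

def dsm7_2_St : SD where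
  rho := [[3, 2, 8, 4, 1, 6, 7, 0, 5], [3, 7, 1, 2, 8, 0, 5, 4, 6], [4, 8, 7, 0, 5, 2, 1, 6, 3], [3, 8, 5, 7, 2, 6, 0, 1, 4], [6, 4, 1, 8, 0, 7, 5, 3, 2], [7, 2, 4, 0, 3, 6, 8, 5, 1], [8, 6, 3, 0, 7, 4, 5, 2, 1]]
  pi := [[5, 6, 0, 4, 2, 1, 3], [4, 0, 6, 1, 5, 2, 3], [1, 6, 3, 5, 0, 4, 2], [2, 5, 4, 6, 3, 0, 1], [5, 6, 4, 1, 0, 3, 2], [1, 3, 6, 2, 0, 4, 5], [4, 5, 0, 1, 3, 6, 2], [2, 3, 6, 4, 5, 0, 1], [4, 3, 5, 6, 2, 1, 0]]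

theorem sm7_2_St : St (Fin 7) (Fin 7 ⊕ Fin 2) Across 3 :=
  chkSt_sound dsm7_2_St 7 7 2 3 (by decide) (by decide) (by decide)

def dsm7_6_St : SD where
  rho := [[8, 7, 11, 12, 0, 10, 9, 5, 6, 3, 2, 4, 1], [6, 9, 8, 11, 12, 7, 10, 4, 1, 0, 3, 5, 2], [9, 5, 10, 8, 11, 12, 7, 1, 0, 2, 4, 6, 3], [7, 8, 9, 2, 10, 11, 12, 6, 3, 5, 1, 0, 4], [12, 10, 3, 7, 8, 9, 11, 0, 2, 6, 4, 1, 5], [11, 12, 7, 10, 9, 8, 0, 3, 4, 1, 5, 2, 6], [10, 11, 12, 9, 7, 1, 8, 2, 5, 4, 6, 3, 0]]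
  pi := [[6, 2, 0, 5, 3, 1, 4], [5, 3, 0, 4, 6, 1, 2], [2, 6, 3, 4, 1, 0, 5], [6, 5, 0, 2, 3, 4, 1], [2, 6, 3, 1, 0, 4, 5], [1, 3, 6, 4, 2, 0, 5], [6, 5, 4, 2, 0, 3, 1], [2, 0, 3, 4, 5, 6, 1], [2, 4, 3, 1, 5, 6, 0], [4, 5, 1, 2, 3, 6, 0], [5, 6, 0, 2, 3, 1, 4], [5, 6, 0, 1, 2, 3, 4], [2, 3, 4, 5, 6, 0, 1]]

theorem sm7_6_St : St (Fin 7) (Fin 7 ⊕ Fin 6) Across 3 :=
  chkSt_sound dsm7_6_St 7 7 6 3 (by decide) (by decide) (by decide)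

def dsm8_1_PSt : SD where
  rho := [[3, 7, 6, 4, 2, 0, 8, 5, 1], [4, 7, 6, 5, 1, 8, 3, 2, 0], [1, 4, 7, 0, 2, 3, 5, 8, 6], [6, 4, 8, 7, 0, 3, 2, 1, 5], [8, 0, 4, 5, 7, 6, 2, 1, 3], [5, 6, 7, 8, 1, 3, 0, 4, 2], [1, 8, 0, 6, 3, 7, 5, 2, 4], [2, 0, 4, 5, 8, 6, 1, 3, 7]]
  pi := [[5, 4, 0, 1, 6, 3, 7, 2], [6, 2, 7, 0, 1, 3, 4, 5], [4, 2, 7, 0, 1, 3, 5, 6], [2, 6, 7, 4, 5, 1, 0, 3], [6, 3, 1, 5, 0, 4, 7, 2], [6, 5, 4, 1, 3, 0, 7, 2], [3, 4, 0, 5, 2, 7, 1, 6], [3, 4, 1, 7, 5, 6, 0, 2], [2, 3, 7, 5, 1, 4, 0, 6]]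

theorem sm8_1_PSt : PSt (Fin 8) (Fin 8 ⊕ Fin 1) Across :=
  chkPSt_sound dsm8_1_PSt 8 8 1 8 1 (by decide) (by decide) (by decide)

end Pool.Agent.W_MP_43c969_h13
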