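import Pool.Agent.W_MP_43c969_h13.WinDefs

/-!
# Task WinBool: boolean versions of the conditions on the tables, and their soundness

Every function below is the direct translation of a condition of `WinDefs` (all the quantifiers
are over `Fin 5`, `Fin w`, or small sets of integers).
-/

set_option autoImplicit false

namespace Pool.Agent.W_MP_43c969_h13

/-- a row from lists. -/
def mkRD (w : ℕ) [NeZero w] (sg : List (Fin 5)) (lab : List ℕ) (pz cs : List (Fin 5)) (dz : List ℤ)
    (bs bz : List Bool) (pin : Bool) : RD w where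
  sg s := sg.getD s.val 0
  lab s := match lab.getD s.val 0 with
    | 0 => none
    | k + 1 => some (Fin.ofNat w k)
  pz z := pz.getD z.val 0
  cs t := cs.getD t.val 0
  dz z := dz.getD z.val 0
  bs s := bs.getD s.val false
  bz z := bz.getD z.val false
  pin := pin

/-- all the elements of `Fin n`. -/
def allF (n : ℕ) (f : Fin n → Bool) : Bool := (List.finRange n).all f

def anyF (n : ℕ) (f : Fin n → Bool) : Bool := (List.finRange n).any f

/-- some integer in `{-r, …, r}`. -/
def anyZ (r : ℕ) (f : ℤ → Bool) : Bool := (List.range (2 * r + 1)).any (fun k => f ((k : ℤ) - r))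

def bd6 (x : ℤ) : Bool := decide (-6 ≤ x) && decide (x ≤ 6)

def eqArc {w : ℕ} (e f : ℤ × (Fin 5 ⊕ Fin w)) : Bool :=
  decide (e.1 = f.1) && (match e.2, f.2 with
    | Sum.inl s, Sum.inl t => decide (s = t)
    | Sum.inr s, Sum.inr t => decide (s = t)
    | _, _ => false)

def cyc5B (f : Fin 5 → Fin 5) : Bool :=
  allF 5 (fun j => (List.range 5).any (fun k => decide (f^[k] 0 = j)))

def cyc5TwoB (f : Fin 5 → Fin 5) : Bool :=
  anyF 5 (fun j0 => (List.range 5).all (fun k => !(decide (f^[k] 0 = j0))) &&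
    allF 5 (fun j => (List.range 5).any (fun k => decide (f^[k] 0 = j)) ||
      (List.range 5).any (fun k => decide (f^[k] j0 = j))))

def goodB {w : ℕ} (R : ℤ → RD w) (α : Fin 5 ⊕ Fin w) : Bool :=
  let n := nextArc R (0, α)
  bd6 n.1 && ((R 0).flag α || eqArc (nextArc R n) (0, α))

def lokB {w : ℕ} (odd : Bool) (cz : Fin w → Bool) (R : ℤ → RD w) : Bool :=
  allF 5 (fun t => anyF 5 (fun s => decide ((R 0).sg s = t))) &&
  allF w (fun z => decide ((R 0).lab ((R 0).pz z) = some z)) &&
  allF 5 (fun s => allF w (fun z => !(decide ((R 0).lab s = some z)) ||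
    decide ((R 0).pz z = s))) &&
  allF w (fun z => anyZ 6 (fun j => decide (j + (R j).dz z = 0))) &&
  allF 5 (fun s => anyF 5 (fun t => decide ((R (-(tgtOff t))).cs t = s))) &&
  allF 5 (fun s => goodB R (Sum.inl s)) &&
  allF w (fun z => goodB R (Sum.inr z)) &&
  cyc5B (rowStep R) &&
  (if (R 0).pin then cyc5TwoB (colStep odd R) else cyc5B (colStep odd R)) &&
  allF w (fun z => !(cz z) || anyZ 4 (fun j => anyF 5 (fun s => decide ((R j).lab s = some z) &&
    (decide (j + srcOff s = 0) || decide (j + tgtOff ((R j).sg s) = 0)))))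

theorem allF_true {n : ℕ} {f : Fin n → Bool} (h : allF n f = true) (i : Fin n) : f i = true := by
  unfold allF at h
  exact List.all_eq_true.1 h i (List.mem_finRange i)

theorem anyF_true {n : ℕ} {f : Fin n → Bool} (h : anyF n f = true) : ∃ i, f i = true := by
  unfold anyF at h
  obtain ⟨i, -, hi⟩ := List.any_eq_true.1 h
  exact ⟨i, hi⟩

theorem anyZ_true {r : ℕ} {f : ℤ → Bool} (h : anyZ r f = true) :
    ∃ j : ℤ, -(r : ℤ) ≤ j ∧ j ≤ r ∧ f j = true := by
  unfold anyZ at h
  obtain ⟨k, hk, hf⟩ := List.any_eq_true.1 h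
  rw [List.mem_range] at hk
  exact ⟨(k : ℤ) - r, by omega, by omega, hf⟩

theorem rangeAny_true {n : ℕ} {f : ℕ → Bool} (h : (List.range n).any f = true) :
    ∃ k, k < n ∧ f k = true := by
  obtain ⟨k, hk, hf⟩ := List.any_eq_true.1 h
  exact ⟨k, List.mem_range.1 hk, hf⟩

theorem rangeAll_true {n : ℕ} {f : ℕ → Bool} (h : (List.range n).all f = true) (k : ℕ)
    (hk : k < n) : f k = true :=
  List.all_eq_true.1 h k (List.mem_range.2 hk)

theorem bd6_true {x : ℤ} (h : bd6 x = true) : -6 ≤ x ∧ x ≤ 6 := by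
  unfold bd6 at h
  rw [Bool.and_eq_true, decide_eq_true_eq, decide_eq_true_eq] at h
  exact h

theorem eqArc_true {w : ℕ} {e f : ℤ × (Fin 5 ⊕ Fin w)} (h : eqArc e f = true) : e = f := by
  obtain ⟨e1, e2⟩ := e
  obtain ⟨f1, f2⟩ := f
  unfold eqArc at h
  rw [Bool.and_eq_true, decide_eq_true_eq] at h
  obtain ⟨h1, h2⟩ := h
  simp only at h1
  subst h1
  cases e2 <;> cases f2 <;> simp at h2 <;> rw [h2]

theorem cyc5B_true {f : Fin 5 → Fin 5} (h : cyc5B f = true) : Cyc5 f := by
  intro j
  obtain ⟨k, hk, h1⟩ := rangeAny_true (allF_true h j)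
  exact ⟨k, hk, of_decide_eq_true h1⟩

theorem cyc5TwoB_true {f : Fin 5 → Fin 5} (h : cyc5TwoB f = true) : Cyc5Two f := by
  obtain ⟨j0, h1⟩ := anyF_true h
  rw [Bool.and_eq_true] at h1
  obtain ⟨h1, h2⟩ := h1
  refine ⟨j0, fun k hk => ?_, fun j => ?_⟩
  · have h3 := rangeAll_true h1 k hk
    simpa using h3
  · have h3 := allF_true h2 j
    rw [Bool.or_eq_true] at h3
    rcases h3 with h3 | h3
    · obtain ⟨k, hk, h4⟩ := rangeAny_true h3
      exact Or.inl ⟨k, hk, of_decide_eq_true h4⟩
    · obtain ⟨k, hk, h4⟩ := rangeAny_true h3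
      exact Or.inr ⟨k, hk, of_decide_eq_true h4⟩

theorem goodB_true {w : ℕ} {R : ℤ → RD w} {α : Fin 5 ⊕ Fin w} (h : goodB R α = true) :
    (-6 ≤ (nextArc R (0, α)).1 ∧ (nextArc R (0, α)).1 ≤ 6) ∧
      ((R 0).flag α = false → nextArc R (nextArc R (0, α)) = (0, α)) := by
  unfold goodB at h
  simp only [Bool.and_eq_true, Bool.or_eq_true] at h
  obtain ⟨h1, h2⟩ := h
  refine ⟨bd6_true h1, fun h3 => ?_⟩
  rcases h2 with h2 | h2
  · rw [h3] at h2
    exact absurd h2 (by simp)
  · exact eqArc_true h2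

theorem lokB_sound {w : ℕ} (odd : Bool) (cz : Fin w → Bool) (R : ℤ → RD w)
    (h : lokB odd cz R = true) : LOK odd cz R := by
  unfold lokB at h
  simp only [Bool.and_eq_true] at h
  obtain ⟨⟨⟨⟨⟨⟨⟨⟨⟨h1, h2⟩, h3⟩, h4⟩, h5⟩, h6⟩, h7⟩, h8⟩, h9⟩, h10⟩ := h
  have hg : ∀ α : Fin 5 ⊕ Fin w, goodB R α = true := by
    intro α
    rcases α with s | z
    · exact allF_true h6 s
    · exact allF_true h7 z
  refine
    { sg_surj := fun t => ?_
      lab_pz := fun z => ?_
      pz_lab := fun s z hs => ?_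
      dz_surj := fun z => ?_
      cs_surj := fun s => ?_
      next_bd := fun α => (goodB_true (hg α)).1
      good := fun α hα => (goodB_true (hg α)).2 hα
      row_cyc := cyc5B_true h8
      col_cyc := fun hp => ?_
      col_two := fun hp => ?_
      cover := fun z hz => ?_ }
  · obtain ⟨s, hs⟩ := anyF_true (allF_true h1 t)
    exact ⟨s, of_decide_eq_true hs⟩
  · exact of_decide_eq_true (allF_true h2 z)
  · have h11 := allF_true (allF_true h3 s) z
    rw [Bool.or_eq_true] at h11
    rcases h11 with h11 | h11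
    · rw [hs] at h11
      simp at h11
    · exact of_decide_eq_true h11
  · obtain ⟨j, hj1, hj2, hj3⟩ := anyZ_true (allF_true h4 z)
    exact ⟨j, by exact_mod_cast hj1, by exact_mod_cast hj2, of_decide_eq_true hj3⟩
  · obtain ⟨t, ht⟩ := anyF_true (allF_true h5 s)
    exact ⟨t, of_decide_eq_true ht⟩
  · rw [hp, if_neg (by simp)] at h9
    exact cyc5B_true h9
  · rw [hp, if_pos rfl] at h9
    exact cyc5TwoB_true h9
  · have h11 := allF_true h10 z
    rw [Bool.or_eq_true] at h11
    rcases h11 with h11 | h11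
    · rw [hz] at h11
      simp at h11
    · obtain ⟨j, hj1, hj2, hj3⟩ := anyZ_true h11
      obtain ⟨s, hs⟩ := anyF_true hj3
      simp only [Bool.and_eq_true, Bool.or_eq_true, decide_eq_true_eq] at hs
      exact ⟨j, by exact_mod_cast hj1, by exact_mod_cast hj2, s, hs.1, hs.2⟩

/-- the column `z` is one cycle: the iterates of `0` give all the rows. -/
def zcycB {w : ℕ} (T : Tab w) (q : ℕ) : Bool :=
  allF w (fun z =>
    let l := (List.range q).foldl (fun (l : List ℕ) _ => T.zf q z (l.headD 0) :: l) [0]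
    (List.range q).all (fun a => l.any (fun b => Nat.beq a b)))

/-- All the iterates `(T.zf q z)^[k] 0` are connected to `0`. -/
theorem zcycB_sound {w : ℕ} (T : Tab w) (q : ℕ) (hq : 0 < q) (h : zcycB T q = true) :
    T.ZCon q := by
  intro z a ha
  have h1 := allF_true h z
  simp only at h1
  have hzf : ∀ x, T.zf q z x < q := by
    intro x
    unfold Tab.zf
    have h2 := Int.emod_lt_of_pos ((x : ℤ) + (T.word q x).dz z) (show (0 : ℤ) < q by exact_mod_cast hq)
    have h3 := Int.emod_nonneg ((x : ℤ) + (T.word q x).dz z) (show (q : ℤ) ≠ 0 by omega)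
    omega
  have key : ∀ (m : List ℕ) (l : List ℕ), l ≠ [] →
      (∀ x ∈ l, x < q ∧ Relation.EqvGen (fun x y : ℕ => x < q ∧ y = T.zf q z x) 0 x) →
      ∀ x ∈ m.foldl (fun (l : List ℕ) _ => T.zf q z (l.headD 0) :: l) l,
        x < q ∧ Relation.EqvGen (fun x y : ℕ => x < q ∧ y = T.zf q z x) 0 x := by
    intro m
    induction m with
    | nil => intro l _ hl x hx; exact hl x hx
    | cons b m ih =>
      intro l hne hl x hx
      rw [List.foldl_cons] at hx
      refine ih _ (List.cons_ne_nil _ _) ?_ x hx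
      intro y hy
      rcases List.mem_cons.1 hy with rfl | hy
      · have hhead : l.headD 0 ∈ l := by
          cases l with
          | nil => exact absurd rfl hne
          | cons c l => simp
        obtain ⟨h2, h3⟩ := hl _ hhead
        exact ⟨hzf _, h3.trans _ _ _ (Relation.EqvGen.rel _ _ ⟨h2, rfl⟩)⟩
      · exact hl y hy
  have h2 := rangeAll_true h1 a ha
  obtain ⟨b, hb, hab⟩ := List.any_eq_true.1 h2
  have hab' : a = b := Nat.eq_of_beq_eq_true hab
  subst hab'
  refine (key _ [0] (List.cons_ne_nil _ _) ?_ a hb).2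
  intro x hx
  rw [List.mem_singleton] at hx
  subst hx
  exact ⟨hq, Relation.EqvGen.refl _⟩

def okB {w : ℕ} (T : Tab w) (odd : Bool) (cz : Fin w → Bool) (q : ℕ) : Bool :=
  (List.range q).all (fun a => lokB odd cz (fun j => T.wordZ q (a + j))) && zcycB T q

theorem okB_sound {w : ℕ} (T : Tab w) (odd : Bool) (cz : Fin w → Bool) (q : ℕ) (hq : 0 < q)
    (h : okB T odd cz q = true) : T.OK odd cz q := by
  unfold okB at h
  rw [Bool.and_eq_true] at h
  exact ⟨fun a ha => lokB_sound odd cz _ (rangeAll_true h.1 a ha), zcycB_sound T q hq h.2⟩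

/-- the partial sums starting from the residue `ρ` reach `4` or `-4` in at most `n` steps. -/
def chainB {w : ℕ} (T : Tab w) (z : Fin w) (ρ : ℕ) : ℕ → ℤ → Bool
  | 0, x => bd6 x && (decide (x = 4) || decide (x = -4))
  | n + 1, x => bd6 x && ((decide (x = 4) || decide (x = -4)) || chainB T z ρ n (x +
      (T.B ⟨(((ρ : ℤ) + x) % 4).toNat % 4, Nat.mod_lt _ (by norm_num)⟩).dz z))

theorem chainB_sound {w : ℕ} (T : Tab w) (z : Fin w) (ρ n : ℕ)
    (h : chainB T z ρ n 0 = true) : T.chain z ρ := by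
  have key : ∀ (n : ℕ) (x0 : ℤ), chainB T z ρ n x0 = true →
      ∃ (k : ℕ) (x : ℕ → ℤ), x 0 = x0 ∧
        (x k = 4 ∨ x k = -4) ∧ (∀ i, i ≤ k → -6 ≤ x i ∧ x i ≤ 6) ∧
        ∀ i, i < k → x (i + 1) = x i +
          (T.B ⟨(((ρ : ℤ) + x i) % 4).toNat % 4, Nat.mod_lt _ (by norm_num)⟩).dz z := by
    intro n
    induction n with
    | zero =>
      intro x0 h
      unfold chainB at h
      simp only [Bool.and_eq_true, Bool.or_eq_true, decide_eq_true_eq] at h
      exact ⟨0, fun _ => x0, rfl, h.2, fun _ _ => bd6_true h.1, fun i hi => absurd hi (by omega)⟩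
    | succ n ih =>
      intro x0 h
      unfold chainB at h
      simp only [Bool.and_eq_true, Bool.or_eq_true, decide_eq_true_eq] at h
      obtain ⟨h1, h2⟩ := h
      rcases h2 with h2 | h2
      · exact ⟨0, fun _ => x0, rfl, h2, fun _ _ => bd6_true h1, fun i hi => absurd hi (by omega)⟩
      · obtain ⟨k, x, e0, e1, e2, e3⟩ := ih _ h2
        refine ⟨k + 1, fun i => match i with
          | 0 => x0
          | j + 1 => x j, rfl, e1, ?_, ?_⟩
        · intro i hi
          cases i with
          | zero => exact bd6_true h1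
          | succ j => exact e2 j (by omega)
        · intro i hi
          cases i with
          | zero => exact e0
          | succ j => exact e3 j (by omega)
  exact key n 0 h

def stdB {w : ℕ} (T : Tab w) : Bool :=
  Nat.ble T.L.length 5 && Nat.ble T.Rt.length 5 &&
  T.L.all (fun r => allF w (fun z => bd6 (r.dz z))) &&
  T.Rt.all (fun r => allF w (fun z => bd6 (r.dz z))) &&
  allF 4 (fun i => allF w (fun z => bd6 ((T.B i).dz z))) &&
  allF w (fun z => (List.range 4).all (fun ρ => chainB T z ρ 8 0))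

theorem stdB_sound {w : ℕ} (T : Tab w) (h : stdB T = true) : T.Std := by
  unfold stdB at h
  simp only [Bool.and_eq_true] at h
  obtain ⟨⟨⟨⟨⟨h1, h2⟩, h3⟩, h4⟩, h5⟩, h6⟩ := h
  exact
    { hL := Nat.le_of_ble_eq_true h1
      hR := Nat.le_of_ble_eq_true h2
      bL := fun r hr z => bd6_true (allF_true (List.all_eq_true.1 h3 r hr) z)
      bR := fun r hr z => bd6_true (allF_true (List.all_eq_true.1 h4 r hr) z)
      bB := fun i z => bd6_true (allF_true (allF_true h5 i) z)
      chain := fun z ρ hρ => chainB_sound T z ρ 8 (rangeAll_true (allF_true h6 z) ρ hρ) }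

end Pool.Agent.W_MP_43c969_h13
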