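import Pool.Agent.W_MP_43c969_h13.WinDefs

/-!
# Task WinCoord: coordinates on `ZMod q`, `q = 2 L + 5`, `L ≥ 1`

Every residue modulo `q` is the value of exactly one source coordinate (`srcVal`) and of exactly one
target coordinate (`tgtVal`). Proof: both sides have `2 L + 5` elements, so it is enough to prove
injectivity (or surjectivity). In `{0, …, q - 1}` the source values are:
`srcOff` : `q - 3`, `1`, `q - 2`, `q - 1`, `0`; up lane: the even numbers `2, 4, …, 2 L = q - 5`;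
down lane: `q - 4 - 2 i`, the odd numbers `q - 4, q - 6, …, 3`. The target values are:
`tgtOff`: `q - 4`, `2`, `q - 2`, `q - 1`, `0`; up lane `4 + 2 i`: `4, …, q - 3`; down lane
`q - 6 - 2 i`: `q - 6, …, 1`.
-/

set_option autoImplicit false

namespace Pool.Agent.W_MP_43c969_h13

open Equiv

/-- value of a source coordinate. -/
def srcVal (L : ℕ) : Fin 5 ⊕ (Fin L ⊕ Fin L) → ZMod (2 * L + 5)
  | Sum.inl s => ((srcOff s : ℤ) : ZMod (2 * L + 5))
  | Sum.inr (Sum.inl i) => ((2 + 2 * (i.val : ℤ) : ℤ) : ZMod (2 * L + 5))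
  | Sum.inr (Sum.inr i) => ((-4 - 2 * (i.val : ℤ) : ℤ) : ZMod (2 * L + 5))

/-- value of a target coordinate. -/
def tgtVal (L : ℕ) : Fin 5 ⊕ (Fin L ⊕ Fin L) → ZMod (2 * L + 5)
  | Sum.inl t => ((tgtOff t : ℤ) : ZMod (2 * L + 5))
  | Sum.inr (Sum.inl i) => ((4 + 2 * (i.val : ℤ) : ℤ) : ZMod (2 * L + 5))
  | Sum.inr (Sum.inr i) => ((-6 - 2 * (i.val : ℤ) : ℤ) : ZMod (2 * L + 5))

theorem winCoord_hq (L : ℕ) : 2 * (L : ZMod (2 * L + 5)) + 5 = 0 := by
  have h := ZMod.natCast_self (2 * L + 5)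
  push_cast at h
  exact h

/-- the natural number representing a source coordinate. -/
def winSrcNat (L : ℕ) : Fin 5 ⊕ (Fin L ⊕ Fin L) → ℕ
  | Sum.inl 0 => 2 * L + 2
  | Sum.inl 1 => 1
  | Sum.inl 2 => 2 * L + 3
  | Sum.inl 3 => 2 * L + 4
  | Sum.inl 4 => 0
  | Sum.inr (Sum.inl i) => 2 + 2 * i.val
  | Sum.inr (Sum.inr i) => 2 * L + 1 - 2 * i.val

/-- the natural number representing a target coordinate. -/
def winTgtNat (L : ℕ) : Fin 5 ⊕ (Fin L ⊕ Fin L) → ℕ
  | Sum.inl 0 => 2 * L + 1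
  | Sum.inl 1 => 2
  | Sum.inl 2 => 2 * L + 3
  | Sum.inl 3 => 2 * L + 4
  | Sum.inl 4 => 0
  | Sum.inr (Sum.inl i) => 4 + 2 * i.val
  | Sum.inr (Sum.inr i) => 2 * L - 1 - 2 * i.val

theorem winSrcNat_lt (L : ℕ) (k : Fin 5 ⊕ (Fin L ⊕ Fin L)) : winSrcNat L k < 2 * L + 5 := by
  rcases k with s | i | i
  · fin_cases s <;> simp [winSrcNat]
  · have := i.isLt
    simp only [winSrcNat]; omega
  · simp only [winSrcNat]; omega

theorem winTgtNat_lt (L : ℕ) (k : Fin 5 ⊕ (Fin L ⊕ Fin L)) : winTgtNat L k < 2 * L + 5 := by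
  rcases k with s | i | i
  · fin_cases s <;> simp [winTgtNat]
  · have := i.isLt
    simp only [winTgtNat]; omega
  · simp only [winTgtNat]; omega

theorem winSrcNat_cast (L : ℕ) (k : Fin 5 ⊕ (Fin L ⊕ Fin L)) :
    srcVal L k = (winSrcNat L k : ZMod (2 * L + 5)) := by
  have hq := winCoord_hq L
  rcases k with s | i | i
  · fin_cases s
    · simp [srcVal, srcOff, winSrcNat]; linear_combination -hq
    · simp [srcVal, srcOff, winSrcNat]
    · simp [srcVal, srcOff, winSrcNat]; linear_combination -hq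
    · simp [srcVal, srcOff, winSrcNat]; linear_combination -hq
    · simp [srcVal, srcOff, winSrcNat]
  · simp only [srcVal, winSrcNat]; push_cast; ring
  · have hi := i.isLt
    have h1 : ((2 * L + 1 - 2 * i.val : ℕ) : ZMod (2 * L + 5)) =
        2 * (L : ZMod (2 * L + 5)) + 1 - 2 * (i.val : ZMod (2 * L + 5)) := by
      rw [Nat.cast_sub (by omega)]; push_cast; ring
    simp only [srcVal, winSrcNat]
    rw [h1]
    push_cast
    linear_combination -hq

theorem winTgtNat_cast (L : ℕ) (k : Fin 5 ⊕ (Fin L ⊕ Fin L)) :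
    tgtVal L k = (winTgtNat L k : ZMod (2 * L + 5)) := by
  have hq := winCoord_hq L
  rcases k with s | i | i
  · fin_cases s
    · simp [tgtVal, tgtOff, winTgtNat]; linear_combination -hq
    · simp [tgtVal, tgtOff, winTgtNat]
    · simp [tgtVal, tgtOff, winTgtNat]; linear_combination -hq
    · simp [tgtVal, tgtOff, winTgtNat]; linear_combination -hq
    · simp [tgtVal, tgtOff, winTgtNat]
  · simp only [tgtVal, winTgtNat]; push_cast; ring
  · have hi := i.isLt
    have h1 : ((2 * L - 1 - 2 * i.val : ℕ) : ZMod (2 * L + 5)) =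
        2 * (L : ZMod (2 * L + 5)) - 1 - 2 * (i.val : ZMod (2 * L + 5)) := by
      rw [Nat.cast_sub (by omega), Nat.cast_sub (by omega)]; push_cast; ring
    simp only [tgtVal, winTgtNat]
    rw [h1]
    push_cast
    linear_combination -hq

theorem winSrcNat_inj (L : ℕ) : Function.Injective (winSrcNat L) := by
  intro k k' h
  rcases k with s | i | i <;> rcases k' with s' | i' | i'
  · fin_cases s <;> fin_cases s' <;> simp [winSrcNat] at h ⊢
  · have := i'.isLt
    exfalso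
    fin_cases s <;> simp only [winSrcNat] at h <;> omega
  · have := i'.isLt
    exfalso
    fin_cases s <;> simp only [winSrcNat] at h <;> omega
  · have := i.isLt
    exfalso
    fin_cases s' <;> simp only [winSrcNat] at h <;> omega
  · simp only [winSrcNat] at h
    have h1 : i = i' := Fin.ext (by omega)
    rw [h1]
  · have := i.isLt
    have := i'.isLt
    exfalso
    simp only [winSrcNat] at h; omega
  · have := i.isLt
    exfalso
    fin_cases s' <;> simp only [winSrcNat] at h <;> omega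
  · have := i.isLt
    have := i'.isLt
    exfalso
    simp only [winSrcNat] at h; omega
  · have := i.isLt
    have := i'.isLt
    simp only [winSrcNat] at h
    have h1 : i = i' := Fin.ext (by omega)
    rw [h1]

theorem winTgtNat_inj (L : ℕ) : Function.Injective (winTgtNat L) := by
  intro k k' h
  rcases k with s | i | i <;> rcases k' with s' | i' | i'
  · fin_cases s <;> fin_cases s' <;> simp [winTgtNat] at h ⊢
  · have := i'.isLt
    exfalso
    fin_cases s <;> simp only [winTgtNat] at h <;> omega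
  · have := i'.isLt
    exfalso
    fin_cases s <;> simp only [winTgtNat] at h <;> omega
  · have := i.isLt
    exfalso
    fin_cases s' <;> simp only [winTgtNat] at h <;> omega
  · simp only [winTgtNat] at h
    have h1 : i = i' := Fin.ext (by omega)
    rw [h1]
  · have := i.isLt
    have := i'.isLt
    exfalso
    simp only [winTgtNat] at h; omega
  · have := i.isLt
    exfalso
    fin_cases s' <;> simp only [winTgtNat] at h <;> omega
  · have := i.isLt
    have := i'.isLt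
    exfalso
    simp only [winTgtNat] at h; omega
  · have := i.isLt
    have := i'.isLt
    simp only [winTgtNat] at h
    have h1 : i = i' := Fin.ext (by omega)
    rw [h1]

theorem winCoord_bij (L : ℕ) (f : Fin 5 ⊕ (Fin L ⊕ Fin L) → ZMod (2 * L + 5))
    (g : Fin 5 ⊕ (Fin L ⊕ Fin L) → ℕ) (hg : Function.Injective g) (hlt : ∀ k, g k < 2 * L + 5)
    (hfg : ∀ k, f k = (g k : ZMod (2 * L + 5))) : Function.Bijective f := by
  have : NeZero (2 * L + 5) := ⟨by omega⟩
  rw [Fintype.bijective_iff_injective_and_card]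
  refine ⟨?_, ?_⟩
  · intro k k' h
    apply hg
    rw [hfg, hfg] at h
    have h1 := congrArg ZMod.val h
    rw [ZMod.val_natCast, ZMod.val_natCast, Nat.mod_eq_of_lt (hlt k),
      Nat.mod_eq_of_lt (hlt k')] at h1
    exact h1
  · rw [Fintype.card_sum, Fintype.card_sum, Fintype.card_fin, Fintype.card_fin, ZMod.card]
    ring

theorem srcVal_bij (L : ℕ) (hL : 1 ≤ L) : Function.Bijective (srcVal L) :=
  winCoord_bij L _ _ (winSrcNat_inj L) (winSrcNat_lt L) (winSrcNat_cast L)

theorem tgtVal_bij (L : ℕ) (hL : 1 ≤ L) : Function.Bijective (tgtVal L) :=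
  winCoord_bij L _ _ (winTgtNat_inj L) (winTgtNat_lt L) (winTgtNat_cast L)

noncomputable def srcE (L : ℕ) (hL : 1 ≤ L) : Fin 5 ⊕ (Fin L ⊕ Fin L) ≃ ZMod (2 * L + 5) :=
  Equiv.ofBijective _ (srcVal_bij L hL)

noncomputable def tgtE (L : ℕ) (hL : 1 ≤ L) : Fin 5 ⊕ (Fin L ⊕ Fin L) ≃ ZMod (2 * L + 5) :=
  Equiv.ofBijective _ (tgtVal_bij L hL)

@[simp] theorem srcE_symm_val (L : ℕ) (hL : 1 ≤ L) (k : Fin 5 ⊕ (Fin L ⊕ Fin L)) :
    (srcE L hL).symm (srcVal L k) = k := by
  have : srcVal L k = srcE L hL k := rfl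
  rw [this, Equiv.symm_apply_apply]

@[simp] theorem tgtE_symm_val (L : ℕ) (hL : 1 ≤ L) (k : Fin 5 ⊕ (Fin L ⊕ Fin L)) :
    (tgtE L hL).symm (tgtVal L k) = k := by
  have : tgtVal L k = tgtE L hL k := rfl
  rw [this, Equiv.symm_apply_apply]

/-- The relations between source and target coordinates: `tgtVal (up i) = srcVal (up (i + 1))` for
`i + 1 < L`, `tgtVal (up (L - 1)) = srcVal (inl 0)` (the offset `-3`), `tgtVal (dn i) =
srcVal (dn (i + 1))`, `tgtVal (dn (L - 1)) = srcVal (inl 1)`, `tgtVal (inl 0) = srcVal (dn 0)`,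
`tgtVal (inl 1) = srcVal (up 0)`, `tgtVal (inl t) = srcVal (inl t)` for `t = 2, 3, 4`. -/
theorem tgtVal_up (L : ℕ) (i : ℕ) (hi : i + 1 < L) :
    tgtVal L (Sum.inr (Sum.inl ⟨i, by omega⟩)) = srcVal L (Sum.inr (Sum.inl ⟨i + 1, hi⟩)) := by
  simp only [tgtVal, srcVal]
  push_cast
  ring

theorem tgtVal_up_last (L : ℕ) (hL : 1 ≤ L) :
    tgtVal L (Sum.inr (Sum.inl ⟨L - 1, by omega⟩)) = srcVal L (Sum.inl 0) := by
  rw [winTgtNat_cast, winSrcNat_cast]
  congr 1
  simp only [winTgtNat, winSrcNat]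
  omega

theorem tgtVal_dn (L : ℕ) (i : ℕ) (hi : i + 1 < L) :
    tgtVal L (Sum.inr (Sum.inr ⟨i, by omega⟩)) = srcVal L (Sum.inr (Sum.inr ⟨i + 1, hi⟩)) := by
  simp only [tgtVal, srcVal]
  push_cast
  ring

theorem tgtVal_dn_last (L : ℕ) (hL : 1 ≤ L) :
    tgtVal L (Sum.inr (Sum.inr ⟨L - 1, by omega⟩)) = srcVal L (Sum.inl 1) := by
  rw [winTgtNat_cast, winSrcNat_cast]
  congr 1
  simp only [winTgtNat, winSrcNat]
  omega

theorem tgtVal_zero (L : ℕ) (hL : 1 ≤ L) :
    tgtVal L (Sum.inl 0) = srcVal L (Sum.inr (Sum.inr ⟨0, hL⟩)) := by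
  rw [winTgtNat_cast, winSrcNat_cast]
  congr 1

theorem tgtVal_one (L : ℕ) (hL : 1 ≤ L) :
    tgtVal L (Sum.inl 1) = srcVal L (Sum.inr (Sum.inl ⟨0, hL⟩)) := by
  rw [winTgtNat_cast, winSrcNat_cast]
  congr 1

theorem tgtVal_other (L : ℕ) (t : Fin 5) (h0 : t ≠ 0) (h1 : t ≠ 1) :
    tgtVal L (Sum.inl t) = srcVal L (Sum.inl t) := by
  rw [winTgtNat_cast, winSrcNat_cast]
  congr 1
  fin_cases t
  · exact absurd rfl h0
  · exact absurd rfl h1
  · rfl
  · rfl
  · rfl

end Pool.Agent.W_MP_43c969_h13
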