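import Pool.Agent.W_MP_43c969_h13.WinDefs
import Pool.Agent.W_MP_43c969_h13.WinCoord

/-!
# Task WinEmb: the embedding defined by the data of the windows

`q = 2 L + 5`, rows `ZMod q`, columns `WN w c L = ZMod q ⊕ (Fin w ⊕ (Fin c ⊕ Fin c))`: vertices,
active extra columns, `u_i`, `d_i`. See `WinDefs` for the notation.

Row `a` (`rowFun`): a vertex `x` is written `x = a + srcVal k`.
* `k = inl s` (window): goes to the active column `(D a).lab s` if there is one, else to the vertex
  `a + tgtVal (inl (sg s))`; the active column `z` goes to `a + tgtVal (inl (sg (pz z)))`;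
* `k = up i`: goes to `a + tgtVal (up i)` directly if `i ≥ c`, through `u_i` if `i < c`; `k = dn i`
  similarly with `d_i`.

Column of the vertex `y` (`colFun`): a row `a` is written `y = a + tgtVal k`.
* `k = inl t`: the next row is `y - srcVal (inl (cs t))`, with `cs` the data of the row `a`;
* `k = up i`: `y - srcVal (dn i)` if `i ≥ c`, `y - srcVal (up i)` if `i < c`;
* `k = dn i`: `y - srcVal (up i)` if `i ≥ c`, `y - srcVal (dn i)` if `i < c`.
Column `z`: `a ↦ a + dz z`; column `u_i`: `a ↦ a - 2`; column `d_i`: `a ↦ a + 2`.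

*Bijectivity.* The types are finite, so surjectivity is enough.
Row `a`, preimage of the vertex `a + tgtVal k`: for `k = inl t` take `s` with `sg s = t`; if
`lab s = none` it is the vertex `a + srcVal (inl s)`, if `lab s = some z` then `pz z = s` and it is
the column `z`; for `k = up i` it is the vertex `a + srcVal (up i)` if `i ≥ c` and `u_i` if `i < c`.
Preimage of `z`: `a + srcVal (inl (pz z))`. Preimage of `u_i`: `a + srcVal (up i)`.
Column `y`, preimage of the row `b`, `y = b + srcVal k`: for `k = inl s` there is by `cs_surj` a `t`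
with `(D (y - tgtOff t)).cs t = s`, and it is the row `y - tgtVal (inl t)`; for `k = up i` it is
`y - tgtVal (dn i)` if `i ≥ c`, `y - tgtVal (up i)` if `i < c`.
Column `z`, preimage of `b`: `b + j` with `j` given by `dz_surj` at `b`.
-/

set_option autoImplicit false

namespace Pool.Agent.W_MP_43c969_h13

open Equiv

/-- the extra columns. -/
abbrev WX (w c : ℕ) := Fin w ⊕ (Fin c ⊕ Fin c)

/-- the columns. -/
abbrev WN (w c L : ℕ) := ZMod (2 * L + 5) ⊕ WX w c

/-- The hypotheses on the data. -/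
structure WOK {w : ℕ} (L c : ℕ) (odd : Bool) (cz : Fin w → Bool)
    (D : ZMod (2 * L + 5) → RD w) : Prop where
  hL : 1 ≤ L
  hc : c ≤ L
  par : (L - c) % 2 = if odd then 1 else 0
  loc : ∀ a : ZMod (2 * L + 5), LOK odd cz (fun j : ℤ => D (a + (j : ZMod (2 * L + 5))))
  zc : ∀ (z : Fin w) (a b : ZMod (2 * L + 5)), Relation.EqvGen
    (fun x y : ZMod (2 * L + 5) => y = x + (((D x).dz z : ℤ) : ZMod (2 * L + 5))) a b

section
variable {w L c : ℕ} (hL : 1 ≤ L) (hc : c ≤ L) (D : ZMod (2 * L + 5) → RD w)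

/-- the rotation of the row `a`. -/
noncomputable def rowFun (a : ZMod (2 * L + 5)) : WN w c L → WN w c L
  | Sum.inl x => match (srcE L hL).symm (x - a) with
    | Sum.inl s => match (D a).lab s with
      | some z => Sum.inr (Sum.inl z)
      | none => Sum.inl (a + tgtVal L (Sum.inl ((D a).sg s)))
    | Sum.inr (Sum.inl i) => if h : i.val < c then Sum.inr (Sum.inr (Sum.inl ⟨i.val, h⟩))
        else Sum.inl (a + tgtVal L (Sum.inr (Sum.inl i)))
    | Sum.inr (Sum.inr i) => if h : i.val < c then Sum.inr (Sum.inr (Sum.inr ⟨i.val, h⟩))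
        else Sum.inl (a + tgtVal L (Sum.inr (Sum.inr i)))
  | Sum.inr (Sum.inl z) => Sum.inl (a + tgtVal L (Sum.inl ((D a).sg ((D a).pz z))))
  | Sum.inr (Sum.inr (Sum.inl i)) => Sum.inl (a + tgtVal L (Sum.inr (Sum.inl (Fin.castLE hc i))))
  | Sum.inr (Sum.inr (Sum.inr i)) => Sum.inl (a + tgtVal L (Sum.inr (Sum.inr (Fin.castLE hc i))))

/-- the rotation of a column. -/
noncomputable def colFun (hL : 1 ≤ L) (D : ZMod (2 * L + 5) → RD w) :
    WN w c L → ZMod (2 * L + 5) → ZMod (2 * L + 5)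
  | Sum.inl y, a => match (tgtE L hL).symm (y - a) with
    | Sum.inl t => y - srcVal L (Sum.inl ((D a).cs t))
    | Sum.inr (Sum.inl i) => if i.val < c then y - srcVal L (Sum.inr (Sum.inl i))
        else y - srcVal L (Sum.inr (Sum.inr i))
    | Sum.inr (Sum.inr i) => if i.val < c then y - srcVal L (Sum.inr (Sum.inr i))
        else y - srcVal L (Sum.inr (Sum.inl i))
  | Sum.inr (Sum.inl z), a => a + (((D a).dz z : ℤ) : ZMod (2 * L + 5))
  | Sum.inr (Sum.inr (Sum.inl _)), a => a - 2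
  | Sum.inr (Sum.inr (Sum.inr _)), a => a + 2

end

section
variable {w L c : ℕ} {odd : Bool} {cz : Fin w → Bool} {D : ZMod (2 * L + 5) → RD w}

theorem winEmb_zero (D : ZMod (2 * L + 5) → RD w) (a : ZMod (2 * L + 5)) :
    D (a + ((0 : ℤ) : ZMod (2 * L + 5))) = D a := by
  simp

theorem rowFun_srcVal (hL : 1 ≤ L) (hc : c ≤ L) (D : ZMod (2 * L + 5) → RD w)
    (a : ZMod (2 * L + 5)) (k : Fin 5 ⊕ (Fin L ⊕ Fin L)) :
    rowFun hL hc D a (Sum.inl (a + srcVal L k)) = match k with
    | Sum.inl s => match (D a).lab s with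
      | some z => Sum.inr (Sum.inl z)
      | none => Sum.inl (a + tgtVal L (Sum.inl ((D a).sg s)))
    | Sum.inr (Sum.inl i) => if h : i.val < c then Sum.inr (Sum.inr (Sum.inl ⟨i.val, h⟩))
        else Sum.inl (a + tgtVal L (Sum.inr (Sum.inl i)))
    | Sum.inr (Sum.inr i) => if h : i.val < c then Sum.inr (Sum.inr (Sum.inr ⟨i.val, h⟩))
        else Sum.inl (a + tgtVal L (Sum.inr (Sum.inr i))) := by
  simp only [rowFun, add_sub_cancel_left, srcE_symm_val]

theorem colFun_tgtVal (hL : 1 ≤ L) (D : ZMod (2 * L + 5) → RD w)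
    (y a : ZMod (2 * L + 5)) (k : Fin 5 ⊕ (Fin L ⊕ Fin L)) (hk : y - a = tgtVal L k) :
    colFun (c := c) hL D (Sum.inl y) a =
    match (motive := Fin 5 ⊕ (Fin L ⊕ Fin L) → ZMod (2 * L + 5)) k with
    | Sum.inl t => y - srcVal L (Sum.inl ((D a).cs t))
    | Sum.inr (Sum.inl i) => if i.val < c then y - srcVal L (Sum.inr (Sum.inl i))
        else y - srcVal L (Sum.inr (Sum.inr i))
    | Sum.inr (Sum.inr i) => if i.val < c then y - srcVal L (Sum.inr (Sum.inr i))
        else y - srcVal L (Sum.inr (Sum.inl i)) := by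
  simp only [colFun, hk, tgtE_symm_val]

theorem rowFun_bij (h : WOK L c odd cz D) (a : ZMod (2 * L + 5)) :
    Function.Bijective (rowFun h.hL h.hc D a) := by
  have : NeZero (2 * L + 5) := ⟨by omega⟩
  refine ((Finite.injective_iff_surjective).2 ?_ |> fun hi => ⟨hi, ?_⟩) <;>
  · have h0 := winEmb_zero D a
    rintro (y | z | i | i)
    · obtain ⟨k, hk⟩ := (tgtVal_bij L h.hL).2 (y - a)
      have hy : y = a + tgtVal L k := by rw [hk]; ring
      rcases k with t | i | i
      · obtain ⟨s, hs⟩ := (h.loc a).sg_surj t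
        rw [h0] at hs
        cases hlab : (D a).lab s with
        | none =>
          refine ⟨Sum.inl (a + srcVal L (Sum.inl s)), ?_⟩
          rw [rowFun_srcVal]
          simp only [hlab, hs, hy]
        | some z =>
          have hz := (h.loc a).pz_lab s z (by rw [h0]; exact hlab)
          rw [h0] at hz
          refine ⟨Sum.inr (Sum.inl z), ?_⟩
          simp only [rowFun, hz, hs, hy]
      · by_cases hi : i.val < c
        · refine ⟨Sum.inr (Sum.inr (Sum.inl ⟨i.val, hi⟩)), ?_⟩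
          simp only [rowFun, hy]
          rfl
        · refine ⟨Sum.inl (a + srcVal L (Sum.inr (Sum.inl i))), ?_⟩
          rw [rowFun_srcVal]
          simp only [hi, dite_false, hy]
      · by_cases hi : i.val < c
        · refine ⟨Sum.inr (Sum.inr (Sum.inr ⟨i.val, hi⟩)), ?_⟩
          simp only [rowFun, hy]
          rfl
        · refine ⟨Sum.inl (a + srcVal L (Sum.inr (Sum.inr i))), ?_⟩
          rw [rowFun_srcVal]
          simp only [hi, dite_false, hy]
    · have hz := (h.loc a).lab_pz z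
      rw [h0] at hz
      refine ⟨Sum.inl (a + srcVal L (Sum.inl ((D a).pz z))), ?_⟩
      rw [rowFun_srcVal]
      simp only [hz]
    · refine ⟨Sum.inl (a + srcVal L (Sum.inr (Sum.inl (Fin.castLE h.hc i)))), ?_⟩
      rw [rowFun_srcVal]
      simp
    · refine ⟨Sum.inl (a + srcVal L (Sum.inr (Sum.inr (Fin.castLE h.hc i)))), ?_⟩
      rw [rowFun_srcVal]
      simp

theorem colFun_bij (h : WOK L c odd cz D) (n : WN w c L) :
    Function.Bijective (colFun h.hL D n) := by
  have : NeZero (2 * L + 5) := ⟨by omega⟩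
  rcases n with y | z | i | i
  · have hsur : Function.Surjective (colFun (c := c) h.hL D (Sum.inl y)) := by
      intro b
      obtain ⟨k, hk⟩ := (srcVal_bij L h.hL).2 (y - b)
      have hb : b = y - srcVal L k := by rw [hk]; ring
      rcases k with s | i | i
      · obtain ⟨t, ht⟩ := (h.loc y).cs_surj s
        have ht' : (D (y - tgtVal L (Sum.inl t))).cs t = s := by
          rw [← ht]
          congr 2
          simp only [tgtVal]
          push_cast
          ring
        refine ⟨y - tgtVal L (Sum.inl t), ?_⟩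
        rw [colFun_tgtVal h.hL D y (y - tgtVal L (Sum.inl t)) (Sum.inl t) (by ring)]
        simp only [ht', hb]
      · by_cases hi : i.val < c
        · refine ⟨y - tgtVal L (Sum.inr (Sum.inl i)), ?_⟩
          rw [colFun_tgtVal h.hL D y _ (Sum.inr (Sum.inl i)) (by ring)]
          simp only [hi, if_true, hb]
        · refine ⟨y - tgtVal L (Sum.inr (Sum.inr i)), ?_⟩
          rw [colFun_tgtVal h.hL D y _ (Sum.inr (Sum.inr i)) (by ring)]
          simp only [hi, if_false, hb]
      · by_cases hi : i.val < c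
        · refine ⟨y - tgtVal L (Sum.inr (Sum.inr i)), ?_⟩
          rw [colFun_tgtVal h.hL D y _ (Sum.inr (Sum.inr i)) (by ring)]
          simp only [hi, if_true, hb]
        · refine ⟨y - tgtVal L (Sum.inr (Sum.inl i)), ?_⟩
          rw [colFun_tgtVal h.hL D y _ (Sum.inr (Sum.inl i)) (by ring)]
          simp only [hi, if_false, hb]
    exact ⟨(Finite.injective_iff_surjective).2 hsur, hsur⟩
  · have hsur : Function.Surjective (colFun (c := c) h.hL D (Sum.inr (Sum.inl z))) := by
      intro b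
      obtain ⟨j, -, -, hj⟩ := (h.loc b).dz_surj z
      refine ⟨b + (j : ZMod (2 * L + 5)), ?_⟩
      simp only [colFun]
      have h1 : ((j + (D (b + (j : ZMod (2 * L + 5)))).dz z : ℤ) : ZMod (2 * L + 5)) = 0 := by
        rw [hj]; simp
      push_cast at h1
      linear_combination h1
    exact ⟨(Finite.injective_iff_surjective).2 hsur, hsur⟩
  · refine ⟨fun x y hxy => ?_, fun b => ⟨b + 2, ?_⟩⟩
    · simp only [colFun] at hxy
      linear_combination hxy
    · simp only [colFun]; ring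
  · refine ⟨fun x y hxy => ?_, fun b => ⟨b - 2, ?_⟩⟩
    · simp only [colFun] at hxy
      linear_combination hxy
    · simp only [colFun]; ring

/-- The embedding. -/
noncomputable def winEmb (h : WOK L c odd cz D) : Emb (ZMod (2 * L + 5)) (WN w c L) where
  rho a := Equiv.ofBijective _ (rowFun_bij h a)
  pi n := Equiv.ofBijective _ (colFun_bij h n)

/-- the column where the window arc `α` of the row `a` starts. -/
def pt (w c L : ℕ) (a : ZMod (2 * L + 5)) : Fin 5 ⊕ Fin w → WN w c L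
  | Sum.inl s => Sum.inl (a + ((srcOff s : ℤ) : ZMod (2 * L + 5)))
  | Sum.inr z => Sum.inr (Sum.inl z)

theorem pt_injective (a : ZMod (2 * L + 5)) (hL : 1 ≤ L) :
    Function.Injective (pt w c L a) := by
  rintro (s | z) (s' | z') hxy
  · simp only [pt, Sum.inl.injEq, add_right_inj] at hxy
    have h1 : srcVal L (Sum.inl s) = srcVal L (Sum.inl s') := hxy
    have h2 := (srcVal_bij L hL).1 h1
    simpa using h2
  · simp [pt] at hxy
  · simp [pt] at hxy
  · simpa [pt] using hxy

theorem rho_src_none (h : WOK L c odd cz D) (a : ZMod (2 * L + 5)) (s : Fin 5)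
    (hs : (D a).lab s = none) :
    (winEmb h).rho a (Sum.inl (a + ((srcOff s : ℤ) : ZMod (2 * L + 5)))) =
      Sum.inl (a + ((tgtOff ((D a).sg s) : ℤ) : ZMod (2 * L + 5))) := by
  have h1 := rowFun_srcVal h.hL h.hc D a (Sum.inl s)
  simp only [hs] at h1
  exact h1

theorem rho_src_some (h : WOK L c odd cz D) (a : ZMod (2 * L + 5)) (s : Fin 5) (z : Fin w)
    (hs : (D a).lab s = some z) :
    (winEmb h).rho a (Sum.inl (a + ((srcOff s : ℤ) : ZMod (2 * L + 5)))) =
      Sum.inr (Sum.inl z) := by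
  have h1 := rowFun_srcVal h.hL h.hc D a (Sum.inl s)
  simp only [hs] at h1
  exact h1

theorem rho_act (h : WOK L c odd cz D) (a : ZMod (2 * L + 5)) (z : Fin w) :
    (winEmb h).rho a (Sum.inr (Sum.inl z)) =
      Sum.inl (a + ((tgtOff ((D a).sg ((D a).pz z)) : ℤ) : ZMod (2 * L + 5))) := by
  rfl

theorem rho_up_lt (h : WOK L c odd cz D) (a : ZMod (2 * L + 5)) (i : Fin c) :
    (winEmb h).rho a (Sum.inl (a + (2 + 2 * (i.val : ZMod (2 * L + 5))))) =
      Sum.inr (Sum.inr (Sum.inl i)) := by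
  have h1 := rowFun_srcVal h.hL h.hc D a (Sum.inr (Sum.inl (Fin.castLE h.hc i)))
  have h2 : srcVal L (Sum.inr (Sum.inl (Fin.castLE h.hc i))) =
      2 + 2 * (i.val : ZMod (2 * L + 5)) := by
    simp only [srcVal, Fin.val_castLE]; push_cast; ring
  rw [h2] at h1
  refine Eq.trans h1 ?_
  simp

theorem rho_up_ge (h : WOK L c odd cz D) (a : ZMod (2 * L + 5)) (i : ℕ) (hi : c ≤ i)
    (hi' : i < L) :
    (winEmb h).rho a (Sum.inl (a + (2 + 2 * (i : ZMod (2 * L + 5))))) =
      Sum.inl (a + (4 + 2 * (i : ZMod (2 * L + 5)))) := by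
  have h1 := rowFun_srcVal h.hL h.hc D a (Sum.inr (Sum.inl ⟨i, hi'⟩))
  have h2 : srcVal L (Sum.inr (Sum.inl ⟨i, hi'⟩)) =
      2 + 2 * (i : ZMod (2 * L + 5)) := by
    simp only [srcVal]; push_cast; ring
  have h3 : tgtVal L (Sum.inr (Sum.inl ⟨i, hi'⟩)) =
      4 + 2 * (i : ZMod (2 * L + 5)) := by
    simp only [tgtVal]; push_cast; ring
  have h4 : ¬ (i < c) := by omega
  simp only [h4, dite_false] at h1
  rw [h2, h3] at h1
  exact h1

theorem rho_dn_lt (h : WOK L c odd cz D) (a : ZMod (2 * L + 5)) (i : Fin c) :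
    (winEmb h).rho a (Sum.inl (a + (-4 - 2 * (i.val : ZMod (2 * L + 5))))) =
      Sum.inr (Sum.inr (Sum.inr i)) := by
  have h1 := rowFun_srcVal h.hL h.hc D a (Sum.inr (Sum.inr (Fin.castLE h.hc i)))
  have h2 : srcVal L (Sum.inr (Sum.inr (Fin.castLE h.hc i))) =
      -4 - 2 * (i.val : ZMod (2 * L + 5)) := by
    simp only [srcVal, Fin.val_castLE]; push_cast; ring
  rw [h2] at h1
  refine Eq.trans h1 ?_
  simp

theorem rho_dn_ge (h : WOK L c odd cz D) (a : ZMod (2 * L + 5)) (i : ℕ) (hi : c ≤ i)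
    (hi' : i < L) :
    (winEmb h).rho a (Sum.inl (a + (-4 - 2 * (i : ZMod (2 * L + 5))))) =
      Sum.inl (a + (-6 - 2 * (i : ZMod (2 * L + 5)))) := by
  have h1 := rowFun_srcVal h.hL h.hc D a (Sum.inr (Sum.inr ⟨i, hi'⟩))
  have h2 : srcVal L (Sum.inr (Sum.inr ⟨i, hi'⟩)) =
      -4 - 2 * (i : ZMod (2 * L + 5)) := by
    simp only [srcVal]; push_cast; ring
  have h3 : tgtVal L (Sum.inr (Sum.inr ⟨i, hi'⟩)) =
      -6 - 2 * (i : ZMod (2 * L + 5)) := by
    simp only [tgtVal]; push_cast; ring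
  have h4 : ¬ (i < c) := by omega
  simp only [h4, dite_false] at h1
  rw [h2, h3] at h1
  exact h1

theorem rho_u (h : WOK L c odd cz D) (a : ZMod (2 * L + 5)) (i : Fin c) :
    (winEmb h).rho a (Sum.inr (Sum.inr (Sum.inl i))) =
      Sum.inl (a + (4 + 2 * (i.val : ZMod (2 * L + 5)))) := by
  have h3 : tgtVal L (Sum.inr (Sum.inl (Fin.castLE h.hc i))) =
      4 + 2 * (i.val : ZMod (2 * L + 5)) := by
    simp only [tgtVal, Fin.val_castLE]; push_cast; ring
  rw [← h3]
  rfl

theorem rho_d (h : WOK L c odd cz D) (a : ZMod (2 * L + 5)) (i : Fin c) :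
    (winEmb h).rho a (Sum.inr (Sum.inr (Sum.inr i))) =
      Sum.inl (a + (-6 - 2 * (i.val : ZMod (2 * L + 5)))) := by
  have h3 : tgtVal L (Sum.inr (Sum.inr (Fin.castLE h.hc i))) =
      -6 - 2 * (i.val : ZMod (2 * L + 5)) := by
    simp only [tgtVal, Fin.val_castLE]; push_cast; ring
  rw [← h3]
  rfl

theorem pi_tgt (h : WOK L c odd cz D) (a : ZMod (2 * L + 5)) (t : Fin 5) :
    (winEmb h).pi (Sum.inl (a + ((tgtOff t : ℤ) : ZMod (2 * L + 5)))) a =
      a + ((tgtOff t - srcOff ((D a).cs t) : ℤ) : ZMod (2 * L + 5)) := by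
  have h1 := colFun_tgtVal (c := c) h.hL D (a + ((tgtOff t : ℤ) : ZMod (2 * L + 5))) a
    (Sum.inl t) (by simp only [tgtVal]; ring)
  refine Eq.trans h1 ?_
  simp only [srcVal]
  push_cast
  ring

theorem pi_up_lt (h : WOK L c odd cz D) (a : ZMod (2 * L + 5)) (i : ℕ) (hi : i < c) :
    (winEmb h).pi (Sum.inl (a + (4 + 2 * (i : ZMod (2 * L + 5))))) a = a + 2 := by
  have hi' : i < L := lt_of_lt_of_le hi h.hc
  have h1 := colFun_tgtVal (c := c) h.hL D (a + (4 + 2 * (i : ZMod (2 * L + 5)))) a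
    (Sum.inr (Sum.inl ⟨i, hi'⟩)) (by simp only [tgtVal]; push_cast; ring)
  refine Eq.trans h1 ?_
  simp only [srcVal, hi, if_true]
  push_cast
  ring

theorem pi_up_ge (h : WOK L c odd cz D) (a : ZMod (2 * L + 5)) (i : ℕ) (hi : c ≤ i)
    (hi' : i < L) :
    (winEmb h).pi (Sum.inl (a + (4 + 2 * (i : ZMod (2 * L + 5))))) a =
      a + (8 + 4 * (i : ZMod (2 * L + 5))) := by
  have h4 : ¬ (i < c) := by omega
  have h1 := colFun_tgtVal (c := c) h.hL D (a + (4 + 2 * (i : ZMod (2 * L + 5)))) a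
    (Sum.inr (Sum.inl ⟨i, hi'⟩)) (by simp only [tgtVal]; push_cast; ring)
  refine Eq.trans h1 ?_
  simp only [srcVal, h4, if_false]
  push_cast
  ring

theorem pi_dn_lt (h : WOK L c odd cz D) (a : ZMod (2 * L + 5)) (i : ℕ) (hi : i < c) :
    (winEmb h).pi (Sum.inl (a + (-6 - 2 * (i : ZMod (2 * L + 5))))) a = a - 2 := by
  have hi' : i < L := lt_of_lt_of_le hi h.hc
  have h1 := colFun_tgtVal (c := c) h.hL D (a + (-6 - 2 * (i : ZMod (2 * L + 5)))) a
    (Sum.inr (Sum.inr ⟨i, hi'⟩)) (by simp only [tgtVal]; push_cast; ring)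
  refine Eq.trans h1 ?_
  simp only [srcVal, hi, if_true]
  push_cast
  ring

theorem pi_dn_ge (h : WOK L c odd cz D) (a : ZMod (2 * L + 5)) (i : ℕ) (hi : c ≤ i)
    (hi' : i < L) :
    (winEmb h).pi (Sum.inl (a + (-6 - 2 * (i : ZMod (2 * L + 5))))) a =
      a + (-8 - 4 * (i : ZMod (2 * L + 5))) := by
  have h4 : ¬ (i < c) := by omega
  have h1 := colFun_tgtVal (c := c) h.hL D (a + (-6 - 2 * (i : ZMod (2 * L + 5)))) a
    (Sum.inr (Sum.inr ⟨i, hi'⟩)) (by simp only [tgtVal]; push_cast; ring)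
  refine Eq.trans h1 ?_
  simp only [srcVal, h4, if_false]
  push_cast
  ring

theorem pi_act (h : WOK L c odd cz D) (a : ZMod (2 * L + 5)) (z : Fin w) :
    (winEmb h).pi (Sum.inr (Sum.inl z)) a = a + (((D a).dz z : ℤ) : ZMod (2 * L + 5)) := by
  rfl

theorem pi_u (h : WOK L c odd cz D) (a : ZMod (2 * L + 5)) (i : Fin c) :
    (winEmb h).pi (Sum.inr (Sum.inr (Sum.inl i))) a = a - 2 := by
  rfl

theorem pi_d (h : WOK L c odd cz D) (a : ZMod (2 * L + 5)) (i : Fin c) :
    (winEmb h).pi (Sum.inr (Sum.inr (Sum.inr i))) a = a + 2 := by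
  rfl

/-- Every vertex has one source coordinate with respect to the row `a`. -/
theorem src_cases (hL : 1 ≤ L) (a x : ZMod (2 * L + 5)) :
    (∃ s : Fin 5, x = a + ((srcOff s : ℤ) : ZMod (2 * L + 5))) ∨
    (∃ i : ℕ, i < L ∧ x = a + (2 + 2 * (i : ZMod (2 * L + 5)))) ∨
    (∃ i : ℕ, i < L ∧ x = a + (-4 - 2 * (i : ZMod (2 * L + 5)))) := by
  obtain ⟨k, hk⟩ := (srcVal_bij L hL).2 (x - a)
  rcases k with s | i | i
  · left
    refine ⟨s, ?_⟩
    simp only [srcVal] at hk
    rw [hk]; ring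
  · right; left
    refine ⟨i.val, i.isLt, ?_⟩
    simp only [srcVal] at hk
    push_cast at hk
    linear_combination -hk
  · right; right
    refine ⟨i.val, i.isLt, ?_⟩
    simp only [srcVal] at hk
    push_cast at hk
    linear_combination -hk

/-- Every vertex has one target coordinate with respect to the row `a`. -/
theorem tgt_cases (hL : 1 ≤ L) (a x : ZMod (2 * L + 5)) :
    (∃ t : Fin 5, x = a + ((tgtOff t : ℤ) : ZMod (2 * L + 5))) ∨
    (∃ i : ℕ, i < L ∧ x = a + (4 + 2 * (i : ZMod (2 * L + 5)))) ∨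
    (∃ i : ℕ, i < L ∧ x = a + (-6 - 2 * (i : ZMod (2 * L + 5)))) := by
  obtain ⟨k, hk⟩ := (tgtVal_bij L hL).2 (x - a)
  rcases k with s | i | i
  · left
    refine ⟨s, ?_⟩
    simp only [tgtVal] at hk
    rw [hk]; ring
  · right; left
    refine ⟨i.val, i.isLt, ?_⟩
    simp only [tgtVal] at hk
    push_cast at hk
    linear_combination -hk
  · right; right
    refine ⟨i.val, i.isLt, ?_⟩
    simp only [tgtVal] at hk
    push_cast at hk
    linear_combination -hk

/-- ends of the lanes. -/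
theorem up_end (L : ℕ) : (2 + 2 * (L : ZMod (2 * L + 5))) = ((srcOff 0 : ℤ) : ZMod (2 * L + 5)) := by
  have hq := winCoord_hq L
  simp only [srcOff]
  simp
  linear_combination hq

theorem dn_end (L : ℕ) : (-4 - 2 * (L : ZMod (2 * L + 5))) = ((srcOff 1 : ℤ) : ZMod (2 * L + 5)) := by
  have hq := winCoord_hq L
  simp only [srcOff]
  simp
  linear_combination -hq

end

end Pool.Agent.W_MP_43c969_h13
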