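import Pool.Agent.W_MP_43c969_h13.Basic
import Pool.Agent.W_MP_43c969_h13.WinEmb

/-!
# Task WinPhi: the next arc, good arcs

* `phi_pt`: with `R j = D (a + j)`, the map `phi` on the window arc `(a, pt a α)` is given by
  `nextArc R (0, α)`. Proof: cases on `α` and on the label, with `rho_src_none`, `rho_src_some`,
  `rho_act`, `pi_tgt`, `pi_act`. For example if `α = inl s`, `lab s = none`, `t = sg s`,
  `y = a + tgtOff t`, the next row is `b = a + tgtOff t - srcOff (cs t)` and `y = b + srcOff (cs t)`.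
* `nextArc_shift`: `nextArc` commutes with translations (unfold, cases, `push_cast`, `ring_nf`).
* `good_pt`: the condition `good` of `LOK` at `a`, with `phi_pt` twice and `nextArc_shift`.
* The lane arcs are good. For `i ≥ c`, `x = a + (2 + 2 i)`, `y = a + (4 + 2 i)`, next row
  `b = a + (8 + 4 i)` and `y = b + (-4 - 2 i)`, so the row `b` sends `y` to `b + (-6 - 2 i) = x` and
  `pi x b = b + (-8 - 4 i) = a`. For `i < c`: `(a, x)` goes to `(a - 2, u_i)`, which goes to
  `a - 2 + (4 + 2 i) = x` and to the row `a - 2 + 2 = a`. The same for the down lane and for the arcs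
  starting at `u_i`, `d_i` (they are the images of lane arcs).
* `bad_cases`: with `src_cases`.
-/

set_option autoImplicit false

namespace Pool.Agent.W_MP_43c969_h13

open Equiv

section
variable {w L c : ℕ} {odd : Bool} {cz : Fin w → Bool} {D : ZMod (2 * L + 5) → RD w}

theorem phi_pt (h : WOK L c odd cz D) (a : ZMod (2 * L + 5)) (α : Fin 5 ⊕ Fin w) :
    (winEmb h).phi (a, pt w c L a α) =
      (a + (((nextArc (fun j : ℤ => D (a + (j : ZMod (2 * L + 5)))) (0, α)).1 : ℤ) :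
          ZMod (2 * L + 5)),
        pt w c L (a + (((nextArc (fun j : ℤ => D (a + (j : ZMod (2 * L + 5)))) (0, α)).1 : ℤ) :
          ZMod (2 * L + 5))) (nextArc (fun j : ℤ => D (a + (j : ZMod (2 * L + 5)))) (0, α)).2) := by
  have h0 : (fun j : ℤ => D (a + (j : ZMod (2 * L + 5)))) 0 = D a := by
    show D (a + ((0 : ℤ) : ZMod (2 * L + 5))) = D a
    rw [Int.cast_zero, add_zero]
  rcases α with s | z
  · rcases hl : (D a).lab s with _ | z
    · have hn : nextArc (fun j : ℤ => D (a + (j : ZMod (2 * L + 5)))) (0, Sum.inl s) =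
          (0 + tgtOff ((D a).sg s) - srcOff ((D a).cs ((D a).sg s)),
            Sum.inl ((D a).cs ((D a).sg s))) := by
        unfold nextArc
        simp only [h0, hl]
      rw [hn]
      show ((winEmb h).pi ((winEmb h).rho a (Sum.inl (a + ((srcOff s : ℤ) : ZMod (2 * L + 5))))) a,
        (winEmb h).rho a (Sum.inl (a + ((srcOff s : ℤ) : ZMod (2 * L + 5))))) = _
      rw [rho_src_none h a s hl, pi_tgt h a]
      refine Prod.ext ?_ ?_
      · show a + ((tgtOff ((D a).sg s) - srcOff ((D a).cs ((D a).sg s)) : ℤ) :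
          ZMod (2 * L + 5)) = a + ((0 + tgtOff ((D a).sg s) - srcOff ((D a).cs ((D a).sg s)) : ℤ) :
          ZMod (2 * L + 5))
        rw [zero_add]
      · show Sum.inl (a + ((tgtOff ((D a).sg s) : ℤ) : ZMod (2 * L + 5))) =
          Sum.inl (a + ((0 + tgtOff ((D a).sg s) - srcOff ((D a).cs ((D a).sg s)) : ℤ) :
          ZMod (2 * L + 5)) + ((srcOff ((D a).cs ((D a).sg s)) : ℤ) : ZMod (2 * L + 5)))
        congr 1
        push_cast
        ring
    · have hn : nextArc (fun j : ℤ => D (a + (j : ZMod (2 * L + 5)))) (0, Sum.inl s) =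
          (0 + (D a).dz z, Sum.inr z) := by
        unfold nextArc
        simp only [h0, hl]
      rw [hn]
      show ((winEmb h).pi ((winEmb h).rho a (Sum.inl (a + ((srcOff s : ℤ) : ZMod (2 * L + 5))))) a,
        (winEmb h).rho a (Sum.inl (a + ((srcOff s : ℤ) : ZMod (2 * L + 5))))) = _
      rw [rho_src_some h a s z hl, pi_act h a]
      refine Prod.ext ?_ rfl
      show a + (((D a).dz z : ℤ) : ZMod (2 * L + 5)) = a + ((0 + (D a).dz z : ℤ) :
          ZMod (2 * L + 5))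
      rw [zero_add]
  · have hn : nextArc (fun j : ℤ => D (a + (j : ZMod (2 * L + 5)))) (0, Sum.inr z) =
        (0 + tgtOff ((D a).sg ((D a).pz z)) - srcOff ((D a).cs ((D a).sg ((D a).pz z))),
          Sum.inl ((D a).cs ((D a).sg ((D a).pz z)))) := by
      unfold nextArc
      simp only [h0]
    rw [hn]
    show ((winEmb h).pi ((winEmb h).rho a (Sum.inr (Sum.inl z))) a,
      (winEmb h).rho a (Sum.inr (Sum.inl z))) = _
    rw [rho_act h a z, pi_tgt h a]
    refine Prod.ext ?_ ?_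
    · show a + ((tgtOff ((D a).sg ((D a).pz z)) -
        srcOff ((D a).cs ((D a).sg ((D a).pz z))) : ℤ) : ZMod (2 * L + 5)) =
        a + ((0 + tgtOff ((D a).sg ((D a).pz z)) -
        srcOff ((D a).cs ((D a).sg ((D a).pz z))) : ℤ) : ZMod (2 * L + 5))
      rw [zero_add]
    · show Sum.inl (a + ((tgtOff ((D a).sg ((D a).pz z)) : ℤ) : ZMod (2 * L + 5))) =
        Sum.inl (a + ((0 + tgtOff ((D a).sg ((D a).pz z)) -
          srcOff ((D a).cs ((D a).sg ((D a).pz z))) : ℤ) : ZMod (2 * L + 5)) +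
          ((srcOff ((D a).cs ((D a).sg ((D a).pz z))) : ℤ) : ZMod (2 * L + 5)))
      congr 1
      push_cast
      ring

theorem nextArc_shift (D : ZMod (2 * L + 5) → RD w) (a : ZMod (2 * L + 5)) (k : ℤ)
    (α : Fin 5 ⊕ Fin w) :
    nextArc (fun j : ℤ => D (a + (j : ZMod (2 * L + 5)))) (k, α) =
      (k + (nextArc (fun j : ℤ => D (a + (k : ZMod (2 * L + 5)) + (j : ZMod (2 * L + 5))))
          (0, α)).1,
        (nextArc (fun j : ℤ => D (a + (k : ZMod (2 * L + 5)) + (j : ZMod (2 * L + 5))))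
          (0, α)).2) := by
  have h0 : D (a + (k : ZMod (2 * L + 5)) + ((0 : ℤ) : ZMod (2 * L + 5))) =
      D (a + (k : ZMod (2 * L + 5))) := by
    rw [Int.cast_zero, add_zero]
  rcases α with s | z
  · unfold nextArc
    simp only [h0]
    rcases hl : (D (a + (k : ZMod (2 * L + 5)))).lab s with _ | z
    · simp only [Prod.mk.injEq, and_true]
      ring
    · simp only [Prod.mk.injEq, and_true]
      ring
  · unfold nextArc
    simp only [h0, Prod.mk.injEq, and_true]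
    ring

/-- The version starting from the row `0`. -/
theorem phi_pt_zero (h : WOK L c odd cz D) (e : ℤ × (Fin 5 ⊕ Fin w)) :
    (winEmb h).phi ((e.1 : ZMod (2 * L + 5)), pt w c L (e.1 : ZMod (2 * L + 5)) e.2) =
      (((nextArc (fun j : ℤ => D (j : ZMod (2 * L + 5))) e).1 : ZMod (2 * L + 5)),
        pt w c L ((nextArc (fun j : ℤ => D (j : ZMod (2 * L + 5))) e).1 : ZMod (2 * L + 5))
          (nextArc (fun j : ℤ => D (j : ZMod (2 * L + 5))) e).2) := by
  obtain ⟨k, α⟩ := e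
  have h1 := nextArc_shift D 0 k α
  simp only [zero_add] at h1
  rw [h1, phi_pt h]
  simp only [Int.cast_add]

theorem good_pt (h : WOK L c odd cz D) (a : ZMod (2 * L + 5)) (α : Fin 5 ⊕ Fin w)
    (hf : (D a).flag α = false) : (winEmb h).Good (a, pt w c L a α) := by
  have h1 := (h.loc a).good α (by
    show (D (a + ((0 : ℤ) : ZMod (2 * L + 5)))).flag α = false
    rw [Int.cast_zero, add_zero]
    exact hf)
  show (winEmb h).phi ((winEmb h).phi (a, pt w c L a α)) = _
  rw [phi_pt h a α]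
  obtain ⟨J, α', hJ⟩ : ∃ J α', nextArc (fun j : ℤ => D (a + (j : ZMod (2 * L + 5)))) (0, α) =
    (J, α') := ⟨_, _, rfl⟩
  rw [hJ] at h1 ⊢
  rw [nextArc_shift] at h1
  rw [phi_pt h]
  obtain ⟨J', α'', hJ'⟩ : ∃ J' α'', nextArc (fun j : ℤ => D (a + (J : ZMod (2 * L + 5)) +
    (j : ZMod (2 * L + 5)))) (0, α') = (J', α'') := ⟨_, _, rfl⟩
  rw [hJ'] at h1
  have h2 : J + J' = 0 := congrArg Prod.fst h1
  have h3 : α'' = α := congrArg Prod.snd h1
  have h4 : a + (J : ZMod (2 * L + 5)) + (J' : ZMod (2 * L + 5)) = a := by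
    rw [add_assoc, ← Int.cast_add, h2, Int.cast_zero, add_zero]
  show (a + (J : ZMod (2 * L + 5)) + (((nextArc (fun j : ℤ => D (a + (J : ZMod (2 * L + 5)) +
    (j : ZMod (2 * L + 5)))) (0, α')).1 : ℤ) : ZMod (2 * L + 5)),
    pt w c L (a + (J : ZMod (2 * L + 5)) + (((nextArc (fun j : ℤ => D (a +
      (J : ZMod (2 * L + 5)) + (j : ZMod (2 * L + 5)))) (0, α')).1 : ℤ) : ZMod (2 * L + 5)))
      (nextArc (fun j : ℤ => D (a + (J : ZMod (2 * L + 5)) +
        (j : ZMod (2 * L + 5)))) (0, α')).2) = (a, pt w c L a α)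
  rw [hJ']
  show (a + (J : ZMod (2 * L + 5)) + (J' : ZMod (2 * L + 5)),
    pt w c L (a + (J : ZMod (2 * L + 5)) + (J' : ZMod (2 * L + 5))) α'') = _
  rw [h4, h3]

theorem good_up (h : WOK L c odd cz D) (a : ZMod (2 * L + 5)) (i : ℕ) (hi : i < L) :
    (winEmb h).Good (a, Sum.inl (a + (2 + 2 * (i : ZMod (2 * L + 5))))) := by
  show (winEmb h).phi ((winEmb h).pi ((winEmb h).rho a
    (Sum.inl (a + (2 + 2 * (i : ZMod (2 * L + 5)))))) a, (winEmb h).rho a
    (Sum.inl (a + (2 + 2 * (i : ZMod (2 * L + 5)))))) = _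
  by_cases hc : i < c
  · have h1 := rho_up_lt h a ⟨i, hc⟩
    rw [show (Sum.inl (a + (2 + 2 * (i : ZMod (2 * L + 5)))) : WN w c L) =
      Sum.inl (a + (2 + 2 * (((⟨i, hc⟩ : Fin c) : ℕ) : ZMod (2 * L + 5)))) from rfl, h1, pi_u h]
    show ((winEmb h).pi ((winEmb h).rho (a - 2) (Sum.inr (Sum.inr (Sum.inl ⟨i, hc⟩)))) (a - 2),
      (winEmb h).rho (a - 2) (Sum.inr (Sum.inr (Sum.inl ⟨i, hc⟩)))) = _
    rw [rho_u h]
    have h2 := pi_up_lt h (a - 2) i hc
    refine Prod.ext ?_ ?_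
    · show (winEmb h).pi (Sum.inl (a - 2 + (4 + 2 * (i : ZMod (2 * L + 5))))) (a - 2) = a
      rw [h2]
      ring
    · show Sum.inl (a - 2 + (4 + 2 * (i : ZMod (2 * L + 5)))) =
        Sum.inl (a + (2 + 2 * (i : ZMod (2 * L + 5))))
      congr 1
      ring
  · have hc' : c ≤ i := not_lt.1 hc
    rw [rho_up_ge h a i hc' hi, pi_up_ge h a i hc' hi]
    have e1 : a + (4 + 2 * (i : ZMod (2 * L + 5))) =
        a + (8 + 4 * (i : ZMod (2 * L + 5))) + (-4 - 2 * (i : ZMod (2 * L + 5))) := by ring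
    rw [e1]
    show ((winEmb h).pi ((winEmb h).rho (a + (8 + 4 * (i : ZMod (2 * L + 5))))
      (Sum.inl (a + (8 + 4 * (i : ZMod (2 * L + 5))) + (-4 - 2 * (i : ZMod (2 * L + 5))))))
        (a + (8 + 4 * (i : ZMod (2 * L + 5)))),
      (winEmb h).rho (a + (8 + 4 * (i : ZMod (2 * L + 5))))
      (Sum.inl (a + (8 + 4 * (i : ZMod (2 * L + 5))) + (-4 - 2 * (i : ZMod (2 * L + 5)))))) = _
    rw [rho_dn_ge h _ i hc' hi, pi_dn_ge h _ i hc' hi]
    refine Prod.ext ?_ ?_
    · show a + (8 + 4 * (i : ZMod (2 * L + 5))) + (-8 - 4 * (i : ZMod (2 * L + 5))) = a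
      ring
    · show Sum.inl (a + (8 + 4 * (i : ZMod (2 * L + 5))) + (-6 - 2 * (i : ZMod (2 * L + 5)))) =
        Sum.inl (a + (2 + 2 * (i : ZMod (2 * L + 5))))
      congr 1
      ring

theorem good_dn (h : WOK L c odd cz D) (a : ZMod (2 * L + 5)) (i : ℕ) (hi : i < L) :
    (winEmb h).Good (a, Sum.inl (a + (-4 - 2 * (i : ZMod (2 * L + 5))))) := by
  show (winEmb h).phi ((winEmb h).pi ((winEmb h).rho a
    (Sum.inl (a + (-4 - 2 * (i : ZMod (2 * L + 5)))))) a, (winEmb h).rho a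
    (Sum.inl (a + (-4 - 2 * (i : ZMod (2 * L + 5)))))) = _
  by_cases hc : i < c
  · have h1 := rho_dn_lt h a ⟨i, hc⟩
    rw [show (Sum.inl (a + (-4 - 2 * (i : ZMod (2 * L + 5)))) : WN w c L) =
      Sum.inl (a + (-4 - 2 * (((⟨i, hc⟩ : Fin c) : ℕ) : ZMod (2 * L + 5)))) from rfl, h1, pi_d h]
    show ((winEmb h).pi ((winEmb h).rho (a + 2) (Sum.inr (Sum.inr (Sum.inr ⟨i, hc⟩)))) (a + 2),
      (winEmb h).rho (a + 2) (Sum.inr (Sum.inr (Sum.inr ⟨i, hc⟩)))) = _
    rw [rho_d h]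
    have h2 := pi_dn_lt h (a + 2) i hc
    refine Prod.ext ?_ ?_
    · show (winEmb h).pi (Sum.inl (a + 2 + (-6 - 2 * (i : ZMod (2 * L + 5))))) (a + 2) = a
      rw [h2]
      ring
    · show Sum.inl (a + 2 + (-6 - 2 * (i : ZMod (2 * L + 5)))) =
        Sum.inl (a + (-4 - 2 * (i : ZMod (2 * L + 5))))
      congr 1
      ring
  · have hc' : c ≤ i := not_lt.1 hc
    rw [rho_dn_ge h a i hc' hi, pi_dn_ge h a i hc' hi]
    have e1 : a + (-6 - 2 * (i : ZMod (2 * L + 5))) =
        a + (-8 - 4 * (i : ZMod (2 * L + 5))) + (2 + 2 * (i : ZMod (2 * L + 5))) := by ring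
    rw [e1]
    show ((winEmb h).pi ((winEmb h).rho (a + (-8 - 4 * (i : ZMod (2 * L + 5))))
      (Sum.inl (a + (-8 - 4 * (i : ZMod (2 * L + 5))) + (2 + 2 * (i : ZMod (2 * L + 5))))))
        (a + (-8 - 4 * (i : ZMod (2 * L + 5)))),
      (winEmb h).rho (a + (-8 - 4 * (i : ZMod (2 * L + 5))))
      (Sum.inl (a + (-8 - 4 * (i : ZMod (2 * L + 5))) + (2 + 2 * (i : ZMod (2 * L + 5)))))) = _
    rw [rho_up_ge h _ i hc' hi, pi_up_ge h _ i hc' hi]
    refine Prod.ext ?_ ?_
    · show a + (-8 - 4 * (i : ZMod (2 * L + 5))) + (8 + 4 * (i : ZMod (2 * L + 5))) = a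
      ring
    · show Sum.inl (a + (-8 - 4 * (i : ZMod (2 * L + 5))) + (4 + 2 * (i : ZMod (2 * L + 5)))) =
        Sum.inl (a + (-4 - 2 * (i : ZMod (2 * L + 5))))
      congr 1
      ring

theorem good_ud (h : WOK L c odd cz D) (a : ZMod (2 * L + 5)) (n : Fin c ⊕ Fin c) :
    (winEmb h).Good (a, Sum.inr (Sum.inr n)) := by
  rcases n with i | i
  · show (winEmb h).phi ((winEmb h).pi ((winEmb h).rho a (Sum.inr (Sum.inr (Sum.inl i)))) a,
      (winEmb h).rho a (Sum.inr (Sum.inr (Sum.inl i)))) = _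
    rw [rho_u h, pi_up_lt h a i.val i.isLt]
    have e1 : a + (4 + 2 * (i.val : ZMod (2 * L + 5))) =
        a + 2 + (2 + 2 * (i.val : ZMod (2 * L + 5))) := by ring
    rw [e1]
    show ((winEmb h).pi ((winEmb h).rho (a + 2)
      (Sum.inl (a + 2 + (2 + 2 * (i.val : ZMod (2 * L + 5)))))) (a + 2),
      (winEmb h).rho (a + 2) (Sum.inl (a + 2 + (2 + 2 * (i.val : ZMod (2 * L + 5)))))) = _
    rw [rho_up_lt h, pi_u h]
    refine Prod.ext ?_ rfl
    show a + 2 - 2 = a
    ring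
  · show (winEmb h).phi ((winEmb h).pi ((winEmb h).rho a (Sum.inr (Sum.inr (Sum.inr i)))) a,
      (winEmb h).rho a (Sum.inr (Sum.inr (Sum.inr i)))) = _
    rw [rho_d h, pi_dn_lt h a i.val i.isLt]
    have e1 : a + (-6 - 2 * (i.val : ZMod (2 * L + 5))) =
        a - 2 + (-4 - 2 * (i.val : ZMod (2 * L + 5))) := by ring
    rw [e1]
    show ((winEmb h).pi ((winEmb h).rho (a - 2)
      (Sum.inl (a - 2 + (-4 - 2 * (i.val : ZMod (2 * L + 5)))))) (a - 2),
      (winEmb h).rho (a - 2) (Sum.inl (a - 2 + (-4 - 2 * (i.val : ZMod (2 * L + 5)))))) = _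
    rw [rho_dn_lt h, pi_d h]
    refine Prod.ext ?_ rfl
    show a - 2 + 2 = a
    ring

/-- Every arc which is not flagged is good. -/
theorem bad_cases (h : WOK L c odd cz D) (e : ZMod (2 * L + 5) × WN w c L) :
    (∃ α, (D e.1).flag α = true ∧ e.2 = pt w c L e.1 α) ∨ (winEmb h).Good e := by
  obtain ⟨a, n⟩ := e
  have key : ∀ α, n = pt w c L a α →
      (∃ α, (D a).flag α = true ∧ n = pt w c L a α) ∨ (winEmb h).Good (a, n) := by
    intro α hα
    rcases hb : (D a).flag α with _ | _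
    · right
      rw [hα]
      exact good_pt h a α hb
    · left
      exact ⟨α, hb, hα⟩
  rcases n with x | z | n
  · rcases src_cases h.hL a x with ⟨s, hs⟩ | ⟨i, hi, hx⟩ | ⟨i, hi, hx⟩
    · exact key (Sum.inl s) (by rw [hs]; rfl)
    · right
      rw [hx]
      exact good_up h a i hi
    · right
      rw [hx]
      exact good_dn h a i hi
  · exact key (Sum.inr z) rfl
  · right
    exact good_ud h a n

end

end Pool.Agent.W_MP_43c969_h13
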