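import Pool.Agent.W_MP_43c969_h13.Basic
import Pool.Agent.W_MP_43c969_h13.WinEmb
import Pool.Agent.W_MP_43c969_h13.WinPhi

/-!
# Task WinFace: the special face

`fl` is the list of the arcs of the special face, `(j, α)` standing for the arc
`((j : ZMod q), pt j α)`. `win_iter`: by induction on `i` with `phi_pt_zero` and `chain`.
`win_face`: `phi^[k]` of the first arc is the first arc (`chain` at the last index); the `k` arcs are
different: two elements of `fl` with the same class modulo `q = 2 L + 5 ≥ 7` of the first component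
have the same first component (`rng`), and `pt` is injective; the other arcs are good by
`bad_cases` and `flags`.
-/

set_option autoImplicit false

namespace Pool.Agent.W_MP_43c969_h13

open Equiv

/-- element of index `i` of the list of arcs. -/
def fget {w : ℕ} (fl : List (ℤ × (Fin 5 ⊕ Fin w))) (i : ℕ) : ℤ × (Fin 5 ⊕ Fin w) :=
  fl.getD i (0, Sum.inl 0)

/-- The list of arcs `fl` is the special face. -/
structure FaceOK {w : ℕ} (L : ℕ) (D : ZMod (2 * L + 5) → RD w)
    (fl : List (ℤ × (Fin 5 ⊕ Fin w))) : Prop where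
  ne : 1 ≤ fl.length
  head : (fget fl 0).1 = 0
  chain : ∀ i, i < fl.length → nextArc (fun j : ℤ => D (j : ZMod (2 * L + 5))) (fget fl i) =
    fget fl ((i + 1) % fl.length)
  nodup : fl.Nodup
  rng : ∀ e ∈ fl, ∀ e' ∈ fl, e.1 - e'.1 ≤ 6
  flags : ∀ (a : ZMod (2 * L + 5)) (α : Fin 5 ⊕ Fin w), (D a).flag α = true →
    ∃ e ∈ fl, ((e.1 : ℤ) : ZMod (2 * L + 5)) = a ∧ e.2 = α

section
variable {w L c : ℕ} {odd : Bool} {cz : Fin w → Bool} {D : ZMod (2 * L + 5) → RD w}

theorem win_iter (h : WOK L c odd cz D) (fl : List (ℤ × (Fin 5 ⊕ Fin w)))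
    (hf : FaceOK L D fl) (i : ℕ) (hi : i < fl.length) :
    (winEmb h).phi^[i] (0, pt w c L 0 (fget fl 0).2) =
      (((fget fl i).1 : ZMod (2 * L + 5)),
        pt w c L ((fget fl i).1 : ZMod (2 * L + 5)) (fget fl i).2) := by
  induction i with
  | zero =>
    rw [Function.iterate_zero_apply, hf.head, Int.cast_zero]
  | succ i ih =>
    have hi' : i < fl.length := by omega
    rw [Function.iterate_succ_apply', ih hi', phi_pt_zero h, hf.chain i hi',
      Nat.mod_eq_of_lt hi]

theorem fget_eq {w : ℕ} (fl : List (ℤ × (Fin 5 ⊕ Fin w))) (i : ℕ) (hi : i < fl.length) :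
    fget fl i = fl[i] := by
  unfold fget
  rw [List.getD_eq_getElem _ _ hi]

theorem win_face (h : WOK L c odd cz D) (fl : List (ℤ × (Fin 5 ⊕ Fin w)))
    (hf : FaceOK L D fl) :
    (winEmb h).FaceAt (0, pt w c L 0 (fget fl 0).2) fl.length := by
  refine ⟨hf.ne, ?_, ?_, ?_⟩
  · obtain ⟨m, hm⟩ : ∃ m, fl.length = m + 1 := ⟨fl.length - 1, by have := hf.ne; omega⟩
    have hm' : m < fl.length := by omega
    rw [hm, Function.iterate_succ_apply', win_iter h fl hf m hm', phi_pt_zero h,
      hf.chain m hm', hm, Nat.mod_self, hf.head, Int.cast_zero]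
  · intro i j hij hj heq
    have hi : i < fl.length := by omega
    rw [win_iter h fl hf i hi, win_iter h fl hf j hj] at heq
    have h1 : (((fget fl i).1 : ℤ) : ZMod (2 * L + 5)) = (((fget fl j).1 : ℤ) :
      ZMod (2 * L + 5)) := congrArg Prod.fst heq
    have h2 := congrArg Prod.snd heq
    have mi : fget fl i ∈ fl := by
      rw [fget_eq fl i hi]
      exact List.getElem_mem hi
    have mj : fget fl j ∈ fl := by
      rw [fget_eq fl j hj]
      exact List.getElem_mem hj
    have r1 := hf.rng _ mi _ mj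
    have r2 := hf.rng _ mj _ mi
    have hL := h.hL
    have h3 : (fget fl i).1 = (fget fl j).1 := by
      rw [ZMod.intCast_eq_intCast_iff_dvd_sub] at h1
      obtain ⟨t, ht⟩ := h1
      push_cast at ht
      have hL' : (1 : ℤ) ≤ (L : ℤ) := by exact_mod_cast hL
      rcases lt_trichotomy t 0 with ht0 | ht0 | ht0
      · exfalso
        have : (2 * (L : ℤ) + 5) * t ≤ (2 * (L : ℤ) + 5) * (-1) :=
          mul_le_mul_of_nonneg_left (by omega) (by omega)
        omega
      · rw [ht0, mul_zero] at ht
        omega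
      · exfalso
        have : (2 * (L : ℤ) + 5) * 1 ≤ (2 * (L : ℤ) + 5) * t :=
          mul_le_mul_of_nonneg_left (by omega) (by omega)
        omega
    have h4 : pt w c L (((fget fl i).1 : ℤ) : ZMod (2 * L + 5)) (fget fl i).2 =
        pt w c L (((fget fl i).1 : ℤ) : ZMod (2 * L + 5)) (fget fl j).2 := by
      have h2' : pt w c L (((fget fl i).1 : ℤ) : ZMod (2 * L + 5)) (fget fl i).2 =
        pt w c L (((fget fl j).1 : ℤ) : ZMod (2 * L + 5)) (fget fl j).2 := h2
      rw [h2', h3]
    have h5 := pt_injective _ hL h4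
    have h6 : fget fl i = fget fl j := Prod.ext h3 h5
    rw [fget_eq fl i hi, fget_eq fl j hj] at h6
    have h7 := (hf.nodup.getElem_inj_iff).1 h6
    omega
  · intro e he
    rcases bad_cases h e with ⟨α, hα, hα'⟩ | hg
    · exfalso
      obtain ⟨e', he', h1, h2⟩ := hf.flags e.1 α hα
      obtain ⟨i, hi, hi'⟩ := List.mem_iff_getElem.1 he'
      refine he i hi ?_
      rw [win_iter h fl hf i hi, fget_eq fl i hi, hi', h1, h2, ← hα']
    · exact hg

/-- If there is no flagged arc then all the arcs are good. -/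
theorem win_allGood (h : WOK L c odd cz D) (hf : ∀ a α, (D a).flag α = false) :
    (winEmb h).AllGood := by
  intro e
  rcases bad_cases h e with ⟨α, hα, _⟩ | hg
  · rw [hf e.1 α] at hα
    exact absurd hα (by decide)
  · exact hg

end

end Pool.Agent.W_MP_43c969_h13
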