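import Pool.Agent.W_MP_43c969_h13.WinEmb

/-!
# Task WinTab: from a table to the data on `ZMod (2 L + 5)`

`tabD T L a = T.word q a.val` with `q = 2 L + 5`. `tabD_add`: `a + j` is the class of the integer
`a.val + j`, and `(b : ZMod q).val = (b % q).toNat` (`ZMod.val_intCast`). `wok_of_tab`: `loc` is
`hlok` at `a.val`; `zc`: the relation on the natural numbers `< q` is mapped by the cast to the
relation on `ZMod q` (`T.zf q z x` is the class of `x + dz z`), every element of `ZMod q` is the class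
of its `val`.
-/

set_option autoImplicit false

namespace Pool.Agent.W_MP_43c969_h13

open Equiv

/-- the data defined by a table. -/
def tabD {w : ℕ} (T : Tab w) (L : ℕ) (a : ZMod (2 * L + 5)) : RD w := T.word (2 * L + 5) a.val

section
variable {w : ℕ} (T : Tab w) (L : ℕ)

theorem tabD_cast (j : ℤ) :
    tabD T L (j : ZMod (2 * L + 5)) = T.wordZ (2 * L + 5) j := by
  have : NeZero (2 * L + 5) := ⟨by omega⟩
  unfold tabD Tab.wordZ
  rw [← ZMod.val_intCast, Int.toNat_natCast]

theorem tabD_add (a : ZMod (2 * L + 5)) (j : ℤ) :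
    tabD T L (a + (j : ZMod (2 * L + 5))) = T.wordZ (2 * L + 5) ((a.val : ℤ) + j) := by
  have : NeZero (2 * L + 5) := ⟨by omega⟩
  rw [← tabD_cast, Int.cast_add, Int.cast_natCast, ZMod.natCast_zmod_val]

/-- the successor in a column, modulo `q`. -/
theorem zf_cast (z : Fin w) (x : ℕ) (hx : x < 2 * L + 5) :
    ((T.zf (2 * L + 5) z x : ℕ) : ZMod (2 * L + 5)) = (x : ZMod (2 * L + 5)) +
      (((tabD T L (x : ZMod (2 * L + 5))).dz z : ℤ) : ZMod (2 * L + 5)) := by
  have : NeZero (2 * L + 5) := ⟨by omega⟩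
  have h1 : tabD T L (x : ZMod (2 * L + 5)) = T.word (2 * L + 5) x := by
    unfold tabD
    rw [ZMod.val_cast_of_lt hx]
  rw [h1]
  unfold Tab.zf
  have h2 : 0 ≤ ((x : ℤ) + (T.word (2 * L + 5) x).dz z) % ((2 * L + 5 : ℕ) : ℤ) :=
    Int.emod_nonneg _ (by omega)
  rw [← Int.cast_natCast (R := ZMod (2 * L + 5)) (Int.toNat _), Int.toNat_of_nonneg h2,
    ZMod.intCast_mod, Int.cast_add, Int.cast_natCast]

theorem wok_of_tab (c : ℕ) (odd : Bool) (cz : Fin w → Bool) (hL : 1 ≤ L) (hc : c ≤ L)
    (par : (L - c) % 2 = if odd then 1 else 0) (hok : T.OK odd cz (2 * L + 5)) :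
    WOK L c odd cz (tabD T L) := by
  have hne : NeZero (2 * L + 5) := ⟨by omega⟩
  refine ⟨hL, hc, par, fun a => ?_, fun z a b => ?_⟩
  · have h1 : (fun j : ℤ => tabD T L (a + (j : ZMod (2 * L + 5)))) =
        fun j : ℤ => T.wordZ (2 * L + 5) ((a.val : ℤ) + j) := funext (tabD_add T L a)
    rw [h1]
    exact hok.1 a.val (ZMod.val_lt a)
  · have key : ∀ x y : ℕ, Relation.EqvGen
        (fun x y : ℕ => x < 2 * L + 5 ∧ y = T.zf (2 * L + 5) z x) x y →
        Relation.EqvGen (fun x y : ZMod (2 * L + 5) =>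
          y = x + (((tabD T L x).dz z : ℤ) : ZMod (2 * L + 5)))
          (x : ZMod (2 * L + 5)) (y : ZMod (2 * L + 5)) := by
      intro x y h
      induction h with
      | rel x y h =>
        apply Relation.EqvGen.rel
        rw [h.2]
        exact zf_cast T L z x h.1
      | refl x => exact Relation.EqvGen.refl _
      | symm x y _ ih => exact ih.symm
      | trans x y z _ _ ih1 ih2 => exact ih1.trans _ _ _ ih2
    have h0 : ∀ a : ZMod (2 * L + 5), Relation.EqvGen (fun x y : ZMod (2 * L + 5) =>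
          y = x + (((tabD T L x).dz z : ℤ) : ZMod (2 * L + 5)))
          ((0 : ℕ) : ZMod (2 * L + 5)) a := by
      intro a
      have h1 := key 0 a.val (hok.2 z a.val (ZMod.val_lt a))
      rwa [ZMod.natCast_zmod_val] at h1
    exact Relation.EqvGen.trans _ _ _ (Relation.EqvGen.symm _ _ (h0 a)) (h0 b)

end

end Pool.Agent.W_MP_43c969_h13
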