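import Pool.Agent.W_MP_43c969_h13.WinDefs

/-!
# Task WinWord: the local conditions for `q + 4` follow from those for `q`

`lok_congr`: the conditions `LOK odd cz R` only use `R j` for `-6 ≤ j ≤ 6` (`nextArc R e` only uses
`R e.1`; the first component of `nextArc R (0, α)` is between `-6` and `6` by `next_bd`;
`-(tgtOff t)` is between `-2` and `4`).

`wordZ_left`: for `-6 ≤ b < q - 5`, `wordZ (q + 4) b = wordZ q b`: if `b ≥ 0` both are `L[b]` or
`B (b % 4)` (the index `q - b - 1` is at least `5`); if `b < 0` both are `Rt[-b-1]`, or `B` of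
`(q + b) % 4 = (q + 4 + b) % 4` (as `q + b ≥ 5`).
`wordZ_right`: for `5 ≤ b < q + 6`, `wordZ (q + 4) (b + 4) = wordZ q b`: for `b < q` both are
`Rt[q - b - 1]` or `B (b % 4)`; for `b ≥ q` this is `wordZ_left` at `b - q` (periodicity of `wordZ`).

`lok_step` (`26 ≤ q`): let `a < q + 4`. If `a ≤ q - 12`, all the indices `a + j`, `-6 ≤ j ≤ 6`, are
between `-6` and `q - 6`, so `LOK` at `a` for `q + 4` is `LOK` at `a` for `q`. Otherwise `a ≥ q - 11`,
and the indices `a - 4 + j` are at least `q - 21 ≥ 5` and at most `q - 1 + 6`; so `LOK` at `a` for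
`q + 4` is `LOK` at `a - 4` for `q`.
-/

set_option autoImplicit false

namespace Pool.Agent.W_MP_43c969_h13

section
variable {w : ℕ}

theorem nextArc_congr (R R' : ℤ → RD w) (e : ℤ × (Fin 5 ⊕ Fin w)) (h : R e.1 = R' e.1) :
    nextArc R e = nextArc R' e := by
  obtain ⟨j, s | z⟩ := e
  · simp only at h
    simp only [nextArc, h]
  · simp only at h
    simp only [nextArc, h]

theorem tgtOff_bd (t : Fin 5) : -6 ≤ -(tgtOff t) ∧ -(tgtOff t) ≤ 6 := by
  revert t; decide

theorem lok_congr (odd : Bool) (cz : Fin w → Bool) (R R' : ℤ → RD w)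
    (hR : ∀ j : ℤ, -6 ≤ j → j ≤ 6 → R j = R' j) (h : LOK odd cz R) : LOK odd cz R' := by
  have h0 : R 0 = R' 0 := hR 0 (by norm_num) (by norm_num)
  have ht : ∀ t, R (-(tgtOff t)) = R' (-(tgtOff t)) := fun t =>
    hR _ (tgtOff_bd t).1 (tgtOff_bd t).2
  have hn : ∀ α, nextArc R (0, α) = nextArc R' (0, α) := fun α => nextArc_congr R R' (0, α) h0
  have hrow : rowStep R = rowStep R' := by
    funext s
    simp only [rowStep, h0]
  have hcol : colStep odd R = colStep odd R' := by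
    funext t
    simp only [colStep, ht t]
  constructor
  · rw [← h0]; exact h.sg_surj
  · rw [← h0]; exact h.lab_pz
  · rw [← h0]; exact h.pz_lab
  · intro z
    obtain ⟨j, hj1, hj2, hj⟩ := h.dz_surj z
    exact ⟨j, hj1, hj2, by rw [← hR j hj1 hj2]; exact hj⟩
  · intro s
    obtain ⟨t, hts⟩ := h.cs_surj s
    exact ⟨t, by rw [← ht t]; exact hts⟩
  · intro α
    rw [← hn]; exact h.next_bd α
  · intro α hα
    rw [← h0] at hα
    have h1 := h.good α hα
    have h2 := h.next_bd α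
    rw [← hn, ← nextArc_congr R R' (nextArc R (0, α)) (hR _ h2.1 h2.2)]
    exact h1
  · rw [← hrow]; exact h.row_cyc
  · rw [← h0, ← hcol]; exact h.col_cyc
  · rw [← h0, ← hcol]; exact h.col_two
  · intro z hz
    obtain ⟨j, hj1, hj2, s, hs⟩ := h.cover z hz
    refine ⟨j, hj1, hj2, s, ?_⟩
    rw [← hR j (by omega) (by omega)]
    exact hs

theorem getElem?_none_of_le {α : Type*} (l : List α) (n : ℕ) (h : l.length ≤ 5) (hn : 5 ≤ n) :
    l[n]? = none := List.getElem?_eq_none (by omega)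

theorem wordZ_left (T : Tab w) (hL : T.L.length ≤ 5) (hR : T.Rt.length ≤ 5) (q : ℕ) (hq : 12 ≤ q)
    (b : ℤ) (hb : -6 ≤ b) (hb' : b < q - 5) : T.wordZ (q + 4) b = T.wordZ q b := by
  rcases lt_or_ge b 0 with h | h
  · -- negative index
    obtain ⟨n, hn⟩ : ∃ n : ℕ, (n : ℤ) = q + b := ⟨((q : ℤ) + b).toNat, by omega⟩
    have e1 : (b % ((q : ℕ) : ℤ)).toNat = n := by
      have e : b % ((q : ℕ) : ℤ) = n := by
        rw [hn, ← Int.add_emod_left, Int.emod_eq_of_lt (by omega) (by omega)]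
      rw [e]; exact Int.toNat_natCast n
    have e2 : (b % ((q + 4 : ℕ) : ℤ)).toNat = n + 4 := by
      have e : b % ((q + 4 : ℕ) : ℤ) = ((n + 4 : ℕ) : ℤ) := by
        have e3 : ((n + 4 : ℕ) : ℤ) = ((q + 4 : ℕ) : ℤ) + b := by push_cast; omega
        rw [e3, ← Int.add_emod_left, Int.emod_eq_of_lt (by push_cast; omega) (by push_cast; omega)]
      rw [e]; exact Int.toNat_natCast (n + 4)
    unfold Tab.wordZ
    rw [e1, e2]
    unfold Tab.word
    rw [getElem?_none_of_le T.L (n + 4) hL (by omega), getElem?_none_of_le T.L n hL (by omega)]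
    have e3 : q + 4 - (n + 4) - 1 = q - n - 1 := by omega
    rw [e3]
    have e4 : (n + 4) % 4 = n % 4 := by omega
    simp only [e4]
  · obtain ⟨n, hn⟩ : ∃ n : ℕ, (n : ℤ) = b := ⟨b.toNat, by omega⟩
    have e1 : (b % ((q : ℕ) : ℤ)).toNat = n := by
      rw [Int.emod_eq_of_lt h (by omega), ← hn]; exact Int.toNat_natCast n
    have e2 : (b % ((q + 4 : ℕ) : ℤ)).toNat = n := by
      rw [Int.emod_eq_of_lt h (by push_cast; omega), ← hn]; exact Int.toNat_natCast n
    unfold Tab.wordZ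
    rw [e1, e2]
    unfold Tab.word
    rw [getElem?_none_of_le T.Rt (q + 4 - n - 1) hR (by omega),
      getElem?_none_of_le T.Rt (q - n - 1) hR (by omega)]

theorem wordZ_add (T : Tab w) (q : ℕ) (b : ℤ) : T.wordZ q (b + q) = T.wordZ q b := by
  unfold Tab.wordZ
  rw [Int.add_emod_right]

theorem wordZ_right (T : Tab w) (hL : T.L.length ≤ 5) (hR : T.Rt.length ≤ 5) (q : ℕ)
    (hq : 12 ≤ q) (b : ℤ) (hb : 5 ≤ b) (hb' : b < q + 6) :
    T.wordZ (q + 4) (b + 4) = T.wordZ q b := by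
  rcases lt_or_ge b q with h | h
  · obtain ⟨n, hn⟩ : ∃ n : ℕ, (n : ℤ) = b := ⟨b.toNat, by omega⟩
    have e1 : (b % ((q : ℕ) : ℤ)).toNat = n := by
      rw [Int.emod_eq_of_lt (by omega) h, ← hn]; exact Int.toNat_natCast n
    have e2 : ((b + 4) % ((q + 4 : ℕ) : ℤ)).toNat = n + 4 := by
      have e3 : b + 4 = ((n + 4 : ℕ) : ℤ) := by push_cast; omega
      rw [Int.emod_eq_of_lt (by omega) (by push_cast; omega), e3]; exact Int.toNat_natCast (n + 4)
    unfold Tab.wordZ
    rw [e1, e2]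
    unfold Tab.word
    rw [getElem?_none_of_le T.L (n + 4) hL (by omega), getElem?_none_of_le T.L n hL (by omega)]
    have e3 : q + 4 - (n + 4) - 1 = q - n - 1 := by omega
    rw [e3]
    have e4 : (n + 4) % 4 = n % 4 := by omega
    simp only [e4]
  · have e1 : b + 4 = (b - q) + ((q + 4 : ℕ) : ℤ) := by push_cast; ring
    have e2 : T.wordZ q b = T.wordZ q (b - q) := by
      rw [← wordZ_add T q (b - q), sub_add_cancel]
    rw [e1, wordZ_add, e2]
    exact wordZ_left T hL hR q hq (b - q) (by omega) (by omega)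

theorem lok_step (T : Tab w) (hL : T.L.length ≤ 5) (hR : T.Rt.length ≤ 5) (odd : Bool)
    (cz : Fin w → Bool) (q : ℕ) (hq : 26 ≤ q)
    (h : ∀ a : ℕ, a < q → LOK odd cz (fun j => T.wordZ q (a + j))) :
    ∀ a : ℕ, a < q + 4 → LOK odd cz (fun j => T.wordZ (q + 4) (a + j)) := by
  intro a ha
  by_cases h1 : a ≤ q - 12
  · refine lok_congr odd cz _ _ ?_ (h a (by omega))
    intro j hj1 hj2
    exact (wordZ_left T hL hR q (by omega) (a + j) (by omega) (by omega)).symm
  · obtain ⟨a', rfl⟩ : ∃ a', a = a' + 4 := ⟨a - 4, by omega⟩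
    refine lok_congr odd cz _ _ ?_ (h a' (by omega))
    intro j hj1 hj2
    have e1 : (((a' + 4 : ℕ) : ℤ) + j) = (a' + j) + 4 := by push_cast; ring
    rw [e1]
    exact (wordZ_right T hL hR q (by omega) (a' + j) (by omega) (by omega)).symm

end

end Pool.Agent.W_MP_43c969_h13
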