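import Pool.Agent.W_MP_43c969_h13.WinDefs

/-!
# Task WinZWord: the connectivity of the active columns for `q + 4` follows from that for `q`

Write `a ~ b` for the relation `EqvGen (fun x y => x < Q ∧ y = T.zf Q z x)`, `Q = q + 4 ≥ 39`, and
`f' = T.zf q z`, `f = T.zf Q z`. The seams have length at most `5`, so `T.word Q a = T.B (a % 4)` for
`5 ≤ a < Q - 5` (`T.word` may also be in the seam lists for `a < T.L.length`, which is at most `5`).
1. (`bulk`) For `11 ≤ a` and `a + 4 ≤ Q - 12` we have `a ~ a + 4`: take the chain of `T.chain z (a % 4)`;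
   all the points `a + x_i`, with `-6 ≤ x_i ≤ 6`, are in the periodic part if `11 ≤ a`,
   `a + 6 < Q - 5`, and `f (a + x_i) = a + x_{i+1}` (the class of `a + x_i` modulo `4` is that of
   `a % 4 + x_i`). If `x_k = 4` we are done; if `x_k = -4`, use the chain starting at `a + 4` instead
   (same class modulo `4`), which ends at `a`.
2. Let `M = 17` and `φ x = x` for `x < M`, `φ x = x + 4` for `M ≤ x < q`. Claim: `φ x ~ φ (f' x)` for
   `x < q`. For `x < M`: `T.word Q x = T.word q x` (the index `x` is far from the right seam), so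
   `f' x`, `f x` are the classes of the same integer `y = x + dz`, `-6 ≤ y ≤ M + 5`, modulo `q`, resp.
   `Q`. If `y < 0`: `f' x = y + q ≥ M`, `φ (f' x) = y + q + 4 = f x`. If `0 ≤ y < M`: `φ (f' x) = y = f x`.
   If `M ≤ y`: `φ (f' x) = y + 4 ~ y = f x` by 1. (`M = 17 ≤ y ≤ 22`, `y + 4 ≤ 26 ≤ Q - 12`.)
   For `M ≤ x < q`: `T.word Q (x + 4) = T.word q x`; `f' x`, `f (x + 4)` are the classes of `y = x + dz`
   modulo `q` and of `y + 4` modulo `Q`. If `y ≥ q`: `f' x = y - q < M`, and
   `f (x + 4) = y + 4 - Q = y - q`. If `M ≤ y < q`: `φ (f' x) = y + 4 = f (x + 4)`. If `y < M`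
   (so `y ≥ M - 6 = 11`): `φ (f' x) = y ~ y + 4 = f (x + 4)` by 1.
3. Hence `φ a ~ φ 0 = 0` for all `a < q` (by induction on `EqvGen`). The points of `{0, …, Q - 1}`
   which are not in the image of `φ` are `M, …, M + 3`, and `M + i ~ M + i - 4` by 1.
-/

set_option autoImplicit false

namespace Pool.Agent.W_MP_43c969_h13

section
variable {w : ℕ}

theorem zword_toNat {q : ℕ} {y k : ℤ} {n : ℕ} (hn : n < q) (h : y = n + k * q) :
    (y % (q : ℤ)).toNat = n := by
  rw [h, Int.add_mul_emod_self_right, Int.emod_eq_of_lt (by omega) (by omega)]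
  omega

theorem zword_zf (T : Tab w) (q : ℕ) (z : Fin w) (a n : ℕ) (k : ℤ) (hn : n < q)
    (h : (a : ℤ) + (T.word q a).dz z = n + k * q) : T.zf q z a = n :=
  zword_toNat hn h

theorem zword_mid (T : Tab w) (hT : T.Std) {q a : ℕ} (h1 : 5 ≤ a) (h2 : a + 5 < q) :
    T.word q a = T.B ⟨a % 4, Nat.mod_lt _ (by norm_num)⟩ := by
  have e1 : T.L[a]? = none := List.getElem?_eq_none (hT.hL.trans h1)
  have e2 : T.Rt[q - a - 1]? = none := List.getElem?_eq_none (by have := hT.hR; omega)
  unfold Tab.word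
  rw [e1, e2]

theorem zword_left (T : Tab w) (hT : T.Std) {q a : ℕ} (hq : 35 ≤ q) (h : a < 17) :
    T.word (q + 4) a = T.word q a := by
  have e1 : T.Rt[q - a - 1]? = none := List.getElem?_eq_none (by have := hT.hR; omega)
  have e2 : T.Rt[q + 4 - a - 1]? = none := List.getElem?_eq_none (by have := hT.hR; omega)
  unfold Tab.word
  rw [e1, e2]

theorem zword_right (T : Tab w) (hT : T.Std) {q a : ℕ} (h : 17 ≤ a) :
    T.word (q + 4) (a + 4) = T.word q a := by
  have e1 : T.L[a]? = none := List.getElem?_eq_none (by have := hT.hL; omega)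
  have e2 : T.L[a + 4]? = none := List.getElem?_eq_none (by have := hT.hL; omega)
  have e3 : q + 4 - (a + 4) - 1 = q - a - 1 := by omega
  have e4 : (a + 4) % 4 = a % 4 := by omega
  unfold Tab.word
  simp only [e1, e2, e3, e4]

theorem zword_bd (T : Tab w) (hT : T.Std) (q a : ℕ) (z : Fin w) :
    -6 ≤ (T.word q a).dz z ∧ (T.word q a).dz z ≤ 6 := by
  unfold Tab.word
  cases h1 : T.L[a]? with
  | some r => exact hT.bL r (List.mem_of_getElem? h1) z
  | none =>
    cases h2 : T.Rt[q - a - 1]? with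
    | some r => exact hT.bR r (List.mem_of_getElem? h2) z
    | none => exact hT.bB _ z

/-- the chain of `T.chain` at the point `b` of the periodic part. -/
theorem zword_chain (T : Tab w) (hT : T.Std) {Q b : ℕ} (z : Fin w) (h1 : 11 ≤ b)
    (h2 : b + 11 < Q) {k : ℕ} {x : ℕ → ℤ} (x0 : x 0 = 0) (hx : ∀ i, i ≤ k → -6 ≤ x i ∧ x i ≤ 6)
    (hs : ∀ i, i < k → x (i + 1) = x i +
      (T.B ⟨((((b % 4 : ℕ) : ℤ) + x i) % 4).toNat % 4, Nat.mod_lt _ (by norm_num)⟩).dz z) :
    ∀ i, i ≤ k → Relation.EqvGen (fun x y : ℕ => x < Q ∧ y = T.zf Q z x) b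
      ((b : ℤ) + x i).toNat := by
  intro i
  induction i with
  | zero =>
    intro _
    rw [x0, add_zero, Int.toNat_natCast]
    exact Relation.EqvGen.refl b
  | succ i ih =>
    intro hi
    refine (ih (by omega)).trans _ _ _ (Relation.EqvGen.rel _ _ ?_)
    have b1 := hx i (by omega)
    have b2 := hx (i + 1) hi
    have b3 := hs i (by omega)
    obtain ⟨n, hn⟩ : ∃ n : ℕ, (b : ℤ) + x i = n := ⟨((b : ℤ) + x i).toNat, by omega⟩
    obtain ⟨m, hm⟩ : ∃ m : ℕ, (b : ℤ) + x (i + 1) = m := ⟨((b : ℤ) + x (i + 1)).toNat, by omega⟩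
    rw [hn, hm, Int.toNat_natCast, Int.toNat_natCast]
    refine ⟨by omega, ?_⟩
    symm
    refine zword_zf T Q z n m 0 (by omega) ?_
    rw [zword_mid T hT (by omega) (by omega)]
    have e1 : (⟨((((b % 4 : ℕ) : ℤ) + x i) % 4).toNat % 4, Nat.mod_lt _ (by norm_num)⟩ : Fin 4) =
        ⟨n % 4, Nat.mod_lt _ (by norm_num)⟩ := by
      apply Fin.ext
      show ((((b % 4 : ℕ) : ℤ) + x i) % 4).toNat % 4 = n % 4
      omega
    rw [e1] at b3
    omega

theorem zword_bulk (T : Tab w) (hT : T.Std) {Q a : ℕ} (z : Fin w) (h1 : 11 ≤ a)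
    (h2 : a + 16 ≤ Q) :
    Relation.EqvGen (fun x y : ℕ => x < Q ∧ y = T.zf Q z x) a (a + 4) := by
  obtain ⟨k, x, x0, hk, hx, hs⟩ := hT.chain z (a % 4) (Nat.mod_lt _ (by norm_num))
  rcases hk with hk | hk
  · have h3 := zword_chain T hT (Q := Q) z h1 (by omega) x0 hx hs k le_rfl
    have e : ((a : ℤ) + x k).toNat = a + 4 := by omega
    rwa [e] at h3
  · have e4 : (a + 4) % 4 = a % 4 := by omega
    have h3 := zword_chain T hT (Q := Q) (b := a + 4) z (by omega) (by omega) x0 hx
      (by rw [e4]; exact hs) k le_rfl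
    have e : (((a + 4 : ℕ) : ℤ) + x k).toNat = a := by omega
    rw [e] at h3
    exact h3.symm

/-- the embedding of the rows for `q` in the rows for `q + 4`. -/
def zword_phi (x : ℕ) : ℕ := if x < 17 then x else x + 4

theorem zword_phi_lt {x : ℕ} (h : x < 17) : zword_phi x = x := if_pos h

theorem zword_phi_ge {x : ℕ} (h : 17 ≤ x) : zword_phi x = x + 4 := if_neg (not_lt.2 h)

theorem zword_claim (T : Tab w) (hT : T.Std) (q : ℕ) (hq : 35 ≤ q) (z : Fin w) (x : ℕ)
    (hx : x < q) : Relation.EqvGen (fun x y : ℕ => x < q + 4 ∧ y = T.zf (q + 4) z x)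
      (zword_phi x) (zword_phi (T.zf q z x)) := by
  have hb := zword_bd T hT q x z
  obtain ⟨y, hy⟩ : ∃ y : ℤ, y = (x : ℤ) + (T.word q x).dz z := ⟨_, rfl⟩
  rcases Nat.lt_or_ge x 17 with h17 | h17
  · rw [zword_phi_lt h17]
    have e1 := zword_left T hT hq h17
    have hrel : ∀ n k, n < q + 4 → y = (n : ℕ) + k * ((q + 4 : ℕ) : ℤ) →
        Relation.EqvGen (fun x y : ℕ => x < q + 4 ∧ y = T.zf (q + 4) z x) x n := by
      intro n k hn hk
      refine Relation.EqvGen.rel _ _ ⟨by omega, ?_⟩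
      symm
      refine zword_zf T (q + 4) z x n k hn ?_
      rw [e1, ← hy, hk]
    rcases lt_or_ge y 0 with h0 | h0
    · obtain ⟨n, hn⟩ : ∃ n : ℕ, y + q = n := ⟨(y + q).toNat, by omega⟩
      have e2 : T.zf q z x = n := zword_zf T q z x n (-1) (by omega) (by rw [← hy]; omega)
      rw [e2, zword_phi_ge (by omega)]
      exact hrel (n + 4) (-1) (by omega) (by push_cast; omega)
    · obtain ⟨n, hn⟩ : ∃ n : ℕ, y = n := ⟨y.toNat, by omega⟩
      have e2 : T.zf q z x = n := zword_zf T q z x n 0 (by omega) (by rw [← hy]; omega)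
      have e3 := hrel n 0 (by omega) (by omega)
      rw [e2]
      rcases Nat.lt_or_ge n 17 with hn17 | hn17
      · rw [zword_phi_lt hn17]
        exact e3
      · rw [zword_phi_ge hn17]
        exact e3.trans _ _ _ (zword_bulk T hT z (by omega) (by omega))
  · rw [zword_phi_ge h17]
    have e1 := zword_right T hT (q := q) h17
    have hrel : ∀ n k, n < q + 4 → y + 4 = (n : ℕ) + k * ((q + 4 : ℕ) : ℤ) →
        Relation.EqvGen (fun x y : ℕ => x < q + 4 ∧ y = T.zf (q + 4) z x) (x + 4) n := by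
      intro n k hn hk
      refine Relation.EqvGen.rel _ _ ⟨by omega, ?_⟩
      symm
      refine zword_zf T (q + 4) z (x + 4) n k hn ?_
      rw [e1, ← hk, hy]
      push_cast
      ring
    rcases lt_or_ge y q with hyq | hyq
    · obtain ⟨n, hn⟩ : ∃ n : ℕ, y = n := ⟨y.toNat, by omega⟩
      have e2 : T.zf q z x = n := zword_zf T q z x n 0 (by omega) (by rw [← hy]; omega)
      have e3 := hrel (n + 4) 0 (by omega) (by push_cast; omega)
      rw [e2]
      rcases Nat.lt_or_ge n 17 with hn17 | hn17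
      · rw [zword_phi_lt hn17]
        exact e3.trans _ _ _ (zword_bulk T hT z (by omega) (by omega)).symm
      · rw [zword_phi_ge hn17]
        exact e3
    · obtain ⟨n, hn⟩ : ∃ n : ℕ, y - q = n := ⟨(y - q).toNat, by omega⟩
      have e2 : T.zf q z x = n := zword_zf T q z x n 1 (by omega) (by rw [← hy]; omega)
      rw [e2, zword_phi_lt (by omega)]
      exact hrel n 1 (by omega) (by push_cast; omega)

theorem zcon_step (T : Tab w) (hT : T.Std) (q : ℕ) (hq : 35 ≤ q) (h : T.ZCon q) :
    T.ZCon (q + 4) := by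
  intro z a ha
  have hmap : ∀ x y : ℕ, Relation.EqvGen (fun x y : ℕ => x < q ∧ y = T.zf q z x) x y →
      Relation.EqvGen (fun x y : ℕ => x < q + 4 ∧ y = T.zf (q + 4) z x)
        (zword_phi x) (zword_phi y) := by
    intro x y hxy
    induction hxy with
    | rel x y hxy =>
      obtain ⟨h1, rfl⟩ := hxy
      exact zword_claim T hT q hq z x h1
    | refl x => exact Relation.EqvGen.refl _
    | symm x y _ ih => exact ih.symm
    | trans x y t _ _ ih1 ih2 => exact ih1.trans _ _ _ ih2
  have h0 : ∀ b, b < q → Relation.EqvGen (fun x y : ℕ => x < q + 4 ∧ y = T.zf (q + 4) z x)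
      0 (zword_phi b) := fun b hb => hmap 0 b (h z b hb)
  rcases Nat.lt_or_ge a 17 with h1 | h1
  · have h2 := h0 a (by omega)
    rwa [zword_phi_lt h1] at h2
  · rcases Nat.lt_or_ge a 21 with h2 | h2
    · have h3 := h0 (a - 4) (by omega)
      rw [zword_phi_lt (by omega)] at h3
      have h4 := zword_bulk T hT (Q := q + 4) (a := a - 4) z (by omega) (by omega)
      have e : a - 4 + 4 = a := by omega
      rw [e] at h4
      exact h3.trans _ _ _ h4
    · have h3 := h0 (a - 4) (by omega)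
      rw [zword_phi_ge (by omega)] at h3
      have e : a - 4 + 4 = a := by omega
      rwa [e] at h3

end

end Pool.Agent.W_MP_43c969_h13
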