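import Pool.Agent.W_MP_43c969_h13.WinDefs
import Pool.Agent.W_MP_43c969_h13.WinBool
import Pool.Agent.W_MP_43c969_h13.WinTab
import Pool.Agent.W_MP_43c969_h13.WinWord
import Pool.Agent.W_MP_43c969_h13.WinZWord
import Pool.Agent.W_MP_43c969_h13.WinFace

/-!
# Task WinCert: a finite certificate for a table

`certB T odd cz qm fl pinned` checks, by evaluation:
* `stdB T`;
* `lokB` for all rows, for `q = qm, qm + 4, …` up to `29`;
* `zcycB` for `q = qm, qm + 4, …` up to `38`;
* the flags of the seams are exactly in `fl`, there is no flag in the periodic part;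
* the chain condition of the face for `q = qm, …` up to `15`;
* the pins.

`cert_ok`: for every `q ≥ qm` with `q % 4 = qm % 4` the table satisfies `OK` at `q`: for `q ≤ 29`
(resp. `38`) by evaluation (`okB_sound` and its parts), then by induction with `lok_step`
(`q ≥ 26`), `zcon_step` (`q ≥ 35`).

`cert_face`: `FaceOK`. `chain`: for `q ≤ 15` by evaluation, then by induction: the elements of `fl`
have a first component `j` between `-6` and `6` (`flB`), and `wordZ (q + 4) j = wordZ q j` for
`12 ≤ q` (`wordZ_left`, `6 < q - 5`); `nextArc R e` only uses `R e.1`. `tabD_cast` translates.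
`flags`: the row `a` of `ZMod q` is in the left seam (`a.val = i`, `T.L[i]`), in the right seam
(`T.Rt[i]`, `i = q - a.val - 1`, so `a` is the class of `-1 - i`) or in the periodic part.

`cert_pin`: `tabD T L 0` is the first row of `T.L`; the other rows are other elements of `T.L`,
elements of `T.Rt` or `T.B i`.
-/

set_option autoImplicit false

namespace Pool.Agent.W_MP_43c969_h13

open Equiv

section
variable {w : ℕ}

/-- the numbers `m, m + 4, …` not larger than `n`. -/
def steps4 (m n : ℕ) : List ℕ := (List.range (n + 1)).filter (fun q => Nat.ble m q &&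
  Nat.beq (q % 4) (m % 4))

/-- all the window arcs of a row. -/
def allArc (f : Fin 5 ⊕ Fin w → Bool) : Bool :=
  allF 5 (fun s => f (Sum.inl s)) && allF w (fun z => f (Sum.inr z))

/-- is the arc `(j, α)` in the list? -/
def inFl (fl : List (ℤ × (Fin 5 ⊕ Fin w))) (j : ℤ) (α : Fin 5 ⊕ Fin w) : Bool :=
  fl.any (fun e => eqArc e (j, α))

/-- conditions on the list which do not depend on `q`. -/
def flB (T : Tab w) (fl : List (ℤ × (Fin 5 ⊕ Fin w))) : Bool :=
  Nat.ble 1 fl.length && decide ((fget fl 0).1 = 0) &&
  (List.range fl.length).all (fun i => (List.range fl.length).all (fun i' =>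
    (Nat.beq i i' || !(eqArc (fget fl i) (fget fl i'))) &&
    decide ((fget fl i).1 - (fget fl i').1 ≤ 6))) &&
  (List.range fl.length).all (fun i => bd6 (fget fl i).1) &&
  (List.range T.L.length).all (fun i => match T.L[i]? with
    | none => true
    | some r => allArc (fun α => !(r.flag α) || inFl fl (i : ℤ) α)) &&
  (List.range T.Rt.length).all (fun i => match T.Rt[i]? with
    | none => true
    | some r => allArc (fun α => !(r.flag α) || inFl fl (-1 - (i : ℤ)) α)) &&
  allF 4 (fun i => allArc (fun α => !((T.B i).flag α)))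

/-- the chain condition. -/
def chB (T : Tab w) (fl : List (ℤ × (Fin 5 ⊕ Fin w))) (q : ℕ) : Bool :=
  (List.range fl.length).all (fun i =>
    eqArc (nextArc (fun j => T.wordZ q j) (fget fl i)) (fget fl ((i + 1) % fl.length)))

/-- only the first row can be pinned. -/
def pinB (T : Tab w) (pinned : Bool) : Bool :=
  (match T.L with
    | [] => false
    | r :: l => (r.pin == pinned) && l.all (fun r => !r.pin)) &&
  T.Rt.all (fun r => !r.pin) && allF 4 (fun i => !(T.B i).pin)

/-- the complete certificate without the face. -/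
def certB (T : Tab w) (odd : Bool) (cz : Fin w → Bool) (qm : ℕ) (pinned : Bool) : Bool :=
  Nat.ble 7 qm && Nat.ble qm 11 && stdB T &&
  (steps4 qm 29).all (fun q => (List.range q).all
    (fun a => lokB odd cz (fun j => T.wordZ q (a + j)))) &&
  (steps4 qm 38).all (fun q => zcycB T q) && pinB T pinned

/-- the certificate of the face. -/
def faceB (T : Tab w) (qm : ℕ) (fl : List (ℤ × (Fin 5 ⊕ Fin w))) : Bool :=
  Nat.ble 7 qm && Nat.ble qm 11 && flB T fl && (steps4 qm 15).all (fun q => chB T fl q)

/-- no bad arc at all. -/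
def noflB (T : Tab w) : Bool :=
  T.L.all (fun r => allArc (fun α => !(r.flag α))) &&
  T.Rt.all (fun r => allArc (fun α => !(r.flag α))) &&
  allF 4 (fun i => allArc (fun α => !((T.B i).flag α)))

theorem mem_steps4 {m n q : ℕ} (h1 : m ≤ q) (h2 : q ≤ n) (h3 : q % 4 = m % 4) :
    q ∈ steps4 m n := by
  unfold steps4
  rw [List.mem_filter, List.mem_range, Bool.and_eq_true]
  exact ⟨by omega, by rw [Nat.ble_eq]; exact h1, by rw [Nat.beq_eq]; exact h3⟩

theorem cert_ok (T : Tab w) (odd : Bool) (cz : Fin w → Bool) (qm : ℕ) (pinned : Bool)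
    (h : certB T odd cz qm pinned = true) (q : ℕ) (hq : qm ≤ q) (hq4 : q % 4 = qm % 4) :
    T.OK odd cz q := by
  unfold certB at h
  simp only [Bool.and_eq_true] at h
  obtain ⟨⟨⟨⟨⟨h7, h11⟩, hs⟩, hl⟩, hz⟩, _⟩ := h
  have hqm : 7 ≤ qm := by rwa [Nat.ble_eq] at h7
  have hqm' : qm ≤ 11 := by rwa [Nat.ble_eq] at h11
  have hS := stdB_sound T hs
  rw [List.all_eq_true] at hl hz
  have key : ∀ n : ℕ, ∀ q : ℕ, q ≤ n → qm ≤ q → q % 4 = qm % 4 →
      (∀ a : ℕ, a < q → LOK odd cz (fun j => T.wordZ q (a + j))) ∧ T.ZCon q := by
    intro n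
    induction n with
    | zero => intro q h0 h1 _; omega
    | succ n ih =>
      intro q h0 h1 h2
      constructor
      · by_cases h29 : q ≤ 29
        · intro a ha
          have h3 := hl q (mem_steps4 h1 h29 h2)
          rw [List.all_eq_true] at h3
          exact lokB_sound odd cz _ (h3 a (List.mem_range.2 ha))
        · have h3 := (ih (q - 4) (by omega) (by omega) (by omega)).1
          have h4 := lok_step T hS.hL hS.hR odd cz (q - 4) (by omega) h3
          have h5 : q - 4 + 4 = q := by omega
          rw [h5] at h4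
          exact h4
      · by_cases h38 : q ≤ 38
        · exact zcycB_sound T q (by omega) (hz q (mem_steps4 h1 h38 h2))
        · have h3 := (ih (q - 4) (by omega) (by omega) (by omega)).2
          have h4 := zcon_step T hS (q - 4) (by omega) h3
          have h5 : q - 4 + 4 = q := by omega
          rw [h5] at h4
          exact h4
  exact key q q le_rfl hq hq4

end

end Pool.Agent.W_MP_43c969_h13
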