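import Pool.Agent.W_MP_43c969_h13.Defs

/-!
# Task Cyc: insertions of a point in a cycle, merging two cycles

All types are finite. Useful in Mathlib: `Equiv.Perm.SameCycle`, `sameCycle_apply_right`,
`Equiv.Perm.SameCycle.trans`, `SameCycle.exists_pow_eq'`, `Equiv.swap_apply_def`,
`Equiv.optionCongr`.

Method. For `insert_*`: if `f t = t`, then `g = f * swap u t` sends `u` to `t`, `t` to `f u` and
every other `x` to `f x`. So a step `x → f x` of `f` with `x ≠ t` is one step (or two, when
`x = u`) of `g`; conversely one step of `g` between points different from `t` is a step of `f`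
(and `t` is crossed in two steps).  For `merge_*`: if `a`, `b` are in different cycles of `f`, then
`f * swap a b` joins these two cycles: following `f * swap a b` from `a` we get
`f b, f (f b), …, b` and then `f a, …, a`.
-/

set_option autoImplicit false

namespace Pool.Agent.W_MP_43c969_h13

open Equiv

section
variable {X : Type*} [Finite X] [DecidableEq X]

omit [DecidableEq X] in
/-- A relation containing all the steps contains the cycle relation. -/
theorem cyc_of_step (f : Perm X) (R : X → X → Prop) (hR : Equivalence R) (h : ∀ x, R x (f x))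
    (x y : X) (hxy : f.SameCycle x y) : R x y := by
  obtain ⟨n, rfl⟩ := hxy.exists_nat_pow_eq
  induction n with
  | zero => exact hR.refl x
  | succ n ih =>
    have h1 : f.SameCycle x ((f ^ n) x) := ⟨n, by simp⟩
    rw [pow_succ', Perm.mul_apply]
    exact hR.trans (ih h1) (h _)

omit [Finite X] [DecidableEq X] in
theorem cyc_step (f : Perm X) (x : X) : f.SameCycle x (f x) :=
  Perm.sameCycle_apply_right.2 (Perm.SameCycle.refl f x)

/-- Inserting the fixed point `t` after `u` does not change the relation between old points. -/
theorem insert_sameCycle_iff (f : Perm X) (t u : X) (ht : f t = t) (x y : X) (hx : x ≠ t)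
    (hy : y ≠ t) : (f * swap u t).SameCycle x y ↔ f.SameCycle x y := by
  by_cases hut : u = t
  · subst hut
    rw [swap_self]
    change (f * 1).SameCycle x y ↔ f.SameCycle x y
    rw [mul_one]
  have gu : (f * swap u t) u = t := by rw [Perm.mul_apply, swap_apply_left, ht]
  have gt : (f * swap u t) t = f u := by rw [Perm.mul_apply, swap_apply_right]
  have gx : ∀ z, z ≠ u → z ≠ t → (f * swap u t) z = f z := by
    intro z h1 h2
    rw [Perm.mul_apply, swap_apply_of_ne_of_ne h1 h2]
  have hft : ∀ z, z ≠ t → f z ≠ t := by
    intro z hz h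
    exact hz (f.injective (h.trans ht.symm))
  constructor
  · intro h
    have h1 := cyc_of_step (f * swap u t)
      (fun x y => f.SameCycle (if x = t then u else x) (if y = t then u else y))
      ⟨fun x => Perm.SameCycle.refl _ _, fun h => h.symm, fun h h' => h.trans h'⟩ ?_ x y h
    · simpa only [if_neg hx, if_neg hy] using h1
    · intro z
      by_cases hzt : z = t
      · subst hzt
        rw [gt, if_pos rfl, if_neg (hft u hut)]
        exact cyc_step f u
      · by_cases hzu : z = u
        · subst hzu
          rw [gu, if_neg hzt, if_pos rfl]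
        · rw [gx z hzu hzt, if_neg hzt, if_neg (hft z hzt)]
          exact cyc_step f z
  · intro h
    refine cyc_of_step f (fun x y => (f * swap u t).SameCycle x y)
      ⟨fun x => Perm.SameCycle.refl _ _, fun h => h.symm, fun h h' => h.trans h'⟩ ?_ x y h
    intro z
    by_cases hzt : z = t
    · subst hzt
      change (f * swap u z).SameCycle z (f z)
      rw [ht]
    · by_cases hzu : z = u
      · subst hzu
        have e1 := cyc_step (f * swap z t) z
        have e2 := cyc_step (f * swap z t) t
        rw [gu] at e1
        rw [gt] at e2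
        exact e1.trans e2
      · have e1 := cyc_step (f * swap u t) z
        rw [gx z hzu hzt] at e1
        exact e1

/-- the inserted point is in the cycle of `u`. -/
theorem insert_sameCycle (f : Perm X) (t u : X) (ht : f t = t) :
    (f * swap u t).SameCycle u t := by
  have e1 := cyc_step (f * swap u t) u
  rw [Perm.mul_apply, swap_apply_left, ht] at e1
  exact e1

theorem insert_TrOn (f : Perm X) (t u : X) (ht : f t = t) (S : Set X) (htS : t ∉ S) (hu : u ∈ S)
    (h : TrOn f S) : TrOn (f * swap u t) (insert t S) := by
  have hne : ∀ z ∈ S, z ≠ t := fun z hz h => htS (h ▸ hz)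
  have key : ∀ z ∈ insert t S, (f * swap u t).SameCycle u z := by
    intro z hz
    rcases hz with hz | hz
    · rw [hz]
      exact insert_sameCycle f t u ht
    · exact (insert_sameCycle_iff f t u ht u z (hne u hu) (hne z hz)).2 (h u hu z hz)
  intro x hx y hy
  exact (key x hx).symm.trans (key y hy)

/-- Merging two different cycles. -/
theorem merge_sameCycle (f : Perm X) (a b : X) (hab : ¬ f.SameCycle a b) (x y : X)
    (hx : f.SameCycle x a ∨ f.SameCycle x b) (hy : f.SameCycle y a ∨ f.SameCycle y b) :
    (f * swap a b).SameCycle x y := by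
  have key : ∀ (f : Perm X) (a b : X), ¬ f.SameCycle a b → ∀ z, f.SameCycle z a →
      (f * swap a b).SameCycle z a := by
    intro f a b hab z hz
    obtain ⟨n, hn⟩ := hz.exists_nat_pow_eq
    induction n generalizing z with
    | zero =>
      have : z = a := by simpa using hn
      rw [this]
    | succ n ih =>
      by_cases hza : z = a
      · rw [hza]
      have hzb : z ≠ b := by
        intro h
        rw [h] at hz
        exact hab hz.symm
      have h1 : (f ^ n) (f z) = a := by
        rw [pow_succ, Perm.mul_apply] at hn
        exact hn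
      have h2 := ih (f z) (Perm.sameCycle_apply_left.2 hz) h1
      have e1 := cyc_step (f * swap a b) z
      rw [Perm.mul_apply, swap_apply_of_ne_of_ne hza hzb] at e1
      exact e1.trans h2
  have ka := key f a b hab
  have kb : ∀ z, f.SameCycle z b → (f * swap a b).SameCycle z b := by
    have := key f b a (fun h => hab h.symm)
    rw [swap_comm] at this
    exact this
  have hba : (f * swap a b).SameCycle a b := by
    have e1 := cyc_step (f * swap a b) a
    rw [Perm.mul_apply, swap_apply_left] at e1
    exact e1.trans (kb (f b) (Perm.sameCycle_apply_left.2 (Perm.SameCycle.refl f b)))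
  have all : ∀ z, f.SameCycle z a ∨ f.SameCycle z b → (f * swap a b).SameCycle z a := by
    intro z hz
    rcases hz with hz | hz
    · exact ka z hz
    · exact (kb z hz).trans hba.symm
  exact (all x hx).trans (all y hy).symm

theorem merge_Tr (f : Perm X) (a b : X) (hab : ¬ f.SameCycle a b)
    (h : ∀ c, f.SameCycle c a ∨ f.SameCycle c b) : Tr (f * swap a b) := by
  intro x y
  exact merge_sameCycle f a b hab x y (h x) (h y)

theorem Two.not_same {f : Perm X} (h : Two f) (a : X) :
    ∃ b, ¬ f.SameCycle a b ∧ ∀ c, f.SameCycle c a ∨ f.SameCycle c b := by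
  obtain ⟨a0, b0, h0, h1⟩ := h
  rcases h1 a with ha | ha
  · refine ⟨b0, fun h => h0 (ha.symm.trans h), fun c => ?_⟩
    rcases h1 c with hc | hc
    · exact Or.inl (hc.trans ha.symm)
    · exact Or.inr hc
  · refine ⟨a0, fun h => h0 (h.symm.trans ha), fun c => ?_⟩
    rcases h1 c with hc | hc
    · exact Or.inr hc
    · exact Or.inl (hc.trans ha.symm)

theorem Two.merge {f : Perm X} (h : Two f) (a b : X) (hab : ¬ f.SameCycle a b) :
    Tr (f * swap a b) := by
  obtain ⟨b', hb', hc⟩ := Two.not_same h a
  refine merge_Tr f a b hab (fun c => ?_)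
  rcases hc c with h1 | h1
  · exact Or.inl h1
  · rcases hc b with h2 | h2
    · exact absurd h2.symm hab
    · exact Or.inr (h1.trans h2.symm)

theorem Tr.inv {f : Perm X} (h : Tr f) : Tr f⁻¹ := by
  intro x y
  exact Perm.sameCycle_inv.2 (h x y)

theorem Two.inv {f : Perm X} (h : Two f) : Two f⁻¹ := by
  obtain ⟨a, b, h0, h1⟩ := h
  exact ⟨a, b, fun h => h0 (Perm.sameCycle_inv.1 h),
    fun c => (h1 c).imp Perm.sameCycle_inv.2 Perm.sameCycle_inv.2⟩

/-- Insertion when all the other points are in one cycle. -/
theorem cyc_insert_Tr (F : Perm X) (t u : X) (ht : F t = t) (hut : u ≠ t)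
    (h : ∀ x y, x ≠ t → y ≠ t → F.SameCycle x y) : Tr (F * swap u t) := by
  have h1 := insert_TrOn F t u ht {x | x ≠ t} (fun h => h rfl) hut (fun x hx y hy => h x y hx hy)
  have h2 : ∀ z : X, z ∈ insert t {x | x ≠ t} := by
    intro z
    by_cases hz : z = t
    · exact Or.inl hz
    · exact Or.inr hz
  intro x y
  exact h1 x (h2 x) y (h2 y)

/-- Insertion when the other points form two cycles. -/
theorem cyc_insert_Two (F : Perm X) (t u : X) (ht : F t = t) (hut : u ≠ t) (a b : X)
    (ha : a ≠ t) (hb : b ≠ t) (hab : ¬ F.SameCycle a b)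
    (h : ∀ c, c ≠ t → F.SameCycle c a ∨ F.SameCycle c b) : Two (F * swap u t) := by
  have h0 := insert_sameCycle_iff F t u ht
  have hu := insert_sameCycle F t u ht
  refine ⟨a, b, fun h' => hab ((h0 a b ha hb).1 h'), fun c => ?_⟩
  by_cases hc : c = t
  · rw [hc]
    rcases h u hut with h' | h'
    · exact Or.inl (hu.symm.trans ((h0 u a hut ha).2 h'))
    · exact Or.inr (hu.symm.trans ((h0 u b hut hb).2 h'))
  · rcases h c hc with h' | h'
    · exact Or.inl ((h0 c a hc ha).2 h')
    · exact Or.inr ((h0 c b hc hb).2 h')

omit [Finite X] [DecidableEq X] in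
theorem cyc_option_pow (f : Perm X) (n : ℕ) (x : X) :
    ((optionCongr f : Perm (Option X)) ^ n) (some x) = some ((f ^ n) x) := by
  induction n with
  | zero => simp
  | succ n ih =>
    rw [pow_succ', Perm.mul_apply, ih, pow_succ', Perm.mul_apply]
    rfl

omit [DecidableEq X] in
theorem cyc_option_iff (f : Perm X) (x y : X) :
    Perm.SameCycle (optionCongr f) (some x) (some y) ↔ f.SameCycle x y := by
  constructor
  · intro h
    obtain ⟨n, hn⟩ := h.exists_nat_pow_eq
    rw [cyc_option_pow] at hn
    exact ⟨n, by simpa using hn⟩
  · intro h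
    obtain ⟨n, hn⟩ := h.exists_nat_pow_eq
    refine ⟨n, ?_⟩
    rw [zpow_natCast, cyc_option_pow, hn]

omit [Finite X] [DecidableEq X] in
theorem cyc_option_ne (x : Option X) (hx : x ≠ none) : ∃ y, x = some y :=
  Option.ne_none_iff_exists'.1 hx

/-- `none` is inserted after `some a`. -/
def colE (f : Perm X) (a : X) : Perm (Option X) := optionCongr f * swap (some a) none

/-- `none` is inserted before `some a`. -/
def colO (f : Perm X) (a : X) : Perm (Option X) := swap (some a) none * optionCongr f

/-- `none` takes the place of `some a`, which becomes a fixed point. -/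
def colT (f : Perm X) (a : X) : Perm (Option X) :=
  swap (some a) none * optionCongr f * swap (some a) none

omit [Finite X] in
theorem colO_eq_inv (f : Perm X) (a : X) : colO f a = (colE f⁻¹ a)⁻¹ := by
  have h1 : (optionCongr f⁻¹ : Perm (Option X))⁻¹ = optionCongr f := by
    ext z
    rcases z with _ | z
    · rfl
    · rfl
  rw [colO, colE, mul_inv_rev, h1, swap_inv]

omit [Finite X] in
theorem colT_apply_self (f : Perm X) (a : X) : colT f a (some a) = some a := by
  rw [colT, Perm.mul_apply, Perm.mul_apply, swap_apply_left]
  change swap (some a) none none = some a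
  rw [swap_apply_right]

omit [Finite X] in
theorem colT_same_iff (f : Perm X) (a : X) (x y : Option X) :
    (colT f a).SameCycle x y ↔
      Perm.SameCycle (optionCongr f) (swap (some a) none x) (swap (some a) none y) := by
  have h := Perm.sameCycle_conj (f := optionCongr f)
    (g := swap (some a) none) (x := x) (y := y)
  rw [swap_inv] at h
  exact h

omit [Finite X] in
theorem colT_swap_ne (a : X) (x : Option X) (hx : x ≠ some a) :
    swap (some a) none x ≠ none := by
  intro h
  apply hx
  have h1 := congrArg (swap (some a) none) h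
  rw [swap_apply_self, swap_apply_right] at h1
  exact h1

theorem colE_Tr {f : Perm X} (h : Tr f) (a : X) : Tr (colE f a) := by
  refine cyc_insert_Tr (optionCongr f) none (some a) rfl (by simp) ?_
  intro x y hx hy
  obtain ⟨x', rfl⟩ := cyc_option_ne x hx
  obtain ⟨y', rfl⟩ := cyc_option_ne y hy
  exact (cyc_option_iff f x' y').2 (h x' y')

theorem colO_Tr {f : Perm X} (h : Tr f) (a : X) : Tr (colO f a) := by
  rw [colO_eq_inv]
  exact (colE_Tr h.inv a).inv

theorem colE_Two {f : Perm X} (h : Two f) (a : X) : Two (colE f a) := by
  obtain ⟨b, c, h0, h1⟩ := h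
  refine cyc_insert_Two (optionCongr f) none (some a) rfl (by simp) (some b) (some c) (by simp)
    (by simp) (fun h => h0 ((cyc_option_iff f b c).1 h)) ?_
  intro x hx
  obtain ⟨x', rfl⟩ := cyc_option_ne x hx
  exact (h1 x').imp (cyc_option_iff f x' b).2 (cyc_option_iff f x' c).2

theorem colO_Two {f : Perm X} (h : Two f) (a : X) : Two (colO f a) := by
  rw [colO_eq_inv]
  exact (colE_Two h.inv a).inv

/-- The two points `some a`, `none` are both in the cycle of `a` for `colE`, `colO`; the relation
between old points does not change. -/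
theorem colE_same_iff (f : Perm X) (a x y : X) :
    (colE f a).SameCycle (some x) (some y) ↔ f.SameCycle x y := by
  rw [← cyc_option_iff f x y]
  exact insert_sameCycle_iff (optionCongr f) none (some a) rfl (some x) (some y) (by simp)
    (by simp)

theorem colO_same_iff (f : Perm X) (a x y : X) :
    (colO f a).SameCycle (some x) (some y) ↔ f.SameCycle x y := by
  rw [colO_eq_inv, Perm.sameCycle_inv, colE_same_iff, Perm.sameCycle_inv]

/-- After `colT`, inserting `some a` after any other point `c` gives back one cycle. -/
theorem colT_insert_Tr {f : Perm X} (h : Tr f) (a : X) (c : Option X) (hc : c ≠ some a) :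
    Tr (colT f a * swap c (some a)) := by
  refine cyc_insert_Tr (colT f a) (some a) c (colT_apply_self f a) hc ?_
  intro x y hx hy
  rw [colT_same_iff]
  obtain ⟨x', hx'⟩ := cyc_option_ne _ (colT_swap_ne a x hx)
  obtain ⟨y', hy'⟩ := cyc_option_ne _ (colT_swap_ne a y hy)
  rw [hx', hy']
  exact (cyc_option_iff f x' y').2 (h x' y')

theorem colT_insert_Two {f : Perm X} (h : Two f) (a : X) (c : Option X) (hc : c ≠ some a) :
    Two (colT f a * swap c (some a)) := by
  obtain ⟨b, d, h0, h1⟩ := h
  have hsw : ∀ z : X, swap (some a) none (swap (some a) none (some z)) = some z := fun z =>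
    swap_apply_self _ _ _
  have hne : ∀ z : X, swap (some a) none (some z) ≠ some a := by
    intro z hz
    have h2 := congrArg (swap (some a) none) hz
    rw [hsw, swap_apply_left] at h2
    exact absurd h2 (by simp)
  refine cyc_insert_Two (colT f a) (some a) c (colT_apply_self f a) hc
    (swap (some a) none (some b)) (swap (some a) none (some d)) (hne b) (hne d) ?_ ?_
  · rw [colT_same_iff, hsw, hsw]
    exact fun h => h0 ((cyc_option_iff f b d).1 h)
  · intro x hx
    rw [colT_same_iff, colT_same_iff, hsw, hsw]
    obtain ⟨x', hx'⟩ := cyc_option_ne _ (colT_swap_ne a x hx)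
    rw [hx']
    exact (h1 x').imp (cyc_option_iff f x' b).2 (cyc_option_iff f x' d).2

end

end Pool.Agent.W_MP_43c969_h13
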