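import Pool.Agent.W_MP_43c969_h13.Defs
import Pool.Agent.W_MP_43c969_h13.Cyc
import Pool.Agent.W_MP_43c969_h13.Basic

/-!
# Task Merge: exchanging two images in one column, or in one row

`colSwap E v a d`: the rotation of the column `v` is multiplied by `swap a d`. If `(a, x)`, `(d, y)`
are the arcs of the rows `a`, `d` ending at `v`, then the new `phi` exchanges the images of these
two arcs and agrees with the old `phi` elsewhere. If the face of `(a, x)` has `k` arcs, `(d, y)` is
not in this face and `(d, y)` is in a quadrilateral, then the new face of `(a, x)` has `k + 2` arcs: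
`(a, x), phi (d, y), (d, y), phi (a, x), …`. The new column `v` is one cycle if the old one had two
cycles, one containing `a` and the other containing `d`.

`rowSwap E a x y`: the rotation of the row `a` is multiplied by `swap x y`; the new `phi` exchanges
the images of the arcs `(a, x)` and `(a, y)`.
-/

set_option autoImplicit false

namespace Pool.Agent.W_MP_43c969_h13

open Equiv

variable {P N : Type*} [DecidableEq P] [DecidableEq N]

def colSwap (E : Emb P N) (v : N) (a d : P) : Emb P N where
  rho := E.rho
  pi x := if x = v then E.pi v * swap a d else E.pi x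

def rowSwap (E : Emb P N) (a : P) (x y : N) : Emb P N where
  rho b := if b = a then E.rho a * swap x y else E.rho b
  pi := E.pi

theorem colSwap_phi_a (E : Emb P N) (v : N) (a d : P) (x y : N) (hx : E.rho a x = v)
    (hy : E.rho d y = v) : (colSwap E v a d).phi (a, x) = E.phi (d, y) := by
  simp only [Emb.phi, colSwap, hx, hy, if_true, Perm.mul_apply, swap_apply_left]

theorem colSwap_phi_d (E : Emb P N) (v : N) (a d : P) (x y : N) (hx : E.rho a x = v)
    (hy : E.rho d y = v) : (colSwap E v a d).phi (d, y) = E.phi (a, x) := by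
  simp only [Emb.phi, colSwap, hx, hy, if_true, Perm.mul_apply, swap_apply_right]

theorem colSwap_phi_other (E : Emb P N) (v : N) (a d : P) (x y : N) (hx : E.rho a x = v)
    (hy : E.rho d y = v) (e : P × N) (h1 : e ≠ (a, x)) (h2 : e ≠ (d, y)) :
    (colSwap E v a d).phi e = E.phi e := by
  obtain ⟨b, z⟩ := e
  by_cases hv : E.rho b z = v
  · have hba : b ≠ a := by
      rintro rfl
      apply h1
      rw [(E.rho b).injective (hv.trans hx.symm)]
    have hbd : b ≠ d := by
      rintro rfl
      apply h2
      rw [(E.rho b).injective (hv.trans hy.symm)]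
    simp only [Emb.phi, colSwap, hv, if_true, Perm.mul_apply, swap_apply_of_ne_of_ne hba hbd]
  · simp only [Emb.phi, colSwap, if_neg hv]

theorem rowSwap_phi (E : Emb P N) (a : P) (x y : N) :
    (rowSwap E a x y).phi (a, x) = E.phi (a, y) ∧ (rowSwap E a x y).phi (a, y) = E.phi (a, x) ∧
    ∀ e, e ≠ (a, x) → e ≠ (a, y) → (rowSwap E a x y).phi e = E.phi e := by
  refine ⟨?_, ?_, ?_⟩
  · simp only [Emb.phi, rowSwap, if_true, Perm.mul_apply, swap_apply_left]
  · simp only [Emb.phi, rowSwap, if_true, Perm.mul_apply, swap_apply_right]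
  · rintro ⟨b, z⟩ h1 h2
    by_cases hb : b = a
    · subst hb
      have hzx : z ≠ x := by
        rintro rfl
        exact h1 rfl
      have hzy : z ≠ y := by
        rintro rfl
        exact h2 rfl
      simp only [Emb.phi, rowSwap, if_true, Perm.mul_apply, swap_apply_of_ne_of_ne hzx hzy]
    · simp only [Emb.phi, rowSwap, if_neg hb]

/-- Merging a quadrilateral into a face with `k` arcs, at a column with two cycles. -/
theorem colSwap_face (E : Emb P N) (v : N) (a d : P) (x y : N) (k : ℕ) (hk : 2 ≤ k)
    (hx : E.rho a x = v) (hy : E.rho d y = v) (hf : E.FaceAt (a, x) k)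
    (hd : ∀ i, i < k → (d, y) ≠ E.phi^[i] (a, x)) (hne : E.phi (d, y) ≠ (d, y)) :
    (colSwap E v a d).FaceAt (a, x) (k + 2) ∧
    (colSwap E v a d).phi (a, x) = E.phi (d, y) ∧
    (colSwap E v a d).phi (E.phi (d, y)) = (d, y) ∧
    (∀ i, 1 ≤ i → i < k → (colSwap E v a d).phi^[i + 2] (a, x) = E.phi^[i] (a, x)) := by
  obtain ⟨hk1, hcl, hdist, hgood⟩ := hf
  have ha := colSwap_phi_a E v a d x y hx hy
  have hdd := colSwap_phi_d E v a d x y hx hy
  have hoth := colSwap_phi_other E v a d x y hx hy
  have hinj := E.phi_injective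
  set f' := (colSwap E v a d).phi with hf'
  have hgd : E.phi (E.phi (d, y)) = (d, y) := hgood (d, y) hd
  have h0 : (d, y) ≠ (a, x) := hd 0 (by omega)
  have h1 : E.phi (d, y) ≠ (a, x) := by
    intro h
    have h2 := hd 1 (by omega)
    apply h2
    rw [Function.iterate_one, ← h, hgd]
  have h2 : f' (E.phi (d, y)) = (d, y) := by
    rw [hoth _ h1 hne, hgd]
  have key : ∀ i, 1 ≤ i → i < k → f'^[i + 2] (a, x) = E.phi^[i] (a, x) := by
    intro i hi
    induction i, hi using Nat.le_induction with
    | base =>
      intro _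
      rw [Function.iterate_succ_apply', Function.iterate_succ_apply', Function.iterate_one, ha, h2,
        hdd, Function.iterate_one]
    | succ i hi ih =>
      intro hik
      rw [show i + 1 + 2 = (i + 2) + 1 from rfl, Function.iterate_succ_apply', ih (by omega),
        Function.iterate_succ_apply']
      apply hoth
      · exact (hdist 0 i (by omega) (by omega)).symm
      · exact (hd i (by omega)).symm
  have e1 : f'^[1] (a, x) = E.phi (d, y) := by rw [Function.iterate_one, ha]
  have e2 : f'^[2] (a, x) = (d, y) := by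
    rw [show 2 = 1 + 1 from rfl, Function.iterate_succ_apply', e1, h2]
  have hclose : f'^[k + 2] (a, x) = (a, x) := by
    obtain ⟨m, rfl⟩ : ∃ m, k = m + 1 := ⟨k - 1, by omega⟩
    rw [show m + 1 + 2 = (m + 2) + 1 from rfl, Function.iterate_succ_apply',
      key m (by omega) (by omega)]
    have h3 : f' (E.phi^[m] (a, x)) = E.phi (E.phi^[m] (a, x)) := by
      apply hoth
      · exact (hdist 0 m (by omega) (by omega)).symm
      · exact (hd m (by omega)).symm
    rw [Function.iterate_succ_apply'] at hcl
    rw [h3, hcl]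
  have hd1 : ∀ j, 1 ≤ j → j < k → E.phi (d, y) ≠ E.phi^[j] (a, x) := by
    intro j hj hjk h3
    obtain ⟨m, rfl⟩ : ∃ m, j = m + 1 := ⟨j - 1, by omega⟩
    rw [Function.iterate_succ_apply'] at h3
    exact hd m (by omega) (hinj h3)
  refine ⟨⟨by omega, hclose, ?_, ?_⟩, ha, h2, key⟩
  · intro i j hij hjk
    change f'^[i] (a, x) ≠ f'^[j] (a, x)
    -- the position `j`
    rcases Nat.lt_or_ge j 3 with hj3 | hj3
    · have hj : j = 1 ∨ j = 2 := by omega
      rcases hj with rfl | rfl
      · have hi : i = 0 := by omega
        subst hi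
        rw [e1, Function.iterate_zero, id]
        exact h1.symm
      · have hi : i = 0 ∨ i = 1 := by omega
        rcases hi with rfl | rfl
        · rw [e2, Function.iterate_zero, id]
          exact h0.symm
        · rw [e1, e2]
          exact hne
    · obtain ⟨m, rfl⟩ : ∃ m, j = m + 2 := ⟨j - 2, by omega⟩
      rw [key m (by omega) (by omega)]
      rcases Nat.lt_or_ge i 3 with hi3 | hi3
      · have hi : i = 0 ∨ i = 1 ∨ i = 2 := by omega
        rcases hi with rfl | rfl | rfl
        · exact hdist 0 m (by omega) (by omega)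
        · rw [e1]
          exact hd1 m (by omega) (by omega)
        · rw [e2]
          exact hd m (by omega)
      · obtain ⟨l, rfl⟩ : ∃ l, i = l + 2 := ⟨i - 2, by omega⟩
        rw [key l (by omega) (by omega)]
        exact hdist l m (by omega) (by omega)
  · intro e he
    change f' (f' e) = e
    have g0 : e ≠ (a, x) := he 0 (by omega)
    have g1 : e ≠ E.phi (d, y) := by
      have := he 1 (by omega)
      change e ≠ f'^[1] (a, x) at this
      rwa [e1] at this
    have g2 : e ≠ (d, y) := by
      have := he 2 (by omega)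
      change e ≠ f'^[2] (a, x) at this
      rwa [e2] at this
    have g3 : ∀ i, i < k → e ≠ E.phi^[i] (a, x) := by
      intro i hi
      rcases Nat.eq_zero_or_pos i with rfl | hi0
      · exact g0
      · have := he (i + 2) (by omega)
        change e ≠ f'^[i + 2] (a, x) at this
        rwa [key i hi0 hi] at this
    have hg : E.phi (E.phi e) = e := hgood e g3
    rw [hoth e g0 g2]
    have g4 : E.phi e ≠ (a, x) := by
      intro h
      obtain ⟨m, rfl⟩ : ∃ m, k = m + 1 := ⟨k - 1, by omega⟩
      rw [Function.iterate_succ_apply'] at hcl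
      exact g3 m (by omega) (hinj (h.trans hcl.symm))
    have g5 : E.phi e ≠ (d, y) := by
      intro h
      exact g1 (hinj (h.trans hgd.symm))
    rw [hoth _ g4 g5, hg]

/-- A permutation with one cycle on at least two elements has no fixed point. -/
theorem tr_ne {X : Type*} (hN : 2 ≤ Nat.card X) {f : Perm X} (h : Tr f) (w : X) : f w ≠ w := by
  intro hw
  have h1 : ∀ z, z = w := by
    intro z
    obtain ⟨n, hn⟩ := h w z
    rw [← hn]
    exact Equiv.Perm.zpow_apply_eq_self_of_apply_eq_self hw n
  have h2 : Nat.card X ≤ 1 := by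
    have _hs : Subsingleton X := ⟨fun z z' => (h1 z).trans (h1 z').symm⟩
    exact Finite.card_le_one_iff_subsingleton.2 inferInstance
  omega

/-- If `v` is a column with two cycles and the face of `(a, x)`, with `rho a x = v`, has `k` arcs
(`2 ≤ k`) all other arcs being good, and the rows of the arcs of this face which end in `v` are
all in the cycle of `a`, then merging with any row `d` of the other cycle of the column `v`
gives an embedding with all columns one cycle and one special face with `k + 2` arcs. -/
theorem merge_pinched [Finite P] [Finite N] (E : Emb P N) (v : N) (a d : P) (x : N) (k : ℕ)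
    (hk : 2 ≤ k)
    (hrow : E.RowsTr) (hcol : ∀ w, w ≠ v → Tr (E.pi w)) (htwo : Two (E.pi v))
    (hx : E.rho a x = v) (hf : E.FaceAt (a, x) k) (hd : ¬ (E.pi v).SameCycle a d)
    (hcyc : ∀ i, i < k → E.rho (E.phi^[i] (a, x)).1 (E.phi^[i] (a, x)).2 = v →
      (E.pi v).SameCycle a (E.phi^[i] (a, x)).1)
    (hN : 2 ≤ Nat.card N) :
    (colSwap E v a d).RowsTr ∧ (colSwap E v a d).ColsTr ∧
    (colSwap E v a d).FaceAt (a, x) (k + 2) ∧ (∀ y z, E.Cov y z → (colSwap E v a d).Cov y z) := by
  have hfix : ∀ (b : P) (w : N), E.rho b w ≠ w := fun b w => tr_ne hN (hrow b) w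
  obtain ⟨y, hy⟩ := (E.rho d).surjective v
  have h1 : ∀ i, i < k → (d, y) ≠ E.phi^[i] (a, x) := by
    intro i hi h
    have h2 := hcyc i hi (by rw [← h]; exact hy)
    rw [← h] at h2
    exact hd h2
  have h2 : E.phi (d, y) ≠ (d, y) := by
    intro h
    have h3 : E.rho d y = y := congrArg Prod.snd h
    exact hfix d y h3
  have h3 := colSwap_face E v a d x y k hk hx hy hf h1 h2
  refine ⟨hrow, ?_, h3.1, ?_⟩
  · intro w
    by_cases hw : w = v
    · subst hw
      have h4 : (colSwap E w a d).pi w = E.pi w * swap a d := by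
        simp only [colSwap, if_true]
      rw [h4]
      exact htwo.merge a d hd
    · have h4 : (colSwap E v a d).pi w = E.pi w := by
        simp only [colSwap, if_neg hw]
      rw [h4]
      exact hcol w hw
  · intro z w h
    exact h

/-- From a pinched embedding to one with four bad arcs. -/
theorem PSt.st {P N : Type*} [Finite P] [Finite N] {C : N → N → Prop} (h : PSt P N C)
    (hN : 2 ≤ Nat.card N) : St P N C 4 := by
  classical
  obtain ⟨E, v, hrow, hcol, htwo, hgood, hcov⟩ := h
  have hfix : ∀ (b : P) (w : N), E.rho b w ≠ w := fun b w => tr_ne hN (hrow b) w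
  obtain ⟨a, b, hab, _⟩ := id htwo
  obtain ⟨x, hx⟩ := (E.rho a).surjective v
  have hf : E.FaceAt (a, x) 2 := E.faceAt_two hgood (a, x) (hfix a x)
  have h1 := merge_pinched E v a b x 2 le_rfl hrow hcol htwo hx hf hab (by
    intro i hi _
    have hi2 : i = 0 ∨ i = 1 := by omega
    rcases hi2 with rfl | rfl
    · exact Perm.SameCycle.refl _ _
    · rw [Function.iterate_one]
      change (E.pi v).SameCycle a (E.pi (E.rho a x) a)
      rw [hx]
      exact (Perm.sameCycle_apply_right).2 (Perm.SameCycle.refl _ _)) hN
  obtain ⟨h2, h3, h4, h5⟩ := h1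
  exact ⟨colSwap E v a b, h2, h3, Emb.FaceAt.bound _ h4, fun z w hzw => h5 z w (hcov z w hzw)⟩

end Pool.Agent.W_MP_43c969_h13
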