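import Pool.Agent.W_MP_43c969_h13.Defs
import Pool.Agent.W_MP_43c969_h13.Cyc
import Pool.Agent.W_MP_43c969_h13.Basic

/-!
# Task Insert: inserting a missing incidence

The incidence `(s, t)` is missing: `rho s t = t` and `pi t s = s`. We insert the column `t` in the
row `s` after `u` and the row `s` in the column `t` after `c`. The map `phi` of the new embedding
agrees with the old one except:
`phi' (s, u) = (pi t c, t)`, which is the old `phi (c, v)` where `rho c v = t`;
`phi' (c, v) = (s, t)`; `phi' (s, t) = phi (s, u)`.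

`ins_face`: if the three first arcs of the face are `(s, u)`, `(c, w)`, `(c', t)` (so `w = rho s u`,
`rho c w = t`, `c' = pi t c`) then after the insertion the arcs `(s, t)`, `(c, w)` form a
quadrilateral and the face of `(s, u)` has one arc less (`(s, u)` is followed by `(c', t)`).

`ins_face_merge`: if `(s, u)` and `(c, v)` are in two different quadrilaterals, they are merged and
we get a face with `5` arcs.
-/

set_option autoImplicit false

namespace Pool.Agent.W_MP_43c969_h13

open Equiv

variable {P N : Type*} [DecidableEq P] [DecidableEq N]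

/-- insert the column `t` in the row `s` after `u`, and the row `s` in the column `t` after `c`. -/
def insEmb (E : Emb P N) (s : P) (t u : N) (c : P) : Emb P N where
  rho b := if b = s then E.rho s * swap u t else E.rho b
  pi x := if x = t then E.pi t * swap c s else E.pi x

section
variable (E : Emb P N) (s : P) (t u : N) (c : P) (h1 : E.rho s t = t) (h2 : E.pi t s = s)
  (hu : u ≠ t) (hc : c ≠ s)

include h1 h2 hu hc

theorem ins_phi_su : (insEmb E s t u c).phi (s, u) = (E.pi t c, t) := by
  have e1 : (insEmb E s t u c).rho s u = t := by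
    simp [insEmb, h1]
  have e2 : (insEmb E s t u c).pi t s = E.pi t c := by
    simp [insEmb]
  simp only [Emb.phi, e1, e2]

theorem ins_phi_st : (insEmb E s t u c).phi (s, t) = E.phi (s, u) := by
  have e1 : (insEmb E s t u c).rho s t = E.rho s u := by
    simp [insEmb]
  have e3 : E.rho s u ≠ t := by
    intro h
    exact hu ((E.rho s).injective (h.trans h1.symm))
  have e2 : (insEmb E s t u c).pi (E.rho s u) = E.pi (E.rho s u) := by
    simp [insEmb, e3]
  simp only [Emb.phi, e1, e2]

theorem ins_phi_cv (v : N) (hv : E.rho c v = t) : (insEmb E s t u c).phi (c, v) = (s, t) := by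
  have e1 : (insEmb E s t u c).rho c v = t := by
    simp [insEmb, hc, hv]
  have e2 : (insEmb E s t u c).pi t c = s := by
    simp [insEmb, h2]
  simp only [Emb.phi, e1, e2]

theorem ins_phi_other (e : P × N) (he1 : e ≠ (s, u)) (he2 : e ≠ (s, t))
    (he3 : ¬ (e.1 = c ∧ E.rho c e.2 = t)) : (insEmb E s t u c).phi e = E.phi e := by
  obtain ⟨a, x⟩ := e
  have e1 : (insEmb E s t u c).rho a x = E.rho a x := by
    by_cases ha : a = s
    · subst ha
      have hxu : x ≠ u := fun h => he1 (by rw [h])
      have hxt : x ≠ t := fun h => he2 (by rw [h])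
      simp [insEmb, swap_apply_of_ne_of_ne hxu hxt]
    · simp [insEmb, ha]
  have e2 : (insEmb E s t u c).pi (E.rho a x) a = E.pi (E.rho a x) a := by
    by_cases hx : E.rho a x = t
    · have has : a ≠ s := by
        intro h
        subst h
        exact he2 (by rw [(E.rho a).injective (hx.trans h1.symm)])
      have hac : a ≠ c := by
        intro h
        subst h
        exact he3 ⟨rfl, hx⟩
      rw [hx]
      simp [insEmb, swap_apply_of_ne_of_ne hac has]
    · simp [insEmb, hx]
  simp only [Emb.phi, e1, e2]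

/-- the arc `(s, t)` is fixed by the old `phi` -/
theorem ins_old_fix : E.phi (s, t) = (s, t) := by
  simp only [Emb.phi, h1, h2]

end

/-- The inserted edge cuts a quadrilateral off the special face. Here `k + 1` is the length of the
face before the insertion, and `k ≥ 2`. -/
theorem ins_face (E : Emb P N) (s : P) (t u : N) (k : ℕ) (hk : 2 ≤ k) (h1 : E.rho s t = t)
    (h2 : E.pi t s = s) (hu : u ≠ t) (hf : E.FaceAt (s, u) (k + 1))
    (ht : (E.phi^[2] (s, u)).2 = t) :
    (E.phi (s, u)).1 ≠ s ∧
    (insEmb E s t u (E.phi (s, u)).1).FaceAt (s, u) k ∧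
    (∀ i, 1 ≤ i → i < k →
      (insEmb E s t u (E.phi (s, u)).1).phi^[i] (s, u) = E.phi^[i + 1] (s, u)) := by
  obtain ⟨c, hc0⟩ : ∃ c, c = (E.phi (s, u)).1 := ⟨_, rfl⟩
  obtain ⟨w, hw0⟩ : ∃ w, w = (E.phi (s, u)).2 := ⟨_, rfl⟩
  have hcw : E.phi (s, u) = (c, w) := by rw [hc0, hw0]
  have hw : w = E.rho s u := by rw [hw0]; rfl
  have hct : E.rho c w = t := by
    rw [← ht]
    change E.rho c w = (E.phi (E.phi (s, u))).2
    rw [hcw]
    rfl
  obtain ⟨hk1, hk2, hk3, hk4⟩ := hf
  have hcs : c ≠ s := by
    intro h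
    rw [h] at hct
    have h3 : w = t := (E.rho s).injective (hct.trans h1.symm)
    rw [hw] at h3
    exact hu ((E.rho s).injective (h3.trans h1.symm))
  have hfix := ins_old_fix E s t u c h1 h2 hu hcs
  have hsu := ins_phi_su E s t u c h1 h2 hu hcs
  have hst := ins_phi_st E s t u c h1 h2 hu hcs
  have hcv := ins_phi_cv E s t u c h1 h2 hu hcs w hct
  have hoth := ins_phi_other E s t u c h1 h2 hu hcs
  have hE1 : E.phi^[1] (s, u) = (c, w) := hcw
  have hE2 : E.phi^[2] (s, u) = (E.pi t c, t) := by
    change E.phi (E.phi (s, u)) = _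
    rw [hcw]
    simp only [Emb.phi, hct]
  have hsucc : ∀ i, E.phi (E.phi^[i] (s, u)) = E.phi^[i + 1] (s, u) := fun i =>
    (Function.iterate_succ_apply' _ _ _).symm
  -- distinctness in the old face
  have hne : ∀ i j, i ≤ k → j ≤ k → E.phi^[i] (s, u) = E.phi^[j] (s, u) → i = j := by
    intro i j hi hj hij
    rcases Nat.lt_trichotomy i j with h | h | h
    · exact absurd hij (hk3 i j h (by omega))
    · exact h
    · exact absurd hij.symm (hk3 j i h (by omega))
  -- (s, t) is not in the old face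
  have hstf : ∀ i, i ≤ k → E.phi^[i] (s, u) ≠ (s, t) := by
    intro i hi h
    have h3 : E.phi^[i + 1] (s, u) = E.phi^[i] (s, u) := by
      rw [← hsucc, h, hfix]
    rcases Nat.lt_or_ge i k with h4 | h4
    · have := hne (i + 1) i (by omega) hi h3
      omega
    · have h5 : i = k := by omega
      subst h5
      rw [hk2] at h3
      have := hne 0 i (by omega) (by omega) h3
      omega
  have hcwu : ∀ e : P × N, e.1 = c → E.rho c e.2 = t → e = (c, w) := by
    rintro ⟨a, x⟩ ha hx
    simp only at ha hx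
    rw [ha, (E.rho c).injective (hx.trans hct.symm)]
  -- the new face
  have hnew : ∀ i, 1 ≤ i → i ≤ k → (insEmb E s t u c).phi^[i] (s, u) = E.phi^[i + 1] (s, u) := by
    intro i hi
    induction i, hi using Nat.le_induction with
    | base =>
      intro _
      rw [Function.iterate_one, hsu, hE2]
    | succ i hi ih =>
      intro hik
      rw [Function.iterate_succ_apply', ih (by omega), ← hsucc (i + 1)]
      apply hoth
      · intro h
        have := hne (i + 1) 0 (by omega) (by omega) h
        omega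
      · exact hstf (i + 1) (by omega)
      · rintro ⟨h3, h4⟩
        have h5 := hcwu _ h3 h4
        rw [← hE1] at h5
        have := hne (i + 1) 1 (by omega) (by omega) h5
        omega
  rw [← hc0]
  refine ⟨hcs, ⟨by omega, ?_, ?_, ?_⟩, fun i hi1 hi2 => hnew i hi1 (by omega)⟩
  · rw [hnew k (by omega) le_rfl, hk2]
  · intro i j hij hjk
    rcases Nat.eq_zero_or_pos i with h | h
    · subst h
      rw [hnew j (by omega) (by omega)]
      intro h3
      have := hne 0 (j + 1) (by omega) (by omega) h3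
      omega
    · rw [hnew i h (by omega), hnew j (by omega) (by omega)]
      intro h3
      have := hne (i + 1) (j + 1) (by omega) (by omega) h3
      omega
  · intro e he
    by_cases h3 : e = (c, w)
    · rw [h3]
      change (insEmb E s t u c).phi ((insEmb E s t u c).phi (c, w)) = (c, w)
      rw [hcv, hst, hcw]
    by_cases h4 : e = (s, t)
    · rw [h4]
      change (insEmb E s t u c).phi ((insEmb E s t u c).phi (s, t)) = (s, t)
      rw [hst, hcw, hcv]
    have hout : ∀ i, i < k + 1 → e ≠ E.phi^[i] (s, u) := by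
      intro i hi h
      rcases Nat.eq_zero_or_pos i with h5 | h5
      · subst h5
        exact he 0 (by omega) h
      · rcases Nat.lt_or_ge 1 i with h6 | h6
        · obtain ⟨j, rfl⟩ : ∃ j, i = j + 1 := ⟨i - 1, by omega⟩
          rw [← hnew j (by omega) (by omega)] at h
          exact he j (by omega) h
        · have h7 : i = 1 := by omega
          subst h7
          exact h3 (h.trans hE1)
    have hg := hk4 e hout
    have e1 : (insEmb E s t u c).phi e = E.phi e := by
      apply hoth
      · exact hout 0 (by omega)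
      · exact h4
      · rintro ⟨h5, h6⟩
        exact h3 (hcwu _ h5 h6)
    have e2 : (insEmb E s t u c).phi (E.phi e) = E.phi (E.phi e) := by
      apply hoth
      · intro h
        rw [← hk2, ← hsucc] at h
        exact hout k (by omega) (E.phi_injective h)
      · intro h
        rw [← hfix] at h
        exact h4 (E.phi_injective h)
      · rintro ⟨h5, h6⟩
        have h7 := hcwu _ h5 h6
        rw [← hcw] at h7
        exact hout 0 (by omega) (E.phi_injective h7)
    change (insEmb E s t u c).phi ((insEmb E s t u c).phi e) = e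
    rw [e1, e2]
    exact hg

/-- Insertion joining two quadrilaterals. -/
theorem ins_face_merge (E : Emb P N) (s : P) (t u v : N) (c : P) (h1 : E.rho s t = t)
    (h2 : E.pi t s = s) (hu : u ≠ t) (hc : c ≠ s) (hv : E.rho c v = t)
    (hg : E.AllGood) (hne : E.phi (s, u) ≠ (s, u)) (hne' : E.phi (c, v) ≠ (c, v))
    (hd1 : (c, v) ≠ (s, u)) (hd2 : (c, v) ≠ E.phi (s, u)) :
    (insEmb E s t u c).FaceAt (s, u) 5 := by
  have hfix := ins_old_fix E s t u c h1 h2 hu hc
  have hsu := ins_phi_su E s t u c h1 h2 hu hc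
  have hst := ins_phi_st E s t u c h1 h2 hu hc
  have hcv := ins_phi_cv E s t u c h1 h2 hu hc v hv
  have hoth := ins_phi_other E s t u c h1 h2 hu hc
  have hinj := E.phi_injective
  have hgg : ∀ e, E.phi (E.phi e) = e := hg
  have hcvu : ∀ e : P × N, e.1 = c → E.rho c e.2 = t → e = (c, v) := by
    rintro ⟨a, x⟩ ha hx
    simp only at ha hx
    rw [ha, (E.rho c).injective (hx.trans hv.symm)]
  obtain ⟨f0, hf0⟩ : ∃ f0, f0 = ((s, u) : P × N) := ⟨_, rfl⟩
  obtain ⟨f1, hf1⟩ : ∃ f1, f1 = E.phi f0 := ⟨_, rfl⟩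
  obtain ⟨g0, hg0⟩ : ∃ g0, g0 = ((c, v) : P × N) := ⟨_, rfl⟩
  obtain ⟨g1, hg1⟩ : ∃ g1, g1 = E.phi g0 := ⟨_, rfl⟩
  obtain ⟨q, hq⟩ : ∃ q, q = ((s, t) : P × N) := ⟨_, rfl⟩
  have hg1' : g1 = (E.pi t c, t) := by
    rw [hg1, hg0]
    simp only [Emb.phi, hv]
  rw [← hf0, ← hg1'] at hsu
  rw [← hq, ← hf0, ← hf1] at hst
  rw [← hg0, ← hq] at hcv
  rw [← hq] at hfix
  rw [← hf0] at hne
  rw [← hg0] at hne'
  rw [← hf0, ← hg0] at hd1 hd2
  rw [← hf1] at hne hd2
  rw [← hg1] at hne'
  have hff : E.phi f1 = f0 := by rw [hf1, hgg]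
  have hgg1 : E.phi g1 = g0 := by rw [hg1, hgg]
  have n1 : f0 ≠ g1 := by
    intro h
    apply hd2
    rw [hf1, h, hgg1]
  have n2 : f1 ≠ g1 := by
    intro h
    apply hd1
    rw [← hgg1, ← h, hff]
  have n3 : f0 ≠ q := by
    intro h
    apply hne
    rw [hf1, h, hfix]
  have n4 : f1 ≠ q := by
    intro h
    apply n3
    rw [← hff, h, hfix]
  have n5 : g0 ≠ q := by
    intro h
    apply hne'
    rw [hg1, h, hfix]
  have n6 : g1 ≠ q := by
    intro h
    apply n5
    rw [← hgg1, h, hfix]
  have hoth' : ∀ e, e ≠ f0 → e ≠ q → e ≠ g0 → (insEmb E s t u c).phi e = E.phi e := by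
    intro e he1 he2 he3
    apply hoth
    · rwa [← hf0]
    · rwa [← hq]
    · rintro ⟨h5, h6⟩
      apply he3
      rw [hg0]
      exact hcvu _ h5 h6
  have p2 : (insEmb E s t u c).phi g1 = g0 := by
    rw [hoth' g1 n1.symm n6 hne', hgg1]
  have p5 : (insEmb E s t u c).phi f1 = f0 := by
    rw [hoth' f1 hne n4 hd2.symm, hff]
  rw [← hf0]
  have q0 : (insEmb E s t u c).phi^[0] f0 = f0 := rfl
  have q1 : (insEmb E s t u c).phi^[1] f0 = g1 := hsu
  have q2 : (insEmb E s t u c).phi^[2] f0 = g0 := by
    rw [Function.iterate_succ_apply', q1, p2]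
  have q3 : (insEmb E s t u c).phi^[3] f0 = q := by
    rw [Function.iterate_succ_apply', q2, hcv]
  have q4 : (insEmb E s t u c).phi^[4] f0 = f1 := by
    rw [Function.iterate_succ_apply', q3, hst]
  have q5 : (insEmb E s t u c).phi^[5] f0 = f0 := by
    rw [Function.iterate_succ_apply', q4, p5]
  refine ⟨by omega, q5, ?_, ?_⟩
  · intro i j hij hj
    have hcases : (i = 0 ∧ j = 1) ∨ (i = 0 ∧ j = 2) ∨ (i = 0 ∧ j = 3) ∨ (i = 0 ∧ j = 4) ∨
        (i = 1 ∧ j = 2) ∨ (i = 1 ∧ j = 3) ∨ (i = 1 ∧ j = 4) ∨ (i = 2 ∧ j = 3) ∨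
        (i = 2 ∧ j = 4) ∨ (i = 3 ∧ j = 4) := by omega
    rcases hcases with ⟨rfl, rfl⟩ | ⟨rfl, rfl⟩ | ⟨rfl, rfl⟩ | ⟨rfl, rfl⟩ | ⟨rfl, rfl⟩ |
      ⟨rfl, rfl⟩ | ⟨rfl, rfl⟩ | ⟨rfl, rfl⟩ | ⟨rfl, rfl⟩ | ⟨rfl, rfl⟩
    · rw [q0, q1]; exact n1
    · rw [q0, q2]; exact hd1.symm
    · rw [q0, q3]; exact n3
    · rw [q0, q4]; exact hne.symm
    · rw [q1, q2]; exact hne'
    · rw [q1, q3]; exact n6
    · rw [q1, q4]; exact n2.symm
    · rw [q2, q3]; exact n5
    · rw [q2, q4]; exact hd2
    · rw [q3, q4]; exact n4.symm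
  · intro e he
    have m0 : e ≠ f0 := by have := he 0 (by omega); rwa [q0] at this
    have m1 : e ≠ g1 := by have := he 1 (by omega); rwa [q1] at this
    have m2 : e ≠ g0 := by have := he 2 (by omega); rwa [q2] at this
    have m3 : e ≠ q := by have := he 3 (by omega); rwa [q3] at this
    have m4 : e ≠ f1 := by have := he 4 (by omega); rwa [q4] at this
    have e1 := hoth' e m0 m3 m2
    have e2 : (insEmb E s t u c).phi (E.phi e) = E.phi (E.phi e) := by
      apply hoth'
      · intro h
        rw [← hff] at h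
        exact m4 (hinj h)
      · intro h
        rw [← hfix] at h
        exact m3 (hinj h)
      · intro h
        rw [← hgg1] at h
        exact m1 (hinj h)
    change (insEmb E s t u c).phi ((insEmb E s t u c).phi e) = e
    rw [e1, e2, hgg]

end Pool.Agent.W_MP_43c969_h13
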