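import Pool.Agent.W_MP_43c969_h13.Defs
import Pool.Agent.W_MP_43c969_h13.Cyc

/-!
# Task Split: splitting a row into two rows

Let `a` be a row of `E`, `ρ = E.rho a`. Let `S`, `Z` be disjoint sets of columns with
`ρ x ∉ S ∪ Z` for `x ∈ S`. Put `O = ρ(S)` (so `x ∈ O ↔ ρ⁻¹ x ∈ S`; by the hypothesis `O` is
disjoint from `S ∪ Z`), and let `T` be the set of the remaining columns. `κ` is a permutation of
the columns which fixes every point outside `S ∪ Z`, and `θ` exchanges `x` and `ρ x` for `x ∈ S`
and fixes all the other points.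

The new embedding has rows `Option P`: `some b` (`b ≠ a`) is the old row `b`, and `a` is replaced
by the two rows `some a` with rotation `κ⁻¹ * θ` and `none` with rotation `ρ * κ`. In the column
`x` the new row `none` is put just after `some a` if `x ∈ S ∪ Z` (`colE`), just before `some a` if
`x ∈ O` (`colO`), and in the place of `some a` if `x ∈ T` (`colT`; then `some a` is a fixed point
of the column `x`, and `x` is a fixed point of the row `some a`: the incidence is missing).

`tau` sends an old arc to the arc of the new embedding which replaces it: `(b, x) ↦ (some b, x)`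
for `b ≠ a`, `(a, x) ↦ (some a, x)` for `x ∈ S ∪ Z`, `(a, x) ↦ (none, x)` for the other `x`.

All the statements below are direct computations with these definitions:
* an arc `(b, x)` with `b ≠ a` and `y = rho b x`: if `pi y b = a` the next row is `some a` when
  `y ∈ S ∪ Z` and `none` otherwise, which is what `tau` says;
* `x ∈ S`: `κ⁻¹ (θ x) = θ x = ρ x ∈ O`, and in the column `ρ x` the row after `some a` is the old
  one; `x ∉ S ∪ Z`: `ρ (κ x) = ρ x ∉ O` and in the column `ρ x` the row after `none` is the old one;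
* `x ∈ S ∪ Z` with `κ x ∈ S`: the arc `(none, x)` goes to `y = ρ (κ x) ∈ O`, where the row after
  `none` is `some a`; the arc `(some a, y)` goes to `κ⁻¹ (θ y) = κ⁻¹ (κ x) = x`, where the row after
  `some a` is `none`. So these two arcs form a quadrilateral;
* `z ∈ Z`: `(some a, z) → (none, κ⁻¹ z) → tau (phi (a, z))`.
-/

set_option autoImplicit false

namespace Pool.Agent.W_MP_43c969_h13

open Equiv

variable {P N : Type*} [DecidableEq P] [DecidableEq N]

/-- The embedding obtained by splitting the row `a`. -/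
def splitEmb (E : Emb P N) (a : P) (S Z : Finset N) (κ θ : Perm N) : Emb (Option P) N where
  rho b := match b with
    | none => E.rho a * κ
    | some b => if b = a then κ⁻¹ * θ else E.rho b
  pi x := if x ∈ S ∨ x ∈ Z then colE (E.pi x) a
    else if (E.rho a)⁻¹ x ∈ S then colO (E.pi x) a else colT (E.pi x) a

/-- the arc of the new embedding which replaces an old arc. -/
def tau (a : P) (S Z : Finset N) (e : P × N) : Option P × N :=
  if e.1 = a then (if e.2 ∈ S ∨ e.2 ∈ Z then (some a, e.2) else (none, e.2)) else (some e.1, e.2)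

/-- The hypotheses on the data. -/
structure SplitHyp (ρ : Perm N) (S Z : Finset N) (κ θ : Perm N) : Prop where
  hS : ∀ x ∈ S, ρ x ∉ S ∧ ρ x ∉ Z
  hSZ : ∀ x ∈ Z, x ∉ S
  hκ : ∀ x, x ∉ S → x ∉ Z → κ x = x
  hθS : ∀ x ∈ S, θ x = ρ x ∧ θ (ρ x) = x
  hθ : ∀ x, x ∉ S → ρ⁻¹ x ∉ S → θ x = x

theorem split_colE_none (f : Perm P) (a : P) : colE f a none = some (f a) := by
  simp [colE]

theorem split_colE_self (f : Perm P) (a : P) : colE f a (some a) = none := by
  simp [colE]

theorem split_colE_other (f : Perm P) (a b : P) (hb : b ≠ a) :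
    colE f a (some b) = some (f b) := by
  have h1 : swap (some a) none (some b) = some b :=
    swap_apply_of_ne_of_ne (fun h => hb (Option.some.inj h)) (by simp)
  simp [colE, h1]

theorem split_swap_some (a c : P) :
    swap (some a) none (some c) = if c = a then none else some c := by
  by_cases hc : c = a
  · subst hc
    simp
  · rw [if_neg hc]
    exact swap_apply_of_ne_of_ne (fun h => hc (Option.some.inj h)) (by simp)

theorem split_colO_none (f : Perm P) (a : P) : colO f a none = some a := by
  simp [colO]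

theorem split_colO_some (f : Perm P) (a b : P) :
    colO f a (some b) = if f b = a then none else some (f b) := by
  simp only [colO, Perm.coe_mul, Function.comp_apply, optionCongr_apply, Option.map_some]
  exact split_swap_some a (f b)

theorem split_colT_self (f : Perm P) (a : P) : colT f a (some a) = some a := by
  simp [colT]

theorem split_colT_none (f : Perm P) (a : P) :
    colT f a none = if f a = a then none else some (f a) := by
  simp only [colT, Perm.coe_mul, Function.comp_apply, swap_apply_right, optionCongr_apply,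
    Option.map_some]
  exact split_swap_some a (f a)

theorem split_colT_other (f : Perm P) (a b : P) (hb : b ≠ a) :
    colT f a (some b) = if f b = a then none else some (f b) := by
  have h1 : swap (some a) none (some b) = some b :=
    swap_apply_of_ne_of_ne (fun h => hb (Option.some.inj h)) (by simp)
  simp only [colT, Perm.coe_mul, Function.comp_apply, h1, optionCongr_apply, Option.map_some]
  exact split_swap_some a (f b)

section
variable (E : Emb P N) (a : P) (S Z : Finset N) (κ θ : Perm N)

theorem split_phi_none (x : N) : (splitEmb E a S Z κ θ).phi (none, x) =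
    ((splitEmb E a S Z κ θ).pi (E.rho a (κ x)) none, E.rho a (κ x)) := rfl

theorem split_rho_self (x : N) : (splitEmb E a S Z κ θ).rho (some a) x = κ⁻¹ (θ x) := by
  show (if a = a then κ⁻¹ * θ else E.rho a) x = _
  rw [if_pos rfl]
  rfl

theorem split_rho_other (b : P) (hb : b ≠ a) (x : N) :
    (splitEmb E a S Z κ θ).rho (some b) x = E.rho b x := by
  show (if b = a then κ⁻¹ * θ else E.rho b) x = _
  rw [if_neg hb]

theorem split_phi_self (x : N) : (splitEmb E a S Z κ θ).phi (some a, x) =
    ((splitEmb E a S Z κ θ).pi (κ⁻¹ (θ x)) (some a), κ⁻¹ (θ x)) := by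
  show ((splitEmb E a S Z κ θ).pi ((splitEmb E a S Z κ θ).rho (some a) x) (some a),
    (splitEmb E a S Z κ θ).rho (some a) x) = _
  rw [split_rho_self]

theorem split_phi_ne (b : P) (hb : b ≠ a) (x : N) : (splitEmb E a S Z κ θ).phi (some b, x) =
    ((splitEmb E a S Z κ θ).pi (E.rho b x) (some b), E.rho b x) := by
  show ((splitEmb E a S Z κ θ).pi ((splitEmb E a S Z κ θ).rho (some b) x) (some b),
    (splitEmb E a S Z κ θ).rho (some b) x) = _
  rw [split_rho_other E a S Z κ θ b hb]

theorem split_piE (x : N) (hx : x ∈ S ∨ x ∈ Z) :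
    (splitEmb E a S Z κ θ).pi x = colE (E.pi x) a := if_pos hx

theorem split_piO (x : N) (hx : ¬ (x ∈ S ∨ x ∈ Z)) (hx' : (E.rho a)⁻¹ x ∈ S) :
    (splitEmb E a S Z κ θ).pi x = colO (E.pi x) a := by
  show (if x ∈ S ∨ x ∈ Z then colE (E.pi x) a
    else if (E.rho a)⁻¹ x ∈ S then colO (E.pi x) a else colT (E.pi x) a) = _
  rw [if_neg hx, if_pos hx']

theorem split_piT (x : N) (hx : ¬ (x ∈ S ∨ x ∈ Z)) (hx' : (E.rho a)⁻¹ x ∉ S) :
    (splitEmb E a S Z κ θ).pi x = colT (E.pi x) a := by
  show (if x ∈ S ∨ x ∈ Z then colE (E.pi x) a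
    else if (E.rho a)⁻¹ x ∈ S then colO (E.pi x) a else colT (E.pi x) a) = _
  rw [if_neg hx, if_neg hx']

/-- the old row after `a`, when the new row is `none`. -/
theorem split_tau_none (c : P) (y : N) (hy : ¬ (y ∈ S ∨ y ∈ Z)) :
    tau a S Z (c, y) = (if c = a then none else some c, y) := by
  by_cases hc : c = a
  · simp only [tau, if_pos hc, if_neg hy]
  · simp only [tau, if_neg hc]

theorem split_tau_some (c : P) (y : N) (hy : y ∈ S ∨ y ∈ Z) :
    tau a S Z (c, y) = (some c, y) := by
  by_cases hc : c = a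
  · subst hc
    simp only [tau, if_pos hy, if_true]
  · simp only [tau, if_neg hc]

end

section
variable (E : Emb P N) (a : P) (S Z : Finset N) (κ θ : Perm N)
  (h : SplitHyp (E.rho a) S Z κ θ)

include h

theorem splitHyp_mem_iff (x : N) : (κ x ∈ S ∨ κ x ∈ Z) ↔ (x ∈ S ∨ x ∈ Z) := by
  constructor
  · intro hk
    by_contra hx
    push Not at hx
    rw [h.hκ x hx.1 hx.2] at hk
    rcases hk with hk | hk
    · exact hx.1 hk
    · exact hx.2 hk
  · intro hx
    by_contra hk
    push Not at hk
    have h1 := κ.injective (h.hκ (κ x) hk.1 hk.2)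
    rw [h1] at hk
    rcases hx with hx | hx
    · exact hk.1 hx
    · exact hk.2 hx

theorem splitHyp_inv_mem (x : N) (hx : x ∈ S ∨ x ∈ Z) : κ⁻¹ x ∈ S ∨ κ⁻¹ x ∈ Z := by
  rw [← splitHyp_mem_iff E a S Z κ θ h (κ⁻¹ x)]
  simpa using hx

theorem splitHyp_inv_fix (x : N) (hx : x ∉ S) (hx' : x ∉ Z) : κ⁻¹ x = x := by
  rw [Perm.inv_eq_iff_eq]
  exact (h.hκ x hx hx').symm

/-- arcs of the other rows. -/
theorem split_phi_other (b : P) (x : N) (hb : b ≠ a) :
    (splitEmb E a S Z κ θ).phi (some b, x) = tau a S Z (E.phi (b, x)) := by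
  rw [split_phi_ne E a S Z κ θ b hb]
  show _ = tau a S Z (E.pi (E.rho b x) b, E.rho b x)
  by_cases hy : E.rho b x ∈ S ∨ E.rho b x ∈ Z
  · rw [split_piE E a S Z κ θ _ hy, split_colE_other _ _ _ hb, split_tau_some a S Z _ _ hy]
  · rw [split_tau_none a S Z _ _ hy]
    by_cases hy' : (E.rho a)⁻¹ (E.rho b x) ∈ S
    · rw [split_piO E a S Z κ θ _ hy hy', split_colO_some]
    · rw [split_piT E a S Z κ θ _ hy hy', split_colT_other _ _ _ hb]

/-- arcs of the row `a` starting in `S`. -/
theorem split_phi_S (x : N) (hx : x ∈ S) :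
    (splitEmb E a S Z κ θ).phi (some a, x) = tau a S Z (E.phi (a, x)) := by
  have h1 := h.hS x hx
  have hy : ¬ (E.rho a x ∈ S ∨ E.rho a x ∈ Z) := by
    rintro (h2 | h2)
    · exact h1.1 h2
    · exact h1.2 h2
  rw [split_phi_self, (h.hθS x hx).1, splitHyp_inv_fix E a S Z κ θ h _ h1.1 h1.2,
    split_piO E a S Z κ θ _ hy (by simpa using hx), split_colO_some]
  show _ = tau a S Z (E.pi (E.rho a x) a, E.rho a x)
  rw [split_tau_none a S Z _ _ hy]

/-- the arcs of the row `none`, not starting in the preimage of `S`. -/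
theorem split_phi_none_tau (x : N) (hx : κ x ∉ S) :
    (splitEmb E a S Z κ θ).phi (none, x) = tau a S Z (E.phi (a, κ x)) := by
  rw [split_phi_none]
  show _ = tau a S Z (E.pi (E.rho a (κ x)) a, E.rho a (κ x))
  by_cases hy : E.rho a (κ x) ∈ S ∨ E.rho a (κ x) ∈ Z
  · rw [split_piE E a S Z κ θ _ hy, split_colE_none, split_tau_some a S Z _ _ hy]
  · rw [split_piT E a S Z κ θ _ hy (by simpa using hx), split_colT_none,
      split_tau_none a S Z _ _ hy]

/-- arcs of the row `a` starting outside `S ∪ Z`. -/
theorem split_phi_T (x : N) (hx : x ∉ S) (hx' : x ∉ Z) :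
    (splitEmb E a S Z κ θ).phi (none, x) = tau a S Z (E.phi (a, x)) := by
  have h1 := h.hκ x hx hx'
  rw [split_phi_none_tau E a S Z κ θ h x (by rwa [h1]), h1]

/-- the tracked arcs, except the arcs starting in `Z`. -/
theorem split_phi_tau (e : P × N) (he : ¬ (e.1 = a ∧ e.2 ∈ Z)) :
    (splitEmb E a S Z κ θ).phi (tau a S Z e) = tau a S Z (E.phi e) := by
  obtain ⟨b, x⟩ := e
  by_cases hb : b = a
  · subst hb
    have hz : x ∉ Z := fun hz => he ⟨rfl, hz⟩
    by_cases hx : x ∈ S
    · rw [split_tau_some b S Z _ _ (Or.inl hx)]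
      exact split_phi_S E b S Z κ θ h x hx
    · have hn : ¬ (x ∈ S ∨ x ∈ Z) := by
        rintro (h2 | h2)
        · exact hx h2
        · exact hz h2
      rw [split_tau_none b S Z _ _ hn, if_pos rfl]
      exact split_phi_T E b S Z κ θ h x hx hz
  · have : tau a S Z (b, x) = (some b, x) := by
      simp only [tau, if_neg hb]
    rw [this]
    exact split_phi_other E a S Z κ θ h b x hb

/-- new quadrilaterals. -/
theorem split_phi_new (x : N) (hx : x ∈ S ∨ x ∈ Z) (hx' : κ x ∈ S) :
    (splitEmb E a S Z κ θ).phi (none, x) = (some a, E.rho a (κ x)) ∧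
      (splitEmb E a S Z κ θ).phi (some a, E.rho a (κ x)) = (none, x) := by
  have h1 := h.hS _ hx'
  have hy : ¬ (E.rho a (κ x) ∈ S ∨ E.rho a (κ x) ∈ Z) := by
    rintro (h2 | h2)
    · exact h1.1 h2
    · exact h1.2 h2
  constructor
  · rw [split_phi_none, split_piO E a S Z κ θ _ hy (by simpa using hx'), split_colO_none]
  · have h2 : κ⁻¹ (θ (E.rho a (κ x))) = x := by
      rw [(h.hθS _ hx').2]
      simp
    rw [split_phi_self, h2, split_piE E a S Z κ θ _ hx, split_colE_self]

/-- the arcs of `Z` are replaced by two arcs. -/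
theorem split_phi_Z (z : N) (hz : z ∈ Z) :
    (splitEmb E a S Z κ θ).phi (some a, z) = (none, κ⁻¹ z) ∧
      (splitEmb E a S Z κ θ).phi (none, κ⁻¹ z) = tau a S Z (E.phi (a, z)) := by
  have h1 : θ z = z := by
    apply h.hθ z (h.hSZ z hz)
    intro h2
    have h3 := (h.hS _ h2).2
    apply h3
    simpa using hz
  constructor
  · rw [split_phi_self, h1, split_piE E a S Z κ θ _
      (splitHyp_inv_mem E a S Z κ θ h z (Or.inr hz)), split_colE_self]
  · have h2 : κ (κ⁻¹ z) = z := by simp
    rw [split_phi_none_tau E a S Z κ θ h (κ⁻¹ z) (by rw [h2]; exact h.hSZ z hz), h2]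

/-- missing incidences. -/
theorem split_missing (x : N) (hx : x ∉ S) (hx' : x ∉ Z) (hx'' : (E.rho a)⁻¹ x ∉ S) :
    (splitEmb E a S Z κ θ).rho (some a) x = x ∧
      (splitEmb E a S Z κ θ).pi x (some a) = some a := by
  have hn : ¬ (x ∈ S ∨ x ∈ Z) := by
    rintro (h2 | h2)
    · exact hx h2
    · exact hx' h2
  constructor
  · rw [split_rho_self, h.hθ x hx hx'', splitHyp_inv_fix E a S Z κ θ h x hx hx']
  · rw [split_piT E a S Z κ θ _ hn hx'', split_colT_self]

/-- Every arc of the new embedding is of one of the following kinds: a tracked arc, one of the two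
arcs of a new quadrilateral, the second arc of a path replacing an arc of `Z`, or a missing
incidence of the row `some a`. -/
theorem split_arc_cases (e : Option P × N) :
    (∃ f : P × N, e = tau a S Z f) ∨
    (∃ x, (x ∈ S ∨ x ∈ Z) ∧ κ x ∈ S ∧ (e = (none, x) ∨ e = (some a, E.rho a (κ x)))) ∨
    (∃ z ∈ Z, e = (none, κ⁻¹ z)) ∨
    (∃ x, x ∉ S ∧ x ∉ Z ∧ (E.rho a)⁻¹ x ∉ S ∧ e = (some a, x)) := by
  obtain ⟨b, x⟩ := e
  by_cases hx : x ∈ S ∨ x ∈ Z
  · cases b with
    | some b =>
      exact Or.inl ⟨(b, x), (split_tau_some a S Z b x hx).symm⟩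
    | none =>
      have h1 := (splitHyp_mem_iff E a S Z κ θ h x).mpr hx
      rcases h1 with h1 | h1
      · exact Or.inr (Or.inl ⟨x, hx, h1, Or.inl rfl⟩)
      · refine Or.inr (Or.inr (Or.inl ⟨κ x, h1, ?_⟩))
        simp
  · cases b with
    | none =>
      refine Or.inl ⟨(a, x), ?_⟩
      rw [split_tau_none a S Z _ _ hx, if_pos rfl]
    | some b =>
      by_cases hb : b = a
      · subst hb
        by_cases hx' : (E.rho b)⁻¹ x ∈ S
        · refine Or.inr (Or.inl ⟨κ⁻¹ ((E.rho b)⁻¹ x),
            splitHyp_inv_mem E b S Z κ θ h _ (Or.inl hx'), ?_, Or.inr ?_⟩)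
          · simpa using hx'
          · simp
        · push Not at hx
          exact Or.inr (Or.inr (Or.inr ⟨x, hx.1, hx.2, hx', rfl⟩))
      · refine Or.inl ⟨(b, x), ?_⟩
        rw [split_tau_none a S Z _ _ hx, if_neg hb]

end

theorem tau_injective (a : P) (S Z : Finset N) : Function.Injective (tau (P := P) a S Z) := by
  rintro ⟨b, x⟩ ⟨c, y⟩ hbc
  have key : ∀ (d : P) (z : N), (tau a S Z (d, z)).2 = z := by
    intro d z
    by_cases hz : z ∈ S ∨ z ∈ Z
    · rw [split_tau_some a S Z d z hz]
    · rw [split_tau_none a S Z d z hz]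
  have hxy : x = y := by
    rw [← key b x, ← key c y, hbc]
  subst hxy
  by_cases hz : x ∈ S ∨ x ∈ Z
  · rw [split_tau_some a S Z b x hz, split_tau_some a S Z c x hz] at hbc
    have h1 : some b = some c := congrArg Prod.fst hbc
    rw [Option.some.inj h1]
  · rw [split_tau_none a S Z b x hz, split_tau_none a S Z c x hz] at hbc
    have h1 : (if b = a then none else some b) = (if c = a then none else some c) :=
      congrArg Prod.fst hbc
    by_cases hb : b = a
    · by_cases hc : c = a
      · rw [hb, hc]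
      · rw [if_pos hb, if_neg hc] at h1
        exact absurd h1 (by simp)
    · by_cases hc : c = a
      · rw [if_neg hb, if_pos hc] at h1
        exact absurd h1 (by simp)
      · rw [if_neg hb, if_neg hc] at h1
        rw [Option.some.inj h1]

end Pool.Agent.W_MP_43c969_h13
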