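import Pool.Agent.W_MP_43c969_h13.Defs
import Pool.Agent.W_MP_43c969_h13.Cyc
import Pool.Agent.W_MP_43c969_h13.Split

/-!
# Task SplitCyc: the cycles of the two new rows

Let `ρ` be one cycle on the finite type `N` and `S` a set with `ρ x ∉ S` for `x ∈ S`, with an odd
number of elements. Let `κ` be the first return map of `ρ` to `S`, extended by the identity:
for `x ∈ S`, `κ x = ρ^j x` for the least `j ≥ 1` with `ρ^j x ∈ S`. Then `κ` is one cycle on `S`.

* `κ⁻¹ * θ`: for `x ∈ S` it sends `x` to `ρ x` and `ρ x` to `κ⁻¹ x`; so it is one cycle on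
  `S ∪ ρ(S)`.
* `ρ * κ`: start from `x ∈ S`; `ρ (κ x)`, and then it follows `ρ` until the next element of `S`,
  that is `κ (κ x)`. So the first return map of `ρ * κ` to `S` is `κ * κ`, which is one cycle on
  `S` because the number of elements of `S` is odd. Every element outside `S` reaches `S` by
  following `ρ` (which agrees with `ρ * κ` outside `S`). So `ρ * κ` is one cycle.

A possible way: label `N` by `ZMod n` so that `ρ` is `x ↦ x + 1` (or use the list of the elements
of `S` in cyclic order). The first return map can be built with `Nat.find` (for `x ∈ S` there is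
`j ≥ 1` with `ρ^j x = x ∈ S`); injectivity: if `ρ^i x = ρ^j y` with `i ≤ j`, then
`x = ρ^(j-i) y`, and minimality of `j` gives `j = i`.
-/

set_option autoImplicit false

namespace Pool.Agent.W_MP_43c969_h13

open Equiv

variable {N : Type*} [Fintype N] [DecidableEq N]

omit [Fintype N] [DecidableEq N] in
/-- following `ρ` through points outside `S` is following `ρ * κ`. -/
theorem splitCyc_follow (ρ κ : Perm N) (S : Finset N) (hκ : ∀ x, x ∉ S → κ x = x) (x : N)
    (j : ℕ) (h : ∀ i, i < j → (ρ ^ i) x ∉ S) : ((ρ * κ) ^ j) x = (ρ ^ j) x := by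
  induction j with
  | zero => rfl
  | succ j ih =>
    rw [pow_succ', Perm.mul_apply, ih (fun i hi => h i (by omega)), Perm.mul_apply,
      hκ _ (h j (Nat.lt_succ_self j)), pow_succ', Perm.mul_apply]

omit [DecidableEq N] in
theorem splitCyc_exists_pow (ρ : Perm N) (x y : N) (h : ρ.SameCycle x y) :
    ∃ k : ℕ, (ρ ^ k) x = y := by
  obtain ⟨k, _, hk⟩ := h.exists_pow_eq'
  exact ⟨k, hk⟩

/-- The first return map. -/
theorem first_return (ρ : Perm N) (hρ : Tr ρ) (S : Finset N) :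
    ∃ κ : Perm N, (∀ x, x ∉ S → κ x = x) ∧ (∀ x ∈ S, κ x ∈ S) ∧ TrOn κ (S : Set N) ∧
      (∀ x ∈ S, ∃ j : ℕ, 1 ≤ j ∧ κ x = (ρ ^ j) x ∧ ∀ i, 1 ≤ i → i < j → (ρ ^ i) x ∉ S) := by
  classical
  have hex : ∀ x ∈ S, ∃ j : ℕ, 1 ≤ j ∧ (ρ ^ j) x ∈ S := by
    intro x hx
    refine ⟨orderOf ρ, orderOf_pos ρ, ?_⟩
    rw [pow_orderOf_eq_one]; exact hx
  have hex2 : ∀ x ∈ S, ∃ j : ℕ, 1 ≤ j ∧ (ρ ^ j) x ∈ S ∧ ∀ i, 1 ≤ i → i < j → (ρ ^ i) x ∉ S := by
    intro x hx
    refine ⟨Nat.find (hex x hx), (Nat.find_spec (hex x hx)).1, (Nat.find_spec (hex x hx)).2, ?_⟩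
    intro i hi hij hiS
    exact Nat.find_min (hex x hx) hij ⟨hi, hiS⟩
  choose! j hj1 hj2 hj3 using hex2
  set k : N → N := fun x => if x ∈ S then (ρ ^ (j x)) x else x with hk
  have hkS : ∀ x ∈ S, k x = (ρ ^ (j x)) x := fun x hx => by rw [hk]; simp [hx]
  have hkn : ∀ x, x ∉ S → k x = x := fun x hx => by rw [hk]; simp [hx]
  have hkmem : ∀ x ∈ S, k x ∈ S := fun x hx => by rw [hkS x hx]; exact hj2 x hx
  -- injectivity on `S`
  have aux : ∀ x ∈ S, ∀ y ∈ S, j x ≤ j y → (ρ ^ (j x)) x = (ρ ^ (j y)) y → x = y := by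
    intro x hx y hy hle hxy
    have h1 : (ρ ^ (j y)) y = (ρ ^ (j x)) ((ρ ^ (j y - j x)) y) := by
      rw [← Perm.mul_apply, ← pow_add]
      congr 2; omega
    rw [h1] at hxy
    have h2 := (ρ ^ (j x)).injective hxy
    by_cases h3 : j y - j x = 0
    · rw [h3] at h2; simpa using h2
    · exfalso
      apply hj3 y hy (j y - j x) (by omega)
      · have := hj1 x hx; omega
      · rw [← h2]; exact hx
  have hinj : Function.Injective k := by
    intro x y hxy
    by_cases hx : x ∈ S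
    · by_cases hy : y ∈ S
      · rw [hkS x hx, hkS y hy] at hxy
        rcases le_total (j x) (j y) with h | h
        · exact aux x hx y hy h hxy
        · exact (aux y hy x hx h hxy.symm).symm
      · exfalso
        have h1 := hkmem x hx
        rw [hxy, hkn y hy] at h1
        exact hy h1
    · by_cases hy : y ∈ S
      · exfalso
        have h1 := hkmem y hy
        rw [← hxy, hkn x hx] at h1
        exact hx h1
      · rw [hkn x hx, hkn y hy] at hxy; exact hxy
  set κ : Perm N := Equiv.ofBijective k (Finite.injective_iff_bijective.1 hinj) with hκdef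
  have hκk : ∀ x, κ x = k x := fun x => rfl
  refine ⟨κ, fun x hx => hkn x hx, fun x hx => hkmem x hx, ?_, ?_⟩
  · -- one cycle on `S`
    have key : ∀ n : ℕ, ∀ x ∈ S, (ρ ^ n) x ∈ S → κ.SameCycle x ((ρ ^ n) x) := by
      intro n
      induction n using Nat.strong_induction_on with
      | _ n ih =>
        intro x hx hn
        rcases Nat.eq_zero_or_pos n with h0 | h0
        · subst h0; exact Perm.SameCycle.refl _ _
        · have hle : j x ≤ n := by
            by_contra hlt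
            exact hj3 x hx n h0 (by omega) hn
          have h1 : (ρ ^ n) x = (ρ ^ (n - j x)) (κ x) := by
            rw [hκk, hkS x hx, ← Perm.mul_apply, ← pow_add]
            congr 2; omega
          have h2 := ih (n - j x) (by have := hj1 x hx; omega) (κ x) (hkmem x hx)
            (by rw [← h1]; exact hn)
          rw [← h1] at h2
          exact Perm.sameCycle_apply_left.1 h2
    intro x hx y hy
    obtain ⟨n, hn⟩ := splitCyc_exists_pow ρ x y (hρ x y)
    rw [← hn]
    apply key n x hx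
    rw [hn]; exact hy
  · intro x hx
    exact ⟨j x, hj1 x hx, hkS x hx, hj3 x hx⟩

/-- The permutations used to split a row, `Z = ∅`. -/
theorem split_perm (ρ : Perm N) (hρ : Tr ρ) (S : Finset N) (hS : ∀ x ∈ S, ρ x ∉ S)
    (hodd : Odd S.card) :
    ∃ κ θ : Perm N, SplitHyp ρ S ∅ κ θ ∧ Tr (ρ * κ) ∧
      TrOn (κ⁻¹ * θ) {x | x ∈ S ∨ ρ⁻¹ x ∈ S} ∧
      (∀ x ∈ S, ∀ j : ℕ, 1 ≤ j → (∀ i, 1 ≤ i → i < j → (ρ ^ i) x ∉ S) → (ρ ^ j) x ∈ S →
        κ x = (ρ ^ j) x) := by
  classical
  obtain ⟨κ, hκn, hκS, hκT, hκj⟩ := first_return ρ hρ S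
  have hne : S.Nonempty := by
    rw [← Finset.card_pos]; exact hodd.pos
  -- the involution
  set t : N → N := fun x => if x ∈ S then ρ x else if ρ⁻¹ x ∈ S then ρ⁻¹ x else x with ht
  have ht1 : ∀ x ∈ S, t x = ρ x := fun x hx => by rw [ht]; simp [hx]
  have ht2 : ∀ x ∈ S, t (ρ x) = x := fun x hx => by
    rw [ht]; simp [hS x hx, hx]
  have ht3 : ∀ x, x ∉ S → ρ⁻¹ x ∉ S → t x = x := fun x hx hx' => by
    rw [ht]
    simp only
    rw [if_neg hx, if_neg hx']
  have htt : Function.Involutive t := by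
    intro x
    by_cases hx : x ∈ S
    · rw [ht1 x hx, ht2 x hx]
    · by_cases hx' : ρ⁻¹ x ∈ S
      · have h1 : x = ρ (ρ⁻¹ x) := by simp
        have h2 : t x = ρ⁻¹ x := by
          conv_lhs => rw [h1]
          exact ht2 _ hx'
        rw [h2, ht1 _ hx']; simp
      · rw [ht3 x hx hx', ht3 x hx hx']
  set θ : Perm N := htt.toPerm with hθdef
  have hθt : ∀ x, θ x = t x := fun x => rfl
  have hκinv : ∀ x, x ∉ S → κ⁻¹ x = x := fun x hx => by
    rw [Perm.inv_eq_iff_eq]; exact (hκn x hx).symm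
  have hBij : Set.BijOn κ (S : Set N) (S : Set N) := by
    refine ⟨fun x hx => hκS x hx, κ.injective.injOn, ?_⟩
    intro y hy
    by_cases hy' : κ⁻¹ y ∈ S
    · exact ⟨κ⁻¹ y, hy', by simp⟩
    · exfalso
      have h1 := hκn _ hy'
      apply hy'
      rw [← h1]; simpa using hy
  have hCyc : κ.IsCycleOn (S : Set N) := ⟨hBij, fun x hx y hy => hκT x hx y hy⟩
  refine ⟨κ, θ, ⟨fun x hx => ⟨hS x hx, by simp⟩, by simp, fun x hx _ => hκn x hx,
    fun x hx => ⟨ht1 x hx, ht2 x hx⟩, ht3⟩, ?_, ?_, ?_⟩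
  · -- `ρ * κ` is one cycle
    have claim1 : ∀ x, ∃ y ∈ S, (ρ * κ).SameCycle x y := by
      intro x
      obtain ⟨s, hs⟩ := hne
      have hex : ∃ j : ℕ, (ρ ^ j) x ∈ S := by
        obtain ⟨k, hk⟩ := splitCyc_exists_pow ρ x s (hρ x s)
        exact ⟨k, by rw [hk]; exact hs⟩
      refine ⟨_, Nat.find_spec hex, ?_⟩
      rw [← splitCyc_follow ρ κ S hκn x (Nat.find hex) (fun i hi => Nat.find_min hex hi)]
      exact Perm.sameCycle_pow_right.2 (Perm.SameCycle.refl _ _)
    have claim2 : ∀ x ∈ S, (ρ * κ).SameCycle x (κ (κ x)) := by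
      intro x hx
      obtain ⟨j, hj1, hj2, hj3⟩ := hκj (κ x) (hκS x hx)
      have h1 : κ (κ x) = (ρ ^ (j - 1)) ((ρ * κ) x) := by
        rw [hj2, Perm.mul_apply]
        have h0 : j = (j - 1) + 1 := by omega
        conv_lhs => rw [h0, pow_succ, Perm.mul_apply]
      rw [h1, ← splitCyc_follow ρ κ S hκn _ (j - 1)]
      · rw [Perm.sameCycle_pow_right, Perm.sameCycle_apply_right]
      · intro i hi
        have h2 : (ρ ^ i) ((ρ * κ) x) = (ρ ^ (i + 1)) (κ x) := by
          rw [Perm.mul_apply, pow_succ, Perm.mul_apply]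
        rw [h2]
        exact hj3 (i + 1) (by omega) (by omega)
    have hpowS : ∀ (m : ℕ), ∀ x ∈ S, (κ ^ m) x ∈ S := by
      intro m
      induction m with
      | zero => intro x hx; exact hx
      | succ m ih => intro x hx; rw [pow_succ', Perm.mul_apply]; exact hκS _ (ih x hx)
    have claim3 : ∀ m : ℕ, ∀ x ∈ S, (ρ * κ).SameCycle x ((κ ^ (2 * m)) x) := by
      intro m
      induction m with
      | zero => intro x hx; exact Perm.SameCycle.refl _ _
      | succ m ih =>
        intro x hx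
        have h1 : (κ ^ (2 * (m + 1))) x = κ (κ ((κ ^ (2 * m)) x)) := by
          rw [show 2 * (m + 1) = (2 * m + 1) + 1 by ring, pow_succ', Perm.mul_apply, pow_succ',
            Perm.mul_apply]
        rw [h1]
        exact (ih x hx).trans (claim2 _ (hpowS _ x hx))
    have claim4 : ∀ x ∈ S, ∀ y ∈ S, (ρ * κ).SameCycle x y := by
      intro x hx y hy
      obtain ⟨k, hk⟩ := splitCyc_exists_pow κ x y (hκT x hx y hy)
      rcases Nat.even_or_odd k with ⟨m, hm⟩ | hko
      · have h1 := claim3 m x hx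
        have h2 : 2 * m = k := by omega
        rw [h2, hk] at h1
        exact h1
      · obtain ⟨m, hm⟩ := hko.add_odd hodd
        have h1 := claim3 m x hx
        have h2 : 2 * m = k + S.card := by omega
        rw [h2, pow_add, Perm.mul_apply, hCyc.pow_card_apply hx, hk] at h1
        exact h1
    intro x y
    obtain ⟨x', hx', hxx⟩ := claim1 x
    obtain ⟨y', hy', hyy⟩ := claim1 y
    exact hxx.trans ((claim4 x' hx' y' hy').trans hyy.symm)
  · -- `κ⁻¹ * θ` is one cycle on `S ∪ ρ(S)`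
    have c1 : ∀ x ∈ S, (κ⁻¹ * θ) x = ρ x := by
      intro x hx
      rw [Perm.mul_apply, hθt, ht1 x hx, hκinv _ (hS x hx)]
    have c2 : ∀ x ∈ S, (κ⁻¹ * θ) (ρ x) = κ⁻¹ x := by
      intro x hx
      rw [Perm.mul_apply, hθt, ht2 x hx]
    have c3 : ∀ x ∈ S, (κ⁻¹ * θ).SameCycle x (ρ x) := by
      intro x hx
      rw [← c1 x hx, Perm.sameCycle_apply_right]
    have c4 : ∀ x ∈ S, (κ⁻¹ * θ).SameCycle x (κ⁻¹ x) := by
      intro x hx
      refine (c3 x hx).trans ?_
      rw [← c2 x hx, Perm.sameCycle_apply_right]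
    have c5 : ∀ (m : ℕ), ∀ x ∈ S, (κ ^ m) x ∈ S ∧ (κ⁻¹ * θ).SameCycle x ((κ ^ m) x) := by
      intro m
      induction m with
      | zero => intro x hx; exact ⟨hx, Perm.SameCycle.refl _ _⟩
      | succ m ih =>
        intro x hx
        obtain ⟨h1, h2⟩ := ih x hx
        rw [pow_succ', Perm.mul_apply]
        refine ⟨hκS _ h1, h2.trans ?_⟩
        have h3 := c4 _ (hκS _ h1)
        have h4 : κ⁻¹ (κ ((κ ^ m) x)) = (κ ^ m) x := by simp
        rw [h4] at h3
        exact h3.symm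
    have c6 : ∀ x ∈ S, ∀ y ∈ S, (κ⁻¹ * θ).SameCycle x y := by
      intro x hx y hy
      obtain ⟨k, hk⟩ := splitCyc_exists_pow κ x y (hκT x hx y hy)
      rw [← hk]
      exact (c5 k x hx).2
    have c7 : ∀ x, (x ∈ S ∨ ρ⁻¹ x ∈ S) → ∃ y ∈ S, (κ⁻¹ * θ).SameCycle x y := by
      rintro x (hx | hx)
      · exact ⟨x, hx, Perm.SameCycle.refl _ _⟩
      · refine ⟨_, hx, ?_⟩
        have h1 := (c3 _ hx).symm
        have h2 : ρ (ρ⁻¹ x) = x := by simp
        rw [h2] at h1
        exact h1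
    intro x hx y hy
    obtain ⟨x', hx', hxx⟩ := c7 x hx
    obtain ⟨y', hy', hyy⟩ := c7 y hy
    exact hxx.trans ((c6 x' hx' y' hy').trans hyy.symm)
  · intro x hx j hj1 hj2 hj3
    obtain ⟨i, hi1, hi2, hi3⟩ := hκj x hx
    rcases lt_trichotomy i j with h | h | h
    · exfalso
      apply hj2 i hi1 h
      rw [← hi2]; exact hκS x hx
    · rw [hi2, h]
    · exfalso
      exact hi3 j hj1 h hj3

end Pool.Agent.W_MP_43c969_h13
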