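import Pool.Agent.W_MP_43c969_h13.Defs
import Pool.Agent.W_MP_43c969_h13.Cyc
import Pool.Agent.W_MP_43c969_h13.Basic
import Pool.Agent.W_MP_43c969_h13.Split
import Pool.Agent.W_MP_43c969_h13.SplitCyc
import Pool.Agent.W_MP_43c969_h13.Insert

/-!
# Task SplitA: absorbing `t` columns of the special face

Let `e_0 = (a, u_0)`, `e_i = phi^[i] e_0 = (c_i, u_i)` be the special face, of length `t + 2 + j`.
Let `T = {u_2, …, u_{t+1}}` and let `S` be a set of columns with `u_0 ∈ S`, such that `N` is the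
disjoint union of `S`, `ρ(S)` and `T`, where `ρ = rho a`, and with an odd number of elements.

1. Split the row `a` with `S`, `Z = ∅` and the permutations `κ`, `θ` of `split_perm`
   (files Split, SplitCyc). The rows `some a` (one cycle on `N ∖ T`, the points of `T` fixed) and
   `none` (one cycle on `N`) are obtained. The special face is now
   `tau e_0 = (some a, u_0), tau e_1, …`; all the other arcs are good (tracked arcs are good
   because `tau` commutes with `phi`; the new arcs form quadrilaterals; the missing incidences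
   `(some a, x)`, `x ∈ T`, are fixed by `phi`).
2. Insert, for `i = 2, …, t + 1` in this order, the column `u_i` in the row `some a` just after
   `u_0` (`ins_face`). Before the `i`-th step the special face is
   `(some a, u_0), tau e_{i-1}, tau e_i, …, tau e_{t+1+j}`; so the second arc is
   `tau e_{i-1} = (c_{i-1}, u_{i-1})`, `rho c_{i-1} u_{i-1} = u_i`, and `u_i` is missing in the row
   `some a`. After the step the face is `(some a, u_0), tau e_i, …`.
   At the end the special face has `2 + j` arcs: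
   `(some a, u_0), tau e_{t+1}, …, tau e_{t+1+j}`.
3. The rows: `some a` is one cycle on `N ∖ T` and the points of `T` are inserted one after the
   other (`insert_TrOn`). The columns: `colE_Tr`, `colO_Tr` for `x ∉ T`; `colT_insert_Tr` for
   `x ∈ T` (the column `x = u_i` is only changed in the `i`-th insertion). The same for `Two`.
4. Coverage. Every old arc `x → y` of a row `b ≠ a` is still there. An old arc `x → ρ x` of the row
   `a` is in the row `none` if `x ∉ S`, and in the row `some a` if `x ∈ S`, except for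
   `u_0 → ρ u_0`. Finally the row `none` has the arcs `x → ρ (κ x)` for `x ∈ S`.
-/

set_option autoImplicit false

namespace Pool.Agent.W_MP_43c969_h13

open Equiv

variable {P N : Type*} [Fintype P] [Fintype N] [DecidableEq P] [DecidableEq N]

/-- The state of the construction of `splitA` after `s` insertions. -/
structure SplitAState (E : Emb P N) (a : P) (u0 : N) (t j : ℕ) (S : Finset N) (κ θ : Perm N)
    (s : ℕ) (F : Emb (Option P) N) : Prop where
  face : F.FaceAt (some a, u0) (t + 2 + j - s)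
  iter : ∀ i, 1 ≤ i → i < t + 2 + j - s →
    F.phi^[i] (some a, u0) = tau a S ∅ (E.phi^[i + s] (a, u0))
  rowO : ∀ b, b ≠ some a → F.rho b = (splitEmb E a S ∅ κ θ).rho b
  rowA : TrOn (F.rho (some a)) {x | x ∈ S ∨ (E.rho a)⁻¹ x ∈ S ∨
    ∃ i, 2 ≤ i ∧ i ≤ s + 1 ∧ x = (E.phi^[i] (a, u0)).2}
  rowF : ∀ i, s + 2 ≤ i → i ≤ t + 1 →
    F.rho (some a) (E.phi^[i] (a, u0)).2 = (E.phi^[i] (a, u0)).2
  colF : ∀ x, (∀ i, 2 ≤ i → i ≤ s + 1 → x ≠ (E.phi^[i] (a, u0)).2) →
    F.pi x = (splitEmb E a S ∅ κ θ).pi x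
  colI : ∀ i, 2 ≤ i → i ≤ s + 1 → ∃ c, c ≠ some a ∧
    F.pi (E.phi^[i] (a, u0)).2 = colT (E.pi (E.phi^[i] (a, u0)).2) a * swap c (some a)
  cov : ∀ x ∈ S, x ≠ u0 → F.rho (some a) x = (splitEmb E a S ∅ κ θ).rho (some a) x

omit [Fintype P] [Fintype N] in
theorem tau_snd_h (a : P) (S Z : Finset N) (e : P × N) : (tau a S Z e).2 = e.2 := by
  unfold tau
  split_ifs <;> rfl

omit [Fintype P] [Fintype N] in
theorem splitA_phi_iter (E : Emb P N) (a : P) (S : Finset N) (κ θ : Perm N)
    (H : SplitHyp (E.rho a) S ∅ κ θ) (e : P × N) (i : ℕ) :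
    (splitEmb E a S ∅ κ θ).phi^[i] (tau a S ∅ e) = tau a S ∅ (E.phi^[i] e) := by
  induction i with
  | zero => rfl
  | succ i ih =>
    rw [Function.iterate_succ_apply', ih, Function.iterate_succ_apply',
      split_phi_tau E a S ∅ κ θ H _ (by simp)]

omit [Fintype P] [Fintype N] in
theorem splitA_face0 (E : Emb P N) (a : P) (u0 : N) (k : ℕ) (S : Finset N) (κ θ : Perm N)
    (H : SplitHyp (E.rho a) S ∅ κ θ) (hu0 : u0 ∈ S) (hf : E.FaceAt (a, u0) k) :
    (splitEmb E a S ∅ κ θ).FaceAt (some a, u0) k := by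
  have h0 : tau a S ∅ (a, u0) = (some a, u0) := by
    unfold tau
    simp [hu0]
  obtain ⟨h1, h2, h3, h4⟩ := hf
  rw [← h0]
  refine ⟨h1, ?_, ?_, ?_⟩
  · rw [splitA_phi_iter E a S κ θ H, h2]
  · intro i j hij hj
    rw [splitA_phi_iter E a S κ θ H, splitA_phi_iter E a S κ θ H]
    intro h
    exact h3 i j hij hj (tau_injective a S ∅ h)
  · intro e he
    rcases split_arc_cases E a S ∅ κ θ H e with ⟨f, rfl⟩ | ⟨x, hx, hx', hcase⟩ | ⟨z, hz, _⟩ |
      ⟨x, hx1, hx2, hx3, rfl⟩
    · have hg : E.Good f := by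
        refine h4 f ?_
        intro i hi hfi
        refine he i hi ?_
        rw [splitA_phi_iter E a S κ θ H, hfi]
      unfold Emb.Good
      rw [split_phi_tau E a S ∅ κ θ H _ (by simp), split_phi_tau E a S ∅ κ θ H _ (by simp)]
      unfold Emb.Good at hg
      rw [hg]
    · have hn := split_phi_new E a S ∅ κ θ H x hx hx'
      rcases hcase with rfl | rfl
      · unfold Emb.Good
        rw [hn.1, hn.2]
      · unfold Emb.Good
        rw [hn.2, hn.1]
    · simp at hz
    · have hm := split_missing E a S ∅ κ θ H x hx1 hx2 hx3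
      have hp : (splitEmb E a S ∅ κ θ).phi (some a, x) = (some a, x) := by
        unfold Emb.phi
        simp only
        rw [hm.1, hm.2]
      unfold Emb.Good
      rw [hp, hp]

theorem splitA_state (E : Emb P N) (a : P) (u0 : N) (t j : ℕ) (S : Finset N) (κ θ : Perm N)
    (H : SplitHyp (E.rho a) S ∅ κ θ) (hf : E.FaceAt (a, u0) (t + 2 + j))
    (hu0 : u0 ∈ S) (hS : TrOn (κ⁻¹ * θ) {x | x ∈ S ∨ (E.rho a)⁻¹ x ∈ S})
    (hT2 : ∀ i, 2 ≤ i → i ≤ t + 1 → (E.phi^[i] (a, u0)).2 ∉ S ∧
      (E.rho a)⁻¹ (E.phi^[i] (a, u0)).2 ∉ S)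
    (hT3 : ∀ i i', 2 ≤ i → i < i' → i' ≤ t + 1 →
      (E.phi^[i] (a, u0)).2 ≠ (E.phi^[i'] (a, u0)).2) (s : ℕ) (hs : s ≤ t) :
    ∃ F : Emb (Option P) N, SplitAState E a u0 t j S κ θ s F := by
  have h0 : tau a S ∅ (a, u0) = (some a, u0) := by
    unfold tau
    simp [hu0]
  induction s with
  | zero =>
    refine ⟨splitEmb E a S ∅ κ θ, ?_, ?_, ?_, ?_, ?_, ?_, ?_, ?_⟩
    · simpa using splitA_face0 E a u0 _ S κ θ H hu0 hf
    · intro i _ _
      rw [← h0, splitA_phi_iter E a S κ θ H]
      rfl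
    · intro b _
      rfl
    · have hr : (splitEmb E a S ∅ κ θ).rho (some a) = κ⁻¹ * θ := by
        simp [splitEmb]
      rw [hr]
      intro x hx y hy
      refine hS x ?_ y ?_
      · rcases hx with hx | hx | ⟨i, hi, hi', _⟩
        · exact Or.inl hx
        · exact Or.inr hx
        · omega
      · rcases hy with hy | hy | ⟨i, hi, hi', _⟩
        · exact Or.inl hy
        · exact Or.inr hy
        · omega
    · intro i hi hi'
      have h2 := hT2 i (by omega) hi'
      exact (split_missing E a S ∅ κ θ H _ h2.1 (by simp) h2.2).1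
    · intro x _
      rfl
    · intro i hi hi'
      omega
    · intro x _ _
      rfl
  | succ s ih =>
    obtain ⟨F, hF⟩ := ih (by omega)
    set t' : N := (E.phi^[s + 2] (a, u0)).2 with ht'
    have hT2' := hT2 (s + 2) (by omega) (by omega)
    have hne : u0 ≠ t' := by
      intro h
      exact hT2'.1 (by rw [← ht', ← h]; exact hu0)
    have h1 : F.rho (some a) t' = t' := hF.rowF (s + 2) le_rfl (by omega)
    have hpi : F.pi t' = (splitEmb E a S ∅ κ θ).pi t' := by
      refine hF.colF t' ?_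
      intro i hi hi'
      exact (hT3 i (s + 2) hi (by omega) (by omega)).symm
    have h2 : F.pi t' (some a) = some a := by
      rw [hpi]
      exact (split_missing E a S ∅ κ θ H _ hT2'.1 (by simp) hT2'.2).2
    have hk : (t + 1 + j - s) + 1 = t + 2 + j - s := by omega
    have hface : F.FaceAt (some a, u0) ((t + 1 + j - s) + 1) := by
      rw [hk]
      exact hF.face
    have h2t : (F.phi^[2] (some a, u0)).2 = t' := by
      rw [hF.iter 2 (by omega) (by omega), tau_snd_h, Nat.add_comm 2 s]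
    obtain ⟨hc, hface', hiter'⟩ := ins_face F (some a) t' u0 (t + 1 + j - s) (by omega) h1 h2 hne
      hface h2t
    set c : Option P := (F.phi (some a, u0)).1 with hcdef
    refine ⟨insEmb F (some a) t' u0 c, ?_, ?_, ?_, ?_, ?_, ?_, ?_, ?_⟩
    · have : t + 2 + j - (s + 1) = t + 1 + j - s := by omega
      rw [this]
      exact hface'
    · intro i hi hi'
      rw [hiter' i hi (by omega), hF.iter (i + 1) (by omega) (by omega)]
      congr 2
      omega
    · intro b hb
      rw [← hF.rowO b hb]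
      simp [insEmb, hb]
    · have hr : (insEmb F (some a) t' u0 c).rho (some a) = F.rho (some a) * swap u0 t' := by
        simp [insEmb]
      rw [hr]
      have hnot : t' ∉ {x | x ∈ S ∨ (E.rho a)⁻¹ x ∈ S ∨
          ∃ i, 2 ≤ i ∧ i ≤ s + 1 ∧ x = (E.phi^[i] (a, u0)).2} := by
        rintro (hx | hx | ⟨i, hi, hi', hx⟩)
        · exact hT2'.1 hx
        · exact hT2'.2 hx
        · exact hT3 i (s + 2) hi (by omega) (by omega) hx.symm
      have := insert_TrOn (F.rho (some a)) t' u0 h1 _ hnot (Or.inl hu0) hF.rowA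
      have hmem : ∀ x, x ∈ {x | x ∈ S ∨ (E.rho a)⁻¹ x ∈ S ∨
          ∃ i, 2 ≤ i ∧ i ≤ s + 1 + 1 ∧ x = (E.phi^[i] (a, u0)).2} →
          x ∈ insert t' {x | x ∈ S ∨ (E.rho a)⁻¹ x ∈ S ∨
          ∃ i, 2 ≤ i ∧ i ≤ s + 1 ∧ x = (E.phi^[i] (a, u0)).2} := by
        rintro x (hx | hx | ⟨i, hi, hi', hx⟩)
        · exact Or.inr (Or.inl hx)
        · exact Or.inr (Or.inr (Or.inl hx))
        · rcases Nat.lt_or_ge i (s + 2) with h | h
          · exact Or.inr (Or.inr (Or.inr ⟨i, hi, by omega, hx⟩))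
          · have : i = s + 2 := by omega
            subst this
            exact Or.inl hx
      intro x hx y hy
      exact this x (hmem x hx) y (hmem y hy)
    · intro i hi hi'
      have hx1 : (E.phi^[i] (a, u0)).2 ≠ t' := (hT3 (s + 2) i (by omega) (by omega) hi').symm
      have hx2 : (E.phi^[i] (a, u0)).2 ≠ u0 := by
        intro h
        exact (hT2 i (by omega) hi').1 (by rw [h]; exact hu0)
      have hr : (insEmb F (some a) t' u0 c).rho (some a) = F.rho (some a) * swap u0 t' := by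
        simp [insEmb]
      rw [hr, Perm.mul_apply, swap_apply_of_ne_of_ne hx2 hx1]
      exact hF.rowF i (by omega) hi'
    · intro x hx
      have hx1 : x ≠ t' := hx (s + 2) (by omega) (by omega)
      have : (insEmb F (some a) t' u0 c).pi x = F.pi x := by
        simp [insEmb, hx1]
      rw [this]
      exact hF.colF x (fun i hi hi' => hx i hi (by omega))
    · intro i hi hi'
      rcases Nat.lt_or_ge i (s + 2) with h | h
      · have hx1 : (E.phi^[i] (a, u0)).2 ≠ t' := hT3 i (s + 2) hi h (by omega)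
        obtain ⟨c', hc', hc''⟩ := hF.colI i hi (by omega)
        refine ⟨c', hc', ?_⟩
        rw [← hc'']
        simp [insEmb, hx1]
      · have : i = s + 2 := by omega
        subst this
        refine ⟨c, hc, ?_⟩
        rw [← ht']
        have e1 : (insEmb F (some a) t' u0 c).pi t' = F.pi t' * swap c (some a) := by
          simp [insEmb]
        rw [e1, hpi]
        congr 1
        have e2 : ¬ (t' ∈ S ∨ t' ∈ (∅ : Finset N)) := by
          rintro (h | h)
          · exact hT2'.1 h
          · simp at h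
        simp only [splitEmb]
        rw [if_neg e2, if_neg hT2'.2]
    · intro x hx hx'
      have hx1 : x ≠ t' := by
        intro h
        exact hT2'.1 (by rw [← ht', ← h]; exact hx)
      have hr : (insEmb F (some a) t' u0 c).rho (some a) = F.rho (some a) * swap u0 t' := by
        simp [insEmb]
      rw [hr, Perm.mul_apply, swap_apply_of_ne_of_ne hx' hx1]
      exact hF.cov x hx hx'

theorem splitA (E : Emb P N) (a : P) (u0 : N) (t j : ℕ) (S : Finset N)
    (hrow : E.RowsTr) (hf : E.FaceAt (a, u0) (t + 2 + j))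
    (hu0 : u0 ∈ S) (hodd : Odd S.card)
    (hS : ∀ x ∈ S, E.rho a x ∉ S)
    (hT1 : ∀ x, x ∈ S ∨ (E.rho a)⁻¹ x ∈ S ∨ ∃ i, 2 ≤ i ∧ i ≤ t + 1 ∧ x = (E.phi^[i] (a, u0)).2)
    (hT2 : ∀ i, 2 ≤ i → i ≤ t + 1 → (E.phi^[i] (a, u0)).2 ∉ S ∧
      (E.rho a)⁻¹ (E.phi^[i] (a, u0)).2 ∉ S)
    (hT3 : ∀ i i', 2 ≤ i → i < i' → i' ≤ t + 1 →
      (E.phi^[i] (a, u0)).2 ≠ (E.phi^[i'] (a, u0)).2) :
    ∃ E' : Emb (Option P) N, E'.RowsTr ∧
      (∀ x, Tr (E.pi x) → Tr (E'.pi x)) ∧ (∀ x, Two (E.pi x) → Two (E'.pi x)) ∧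
      E'.FaceAt (some a, u0) (2 + j) ∧
      (∀ i, 1 ≤ i → i < 2 + j → (E'.phi^[i] (some a, u0)).2 = (E.phi^[t + i] (a, u0)).2) ∧
      (∀ x y, E.Cov x y → ¬ (x = u0 ∧ y = E.rho a u0) → ¬ (y = u0 ∧ x = E.rho a u0) →
        E'.Cov x y) ∧
      (∀ x ∈ S, ∀ m : ℕ, 1 ≤ m → (∀ i, 1 ≤ i → i < m → ((E.rho a) ^ i) x ∉ S) →
        ((E.rho a) ^ m) x ∈ S → E'.Cov x (((E.rho a) ^ (m + 1)) x)) := by
  obtain ⟨κ, θ, H, hnone, hsome, hret⟩ := split_perm (E.rho a) (hrow a) S hS hodd
  obtain ⟨F, hF⟩ := splitA_state E a u0 t j S κ θ H hf hu0 hsome hT2 hT3 t le_rfl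
  have hlen : t + 2 + j - t = 2 + j := by omega
  have hrn : F.rho none = E.rho a * κ := by
    rw [hF.rowO none (by simp)]
    rfl
  have hrb : ∀ b, b ≠ a → F.rho (some b) = E.rho b := by
    intro b hb
    rw [hF.rowO (some b) (by simpa using hb)]
    simp [splitEmb, hb]
  have hcovS : ∀ x ∈ S, x ≠ u0 → F.rho (some a) x = E.rho a x := by
    intro x hx hx'
    rw [hF.cov x hx hx']
    have e1 : (splitEmb E a S ∅ κ θ).rho (some a) = κ⁻¹ * θ := by
      simp [splitEmb]
    rw [e1, Perm.mul_apply, (H.hθS x hx).1, Perm.inv_eq_iff_eq]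
    exact (H.hκ _ (H.hS x hx).1 (by simp)).symm
  have harc : ∀ x y, E.Cov x y → (∀ b, E.rho b x = y → ¬ (x = u0 ∧ y = E.rho a u0) →
      ∃ b', F.rho b' x = y) := by
    intro x y _ b hb hne
    by_cases hba : b = a
    · subst hba
      by_cases hx : x ∈ S
      · have hxu : x ≠ u0 := by
          intro h
          subst h
          exact hne ⟨rfl, hb.symm⟩
        exact ⟨some b, by rw [hcovS x hx hxu]; exact hb⟩
      · refine ⟨none, ?_⟩
        rw [hrn, Perm.mul_apply, H.hκ x hx (by simp)]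
        exact hb
    · exact ⟨some b, by rw [hrb b hba]; exact hb⟩
  have hcolcase : ∀ x, (F.pi x = colE (E.pi x) a) ∨ (F.pi x = colO (E.pi x) a) ∨
      ∃ c, c ≠ some a ∧ F.pi x = colT (E.pi x) a * swap c (some a) := by
    intro x
    by_cases hx : ∃ i, 2 ≤ i ∧ i ≤ t + 1 ∧ x = (E.phi^[i] (a, u0)).2
    · obtain ⟨i, hi, hi', rfl⟩ := hx
      exact Or.inr (Or.inr (hF.colI i hi hi'))
    · have e1 : F.pi x = (splitEmb E a S ∅ κ θ).pi x := by
        refine hF.colF x ?_
        intro i hi hi' h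
        exact hx ⟨i, hi, hi', h⟩
      rw [e1]
      rcases hT1 x with h | h | h
      · left
        simp [splitEmb, h]
      · by_cases hxS : x ∈ S
        · left
          simp [splitEmb, hxS]
        · right
          left
          simp only [splitEmb]
          rw [if_neg (by simpa using hxS), if_pos h]
      · exact absurd h hx
  refine ⟨F, ?_, ?_, ?_, ?_, ?_, ?_, ?_⟩
  · intro b
    rcases b with _ | b
    · rw [hrn]
      exact hnone
    · by_cases hba : b = a
      · subst hba
        intro x y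
        exact hF.rowA x (hT1 x) y (hT1 y)
      · rw [hrb b hba]
        exact hrow b
  · intro x hx
    rcases hcolcase x with h | h | ⟨c, hc, h⟩
    · rw [h]
      exact colE_Tr hx a
    · rw [h]
      exact colO_Tr hx a
    · rw [h]
      exact colT_insert_Tr hx a c hc
  · intro x hx
    rcases hcolcase x with h | h | ⟨c, hc, h⟩
    · rw [h]
      exact colE_Two hx a
    · rw [h]
      exact colO_Two hx a
    · rw [h]
      exact colT_insert_Two hx a c hc
  · rw [← hlen]
    exact hF.face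
  · intro i hi hi'
    rw [hF.iter i hi (by omega), tau_snd_h, Nat.add_comm]
  · intro x y hxy h1 h2
    obtain ⟨b, hb | hb⟩ := hxy
    · obtain ⟨b', hb'⟩ := harc x y ⟨b, Or.inl hb⟩ b hb h1
      exact ⟨b', Or.inl hb'⟩
    · obtain ⟨b', hb'⟩ := harc y x ⟨b, Or.inl hb⟩ b hb h2
      exact ⟨b', Or.inr hb'⟩
  · intro x hx m hm hm' hmS
    refine ⟨none, Or.inl ?_⟩
    rw [hrn, Perm.mul_apply, hret x hx m hm hm' hmS, pow_succ', Perm.mul_apply]

end Pool.Agent.W_MP_43c969_h13
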