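import Pool.Agent.W_MP_43c969_h13.Basic
import Pool.Agent.W_MP_43c969_h13.WinEmb

/-!
# Task WinCol: the colouring used to split the row `0`

`sd.T` is a list of columns (`inl o`: the vertex of offset `o`, `-4 ≤ o ≤ 2`; `inr z`: the active
column `z`). `kap` is the colour: for the sources `kS`, for the active columns `kZ`; on the up lane
the vertex `2 + 2 i` has the colour `cu` if `i ≤ c` and `cu` changed `i - c` times if `i ≥ c`, and
`u_i` has the colour opposite to `cu`; the same on the down lane with `cd`. `S` is the set of the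
columns of colour `true`.

The condition `arcC k k' m'` for an arc `x → y` of the row `0` (`k`, `k'` the colours of `x`, `y`,
`m'` tells if `y ∈ T`): if `x ∈ S` then `y ∉ S` and `y ∉ T`; if `x ∉ S` then `y ∈ S` or `y ∈ T`.

`win_arcC`: every arc `x → ρ x` of the row `0` satisfies `arcC`. Proof: `src_cases` for `x` (row `0`).
* window arcs: `hdir`, `hz1`, `hz2` (with `rho_src_none`, `rho_src_some`, `rho_act`); the target
  `tgtOff t` is the vertex `-4 = -4 - 2 * 0` (the down lane, `i = 0`) for `t = 0`, the vertex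
  `2` (up lane, `i = 0`) for `t = 1`, and the source `t` for `t = 2, 3, 4`; whence `tcol`.
* lane arcs: `2 + 2 i → 4 + 2 i` for `c ≤ i`, `i + 1 < L`: the colours are opposite and the target
  is not in `T` (its offset is not in `{-4, …, 2}` modulo `q`: the target is the vertex
  `up (i + 1)`, the vertices of offsets `-4, …, 2` are `dn 0`, `up 0` and the five sources).
  For `i + 1 = L` the target is the source `0` (`up_end`) and we use `hup` (the colour of the vertex
  `up (L - 1)` is the opposite of `cu` changed `L - c` times). If `i < c`: `up i → u_i` opposite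
  colours, `u_i ∉ T`; `u_i → up (i + 1)`: opposite colours if `i + 1 < L`, and `hup` if
  `i + 1 = L` (then `c = L`, `odd = false`). Similarly for the down lane, with `hdn`.
* `par` gives the parity of `L - c`.
-/

set_option autoImplicit false

namespace Pool.Agent.W_MP_43c969_h13

open Equiv

/-- the data of the colouring. -/
structure SDat (w : ℕ) where
  kS : Fin 5 → Bool
  kZ : Fin w → Bool
  cu : Bool
  cd : Bool
  T : List (ℤ ⊕ Fin w)

/-- membership in `T`. -/
def SDat.mT {w : ℕ} (sd : SDat w) (x : ℤ ⊕ Fin w) : Bool := sd.T.any (fun y => decide (x = y))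

/-- colour of a target. -/
def SDat.tcol {w : ℕ} (sd : SDat w) (t : Fin 5) : Bool :=
  if t = 0 then sd.cd else if t = 1 then sd.cu else sd.kS t

/-- condition on an arc. -/
def arcC (k k' m' : Bool) : Bool := if k then (!k' && !m') else (k' || m')

/-- conditions on the data of the row `0`. -/
structure SOK {w : ℕ} (odd : Bool) (r : RD w) (sd : SDat w) : Prop where
  rngT : ∀ o : ℤ, Sum.inl o ∈ sd.T → -4 ≤ o ∧ o ≤ 2
  tS : ∀ s : Fin 5, sd.mT (Sum.inl (srcOff s)) = true → sd.kS s = false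
  tu : sd.mT (Sum.inl 2) = true → sd.cu = false
  td : sd.mT (Sum.inl (-4)) = true → sd.cd = false
  tZ : ∀ z, sd.mT (Sum.inr z) = true → sd.kZ z = false
  hup : arcC (!(xor sd.cu odd)) (sd.kS 0) (sd.mT (Sum.inl (-3))) = true
  hdn : arcC (!(xor sd.cd odd)) (sd.kS 1) (sd.mT (Sum.inl 1)) = true
  hdir : ∀ s, r.lab s = none →
    arcC (sd.kS s) (sd.tcol (r.sg s)) (sd.mT (Sum.inl (tgtOff (r.sg s)))) = true
  hz1 : ∀ z, arcC (sd.kS (r.pz z)) (sd.kZ z) (sd.mT (Sum.inr z)) = true
  hz2 : ∀ z, arcC (sd.kZ z) (sd.tcol (r.sg (r.pz z)))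
    (sd.mT (Sum.inl (tgtOff (r.sg (r.pz z))))) = true

/-- colour on a lane. -/
def lcol (c : ℕ) (b : Bool) (i : ℕ) : Bool := xor b (decide ((i - c) % 2 = 1))

/-- the colour of a column. -/
noncomputable def kap {w : ℕ} (L c : ℕ) (hL : 1 ≤ L) (sd : SDat w) : WN w c L → Bool
  | Sum.inl x => match (srcE L hL).symm x with
    | Sum.inl s => sd.kS s
    | Sum.inr (Sum.inl i) => lcol c sd.cu i.val
    | Sum.inr (Sum.inr i) => lcol c sd.cd i.val
  | Sum.inr (Sum.inl z) => sd.kZ z
  | Sum.inr (Sum.inr (Sum.inl _)) => !sd.cu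
  | Sum.inr (Sum.inr (Sum.inr _)) => !sd.cd

/-- the columns of `T`. -/
def Tset {w : ℕ} (L c : ℕ) (sd : SDat w) (x : WN w c L) : Prop :=
  (∃ o : ℤ, Sum.inl o ∈ sd.T ∧ x = Sum.inl (o : ZMod (2 * L + 5))) ∨
    ∃ z, Sum.inr z ∈ sd.T ∧ x = Sum.inr (Sum.inl z)

section
variable {w L c : ℕ} {odd : Bool} {cz : Fin w → Bool} {D : ZMod (2 * L + 5) → RD w}

theorem winCol_val (hL : 1 ≤ L) (sd : SDat w) (k : Fin 5 ⊕ (Fin L ⊕ Fin L)) :
    kap L c hL sd (Sum.inl (srcVal L k)) = match k with
      | Sum.inl s => sd.kS s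
      | Sum.inr (Sum.inl i) => lcol c sd.cu i.val
      | Sum.inr (Sum.inr i) => lcol c sd.cd i.val := by
  show (match (srcE L hL).symm (srcVal L k) with
    | Sum.inl s => sd.kS s
    | Sum.inr (Sum.inl i) => lcol c sd.cu i.val
    | Sum.inr (Sum.inr i) => lcol c sd.cd i.val) = _
  rw [srcE_symm_val]

theorem kap_src (hL : 1 ≤ L) (sd : SDat w) (s : Fin 5) :
    kap L c hL sd (Sum.inl ((srcOff s : ℤ) : ZMod (2 * L + 5))) = sd.kS s :=
  winCol_val (c := c) hL sd (Sum.inl s)

theorem winCol_up (L i : ℕ) (hi : i < L) : (2 + 2 * (i : ZMod (2 * L + 5))) =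
    srcVal L (Sum.inr (Sum.inl ⟨i, hi⟩)) := by
  simp only [srcVal]
  push_cast
  ring

theorem winCol_dn (L i : ℕ) (hi : i < L) : (-4 - 2 * (i : ZMod (2 * L + 5))) =
    srcVal L (Sum.inr (Sum.inr ⟨i, hi⟩)) := by
  simp only [srcVal]
  push_cast
  ring

theorem winCol_two (hL : 1 ≤ L) : ((2 : ℤ) : ZMod (2 * L + 5)) =
    srcVal L (Sum.inr (Sum.inl ⟨0, hL⟩)) := by
  rw [← winCol_up]
  push_cast
  ring

theorem winCol_four (hL : 1 ≤ L) : ((-4 : ℤ) : ZMod (2 * L + 5)) =
    srcVal L (Sum.inr (Sum.inr ⟨0, hL⟩)) := by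
  rw [← winCol_dn]
  push_cast
  ring

theorem winCol_off (o : ℤ) (h1 : -4 ≤ o) (h2 : o ≤ 2) :
    (∃ s : Fin 5, o = srcOff s) ∨ o = 2 ∨ o = -4 := by
  interval_cases o
  · right; right; rfl
  · left; exact ⟨0, rfl⟩
  · left; exact ⟨2, rfl⟩
  · left; exact ⟨3, rfl⟩
  · left; exact ⟨4, rfl⟩
  · left; exact ⟨1, rfl⟩
  · right; left; rfl

theorem winCol_mT (sd : SDat w) (x : ℤ ⊕ Fin w) : sd.mT x = true ↔ x ∈ sd.T := by
  unfold SDat.mT
  rw [List.any_eq_true]
  constructor
  · rintro ⟨y, hy, h⟩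
    rw [of_decide_eq_true h]
    exact hy
  · intro h
    exact ⟨x, h, decide_eq_true rfl⟩

theorem winCol_inj (hL : 1 ≤ L) {k k' : Fin 5 ⊕ (Fin L ⊕ Fin L)}
    (h : srcVal L k = srcVal L k') : k = k' := (srcVal_bij L hL).1 h

/-- `T` at a source. -/
theorem winCol_Ts (hL : 1 ≤ L) {r : RD w} (sd : SDat w) (hs : SOK odd r sd) (s : Fin 5) :
    Tset L c sd (Sum.inl (srcVal L (Sum.inl s))) ↔ sd.mT (Sum.inl (srcOff s)) = true := by
  rw [winCol_mT]
  constructor
  · rintro (⟨o, ho, h⟩ | ⟨z, hz, h⟩)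
    · have h' := Sum.inl.inj h
      obtain ⟨h1, h2⟩ := hs.rngT o ho
      rcases winCol_off o h1 h2 with ⟨s', rfl⟩ | rfl | rfl
      · have := winCol_inj hL (k := Sum.inl s) (k' := Sum.inl s') h'
        rw [Sum.inl.inj this]
        exact ho
      · rw [winCol_two hL] at h'
        exact absurd (winCol_inj hL h') (by simp)
      · rw [winCol_four hL] at h'
        exact absurd (winCol_inj hL h') (by simp)
    · exact absurd h (by simp)
  · intro h
    exact Or.inl ⟨srcOff s, h, rfl⟩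

/-- `T` on the up lane. -/
theorem winCol_Tu (hL : 1 ≤ L) {r : RD w} (sd : SDat w) (hs : SOK odd r sd) (i : Fin L) :
    Tset L c sd (Sum.inl (srcVal L (Sum.inr (Sum.inl i)))) ↔
      (i.val = 0 ∧ sd.mT (Sum.inl 2) = true) := by
  rw [winCol_mT]
  constructor
  · rintro (⟨o, ho, h⟩ | ⟨z, hz, h⟩)
    · have h' := Sum.inl.inj h
      obtain ⟨h1, h2⟩ := hs.rngT o ho
      rcases winCol_off o h1 h2 with ⟨s', rfl⟩ | rfl | rfl
      · exact absurd (winCol_inj hL (k' := Sum.inl s') h') (by simp)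
      · rw [winCol_two hL] at h'
        have h3 := winCol_inj hL h'
        simp only [Sum.inr.injEq, Sum.inl.injEq] at h3
        exact ⟨by rw [h3], ho⟩
      · rw [winCol_four hL] at h'
        exact absurd (winCol_inj hL h') (by simp)
    · exact absurd h (by simp)
  · rintro ⟨h, h2⟩
    refine Or.inl ⟨2, h2, ?_⟩
    rw [winCol_two hL]
    have : i = ⟨0, hL⟩ := Fin.ext h
    rw [this]

/-- `T` on the down lane. -/
theorem winCol_Td (hL : 1 ≤ L) {r : RD w} (sd : SDat w) (hs : SOK odd r sd) (i : Fin L) :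
    Tset L c sd (Sum.inl (srcVal L (Sum.inr (Sum.inr i)))) ↔
      (i.val = 0 ∧ sd.mT (Sum.inl (-4)) = true) := by
  rw [winCol_mT]
  constructor
  · rintro (⟨o, ho, h⟩ | ⟨z, hz, h⟩)
    · have h' := Sum.inl.inj h
      obtain ⟨h1, h2⟩ := hs.rngT o ho
      rcases winCol_off o h1 h2 with ⟨s', rfl⟩ | rfl | rfl
      · exact absurd (winCol_inj hL (k' := Sum.inl s') h') (by simp)
      · rw [winCol_two hL] at h'
        exact absurd (winCol_inj hL h') (by simp)
      · rw [winCol_four hL] at h'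
        have h3 := winCol_inj hL h'
        simp only [Sum.inr.injEq] at h3
        exact ⟨by rw [h3], ho⟩
    · exact absurd h (by simp)
  · rintro ⟨h, h2⟩
    refine Or.inl ⟨-4, h2, ?_⟩
    rw [winCol_four hL]
    have : i = ⟨0, hL⟩ := Fin.ext h
    rw [this]

/-- `T` at an active column. -/
theorem winCol_Tz (sd : SDat w) (z : Fin w) :
    Tset L c sd (Sum.inr (Sum.inl z)) ↔ sd.mT (Sum.inr z) = true := by
  rw [winCol_mT]
  constructor
  · rintro (⟨o, ho, h⟩ | ⟨z', hz, h⟩)
    · exact absurd h (by simp)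
    · simp only [Sum.inr.injEq, Sum.inl.injEq] at h
      rw [h]
      exact hz
  · intro h
    exact Or.inr ⟨z, h, rfl⟩

/-- `T` at a lane column. -/
theorem winCol_Tl (sd : SDat w) (x : Fin c ⊕ Fin c) : ¬ Tset L c sd (Sum.inr (Sum.inr x)) := by
  rintro (⟨o, ho, h⟩ | ⟨z', hz, h⟩)
  · exact absurd h (by simp)
  · exact absurd h (by simp)

theorem winCol_l0 (c : ℕ) (b : Bool) {i : ℕ} (h : i ≤ c) : lcol c b i = b := by
  unfold lcol
  rw [Nat.sub_eq_zero_of_le h]
  simp

theorem winCol_l1 (c : ℕ) (b : Bool) {i : ℕ} (h : c ≤ i) : lcol c b (i + 1) = !lcol c b i := by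
  unfold lcol
  rcases Nat.mod_two_eq_zero_or_one (i - c) with h1 | h1
  · have h2 : (i + 1 - c) % 2 = 1 := by omega
    rw [h1, h2]
    cases b <;> rfl
  · have h2 : (i + 1 - c) % 2 = 0 := by omega
    rw [h1, h2]
    cases b <;> rfl

theorem winCol_last {c L : ℕ} {odd : Bool} (par : (L - c) % 2 = if odd then 1 else 0) (b : Bool)
    {i : ℕ} (h : c ≤ i) (h' : i + 1 = L) : lcol c b i = !(xor b odd) := by
  unfold lcol
  cases odd
  · have h2 : (i - c) % 2 = 1 := by
      have : (L - c) % 2 = 0 := par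
      omega
    rw [h2]
    cases b <;> rfl
  · have h2 : (i - c) % 2 = 0 := by
      have : (L - c) % 2 = 1 := par
      omega
    rw [h2]
    cases b <;> rfl

theorem kap_T (hL : 1 ≤ L) (sd : SDat w) {r : RD w} (hs : SOK odd r sd) (x : WN w c L)
    (hx : Tset L c sd x) : kap L c hL sd x = false := by
  rcases hx with ⟨o, ho, rfl⟩ | ⟨z, hz, rfl⟩
  · obtain ⟨h1, h2⟩ := hs.rngT o ho
    rcases winCol_off o h1 h2 with ⟨s, rfl⟩ | rfl | rfl
    · rw [kap_src]
      exact hs.tS s ((winCol_mT _ _).2 ho)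
    · rw [winCol_two hL, winCol_val]
      show lcol c sd.cu 0 = false
      rw [winCol_l0 c _ (Nat.zero_le _)]
      exact hs.tu ((winCol_mT _ _).2 ho)
    · rw [winCol_four hL, winCol_val]
      show lcol c sd.cd 0 = false
      rw [winCol_l0 c _ (Nat.zero_le _)]
      exact hs.td ((winCol_mT _ _).2 ho)
  · exact hs.tZ z ((winCol_mT _ _).2 hz)

theorem winCol_fin (hL : 1 ≤ L) (sd : SDat w) {x y : WN w c L} {k k' m : Bool}
    (hk : kap L c hL sd x = k) (hk' : kap L c hL sd y = k') (hm : Tset L c sd y ↔ m = true)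
    (h : arcC k k' m = true) :
    (kap L c hL sd x = true → kap L c hL sd y = false ∧ ¬ Tset L c sd y) ∧
    (kap L c hL sd x = false → kap L c hL sd y = true ∨ Tset L c sd y) := by
  rw [hk, hk', hm]
  revert h
  cases k <;> cases k' <;> cases m <;> simp [arcC]

/-- The colour and the membership in `T` of a target. -/
theorem winCol_tgt (hL : 1 ≤ L) (sd : SDat w) {r : RD w} (hs : SOK odd r sd) (t : Fin 5) :
    kap L c hL sd (Sum.inl ((tgtOff t : ℤ) : ZMod (2 * L + 5))) = sd.tcol t ∧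
      (Tset L c sd (Sum.inl ((tgtOff t : ℤ) : ZMod (2 * L + 5))) ↔
        sd.mT (Sum.inl (tgtOff t)) = true) := by
  by_cases h0 : t = 0
  · subst h0
    have e : ((tgtOff 0 : ℤ) : ZMod (2 * L + 5)) = srcVal L (Sum.inr (Sum.inr ⟨0, hL⟩)) :=
      winCol_four hL
    rw [e, winCol_val, winCol_Td hL sd hs]
    refine ⟨?_, ?_⟩
    · show lcol c sd.cd 0 = _
      rw [winCol_l0 c _ (Nat.zero_le _)]
      rfl
    · show (0 = 0 ∧ _) ↔ _
      simp only [true_and]
      rfl
  · by_cases h1 : t = 1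
    · subst h1
      have e : ((tgtOff 1 : ℤ) : ZMod (2 * L + 5)) = srcVal L (Sum.inr (Sum.inl ⟨0, hL⟩)) :=
        winCol_two hL
      rw [e, winCol_val, winCol_Tu hL sd hs]
      refine ⟨?_, ?_⟩
      · show lcol c sd.cu 0 = _
        rw [winCol_l0 c _ (Nat.zero_le _)]
        rfl
      · show (0 = 0 ∧ _) ↔ _
        simp only [true_and]
        rfl
    · have e : tgtOff t = srcOff t := by
        revert h0 h1
        revert t
        decide
      rw [e]
      refine ⟨?_, winCol_Ts hL sd hs t⟩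
      rw [kap_src]
      unfold SDat.tcol
      rw [if_neg h0, if_neg h1]

/-- The target of the last arc of the up lane. -/
theorem winCol_endu (hL : 1 ≤ L) (sd : SDat w) {r : RD w} (hs : SOK odd r sd) {i : ℕ}
    (hi : i + 1 = L) :
    kap L c hL sd (Sum.inl (0 + (4 + 2 * (i : ZMod (2 * L + 5))))) = sd.kS 0 ∧
      (Tset L c sd (Sum.inl (0 + (4 + 2 * (i : ZMod (2 * L + 5))))) ↔
        sd.mT (Sum.inl (-3)) = true) := by
  have e : (0 + (4 + 2 * (i : ZMod (2 * L + 5)))) = srcVal L (Sum.inl 0) := by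
    have h1 : (0 + (4 + 2 * (i : ZMod (2 * L + 5)))) = 2 + 2 * ((i + 1 : ℕ) : ZMod (2 * L + 5)) := by
      push_cast
      ring
    rw [h1, hi]
    exact up_end L
  rw [e]
  exact ⟨winCol_val hL sd (Sum.inl 0), winCol_Ts hL sd hs 0⟩

theorem winCol_endd (hL : 1 ≤ L) (sd : SDat w) {r : RD w} (hs : SOK odd r sd) {i : ℕ}
    (hi : i + 1 = L) :
    kap L c hL sd (Sum.inl (0 + (-6 - 2 * (i : ZMod (2 * L + 5))))) = sd.kS 1 ∧
      (Tset L c sd (Sum.inl (0 + (-6 - 2 * (i : ZMod (2 * L + 5))))) ↔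
        sd.mT (Sum.inl 1) = true) := by
  have e : (0 + (-6 - 2 * (i : ZMod (2 * L + 5)))) = srcVal L (Sum.inl 1) := by
    have h1 : (0 + (-6 - 2 * (i : ZMod (2 * L + 5)))) =
        -4 - 2 * ((i + 1 : ℕ) : ZMod (2 * L + 5)) := by
      push_cast
      ring
    rw [h1, hi]
    exact dn_end L
  rw [e]
  exact ⟨winCol_val hL sd (Sum.inl 1), winCol_Ts hL sd hs 1⟩

/-- The target of another arc of the up lane. -/
theorem winCol_midu (hL : 1 ≤ L) (sd : SDat w) {r : RD w} (hs : SOK odd r sd) {i : ℕ}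
    (hi : i + 1 < L) :
    kap L c hL sd (Sum.inl (0 + (4 + 2 * (i : ZMod (2 * L + 5))))) = lcol c sd.cu (i + 1) ∧
      (Tset L c sd (Sum.inl (0 + (4 + 2 * (i : ZMod (2 * L + 5))))) ↔ false = true) := by
  have e : (0 + (4 + 2 * (i : ZMod (2 * L + 5)))) =
      srcVal L (Sum.inr (Sum.inl ⟨i + 1, hi⟩)) := by
    rw [← winCol_up]
    push_cast
    ring
  rw [e, winCol_val, winCol_Tu hL sd hs]
  refine ⟨rfl, ?_⟩
  simp

theorem winCol_midd (hL : 1 ≤ L) (sd : SDat w) {r : RD w} (hs : SOK odd r sd) {i : ℕ}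
    (hi : i + 1 < L) :
    kap L c hL sd (Sum.inl (0 + (-6 - 2 * (i : ZMod (2 * L + 5))))) = lcol c sd.cd (i + 1) ∧
      (Tset L c sd (Sum.inl (0 + (-6 - 2 * (i : ZMod (2 * L + 5))))) ↔ false = true) := by
  have e : (0 + (-6 - 2 * (i : ZMod (2 * L + 5)))) =
      srcVal L (Sum.inr (Sum.inr ⟨i + 1, hi⟩)) := by
    rw [← winCol_dn]
    push_cast
    ring
  rw [e, winCol_val, winCol_Td hL sd hs]
  refine ⟨rfl, ?_⟩
  simp

theorem winCol_opp (k : Bool) : arcC k (!k) false = true := by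
  cases k <;> rfl

theorem winCol_opp' (k : Bool) : arcC (!k) k false = true := by
  cases k <;> rfl

theorem win_arcC (h : WOK L c odd cz D) (sd : SDat w) (hs : SOK odd (D 0) sd) (x : WN w c L) :
    (kap L c h.hL sd x = true → kap L c h.hL sd ((winEmb h).rho 0 x) = false ∧
      ¬ Tset L c sd ((winEmb h).rho 0 x)) ∧
    (kap L c h.hL sd x = false → kap L c h.hL sd ((winEmb h).rho 0 x) = true ∨
      Tset L c sd ((winEmb h).rho 0 x)) := by
  have hL := h.hL
  have hD : D (0 + ((0 : ℤ) : ZMod (2 * L + 5))) = D 0 := by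
    simp
  have hloc := h.loc 0
  rcases x with x | z | i | i
  · rcases src_cases hL 0 x with ⟨s, rfl⟩ | ⟨i, hi, rfl⟩ | ⟨i, hi, rfl⟩
    · have hk : kap L c h.hL sd (Sum.inl (0 + ((srcOff s : ℤ) : ZMod (2 * L + 5)))) = sd.kS s := by
        rw [zero_add]
        exact kap_src hL sd s
      cases hl : (D 0).lab s with
      | none =>
        rw [rho_src_none h 0 s hl]
        obtain ⟨h1, h2⟩ := winCol_tgt (c := c) hL sd hs ((D 0).sg s)
        rw [← zero_add (((tgtOff ((D 0).sg s) : ℤ) : ZMod (2 * L + 5)))] at h1 h2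
        exact winCol_fin hL sd hk h1 h2 (hs.hdir s hl)
      | some z =>
        rw [rho_src_some h 0 s z hl]
        have h3 : (D 0).pz z = s := by
          have h4 := hloc.pz_lab s z
          rw [hD] at h4
          exact h4 hl
        have h5 := hs.hz1 z
        rw [h3] at h5
        exact winCol_fin hL sd hk rfl (winCol_Tz sd z) h5
    · have hk : kap L c h.hL sd (Sum.inl (0 + (2 + 2 * (i : ZMod (2 * L + 5))))) =
          lcol c sd.cu i := by
        rw [zero_add, winCol_up L i hi]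
        exact winCol_val hL sd _
      rcases lt_or_ge i c with hc | hc
      · rw [rho_up_lt h 0 ⟨i, hc⟩]
        rw [winCol_l0 c _ hc.le] at hk
        exact winCol_fin hL sd hk (k' := !sd.cu) (m := false) rfl
          (by simpa using winCol_Tl (L := L) sd (Sum.inl ⟨i, hc⟩)) (winCol_opp _)
      · rw [rho_up_ge h 0 i hc hi]
        rcases Nat.lt_or_ge (i + 1) L with h1 | h1
        · obtain ⟨h2, h3⟩ := winCol_midu (c := c) hL sd hs h1
          rw [winCol_l1 c _ hc] at h2
          exact winCol_fin hL sd hk h2 h3 (winCol_opp _)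
        · have h4 : i + 1 = L := by omega
          obtain ⟨h2, h3⟩ := winCol_endu (c := c) hL sd hs h4
          rw [winCol_last h.par _ hc h4] at hk
          exact winCol_fin hL sd hk h2 h3 hs.hup
    · have hk : kap L c h.hL sd (Sum.inl (0 + (-4 - 2 * (i : ZMod (2 * L + 5))))) =
          lcol c sd.cd i := by
        rw [zero_add, winCol_dn L i hi]
        exact winCol_val hL sd _
      rcases lt_or_ge i c with hc | hc
      · rw [rho_dn_lt h 0 ⟨i, hc⟩]
        rw [winCol_l0 c _ hc.le] at hk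
        exact winCol_fin hL sd hk (k' := !sd.cd) (m := false) rfl
          (by simpa using winCol_Tl (L := L) sd (Sum.inr ⟨i, hc⟩)) (winCol_opp _)
      · rw [rho_dn_ge h 0 i hc hi]
        rcases Nat.lt_or_ge (i + 1) L with h1 | h1
        · obtain ⟨h2, h3⟩ := winCol_midd (c := c) hL sd hs h1
          rw [winCol_l1 c _ hc] at h2
          exact winCol_fin hL sd hk h2 h3 (winCol_opp _)
        · have h4 : i + 1 = L := by omega
          obtain ⟨h2, h3⟩ := winCol_endd (c := c) hL sd hs h4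
          rw [winCol_last h.par _ hc h4] at hk
          exact winCol_fin hL sd hk h2 h3 hs.hdn
  · rw [rho_act h 0 z]
    obtain ⟨h1, h2⟩ := winCol_tgt (c := c) hL sd hs ((D 0).sg ((D 0).pz z))
    rw [← zero_add (((tgtOff ((D 0).sg ((D 0).pz z)) : ℤ) : ZMod (2 * L + 5)))] at h1 h2
    exact winCol_fin hL sd rfl h1 h2 (hs.hz2 z)
  · rw [rho_u h 0 i]
    have hc := h.hc
    have hi := i.isLt
    rcases Nat.lt_or_ge (i.val + 1) L with h1 | h1
    · obtain ⟨h2, h3⟩ := winCol_midu (c := c) hL sd hs h1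
      rw [winCol_l0 c _ (by omega)] at h2
      exact winCol_fin hL sd (k := !sd.cu) rfl h2 h3 (winCol_opp' _)
    · have h4 : i.val + 1 = L := by omega
      obtain ⟨h2, h3⟩ := winCol_endu (c := c) hL sd hs h4
      have h5 : odd = false := by
        have := h.par
        cases odd
        · rfl
        · exfalso
          have h6 : (L - c) % 2 = 1 := this
          omega
      have h6 := hs.hup
      rw [h5, Bool.xor_false] at h6
      exact winCol_fin hL sd (k := !sd.cu) rfl h2 h3 h6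
  · rw [rho_d h 0 i]
    have hc := h.hc
    have hi := i.isLt
    rcases Nat.lt_or_ge (i.val + 1) L with h1 | h1
    · obtain ⟨h2, h3⟩ := winCol_midd (c := c) hL sd hs h1
      rw [winCol_l0 c _ (by omega)] at h2
      exact winCol_fin hL sd (k := !sd.cd) rfl h2 h3 (winCol_opp' _)
    · have h4 : i.val + 1 = L := by omega
      obtain ⟨h2, h3⟩ := winCol_endd (c := c) hL sd hs h4
      have h5 : odd = false := by
        have := h.par
        cases odd
        · rfl
        · exfalso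
          have h6 : (L - c) % 2 = 1 := this
          omega
      have h6 := hs.hdn
      rw [h5, Bool.xor_false] at h6
      exact winCol_fin hL sd (k := !sd.cd) rfl h2 h3 h6

end

end Pool.Agent.W_MP_43c969_h13
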