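import Pool.Agent.W_MP_43c969_h13.Basic
import Pool.Agent.W_MP_43c969_h13.WinEmb

/-!
# Task WinRowTr: the rows are cycles

Fix the row `a`, `ρ = (winEmb h).rho a`; write `s` for the vertex `a + srcOff s` (`s : Fin 5`).
1. `s` and `rowStep s = sw01 (sg s)` are in the same cycle: `ρ` leads from `s`, possibly through an
   active column, to the vertex `a + tgtOff t`, `t = sg s`. If `t = 2, 3, 4` then
   `tgtOff t = srcOff t`. If `t = 0`, `a + tgtOff 0 = a - 4` is the beginning of the down lane
   `a + (-4 - 2 i)`, `i = 0, …, L`, whose end is the source `1` (`dn_end`). If `t = 1`, `a + 2` is the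
   beginning of the up lane `a + (2 + 2 i)`, whose end is the source `0` (`up_end`). The consecutive
   points of a lane are in the same cycle (`rho_up_ge`, or `rho_up_lt` and `rho_u`).
2. By `row_cyc` (with `R j = D (a + j)`, `R 0 = D a`) all the sources are in the same cycle as the
   source `0`.
3. Every other point is in this cycle: the points of the lanes (step 1), `u_i`, `d_i` (images of
   points of the lanes), the active column `z` (image of the source `pz z`). Use `src_cases`.
-/

set_option autoImplicit false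

namespace Pool.Agent.W_MP_43c969_h13

open Equiv

section
variable {w L c : ℕ} {odd : Bool} {cz : Fin w → Bool} {D : ZMod (2 * L + 5) → RD w}

theorem WinRowTr.step (h : WOK L c odd cz D) (a : ZMod (2 * L + 5)) (x : WN w c L) :
    ((winEmb h).rho a).SameCycle x ((winEmb h).rho a x) :=
  Equiv.Perm.sameCycle_apply_right.mpr (Equiv.Perm.SameCycle.refl _ _)

/-- the up lane -/
theorem WinRowTr.up (h : WOK L c odd cz D) (a : ZMod (2 * L + 5)) (i : ℕ) (hi : i ≤ L) :
    ((winEmb h).rho a).SameCycle (Sum.inl (a + 2))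
      (Sum.inl (a + (2 + 2 * (i : ZMod (2 * L + 5))))) := by
  induction i with
  | zero =>
    have : (a + 2 : ZMod (2 * L + 5)) = a + (2 + 2 * ((0 : ℕ) : ZMod (2 * L + 5))) := by
      push_cast; ring
    rw [← this]
  | succ i ih =>
    have h1 := ih (by omega)
    have e : (a + (2 + 2 * ((i + 1 : ℕ) : ZMod (2 * L + 5)))) =
        a + (4 + 2 * (i : ZMod (2 * L + 5))) := by
      push_cast; ring
    rw [e]
    refine h1.trans ?_
    by_cases hc : i < c
    · have h2 := rho_up_lt h a ⟨i, hc⟩
      have h3 := rho_u h a ⟨i, hc⟩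
      have h4 := WinRowTr.step h a (Sum.inl (a + (2 + 2 * (i : ZMod (2 * L + 5)))))
      rw [h2] at h4
      have h5 := WinRowTr.step h a (Sum.inr (Sum.inr (Sum.inl ⟨i, hc⟩)))
      rw [h3] at h5
      exact h4.trans h5
    · have h2 := rho_up_ge h a i (by omega) (by omega)
      have h4 := WinRowTr.step h a (Sum.inl (a + (2 + 2 * (i : ZMod (2 * L + 5)))))
      rw [h2] at h4
      exact h4

/-- the down lane -/
theorem WinRowTr.dn (h : WOK L c odd cz D) (a : ZMod (2 * L + 5)) (i : ℕ) (hi : i ≤ L) :
    ((winEmb h).rho a).SameCycle (Sum.inl (a + -4))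
      (Sum.inl (a + (-4 - 2 * (i : ZMod (2 * L + 5))))) := by
  induction i with
  | zero =>
    have : (a + -4 : ZMod (2 * L + 5)) = a + (-4 - 2 * ((0 : ℕ) : ZMod (2 * L + 5))) := by
      push_cast; ring
    rw [← this]
  | succ i ih =>
    have h1 := ih (by omega)
    have e : (a + (-4 - 2 * ((i + 1 : ℕ) : ZMod (2 * L + 5)))) =
        a + (-6 - 2 * (i : ZMod (2 * L + 5))) := by
      push_cast; ring
    rw [e]
    refine h1.trans ?_
    by_cases hc : i < c
    · have h2 := rho_dn_lt h a ⟨i, hc⟩
      have h3 := rho_d h a ⟨i, hc⟩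
      have h4 := WinRowTr.step h a (Sum.inl (a + (-4 - 2 * (i : ZMod (2 * L + 5)))))
      rw [h2] at h4
      have h5 := WinRowTr.step h a (Sum.inr (Sum.inr (Sum.inr ⟨i, hc⟩)))
      rw [h3] at h5
      exact h4.trans h5
    · have h2 := rho_dn_ge h a i (by omega) (by omega)
      have h4 := WinRowTr.step h a (Sum.inl (a + (-4 - 2 * (i : ZMod (2 * L + 5)))))
      rw [h2] at h4
      exact h4

/-- from a target to the next source -/
theorem WinRowTr.tgt (h : WOK L c odd cz D) (a : ZMod (2 * L + 5)) (t : Fin 5) :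
    ((winEmb h).rho a).SameCycle (Sum.inl (a + ((tgtOff t : ℤ) : ZMod (2 * L + 5))))
      (Sum.inl (a + ((srcOff (sw01 t) : ℤ) : ZMod (2 * L + 5)))) := by
  by_cases h0 : t = 0
  · subst h0
    have h1 := WinRowTr.dn h a L le_rfl
    rw [dn_end L] at h1
    have e : ((tgtOff 0 : ℤ) : ZMod (2 * L + 5)) = -4 := by
      have : tgtOff 0 = -4 := rfl
      rw [this]; push_cast; ring
    rw [e]
    exact h1
  · by_cases h1 : t = 1
    · subst h1
      have h1 := WinRowTr.up h a L le_rfl
      rw [up_end L] at h1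
      have e : ((tgtOff 1 : ℤ) : ZMod (2 * L + 5)) = 2 := by
        have : tgtOff 1 = 2 := rfl
        rw [this]; push_cast; ring
      rw [e]
      exact h1
    · have e : tgtOff t = srcOff (sw01 t) := by
        revert h0 h1
        revert t
        decide
      rw [e]

/-- from a source to the next source -/
theorem WinRowTr.src (h : WOK L c odd cz D) (a : ZMod (2 * L + 5)) (s : Fin 5) :
    ((winEmb h).rho a).SameCycle (Sum.inl (a + ((srcOff s : ℤ) : ZMod (2 * L + 5))))
      (Sum.inl (a + ((srcOff (sw01 ((D a).sg s)) : ℤ) : ZMod (2 * L + 5)))) := by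
  refine Equiv.Perm.SameCycle.trans ?_ (WinRowTr.tgt h a ((D a).sg s))
  have h1 := WinRowTr.step h a (Sum.inl (a + ((srcOff s : ℤ) : ZMod (2 * L + 5))))
  cases hl : (D a).lab s with
  | none =>
    rw [rho_src_none h a s hl] at h1
    exact h1
  | some z =>
    rw [rho_src_some h a s z hl] at h1
    have h2 := WinRowTr.step h a (Sum.inr (Sum.inl z))
    rw [rho_act h a z] at h2
    have h3 : (D a).pz z = s := by
      have := (h.loc a).pz_lab s z
      simp only [Int.cast_zero, add_zero] at this
      exact this hl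
    rw [h3] at h2
    exact h1.trans h2

theorem win_rowsTr (h : WOK L c odd cz D) : (winEmb h).RowsTr := by
  intro a
  have hR : ∀ s, rowStep (fun j : ℤ => D (a + (j : ZMod (2 * L + 5)))) s = sw01 ((D a).sg s) := by
    intro s
    simp only [rowStep, Int.cast_zero, add_zero]
  have hsrc : ∀ s : Fin 5, ((winEmb h).rho a).SameCycle
      (Sum.inl (a + ((srcOff 0 : ℤ) : ZMod (2 * L + 5))))
      (Sum.inl (a + ((srcOff s : ℤ) : ZMod (2 * L + 5)))) := by
    intro s
    obtain ⟨k, hk5, hk⟩ := (h.loc a).row_cyc s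
    rw [← hk]
    clear hk hk5
    induction k with
    | zero => exact Equiv.Perm.SameCycle.refl _ _
    | succ k ih =>
      rw [Function.iterate_succ_apply']
      refine ih.trans ?_
      rw [hR]
      exact WinRowTr.src h a _
  have htgt : ∀ t : Fin 5, ((winEmb h).rho a).SameCycle
      (Sum.inl (a + ((srcOff 0 : ℤ) : ZMod (2 * L + 5))))
      (Sum.inl (a + ((tgtOff t : ℤ) : ZMod (2 * L + 5)))) := fun t =>
    (hsrc (sw01 t)).trans (WinRowTr.tgt h a t).symm
  have hup : ∀ i : ℕ, i ≤ L → ((winEmb h).rho a).SameCycle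
      (Sum.inl (a + ((srcOff 0 : ℤ) : ZMod (2 * L + 5))))
      (Sum.inl (a + (2 + 2 * (i : ZMod (2 * L + 5))))) := by
    intro i hi
    have h1 := htgt 1
    have e : ((tgtOff 1 : ℤ) : ZMod (2 * L + 5)) = 2 := by
      have : tgtOff 1 = 2 := rfl
      rw [this]; push_cast; ring
    rw [e] at h1
    exact h1.trans (WinRowTr.up h a i hi)
  have hdn : ∀ i : ℕ, i ≤ L → ((winEmb h).rho a).SameCycle
      (Sum.inl (a + ((srcOff 0 : ℤ) : ZMod (2 * L + 5))))
      (Sum.inl (a + (-4 - 2 * (i : ZMod (2 * L + 5))))) := by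
    intro i hi
    have h1 := htgt 0
    have e : ((tgtOff 0 : ℤ) : ZMod (2 * L + 5)) = -4 := by
      have : tgtOff 0 = -4 := rfl
      rw [this]; push_cast; ring
    rw [e] at h1
    exact h1.trans (WinRowTr.dn h a i hi)
  have key : ∀ n : WN w c L, ((winEmb h).rho a).SameCycle
      (Sum.inl (a + ((srcOff 0 : ℤ) : ZMod (2 * L + 5)))) n := by
    intro n
    rcases n with x | z | i | i
    · rcases src_cases h.hL a x with ⟨s, rfl⟩ | ⟨i, hi, rfl⟩ | ⟨i, hi, rfl⟩
      · exact hsrc s
      · exact hup i hi.le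
      · exact hdn i hi.le
    · have h1 : (D a).lab ((D a).pz z) = some z := by
        have := (h.loc a).lab_pz z
        simpa only [Int.cast_zero, add_zero] using this
      have h2 := WinRowTr.step h a (Sum.inl (a + ((srcOff ((D a).pz z) : ℤ) : ZMod (2 * L + 5))))
      rw [rho_src_some h a _ z h1] at h2
      exact (hsrc _).trans h2
    · have h2 := WinRowTr.step h a (Sum.inl (a + (2 + 2 * (i.val : ZMod (2 * L + 5)))))
      rw [rho_up_lt h a i] at h2
      exact (hup i.val (i.isLt.le.trans h.hc)).trans h2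
    · have h2 := WinRowTr.step h a (Sum.inl (a + (-4 - 2 * (i.val : ZMod (2 * L + 5)))))
      rw [rho_dn_lt h a i] at h2
      exact (hdn i.val (i.isLt.le.trans h.hc)).trans h2
  intro x y
  exact (key x).symm.trans (key y)

end

end Pool.Agent.W_MP_43c969_h13
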