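import Pool.Agent.W_MP_43c969_h13.Basic
import Pool.Agent.W_MP_43c969_h13.SplitA
import Pool.Agent.W_MP_43c969_h13.Merge
import Pool.Agent.W_MP_43c969_h13.WinEmb
import Pool.Agent.W_MP_43c969_h13.WinPhi
import Pool.Agent.W_MP_43c969_h13.WinFace
import Pool.Agent.W_MP_43c969_h13.WinCol
import Pool.Agent.W_MP_43c969_h13.WinRowTr

/-!
# Task WinSplit: `splitA` applied to the row `0` of a window embedding

Let `E = winEmb h`, `ρ = E.rho 0`, `u0 = pt 0 (inl s0)` the column of the first arc of the special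
face, `t` the number of absorbed columns, `fl.length = t + 2`. Apply `splitA` with `a = 0`, `j = 0`
and `S` the set of the columns `x` with `kap x = true`.
* `hf`: `win_face`; `hu0`: `kap_src` and `hk` (`pt 0 (inl s0)` is the vertex `0 + srcOff s0`).
* The column of the arc `i` of the face is (by `win_iter`) the vertex `(e.1 + srcOff s)` or the
  active column `z`, that is the column described by `colOf (fget fl i)`; so by `hT` the columns of
  the arcs `2, …, t + 1` are exactly the elements of `Tset`. They are different (`hTn`; the offsets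
  are between `-4` and `2` and `q ≥ 7`).
* `hS`, `hT1`, `hT2` follow from `win_arcC` applied to `x`, resp. `ρ⁻¹ x`, and from `kap_T`.
* `|S|` is odd: the columns are the disjoint union of `S`, `ρ(S)` and `Tset` (with `t` elements), so
  `2 L + 5 + w + 2 c = 2 |S| + t`, and use `hcard`.
* The conclusion: the face has `2` arcs, so all arcs are good (`FaceAt.allGood`). The pairs
  (vertex, extra column) are not the pair `{u0, ρ u0}` since both are vertices (`hl0`).
  The pair `{z, z'}` in the last statement: `ρ z` is the vertex of the source `s1`, `ρ² z` the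
  vertex of the source `s2`, `ρ³ z = z'`; `z ∈ S`, `ρ z ∉ S`, `ρ² z ∈ S`; use the last conclusion of
  `splitA` with `m = 2`.
-/

set_option autoImplicit false

namespace Pool.Agent.W_MP_43c969_h13

open Equiv

/-- description of the column of an arc. -/
def colOf {w : ℕ} (e : ℤ × (Fin 5 ⊕ Fin w)) : ℤ ⊕ Fin w :=
  match e.2 with
  | Sum.inl s => Sum.inl (e.1 + srcOff s)
  | Sum.inr z => Sum.inr z

/-- The hypotheses for splitting. -/
structure SplitOK {w : ℕ} (odd : Bool) (r : RD w) (fl : List (ℤ × (Fin 5 ⊕ Fin w))) (t : ℕ)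
    (sd : SDat w) (s0 : Fin 5) : Prop where
  len : fl.length = t + 2
  sok : SOK odd r sd
  hs0 : (fget fl 0).2 = Sum.inl s0
  hl0 : r.lab s0 = none
  hk : sd.kS s0 = true
  hT : sd.T = ((fl.drop 2).take t).map colOf
  hTn : sd.T.Nodup

/-- the column described by an element of `T`. -/
def winSplitVal (w c L : ℕ) (y : ℤ ⊕ Fin w) : WN w c L :=
  match y with
  | Sum.inl o => Sum.inl (o : ZMod (2 * L + 5))
  | Sum.inr z => Sum.inr (Sum.inl z)

theorem winSplit_pt {w : ℕ} (c L : ℕ) (e : ℤ × (Fin 5 ⊕ Fin w)) :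
    pt w c L ((e.1 : ℤ) : ZMod (2 * L + 5)) e.2 = winSplitVal w c L (colOf e) := by
  obtain ⟨j, α⟩ := e
  rcases α with s | z
  · show Sum.inl (((j : ℤ) : ZMod (2 * L + 5)) + ((srcOff s : ℤ) : ZMod (2 * L + 5))) =
      Sum.inl (((j + srcOff s : ℤ)) : ZMod (2 * L + 5))
    push_cast
    rfl
  · rfl

theorem winSplit_cast_inj (L : ℕ) (hL : 1 ≤ L) (o o' : ℤ) (h1 : -4 ≤ o) (h2 : o ≤ 2)
    (h3 : -4 ≤ o') (h4 : o' ≤ 2) (h : ((o : ℤ) : ZMod (2 * L + 5)) = ((o' : ℤ) : ZMod (2 * L + 5))) :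
    o = o' := by
  have h5 : ((2 * L + 5 : ℕ) : ℤ) ∣ o' - o := (ZMod.intCast_eq_intCast_iff_dvd_sub o o' (2 * L + 5)).1 h
  obtain ⟨k, hk⟩ := h5
  have hL' : (1 : ℤ) ≤ (L : ℤ) := by exact_mod_cast hL
  push_cast at hk
  rcases lt_trichotomy k 0 with hk0 | hk0 | hk0
  · nlinarith
  · subst hk0
    linarith
  · nlinarith

section
variable {w L c : ℕ} {odd : Bool} {cz : Fin w → Bool} {D : ZMod (2 * L + 5) → RD w}

theorem winSplit_T {fl : List (ℤ × (Fin 5 ⊕ Fin w))} {t : ℕ} {sd : SDat w} {s0 : Fin 5} {r : RD w}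
    (hs : SplitOK odd r fl t sd s0) (k : ℕ) (hk : k < sd.T.length) :
    sd.T[k] = colOf (fget fl (k + 2)) := by
  have h1 : sd.T[k]? = some sd.T[k] := List.getElem?_eq_getElem hk
  have h2 : k + 2 < fl.length := by
    have h3 := hk
    rw [hs.hT] at h3
    simp only [List.length_map, List.length_take, List.length_drop] at h3
    omega
  have h4 : k < t := by
    have h3 := hk
    rw [hs.hT] at h3
    simp only [List.length_map, List.length_take, List.length_drop] at h3
    omega
  have h5 : sd.T[k]? = some (colOf (fget fl (k + 2))) := by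
    rw [hs.hT, List.getElem?_map, List.getElem?_take_of_lt h4, List.getElem?_drop]
    unfold fget
    rw [List.getD_eq_getElem?_getD]
    rw [show 2 + k = k + 2 by omega, List.getElem?_eq_getElem h2]
    rfl
  rw [h1] at h5
  exact Option.some.inj h5

theorem winSplit_len {fl : List (ℤ × (Fin 5 ⊕ Fin w))} {t : ℕ} {sd : SDat w} {s0 : Fin 5} {r : RD w}
    (hs : SplitOK odd r fl t sd s0) : sd.T.length = t := by
  rw [hs.hT]
  simp only [List.length_map, List.length_take, List.length_drop]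
  have := hs.len
  omega

theorem winSplit_Tset {fl : List (ℤ × (Fin 5 ⊕ Fin w))} {t : ℕ} {sd : SDat w} {s0 : Fin 5}
    {r : RD w} (hs : SplitOK odd r fl t sd s0) (x : WN w c L) :
    Tset L c sd x ↔ ∃ i, 2 ≤ i ∧ i ≤ t + 1 ∧ x = winSplitVal w c L (colOf (fget fl i)) := by
  have hlen := winSplit_len hs
  have key : Tset L c sd x ↔ ∃ y ∈ sd.T, x = winSplitVal w c L y := by
    constructor
    · rintro (⟨o, ho, h⟩ | ⟨z, hz, h⟩)
      · exact ⟨Sum.inl o, ho, h⟩
      · exact ⟨Sum.inr z, hz, h⟩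
    · rintro ⟨y, hy, h⟩
      rcases y with o | z
      · exact Or.inl ⟨o, hy, h⟩
      · exact Or.inr ⟨z, hy, h⟩
  rw [key]
  constructor
  · rintro ⟨y, hy, h⟩
    obtain ⟨k, hk, rfl⟩ := List.mem_iff_getElem.1 hy
    refine ⟨k + 2, by omega, by omega, ?_⟩
    rw [h, winSplit_T hs k hk]
  · rintro ⟨i, hi, hi', h⟩
    have hk : i - 2 < sd.T.length := by omega
    refine ⟨sd.T[i - 2], List.getElem_mem hk, ?_⟩
    rw [winSplit_T hs (i - 2) hk, show i - 2 + 2 = i by omega]
    exact h

theorem winSplit_inj {fl : List (ℤ × (Fin 5 ⊕ Fin w))} {t : ℕ} {sd : SDat w} {s0 : Fin 5}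
    {r : RD w} (hL : 1 ≤ L) (hs : SplitOK odd r fl t sd s0) (i i' : ℕ) (hi : 2 ≤ i) (hii : i < i')
    (hi' : i' ≤ t + 1) :
    winSplitVal w c L (colOf (fget fl i)) ≠ winSplitVal w c L (colOf (fget fl i')) := by
  have hlen := winSplit_len hs
  have hk : i - 2 < sd.T.length := by omega
  have hk' : i' - 2 < sd.T.length := by omega
  have e1 := winSplit_T hs (i - 2) hk
  have e2 := winSplit_T hs (i' - 2) hk'
  rw [show i - 2 + 2 = i by omega] at e1
  rw [show i' - 2 + 2 = i' by omega] at e2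
  have m1 : colOf (fget fl i) ∈ sd.T := by
    rw [← e1]
    exact List.getElem_mem hk
  have m2 : colOf (fget fl i') ∈ sd.T := by
    rw [← e2]
    exact List.getElem_mem hk'
  have hne : colOf (fget fl i) ≠ colOf (fget fl i') := by
    rw [← e1, ← e2]
    intro h
    have := (hs.hTn.getElem_inj_iff (hi := hk) (hj := hk')).1 h
    omega
  intro h
  apply hne
  revert h m1 m2
  rcases colOf (fget fl i) with o | z <;> rcases colOf (fget fl i') with o' | z'
  · intro m1 m2 h
    have h1 := hs.sok.rngT o m1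
    have h2 := hs.sok.rngT o' m2
    have h3 : ((o : ℤ) : ZMod (2 * L + 5)) = ((o' : ℤ) : ZMod (2 * L + 5)) := Sum.inl.inj h
    rw [winSplit_cast_inj L hL o o' h1.1 h1.2 h2.1 h2.2 h3]
  · intro m1 m2 h
    exact absurd h (by simp [winSplitVal])
  · intro m1 m2 h
    exact absurd h (by simp [winSplitVal])
  · intro m1 m2 h
    simp only [winSplitVal, Sum.inr.injEq, Sum.inl.injEq] at h
    rw [h]

theorem winSplit_off (s : Fin 5) (h0 : s ≠ 0) (h1 : s ≠ 1) : tgtOff s = srcOff s := by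
  revert h0 h1
  revert s
  decide

theorem win_split (h : WOK L c odd cz D) (fl : List (ℤ × (Fin 5 ⊕ Fin w)))
    (hf : FaceOK L D fl) (t : ℕ) (sd : SDat w) (s0 : Fin 5)
    (hs : SplitOK odd (D 0) fl t sd s0) (hcard : (2 * L + 5 + w + 2 * c) % 4 = (t + 2) % 4) :
    ∃ E' : Emb (Option (ZMod (2 * L + 5))) (WN w c L), E'.RowsTr ∧
      (∀ x, Tr ((winEmb h).pi x) → Tr (E'.pi x)) ∧
      (∀ x, Two ((winEmb h).pi x) → Two (E'.pi x)) ∧ E'.AllGood ∧
      (∀ x n, (winEmb h).Cov (Sum.inl x) (Sum.inr n) → E'.Cov (Sum.inl x) (Sum.inr n)) ∧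
      (∀ (z z' : Fin w) (s1 s2 : Fin 5), sd.kZ z = true → (D 0).sg ((D 0).pz z) = s1 →
        s1 ≠ 0 → s1 ≠ 1 → (D 0).lab s1 = none → (D 0).sg s1 = s2 → s2 ≠ 0 → s2 ≠ 1 →
        (D 0).lab s2 = some z' → sd.kS s1 = false → sd.kS s2 = true →
        E'.Cov (Sum.inr (Sum.inl z)) (Sum.inr (Sum.inl z'))) := by
  have hL := h.hL
  have hlen := hs.len
  obtain ⟨u0, hu0def⟩ : ∃ u0 : WN w c L,
      u0 = Sum.inl (0 + ((srcOff s0 : ℤ) : ZMod (2 * L + 5))) := ⟨_, rfl⟩
  have hpt0 : pt w c L 0 (fget fl 0).2 = u0 := by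
    rw [hs.hs0, hu0def]
    rfl
  have hface : (winEmb h).FaceAt (0, u0) (t + 2 + 0) := by
    have h1 := win_face h fl hf
    rw [hpt0, hlen] at h1
    exact h1
  have hiter : ∀ i, i ≤ t + 1 → ((winEmb h).phi^[i] (0, u0)).2 =
      winSplitVal w c L (colOf (fget fl i)) := by
    intro i hi
    have h1 := win_iter h fl hf i (by omega)
    rw [hpt0] at h1
    rw [h1]
    exact winSplit_pt c L (fget fl i)
  have hTs : ∀ x : WN w c L, Tset L c sd x ↔ ∃ i, 2 ≤ i ∧ i ≤ t + 1 ∧
      x = ((winEmb h).phi^[i] (0, u0)).2 := by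
    intro x
    rw [winSplit_Tset hs x]
    constructor
    · rintro ⟨i, h1, h2, h3⟩
      exact ⟨i, h1, h2, by rw [hiter i h2]; exact h3⟩
    · rintro ⟨i, h1, h2, h3⟩
      exact ⟨i, h1, h2, by rw [← hiter i h2]; exact h3⟩
  obtain ⟨S, hSdef⟩ : ∃ S : Finset (WN w c L),
      S = Finset.univ.filter (fun x => kap L c hL sd x = true) := ⟨_, rfl⟩
  have hmem : ∀ x, x ∈ S ↔ kap L c hL sd x = true := by
    intro x
    rw [hSdef]
    simp
  have hkS : ∀ s : Fin 5, kap L c hL sd (Sum.inl (0 + ((srcOff s : ℤ) : ZMod (2 * L + 5)))) =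
      sd.kS s := by
    intro s
    rw [zero_add]
    exact kap_src hL sd s
  have hu0 : u0 ∈ S := by
    rw [hmem, hu0def, hkS]
    exact hs.hk
  have harc := fun x => win_arcC h sd hs.sok x
  have hSr : ∀ x ∈ S, (winEmb h).rho 0 x ∉ S := by
    intro x hx h1
    have h2 := ((harc x).1 ((hmem x).1 hx)).1
    rw [(hmem _).1 h1] at h2
    exact absurd h2 (by simp)
  have hT1' : ∀ x, x ∈ S ∨ ((winEmb h).rho 0)⁻¹ x ∈ S ∨ Tset L c sd x := by
    intro x
    by_cases h1 : ((winEmb h).rho 0)⁻¹ x ∈ S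
    · exact Or.inr (Or.inl h1)
    · have h2 : kap L c hL sd (((winEmb h).rho 0)⁻¹ x) = false := by
        rw [hmem] at h1
        simpa using h1
      have h3 := (harc _).2 h2
      have h4 : (winEmb h).rho 0 (((winEmb h).rho 0)⁻¹ x) = x := by simp
      rw [h4] at h3
      rcases h3 with h3 | h3
      · exact Or.inl ((hmem x).2 h3)
      · exact Or.inr (Or.inr h3)
  have hT2' : ∀ x, Tset L c sd x → x ∉ S ∧ ((winEmb h).rho 0)⁻¹ x ∉ S := by
    intro x hx
    constructor
    · intro h1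
      have h2 := kap_T hL sd hs.sok x hx
      rw [(hmem x).1 h1] at h2
      exact absurd h2 (by simp)
    · intro h1
      have h3 := ((harc _).1 ((hmem _).1 h1)).2
      have h4 : (winEmb h).rho 0 (((winEmb h).rho 0)⁻¹ x) = x := by simp
      rw [h4] at h3
      exact h3 hx
  have hT3 : ∀ i i', 2 ≤ i → i < i' → i' ≤ t + 1 →
      ((winEmb h).phi^[i] (0, u0)).2 ≠ ((winEmb h).phi^[i'] (0, u0)).2 := by
    intro i i' h1 h2 h3
    rw [hiter i (by omega), hiter i' h3]
    exact winSplit_inj hL hs i i' h1 h2 h3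
  have hodd : Odd S.card := by
    obtain ⟨Tf, hTf⟩ : ∃ Tf : Finset (WN w c L),
        Tf = (Finset.range t).image (fun i => ((winEmb h).phi^[i + 2] (0, u0)).2) := ⟨_, rfl⟩
    have hTfm : ∀ x, x ∈ Tf ↔ Tset L c sd x := by
      intro x
      rw [hTf, hTs, Finset.mem_image]
      constructor
      · rintro ⟨i, hi, rfl⟩
        rw [Finset.mem_range] at hi
        exact ⟨i + 2, by omega, by omega, rfl⟩
      · rintro ⟨i, h1, h2, rfl⟩
        refine ⟨i - 2, Finset.mem_range.2 (by omega), ?_⟩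
        rw [show i - 2 + 2 = i by omega]
    have hTfc : Tf.card = t := by
      rw [hTf, Finset.card_image_of_injOn, Finset.card_range]
      intro i hi i' hi' he
      simp only [Finset.coe_range, Set.mem_Iio] at hi hi'
      rcases lt_trichotomy i i' with h1 | h1 | h1
      · exact absurd he (hT3 (i + 2) (i' + 2) (by omega) (by omega) (by omega))
      · exact h1
      · exact absurd he.symm (hT3 (i' + 2) (i + 2) (by omega) (by omega) (by omega))
    obtain ⟨O, hO⟩ : ∃ O : Finset (WN w c L), O = S.map ((winEmb h).rho 0).toEmbedding := ⟨_, rfl⟩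
    have hOm : ∀ x, x ∈ O ↔ ((winEmb h).rho 0)⁻¹ x ∈ S := by
      intro x
      rw [hO, Finset.mem_map]
      constructor
      · rintro ⟨y, hy, rfl⟩
        simpa using hy
      · intro hx
        exact ⟨_, hx, by simp⟩
    have hOc : O.card = S.card := by rw [hO, Finset.card_map]
    have hd1 : Disjoint S O := by
      rw [Finset.disjoint_left]
      intro x hx hx'
      rw [hOm] at hx'
      have h1 := hSr _ hx'
      apply h1
      simpa using hx
    have hd2 : Disjoint (S ∪ O) Tf := by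
      rw [Finset.disjoint_left]
      intro x hx hx'
      rw [hTfm] at hx'
      have h1 := hT2' x hx'
      rcases Finset.mem_union.1 hx with hx | hx
      · exact h1.1 hx
      · exact h1.2 ((hOm x).1 hx)
    have hun : (S ∪ O) ∪ Tf = Finset.univ := by
      rw [Finset.eq_univ_iff_forall]
      intro x
      rcases hT1' x with h1 | h1 | h1
      · exact Finset.mem_union_left _ (Finset.mem_union_left _ h1)
      · exact Finset.mem_union_left _ (Finset.mem_union_right _ ((hOm x).2 h1))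
      · exact Finset.mem_union_right _ ((hTfm x).2 h1)
    have hc1 : ((S ∪ O) ∪ Tf).card = S.card + S.card + t := by
      rw [Finset.card_union_of_disjoint hd2, Finset.card_union_of_disjoint hd1, hOc, hTfc]
    have hc2 : (Finset.univ : Finset (WN w c L)).card = 2 * L + 5 + w + 2 * c := by
      rw [Finset.card_univ]
      simp only [Fintype.card_sum, Fintype.card_fin, ZMod.card]
      omega
    rw [hun, hc2] at hc1
    rw [Nat.odd_iff]
    omega
  obtain ⟨E', r1, r2, r3, r4, _, r6, r7⟩ := splitA (winEmb h) 0 u0 t 0 S (win_rowsTr h) hface hu0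
    hodd hSr (fun x => by
      rcases hT1' x with h1 | h1 | h1
      · exact Or.inl h1
      · exact Or.inr (Or.inl h1)
      · exact Or.inr (Or.inr ((hTs x).1 h1)))
    (fun i h1 h2 => hT2' _ ((hTs _).2 ⟨i, h1, h2, rfl⟩)) hT3
  refine ⟨E', r1, r2, r3, r4.allGood, ?_, ?_⟩
  · intro x n hx
    have hr0 : (winEmb h).rho 0 u0 =
        Sum.inl (0 + ((tgtOff ((D 0).sg s0) : ℤ) : ZMod (2 * L + 5))) := by
      rw [hu0def]
      exact rho_src_none h 0 s0 hs.hl0
    refine r6 _ _ hx ?_ ?_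
    · rintro ⟨_, h2⟩
      rw [hr0] at h2
      exact absurd h2 (by simp)
    · rintro ⟨h2, _⟩
      rw [hu0def] at h2
      exact absurd h2 (by simp)
  · intro z z' s1 s2 hkz hsg1 h10 h11 hl1 hsg2 h20 h21 hl2 hk1 hk2
    have e1 : (winEmb h).rho 0 (Sum.inr (Sum.inl z)) =
        Sum.inl (0 + ((srcOff s1 : ℤ) : ZMod (2 * L + 5))) := by
      rw [rho_act h 0 z, hsg1, winSplit_off s1 h10 h11]
    have e2 : (winEmb h).rho 0 (Sum.inl (0 + ((srcOff s1 : ℤ) : ZMod (2 * L + 5)))) =
        Sum.inl (0 + ((srcOff s2 : ℤ) : ZMod (2 * L + 5))) := by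
      rw [rho_src_none h 0 s1 hl1, hsg2, winSplit_off s2 h20 h21]
    have e3 : (winEmb h).rho 0 (Sum.inl (0 + ((srcOff s2 : ℤ) : ZMod (2 * L + 5)))) =
        Sum.inr (Sum.inl z') := rho_src_some h 0 s2 z' hl2
    have p1 : ((winEmb h).rho 0 ^ 1) (Sum.inr (Sum.inl z)) =
        Sum.inl (0 + ((srcOff s1 : ℤ) : ZMod (2 * L + 5))) := by
      rw [pow_one, e1]
    have p2 : ((winEmb h).rho 0 ^ 2) (Sum.inr (Sum.inl z)) =
        Sum.inl (0 + ((srcOff s2 : ℤ) : ZMod (2 * L + 5))) := by
      rw [pow_two, Perm.mul_apply, e1, e2]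
    have p3 : ((winEmb h).rho 0 ^ (2 + 1)) (Sum.inr (Sum.inl z)) = Sum.inr (Sum.inl z') := by
      rw [pow_succ', Perm.mul_apply, p2, e3]
    have hz : (Sum.inr (Sum.inl z) : WN w c L) ∈ S := (hmem _).2 hkz
    have h7 := r7 _ hz 2 (by norm_num) (by
      intro i hi hi'
      have : i = 1 := by omega
      subst this
      rw [p1, hmem, hkS, hk1]
      simp) (by
      rw [p2, hmem, hkS, hk2])
    rw [p3] at h7
    exact h7

end

end Pool.Agent.W_MP_43c969_h13
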