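import Pool.Agent.W_MP_43c969_h13.WinDefs
import Pool.Agent.W_MP_43c969_h13.WinBool
import Pool.Agent.W_MP_43c969_h13.WinSplit

/-!
# Task WinCertC: certificate for the splitting data

Direct translation of the conditions of `SOK` and `SplitOK`.
-/

set_option autoImplicit false

namespace Pool.Agent.W_MP_43c969_h13

open Equiv

section
variable {w : ℕ}

/-- certificate for the splitting data. -/
def splitB (odd : Bool) (r : RD w) (fl : List (ℤ × (Fin 5 ⊕ Fin w))) (t : ℕ) (sd : SDat w)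
    (s0 : Fin 5) : Bool :=
  decide (fl.length = t + 2) &&
  sd.T.all (fun x => match x with
    | Sum.inl o => decide (-4 ≤ o) && decide (o ≤ 2)
    | Sum.inr _ => true) &&
  allF 5 (fun s => !(sd.mT (Sum.inl (srcOff s))) || !(sd.kS s)) &&
  (!(sd.mT (Sum.inl 2)) || !sd.cu) && (!(sd.mT (Sum.inl (-4))) || !sd.cd) &&
  allF w (fun z => !(sd.mT (Sum.inr z)) || !(sd.kZ z)) &&
  arcC (!(xor sd.cu odd)) (sd.kS 0) (sd.mT (Sum.inl (-3))) &&
  arcC (!(xor sd.cd odd)) (sd.kS 1) (sd.mT (Sum.inl 1)) &&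
  allF 5 (fun s => (r.lab s).isSome ||
    arcC (sd.kS s) (sd.tcol (r.sg s)) (sd.mT (Sum.inl (tgtOff (r.sg s))))) &&
  allF w (fun z => arcC (sd.kS (r.pz z)) (sd.kZ z) (sd.mT (Sum.inr z))) &&
  allF w (fun z => arcC (sd.kZ z) (sd.tcol (r.sg (r.pz z)))
    (sd.mT (Sum.inl (tgtOff (r.sg (r.pz z)))))) &&
  (match (fget fl 0).2 with
    | Sum.inl s => decide (s = s0)
    | Sum.inr _ => false) &&
  !((r.lab s0).isSome) && sd.kS s0 &&
  decide (sd.T = ((fl.drop 2).take t).map colOf) && decide (sd.T.Nodup)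

theorem wcc_allF {n : ℕ} {f : Fin n → Bool} (h : allF n f = true) (i : Fin n) : f i = true := by
  unfold allF at h
  exact List.all_eq_true.1 h i (List.mem_finRange i)

theorem wcc_imp {a b : Bool} (h : (!a || !b) = true) (ha : a = true) : b = false := by
  subst ha
  simpa using h

theorem splitB_sound (odd : Bool) (r : RD w) (fl : List (ℤ × (Fin 5 ⊕ Fin w))) (t : ℕ)
    (sd : SDat w) (s0 : Fin 5) (h : splitB odd r fl t sd s0 = true) :
    SplitOK odd r fl t sd s0 := by
  unfold splitB at h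
  simp only [Bool.and_eq_true] at h
  obtain ⟨⟨⟨⟨⟨⟨⟨⟨⟨⟨⟨⟨⟨⟨⟨h1, h2⟩, h3⟩, h4⟩, h5⟩, h6⟩, h7⟩, h8⟩, h9⟩, h10⟩, h11⟩, h12⟩, h13⟩, h14⟩,
    h15⟩, h16⟩ := h
  refine ⟨of_decide_eq_true h1, ⟨?_, ?_, wcc_imp h4, wcc_imp h5, ?_, h7, h8, ?_, ?_, ?_⟩, ?_, ?_,
    h14, of_decide_eq_true h15, of_decide_eq_true h16⟩
  · intro o ho
    have := List.all_eq_true.1 h2 _ ho
    simp only [Bool.and_eq_true, decide_eq_true_eq] at this
    exact this
  · exact fun s => wcc_imp (wcc_allF h3 s)
  · exact fun z => wcc_imp (wcc_allF h6 z)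
  · intro s hs
    have := wcc_allF h9 s
    rw [hs] at this
    simpa using this
  · exact fun z => wcc_allF h10 z
  · exact fun z => wcc_allF h11 z
  · revert h12
    rcases (fget fl 0).2 with s | z
    · intro h
      have : s = s0 := of_decide_eq_true h
      rw [this]
    · intro h
      exact absurd h (by simp)
  · have : (r.lab s0).isSome = false := by
      cases hh : (r.lab s0).isSome
      · rfl
      · rw [hh] at h13
        exact absurd h13 (by simp)
    simpa using this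

end

end Pool.Agent.W_MP_43c969_h13
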