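import Pool.Agent.W_MP_43c969_h13.WinTabs
import Pool.Agent.W_MP_43c969_h13.WinCert
import Pool.Agent.W_MP_43c969_h13.WinCertC

/-!
# The special faces and the colourings of the tables
-/

set_option autoImplicit false

namespace Pool.Agent.W_MP_43c969_h13

def flT2 : List (ℤ × (Fin 5 ⊕ Fin 2)) := [(0, Sum.inl 1), (1, Sum.inl 1), (-1, Sum.inr 0)]

def sdT2 : SDat 2 where
  kS s := [false, true, true, true, false].getD s.val false
  kZ z := [false, false].getD z.val false
  cu := false
  cd := true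
  T := [Sum.inr 0]

def flT2s : List (ℤ × (Fin 5 ⊕ Fin 2)) := [(0, Sum.inl 3), (-1, Sum.inl 0), (-3, Sum.inl 4)]

def sdT2s : SDat 2 where
  kS s := [false, false, false, true, true].getD s.val false
  kZ z := [true, false].getD z.val false
  cu := true
  cd := false
  T := [Sum.inl (-3)]

def flT3 : List (ℤ × (Fin 5 ⊕ Fin 3)) := [(0, Sum.inl 4), (-2, Sum.inl 1), (-3, Sum.inl 1), (-2, Sum.inr 1)]

def sdT3 : SDat 3 where
  kS s := [true, false, false, false, true].getD s.val false
  kZ z := [false, false, true].getD z.val false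
  cu := true
  cd := false
  T := [Sum.inl (-2), Sum.inr 1]

def flT4 : List (ℤ × (Fin 5 ⊕ Fin 4)) := [(0, Sum.inl 2), (-1, Sum.inl 4), (-4, Sum.inr 1), (-2, Sum.inl 2), (2, Sum.inr 3)]

def sdT4 : SDat 4 where
  kS s := [false, false, true, false, true].getD s.val false
  kZ z := [false, false, true, false].getD z.val false
  cu := false
  cd := false
  T := [Sum.inr 1, Sum.inl (-4), Sum.inr 3]

def flU1 : List (ℤ × (Fin 5 ⊕ Fin 1)) := [(0, Sum.inl 2), (3, Sum.inl 3), (1, Sum.inl 2), (-2, Sum.inr 0)]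

def sdU1 : SDat 1 where
  kS s := [true, false, true, false, false].getD s.val false
  kZ z := [false].getD z.val false
  cu := false
  cd := true
  T := [Sum.inl (-1), Sum.inr 0]

def flU2 : List (ℤ × (Fin 5 ⊕ Fin 2)) := [(0, Sum.inl 4), (-1, Sum.inl 3), (-2, Sum.inr 1)]

def sdU2 : SDat 2 where
  kS s := [true, true, false, false, true].getD s.val false
  kZ z := [false, false].getD z.val false
  cu := true
  cd := true
  T := [Sum.inr 1]

def flU3 : List (ℤ × (Fin 5 ⊕ Fin 3)) := [(0, Sum.inl 0), (1, Sum.inl 3), (-2, Sum.inr 0), (-1, Sum.inl 3)]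

def sdU3 : SDat 3 where
  kS s := [true, false, false, true, false].getD s.val false
  kZ z := [false, true, false].getD z.val false
  cu := true
  cd := false
  T := [Sum.inr 0, Sum.inl (-2)]

def flUpa : List (ℤ × (Fin 5 ⊕ Fin 2)) := [(0, Sum.inl 1), (2, Sum.inl 2), (3, Sum.inr 1)]

def flUpb : List (ℤ × (Fin 5 ⊕ Fin 2)) := [(0, Sum.inl 4), (2, Sum.inl 4), (1, Sum.inr 1), (-1, Sum.inl 2), (1, Sum.inl 4)]

def sdUpb : SDat 2 where
  kS s := [false, false, true, false, true].getD s.val false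
  kZ z := [true, false].getD z.val false
  cu := false
  cd := false
  T := [Sum.inr 1, Sum.inl (-3), Sum.inl 1]

def flUpsb : List (ℤ × (Fin 5 ⊕ Fin 2)) := [(0, Sum.inl 4), (-2, Sum.inl 2), (-1, Sum.inl 2), (4, Sum.inl 0), (2, Sum.inl 4)]

def sdUpsb : SDat 2 where
  kS s := [false, false, true, false, true].getD s.val false
  kZ z := [false, true].getD z.val false
  cu := false
  cd := false
  T := [Sum.inl (-3), Sum.inl 1, Sum.inl 2]

def flU4a : List (ℤ × (Fin 5 ⊕ Fin 4)) := [(0, Sum.inl 3), (-1, Sum.inl 3), (3, Sum.inr 1)]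

def flU4b : List (ℤ × (Fin 5 ⊕ Fin 4)) := [(0, Sum.inl 3), (-1, Sum.inl 3), (-3, Sum.inr 3), (-1, Sum.inl 2), (1, Sum.inr 0)]

def sdU4b : SDat 4 where
  kS s := [false, false, false, true, true].getD s.val false
  kZ z := [false, true, false, false].getD z.val false
  cu := true
  cd := false
  T := [Sum.inr 3, Sum.inl (-3), Sum.inr 0]

end Pool.Agent.W_MP_43c969_h13
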