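import Pool.Agent.W_MP_43c969_h13.WinFam
import Pool.Agent.W_MP_43c969_h13.WinData

/-!
# The window families: evaluation of the certificates
-/

set_option autoImplicit false
set_option maxRecDepth 100000

namespace Pool.Agent.W_MP_43c969_h13

open Equiv

theorem cT1 : certB tabT1 false (fun _ => true) 9 false = true := by decide +kernel
theorem cT2 : certB tabT2 false (fun _ => true) 9 false = true := by decide +kernel
theorem cT2s : certB tabT2s false (fun z => decide (z = 0)) 9 false = true := by decide +kernel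
theorem cT3 : certB tabT3 false (fun _ => true) 9 false = true := by decide +kernel
theorem cT4 : certB tabT4 false (fun _ => true) 9 false = true := by decide +kernel
theorem cU1 : certB tabU1 true (fun _ => true) 11 false = true := by decide +kernel
theorem cU2 : certB tabU2 false (fun _ => true) 7 true = true := by decide +kernel
theorem cU3 : certB tabU3 false (fun _ => true) 7 false = true := by decide +kernel
theorem cUpa : certB tabUpa true (fun _ => true) 11 false = true := by decide +kernel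
theorem cUpb : certB tabUpb true (fun _ => true) 7 true = true := by decide +kernel
theorem cUpsb : certB tabUpsb true (fun z => decide (z = 0)) 11 true = true := by
  decide +kernel
theorem cU4a : certB tabU4a false (fun _ => true) 11 false = true := by decide +kernel
theorem cU4b : certB tabU4b false (fun _ => true) 7 true = true := by decide +kernel

theorem nT1 : noflB tabT1 = true := by decide +kernel
theorem fT2 : faceB tabT2 9 flT2 = true := by decide +kernel
theorem fT2s : faceB tabT2s 9 flT2s = true := by decide +kernel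
theorem fT3 : faceB tabT3 9 flT3 = true := by decide +kernel
theorem fT4 : faceB tabT4 9 flT4 = true := by decide +kernel
theorem fU1 : faceB tabU1 11 flU1 = true := by decide +kernel
theorem fU2 : faceB tabU2 7 flU2 = true := by decide +kernel
theorem fU3 : faceB tabU3 7 flU3 = true := by decide +kernel
theorem fUpa : faceB tabUpa 11 flUpa = true := by decide +kernel
theorem fUpb : faceB tabUpb 7 flUpb = true := by decide +kernel
theorem fUpsb : faceB tabUpsb 11 flUpsb = true := by decide +kernel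
theorem fU4a : faceB tabU4a 11 flU4a = true := by decide +kernel
theorem fU4b : faceB tabU4b 7 flU4b = true := by decide +kernel

/-- `q = 1 mod 4`, `r = 1`. -/
theorem famT1 (q : ℕ) (hq : q % 4 = 1) (h9 : 9 ≤ q) : Ex (Fin q) (Fin q ⊕ Fin 1) Across :=
  fam_ex tabT1 false 9 cT1 nT1 q 1 0 h9 (by omega) (by omega) (by omega) (by omega)
    (by omega) (by simp only [Bool.false_eq_true, if_false]; omega)

/-- `q = 1 mod 4`, `r = 2 mod 4`. -/
theorem famT2_st (q r : ℕ) (hq : q % 4 = 1) (h9 : 9 ≤ q) (hr : r % 4 = 2) (hrq : r ≤ q) :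
    St (Fin q) (Fin q ⊕ Fin r) Across 3 :=
  fam_st tabT2 false 9 flT2 cT2 fT2 q r ((r - 2) / 2) h9 (by omega) (by omega) (by omega)
    (by omega) (by omega) (by simp only [Bool.false_eq_true, if_false]; omega)

theorem famT2_ex (q r : ℕ) (hq : q % 4 = 1) (h9 : 9 ≤ q) (hr : r % 4 = 2) (hrq : r ≤ q) :
    Ex (Fin (q + 1)) (Fin q ⊕ Fin r) Across :=
  fam_split tabT2 false 9 flT2 1 sdT2 1 cT2 fT2 (by decide +kernel) q r ((r - 2) / 2) h9
    (by omega) (by omega) (by omega)
    (by omega) (by omega) (by simp only [Bool.false_eq_true, if_false]; omega) (by omega)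

/-- `q = 1 mod 4`, `r = 3 mod 4`. -/
theorem famT3_st (q r : ℕ) (hq : q % 4 = 1) (h9 : 9 ≤ q) (hr : r % 4 = 3) (hrq : r ≤ q) :
    St (Fin q) (Fin q ⊕ Fin r) Across 4 :=
  fam_st tabT3 false 9 flT3 cT3 fT3 q r ((r - 3) / 2) h9 (by omega) (by omega) (by omega)
    (by omega) (by omega) (by simp only [Bool.false_eq_true, if_false]; omega)

theorem famT3_ex (q r : ℕ) (hq : q % 4 = 1) (h9 : 9 ≤ q) (hr : r % 4 = 3) (hrq : r ≤ q) :
    Ex (Fin (q + 1)) (Fin q ⊕ Fin r) Across :=
  fam_split tabT3 false 9 flT3 2 sdT3 4 cT3 fT3 (by decide +kernel) q r ((r - 3) / 2) h9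
    (by omega) (by omega) (by omega)
    (by omega) (by omega) (by simp only [Bool.false_eq_true, if_false]; omega) (by omega)

/-- `q = 1 mod 4`, `r = 0 mod 4`. -/
theorem famT4_st (q r : ℕ) (hq : q % 4 = 1) (h9 : 9 ≤ q) (hr : r % 4 = 0) (hr4 : 4 ≤ r)
    (hrq : r ≤ q) : St (Fin q) (Fin q ⊕ Fin r) Across 5 :=
  fam_st tabT4 false 9 flT4 cT4 fT4 q r ((r - 4) / 2) h9 (by omega) (by omega) (by omega)
    (by omega) (by omega) (by simp only [Bool.false_eq_true, if_false]; omega)

theorem famT4_ex (q r : ℕ) (hq : q % 4 = 1) (h9 : 9 ≤ q) (hr : r % 4 = 0) (hr4 : 4 ≤ r)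
    (hrq : r ≤ q) : Ex (Fin (q + 1)) (Fin q ⊕ Fin r) Across :=
  fam_split tabT4 false 9 flT4 3 sdT4 2 cT4 fT4 (by decide +kernel) q r ((r - 4) / 2) h9
    (by omega) (by omega) (by omega)
    (by omega) (by omega) (by simp only [Bool.false_eq_true, if_false]; omega) (by omega)

/-- `q = 3 mod 4`, `r = 1`. -/
theorem famU1_st (q : ℕ) (hq : q % 4 = 3) (h11 : 11 ≤ q) :
    St (Fin q) (Fin q ⊕ Fin 1) Across 4 :=
  fam_st tabU1 true 11 flU1 cU1 fU1 q 1 0 h11 (by omega) (by omega) (by omega)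
    (by omega) (by omega) (by simp only [if_true]; omega)

theorem famU1_ex (q : ℕ) (hq : q % 4 = 3) (h11 : 11 ≤ q) :
    Ex (Fin (q + 1)) (Fin q ⊕ Fin 1) Across :=
  fam_split tabU1 true 11 flU1 2 sdU1 2 cU1 fU1 (by decide +kernel) q 1 0 h11
    (by omega) (by omega) (by omega)
    (by omega) (by omega) (by simp only [if_true]; omega) (by omega)

/-- `q = 3 mod 4`, `r = 0 mod 4`. -/
theorem famU2_st (q r : ℕ) (hq : q % 4 = 3) (h7 : 7 ≤ q) (hr : r % 4 = 0) (hr4 : 4 ≤ r)
    (hrq : r ≤ q) : St (Fin q) (Fin q ⊕ Fin r) Across 5 :=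
  fam_merge tabU2 false 7 flU2 cU2 fU2 (by decide +kernel) q r ((r - 2) / 2) h7 (by omega)
    (by omega) (by omega)
    (by omega) (by omega) (by simp only [Bool.false_eq_true, if_false]; omega)

theorem famU2_pst (q r : ℕ) (hq : q % 4 = 3) (h7 : 7 ≤ q) (hr : r % 4 = 0) (hr4 : 4 ≤ r)
    (hrq : r ≤ q) : PSt (Fin (q + 1)) (Fin q ⊕ Fin r) Across :=
  fam_split_pst tabU2 false 7 flU2 1 sdU2 4 cU2 fU2 (by decide +kernel) q r ((r - 2) / 2) h7
    (by omega) (by omega) (by omega)
    (by omega) (by omega) (by simp only [Bool.false_eq_true, if_false]; omega) (by omega)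

/-- `q = 3 mod 4`, `r = 1 mod 4`, `r ≥ 5`. -/
theorem famU3_st (q r : ℕ) (hq : q % 4 = 3) (h7 : 7 ≤ q) (hr : r % 4 = 1) (hr5 : 5 ≤ r)
    (hrq : r ≤ q) : St (Fin q) (Fin q ⊕ Fin r) Across 4 :=
  fam_st tabU3 false 7 flU3 cU3 fU3 q r ((r - 3) / 2) h7 (by omega) (by omega) (by omega)
    (by omega) (by omega) (by simp only [Bool.false_eq_true, if_false]; omega)

theorem famU3_ex (q r : ℕ) (hq : q % 4 = 3) (h7 : 7 ≤ q) (hr : r % 4 = 1) (hr5 : 5 ≤ r)
    (hrq : r ≤ q) : Ex (Fin (q + 1)) (Fin q ⊕ Fin r) Across :=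
  fam_split tabU3 false 7 flU3 2 sdU3 0 cU3 fU3 (by decide +kernel) q r ((r - 3) / 2) h7
    (by omega) (by omega) (by omega)
    (by omega) (by omega) (by simp only [Bool.false_eq_true, if_false]; omega) (by omega)

/-- `q = 3 mod 4`, `r = 2`. -/
theorem famUpa_st (q : ℕ) (hq : q % 4 = 3) (h11 : 11 ≤ q) :
    St (Fin q) (Fin q ⊕ Fin 2) Across 3 :=
  fam_st tabUpa true 11 flUpa cUpa fUpa q 2 0 h11 (by omega) (by omega) (by omega)
    (by omega) (by omega) (by simp only [if_true]; omega)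

theorem famUpb_pst (q : ℕ) (hq : q % 4 = 3) (h7 : 7 ≤ q) :
    PSt (Fin (q + 1)) (Fin q ⊕ Fin 2) Across :=
  fam_split_pst tabUpb true 7 flUpb 3 sdUpb 4 cUpb fUpb (by decide +kernel) q 2 0 h7
    (by omega) (by omega) (by omega)
    (by omega) (by omega) (by simp only [if_true]; omega) (by omega)

/-- `q = 3 mod 4`, `r = 2 mod 4`, `r ≥ 6`. -/
theorem famU4a_st (q r : ℕ) (hq : q % 4 = 3) (h11 : 11 ≤ q) (hr : r % 4 = 2) (hr6 : 6 ≤ r)
    (hrq : r ≤ q) : St (Fin q) (Fin q ⊕ Fin r) Across 3 :=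
  fam_st tabU4a false 11 flU4a cU4a fU4a q r ((r - 4) / 2) h11 (by omega) (by omega) (by omega)
    (by omega) (by omega) (by simp only [Bool.false_eq_true, if_false]; omega)

theorem famU4b_pst (q r : ℕ) (hq : q % 4 = 3) (h7 : 7 ≤ q) (hr : r % 4 = 2) (hr6 : 6 ≤ r)
    (hrq : r ≤ q) : PSt (Fin (q + 1)) (Fin q ⊕ Fin r) Across :=
  fam_split_pst tabU4b false 7 flU4b 3 sdU4b 3 cU4b fU4b (by decide +kernel) q r ((r - 4) / 2)
    h7 (by omega) (by omega) (by omega)
    (by omega) (by omega) (by simp only [Bool.false_eq_true, if_false]; omega) (by omega)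

/-- `q = 2 mod 4`, `r = 1`. -/
theorem famT2s (q : ℕ) (hq : q % 4 = 2) (h10 : 10 ≤ q) : Ex (Fin q) (Fin q ⊕ Fin 1) Across := by
  obtain ⟨q', rfl⟩ : ∃ q', q = q' + 1 := ⟨q - 1, by omega⟩
  exact fam_star_ex tabT2s false 9 flT2s 1 sdT2s 3 0 1 2 4 cT2s fT2s (by decide +kernel)
    (by decide +kernel) q' (by omega) (by omega) (by omega) (by omega)
    (by simp only [Bool.false_eq_true, if_false]; omega) (by omega)

/-- `q = 0 mod 4`, `r = 1`. -/
theorem famUpsb (q : ℕ) (hq : q % 4 = 0) (h12 : 12 ≤ q) :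
    PSt (Fin q) (Fin q ⊕ Fin 1) Across := by
  obtain ⟨q', rfl⟩ : ∃ q', q = q' + 1 := ⟨q - 1, by omega⟩
  exact fam_star_pst tabUpsb true 11 flUpsb 3 sdUpsb 4 1 0 3 2 cUpsb fUpsb (by decide +kernel)
    (by decide +kernel) q' (by omega) (by omega) (by omega) (by omega)
    (by simp only [if_true]; omega) (by omega)

end Pool.Agent.W_MP_43c969_h13
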