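import Pool.Agent.W_MP_43c969_h13.Extend
import Pool.Agent.W_MP_43c969_h13.SmallData
import Pool.Agent.W_MP_43c969_h13.FamA
import Pool.Agent.W_MP_43c969_h13.FamB
import Pool.Agent.W_MP_43c969_h13.FamCa
import Pool.Agent.W_MP_43c969_h13.FamCb
import Pool.Agent.W_MP_43c969_h13.FamCc
import Pool.Agent.W_MP_43c969_h13.FamDa
import Pool.Agent.W_MP_43c969_h13.FamDb
import Pool.Agent.W_MP_43c969_h13.FamE
import Pool.Agent.W_MP_43c969_h13.RingA
import Pool.Agent.W_MP_43c969_h13.WinFin

/-!
# The existence theorem
-/

set_option autoImplicit false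

namespace Pool.Agent.W_MP_43c969_h13

open Equiv

theorem exc_eq (p n a b : ℕ) (ha : (p - 2) % 4 = a) (hb : (n - 2) % 4 = b) :
    exc p n = (4 - (a * b) % 4) % 4 := by
  unfold exc
  rw [Nat.mul_mod, ha, hb]

theorem kk_eq (p n a b k : ℕ) (ha : (p - 2) % 4 = a) (hb : (n - 2) % 4 = b)
    (hk : (if (4 - (a * b) % 4) % 4 = 0 then 0 else (4 - (a * b) % 4) % 4 + 2) = k) :
    kk p n = k := by
  unfold kk
  rw [exc_eq p n a b ha hb]
  exact hk

/-- extension of an exact embedding. -/
theorem ofEx {p1 q r : ℕ} (h : Ex (Fin p1) (Fin q ⊕ Fin r) Across) (h1 : 2 ≤ p1)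
    (hn : 2 ≤ q + r) (he : exc p1 (q + r) = 0) (p : ℕ) (hp : p1 ≤ p) :
    St (Fin p) (Fin q ⊕ Fin r) Across (kk p (q + r)) := by
  have hc : Fintype.card (Fin q ⊕ Fin r) = q + r := by simp
  have := extend_ex h1 (by rw [hc]; exact hn) (by rw [hc]; exact he) h p hp
  rwa [hc] at this

/-- extension of a pinched embedding. -/
theorem ofPSt {p1 q r : ℕ} (h : PSt (Fin p1) (Fin q ⊕ Fin r) Across) (h1 : p1 % 4 = 0)
    (h1' : 4 ≤ p1) (hn : (q + r) % 2 = 1) (hn3 : 3 ≤ q + r) (p : ℕ) (hp : p1 ≤ p) :
    St (Fin p) (Fin q ⊕ Fin r) Across (kk p (q + r)) := by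
  have hc : Fintype.card (Fin q ⊕ Fin r) = q + r := by simp
  have := extend_pst (Nat.dvd_of_mod_eq_zero h1) h1'
    (by rw [hc]; exact Nat.odd_iff.mpr hn) (by rw [hc]; exact hn3) h p hp
  rwa [hc] at this

theorem exc_of_left (p n : ℕ) (h : (p - 2) % 4 = 0) : exc p n = 0 := by
  rw [exc_eq p n 0 ((n - 2) % 4) h rfl]; simp

theorem exc_of_right (p n : ℕ) (h : (n - 2) % 4 = 0) : exc p n = 0 := by
  rw [exc_eq p n ((p - 2) % 4) 0 rfl h]; simp

theorem exc_of_even (p n : ℕ) (h : (p - 2) % 2 = 0) (h' : (n - 2) % 2 = 0) :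
    exc p n = 0 := by
  have h1 : (p - 2) % 4 = 0 ∨ (p - 2) % 4 = 2 := by omega
  have h2 : (n - 2) % 4 = 0 ∨ (n - 2) % 4 = 2 := by omega
  rcases h1 with h1 | h1
  · exact exc_of_left p n h1
  · rcases h2 with h2 | h2
    · exact exc_of_right p n h2
    · rw [exc_eq p n 2 2 h1 h2]

theorem st_zero (p q : ℕ) (hp : 2 ≤ p) (hq : 2 ≤ q) :
    St (Fin p) (Fin q ⊕ Fin 0) Across (kk p (q + 0)) := by
  refine (ringel p q hp hq).map (Equiv.refl _) (Equiv.sumEmpty (Fin q) (Fin 0)).symm ?_
  rintro x y ⟨_, z, _, _⟩
  exact z.elim0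

/-- `q = 2 mod 4`, `r` odd. -/
theorem st_two (p q r : ℕ) (hqp : q ≤ p) (hrq : r ≤ q) (hq : q % 4 = 2) (hr : r % 2 = 1) :
    St (Fin p) (Fin q ⊕ Fin r) Across (kk p (q + r)) := by
  have key : Ex (Fin q) (Fin q ⊕ Fin r) Across := by
    by_cases h1 : r = 1
    · subst h1
      by_cases h2 : q = 2
      · subst h2; exact ring_two_three
      · by_cases h6 : q = 6
        · subst h6; exact sm6_1_Ex.ex
        · exact famT2s q hq (by omega)
    · by_cases h65 : q = 6 ∧ r = 5
      · obtain ⟨rfl, rfl⟩ := h65; exact sm6_5_Ex.ex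
      · by_cases h2 : r = q - 1
        · subst h2; exact fam_F4a q hq (by omega)
        · have : r % 4 = 3 ∨ r % 4 = 1 := by omega
          rcases this with h3 | h3
          · exact fam_F4b q r hq h3 (by omega)
          · exact fam_F4c q r hq h3 (by omega) (by omega)
  exact ofEx key (by omega) (by omega) (exc_of_left _ _ (by omega)) p hqp

/-- `q = 0 mod 4`, `r` odd. -/
theorem st_four (p q r : ℕ) (hqp : q ≤ p) (hrq : r ≤ q) (hq : q % 4 = 0) (hr : r % 2 = 1) :
    St (Fin p) (Fin q ⊕ Fin r) Across (kk p (q + r)) := by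
  have key : PSt (Fin q) (Fin q ⊕ Fin r) Across := by
    by_cases h4 : q = 4
    · subst h4
      have : r = 1 ∨ r = 3 := by omega
      rcases this with rfl | rfl
      · exact sm4_1_PSt
      · exact sm4_3_PSt
    · by_cases h1 : r = 1
      · subst h1
        by_cases h8 : q = 8
        · subst h8; exact sm8_1_PSt
        · exact famUpsb q hq (by omega)
      · by_cases h3 : r = 3
        · subst h3; exact fam_F5c q hq (by omega)
        · have : r % 4 = 3 ∨ r % 4 = 1 := by omega
          rcases this with h5 | h5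
          · exact fam_F5a q r hq h5 (by omega) (by omega)
          · exact fam_F5b q r hq h5 (by omega) (by omega)
  exact ofPSt key hq (by omega) (by omega) (by omega) p hqp

/-- `q = 1 mod 4`. -/
theorem st_one (p q r : ℕ) (hqp : q ≤ p) (hrq : r ≤ q) (hq : q % 4 = 1) (hq5 : 5 ≤ q)
    (hr1 : 1 ≤ r) (hr : r % 4 ≠ 1 ∨ r = 1) :
    St (Fin p) (Fin q ⊕ Fin r) Across (kk p (q + r)) := by
  by_cases h5 : q = 5
  · subst h5
    have hr' : r = 1 ∨ r = 2 ∨ r = 3 ∨ r = 4 := by omega
    rcases hr' with rfl | rfl | rfl | rfl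
    · exact ofEx sm5_1_Ex.ex (by omega) (by omega) (by decide) p hqp
    · by_cases hp : p = 5
      · subst hp; exact sm5_2_St
      · exact ofEx sm5_2_Ex.ex (by omega) (by omega) (by decide) p (by omega)
    · by_cases hp : p = 5
      · subst hp; exact sm5_3_St
      · exact ofEx sm5_3_Ex.ex (by omega) (by omega) (by decide) p (by omega)
    · by_cases hp : p = 5
      · subst hp; exact sm5_4_St
      · exact ofEx sm5_4_Ex.ex (by omega) (by omega) (by decide) p (by omega)
  · by_cases h1 : r = 1
    · subst h1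
      exact ofEx (famT1 q hq (by omega)) (by omega) (by omega)
        (exc_of_right _ _ (by omega)) p hqp
    · have hc : r % 4 = 2 ∨ r % 4 = 3 ∨ r % 4 = 0 := by omega
      by_cases hp : p = q
      · subst hp
        rcases hc with hc | hc | hc
        · rw [kk_eq p (p + r) 3 1 3 (by omega) (by omega) (by decide)]
          exact famT2_st p r hq (by omega) hc hrq
        · rw [kk_eq p (p + r) 3 2 4 (by omega) (by omega) (by decide)]
          exact famT3_st p r hq (by omega) hc hrq
        · rw [kk_eq p (p + r) 3 3 5 (by omega) (by omega) (by decide)]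
          exact famT4_st p r hq (by omega) hc (by omega) hrq
      · rcases hc with hc | hc | hc
        · exact ofEx (famT2_ex q r hq (by omega) hc hrq) (by omega) (by omega)
            (exc_of_left _ _ (by omega)) p (by omega)
        · exact ofEx (famT3_ex q r hq (by omega) hc hrq) (by omega) (by omega)
            (exc_of_left _ _ (by omega)) p (by omega)
        · exact ofEx (famT4_ex q r hq (by omega) hc (by omega) hrq) (by omega) (by omega)
            (exc_of_left _ _ (by omega)) p (by omega)

/-- `q = 3 mod 4`. -/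
theorem st_three (p q r : ℕ) (hqp : q ≤ p) (hrq : r ≤ q) (hq : q % 4 = 3)
    (hr1 : 1 ≤ r) (hr : r % 4 ≠ 3) :
    St (Fin p) (Fin q ⊕ Fin r) Across (kk p (q + r)) := by
  by_cases h3 : q = 3
  · subst h3
    have hr' : r = 1 ∨ r = 2 := by omega
    rcases hr' with rfl | rfl
    · by_cases hp : p = 3
      · subst hp; exact sm3_1_St
      · exact ofEx sm3_1_Ex.ex (by omega) (by omega) (by decide) p (by omega)
    · by_cases hp : p = 3
      · subst hp; exact sm3_2_St
      · exact ofPSt sm3_2_PSt (by omega) (by omega) (by omega) (by omega) p (by omega)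
  · by_cases h1 : r = 1
    · subst h1
      by_cases hp : p = q
      · subst hp
        rw [kk_eq p (p + 1) 1 2 4 (by omega) (by omega) (by decide)]
        by_cases h7 : p = 7
        · subst h7; exact sm7_1_St
        · exact famU1_st p hq (by omega)
      · by_cases h7 : q = 7
        · subst h7
          exact ofEx sm7_1_Ex.ex (by omega) (by omega) (by decide) p (by omega)
        · exact ofEx (famU1_ex q hq (by omega)) (by omega) (by omega)
            (exc_of_even _ _ (by omega) (by omega)) p (by omega)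
    · by_cases h2 : r = 2
      · subst h2
        by_cases hp : p = q
        · subst hp
          rw [kk_eq p (p + 2) 1 3 3 (by omega) (by omega) (by decide)]
          by_cases h7 : p = 7
          · subst h7; exact sm7_2_St
          · exact famUpa_st p hq (by omega)
        · exact ofPSt (famUpb_pst q hq (by omega)) (by omega) (by omega) (by omega) (by omega)
            p (by omega)
      · have hc : r % 4 = 0 ∨ r % 4 = 1 ∨ r % 4 = 2 := by omega
        by_cases hp : p = q
        · subst hp
          rcases hc with hc | hc | hc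
          · rw [kk_eq p (p + r) 1 1 5 (by omega) (by omega) (by decide)]
            exact famU2_st p r hq (by omega) hc (by omega) hrq
          · rw [kk_eq p (p + r) 1 2 4 (by omega) (by omega) (by decide)]
            exact famU3_st p r hq (by omega) hc (by omega) hrq
          · rw [kk_eq p (p + r) 1 3 3 (by omega) (by omega) (by decide)]
            by_cases h7 : p = 7
            · subst h7
              obtain rfl : r = 6 := by omega
              exact sm7_6_St
            · exact famU4a_st p r hq (by omega) hc (by omega) hrq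
        · rcases hc with hc | hc | hc
          · exact ofPSt (famU2_pst q r hq (by omega) hc (by omega) hrq) (by omega) (by omega)
              (by omega) (by omega) p (by omega)
          · exact ofEx (famU3_ex q r hq (by omega) hc (by omega) hrq) (by omega) (by omega)
              (exc_of_even _ _ (by omega) (by omega)) p (by omega)
          · exact ofPSt (famU4b_pst q r hq (by omega) hc (by omega) hrq) (by omega) (by omega)
              (by omega) (by omega) p (by omega)

/-- The existence theorem. -/
theorem main_st (p q r : ℕ) (hqp : q ≤ p) (hrq : r ≤ q) (hp : 2 ≤ p) (hn : 2 ≤ q + r) :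
    St (Fin p) (Fin q ⊕ Fin r) Across (kk p (q + r)) := by
  by_cases h0 : r = 0
  · subst h0; exact st_zero p q hp (by omega)
  by_cases h11 : q = 1
  · obtain rfl : r = 1 := by omega
    subst h11
    exact ofEx ring_two_one (by omega) (by omega) (by decide) p hp
  by_cases hrq' : r = q
  · subst hrq'
    refine ofEx (fam_id r (by omega)) (by omega) (by omega) ?_ p hqp
    have : (r - 2) % 4 = 0 ∨ (r - 2) % 4 = 1 ∨ (r - 2) % 4 = 2 ∨ (r - 2) % 4 = 3 := by omega
    rcases this with h | h | h | h
    · exact exc_of_left _ _ h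
    · rw [exc_eq r (r + r) 1 0 h (by omega)]
    · rw [exc_eq r (r + r) 2 2 h (by omega)]
    · rw [exc_eq r (r + r) 3 0 h (by omega)]
  have hq4 : q % 4 = 0 ∨ q % 4 = 1 ∨ q % 4 = 2 ∨ q % 4 = 3 := by omega
  by_cases hre : q % 2 = 0 ∧ r % 2 = 0
  · exact ofEx (fam_even q r (Nat.even_iff.mpr hre.1) (Nat.even_iff.mpr hre.2) (by omega)
      (by omega)) (by omega) (by omega) (exc_of_even _ _ (by omega) (by omega)) p hqp
  by_cases hod : q % 2 = 1 ∧ q % 4 = r % 4 ∧ 3 ≤ r
  · exact ofEx (fam_odd q r hod.1 hod.2.1 hod.2.2 hrq) (by omega) (by omega)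
      (exc_of_right _ _ (by omega)) p hqp
  rcases hq4 with h | h | h | h
  · exact st_four p q r hqp hrq h (by omega)
  · exact st_one p q r hqp hrq h (by omega) (by omega) (by omega)
  · exact st_two p q r hqp hrq h (by omega)
  · exact st_three p q r hqp hrq h (by omega) (by omega)

end Pool.Agent.W_MP_43c969_h13
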