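import Pool.Agent.W_MP_43c969_h13.Defs

/-!
# Task CountA: counting cycles, sign of a permutation

`cycles_lower`: let `B' = {x | f (f x) ≠ x} ⊆ B`; it is stable under `f` and `f⁻¹`. The cycles in
the complement have at most two elements; if `B'` is nonempty there is at least one more cycle.

`perm_parity`: the sign of a permutation `f` of a finite type `X` is `(-1)^(|X| - c)` where `c` is
the number of cycles (fixed points included); Mathlib: `Equiv.Perm.sign_of_cycleType`,
`Equiv.Perm.sum_cycleType`, `Equiv.Perm.cycleType`; the number of classes of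
`SameCycle.setoid f` is the number of fixed points plus the number of cycle factors.
-/

set_option autoImplicit false

namespace Pool.Agent.W_MP_43c969_h13

open Equiv

theorem countA_good {X : Type*} (f : Perm X) {x y : X} (h : f.SameCycle x y)
    (hx : f (f x) = x) : y = x ∨ y = f x := by
  obtain ⟨n, hn⟩ := h
  have h2 : f ^ (2 : ℤ) • x = x := by
    show (f ^ (2 : ℤ)) x = x
    rw [zpow_two]
    exact hx
  have h3 : ∀ m : ℤ, (f ^ (2 * m)) x = x := by
    intro m
    rw [zpow_mul]
    have h4 : Function.IsFixedPt (f ^ (2 : ℤ)) x := h2
    exact h4.perm_zpow m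
  rcases Int.even_or_odd' n with ⟨m, hm | hm⟩
  · left
    rw [← hn, hm, h3]
  · right
    rw [← hn, hm, add_comm, zpow_add, zpow_one, Perm.mul_apply, h3]

theorem countA_good_iff {X : Type*} (f : Perm X) {x y : X} (h : f.SameCycle x y)
    (hx : f (f x) = x) : f (f y) = y := by
  rcases countA_good f h hx with h1 | h1
  · rw [h1, hx]
  · rw [h1, hx]

theorem cycles_lower {X : Type*} [Fintype X] (f : Perm X) (B : Finset X) (k : ℕ)
    (hB : B.card ≤ k) (h : ∀ x, x ∉ B → f (f x) = x) :
    (k = 0 → Fintype.card X ≤
      2 * Nat.card (Quotient (Equiv.Perm.SameCycle.setoid f))) ∧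
    (2 ≤ k → Fintype.card X + 2 ≤
      2 * Nat.card (Quotient (Equiv.Perm.SameCycle.setoid f)) + k) := by
  classical
  have hfin : Finite (Quotient (Equiv.Perm.SameCycle.setoid f)) := inferInstance
  have : Fintype (Quotient (Equiv.Perm.SameCycle.setoid f)) := Fintype.ofFinite _
  rw [Nat.card_eq_fintype_card]
  obtain ⟨π, hπ⟩ : ∃ π : X → Quotient (Equiv.Perm.SameCycle.setoid f),
      ∀ x y, π x = π y ↔ f.SameCycle x y :=
    ⟨fun x => Quotient.mk _ x, fun x y => Quotient.eq⟩
  have h1 : (Finset.univ.filter fun x => f (f x) = x).card ≤
      2 * ((Finset.univ.filter fun x => f (f x) = x).image π).card := by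
    apply Finset.card_le_mul_card_image
    intro a ha
    rw [Finset.mem_image] at ha
    obtain ⟨x0, hx0, rfl⟩ := ha
    rw [Finset.mem_filter] at hx0
    refine (Finset.card_le_card (t := {x0, f x0}) ?_).trans Finset.card_le_two
    intro x hx
    rw [Finset.mem_filter] at hx
    rw [Finset.mem_insert, Finset.mem_singleton]
    exact countA_good f ((hπ _ _).1 hx.2.symm) hx0.2
  have h2 : (Finset.univ.filter fun x => f (f x) = x).card +
      (Finset.univ.filter fun x => ¬ f (f x) = x).card = Fintype.card X := by
    rw [Finset.card_filter_add_card_filter_not, Finset.card_univ]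
  have h3 : (Finset.univ.filter fun x => ¬ f (f x) = x) ⊆ B := by
    intro x hx
    rw [Finset.mem_filter] at hx
    by_contra hxB
    exact hx.2 (h x hxB)
  have h4 := (Finset.card_le_card h3).trans hB
  have h5 : ((Finset.univ.filter fun x => f (f x) = x).image π).card ≤
      Fintype.card (Quotient (Equiv.Perm.SameCycle.setoid f)) := Finset.card_le_univ _
  constructor
  · intro hk
    omega
  · intro hk
    rcases Finset.eq_empty_or_nonempty (Finset.univ.filter fun x => ¬ f (f x) = x) with h6 | h6
    · rw [h6, Finset.card_empty] at h2
      omega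
    · obtain ⟨x1, hx1⟩ := h6
      rw [Finset.mem_filter] at hx1
      have h7 : ((Finset.univ.filter fun x => f (f x) = x).image π).card <
          Fintype.card (Quotient (Equiv.Perm.SameCycle.setoid f)) := by
        apply Finset.card_lt_univ_of_notMem (x := π x1)
        intro h8
        rw [Finset.mem_image] at h8
        obtain ⟨x, hx, hx'⟩ := h8
        rw [Finset.mem_filter] at hx
        exact hx1.2 (countA_good_iff f ((hπ _ _).1 hx') hx.2)
      omega

theorem countA_classes {X : Type*} [Fintype X] [DecidableEq X] (f : Perm X) :
    Nat.card (Quotient (Equiv.Perm.SameCycle.setoid f)) + f.support.card =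
      Fintype.card X + Multiset.card f.cycleType := by
  classical
  let ψ : X → X ⊕ Perm X := fun x => if f x = x then Sum.inl x else Sum.inr (f.cycleOf x)
  have hψ : ∀ x y, ψ x = ψ y ↔ f.SameCycle x y := by
    intro x y
    by_cases hx : f x = x
    · by_cases hy : f y = y
      · simp only [ψ, if_pos hx, if_pos hy, Sum.inl.injEq]
        constructor
        · rintro rfl
          exact Perm.SameCycle.refl _ _
        · intro h
          exact h.eq_of_left hx
      · simp only [ψ, if_pos hx, if_neg hy]
        constructor
        · intro h
          cases h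
        · intro h
          exact absurd (h.apply_eq_self_iff.1 hx) hy
    · by_cases hy : f y = y
      · simp only [ψ, if_neg hx, if_pos hy]
        constructor
        · intro h
          cases h
        · intro h
          exact absurd (h.apply_eq_self_iff.2 hy) hx
      · simp only [ψ, if_neg hx, if_neg hy, Sum.inr.injEq]
        exact (Perm.sameCycle_iff_cycleOf_eq_of_mem_support (Perm.mem_support.2 hx)
          (Perm.mem_support.2 hy)).symm
  have hcard : Nat.card (Quotient (Equiv.Perm.SameCycle.setoid f)) =
      (Finset.univ.image ψ).card := by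
    have e : Quotient (Equiv.Perm.SameCycle.setoid f) ≃ {z // z ∈ Finset.univ.image ψ} := by
      refine Equiv.ofBijective (Quotient.lift (fun x => (⟨ψ x,
        Finset.mem_image_of_mem ψ (Finset.mem_univ x)⟩ : {z // z ∈ Finset.univ.image ψ})) ?_) ?_
      · intro x y hxy
        exact Subtype.ext ((hψ x y).2 hxy)
      · constructor
        · intro a b
          induction a using Quotient.inductionOn with
          | h x =>
            induction b using Quotient.inductionOn with
            | h y =>
              intro h
              exact Quotient.sound ((hψ x y).1 (congrArg Subtype.val h))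
        · rintro ⟨z, hz⟩
          obtain ⟨x, -, hx⟩ := Finset.mem_image.1 hz
          exact ⟨Quotient.mk _ x, Subtype.ext hx⟩
    rw [Nat.card_congr e, Nat.card_eq_fintype_card, Fintype.card_coe]
  have himg : Finset.univ.image ψ =
      ((Finset.univ.filter fun x => f x = x).image Sum.inl) ∪
        (f.cycleFactorsFinset.image Sum.inr) := by
    ext z
    rw [Finset.mem_union, Finset.mem_image, Finset.mem_image, Finset.mem_image]
    constructor
    · rintro ⟨x, -, rfl⟩
      by_cases hx : f x = x
      · left
        exact ⟨x, by rw [Finset.mem_filter]; exact ⟨Finset.mem_univ _, hx⟩,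
          by simp only [ψ, if_pos hx]⟩
      · right
        exact ⟨f.cycleOf x, Perm.cycleOf_mem_cycleFactorsFinset_iff.2 (Perm.mem_support.2 hx),
          by simp only [ψ, if_neg hx]⟩
    · rintro (⟨x, hx, rfl⟩ | ⟨c, hc, rfl⟩)
      · rw [Finset.mem_filter] at hx
        exact ⟨x, Finset.mem_univ _, by simp only [ψ, if_pos hx.2]⟩
      · have h1 := (Perm.mem_cycleFactorsFinset_iff.1 hc)
        obtain ⟨a, ha⟩ := h1.1.nonempty_support
        have h2 := Perm.cycle_is_cycleOf ha hc
        have h3 : f a ≠ a := by
          have h4 := h1.2 a ha
          rw [← h4]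
          exact Perm.mem_support.1 ha
        exact ⟨a, Finset.mem_univ _, by simp only [ψ, if_neg h3, ← h2]⟩
  have hdisj : Disjoint ((Finset.univ.filter fun x => f x = x).image (Sum.inl : X → X ⊕ Perm X))
      (f.cycleFactorsFinset.image (Sum.inr : Perm X → X ⊕ Perm X)) := by
    rw [Finset.disjoint_left]
    intro z h1 h2
    rw [Finset.mem_image] at h1 h2
    obtain ⟨x, -, rfl⟩ := h1
    obtain ⟨c, -, hc⟩ := h2
    cases hc
  have hct : Multiset.card f.cycleType = f.cycleFactorsFinset.card := by
    rw [Perm.cycleType_def, Multiset.card_map]
    rfl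
  have hsup : (Finset.univ.filter fun x => f x = x).card + f.support.card = Fintype.card X := by
    have h1 : f.support = Finset.univ.filter fun x => ¬ f x = x := by
      ext x
      rw [Perm.mem_support, Finset.mem_filter]
      exact ⟨fun h => ⟨Finset.mem_univ _, h⟩, fun h => h.2⟩
    rw [h1, Finset.card_filter_add_card_filter_not, Finset.card_univ]
  rw [hcard, himg, Finset.card_union_of_disjoint hdisj,
    Finset.card_image_of_injective _ Sum.inl_injective,
    Finset.card_image_of_injective _ Sum.inr_injective, hct]
  omega

theorem perm_parity {X : Type*} [Fintype X] [DecidableEq X] (f : Perm X) :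
    (Equiv.Perm.sign f = 1 ↔
      Even (Fintype.card X + Nat.card (Quotient (Equiv.Perm.SameCycle.setoid f)))) := by
  have h1 := countA_classes f
  have h2 := Perm.sign_of_cycleType f
  rw [Perm.sum_cycleType] at h2
  have h3 : Even (Fintype.card X + Nat.card (Quotient (Equiv.Perm.SameCycle.setoid f))) ↔
      Even (f.support.card + Multiset.card f.cycleType) := by
    have h4 : Fintype.card X + Nat.card (Quotient (Equiv.Perm.SameCycle.setoid f)) +
        (f.support.card + Multiset.card f.cycleType) =
        2 * (Fintype.card X + Multiset.card f.cycleType) := by omega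
    have h5 : Even (Fintype.card X + Nat.card (Quotient (Equiv.Perm.SameCycle.setoid f)) +
        (f.support.card + Multiset.card f.cycleType)) := by
      rw [h4]
      exact even_two_mul _
    exact Nat.even_add.1 h5
  rw [h3, h2]
  constructor
  · intro h
    by_contra hne
    rw [Nat.not_even_iff_odd] at hne
    rw [hne.neg_one_pow] at h
    exact absurd h (by decide)
  · intro h
    exact h.neg_one_pow

end Pool.Agent.W_MP_43c969_h13
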