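import Pool.Agent.W_MP_43c969_h13.Defs

/-!
# Task Graph: the complete tripartite graph, rotation systems, number of darts, transport

`T3 p q r` is the complete tripartite graph on `Fin p ⊕ (Fin q ⊕ Fin r)`.
A rotation system on `G` is a permutation `σ` of the darts fixing the first vertex and transitive
on the darts with given first vertex; `faces G σ` is the number of cycles of `σ * symm`.
-/

set_option autoImplicit false

namespace Pool.Agent.W_MP_43c969_h13

open Equiv

/-- classes of the vertices. -/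
def cls {p q r : ℕ} : Fin p ⊕ (Fin q ⊕ Fin r) → Fin 3
  | Sum.inl _ => 0
  | Sum.inr (Sum.inl _) => 1
  | Sum.inr (Sum.inr _) => 2

/-- The complete tripartite graph. -/
def T3 (p q r : ℕ) : SimpleGraph (Fin p ⊕ (Fin q ⊕ Fin r)) where
  Adj u v := cls u ≠ cls v
  symm := ⟨fun _ _ h => h.symm⟩
  loopless := ⟨fun _ h => h rfl⟩

section
variable {V V' : Type*}

/-- rotation systems. -/
structure Rot (G : SimpleGraph V) (σ : Perm G.Dart) : Prop where
  fst : ∀ d : G.Dart, (σ d).fst = d.fst
  tr : ∀ d d' : G.Dart, d.fst = d'.fst → ∃ n : ℕ, (σ ^ n) d = d'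

/-- the face permutation. -/
def fp (G : SimpleGraph V) (σ : Perm G.Dart) : Perm G.Dart :=
  σ * Function.Involutive.toPerm SimpleGraph.Dart.symm SimpleGraph.Dart.symm_involutive

/-- the number of faces. -/
noncomputable def faces (G : SimpleGraph V) (σ : Perm G.Dart) : ℕ :=
  Nat.card (Quotient (Equiv.Perm.SameCycle.setoid (fp G σ)))

theorem fp_apply (G : SimpleGraph V) (σ : Perm G.Dart) (d : G.Dart) : fp G σ d = σ d.symm := rfl

/-- the bijection of the darts given by an isomorphism. -/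
def graphDart {G : SimpleGraph V} {G' : SimpleGraph V'} (φ : G ≃g G') : G.Dart ≃ G'.Dart where
  toFun d := ⟨(φ d.fst, φ d.snd), φ.map_adj_iff.2 d.adj⟩
  invFun d := ⟨(φ.symm d.fst, φ.symm d.snd), φ.symm.map_adj_iff.2 d.adj⟩
  left_inv d := by
    apply SimpleGraph.Dart.ext
    exact Prod.ext (φ.symm_apply_apply d.fst) (φ.symm_apply_apply d.snd)
  right_inv d := by
    apply SimpleGraph.Dart.ext
    exact Prod.ext (φ.apply_symm_apply d.fst) (φ.apply_symm_apply d.snd)

theorem graphDart_fst {G : SimpleGraph V} {G' : SimpleGraph V'} (φ : G ≃g G') (d : G.Dart) :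
    (graphDart φ d).fst = φ d.fst := rfl

theorem graphDart_symm_fst {G : SimpleGraph V} {G' : SimpleGraph V'} (φ : G ≃g G')
    (d : G'.Dart) : ((graphDart φ).symm d).fst = φ.symm d.fst := rfl

theorem graphDart_symm {G : SimpleGraph V} {G' : SimpleGraph V'} (φ : G ≃g G') (d : G.Dart) :
    graphDart φ d.symm = (graphDart φ d).symm := rfl

/-- Transport of a rotation system along an isomorphism. -/
theorem rot_iso {G : SimpleGraph V} {G' : SimpleGraph V'} (φ : G ≃g G') (σ : Perm G.Dart)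
    (h : Rot G σ) : ∃ σ' : Perm G'.Dart, Rot G' σ' ∧ faces G' σ' = faces G σ := by
  obtain ⟨e, he⟩ : ∃ e : G.Dart ≃ G'.Dart, e = graphDart φ := ⟨_, rfl⟩
  have key : ∀ (τ : Perm G.Dart) (n : ℤ) (d : G.Dart),
      ((e.permCongrHom τ) ^ n) (e d) = e ((τ ^ n) d) := by
    intro τ n d
    rw [← map_zpow]
    show e ((τ ^ n) (e.symm (e d))) = e ((τ ^ n) d)
    rw [e.symm_apply_apply]
  have hσ : ∀ d, e.permCongrHom σ d = e (σ (e.symm d)) := fun _ => rfl
  refine ⟨e.permCongrHom σ, ⟨fun d => ?_, fun d d' hd => ?_⟩, ?_⟩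
  · rw [hσ, he, graphDart_fst, h.fst, graphDart_symm_fst]
    exact φ.apply_symm_apply d.fst
  · obtain ⟨n, hn⟩ := h.tr (e.symm d) (e.symm d') (by
      rw [he, graphDart_symm_fst, graphDart_symm_fst, hd])
    refine ⟨n, ?_⟩
    have h1 := key σ n (e.symm d)
    rw [e.apply_symm_apply, zpow_natCast, zpow_natCast, hn, e.apply_symm_apply] at h1
    exact h1
  · have hf : fp G' (e.permCongrHom σ) = e.permCongrHom (fp G σ) := by
      ext1 d
      rw [fp_apply, hσ]
      show e (σ (e.symm d.symm)) = e (fp G σ (e.symm d))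
      rw [fp_apply]
      congr 2
      rw [e.symm_apply_eq, he, graphDart_symm, (graphDart φ).apply_symm_apply]
    have hs : ∀ a b : G.Dart, (fp G σ).SameCycle a b ↔
        (fp G' (e.permCongrHom σ)).SameCycle (e a) (e b) := by
      intro a b
      rw [hf]
      constructor
      · rintro ⟨n, hn⟩
        exact ⟨n, by rw [key, hn]⟩
      · rintro ⟨n, hn⟩
        rw [key] at hn
        exact ⟨n, e.injective hn⟩
    unfold faces
    exact (Nat.card_congr (Quotient.congr e hs)).symm

end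

/-- The graph of the problem is isomorphic to `T3`. -/
theorem iso_T3 (p q r : ℕ) : Nonempty
    (SimpleGraph.completeMultipartiteGraph (fun i : Fin 3 => Fin (![p, q, r] i)) ≃g T3 p q r) := by
  let f : (Σ i : Fin 3, Fin (![p, q, r] i)) → Fin p ⊕ (Fin q ⊕ Fin r) := fun z =>
    match z with
    | ⟨0, x⟩ => Sum.inl x
    | ⟨1, x⟩ => Sum.inr (Sum.inl x)
    | ⟨2, x⟩ => Sum.inr (Sum.inr x)
  let g : Fin p ⊕ (Fin q ⊕ Fin r) → (Σ i : Fin 3, Fin (![p, q, r] i)) := fun z =>
    match z with
    | Sum.inl x => ⟨0, x⟩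
    | Sum.inr (Sum.inl x) => ⟨1, x⟩
    | Sum.inr (Sum.inr x) => ⟨2, x⟩
  have hgf : Function.LeftInverse g f := by
    rintro ⟨i, x⟩
    fin_cases i <;> rfl
  have hfg : Function.RightInverse g f := by
    rintro (x | x | x) <;> rfl
  have hcls : ∀ z, cls (f z) = z.1 := by
    rintro ⟨i, x⟩
    fin_cases i <;> rfl
  refine ⟨⟨⟨f, g, hgf, hfg⟩, ?_⟩⟩
  intro a b
  show cls (f a) ≠ cls (f b) ↔ a.1 ≠ b.1
  rw [hcls, hcls]

theorem graph_degree (p q r : ℕ) [DecidableRel (T3 p q r).Adj]
    (v : Fin p ⊕ (Fin q ⊕ Fin r)) : (T3 p q r).degree v =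
      ∑ w : Fin p ⊕ (Fin q ⊕ Fin r), if cls v ≠ cls w then 1 else 0 := by
  rw [← SimpleGraph.card_neighborFinset_eq_degree, SimpleGraph.neighborFinset_eq_filter,
    Finset.card_filter]
  refine Finset.sum_congr rfl fun w _ => ?_
  exact if_congr Iff.rfl rfl rfl

/-- number of darts. -/
theorem card_darts_T3 (p q r : ℕ) :
    Nat.card (T3 p q r).Dart = 2 * (p * (q + r) + q * r) := by
  classical
  rw [Nat.card_eq_fintype_card, SimpleGraph.dart_card_eq_sum_degrees]
  simp only [graph_degree, Fintype.sum_sum_type, cls]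
  simp
  ring

theorem card_edges_T3 (p q r : ℕ) :
    Nat.card (T3 p q r).edgeSet = p * (q + r) + q * r := by
  classical
  have h1 := card_darts_T3 p q r
  rw [Nat.card_eq_fintype_card, SimpleGraph.dart_card_eq_twice_card_edges] at h1
  rw [Nat.card_eq_fintype_card, ← SimpleGraph.edgeFinset_card]
  omega

end Pool.Agent.W_MP_43c969_h13
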