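import Pool.Agent.W_MP_43c969_h13.Defs
import Pool.Agent.W_MP_43c969_h13.Graph
import Pool.Agent.W_MP_43c969_h13.CountA

/-!
# Task CountB: parity of the number of faces

`rot_parity`: apply it to `σ`, to `symm` (a product of `E` transpositions of the `2 E` darts) and to
their product: `(2E - V) + (2E - E) ≡ 2E - F` modulo 2, so `V + E + F` is even. Here the number of
cycles of `σ` is `V` because every vertex has at least one dart.
-/

set_option autoImplicit false

namespace Pool.Agent.W_MP_43c969_h13

open Equiv

/-- the number of cycles of the rotation is the number of vertices -/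
theorem countB_card_rot {V : Type*} (G : SimpleGraph V) (σ : Perm G.Dart)
    (h : Rot G σ) (hd : ∀ v, ∃ w, G.Adj v w) :
    Nat.card (Quotient (Equiv.Perm.SameCycle.setoid σ)) = Nat.card V := by
  have hpow : ∀ (i : ℤ) (d : G.Dart), ((σ ^ i) d).fst = d.fst := by
    have hn : ∀ (n : ℕ) (d : G.Dart), ((σ ^ n) d).fst = d.fst := by
      intro n
      induction n with
      | zero => intro d; rfl
      | succ n ih =>
        intro d
        rw [pow_succ, Equiv.Perm.mul_apply, ih, h.fst]
    intro i d
    cases i with
    | ofNat n => exact hn n d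
    | negSucc n =>
      rw [zpow_negSucc]
      have h1 := hn (n + 1) ((σ ^ (n + 1))⁻¹ d)
      have h2 : (σ ^ (n + 1)) ((σ ^ (n + 1))⁻¹ d) = d := by simp
      rw [h2] at h1
      exact h1.symm
  let f : Quotient (Equiv.Perm.SameCycle.setoid σ) → V :=
    Quotient.lift (fun d => d.fst) (by
      rintro a b ⟨i, hi⟩
      rw [← hi]
      exact (hpow i a).symm)
  have hf : Function.Bijective f := by
    constructor
    · intro x y
      induction x using Quotient.inductionOn with | _ a => ?_
      induction y using Quotient.inductionOn with | _ b => ?_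
      intro hab
      apply Quotient.sound
      obtain ⟨n, hn⟩ := h.tr a b hab
      exact ⟨n, by rw [zpow_natCast]; exact hn⟩
    · intro v
      obtain ⟨w, hw⟩ := hd v
      exact ⟨Quotient.mk _ ⟨(v, w), hw⟩, rfl⟩
  exact Nat.card_eq_of_bijective f hf

/-- the number of cycles of the reversal is the number of edges -/
theorem countB_card_symm {V : Type*} (G : SimpleGraph V) :
    Nat.card (Quotient (Equiv.Perm.SameCycle.setoid
      (Function.Involutive.toPerm SimpleGraph.Dart.symm
        SimpleGraph.Dart.symm_involutive : Perm G.Dart))) = Nat.card G.edgeSet := by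
  obtain ⟨s, hs⟩ : ∃ s : Perm G.Dart, s = Function.Involutive.toPerm SimpleGraph.Dart.symm
        SimpleGraph.Dart.symm_involutive := ⟨_, rfl⟩
  rw [← hs]
  have hsa : ∀ d, s d = d.symm := fun d => by rw [hs]; rfl
  have hss : s⁻¹ = s := by
    apply Equiv.ext
    intro d
    rw [Equiv.Perm.inv_eq_iff_eq, hsa, hsa, SimpleGraph.Dart.symm_symm]
  have hedge : ∀ d, (s d).edge = d.edge := fun d => by
    rw [hsa, SimpleGraph.Dart.edge_symm]
  have hpow : ∀ (i : ℤ) (d : G.Dart), ((s ^ i) d).edge = d.edge := by
    have hn : ∀ (n : ℕ) (d : G.Dart), ((s ^ n) d).edge = d.edge := by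
      intro n
      induction n with
      | zero => intro d; rfl
      | succ n ih =>
        intro d
        rw [pow_succ, Equiv.Perm.mul_apply, ih, hedge]
    intro i d
    cases i with
    | ofNat n => exact hn n d
    | negSucc n =>
      rw [zpow_negSucc, ← inv_pow, hss]
      exact hn (n + 1) d
  let f : Quotient (Equiv.Perm.SameCycle.setoid s) → G.edgeSet :=
    Quotient.lift (fun d => ⟨d.edge, d.edge_mem⟩) (by
      rintro a b ⟨i, hi⟩
      apply Subtype.ext
      show a.edge = b.edge
      rw [← hi]
      exact (hpow i a).symm)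
  have hf : Function.Bijective f := by
    constructor
    · intro x y
      induction x using Quotient.inductionOn with | _ a => ?_
      induction y using Quotient.inductionOn with | _ b => ?_
      intro hab
      apply Quotient.sound
      have h1 : a.edge = b.edge := congrArg Subtype.val hab
      rcases SimpleGraph.dart_edge_eq_iff a b |>.1 h1 with h2 | h2
      · rw [h2]
      · refine ⟨1, ?_⟩
        rw [zpow_one, hsa, h2, SimpleGraph.Dart.symm_symm]
    · rintro ⟨e, he⟩
      induction e using Sym2.ind with | _ v w => ?_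
      exact ⟨Quotient.mk _ ⟨(v, w), he⟩, rfl⟩
  exact Nat.card_eq_of_bijective f hf

theorem rot_parity {V : Type*} [Fintype V] (G : SimpleGraph V) (σ : Perm G.Dart) (h : Rot G σ)
    (hd : ∀ v, ∃ w, G.Adj v w) :
    Even (Nat.card V + Nat.card G.edgeSet + faces G σ) := by
  classical
  have h1 := perm_parity σ
  have h2 := perm_parity (Function.Involutive.toPerm SimpleGraph.Dart.symm
        SimpleGraph.Dart.symm_involutive : Perm G.Dart)
  have h3 := perm_parity (fp G σ)
  rw [countB_card_rot G σ h hd] at h1
  rw [countB_card_symm] at h2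
  have h4 : Nat.card (Quotient (Equiv.Perm.SameCycle.setoid (fp G σ))) = faces G σ := rfl
  rw [h4] at h3
  have h5 : Equiv.Perm.sign (fp G σ) = Equiv.Perm.sign σ * Equiv.Perm.sign
      (Function.Involutive.toPerm SimpleGraph.Dart.symm
        SimpleGraph.Dart.symm_involutive : Perm G.Dart) := Equiv.Perm.sign_mul _ _
  have hD : Fintype.card G.Dart = 2 * Nat.card G.edgeSet := by
    rw [SimpleGraph.dart_card_eq_twice_card_edges, Nat.card_eq_fintype_card,
      SimpleGraph.edgeFinset_card]
  rw [hD] at h1 h2 h3
  rw [h5] at h3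
  obtain ⟨x, hx⟩ : ∃ x, x = Equiv.Perm.sign σ := ⟨_, rfl⟩
  obtain ⟨y, hy⟩ : ∃ y, y = Equiv.Perm.sign (Function.Involutive.toPerm SimpleGraph.Dart.symm
        SimpleGraph.Dart.symm_involutive : Perm G.Dart) := ⟨_, rfl⟩
  rw [← hx] at h1 h3
  rw [← hy] at h2 h3
  clear h5 h4 hx hy
  have e1 : ¬ ((-1 : ℤˣ) = 1) := by decide
  rcases Int.units_eq_one_or x with rfl | rfl <;> rcases Int.units_eq_one_or y with rfl | rfl
  · simp only [true_iff, mul_one] at h1 h2 h3
    rw [Nat.even_iff] at *
    omega
  · simp only [true_iff, e1, false_iff, one_mul] at h1 h2 h3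
    rw [Nat.even_iff] at *
    omega
  · simp only [true_iff, e1, false_iff, mul_one] at h1 h2 h3
    rw [Nat.even_iff] at *
    omega
  · have e2 : (-1 : ℤˣ) * -1 = 1 := by decide
    simp only [e1, false_iff, e2, true_iff] at h1 h2 h3
    rw [Nat.even_iff] at *
    omega

end Pool.Agent.W_MP_43c969_h13
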