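import Pool.Agent.W_MP_43c969_h13.Defs
import Pool.Agent.W_MP_43c969_h13.Graph

/-!
# Task CountC: upper bound for the number of faces

`faces_upper`: give the weight `2` to the darts between two `N`-vertices and the weight `1` to the
other darts. The total weight is `2 * (2 q r) + 2 p (q + r)`. Every face has weight at least `4`:
a face has at least three darts (a face `{d}` would need `σ d.symm = d`, but the first vertex of
`d.symm` is not that of `d`; a face `{d, d'}` gives `σ d.symm = d'`, `σ d'.symm = d`, so `d'` starts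
where `d` ends and `d` starts where `d'` ends, `d' = d.symm` (a simple graph), so `σ` fixes `d'`,
so there is only one dart with the first vertex of `d'`: impossible because all the degrees are at
least two). If it has exactly three darts, they go around a triangle, whose vertices are in the
three classes; exactly one of the three darts joins two `N`-vertices, so the weight is `4`. If it
has at least four darts, the weight is at least four. Hence `4 F ≤ 4 q r + 2 p (q + r)`.
-/

set_option autoImplicit false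

namespace Pool.Agent.W_MP_43c969_h13

open Equiv

/-- the weight of a dart. -/
def cwt {p q r : ℕ} (d : (T3 p q r).Dart) : ℕ := if cls d.fst ≠ 0 ∧ cls d.snd ≠ 0 then 2 else 1

theorem one_le_cwt {p q r : ℕ} (d : (T3 p q r).Dart) : 1 ≤ cwt d := by
  unfold cwt
  split_ifs <;> omega

/-- all the degrees are at least two. -/
theorem countC_deg {p q r : ℕ} (hp : 2 ≤ p) (hn : 2 ≤ q + r) (d : (T3 p q r).Dart) :
    ∃ d' : (T3 p q r).Dart, d'.fst = d.fst ∧ d' ≠ d := by
  have key : ∀ v w : Fin p ⊕ (Fin q ⊕ Fin r), ∃ w', cls v ≠ cls w' ∧ w' ≠ w := by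
    intro v w
    rcases v with a | x
    · -- neighbours in `N`
      by_cases hw : ∃ i, w = Sum.inr i
      · obtain ⟨i, rfl⟩ := hw
        have hc : 1 < Fintype.card (Fin q ⊕ Fin r) := by
          simp only [Fintype.card_sum, Fintype.card_fin]
          omega
        obtain ⟨j, hj⟩ := Fintype.exists_ne_of_one_lt_card hc i
        refine ⟨Sum.inr j, ?_, fun h => hj (Sum.inr_injective h)⟩
        rcases j with j | j <;> simp [cls]
      · have hc : 0 < Fintype.card (Fin q ⊕ Fin r) := by
          simp only [Fintype.card_sum, Fintype.card_fin]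
          omega
        obtain ⟨j⟩ := Fintype.card_pos_iff.1 hc
        refine ⟨Sum.inr j, ?_, fun h => hw ⟨j, h.symm⟩⟩
        rcases j with j | j <;> simp [cls]
    · -- neighbours in `P`
      by_cases hw : ∃ i, w = Sum.inl i
      · obtain ⟨i, rfl⟩ := hw
        have hc : 1 < Fintype.card (Fin p) := by
          simp only [Fintype.card_fin]
          omega
        obtain ⟨j, hj⟩ := Fintype.exists_ne_of_one_lt_card hc i
        refine ⟨Sum.inl j, ?_, fun h => hj (Sum.inl_injective h)⟩
        rcases x with x | x <;> simp [cls]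
      · refine ⟨Sum.inl ⟨0, by omega⟩, ?_, fun h => hw ⟨_, h.symm⟩⟩
        rcases x with x | x <;> simp [cls]
  obtain ⟨w', h1, h2⟩ := key d.fst d.snd
  exact ⟨⟨(d.fst, w'), h1⟩, rfl, fun h => h2 (congrArg (fun d => d.snd) h)⟩

section face

variable {p q r : ℕ} {σ : Perm (T3 p q r).Dart}

theorem countC_fst (h : Rot (T3 p q r) σ) (d : (T3 p q r).Dart) :
    (fp (T3 p q r) σ d).fst = d.snd := by
  rw [fp_apply, h.fst]
  rfl

theorem countC_ne1 (h : Rot (T3 p q r) σ) (d : (T3 p q r).Dart) : fp (T3 p q r) σ d ≠ d := by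
  intro he
  have h1 := countC_fst h d
  rw [he] at h1
  exact d.fst_ne_snd h1

theorem countC_ne2 (hp : 2 ≤ p) (hn : 2 ≤ q + r) (h : Rot (T3 p q r) σ) (d : (T3 p q r).Dart) :
    fp (T3 p q r) σ (fp (T3 p q r) σ d) ≠ d := by
  intro he
  have h1 := countC_fst h d
  have h2 := countC_fst h (fp (T3 p q r) σ d)
  rw [he] at h2
  have h3 : fp (T3 p q r) σ d = d.symm := by
    apply SimpleGraph.Dart.ext
    exact Prod.ext h1 h2.symm
  have h4 : σ d.symm = d.symm := h3
  obtain ⟨d', h5, h6⟩ := countC_deg hp hn d.symm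
  obtain ⟨n, hn'⟩ := h.tr d.symm d' h5.symm
  have h7 : (σ ^ n) d.symm = d.symm := by
    have : Function.IsFixedPt σ d.symm := h4
    exact Function.IsFixedPt.perm_pow this n
  rw [h7] at hn'
  exact h6 hn'.symm

/-- the weight of a face is at least four. -/
theorem countC_face [Fintype (T3 p q r).Dart] (hp : 2 ≤ p) (hn : 2 ≤ q + r)
    (h : Rot (T3 p q r) σ) (S : Finset (T3 p q r).Dart) (d : (T3 p q r).Dart) (hd : d ∈ S)
    (hS : ∀ e ∈ S, fp (T3 p q r) σ e ∈ S) : 4 ≤ ∑ e ∈ S, cwt e := by
  classical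
  obtain ⟨f, hf⟩ : ∃ f, f = fp (T3 p q r) σ := ⟨_, rfl⟩
  rw [← hf] at hS
  have n1 : ∀ e, f e ≠ e := by rw [hf]; exact countC_ne1 h
  have n2 : ∀ e, f (f e) ≠ e := by rw [hf]; exact countC_ne2 hp hn h
  have hfst : ∀ e, (f e).fst = e.snd := by rw [hf]; exact countC_fst h
  have h1 : f d ∈ S := hS _ hd
  have h2 : f (f d) ∈ S := hS _ h1
  have h3 : f (f (f d)) ∈ S := hS _ h2
  have e01 : d ≠ f d := (n1 d).symm
  have e02 : d ≠ f (f d) := (n2 d).symm
  have e12 : f d ≠ f (f d) := (n1 (f d)).symm
  by_cases e03 : f (f (f d)) = d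
  · -- a triangle
    have hsub : ({d, f d, f (f d)} : Finset (T3 p q r).Dart) ⊆ S := by
      intro e he
      simp only [Finset.mem_insert, Finset.mem_singleton] at he
      rcases he with rfl | rfl | rfl <;> assumption
    refine le_trans ?_ (Finset.sum_le_sum_of_subset hsub)
    rw [Finset.sum_insert (by simp [e01, e02]), Finset.sum_insert (by simp [e12]),
      Finset.sum_singleton]
    have a1 : cls d.fst ≠ cls d.snd := d.adj
    have a2 : cls (f d).fst ≠ cls (f d).snd := (f d).adj
    have a3 : cls (f (f d)).fst ≠ cls (f (f d)).snd := (f (f d)).adj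
    have b1 := hfst d
    have b2 := hfst (f d)
    have b3 := hfst (f (f d))
    rw [e03] at b3
    rw [b1] at a2
    rw [b2, ← b3] at a3
    have c0 : cwt d = if cls d.fst ≠ 0 ∧ cls d.snd ≠ 0 then 2 else 1 := rfl
    have c1 : cwt (f d) = if cls d.snd ≠ 0 ∧ cls (f d).snd ≠ 0 then 2 else 1 := by
      unfold cwt
      rw [b1]
    have c2 : cwt (f (f d)) = if cls (f d).snd ≠ 0 ∧ cls d.fst ≠ 0 then 2 else 1 := by
      unfold cwt
      rw [b2, ← b3]
    rw [c0, c1, c2]
    have key : ∀ x y z : Fin 3, x ≠ y → y ≠ z → z ≠ x →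
        4 ≤ (if x ≠ 0 ∧ y ≠ 0 then 2 else 1) + ((if y ≠ 0 ∧ z ≠ 0 then 2 else 1) +
          if z ≠ 0 ∧ x ≠ 0 then 2 else 1) := by decide
    exact key _ _ _ a1 a2 a3
  · have e13 : f d ≠ f (f (f d)) := fun he => e02 (f.injective he)
    have e23 : f (f d) ≠ f (f (f d)) := fun he => e12 (f.injective he)
    have hsub : ({d, f d, f (f d), f (f (f d))} : Finset (T3 p q r).Dart) ⊆ S := by
      intro e he
      simp only [Finset.mem_insert, Finset.mem_singleton] at he
      rcases he with rfl | rfl | rfl | rfl <;> assumption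
    refine le_trans ?_ (Finset.sum_le_sum_of_subset hsub)
    have hcard : ({d, f d, f (f d), f (f (f d))} : Finset (T3 p q r).Dart).card = 4 := by
      rw [Finset.card_insert_of_notMem, Finset.card_insert_of_notMem,
        Finset.card_insert_of_notMem, Finset.card_singleton]
      · simp [e23]
      · simp [e12, e13]
      · simp [e01, e02, Ne.symm e03]
    calc 4 = ∑ _e ∈ ({d, f d, f (f d), f (f (f d))} : Finset (T3 p q r).Dart), 1 := by
          rw [Finset.sum_const, hcard, smul_eq_mul, mul_one]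
      _ ≤ _ := Finset.sum_le_sum fun e _ => one_le_cwt e

end face

/-- the darts between two `N`-vertices. -/
theorem countC_NN (p q r : ℕ) [Fintype (T3 p q r).Dart] :
    (Finset.univ.filter fun d : (T3 p q r).Dart => cls d.fst ≠ 0 ∧ cls d.snd ≠ 0).card ≤
      2 * (q * r) := by
  classical
  let g : (T3 p q r).Dart → (Fin p ⊕ (Fin q ⊕ Fin r)) × (Fin p ⊕ (Fin q ⊕ Fin r)) :=
    fun d => d.toProd
  have hg : Function.Injective g := fun d d' h => SimpleGraph.Dart.ext _ _ h
  rw [← Finset.card_image_of_injective _ hg]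
  have hsub : (Finset.univ.filter fun d : (T3 p q r).Dart =>
      cls d.fst ≠ 0 ∧ cls d.snd ≠ 0).image g ⊆
      (Finset.univ : Finset (Fin q × Fin r)).image
        (fun x => (Sum.inr (Sum.inl x.1), Sum.inr (Sum.inr x.2))) ∪
      (Finset.univ : Finset (Fin q × Fin r)).image
        (fun x => (Sum.inr (Sum.inr x.2), Sum.inr (Sum.inl x.1))) := by
    intro x hx
    obtain ⟨d, hd, rfl⟩ := Finset.mem_image.1 hx
    obtain ⟨hd1, hd2⟩ := (Finset.mem_filter.1 hd).2
    have hadj : cls d.fst ≠ cls d.snd := d.adj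
    obtain ⟨⟨u, v⟩, huv⟩ := d
    simp only at hd1 hd2 hadj
    rw [Finset.mem_union, Finset.mem_image, Finset.mem_image]
    rcases u with a | a | a <;> rcases v with b | b | b <;> simp [cls, g] at hd1 hd2 hadj ⊢
  refine (Finset.card_le_card hsub).trans ((Finset.card_union_le _ _).trans ?_)
  have h1 := Finset.card_image_le (s := (Finset.univ : Finset (Fin q × Fin r)))
    (f := fun x => ((Sum.inr (Sum.inl x.1) : Fin p ⊕ (Fin q ⊕ Fin r)),
      (Sum.inr (Sum.inr x.2) : Fin p ⊕ (Fin q ⊕ Fin r))))
  have h2 := Finset.card_image_le (s := (Finset.univ : Finset (Fin q × Fin r)))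
    (f := fun x => ((Sum.inr (Sum.inr x.2) : Fin p ⊕ (Fin q ⊕ Fin r)),
      (Sum.inr (Sum.inl x.1) : Fin p ⊕ (Fin q ⊕ Fin r))))
  rw [Finset.card_univ, Fintype.card_prod, Fintype.card_fin, Fintype.card_fin] at h1 h2
  omega

theorem faces_upper (p q r : ℕ) (hp : 2 ≤ p) (hn : 2 ≤ q + r) (σ : Perm (T3 p q r).Dart)
    (h : Rot (T3 p q r) σ) : 2 * faces (T3 p q r) σ ≤ 2 * (q * r) + p * (q + r) := by
  classical
  have hfin : Finite (T3 p q r).Dart :=
    Finite.of_injective (fun d : (T3 p q r).Dart => d.toProd)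
      (fun d d' h => SimpleGraph.Dart.ext _ _ h)
  have hfd : Fintype (T3 p q r).Dart := Fintype.ofFinite _
  obtain ⟨s, hs⟩ : ∃ s, s = Equiv.Perm.SameCycle.setoid (fp (T3 p q r) σ) := ⟨_, rfl⟩
  have hfq : Fintype (Quotient s) := Fintype.ofFinite _
  have hfaces : faces (T3 p q r) σ = Fintype.card (Quotient s) := by
    rw [← Nat.card_eq_fintype_card, hs]
    rfl
  -- total weight
  have htot : ∑ d : (T3 p q r).Dart, cwt d ≤ 2 * (p * (q + r) + q * r) + 2 * (q * r) := by
    have h1 : ∑ d : (T3 p q r).Dart, cwt d = Fintype.card (T3 p q r).Dart +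
        (Finset.univ.filter fun d : (T3 p q r).Dart => cls d.fst ≠ 0 ∧ cls d.snd ≠ 0).card := by
      rw [Finset.card_filter, ← Finset.card_univ, Finset.card_eq_sum_ones,
        ← Finset.sum_add_distrib]
      refine Finset.sum_congr rfl fun d _ => ?_
      unfold cwt
      split_ifs <;> rfl
    rw [h1, ← Nat.card_eq_fintype_card, card_darts_T3]
    exact Nat.add_le_add_left (countC_NN p q r) _
  -- weight of the faces
  have hsum : 4 * Fintype.card (Quotient s) ≤ ∑ d : (T3 p q r).Dart, cwt d := by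
    rw [← Finset.sum_fiberwise (s := (Finset.univ : Finset (T3 p q r).Dart))
      (g := fun d => (Quotient.mk s d : Quotient s))]
    rw [mul_comm, ← Finset.card_univ, ← smul_eq_mul, ← Finset.sum_const]
    refine Finset.sum_le_sum fun x _ => ?_
    obtain ⟨d, rfl⟩ := Quotient.exists_rep x
    refine countC_face hp hn h _ d (by simp) (fun e he => ?_)
    rw [Finset.mem_filter] at he ⊢
    refine ⟨Finset.mem_univ _, ?_⟩
    rw [← he.2]
    apply Quotient.sound
    subst hs
    exact (Equiv.Perm.sameCycle_apply_left.2 (Equiv.Perm.SameCycle.refl _ _))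
  rw [hfaces]
  nlinarith

end Pool.Agent.W_MP_43c969_h13
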