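import Pool.Agent.W_MP_43c969_h13.Defs
import Pool.Agent.W_MP_43c969_h13.Basic
import Pool.Agent.W_MP_43c969_h13.Graph

/-!
# Task RotEmb: from an `Emb` to a rotation system of the complete tripartite graph

Let `E : Emb (Fin p) (Fin q ⊕ Fin r)` with rows and columns cycles, covering all the pairs
`y : Fin q`, `z : Fin r`. For every such pair choose an arc `ch y z = (a, x)` with
`{x, rho a x} = {inl y, inr z}`; these `q * r` arcs are the chosen arcs (they are pairwise different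
since the pair can be read off the arc). We write `P`-vertices `a`, `N`-vertices `x`.

*Rotations* (the successor of a neighbour):
* at the `P`-vertex `a`: `x ↦ rho a x`;
* at the `N`-vertex `y`, for a row `b`, with `a = pi y b`: in the corner between `b` and `a` we
  insert first `w = (rho b)⁻¹ y` if the arc `(b, w)` (which ends at `y`) is chosen, then
  `v = rho a y` if the arc `(a, y)` (which starts at `y`) is chosen. So
  `next b = w` if `(b, w)` is chosen, else `v` if `(a, y)` is chosen, else `a`;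
  for a neighbour `u` of `y` in the other class, with chosen arc of `{u, y}` equal to `(b, u)`
  (`u = w`, ends at `y`): `next u = v` if `(a, y)` is chosen (`a = pi y b`), else `a`;
  with chosen arc equal to `(a, y)` (`u = v`): `next u = a`.
  This is a cyclic order on all the neighbours of `y`: all the rows are in it in the order `pi y`,
  and every neighbour of `y` in the other class is inserted exactly once.
  (As a permutation of the darts at `y`: give the inverse, or prove injectivity.)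

*Faces.* The face permutation is `F d = σ d.symm`:
* `F (x → a) = (a → rho a x)`;
* `F (a → y) = (y → next a)`, `F (u → y) = (y → next u)` for `u` an `N`-vertex.
Define a label for every dart, with values in the disjoint union of the set of the pairs `(y, z)`
and of the set of the cycles of `phi` (for an arc `e` write `[e]` for its cycle):
* `L (x → a) = L (a → rho a x) =` the pair `{x, rho a x}` if the arc `(a, x)` is chosen, `[(a, x)]`
  otherwise;
* `L (u → y)` (both `N`-vertices) `= [(b, u)]` if the chosen arc of `{u, y}` is `(b, u)` (it starts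
  at `u`), and `=` the pair `{u, y}` if the chosen arc is `(b, y)` (it starts at `y`).
Then `L (F d) = L d`:
* `d = (x → a)`: by definition.
* `d = (a → y)`, `x = (rho a)⁻¹ y`. If `(a, x)` is chosen then `next a = x`, `F d = (y → x)`, whose
  label is the pair since the chosen arc starts at `x`. If not, let `a' = pi y a`; `F d` is
  `(y → rho a' y)` if `(a', y)` is chosen, with label `[(a', y)] = [phi (a, x)] = [(a, x)]`, and
  otherwise `F d = (y → a')` with label `[(a', y)] = [(a, x)]`.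
* `d = (u → y)`, chosen arc `(b, u)`, label `[(b, u)]`; `a' = pi y b`; `F d` is `(y → rho a' y)` if
  `(a', y)` is chosen, else `(y → a')`, with label `[(a', y)] = [phi (b, u)]`.
* `d = (u → y)`, chosen arc `(a, y)` (starting at `y`), label the pair `{u, y}`: `F d = (y → a)`,
  and `(a, y)` is chosen, so the label is the pair.
So `L` factors through the quotient by the cycles of `F`. It is surjective: the pair `{y, z}` with
chosen arc `(a, x)` is the label of `(x → a)`; the class `[(a, x)]` is the label of `(x → a)` if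
`(a, x)` is not chosen and of `(x → rho a x)` if it is chosen. Hence the number of faces is at least
`q r +` the number of cycles of `phi`.
-/

set_option autoImplicit false

namespace Pool.Agent.W_MP_43c969_h13

open Equiv

theorem RotEmb_apply_inv {X : Type*} (f : Perm X) (x : X) : f (f⁻¹ x) = x :=
  f.apply_symm_apply x

theorem RotEmb_inv_apply {X : Type*} (f : Perm X) (x : X) : f⁻¹ (f x) = x :=
  f.symm_apply_apply x

/-- An embedding with a chosen arc for every pair of adjacent `N`-vertices. -/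
structure RotEmbD (p q r : ℕ) where
  E : Emb (Fin p) (Fin q ⊕ Fin r)
  ch : Fin q ⊕ Fin r → Fin q ⊕ Fin r → Fin p × (Fin q ⊕ Fin r)
  symm : ∀ u v, (T3 p q r).Adj (Sum.inr u) (Sum.inr v) → ch u v = ch v u
  spec : ∀ u v, (T3 p q r).Adj (Sum.inr u) (Sum.inr v) →
    ((ch u v).2 = u ∧ E.rho (ch u v).1 u = v) ∨ ((ch u v).2 = v ∧ E.rho (ch u v).1 v = u)

theorem RotEmb_exists (p q r : ℕ) (hp : 1 ≤ p) (E : Emb (Fin p) (Fin q ⊕ Fin r))
    (hcov : ∀ x y, Across x y → E.Cov x y) : ∃ D : RotEmbD p q r, D.E = E := by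
  have h : ∀ (y : Fin q) (z : Fin r), ∃ e : Fin p × (Fin q ⊕ Fin r),
      (e.2 = Sum.inl y ∧ E.rho e.1 (Sum.inl y) = Sum.inr z) ∨
        (e.2 = Sum.inr z ∧ E.rho e.1 (Sum.inr z) = Sum.inl y) := by
    intro y z
    obtain ⟨a, h | h⟩ := hcov (Sum.inl y) (Sum.inr z) ⟨y, z, rfl, rfl⟩
    · exact ⟨(a, Sum.inl y), Or.inl ⟨rfl, h⟩⟩
    · exact ⟨(a, Sum.inr z), Or.inr ⟨rfl, h⟩⟩
  choose f hf using h
  let c : Fin q ⊕ Fin r → Fin q ⊕ Fin r → Fin p × (Fin q ⊕ Fin r) := fun u v =>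
    match u, v with
    | Sum.inl y, Sum.inr z => f y z
    | Sum.inr z, Sum.inl y => f y z
    | Sum.inl y, Sum.inl _ => (⟨0, hp⟩, Sum.inl y)
    | Sum.inr z, Sum.inr _ => (⟨0, hp⟩, Sum.inr z)
  refine ⟨⟨E, c, ?_, ?_⟩, rfl⟩
  · rintro (y | z) (y' | z') h
    · exact absurd rfl h
    · rfl
    · rfl
    · exact absurd rfl h
  · rintro (y | z) (y' | z') h
    · exact absurd rfl h
    · exact hf y z'
    · exact (hf y' z).symm
    · exact absurd rfl h

namespace RotEmbD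

variable {p q r : ℕ} (D : RotEmbD p q r)

/-- The arc is chosen. -/
def C (e : Fin p × (Fin q ⊕ Fin r)) : Prop :=
  (T3 p q r).Adj (Sum.inr e.2) (Sum.inr (D.E.rho e.1 e.2)) ∧ D.ch e.2 (D.E.rho e.1 e.2) = e

theorem ne {u v : Fin q ⊕ Fin r} (h : (T3 p q r).Adj (Sum.inr u) (Sum.inr v)) : u ≠ v := by
  rintro rfl
  exact h rfl

theorem adj_row (a : Fin p) (x : Fin q ⊕ Fin r) : (T3 p q r).Adj (Sum.inl a) (Sum.inr x) := by
  rcases x with y | z
  · show (0 : Fin 3) ≠ 1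
    decide
  · show (0 : Fin 3) ≠ 2
    decide

theorem C_ch {u v : Fin q ⊕ Fin r} (h : (T3 p q r).Adj (Sum.inr u) (Sum.inr v)) :
    D.C (D.ch u v) := by
  rcases D.spec u v h with ⟨h1, h2⟩ | ⟨h1, h2⟩
  · refine ⟨?_, ?_⟩
    · rw [h1, h2]
      exact h
    · rw [h1, h2]
  · refine ⟨?_, ?_⟩
    · rw [h1, h2]
      exact h.symm
    · rw [h1, h2]
      exact (D.symm u v h).symm

/-- The two cases for the chosen arc of `{u, y}`. -/
theorem cases_ch {u y : Fin q ⊕ Fin r} (h : (T3 p q r).Adj (Sum.inr u) (Sum.inr y)) :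
    ((D.ch u y).2 = y ∧ D.ch u y = ((D.ch u y).1, y) ∧ D.E.rho (D.ch u y).1 y = u ∧
        D.C ((D.ch u y).1, y)) ∨
      ((D.ch u y).2 ≠ y ∧ (D.ch u y).2 = u ∧ D.ch u y = ((D.ch u y).1, u) ∧
        D.E.rho (D.ch u y).1 u = y ∧ D.C ((D.ch u y).1, u)) := by
  have hC := D.C_ch h
  rcases D.spec u y h with ⟨h1, h2⟩ | ⟨h1, h2⟩
  · right
    have e : D.ch u y = ((D.ch u y).1, u) := Prod.ext rfl h1
    refine ⟨?_, h1, e, h2, ?_⟩
    · rw [h1]
      exact ne h
    · rw [← e]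
      exact hC
  · left
    have e : D.ch u y = ((D.ch u y).1, y) := Prod.ext rfl h1
    refine ⟨h1, e, h2, ?_⟩
    rw [← e]
    exact hC

theorem C_out {a : Fin p} {y : Fin q ⊕ Fin r} (h : D.C (a, y)) :
    (T3 p q r).Adj (Sum.inr y) (Sum.inr (D.E.rho a y)) ∧
      D.ch y (D.E.rho a y) = (a, y) ∧ D.ch (D.E.rho a y) y = (a, y) := by
  obtain ⟨h1, h2⟩ := h
  exact ⟨h1, h2, (D.symm _ _ h1).symm.trans h2⟩

theorem C_in {b : Fin p} {y : Fin q ⊕ Fin r} (h : D.C (b, (D.E.rho b)⁻¹ y)) :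
    (T3 p q r).Adj (Sum.inr y) (Sum.inr ((D.E.rho b)⁻¹ y)) ∧
      D.ch y ((D.E.rho b)⁻¹ y) = (b, (D.E.rho b)⁻¹ y) ∧
      D.ch ((D.E.rho b)⁻¹ y) y = (b, (D.E.rho b)⁻¹ y) ∧ (D.E.rho b)⁻¹ y ≠ y := by
  have h0 : D.E.rho b ((D.E.rho b)⁻¹ y) = y := RotEmb_apply_inv _ _
  obtain ⟨h1, h2, h3⟩ := D.C_out h
  rw [h0] at h1 h2 h3
  exact ⟨h1.symm, h3, h2, ne h1⟩

open Classical in
/-- The neighbour of `y` in the corner before the row `a`, if there is one, else `a`. -/
noncomputable def out (y : Fin q ⊕ Fin r) (a : Fin p) : Fin p ⊕ (Fin q ⊕ Fin r) :=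
  if D.C (a, y) then Sum.inr (D.E.rho a y) else Sum.inl a

open Classical in
/-- The neighbour of `y` in the corner after the row `b`, if there is one, else `b`. -/
noncomputable def inn (y : Fin q ⊕ Fin r) (b : Fin p) : Fin p ⊕ (Fin q ⊕ Fin r) :=
  if D.C (b, (D.E.rho b)⁻¹ y) then Sum.inr ((D.E.rho b)⁻¹ y) else Sum.inl b

open Classical in
/-- The rotation: the neighbour of the first vertex following the second vertex. -/
noncomputable def nx : Fin p ⊕ (Fin q ⊕ Fin r) → Fin p ⊕ (Fin q ⊕ Fin r) →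
    Fin p ⊕ (Fin q ⊕ Fin r)
  | Sum.inl a, Sum.inr x => Sum.inr (D.E.rho a x)
  | Sum.inl _, Sum.inl b => Sum.inl b
  | Sum.inr y, Sum.inl b => if D.C (b, (D.E.rho b)⁻¹ y) then Sum.inr ((D.E.rho b)⁻¹ y)
      else D.out y (D.E.pi y b)
  | Sum.inr y, Sum.inr u => if (D.ch u y).2 = y then Sum.inl (D.ch u y).1
      else D.out y (D.E.pi y (D.ch u y).1)

open Classical in
/-- The inverse rotation. -/
noncomputable def pv : Fin p ⊕ (Fin q ⊕ Fin r) → Fin p ⊕ (Fin q ⊕ Fin r) →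
    Fin p ⊕ (Fin q ⊕ Fin r)
  | Sum.inl a, Sum.inr x => Sum.inr ((D.E.rho a)⁻¹ x)
  | Sum.inl _, Sum.inl b => Sum.inl b
  | Sum.inr y, Sum.inl a => if D.C (a, y) then Sum.inr (D.E.rho a y)
      else D.inn y ((D.E.pi y)⁻¹ a)
  | Sum.inr y, Sum.inr u => if (D.ch u y).2 = y then D.inn y ((D.E.pi y)⁻¹ (D.ch u y).1)
      else Sum.inl (D.ch u y).1

theorem out_pos {y : Fin q ⊕ Fin r} {a : Fin p} (h : D.C (a, y)) :
    D.out y a = Sum.inr (D.E.rho a y) := if_pos h

theorem out_neg {y : Fin q ⊕ Fin r} {a : Fin p} (h : ¬ D.C (a, y)) :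
    D.out y a = Sum.inl a := if_neg h

theorem inn_pos {y : Fin q ⊕ Fin r} {b : Fin p} (h : D.C (b, (D.E.rho b)⁻¹ y)) :
    D.inn y b = Sum.inr ((D.E.rho b)⁻¹ y) := if_pos h

theorem inn_neg {y : Fin q ⊕ Fin r} {b : Fin p} (h : ¬ D.C (b, (D.E.rho b)⁻¹ y)) :
    D.inn y b = Sum.inl b := if_neg h

theorem nx_row (a : Fin p) (x : Fin q ⊕ Fin r) :
    D.nx (Sum.inl a) (Sum.inr x) = Sum.inr (D.E.rho a x) := rfl

theorem nx_inl_pos {y : Fin q ⊕ Fin r} {b : Fin p} (h : D.C (b, (D.E.rho b)⁻¹ y)) :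
    D.nx (Sum.inr y) (Sum.inl b) = Sum.inr ((D.E.rho b)⁻¹ y) := if_pos h

theorem nx_inl_neg {y : Fin q ⊕ Fin r} {b : Fin p} (h : ¬ D.C (b, (D.E.rho b)⁻¹ y)) :
    D.nx (Sum.inr y) (Sum.inl b) = D.out y (D.E.pi y b) := if_neg h

theorem nx_inr_pos {y u : Fin q ⊕ Fin r} (h : (D.ch u y).2 = y) :
    D.nx (Sum.inr y) (Sum.inr u) = Sum.inl (D.ch u y).1 := if_pos h

theorem nx_inr_neg {y u : Fin q ⊕ Fin r} (h : (D.ch u y).2 ≠ y) :
    D.nx (Sum.inr y) (Sum.inr u) = D.out y (D.E.pi y (D.ch u y).1) := if_neg h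

theorem pv_inl_pos {y : Fin q ⊕ Fin r} {a : Fin p} (h : D.C (a, y)) :
    D.pv (Sum.inr y) (Sum.inl a) = Sum.inr (D.E.rho a y) := if_pos h

theorem pv_inl_neg {y : Fin q ⊕ Fin r} {a : Fin p} (h : ¬ D.C (a, y)) :
    D.pv (Sum.inr y) (Sum.inl a) = D.inn y ((D.E.pi y)⁻¹ a) := if_neg h

theorem pv_inr_pos {y u : Fin q ⊕ Fin r} (h : (D.ch u y).2 = y) :
    D.pv (Sum.inr y) (Sum.inr u) = D.inn y ((D.E.pi y)⁻¹ (D.ch u y).1) := if_pos h

theorem pv_inr_neg {y u : Fin q ⊕ Fin r} (h : (D.ch u y).2 ≠ y) :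
    D.pv (Sum.inr y) (Sum.inr u) = Sum.inl (D.ch u y).1 := if_neg h

theorem out_adj (y : Fin q ⊕ Fin r) (a : Fin p) : (T3 p q r).Adj (Sum.inr y) (D.out y a) := by
  by_cases h : D.C (a, y)
  · rw [D.out_pos h]
    exact h.1
  · rw [D.out_neg h]
    exact (adj_row a y).symm

theorem nx_adj {u v : Fin p ⊕ (Fin q ⊕ Fin r)} (h : (T3 p q r).Adj u v) :
    (T3 p q r).Adj u (D.nx u v) := by
  rcases u with a | y
  · rcases v with b | x
    · exact absurd rfl h
    · exact adj_row a _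
  · rcases v with b | u
    · by_cases hC : D.C (b, (D.E.rho b)⁻¹ y)
      · rw [D.nx_inl_pos hC]
        exact (D.C_in hC).1
      · rw [D.nx_inl_neg hC]
        exact D.out_adj y _
    · by_cases h2 : (D.ch u y).2 = y
      · rw [D.nx_inr_pos h2]
        exact (adj_row _ y).symm
      · rw [D.nx_inr_neg h2]
        exact D.out_adj y _

/-- The inverse rotation at the vertex after an `out` corner. -/
theorem pv_out (y : Fin q ⊕ Fin r) (b : Fin p) :
    D.pv (Sum.inr y) (D.out y (D.E.pi y b)) = D.inn y b := by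
  by_cases hC : D.C (D.E.pi y b, y)
  · obtain ⟨h1, h2, h3⟩ := D.C_out hC
    rw [D.out_pos hC, D.pv_inr_pos (by rw [h3]), h3]
    congr 1
    exact RotEmb_inv_apply _ _
  · rw [D.out_neg hC, D.pv_inl_neg hC]
    congr 1
    exact RotEmb_inv_apply _ _

theorem pv_nx {u v : Fin p ⊕ (Fin q ⊕ Fin r)} (h : (T3 p q r).Adj u v) :
    D.pv u (D.nx u v) = v := by
  rcases u with a | y
  · rcases v with b | x
    · exact absurd rfl h
    · show Sum.inr ((D.E.rho a)⁻¹ (D.E.rho a x)) = Sum.inr x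
      rw [RotEmb_inv_apply]
  · rcases v with b | u
    · by_cases hC : D.C (b, (D.E.rho b)⁻¹ y)
      · obtain ⟨h1, h2, h3, h4⟩ := D.C_in hC
        rw [D.nx_inl_pos hC, D.pv_inr_neg (by rw [h3]; exact h4), h3]
      · rw [D.nx_inl_neg hC, pv_out, D.inn_neg hC]
    · rcases D.cases_ch h.symm with ⟨h1, h2, h3, h4⟩ | ⟨h1, h2, h3, h4, h5⟩
      · rw [D.nx_inr_pos h1, D.pv_inl_pos h4, h3]
      · have h6 : (D.E.rho (D.ch u y).1)⁻¹ y = u := by
          rw [Equiv.Perm.inv_eq_iff_eq]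
          exact h4.symm
        rw [D.nx_inr_neg h1, pv_out, D.inn_pos (by rw [h6]; exact h5), h6]

/-- The rotation as a map of the darts. -/
noncomputable def step (d : (T3 p q r).Dart) : (T3 p q r).Dart :=
  ⟨(d.fst, D.nx d.fst d.snd), D.nx_adj d.adj⟩

theorem step_injective : Function.Injective D.step := by
  intro d d' h
  have h1 : (D.step d).fst = (D.step d').fst := by rw [h]
  have h2 : (D.step d).snd = (D.step d').snd := by rw [h]
  change d.fst = d'.fst at h1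
  change D.nx d.fst d.snd = D.nx d'.fst d'.snd at h2
  have h3 := D.pv_nx d.adj
  have h4 := D.pv_nx d'.adj
  rw [h2, h1, h4] at h3
  exact SimpleGraph.Dart.ext _ _ (Prod.ext h1 h3.symm)

theorem finite_dart : Finite (T3 p q r).Dart :=
  Finite.of_injective (fun d : (T3 p q r).Dart => d.toProd) fun _ _ h =>
    SimpleGraph.Dart.ext _ _ h

/-- The rotation system. -/
noncomputable def sig : Perm (T3 p q r).Dart :=
  Equiv.ofBijective D.step
    ((@Finite.injective_iff_bijective _ finite_dart _).mp D.step_injective)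

theorem sig_apply (d : (T3 p q r).Dart) : D.sig d = D.step d := rfl

/-- `v` and `v'` are in the same cycle of the rotation at `u`. -/
def SC (u v v' : Fin p ⊕ (Fin q ⊕ Fin r)) : Prop :=
  ∃ (h : (T3 p q r).Adj u v) (h' : (T3 p q r).Adj u v'),
    D.sig.SameCycle ⟨(u, v), h⟩ ⟨(u, v'), h'⟩

theorem SC.symm {u v v' : Fin p ⊕ (Fin q ⊕ Fin r)} (h : D.SC u v v') : D.SC u v' v := by
  obtain ⟨h1, h2, h3⟩ := h
  exact ⟨h2, h1, h3.symm⟩

theorem SC.trans {u v v' v'' : Fin p ⊕ (Fin q ⊕ Fin r)} (h : D.SC u v v') (h' : D.SC u v' v'') :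
    D.SC u v v'' := by
  obtain ⟨h1, h2, h3⟩ := h
  obtain ⟨h4, h5, h6⟩ := h'
  exact ⟨h1, h5, h3.trans h6⟩

theorem SC_refl {u v : Fin p ⊕ (Fin q ⊕ Fin r)} (h : (T3 p q r).Adj u v) : D.SC u v v :=
  ⟨h, h, Equiv.Perm.SameCycle.refl _ _⟩

theorem SC_nx {u v : Fin p ⊕ (Fin q ⊕ Fin r)} (h : (T3 p q r).Adj u v) :
    D.SC u v (D.nx u v) := by
  refine ⟨h, D.nx_adj h, ?_⟩
  have h1 : D.sig ⟨(u, v), h⟩ = ⟨(u, D.nx u v), D.nx_adj h⟩ := rfl
  rw [← h1, Equiv.Perm.sameCycle_apply_right]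

theorem SC_row (hr : D.E.RowsTr) (a : Fin p) (x y : Fin q ⊕ Fin r) :
    D.SC (Sum.inl a) (Sum.inr x) (Sum.inr y) := by
  obtain ⟨n, hn⟩ := (hr a x y).exists_nat_pow_eq
  have h1 : ∀ n : ℕ, D.SC (Sum.inl a) (Sum.inr x) (Sum.inr ((D.E.rho a ^ n) x)) := by
    intro n
    induction n with
    | zero => exact D.SC_refl (adj_row a x)
    | succ n ih =>
      refine SC.trans D ih ?_
      have h2 := D.SC_nx (adj_row a ((D.E.rho a ^ n) x))
      rw [nx_row] at h2
      rw [pow_succ', Equiv.Perm.mul_apply]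
      exact h2
  have h2 := h1 n
  rw [hn] at h2
  exact h2

theorem SC_out (y : Fin q ⊕ Fin r) (a : Fin p) : D.SC (Sum.inr y) (D.out y a) (Sum.inl a) := by
  by_cases hC : D.C (a, y)
  · obtain ⟨h1, h2, h3⟩ := D.C_out hC
    have h4 := D.SC_nx h1
    rw [D.nx_inr_pos (by rw [h3]), h3] at h4
    rw [D.out_pos hC]
    exact h4
  · rw [D.out_neg hC]
    exact D.SC_refl (adj_row a y).symm

theorem SC_pi (y : Fin q ⊕ Fin r) (b : Fin p) :
    D.SC (Sum.inr y) (Sum.inl b) (Sum.inl (D.E.pi y b)) := by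
  refine SC.trans D ?_ (D.SC_out y (D.E.pi y b))
  by_cases hC : D.C (b, (D.E.rho b)⁻¹ y)
  · obtain ⟨h1, h2, h3, h4⟩ := D.C_in hC
    have h5 := D.SC_nx (adj_row b y).symm
    rw [D.nx_inl_pos hC] at h5
    refine SC.trans D h5 ?_
    have h6 := D.SC_nx h1
    rw [D.nx_inr_neg (by rw [h3]; exact h4), h3] at h6
    exact h6
  · have h5 := D.SC_nx (adj_row b y).symm
    rw [D.nx_inl_neg hC] at h5
    exact h5

theorem SC_inl (hc : D.E.ColsTr) (y : Fin q ⊕ Fin r) (b b' : Fin p) :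
    D.SC (Sum.inr y) (Sum.inl b) (Sum.inl b') := by
  obtain ⟨n, hn⟩ := (hc y b b').exists_nat_pow_eq
  have h1 : ∀ n : ℕ, D.SC (Sum.inr y) (Sum.inl b) (Sum.inl ((D.E.pi y ^ n) b)) := by
    intro n
    induction n with
    | zero => exact D.SC_refl (adj_row b y).symm
    | succ n ih =>
      refine SC.trans D ih ?_
      rw [pow_succ', Equiv.Perm.mul_apply]
      exact D.SC_pi y _
  have h2 := h1 n
  rw [hn] at h2
  exact h2

theorem SC_exists {y : Fin q ⊕ Fin r} {v : Fin p ⊕ (Fin q ⊕ Fin r)}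
    (h : (T3 p q r).Adj (Sum.inr y) v) : ∃ b, D.SC (Sum.inr y) v (Sum.inl b) := by
  rcases v with b | u
  · exact ⟨b, D.SC_refl h⟩
  · have h1 := D.SC_nx h
    by_cases h2 : (D.ch u y).2 = y
    · rw [D.nx_inr_pos h2] at h1
      exact ⟨_, h1⟩
    · rw [D.nx_inr_neg h2] at h1
      exact ⟨_, SC.trans D h1 (D.SC_out y _)⟩

theorem SC_all (hr : D.E.RowsTr) (hc : D.E.ColsTr) {u v v' : Fin p ⊕ (Fin q ⊕ Fin r)}
    (h : (T3 p q r).Adj u v) (h' : (T3 p q r).Adj u v') : D.SC u v v' := by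
  rcases u with a | y
  · rcases v with b | x
    · exact absurd rfl h
    · rcases v' with b | x'
      · exact absurd rfl h'
      · exact D.SC_row hr a x x'
  · obtain ⟨b, hb⟩ := D.SC_exists h
    obtain ⟨b', hb'⟩ := D.SC_exists h'
    exact SC.trans D (SC.trans D hb (D.SC_inl hc y b b')) (SC.symm D hb')

theorem rot (hr : D.E.RowsTr) (hc : D.E.ColsTr) : Rot (T3 p q r) D.sig := by
  refine ⟨fun d => rfl, ?_⟩
  rintro ⟨⟨u, v⟩, h⟩ ⟨⟨u', v'⟩, h'⟩ hu
  obtain rfl : u = u' := hu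
  obtain ⟨_, _, h3⟩ := D.SC_all hr hc h h'
  exact @Equiv.Perm.SameCycle.exists_nat_pow_eq _ _ _ _ finite_dart h3

open Classical in
/-- The label of an arc. -/
noncomputable def lab (e : Fin p × (Fin q ⊕ Fin r)) : Sym2 (Fin q ⊕ Fin r) ⊕
    Quotient (Equiv.Perm.SameCycle.setoid D.E.phiPerm) :=
  if D.C e then Sum.inl s(e.2, D.E.rho e.1 e.2)
  else Sum.inr (Quotient.mk (Equiv.Perm.SameCycle.setoid D.E.phiPerm) e)

open Classical in
/-- The label of a dart. -/
noncomputable def L : Fin p ⊕ (Fin q ⊕ Fin r) → Fin p ⊕ (Fin q ⊕ Fin r) →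
    Option (Sym2 (Fin q ⊕ Fin r) ⊕ Quotient (Equiv.Perm.SameCycle.setoid D.E.phiPerm))
  | Sum.inr x, Sum.inl a => some (D.lab (a, x))
  | Sum.inl a, Sum.inr y => some (D.lab (a, (D.E.rho a)⁻¹ y))
  | Sum.inr u, Sum.inr v => if (D.ch u v).2 = u then
      some (Sum.inr (Quotient.mk (Equiv.Perm.SameCycle.setoid D.E.phiPerm) (D.ch u v)))
      else some (Sum.inl s(u, v))
  | Sum.inl _, Sum.inl _ => none

/-- The class of an arc. -/
noncomputable def cl (e : Fin p × (Fin q ⊕ Fin r)) : Quotient (Equiv.Perm.SameCycle.setoid D.E.phiPerm) :=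
  Quotient.mk (Equiv.Perm.SameCycle.setoid D.E.phiPerm) e

theorem cl_phi (a : Fin p) (x : Fin q ⊕ Fin r) :
    D.cl (D.E.pi (D.E.rho a x) a, D.E.rho a x) = D.cl (a, x) := by
  refine Quotient.sound ?_
  show D.E.phiPerm.SameCycle (D.E.pi (D.E.rho a x) a, D.E.rho a x) (a, x)
  have h : D.E.phiPerm (a, x) = (D.E.pi (D.E.rho a x) a, D.E.rho a x) := rfl
  rw [← h, Equiv.Perm.sameCycle_apply_left]

theorem lab_pos {e : Fin p × (Fin q ⊕ Fin r)} (h : D.C e) :
    D.lab e = Sum.inl s(e.2, D.E.rho e.1 e.2) := if_pos h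

theorem lab_neg {e : Fin p × (Fin q ⊕ Fin r)} (h : ¬ D.C e) :
    D.lab e = Sum.inr (D.cl e) := if_neg h

theorem L_inr_inl (x : Fin q ⊕ Fin r) (a : Fin p) :
    D.L (Sum.inr x) (Sum.inl a) = some (D.lab (a, x)) := rfl

theorem L_inl_inr (a : Fin p) (y : Fin q ⊕ Fin r) :
    D.L (Sum.inl a) (Sum.inr y) = some (D.lab (a, (D.E.rho a)⁻¹ y)) := rfl

theorem L_pos {u v : Fin q ⊕ Fin r} (h : (D.ch u v).2 = u) :
    D.L (Sum.inr u) (Sum.inr v) = some (Sum.inr (D.cl (D.ch u v))) := if_pos h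

theorem L_neg {u v : Fin q ⊕ Fin r} (h : (D.ch u v).2 ≠ u) :
    D.L (Sum.inr u) (Sum.inr v) = some (Sum.inl s(u, v)) := if_neg h

theorem L_out (y : Fin q ⊕ Fin r) (a : Fin p) :
    D.L (Sum.inr y) (D.out y a) = some (Sum.inr (D.cl (a, y))) := by
  by_cases hC : D.C (a, y)
  · obtain ⟨h1, h2, h3⟩ := D.C_out hC
    rw [D.out_pos hC, D.L_pos (by rw [h2]), h2]
  · rw [D.out_neg hC, L_inr_inl, D.lab_neg hC]

/-- The label is invariant under the face permutation. -/
theorem L_nx {u v : Fin p ⊕ (Fin q ⊕ Fin r)} (h : (T3 p q r).Adj u v) :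
    D.L v (D.nx v u) = D.L u v := by
  rcases u with a | u
  · rcases v with b | y
    · exact absurd rfl h
    · by_cases hC : D.C (a, (D.E.rho a)⁻¹ y)
      · obtain ⟨h1, h2, h3, h4⟩ := D.C_in hC
        rw [D.nx_inl_pos hC, D.L_neg (by rw [h2]; exact h4), L_inl_inr, D.lab_pos hC]
        simp only [RotEmb_apply_inv]
        rw [Sym2.eq_swap]
      · rw [D.nx_inl_neg hC, L_out, L_inl_inr, D.lab_neg hC]
        have h1 := D.cl_phi a ((D.E.rho a)⁻¹ y)
        rw [RotEmb_apply_inv] at h1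
        rw [h1]
  · rcases v with a | y
    · rw [nx_row, L_inl_inr, L_inr_inl, RotEmb_inv_apply]
    · rcases D.cases_ch h with ⟨h1, h2, h3, h4⟩ | ⟨h1, h2, h3, h4, h5⟩
      · have h6 : (D.ch u y).2 ≠ u := by
          rw [h1]
          exact (ne h).symm
        rw [D.nx_inr_pos h1, L_inr_inl, D.lab_pos h4, D.L_neg h6]
        simp only [h3]
        rw [Sym2.eq_swap]
      · rw [D.nx_inr_neg h1, L_out, D.L_pos h2, h3]
        have h6 := D.cl_phi (D.ch u y).1 u
        rw [h4] at h6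
        rw [h6]

/-- The label of a dart. -/
noncomputable def Ld (d : (T3 p q r).Dart) :
    Option (Sym2 (Fin q ⊕ Fin r) ⊕ Quotient (Equiv.Perm.SameCycle.setoid D.E.phiPerm)) :=
  D.L d.fst d.snd

theorem Ld_fp (d : (T3 p q r).Dart) : D.Ld (fp (T3 p q r) D.sig d) = D.Ld d :=
  D.L_nx d.adj

theorem Ld_same {d d' : (T3 p q r).Dart} (h : (fp (T3 p q r) D.sig).SameCycle d d') :
    D.Ld d = D.Ld d' := by
  obtain ⟨n, hn⟩ := @Equiv.Perm.SameCycle.exists_nat_pow_eq _ _ _ _ finite_dart h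
  rw [← hn]
  have h1 : ∀ n : ℕ, D.Ld ((fp (T3 p q r) D.sig ^ n) d) = D.Ld d := by
    intro n
    induction n with
    | zero => rfl
    | succ n ih => rw [pow_succ', Equiv.Perm.mul_apply, Ld_fp, ih]
  exact (h1 n).symm

/-- The labels which occur. -/
noncomputable def io : (Fin q × Fin r) ⊕ Quotient (Equiv.Perm.SameCycle.setoid D.E.phiPerm) →
    Option (Sym2 (Fin q ⊕ Fin r) ⊕ Quotient (Equiv.Perm.SameCycle.setoid D.E.phiPerm))
  | Sum.inl yz => some (Sum.inl s(Sum.inl yz.1, Sum.inr yz.2))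
  | Sum.inr c => some (Sum.inr c)

theorem io_injective : Function.Injective D.io := by
  rintro (⟨y, z⟩ | c) (⟨y', z'⟩ | c') h
  · have h1 : s((Sum.inl y : Fin q ⊕ Fin r), Sum.inr z) = s(Sum.inl y', Sum.inr z') :=
      Sum.inl_injective (Option.some_injective _ h)
    rcases Sym2.eq_iff.mp h1 with ⟨h2, h3⟩ | ⟨h2, h3⟩
    · rw [Sum.inl_injective h2, Sum.inr_injective h3]
    · cases h2
  · cases Option.some_injective _ h
  · cases Option.some_injective _ h
  · rw [Sum.inr_injective (Option.some_injective _ h)]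

/-- Every label occurs. -/
theorem exists_dart (t : (Fin q × Fin r) ⊕ Quotient (Equiv.Perm.SameCycle.setoid D.E.phiPerm)) :
    ∃ d : (T3 p q r).Dart, D.Ld d = D.io t := by
  rcases t with ⟨y, z⟩ | c
  · have hA : (T3 p q r).Adj (Sum.inr (Sum.inl y)) (Sum.inr (Sum.inr z)) := by
      show (1 : Fin 3) ≠ 2
      decide
    have hC := D.C_ch hA
    refine ⟨⟨(Sum.inr (D.ch (Sum.inl y) (Sum.inr z)).2, Sum.inl (D.ch (Sum.inl y) (Sum.inr z)).1),
      (adj_row _ _).symm⟩, ?_⟩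
    show some (D.lab (D.ch (Sum.inl y) (Sum.inr z))) = some (Sum.inl s(Sum.inl y, Sum.inr z))
    rw [D.lab_pos hC]
    rcases D.spec _ _ hA with ⟨h1, h2⟩ | ⟨h1, h2⟩
    · rw [h1, h2]
    · rw [h1, h2, Sym2.eq_swap]
  · obtain ⟨e, rfl⟩ := Quotient.exists_rep c
    by_cases hC : D.C e
    · refine ⟨⟨(Sum.inr e.2, Sum.inr (D.E.rho e.1 e.2)), hC.1⟩, ?_⟩
      show D.L (Sum.inr e.2) (Sum.inr (D.E.rho e.1 e.2)) = some (Sum.inr (D.cl e))
      rw [D.L_pos (by rw [hC.2]), hC.2]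
    · refine ⟨⟨(Sum.inr e.2, Sum.inl e.1), (adj_row _ _).symm⟩, ?_⟩
      show some (D.lab e) = some (Sum.inr (D.cl e))
      rw [D.lab_neg hC]

theorem card_le : q * r + Nat.card (Quotient (Equiv.Perm.SameCycle.setoid D.E.phiPerm)) ≤
    faces (T3 p q r) D.sig := by
  choose f hf using D.exists_dart
  have hfin : Finite (T3 p q r).Dart := finite_dart
  have h1 : Function.Injective fun t => (Quotient.mk
      (Equiv.Perm.SameCycle.setoid (fp (T3 p q r) D.sig)) (f t)) := by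
    intro t t' h
    have h2 : (fp (T3 p q r) D.sig).SameCycle (f t) (f t') := Quotient.exact h
    have h3 := D.Ld_same h2
    rw [hf, hf] at h3
    exact D.io_injective h3
  have h2 := Nat.card_le_card_of_injective _ h1
  have h3 : Nat.card ((Fin q × Fin r) ⊕
      Quotient (Equiv.Perm.SameCycle.setoid D.E.phiPerm)) =
      q * r + Nat.card (Quotient (Equiv.Perm.SameCycle.setoid D.E.phiPerm)) := by
    rw [Nat.card_sum, Nat.card_prod, Nat.card_fin, Nat.card_fin]
  rw [h3] at h2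
  exact h2

end RotEmbD

theorem rot_of_emb (p q r : ℕ) (hp : 1 ≤ p) (E : Emb (Fin p) (Fin q ⊕ Fin r)) (hr : E.RowsTr)
    (hc : E.ColsTr) (hcov : ∀ x y, Across x y → E.Cov x y) :
    ∃ σ : Perm (T3 p q r).Dart, Rot (T3 p q r) σ ∧
      q * r + Nat.card (Quotient (Equiv.Perm.SameCycle.setoid E.phiPerm)) ≤ faces (T3 p q r) σ := by
  obtain ⟨D, rfl⟩ := RotEmb_exists p q r hp E hcov
  exact ⟨D.sig, D.rot hr hc, D.card_le⟩

end Pool.Agent.W_MP_43c969_h13
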