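import Pool.Agent.W_MP_43c969_h13.Defs
import Pool.Agent.W_MP_43c969_h13.Basic
import Pool.Agent.W_MP_43c969_h13.Graph
import Pool.Agent.W_MP_43c969_h13.RotEmb
import Pool.Agent.W_MP_43c969_h13.CountA
import Pool.Agent.W_MP_43c969_h13.CountB
import Pool.Agent.W_MP_43c969_h13.CountC

/-!
# Task TopFinal: the frozen statement follows from the existence of good embeddings

Let `V = p + q + r`, `E = p (q + r) + q r`, `F` the number of faces, `n = q + r`,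
`g = ⌈(p - 2)(n - 2) / 4⌉`.

Upper bound for every rotation system: `2 F ≤ 2 q r + p n` (`faces_upper`) gives
`V - E + F ≤ 2 - (p - 2)(n - 2) / 2`; since `V - E + F` is even (`rot_parity`),
`V - E + F ≤ 2 - 2 g`.

Existence: from `St (Fin p) (Fin q ⊕ Fin r) Across (kk p n)`, `rot_of_emb` and `cycles_lower`
(for `E.phiPerm`, whose set of bad arcs has at most `k = kk p n` elements, `k = 0` or `k ≥ 3`) we get
a rotation system with `2 F ≥ 2 q r + p n` if `k = 0`, and `2 F + k ≥ 2 q r + p n + 2` if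
`k = exc p n + 2 ≥ 3`; in both cases `2 (V - E + F) ≥ 4 - (p - 2)(n - 2) - exc p n` and
`(p - 2)(n - 2) + exc p n = 4 g`. With the upper bound there is equality.

The graph `G` of the frozen statement is isomorphic to `T3 p q r` (`iso_T3`); rotation systems are
transported with `rot_iso` in both directions (`faces` is exactly the `Nat.card` of the frozen
statement, by definition).
-/

set_option autoImplicit false

namespace Pool.Agent.W_MP_43c969_h13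

open Equiv

theorem topFinal_ceil (p q r : ℕ) (hp : 2 ≤ p) (hn : 2 ≤ q + r) :
    ∃ g : ℤ, ⌈((p : ℚ) - 2) * ((q : ℚ) + (r : ℚ) - 2) / 4⌉ = g ∧
      4 * g = ((p : ℤ) - 2) * ((q : ℤ) + (r : ℤ) - 2) + (exc p (q + r) : ℤ) ∧
      (∀ t : ℤ, ((p : ℤ) - 2) * ((q : ℤ) + (r : ℤ) - 2) ≤ 4 * t → g ≤ t) := by
  obtain ⟨p', rfl⟩ : ∃ p', p = p' + 2 := ⟨p - 2, by omega⟩
  obtain ⟨n', hn'⟩ : ∃ n', q + r = n' + 2 := ⟨q + r - 2, by omega⟩
  have hexc : exc (p' + 2) (q + r) = (4 - (p' * n') % 4) % 4 := by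
    rw [exc, hn', Nat.add_sub_cancel, Nat.add_sub_cancel]
  obtain ⟨M, hM⟩ : ∃ M, M = p' * n' := ⟨_, rfl⟩
  have hMz : (((p' + 2 : ℕ) : ℤ) - 2) * ((q : ℤ) + (r : ℤ) - 2) = (M : ℤ) := by
    have h1 : (q : ℤ) + (r : ℤ) - 2 = n' := by
      have : ((q + r : ℕ) : ℤ) = ((n' + 2 : ℕ) : ℤ) := by rw [hn']
      push_cast at this
      linarith
    rw [h1, hM]
    push_cast
    ring
  have hMq : (((p' + 2 : ℕ) : ℚ) - 2) * ((q : ℚ) + (r : ℚ) - 2) = (M : ℚ) := by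
    have h1 : (q : ℚ) + (r : ℚ) - 2 = n' := by
      have : ((q + r : ℕ) : ℚ) = ((n' + 2 : ℕ) : ℚ) := by rw [hn']
      push_cast at this
      linarith
    rw [h1, hM]
    push_cast
    ring
  rw [hMz, hMq, hexc, ← hM]
  obtain ⟨g, hg⟩ : ∃ g : ℕ, 4 * g = M + (4 - M % 4) % 4 := ⟨(M + (4 - M % 4) % 4) / 4, by omega⟩
  have hlt : (4 - M % 4) % 4 < 4 := Nat.mod_lt _ (by norm_num)
  refine ⟨g, ?_, ?_, ?_⟩
  · rw [Int.ceil_eq_iff]
    have h2 : (4 : ℚ) * g = M + ((4 - M % 4) % 4 : ℕ) := by exact_mod_cast hg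
    have h3 : (((4 - M % 4) % 4 : ℕ) : ℚ) < 4 := by exact_mod_cast hlt
    have h4 : (0 : ℚ) ≤ (((4 - M % 4) % 4 : ℕ) : ℚ) := Nat.cast_nonneg _
    constructor
    · push_cast
      rw [lt_div_iff₀ (by norm_num)]
      linarith
    · push_cast
      rw [div_le_iff₀ (by norm_num)]
      linarith
  · exact_mod_cast hg
  · intro t ht
    omega

theorem topFinal_card (p q r : ℕ) : Nat.card (Fin p ⊕ (Fin q ⊕ Fin r)) = p + (q + r) := by
  rw [Nat.card_eq_fintype_card]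
  simp

theorem top_upper (p q r : ℕ) (hp : 2 ≤ p) (hn : 2 ≤ q + r) (σ : Perm (T3 p q r).Dart)
    (h : Rot (T3 p q r) σ) :
    ((Nat.card (Fin p ⊕ (Fin q ⊕ Fin r)) : ℤ) - (Nat.card (T3 p q r).edgeSet : ℤ) +
      (faces (T3 p q r) σ : ℤ)) ≤
      2 - 2 * ⌈((p : ℚ) - 2) * ((q : ℚ) + (r : ℚ) - 2) / 4⌉ := by
  obtain ⟨g, hg, -, hmin⟩ := topFinal_ceil p q r hp hn
  rw [hg, topFinal_card, card_edges_T3]
  have hF := faces_upper p q r hp hn σ h
  have hpar := rot_parity (T3 p q r) σ h (by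
    rintro (a | (y | z))
    · rcases Nat.eq_zero_or_pos q with hq | hq
      · exact ⟨Sum.inr (Sum.inr ⟨0, by omega⟩), fun h => by cases h⟩
      · exact ⟨Sum.inr (Sum.inl ⟨0, hq⟩), fun h => by cases h⟩
    · exact ⟨Sum.inl ⟨0, by omega⟩, fun h => by cases h⟩
    · exact ⟨Sum.inl ⟨0, by omega⟩, fun h => by cases h⟩)
  rw [topFinal_card, card_edges_T3] at hpar
  obtain ⟨F, hFe⟩ : ∃ F, F = faces (T3 p q r) σ := ⟨_, rfl⟩
  rw [← hFe] at hF hpar ⊢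
  obtain ⟨k, hk⟩ := hpar
  obtain ⟨Q, hQ⟩ : ∃ Q : ℤ, Q = (q : ℤ) * r := ⟨_, rfl⟩
  obtain ⟨T, hT⟩ : ∃ T : ℤ, T = (p : ℤ) * (q + r) := ⟨_, rfl⟩
  have hk' : (p : ℤ) + (q + r) + (T + Q) + F = k + k := by
    rw [hT, hQ]
    exact_mod_cast hk
  have hF' : 2 * (F : ℤ) ≤ 2 * Q + T := by
    rw [hT, hQ]
    exact_mod_cast hF
  have h1 := hmin ((k : ℤ) * 0 + (1 - (k - (T + Q)))) (by
    have e : ((p : ℤ) - 2) * ((q : ℤ) + (r : ℤ) - 2) = T - 2 * p - 2 * (q + r) + 4 := by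
      rw [hT]
      ring
    rw [e]
    linarith)
  push_cast
  rw [← hQ, ← hT]
  linarith

theorem top_lower (p q r : ℕ) (hp : 2 ≤ p) (hn : 2 ≤ q + r)
    (h : St (Fin p) (Fin q ⊕ Fin r) Across (kk p (q + r))) :
    ∃ σ : Perm (T3 p q r).Dart, Rot (T3 p q r) σ ∧
    ((Nat.card (Fin p ⊕ (Fin q ⊕ Fin r)) : ℤ) - (Nat.card (T3 p q r).edgeSet : ℤ) +
      (faces (T3 p q r) σ : ℤ)) =
      2 - 2 * ⌈((p : ℚ) - 2) * ((q : ℚ) + (r : ℚ) - 2) / 4⌉ := by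
  obtain ⟨E, hr, hc, ⟨B, hB, hgood⟩, hcov⟩ := h
  obtain ⟨σ, hσ, hF⟩ := rot_of_emb p q r (by omega) E hr hc hcov
  refine ⟨σ, hσ, le_antisymm (top_upper p q r hp hn σ hσ) ?_⟩
  obtain ⟨g, hg, hg4, -⟩ := topFinal_ceil p q r hp hn
  rw [hg, topFinal_card, card_edges_T3]
  have hcyc := cycles_lower E.phiPerm B (kk p (q + r)) hB (fun e he => hgood e he)
  have hcard : Fintype.card (Fin p × (Fin q ⊕ Fin r)) = p * (q + r) := by simp
  rw [hcard] at hcyc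
  obtain ⟨F, hFe⟩ : ∃ F, F = faces (T3 p q r) σ := ⟨_, rfl⟩
  obtain ⟨c, hce⟩ : ∃ c, c = Nat.card (Quotient (Equiv.Perm.SameCycle.setoid E.phiPerm)) :=
    ⟨_, rfl⟩
  rw [← hce] at hF hcyc
  rw [← hFe] at hF ⊢
  have hkey : p * (q + r) ≤ 2 * c + exc p (q + r) := by
    by_cases h0 : exc p (q + r) = 0
    · have h1 := hcyc.1 (by rw [kk, if_pos h0])
      omega
    · have h1 := hcyc.2 (by rw [kk, if_neg h0]; omega)
      rw [kk, if_neg h0] at h1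
      omega
  obtain ⟨Q, hQ⟩ : ∃ Q : ℤ, Q = (q : ℤ) * r := ⟨_, rfl⟩
  obtain ⟨T, hT⟩ : ∃ T : ℤ, T = (p : ℤ) * (q + r) := ⟨_, rfl⟩
  have hkey' : T ≤ 2 * c + (exc p (q + r) : ℤ) := by
    rw [hT]
    exact_mod_cast hkey
  have hF' : Q + c ≤ F := by
    rw [hQ]
    exact_mod_cast hF
  have e : ((p : ℤ) - 2) * ((q : ℤ) + (r : ℤ) - 2) = T - 2 * p - 2 * (q + r) + 4 := by
    rw [hT]
    ring
  rw [e] at hg4
  push_cast
  rw [← hQ, ← hT]
  linarith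

/-- The frozen statement, for given `p`, `q`, `r`. -/
theorem top_final (p q r : ℕ) (hp : 2 ≤ p) (hn : 2 ≤ q + r)
    (h : St (Fin p) (Fin q ⊕ Fin r) Across (kk p (q + r)))
    (G : SimpleGraph (Σ i : Fin 3, Fin (![p, q, r] i)))
    (hG : G = SimpleGraph.completeMultipartiteGraph (fun i : Fin 3 => Fin (![p, q, r] i))) :
      (∃ σ : Equiv.Perm G.Dart,
          (∀ d : G.Dart, (σ d).fst = d.fst) ∧
          (∀ d d' : G.Dart, d.fst = d'.fst → ∃ n : ℕ, (σ ^ n) d = d') ∧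
          ((Nat.card (Σ i : Fin 3, Fin (![p, q, r] i)) : ℤ) - (Nat.card G.edgeSet : ℤ)
              + (Nat.card (Quotient (Equiv.Perm.SameCycle.setoid
                  (σ * Function.Involutive.toPerm SimpleGraph.Dart.symm
                    SimpleGraph.Dart.symm_involutive))) : ℤ)
            = 2 - 2 * ⌈((p : ℚ) - 2) * ((q : ℚ) + (r : ℚ) - 2) / 4⌉)) ∧
      (∀ σ : Equiv.Perm G.Dart,
          (∀ d : G.Dart, (σ d).fst = d.fst) →
          (∀ d d' : G.Dart, d.fst = d'.fst → ∃ n : ℕ, (σ ^ n) d = d') →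
          ((Nat.card (Σ i : Fin 3, Fin (![p, q, r] i)) : ℤ) - (Nat.card G.edgeSet : ℤ)
              + (Nat.card (Quotient (Equiv.Perm.SameCycle.setoid
                  (σ * Function.Involutive.toPerm SimpleGraph.Dart.symm
                    SimpleGraph.Dart.symm_involutive))) : ℤ)
            ≤ 2 - 2 * ⌈((p : ℚ) - 2) * ((q : ℚ) + (r : ℚ) - 2) / 4⌉)) := by
  obtain ⟨φ₀⟩ := iso_T3 p q r
  rw [← hG] at φ₀
  have hV : Nat.card (Σ i : Fin 3, Fin (![p, q, r] i)) = Nat.card (Fin p ⊕ (Fin q ⊕ Fin r)) :=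
    Nat.card_congr φ₀.toEquiv
  have hE : Nat.card G.edgeSet = Nat.card (T3 p q r).edgeSet := Nat.card_congr φ₀.mapEdgeSet
  constructor
  · obtain ⟨σ, hσ, he⟩ := top_lower p q r hp hn h
    obtain ⟨σ', hσ', hf⟩ := rot_iso φ₀.symm σ hσ
    refine ⟨σ', hσ'.fst, hσ'.tr, ?_⟩
    rw [← he, hV, hE, ← hf]
    rfl
  · intro σ h1 h2
    obtain ⟨σ', hσ', hf⟩ := rot_iso φ₀ σ ⟨h1, h2⟩
    have h3 := top_upper p q r hp hn σ' hσ'
    rw [hf, ← hV, ← hE] at h3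
    exact h3

end Pool.Agent.W_MP_43c969_h13
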