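import Mathlib

/-!
# Definitions for the genus of complete tripartite graphs

An `Emb P N` is a pair of families of permutations: `rho a` is the rotation at the row `a : P`
(a cyclic order of `N`), `pi x` is the rotation at the column `x : N` (a cyclic order of `P`).
It encodes an embedding of the complete bipartite graph on `P`, `N`. The arcs are the pairs
`(a, x) : P × N`, the arc `(a, x)` being the corner `x → rho a x` at the row `a`. The map `phi`
sends the arc `(a, x)` to the next arc of the same face. An arc is good when its face is a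
quadrilateral (has two arcs).
-/

set_option autoImplicit false

namespace Pool.Agent.W_MP_43c969_h13

open Equiv

/-- `f` is one cycle on the whole type. -/
def Tr {X : Type*} (f : Perm X) : Prop := ∀ x y, f.SameCycle x y

/-- all the elements of `S` are in the same cycle of `f`. -/
def TrOn {X : Type*} (f : Perm X) (S : Set X) : Prop := ∀ x ∈ S, ∀ y ∈ S, f.SameCycle x y

/-- `f` has exactly two cycles. -/
def Two {X : Type*} (f : Perm X) : Prop :=
  ∃ a b, ¬ f.SameCycle a b ∧ ∀ c, f.SameCycle c a ∨ f.SameCycle c b

/-- rotations at the rows and at the columns. -/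
structure Emb (P N : Type*) where
  rho : P → Perm N
  pi : N → Perm P

namespace Emb

variable {P N : Type*} (E : Emb P N)

/-- the next arc of the same face. -/
def phi (e : P × N) : P × N := (E.pi (E.rho e.1 e.2) e.1, E.rho e.1 e.2)

/-- the face of the arc is a quadrilateral. -/
def Good (e : P × N) : Prop := E.phi (E.phi e) = e

/-- `x` and `y` are consecutive in some row. -/
def Cov (x y : N) : Prop := ∃ a, E.rho a x = y ∨ E.rho a y = x

def RowsTr : Prop := ∀ a, Tr (E.rho a)

def ColsTr : Prop := ∀ x, Tr (E.pi x)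

def AllGood : Prop := ∀ e, E.Good e

/-- The face of the arc `e0` has exactly `k` arcs and all the arcs outside this face are good. -/
def FaceAt (e0 : P × N) (k : ℕ) : Prop :=
  1 ≤ k ∧ E.phi^[k] e0 = e0 ∧ (∀ i j, i < j → j < k → E.phi^[i] e0 ≠ E.phi^[j] e0) ∧
    ∀ e, (∀ i, i < k → e ≠ E.phi^[i] e0) → E.Good e

end Emb

/-- `k` bounds the number of bad arcs; the pairs of `C` are consecutive in some row. -/
def St (P N : Type*) (C : N → N → Prop) (k : ℕ) : Prop :=
  ∃ E : Emb P N, E.RowsTr ∧ E.ColsTr ∧
    (∃ B : Finset (P × N), B.card ≤ k ∧ ∀ e, e ∉ B → E.Good e) ∧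
    ∀ x y, C x y → E.Cov x y

/-- all faces are quadrilaterals. -/
def Ex (P N : Type*) (C : N → N → Prop) : Prop :=
  ∃ E : Emb P N, E.RowsTr ∧ E.ColsTr ∧ E.AllGood ∧ ∀ x y, C x y → E.Cov x y

/-- all faces are quadrilaterals, and one column has two cycles (a pinched column). -/
def PSt (P N : Type*) (C : N → N → Prop) : Prop :=
  ∃ E : Emb P N, ∃ v : N, E.RowsTr ∧ (∀ x, x ≠ v → Tr (E.pi x)) ∧ Two (E.pi v) ∧ E.AllGood ∧
    ∀ x y, C x y → E.Cov x y

/-- `x` is in the left summand and `y` in the right summand. -/
def Across {Y Z : Type*} (x y : Y ⊕ Z) : Prop := ∃ y' z', x = Sum.inl y' ∧ y = Sum.inr z'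

/-- the residue of `-(p-2)(n-2)` modulo `4`. -/
def exc (p n : ℕ) : ℕ := (4 - ((p - 2) * (n - 2)) % 4) % 4

/-- the number of bad arcs of a minimum genus embedding of the complete bipartite graph. -/
def kk (p n : ℕ) : ℕ := if exc p n = 0 then 0 else exc p n + 2

end Pool.Agent.W_MP_43c969_h13
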