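import Pool.Agent.W_MP_43c969_h13.Defs
import Pool.Agent.W_MP_43c969_h13.Cyc
import Pool.Agent.W_MP_43c969_h13.Basic

/-!
# Task Glue: the diamond sum of two embeddings

`E1` has rows `Option A`, all its arcs are good; `E2` has rows `Option B` and
`E2.rho none = (E1.rho none)⁻¹`. The new embedding has rows `A ⊕ B` with the old rotations (the two
rows `none` disappear). In the column `x` the row `none` of `E1` is replaced by the sequence of the
rows of `B` which follow `none` in the column `x` of `E2`: 
* `inl b ↦ inl b'` if `E1.pi x (some b) = some b'`;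
* `inl b ↦ inr c` if `E1.pi x (some b) = none` and `E2.pi x none = some c`;
* `inr c ↦ inr c'` if `E2.pi x (some c) = some c'`;
* `inr c ↦ inl b` if `E2.pi x (some c) = none` and `E1.pi x none = some b`.
(`E2.pi x none ≠ none` and `E1.pi x none ≠ none` because the columns are cycles on types with at
least two elements: `A` and `B` are nonempty.)

*The faces.* Let `(none, x)` be an arc of `E1`, `y = E1.rho none x`, `some b = E1.pi y none`. Since
`(none, x)` is good, `E1.rho (some b) y = x` and `E1.pi x (some b) = none`; so `b` is the row before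
`none` in the column `x` and the row after `none` in the column `y`. In `E2` the arc
`(none, y)` goes from `y` to `x`. Define the map `τ` from the arcs of `E2` to the arcs of the new
embedding by `τ (some c, x) = (inr c, x)` and `τ (none, y) = (inl b, y)` with `b` as above
(`some b = E1.pi y none`). Then `phi (τ e) = τ (E2.phi e)` for every arc `e` of `E2`:
* `e = (some c, u)`, `w = E2.rho (some c) u`: if `E2.pi w (some c) = some c'` clear; if it is
  `none`, the new next row is `inl b` with `some b = E1.pi w none`, as in `τ (none, w)`;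
* `e = (none, y)`, `x = E2.rho none y = (E1.rho none)⁻¹ y`: `τ e = (inl b, y)` is the arc from `y`
  to `x` of the row `b`, and `E1.pi x (some b) = none`, so the next row is the row of `B` after
  `none` in the column `x` of `E2`.
The other arcs `(inl b, u)` of the new embedding are the arcs of `E1` whose partner is not in the
row `none`; they keep their quadrilateral. Hence an arc of the new embedding which is not of the
form `τ e` is good, `τ e` is good if `e` is good, and `τ` is injective
(`τ (none, y) = (inl b, y)` determines `y`); so the bad arcs are contained in the image of the bad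
arcs of `E2`.

*Coverage.* A pair covered by an arc `x → y` of the row `none` of `E1` is also covered by the arc
`y → x` of the row `b` above.

*Cycles.* In the column `x` the new permutation follows the cycle of `E1.pi x`, where `none` is
replaced by the path of all the rows of `B`.
-/

set_option autoImplicit false

namespace Pool.Agent.W_MP_43c969_h13

open Equiv

namespace GlueAux

variable {A B N : Type*}

theorem pinv_apply_self (f : Perm A) (x : A) : f⁻¹ (f x) = x := f.symm_apply_apply x

theorem papply_inv_self (f : Perm A) (x : A) : f (f⁻¹ x) = x := f.apply_symm_apply x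

/-- the glued map -/
def glF (f1 : Option A → Option A) (f2 : Option B → Option B) : A ⊕ B → A ⊕ B
  | Sum.inl b => match f1 (some b) with
    | some b' => Sum.inl b'
    | none => match f2 none with
      | some c => Sum.inr c
      | none => Sum.inl b
  | Sum.inr c => match f2 (some c) with
    | some c' => Sum.inr c'
    | none => match f1 none with
      | some b => Sum.inl b
      | none => Sum.inr c

theorem glF_inl_some (f1 : Option A → Option A) (f2 : Option B → Option B) {b b' : A}
    (h : f1 (some b) = some b') : glF f1 f2 (Sum.inl b) = Sum.inl b' := by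
  simp only [glF, h]

theorem glF_inl_none (f1 : Option A → Option A) (f2 : Option B → Option B) {b : A} {c : B}
    (h : f1 (some b) = none) (h' : f2 none = some c) : glF f1 f2 (Sum.inl b) = Sum.inr c := by
  simp only [glF, h, h']

theorem glF_inr_some (f1 : Option A → Option A) (f2 : Option B → Option B) {c c' : B}
    (h : f2 (some c) = some c') : glF f1 f2 (Sum.inr c) = Sum.inr c' := by
  simp only [glF, h]

theorem glF_inr_none (f1 : Option A → Option A) (f2 : Option B → Option B) {b : A} {c : B}
    (h : f2 (some c) = none) (h' : f1 none = some b) : glF f1 f2 (Sum.inr c) = Sum.inl b := by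
  simp only [glF, h, h']

theorem glF_left_inv (f1 : Perm (Option A)) (f2 : Perm (Option B)) (h1 : f1 none ≠ none)
    (h2 : f2 none ≠ none) (u : A ⊕ B) : glF (⇑f1⁻¹) (⇑f2⁻¹) (glF f1 f2 u) = u := by
  obtain ⟨b0, hb0⟩ := Option.ne_none_iff_exists'.mp h1
  obtain ⟨c0, hc0⟩ := Option.ne_none_iff_exists'.mp h2
  have hb0' : f1⁻¹ (some b0) = none := by rw [← hb0, pinv_apply_self]
  have hc0' : f2⁻¹ (some c0) = none := by rw [← hc0, pinv_apply_self]
  rcases u with b | c
  · rcases hb : f1 (some b) with _ | b'
    · rw [glF_inl_none _ _ hb hc0]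
      apply glF_inr_none _ _ hc0'
      rw [← hb, pinv_apply_self]
    · rw [glF_inl_some _ _ hb]
      apply glF_inl_some
      rw [← hb, pinv_apply_self]
  · rcases hc : f2 (some c) with _ | c'
    · rw [glF_inr_none _ _ hc hb0]
      apply glF_inl_none _ _ hb0'
      rw [← hc, pinv_apply_self]
    · rw [glF_inr_some _ _ hc]
      apply glF_inr_some
      rw [← hc, pinv_apply_self]

theorem inv_none_ne (f : Perm (Option A)) (h : f none ≠ none) : f⁻¹ none ≠ none := by
  intro h'
  apply h
  conv_lhs => rw [← h']
  rw [papply_inv_self]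

/-- the glued permutation -/
def gl (f1 : Perm (Option A)) (f2 : Perm (Option B)) (h1 : f1 none ≠ none)
    (h2 : f2 none ≠ none) : Perm (A ⊕ B) where
  toFun := glF f1 f2
  invFun := glF (⇑f1⁻¹) (⇑f2⁻¹)
  left_inv := glF_left_inv f1 f2 h1 h2
  right_inv u := by
    have h := glF_left_inv f1⁻¹ f2⁻¹ (inv_none_ne f1 h1) (inv_none_ne f2 h2) u
    rwa [inv_inv, inv_inv] at h

theorem gl_apply (f1 : Perm (Option A)) (f2 : Perm (Option B)) (h1 : f1 none ≠ none)
    (h2 : f2 none ≠ none) (u : A ⊕ B) : gl f1 f2 h1 h2 u = glF f1 f2 u := rfl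

/-- following the steps of `f` -/
theorem same_of_step {X Y : Type*} (f : Perm X) (g : Perm Y) (i : X → Y)
    (h : ∀ u, g.SameCycle (i u) (i (f u))) {u v : X} (huv : f.SameCycle u v) :
    g.SameCycle (i u) (i v) := by
  have h1 : ∀ (n : ℕ) (u : X), g.SameCycle (i u) (i ((f ^ n) u)) := by
    intro n
    induction n with
    | zero => intro u; exact Perm.SameCycle.refl _ _
    | succ n ih =>
      intro u
      rw [pow_succ', Perm.mul_apply]
      exact (ih u).trans (h _)
  obtain ⟨n, hn⟩ := huv
  rcases n with n | n
  · rw [← hn]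
    exact h1 n u
  · have h2 := h1 (n + 1) v
    rw [← hn, zpow_negSucc, papply_inv_self] at h2
    rw [← hn, zpow_negSucc]
    exact h2.symm

theorem gl_Tr [Finite A] [Finite B] (f1 : Perm (Option A)) (f2 : Perm (Option B))
    (h1 : f1 none ≠ none) (h2 : f2 none ≠ none) (t1 : Tr f1) (t2 : Tr f2) :
    Tr (gl f1 f2 h1 h2) := by
  obtain ⟨b0, hb0⟩ := Option.ne_none_iff_exists'.mp h1
  obtain ⟨c0, hc0⟩ := Option.ne_none_iff_exists'.mp h2
  set g := gl f1 f2 h1 h2 with hg
  have one : ∀ u v, g u = v → g.SameCycle u v := by
    intro u v h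
    rw [← h]
    exact Perm.sameCycle_apply_right.2 (Perm.SameCycle.refl _ _)
  let i : Option A → A ⊕ B := fun u => match u with
    | some b => Sum.inl b
    | none => Sum.inr c0
  let k : Option B → A ⊕ B := fun u => match u with
    | some c => Sum.inr c
    | none => Sum.inl b0
  have hk : ∀ c : B, g.SameCycle (k (some c)) (k (f2 (some c))) := by
    intro c
    rcases hc : f2 (some c) with _ | c'
    · exact one _ _ (glF_inr_none _ _ hc hb0)
    · exact one _ _ (glF_inr_some _ _ hc)
  have hP : g.SameCycle (Sum.inr c0) (Sum.inl b0) := by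
    have hQ : ∀ n : ℕ, g.SameCycle (Sum.inr c0) (Sum.inl b0) ∨
        g.SameCycle (Sum.inr c0) (k ((f2 ^ n) (some c0))) := by
      intro n
      induction n with
      | zero => right; exact Perm.SameCycle.refl _ _
      | succ n ih =>
        rcases ih with ih | ih
        · left; exact ih
        · rcases hw : (f2 ^ n) (some c0) with _ | w
          · left
            rw [hw] at ih
            exact ih
          · right
            rw [hw] at ih
            rw [pow_succ', Perm.mul_apply, hw]
            exact ih.trans (hk w)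
    obtain ⟨n, hn⟩ := (t2 (some c0) none).exists_nat_pow_eq
    rcases hQ n with h | h
    · exact h
    · rw [hn] at h
      exact h
  have hi : ∀ u, g.SameCycle (i u) (i (f1 u)) := by
    intro u
    rcases u with _ | b
    · rw [hb0]
      exact hP
    · rcases hb : f1 (some b) with _ | b'
      · exact one _ _ (glF_inl_none _ _ hb hc0)
      · exact one _ _ (glF_inl_some _ _ hb)
  have hk' : ∀ u, g.SameCycle (k u) (k (f2 u)) := by
    intro u
    rcases u with _ | c
    · rw [hc0]
      exact hP.symm
    · exact hk c
  have hbase : ∀ u : A ⊕ B, g.SameCycle u (Sum.inl b0) := by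
    intro u
    rcases u with b | c
    · exact same_of_step f1 g i hi (t1 (some b) (some b0))
    · exact same_of_step f2 g k hk' (t2 (some c) none)
  intro u v
  exact (hbase u).trans (hbase v).symm

theorem none_ne (f : Perm (Option A)) (hA : Nonempty A) (t : Tr f) : f none ≠ none := by
  intro h
  obtain ⟨a⟩ := hA
  obtain ⟨n, hn⟩ := t none (some a)
  rw [Perm.zpow_apply_eq_self_of_apply_eq_self h] at hn
  exact absurd hn (by simp)

end GlueAux

open GlueAux

variable {A B N : Type*} [Fintype A] [Fintype B] [Fintype N] [DecidableEq A] [DecidableEq B]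
  [DecidableEq N]

theorem glue (E1 : Emb (Option A) N) (E2 : Emb (Option B) N) (hr1 : E1.RowsTr) (hc1 : E1.ColsTr)
    (hg1 : E1.AllGood) (hr2 : E2.RowsTr) (hc2 : E2.ColsTr) (k : ℕ)
    (hg2 : ∃ F : Finset (Option B × N), F.card ≤ k ∧ ∀ e, e ∉ F → E2.Good e)
    (h : E2.rho none = (E1.rho none)⁻¹) (hA : Nonempty A) (hB : Nonempty B) :
    St (A ⊕ B) N E1.Cov k := by
  have n1 : ∀ x, E1.pi x none ≠ none := fun x => none_ne _ hA (hc1 x)
  have n2 : ∀ x, E2.pi x none ≠ none := fun x => none_ne _ hB (hc2 x)
  let E : Emb (A ⊕ B) N :=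
    { rho := fun u => match u with
        | Sum.inl a => E1.rho (some a)
        | Sum.inr c => E2.rho (some c)
      pi := fun x => gl (E1.pi x) (E2.pi x) (n1 x) (n2 x) }
  -- the row after `none` in the column `y` of `E1`
  choose rb hrb using fun y => Option.ne_none_iff_exists'.mp (n1 y)
  choose cb hcb using fun y => Option.ne_none_iff_exists'.mp (n2 y)
  -- facts on good arcs of `E1`
  have good1 : ∀ a x, E1.rho (E1.pi (E1.rho a x) a) (E1.rho a x) = x ∧
      E1.pi x (E1.pi (E1.rho a x) a) = a := by
    intro a x
    have h1 := hg1 (a, x)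
    have h2 : E1.phi (E1.phi (a, x)) = (a, x) := h1
    have h3 := congrArg Prod.fst h2
    have h4 := congrArg Prod.snd h2
    change E1.rho (E1.pi (E1.rho a x) a) (E1.rho a x) = x at h4
    change E1.pi (E1.rho (E1.pi (E1.rho a x) a) (E1.rho a x)) (E1.pi (E1.rho a x) a) = a at h3
    rw [h4] at h3
    exact ⟨h4, h3⟩
  -- an arc of the row `none` and its partner
  have partner : ∀ x y, E1.rho none x = y →
      E1.rho (some (rb y)) y = x ∧ E1.pi x (some (rb y)) = none := by
    intro x y hxy
    have h1 := good1 none x
    rw [hxy, hrb y] at h1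
    exact h1
  let tau : Option B × N → (A ⊕ B) × N := fun e => match e.1 with
    | none => (Sum.inl (rb e.2), e.2)
    | some c => (Sum.inr c, e.2)
  have htau : ∀ e, E.phi (tau e) = tau (E2.phi e) := by
    rintro ⟨r, u⟩
    rcases r with _ | c
    · have hx : E1.rho none (E2.rho none u) = u := by
        rw [h, papply_inv_self]
      set x := E2.rho none u with hxdef
      obtain ⟨p1, p2⟩ := partner x u hx
      have e1 : E2.phi (none, u) = (some (cb x), x) := by
        change (E2.pi (E2.rho none u) none, E2.rho none u) = _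
        rw [← hxdef, hcb x]
      rw [e1]
      change (glF (E1.pi (E1.rho (some (rb u)) u)) (E2.pi (E1.rho (some (rb u)) u))
        (Sum.inl (rb u)), E1.rho (some (rb u)) u) = (Sum.inr (cb x), x)
      refine Prod.ext ?_ p1
      change glF (E1.pi (E1.rho (some (rb u)) u)) (E2.pi (E1.rho (some (rb u)) u))
        (Sum.inl (rb u)) = Sum.inr (cb x)
      rw [p1]
      exact glF_inl_none _ _ p2 (hcb x)
    · set w := E2.rho (some c) u with hw
      have e1 : E2.phi (some c, u) = (E2.pi w (some c), w) := rfl
      rw [e1]
      change (glF (E1.pi w) (E2.pi w) (Sum.inr c), w) = tau (E2.pi w (some c), w)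
      rcases hc : E2.pi w (some c) with _ | c'
      · rw [glF_inr_none _ _ hc (hrb w)]
      · rw [glF_inr_some _ _ hc]
  obtain ⟨F, hF, hFg⟩ := hg2
  refine ⟨E, ?_, ?_, ⟨F.image tau, Finset.card_image_le.trans hF, ?_⟩, ?_⟩
  · intro u
    rcases u with a | c
    · exact hr1 (some a)
    · exact hr2 (some c)
  · intro x
    exact gl_Tr _ _ (n1 x) (n2 x) (hc1 x) (hc2 x)
  · intro e he
    have key : ∀ e', tau e' = e → E.Good e := by
      intro e' he'
      have h1 : e' ∉ F := fun hh => he (Finset.mem_image.2 ⟨e', hh, he'⟩)
      have h2 := hFg e' h1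
      change E2.phi (E2.phi e') = e' at h2
      change E.phi (E.phi e) = e
      rw [← he', htau, htau, h2]
    rcases e with ⟨u, x⟩
    rcases u with b | c
    · by_cases hb : E1.pi x none = some b
      · apply key (none, x)
        have h1 : rb x = b := by
          have h2 := hrb x
          rw [hb] at h2
          exact (Option.some.inj h2).symm
        change (Sum.inl (rb x), x) = _
        rw [h1]
      · obtain ⟨q1, q2⟩ := good1 (some b) x
        set w := E1.rho (some b) x with hw
        rcases hr : E1.pi w (some b) with _ | b'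
        · rw [hr] at q2
          exact absurd q2 hb
        · rw [hr] at q1 q2
          have e1 : E.phi (Sum.inl b, x) = (Sum.inl b', w) := by
            change (glF (E1.pi w) (E2.pi w) (Sum.inl b), w) = _
            rw [glF_inl_some _ _ hr]
          change E.phi (E.phi (Sum.inl b, x)) = _
          rw [e1]
          change (glF (E1.pi (E1.rho (some b') w)) (E2.pi (E1.rho (some b') w)) (Sum.inl b'),
            E1.rho (some b') w) = _
          rw [q1, glF_inl_some _ _ q2]
    · exact key (some c, x) rfl
  · rintro x y ⟨a, ha⟩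
    rcases a with _ | a
    · rcases ha with ha | ha
      · exact ⟨Sum.inl (rb y), Or.inr (partner x y ha).1⟩
      · exact ⟨Sum.inl (rb x), Or.inl (partner y x ha).1⟩
    · exact ⟨Sum.inl a, ha⟩

/-- Two full cycles on a finite type are conjugate. -/
theorem Tr.conj {N : Type*} [Finite N] {f g : Perm N} (hf : Tr f) (hg : Tr g) :
    ∃ h : Perm N, h * f * h⁻¹ = g := by
  classical
  have := Fintype.ofFinite N
  rcases subsingleton_or_nontrivial N with hN | hN
  · exact ⟨1, Subsingleton.elim _ _⟩
  · have aux : ∀ f : Perm N, Tr f → f.cycleType = {Fintype.card N} := by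
      intro f hf
      have hne : ∀ x, f x ≠ x := by
        intro x hx
        obtain ⟨y, hy⟩ := exists_ne x
        obtain ⟨n, hn⟩ := hf x y
        rw [Perm.zpow_apply_eq_self_of_apply_eq_self hx] at hn
        exact hy hn.symm
      obtain ⟨x⟩ : Nonempty N := inferInstance
      have hc : f.IsCycle := ⟨x, hne x, fun y _ => hf x y⟩
      rw [hc.cycleType]
      have hs : f.support = Finset.univ := by
        apply Finset.eq_univ_iff_forall.2
        intro y
        exact Perm.mem_support.2 (hne y)
      rw [hs, Finset.card_univ]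
    have h1 : IsConj f g := by
      rw [Perm.isConj_iff_cycleType_eq, aux f hf, aux g hg]
    exact isConj_iff.1 h1

/-- Extension of an exact embedding by an arbitrary embedding. `E2` is first relabelled (`Emb.map`
with `Tr.conj`) so that the row `none` is the inverse of the row `none` of `E1`. -/
theorem glue_St {C : N → N → Prop} {p1 p2 k : ℕ} (h1 : 2 ≤ p1) (h2 : 2 ≤ p2)
    (hE : Ex (Fin p1) N C) (hF : St (Fin p2) N (fun _ _ => False) k) :
    St (Fin (p1 + p2 - 2)) N C k := by
  obtain ⟨a, rfl⟩ : ∃ a, p1 = a + 1 + 1 := ⟨p1 - 2, by omega⟩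
  obtain ⟨b, rfl⟩ : ∃ b, p2 = b + 1 + 1 := ⟨p2 - 2, by omega⟩
  have hE' : Ex (Option (Fin (a + 1))) N C :=
    hE.map (finSuccEquiv (a + 1)) (Equiv.refl N) (fun x y h => h)
  have hF' : St (Option (Fin (b + 1))) N (fun _ _ => False) k :=
    hF.map (finSuccEquiv (b + 1)) (Equiv.refl N) (fun x y h => h)
  obtain ⟨E1, hr1, hc1, hg1, hC⟩ := hE'
  obtain ⟨E2, hr2, hc2, ⟨F, hFk, hFg⟩, -⟩ := hF'
  obtain ⟨g, hg⟩ := Tr.conj (hr2 none) (Tr.inv (hr1 none))
  have hst : St (Fin (a + 1) ⊕ Fin (b + 1)) N E1.Cov k := by
    apply glue E1 (E2.map (Equiv.refl _) g) hr1 hc1 hg1 (E2.map_rowsTr _ _ hr2) ?_ k ?_ ?_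
      ⟨0⟩ ⟨0⟩
    · intro x
      have h3 := E2.map_tr_pi (Equiv.refl _) g (g.symm x) (hc2 (g.symm x))
      rwa [Equiv.apply_symm_apply] at h3
    · refine ⟨F.image (fun e => (e.1, g e.2)), Finset.card_image_le.trans hFk, ?_⟩
      rintro ⟨r, x⟩ he
      have h3 : (r, g.symm x) ∉ F := by
        intro hh
        apply he
        refine Finset.mem_image.2 ⟨(r, g.symm x), hh, ?_⟩
        rw [Equiv.apply_symm_apply]
      have h4 := (E2.map_good (Equiv.refl _) g r (g.symm x)).2 (hFg _ h3)
      rw [Equiv.apply_symm_apply] at h4
      exact h4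
    · rw [← hg]
      ext x
      rfl
  have e : Fin (a + 1) ⊕ Fin (b + 1) ≃ Fin (a + 1 + 1 + (b + 1 + 1) - 2) :=
    finSumFinEquiv.trans (finCongr (by omega))
  exact hst.map e (Equiv.refl N) (fun x y hxy => hC x y hxy)

end Pool.Agent.W_MP_43c969_h13
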