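import Pool.Agent.W_MP_43c969_h13.Defs
import Pool.Agent.W_MP_43c969_h13.Basic
import Pool.Agent.W_MP_43c969_h13.Merge
import Pool.Agent.W_MP_43c969_h13.SplitA

/-!
# Task P3: from a pinched embedding with `p` rows to one with `p + 1` rows, `n = 3 mod 4`

`PSt.st3` (`n = 3 mod 4`). Let `v` be the pinched column, `a` any row and `d` a row of the other
cycle of `v` (`Two.not_same`). Let `x1 = (rho a)⁻¹ v`, `x2 = (rho d)⁻¹ v`, and `m` with
`0 < m < n`, `(rho a)^m x1 = x2` (`x1 ≠ x2`: if `x1 = x2`... see below). 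
*Case `m` even.* Let `E1 = colSwap E v a d` (`merge_pinched`, `colSwap_face` with `k = 2`). Its
special face is `(a, x1), (c, v), (d, x2), (b, v)`. Apply `splitA` to `E1` with `e_0 = (a, x1)`,
`t = 1`, `j = 1`, so `T = {x2}`; `S` is the set of the `(rho a)^i x1` with `i` even and `i < m`, or
`i` odd and `m < i < n`. It has `(n - 1) / 2` elements, an odd number. The pair `x1, v` is still
covered (by the arc `(b, v)`, the last arc of the new face: its second component is
`(phi^[3] (a, x1)).2 = v` and it is followed by `(some a, x1)`).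
*Case `m` odd.* Then `m ≥ 3`. Replace `E` by its mirror image `E*`, with the same `v`, `a`, and
with `d* = pi v d` (the row of the arc `v → x2` of the same quadrilateral); `d*` is in the same
cycle of `v` as `d`. In `E*` the column before `v` in the row `a` is `x1* = rho a v`, the column
before `v` in the row `d*` is `x2` and `(rho* a)^(n + 2 - m) x1* = x2`; `n + 2 - m` is even and
`0 < n + 2 - m < n`. So we are in the first case.
*`x1 ≠ x2`.* If `x1 = x2` take `m = n`, which is odd, and `n + 2 - m = 2`: in the mirror image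
`x2 = (rho* a)^2 x1*`, which is the first case for `E*` (`n ≥ 3`; for `n = 3` the number
`m* = 2 < 3` is fine). So in fact we choose `m` with `0 < m ≤ n`; `m = 1` is impossible since it
gives `x2 = v`.
-/

set_option autoImplicit false

namespace Pool.Agent.W_MP_43c969_h13

open Equiv

variable {P N : Type*} [Fintype P] [Fintype N] [DecidableEq P] [DecidableEq N]

omit [Fintype N] [DecidableEq N] in
theorem P3.self_inv (f : Perm N) (x : N) : f (f⁻¹ x) = x := f.apply_symm_apply x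

omit [Fintype N] [DecidableEq N] in
theorem P3.inv_self (f : Perm N) (x : N) : f⁻¹ (f x) = x := f.symm_apply_apply x

omit [DecidableEq N] in
theorem P3.tr_ne {f : Perm N} (h : Tr f) (hc : 2 ≤ Fintype.card N) (x : N) : f x ≠ x := by
  intro hx
  have h1 : ∀ y : N, y = x := by
    intro y
    obtain ⟨k, hk⟩ := h x y
    rw [← hk]
    exact Equiv.Perm.zpow_apply_eq_self_of_apply_eq_self hx k
  have h2 : Fintype.card N ≤ 1 := Fintype.card_le_one_iff.mpr (fun y z => by rw [h1 y, h1 z])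
  omega

omit [DecidableEq N] in
theorem P3.cycleOn {f : Perm N} (h : Tr f) : f.IsCycleOn ((Finset.univ : Finset N) : Set N) := by
  refine ⟨?_, fun x _ y _ => h x y⟩
  rw [Finset.coe_univ]
  exact Set.bijOn_univ.mpr f.bijective

omit [DecidableEq N] in
theorem P3.exists_pow {f : Perm N} (h : Tr f) (x y : N) :
    ∃ i, i < Fintype.card N ∧ (f ^ i) x = y := by
  obtain ⟨i, hi, he⟩ := (P3.cycleOn h).exists_pow_eq (Finset.mem_univ x) (Finset.mem_univ y)
  exact ⟨i, by simpa using hi, he⟩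

omit [DecidableEq N] in
theorem P3.pow_inj {f : Perm N} (h : Tr f) (x : N) {i j : ℕ} (hi : i < Fintype.card N)
    (hj : j < Fintype.card N) (he : (f ^ i) x = (f ^ j) x) : i = j := by
  have h1 := ((P3.cycleOn h).pow_apply_eq_pow_apply (Finset.mem_univ x)).mp he
  rw [Finset.card_univ] at h1
  have h2 : i % Fintype.card N = j % Fintype.card N := h1
  rwa [Nat.mod_eq_of_lt hi, Nat.mod_eq_of_lt hj] at h2

omit [DecidableEq N] in
theorem P3.pow_card {f : Perm N} (h : Tr f) (x : N) : (f ^ Fintype.card N) x = x := by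
  have h1 := ((P3.cycleOn h).pow_apply_eq (Finset.mem_univ x)).mpr (dvd_refl _)
  rwa [Finset.card_univ] at h1

/-- The set used to split the row. -/
theorem P3.exists_set {f : Perm N} (h : Tr f) (hn : Fintype.card N % 4 = 3) (x1 : N) (m : ℕ)
    (hm0 : 0 < m) (hm : m < Fintype.card N) (hme : Even m) :
    ∃ S : Finset N, x1 ∈ S ∧ Odd S.card ∧ (∀ x ∈ S, f x ∉ S) ∧
      (∀ x, x ∈ S ∨ f⁻¹ x ∈ S ∨ x = (f ^ m) x1) ∧ (f ^ m) x1 ∉ S ∧ f⁻¹ ((f ^ m) x1) ∉ S := by
  classical
  set n := Fintype.card N with hnn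
  let S : Finset N := Finset.univ.filter (fun x => ∃ i, i < n ∧
    ((Even i ∧ i < m) ∨ (Odd i ∧ m < i)) ∧ (f ^ i) x1 = x)
  have hmem : ∀ i, i < n → ((f ^ i) x1 ∈ S ↔ ((Even i ∧ i < m) ∨ (Odd i ∧ m < i))) := by
    intro i hi
    constructor
    · intro hS
      obtain ⟨j, hj, hj2, hj3⟩ := (Finset.mem_filter.mp hS).2
      have := P3.pow_inj h x1 hj hi hj3
      rwa [← this]
    · intro hc
      exact Finset.mem_filter.mpr ⟨Finset.mem_univ _, i, hi, hc, rfl⟩
  have hstep : ∀ i, f ((f ^ i) x1) = (f ^ (i + 1)) x1 := by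
    intro i
    rw [pow_succ' f i, Equiv.Perm.mul_apply]
  have hback : ∀ i, f⁻¹ ((f ^ (i + 1)) x1) = (f ^ i) x1 := by
    intro i
    rw [← hstep i, P3.inv_self]
  obtain ⟨m', hm'⟩ := hme
  have h1 : x1 ∈ S := by
    have := (hmem 0 (by omega)).mpr (Or.inl ⟨⟨0, rfl⟩, hm0⟩)
    simpa using this
  have h2 : ∀ x ∈ S, f x ∉ S := by
    intro x hx
    obtain ⟨i, hi, hc, rfl⟩ := (Finset.mem_filter.mp hx).2
    rw [hstep i]
    intro hx2
    rcases hc with ⟨⟨i', hi'⟩, hc2⟩ | ⟨⟨i', hi'⟩, hc2⟩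
    · rcases (hmem (i + 1) (by omega)).mp hx2 with ⟨⟨i'', hi''⟩, _⟩ | ⟨⟨i'', hi''⟩, _⟩ <;> omega
    · rcases (hmem (i + 1) (by omega)).mp hx2 with ⟨⟨i'', hi''⟩, _⟩ | ⟨⟨i'', hi''⟩, _⟩ <;> omega
  have h3 : ∀ x, x ∈ S ∨ f⁻¹ x ∈ S ∨ x = (f ^ m) x1 := by
    intro x
    obtain ⟨i, hi, rfl⟩ := P3.exists_pow h x1 x
    rcases Nat.even_or_odd i with he | ho
    · rcases lt_trichotomy i m with hl | hl | hl
      · exact Or.inl ((hmem i hi).mpr (Or.inl ⟨he, hl⟩))
      · exact Or.inr (Or.inr (by rw [hl]))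
      · refine Or.inr (Or.inl ?_)
        obtain ⟨j, rfl⟩ : ∃ j, i = j + 1 := ⟨i - 1, by omega⟩
        rw [hback j]
        obtain ⟨i', hi'⟩ := he
        exact (hmem j (by omega)).mpr (Or.inr ⟨⟨i' - 1, by omega⟩, by omega⟩)
    · rcases lt_or_ge i m with hl | hl
      · refine Or.inr (Or.inl ?_)
        obtain ⟨i', hi'⟩ := ho
        obtain ⟨j, rfl⟩ : ∃ j, i = j + 1 := ⟨i - 1, by omega⟩
        rw [hback j]
        exact (hmem j (by omega)).mpr (Or.inl ⟨⟨i', by omega⟩, by omega⟩)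
      · obtain ⟨i', hi'⟩ := ho
        exact Or.inl ((hmem i hi).mpr (Or.inr ⟨⟨i', by omega⟩, by omega⟩))
  have h4 : (f ^ m) x1 ∉ S := by
    intro hx
    rcases (hmem m hm).mp hx with ⟨_, hc⟩ | ⟨_, hc⟩ <;> omega
  have h5 : f⁻¹ ((f ^ m) x1) ∉ S := by
    obtain ⟨j, hj⟩ : ∃ j, m = j + 1 := ⟨m - 1, by omega⟩
    have : f⁻¹ ((f ^ m) x1) = (f ^ j) x1 := by rw [hj]; exact hback j
    rw [this]
    intro hx
    rcases (hmem j (by omega)).mp hx with ⟨⟨i', hi'⟩, _⟩ | ⟨_, hc⟩ <;> omega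
  have hcard : Fintype.card N = 2 * S.card + 1 := by
    have hu : (Finset.univ : Finset N) = insert ((f ^ m) x1) (S ∪ S.image f) := by
      ext x
      simp only [Finset.mem_univ, Finset.mem_insert, Finset.mem_union, Finset.mem_image, true_iff]
      rcases h3 x with h | h | h
      · exact Or.inr (Or.inl h)
      · exact Or.inr (Or.inr ⟨f⁻¹ x, h, P3.self_inv f x⟩)
      · exact Or.inl h
    have hd : Disjoint S (S.image f) := by
      rw [Finset.disjoint_left]
      intro x hx hx2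
      obtain ⟨y, hy, hyx⟩ := Finset.mem_image.mp hx2
      exact h2 y hy (hyx ▸ hx)
    have hni : (f ^ m) x1 ∉ S ∪ S.image f := by
      intro hx
      rcases Finset.mem_union.mp hx with hx | hx
      · exact h4 hx
      · obtain ⟨y, hy, hyx⟩ := Finset.mem_image.mp hx
        apply h5
        rw [← hyx, P3.inv_self]
        exact hy
    rw [← Finset.card_univ, hu, Finset.card_insert_of_notMem hni, Finset.card_union_of_disjoint hd,
      Finset.card_image_of_injective S f.injective]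
    ring
  refine ⟨S, h1, ?_, h2, h3, h4, h5⟩
  rw [Nat.odd_iff]
  omega

/-- The even case of `PSt.st3`. -/
theorem pinched_even (E : Emb P N) (v : N) (hrow : E.RowsTr) (hcol : ∀ w, w ≠ v → Tr (E.pi w))
    (htwo : Two (E.pi v)) (hg : E.AllGood) (hn : Fintype.card N % 4 = 3) (a d : P)
    (had : ¬ (E.pi v).SameCycle a d) (m : ℕ) (hm0 : 0 < m) (hm : m < Fintype.card N)
    (hme : Even m) (hx : ((E.rho a) ^ m) ((E.rho a)⁻¹ v) = (E.rho d)⁻¹ v) :
    St (Option P) N E.Cov 3 := by
  classical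
  have hc2 : 2 ≤ Fintype.card N := by omega
  have hne : ∀ (b : P) (x : N), E.rho b x ≠ x := fun b x => P3.tr_ne (hrow b) hc2 x
  obtain ⟨x1, hx1⟩ : ∃ x1, x1 = (E.rho a)⁻¹ v := ⟨_, rfl⟩
  obtain ⟨x2, hx2⟩ : ∃ x2, x2 = (E.rho d)⁻¹ v := ⟨_, rfl⟩
  rw [← hx1, ← hx2] at hx
  have hax1 : E.rho a x1 = v := by rw [hx1, P3.self_inv]
  have hdx2 : E.rho d x2 = v := by rw [hx2, P3.self_inv]
  have hphia : E.phi (a, x1) = (E.pi v a, v) := by simp only [Emb.phi, hax1]
  have hphid : E.phi (d, x2) = (E.pi v d, v) := by simp only [Emb.phi, hdx2]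
  have hf2 : E.FaceAt (a, x1) 2 := Emb.faceAt_two E hg (a, x1) (hne a x1)
  have hd1 : ∀ i, i < 2 → (d, x2) ≠ E.phi^[i] (a, x1) := by
    intro i hi he
    interval_cases i
    · have : d = a := congrArg Prod.fst he
      exact had (this ▸ Equiv.Perm.SameCycle.refl _ _)
    · rw [Function.iterate_one, hphia] at he
      have : d = E.pi v a := congrArg Prod.fst he
      apply had
      rw [this, Equiv.Perm.sameCycle_apply_right]
  have hdne : E.phi (d, x2) ≠ (d, x2) := by
    rw [hphid]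
    intro he
    have : v = x2 := congrArg Prod.snd he
    exact hne d x2 (hdx2.trans this)
  obtain ⟨hE1row, hE1col, hE1face, hE1cov⟩ := merge_pinched E v a d x1 2 le_rfl hrow hcol htwo
    hax1 hf2 had (by
      intro i hi _
      interval_cases i
      · exact Equiv.Perm.SameCycle.refl _ _
      · rw [Function.iterate_one, hphia]
        exact Equiv.Perm.sameCycle_apply_right.mpr (Equiv.Perm.SameCycle.refl _ _))
    (by rw [Nat.card_eq_fintype_card]; exact hc2)
  obtain ⟨_, hp1, hp2, hp3⟩ := colSwap_face E v a d x1 x2 2 le_rfl hax1 hdx2 hf2 hd1 hdne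
  set E1 := colSwap E v a d with hE1
  have hrho : E1.rho = E.rho := rfl
  have hph2 : E1.phi^[2] (a, x1) = (d, x2) := by
    rw [show (2 : ℕ) = 1 + 1 from rfl, Function.iterate_succ_apply', Function.iterate_one, hp1, hp2]
  have hph3 : E1.phi^[3] (a, x1) = (E.pi v a, v) := by
    have := hp3 1 le_rfl (by norm_num)
    rw [Function.iterate_one, hphia] at this
    exact this
  obtain ⟨S, hS1, hSodd, hS2, hS3, hS4, hS5⟩ := P3.exists_set (hrow a) hn x1 m hm0 hm hme
  rw [hx] at hS3 hS4 hS5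
  obtain ⟨E', hE'row, hE'col, _, hE'face, hE'snd, hE'cov, _⟩ := splitA E1 a x1 1 1 S hE1row
    hE1face hS1 hSodd hS2
    (by
      intro x
      rcases hS3 x with h | h | h
      · exact Or.inl h
      · exact Or.inr (Or.inl h)
      · exact Or.inr (Or.inr ⟨2, le_rfl, le_rfl, by rw [hph2]; exact h⟩))
    (by
      intro i h2 h3
      have : i = 2 := by omega
      subst this
      rw [hph2]
      exact ⟨hS4, hS5⟩)
    (by intro i i' h2 h3 h4; omega)
  refine ⟨E', hE'row, fun x => hE'col x (hE1col x), hE'face.bound, ?_⟩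
  have hlast : E'.Cov x1 v := by
    have h1 := hE'snd 2 (by norm_num) (by norm_num)
    have h2 : (E1.phi^[1 + 2] (a, x1)).2 = v := by
      rw [show 1 + 2 = 3 from rfl, hph3]
    rw [h2] at h1
    have h3 : E'.phi (E'.phi^[2] (some a, x1)) = (some a, x1) := by
      rw [← Function.iterate_succ_apply' E'.phi 2]
      exact hE'face.2.1
    refine ⟨(E'.phi^[2] (some a, x1)).1, Or.inr ?_⟩
    have h4 := congrArg Prod.snd h3
    simp only [Emb.phi] at h4
    rw [← h1]
    exact h4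
  intro x y hxy
  by_cases hc1 : x = x1 ∧ y = v
  · rw [hc1.1, hc1.2]; exact hlast
  · by_cases hc3 : y = x1 ∧ x = v
    · rw [hc3.1, hc3.2]
      obtain ⟨b, hb⟩ := hlast
      exact ⟨b, hb.symm⟩
    · apply hE'cov x y (hE1cov x y hxy)
      · rintro ⟨h1, h2⟩
        exact hc1 ⟨h1, h2.trans hax1⟩
      · rintro ⟨h1, h2⟩
        exact hc3 ⟨h1, h2.trans hax1⟩

theorem PSt.st3 {C : N → N → Prop} (h : PSt P N C) (hn : Fintype.card N % 4 = 3) :
    St (Option P) N C 3 := by
  classical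
  obtain ⟨E, v, hrow, hcol, htwo, hg, hcov⟩ := h
  have hc2 : 2 ≤ Fintype.card N := by omega
  obtain ⟨a, d, had, _⟩ := id htwo
  have hax : E.rho a ((E.rho a)⁻¹ v) = v := P3.self_inv _ _
  have hdx : E.rho d ((E.rho d)⁻¹ v) = v := P3.self_inv _ _
  obtain ⟨m0, hm0, hm0e⟩ := P3.exists_pow (hrow a) (E.rho a ((E.rho a)⁻¹ v)) ((E.rho d)⁻¹ v)
  obtain ⟨m, hm1, hm2, hme⟩ : ∃ m, 0 < m ∧ m ≤ Fintype.card N ∧
      ((E.rho a) ^ m) ((E.rho a)⁻¹ v) = (E.rho d)⁻¹ v := by
    refine ⟨m0 + 1, by omega, by omega, ?_⟩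
    rw [pow_succ, Equiv.Perm.mul_apply]
    exact hm0e
  rcases Nat.even_or_odd m with hev | hod
  · obtain ⟨m', hm'⟩ := id hev
    exact (pinched_even E v hrow hcol htwo hg hn a d had m hm1 (by omega) hev hme).mono le_rfl hcov
  · obtain ⟨m', hm'⟩ := id hod
    have hm3 : m ≠ 1 := by
      intro h1
      rw [h1, pow_one, hax] at hme
      rw [← hme] at hdx
      exact P3.tr_ne (hrow d) hc2 v hdx
    -- the good quadrilateral of `(d, x2)`
    have hgd := hg (d, (E.rho d)⁻¹ v)
    have hphid : E.phi (d, (E.rho d)⁻¹ v) = (E.pi v d, v) := by simp only [Emb.phi, hdx]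
    have hq : E.rho (E.pi v d) v = (E.rho d)⁻¹ v := by
      have h1 : E.phi (E.phi (d, (E.rho d)⁻¹ v)) = (d, (E.rho d)⁻¹ v) := hgd
      rw [hphid] at h1
      exact congrArg Prod.snd h1
    have hmain : St (Option P) N E.mirror.Cov 3 := by
      refine pinched_even E.mirror v (fun b => (hrow b).inv) (fun w hw => (hcol w hw).inv) htwo.inv
        (E.mirror_allGood hg) hn a (E.pi v d) ?_ (Fintype.card N + 2 - m) (by omega) (by omega)
        (by rw [Nat.even_iff]; omega) ?_
      · intro hs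
        apply had
        have h1 : (E.pi v).SameCycle a (E.pi v d) := Equiv.Perm.sameCycle_inv.mp hs
        exact Equiv.Perm.sameCycle_apply_right.mp h1
      · change (((E.rho a)⁻¹) ^ (Fintype.card N + 2 - m)) (((E.rho a)⁻¹)⁻¹ v) =
          ((E.rho (E.pi v d))⁻¹)⁻¹ v
        rw [inv_inv, inv_inv, hq, ← hme]
        rw [inv_pow, Equiv.Perm.inv_eq_iff_eq, ← Equiv.Perm.mul_apply, ← pow_add]
        rw [show Fintype.card N + 2 - m + m = 2 + Fintype.card N by omega, pow_add,
          Equiv.Perm.mul_apply, P3.pow_card (hrow a), pow_two, Equiv.Perm.mul_apply, hax]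
    exact hmain.mono le_rfl (fun x y hxy => E.mirror_cov x y (hcov x y hxy))

end Pool.Agent.W_MP_43c969_h13
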