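import Pool.Agent.W_MP_43c969_h13.Defs
import Pool.Agent.W_MP_43c969_h13.Cyc
import Pool.Agent.W_MP_43c969_h13.Split

/-!
# Task SplitCycB: the cycles of the two new rows, case `n = 1 mod 4`
-/

set_option autoImplicit false

namespace Pool.Agent.W_MP_43c969_h13

open Equiv

variable {N : Type*} [Fintype N] [DecidableEq N]

/-- the labels of `κ` -/
def spbK (s i : ℕ) : ℕ :=
  if i = 0 then (if s = 1 then 1 else 5) else if i % 2 = 0 then i else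
    if i = 3 then 0 else if i = 4 * s - 1 then 1 else i + 2

/-- the labels of `κ⁻¹` -/
def spbK' (s i : ℕ) : ℕ :=
  if i = 0 then 3 else if i % 2 = 0 then i else
    if i = 3 then 1 else if i = 1 then (if s = 1 then 0 else 4 * s - 1) else
      if i = 5 then 0 else i - 2

/-- the labels of `θ` -/
def spbT (i : ℕ) : ℕ := if i = 0 then 0 else if i % 2 = 1 then i + 1 else i - 1

theorem spbK_spec (s i : ℕ) : (i = 0 ∧ s = 1 ∧ spbK s i = 1) ∨ (i = 0 ∧ s ≠ 1 ∧ spbK s i = 5) ∨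
    (i ≠ 0 ∧ i % 2 = 0 ∧ spbK s i = i) ∨ (i = 3 ∧ spbK s i = 0) ∨
    (i ≠ 3 ∧ i % 2 = 1 ∧ i = 4 * s - 1 ∧ spbK s i = 1) ∨
    (i ≠ 3 ∧ i % 2 = 1 ∧ i ≠ 4 * s - 1 ∧ spbK s i = i + 2) := by
  unfold spbK
  split_ifs <;> omega

theorem spbK'_spec (s i : ℕ) : (i = 0 ∧ spbK' s i = 3) ∨ (i ≠ 0 ∧ i % 2 = 0 ∧ spbK' s i = i) ∨
    (i = 3 ∧ spbK' s i = 1) ∨ (i = 1 ∧ s = 1 ∧ spbK' s i = 0) ∨
    (i = 1 ∧ s ≠ 1 ∧ spbK' s i = 4 * s - 1) ∨ (i = 5 ∧ spbK' s i = 0) ∨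
    (i ≠ 3 ∧ i ≠ 1 ∧ i ≠ 5 ∧ i % 2 = 1 ∧ spbK' s i = i - 2) := by
  unfold spbK'
  split_ifs <;> omega

theorem spbT_spec (i : ℕ) : (i = 0 ∧ spbT i = 0) ∨ (i % 2 = 1 ∧ spbT i = i + 1) ∨
    (i ≠ 0 ∧ i % 2 = 0 ∧ spbT i = i - 1) := by
  unfold spbT
  split_ifs <;> omega

theorem spbK_lt {s i : ℕ} (hs : 1 ≤ s) (hi : i < 4 * s + 1) : spbK s i < 4 * s + 1 := by
  have := spbK_spec s i
  omega

theorem spbK'_lt {s i : ℕ} (hs : 1 ≤ s) (hi : i < 4 * s + 1) : spbK' s i < 4 * s + 1 := by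
  have := spbK'_spec s i
  omega

theorem spbT_lt {s i : ℕ} (hi : i < 4 * s + 1) : spbT i < 4 * s + 1 := by
  have := spbT_spec i
  omega

theorem spbK_spbK' {s i : ℕ} (hs : 1 ≤ s) (hi : i < 4 * s + 1) : spbK s (spbK' s i) = i := by
  have h1 := spbK_spec s (spbK' s i)
  have h2 := spbK'_spec s i
  omega

theorem spbK'_spbK {s i : ℕ} (hs : 1 ≤ s) (hi : i < 4 * s + 1) : spbK' s (spbK s i) = i := by
  have h1 := spbK'_spec s (spbK s i)
  have h2 := spbK_spec s i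
  omega

theorem spbT_spbT (i : ℕ) : spbT (spbT i) = i := by
  have h1 := spbT_spec (spbT i)
  have h2 := spbT_spec i
  omega

/-- `κ` on the labels -/
def spbKP {s : ℕ} (hs : 1 ≤ s) : Perm (Fin (4 * s + 1)) where
  toFun i := ⟨spbK s i, spbK_lt hs i.2⟩
  invFun i := ⟨spbK' s i, spbK'_lt hs i.2⟩
  left_inv i := Fin.ext (spbK'_spbK hs i.2)
  right_inv i := Fin.ext (spbK_spbK' hs i.2)

/-- `θ` on the labels -/
def spbTP (s : ℕ) : Perm (Fin (4 * s + 1)) where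
  toFun i := ⟨spbT i, spbT_lt i.2⟩
  invFun i := ⟨spbT i, spbT_lt i.2⟩
  left_inv i := Fin.ext (spbT_spbT i)
  right_inv i := Fin.ext (spbT_spbT i)

/-- The permutations used in the case `n = 1 mod 4`: `Z = {u0}`, `N = S ∪ ρ(S) ∪ {u0}`, and
`κ⁻¹ u0 = ρ^3 u0`. Proof: `n = 4 s + 1` with `s ≥ 1`; label `N` by `0, …, 4 s` so that `u0 = 0` and
`ρ x = x + 1`. Put `S = {1, 3, …, 4 s - 1}`, `κ x = x + 2` for `x ∈ S`, `x ≠ 3`, `x ≠ 4 s - 1`;
`κ (4 s - 1) = 1` if `s ≥ 2`; `κ 0 = 5` if `s ≥ 2` and `κ 0 = 1` if `s = 1`; `κ 3 = 0`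
(that is `κ = κ0 * swap 0 3` with `κ0` the cyclic shift by two on `S`).
`κ⁻¹ * θ` follows `4s-1 → 4s → 4s-3 → … → 5 → 6 → 0 → 3 → 4 → 1 → 2 → 4s-1`
(for `s = 1`: `3 → 4 → 1 → 2 → 0 → 3`).
`ρ * κ` follows `0 → 6 → 7 → 10 → 11 → … → 4s-2 → 4s-1 → 2 → 3 → 1 → 4 → 5 → 8 → … → 4s → 0`
(for `s = 1`: `0 → 2 → 3 → 1 → 4 → 0`). -/
theorem split_perm_one (ρ : Perm N) (hρ : Tr ρ) (hn : Fintype.card N % 4 = 1)
    (hn' : 5 ≤ Fintype.card N) (u0 : N) :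
    ∃ (S : Finset N) (κ θ : Perm N), SplitHyp ρ S {u0} κ θ ∧ (∀ x, x ∈ S ∨ ρ⁻¹ x ∈ S ∨ x = u0) ∧
      Tr (ρ * κ) ∧ Tr (κ⁻¹ * θ) ∧ κ⁻¹ u0 = (ρ ^ 3) u0 := by
  obtain ⟨s, hs⟩ : ∃ s, Fintype.card N = 4 * s + 1 := ⟨Fintype.card N / 4, by omega⟩
  have hs1 : 1 ≤ s := by omega
  have hcyc : ρ.IsCycleOn ((Finset.univ : Finset N) : Set N) := by
    refine ⟨?_, fun x _ y _ => hρ x y⟩
    rw [Finset.coe_univ]
    exact Set.bijOn_univ.2 ρ.bijective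
  let c : ℕ → N := fun i => (ρ ^ i) u0
  have hc1 : ∀ i, ρ (c i) = c (i + 1) := by
    intro i
    change ρ ((ρ ^ i) u0) = (ρ ^ (i + 1)) u0
    rw [pow_succ', Perm.mul_apply]
  have hcn : c (4 * s + 1) = c 0 := by
    have h1 := hcyc.pow_card_apply (Finset.mem_univ u0)
    rw [Finset.card_univ, hs] at h1
    change (ρ ^ (4 * s + 1)) u0 = (ρ ^ 0) u0
    rw [h1, pow_zero, Perm.one_apply]
  have hsurj : ∀ x, ∃ i, i < 4 * s + 1 ∧ c i = x := by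
    intro x
    obtain ⟨i, hi, hx⟩ := hcyc.exists_pow_eq (Finset.mem_univ u0) (Finset.mem_univ x)
    rw [Finset.card_univ, hs] at hi
    exact ⟨i, hi, hx⟩
  have hbij : Function.Bijective (fun i : Fin (4 * s + 1) => c i) := by
    rw [Fintype.bijective_iff_surjective_and_card, Fintype.card_fin, hs]
    refine ⟨fun x => ?_, rfl⟩
    obtain ⟨i, hi, hx⟩ := hsurj x
    exact ⟨⟨i, hi⟩, hx⟩
  let e : Fin (4 * s + 1) ≃ N := Equiv.ofBijective _ hbij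
  have hinj : ∀ {i j}, i < 4 * s + 1 → j < 4 * s + 1 → c i = c j → i = j := by
    intro i j hi hj hij
    exact congrArg Fin.val (hbij.1 (a₁ := ⟨i, hi⟩) (a₂ := ⟨j, hj⟩) hij)
  have hsymm : ∀ i (hi : i < 4 * s + 1), e.symm (c i) = ⟨i, hi⟩ := by
    intro i hi
    rw [Equiv.symm_apply_eq]
    rfl
  let S : Finset N := Finset.univ.filter fun x => (e.symm x : ℕ) % 2 = 1
  have hS : ∀ i, i < 4 * s + 1 → (c i ∈ S ↔ i % 2 = 1) := by
    intro i hi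
    rw [Finset.mem_filter, hsymm i hi]
    exact ⟨fun h => h.2, fun h => ⟨Finset.mem_univ _, h⟩⟩
  let κ : Perm N := e.permCongr (spbKP hs1)
  let θ : Perm N := e.permCongr (spbTP s)
  have hκ : ∀ i, i < 4 * s + 1 → κ (c i) = c (spbK s i) := by
    intro i hi
    change e (spbKP hs1 (e.symm (c i))) = _
    rw [hsymm i hi]
    rfl
  have hθ : ∀ i, i < 4 * s + 1 → θ (c i) = c (spbT i) := by
    intro i hi
    change e (spbTP s (e.symm (c i))) = _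
    rw [hsymm i hi]
    rfl
  have hκ' : ∀ i, i < 4 * s + 1 → κ⁻¹ (c i) = c (spbK' s i) := by
    intro i hi
    rw [Perm.inv_eq_iff_eq, hκ _ (spbK'_lt hs1 hi), spbK_spbK' hs1 hi]
  have hc0 : c 0 = u0 := rfl
  have hu0 : ∀ i, i < 4 * s + 1 → (c i ∈ ({u0} : Finset N) ↔ i = 0) := by
    intro i hi
    rw [Finset.mem_singleton]
    exact ⟨fun h => hinj hi (by omega) h, fun h => by rw [h, hc0]⟩
  have hρi : ∀ i, ρ⁻¹ (c (i + 1)) = c i := by
    intro i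
    rw [Perm.inv_eq_iff_eq, hc1]
  -- the row `ρ * κ`
  have hA : ∀ i j, i < 4 * s + 1 → (∀ v, ((i = 0 ∧ s = 1 ∧ v = 1) ∨ (i = 0 ∧ s ≠ 1 ∧ v = 5) ∨
      (i ≠ 0 ∧ i % 2 = 0 ∧ v = i) ∨ (i = 3 ∧ v = 0) ∨
      (i ≠ 3 ∧ i % 2 = 1 ∧ i = 4 * s - 1 ∧ v = 1) ∨
      (i ≠ 3 ∧ i % 2 = 1 ∧ i ≠ 4 * s - 1 ∧ v = i + 2)) → j = v + 1) →
      (ρ * κ).SameCycle (c i) (c j) := by
    intro i j hi hj
    have h1 : (ρ * κ) (c i) = c j := by
      rw [Perm.mul_apply, hκ i hi, hc1, hj _ (spbK_spec s i)]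
    rw [← h1]
    exact Perm.sameCycle_apply_right.2 (Perm.SameCycle.refl _ _)
  have hA1 : ∀ m, 4 * m + 1 < 4 * s + 1 → (ρ * κ).SameCycle (c 1) (c (4 * m + 1)) := by
    intro m
    induction m with
    | zero => exact fun _ => Perm.SameCycle.refl _ _
    | succ m ih =>
      intro hm
      exact (ih (by omega)).trans ((hA (4 * m + 1) (4 * m + 4) (by omega)
        (by intro v hv; omega)).trans (hA (4 * m + 4) _ (by omega) (by intro v hv; omega)))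
  have hA4 : ∀ m, 4 * m + 4 < 4 * s + 1 → (ρ * κ).SameCycle (c 1) (c (4 * m + 4)) := by
    intro m hm
    exact (hA1 m (by omega)).trans (hA (4 * m + 1) (4 * m + 4) (by omega) (by intro v hv; omega))
  have hA0 : (ρ * κ).SameCycle (c 1) (c 0) := by
    obtain ⟨m, hm⟩ : ∃ m, s = m + 1 := ⟨s - 1, by omega⟩
    refine (hA4 m (by omega)).trans ?_
    rw [← hcn]
    exact hA _ _ (by omega) (by intro v hv; omega)
  have hA3 : (ρ * κ).SameCycle (c 1) (c 3) := (hA 3 1 (by omega) (by intro v hv; omega)).symm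
  have hA2 : (ρ * κ).SameCycle (c 1) (c 2) :=
    hA3.trans (hA 2 3 (by omega) (by intro v hv; omega)).symm
  have hA6 : ∀ m, 4 * m + 6 < 4 * s + 1 → (ρ * κ).SameCycle (c 1) (c (4 * m + 6)) := by
    intro m
    induction m with
    | zero =>
      intro hm
      exact hA0.trans (hA 0 _ (by omega) (by intro v hv; omega))
    | succ m ih =>
      intro hm
      exact (ih (by omega)).trans ((hA (4 * m + 6) (4 * m + 7) (by omega)
        (by intro v hv; omega)).trans (hA (4 * m + 7) _ (by omega) (by intro v hv; omega)))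
  have hA7 : ∀ m, 4 * m + 7 < 4 * s + 1 → (ρ * κ).SameCycle (c 1) (c (4 * m + 7)) := by
    intro m hm
    exact (hA6 m (by omega)).trans (hA (4 * m + 6) (4 * m + 7) (by omega) (by intro v hv; omega))
  have hAll : ∀ i, i < 4 * s + 1 → (ρ * κ).SameCycle (c 1) (c i) := by
    intro i hi
    rcases (by omega : i = 0 ∨ i = 2 ∨ i = 3 ∨ i % 4 = 1 ∨ (i ≠ 0 ∧ i % 4 = 0) ∨
      (6 ≤ i ∧ i % 4 = 2) ∨ (7 ≤ i ∧ i % 4 = 3)) with h | h | h | h | h | h | h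
    · rw [h]; exact hA0
    · rw [h]; exact hA2
    · rw [h]; exact hA3
    · have h1 := hA1 (i / 4) (by omega)
      rwa [show 4 * (i / 4) + 1 = i by omega] at h1
    · have h1 := hA4 (i / 4 - 1) (by omega)
      rwa [show 4 * (i / 4 - 1) + 4 = i by omega] at h1
    · have h1 := hA6 ((i - 6) / 4) (by omega)
      rwa [show 4 * ((i - 6) / 4) + 6 = i by omega] at h1
    · have h1 := hA7 ((i - 7) / 4) (by omega)
      rwa [show 4 * ((i - 7) / 4) + 7 = i by omega] at h1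
  -- the row `κ⁻¹ * θ`
  have hB : ∀ i j, i < 4 * s + 1 → (∀ t v, ((i = 0 ∧ t = 0) ∨ (i % 2 = 1 ∧ t = i + 1) ∨
      (i ≠ 0 ∧ i % 2 = 0 ∧ t = i - 1)) → ((t = 0 ∧ v = 3) ∨ (t ≠ 0 ∧ t % 2 = 0 ∧ v = t) ∨
      (t = 3 ∧ v = 1) ∨ (t = 1 ∧ s = 1 ∧ v = 0) ∨
      (t = 1 ∧ s ≠ 1 ∧ v = 4 * s - 1) ∨ (t = 5 ∧ v = 0) ∨
      (t ≠ 3 ∧ t ≠ 1 ∧ t ≠ 5 ∧ t % 2 = 1 ∧ v = t - 2)) → j = v) →
      (κ⁻¹ * θ).SameCycle (c i) (c j) := by
    intro i j hi hj
    have h1 : (κ⁻¹ * θ) (c i) = c j := by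
      rw [Perm.mul_apply, hθ i hi, hκ' _ (spbT_lt hi), hj _ _ (spbT_spec i) (spbK'_spec s _)]
    rw [← h1]
    exact Perm.sameCycle_apply_right.2 (Perm.SameCycle.refl _ _)
  have hB3 : (κ⁻¹ * θ).SameCycle (c 0) (c 3) := hB 0 3 (by omega) (by intro t v ht hv; omega)
  have hB4 : (κ⁻¹ * θ).SameCycle (c 0) (c 4) :=
    hB3.trans (hB 3 4 (by omega) (by intro t v ht hv; omega))
  have hB1 : (κ⁻¹ * θ).SameCycle (c 0) (c 1) :=
    hB4.trans (hB 4 1 (by omega) (by intro t v ht hv; omega))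
  have hB2 : (κ⁻¹ * θ).SameCycle (c 0) (c 2) :=
    hB1.trans (hB 1 2 (by omega) (by intro t v ht hv; omega))
  have hB5 : ∀ m, 2 * m + 5 < 4 * s + 1 → (κ⁻¹ * θ).SameCycle (c 0) (c (2 * m + 5)) := by
    intro m
    induction m with
    | zero =>
      intro hm
      exact ((hB 5 6 (by omega) (by intro t v ht hv; omega)).trans
        (hB 6 0 (by omega) (by intro t v ht hv; omega))).symm
    | succ m ih =>
      intro hm
      exact (ih (by omega)).trans ((hB (2 * (m + 1) + 5) (2 * m + 8) (by omega)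
        (by intro t v ht hv; omega)).trans
        (hB (2 * m + 8) _ (by omega) (by intro t v ht hv; omega))).symm
  have hB6 : ∀ m, 2 * m + 6 < 4 * s + 1 → (κ⁻¹ * θ).SameCycle (c 0) (c (2 * m + 6)) := by
    intro m hm
    exact (hB5 m (by omega)).trans (hB (2 * m + 5) _ (by omega) (by intro t v ht hv; omega))
  have hBll : ∀ i, i < 4 * s + 1 → (κ⁻¹ * θ).SameCycle (c 0) (c i) := by
    intro i hi
    rcases (by omega : i = 0 ∨ i = 1 ∨ i = 2 ∨ i = 3 ∨ i = 4 ∨ (5 ≤ i ∧ i % 2 = 1) ∨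
      (6 ≤ i ∧ i % 2 = 0)) with h | h | h | h | h | h | h
    · rw [h]
    · rw [h]; exact hB1
    · rw [h]; exact hB2
    · rw [h]; exact hB3
    · rw [h]; exact hB4
    · have h1 := hB5 ((i - 5) / 2) (by omega)
      rwa [show 2 * ((i - 5) / 2) + 5 = i by omega] at h1
    · have h1 := hB6 ((i - 6) / 2) (by omega)
      rwa [show 2 * ((i - 6) / 2) + 6 = i by omega] at h1
  refine ⟨S, κ, θ, ⟨?_, ?_, ?_, ?_, ?_⟩, ?_, ?_, ?_, ?_⟩
  · intro x hx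
    obtain ⟨i, hi, rfl⟩ := hsurj x
    rw [hS i hi] at hx
    rw [hc1, hS _ (by omega), hu0 _ (by omega)]
    omega
  · intro x hx
    rw [Finset.mem_singleton] at hx
    rw [hx, ← hc0, hS 0 (by omega)]
    omega
  · intro x hx hx'
    obtain ⟨i, hi, rfl⟩ := hsurj x
    rw [hS i hi] at hx
    rw [hu0 i hi] at hx'
    rw [hκ i hi]
    congr 1
    have := spbK_spec s i
    omega
  · intro x hx
    obtain ⟨i, hi, rfl⟩ := hsurj x
    rw [hS i hi] at hx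
    rw [hc1, hθ i hi, hθ (i + 1) (by omega)]
    constructor
    · congr 1
      have := spbT_spec i
      omega
    · congr 1
      have := spbT_spec (i + 1)
      omega
  · intro x hx hx'
    obtain ⟨i, hi, rfl⟩ := hsurj x
    rw [hS i hi] at hx
    rw [hθ i hi]
    congr 1
    rcases Nat.eq_zero_or_pos i with h0 | h0
    · rw [h0]
      rfl
    · exfalso
      obtain ⟨j, rfl⟩ : ∃ j, i = j + 1 := ⟨i - 1, by omega⟩
      rw [hρi, hS j (by omega)] at hx'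
      omega
  · intro x
    obtain ⟨i, hi, rfl⟩ := hsurj x
    rw [hS i hi]
    rcases Nat.eq_zero_or_pos i with h0 | h0
    · rw [h0]
      exact Or.inr (Or.inr hc0)
    · obtain ⟨j, rfl⟩ : ∃ j, i = j + 1 := ⟨i - 1, by omega⟩
      rw [hρi, hS j (by omega)]
      omega
  · intro x y
    obtain ⟨i, hi, rfl⟩ := hsurj x
    obtain ⟨j, hj, rfl⟩ := hsurj y
    exact (hAll i hi).symm.trans (hAll j hj)
  · intro x y
    obtain ⟨i, hi, rfl⟩ := hsurj x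
    obtain ⟨j, hj, rfl⟩ := hsurj y
    exact (hBll i hi).symm.trans (hBll j hj)
  · rw [← hc0, hκ' 0 (by omega)]
    rfl

end Pool.Agent.W_MP_43c969_h13
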