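import Pool.Agent.W_MP_43c969_h13.Defs
import Pool.Agent.W_MP_43c969_h13.Cyc
import Pool.Agent.W_MP_43c969_h13.Basic
import Pool.Agent.W_MP_43c969_h13.Split
import Pool.Agent.W_MP_43c969_h13.SplitCycB

/-!
# Task SplitOne: replacing one arc of the special face by two arcs, `n = 1 mod 4`

Split the row `a` (file Split) with `S`, `Z = {u0}`, `κ`, `θ` of `split_perm_one`. The arc `(a, u0)`
becomes `(some a, u0)`, `(none, w)` with `w = κ⁻¹ u0 = ρ^3 u0`, followed by `tau (phi (a, u0))`
(`split_phi_Z`). No incidence is missing since `N = S ∪ ρ(S) ∪ {u0}`. The other tracked arcs keep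
their `phi` (`split_phi_tau`), so the special face has `k + 1` arcs and the other tracked arcs are
good; the remaining arcs are in the new quadrilaterals (`split_phi_new`). Columns: `colE_Tr`,
`colO_Tr`, `colE_Two`, `colO_Two` (every column is in `S`, in `ρ(S)` or equal to `u0 ∈ Z`).
Coverage: an old arc of a row `b ≠ a` is still there, an old arc `x → ρ x` of the row `a` is in the
row `none` if `x ∉ S ∪ {u0}` (`κ x = x`), in the row `some a` if `x ∈ S` (then `θ x = ρ x ∉ S ∪ Z`, so
`κ⁻¹ (ρ x) = ρ x`).
-/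

set_option autoImplicit false

namespace Pool.Agent.W_MP_43c969_h13

open Equiv

variable {P N : Type*} [Fintype P] [Fintype N] [DecidableEq P] [DecidableEq N]

/-- The case `n = 1 mod 4`: the arc `(a, u0)` of a face with `k` arcs is replaced by two arcs.
Use `split_perm_one`: `Z = {u0}`; the arc `(a, u0)` becomes `(some a, u0)`, `(none, w)` with
`w = κ⁻¹ u0 = ρ^3 u0`, followed by `tau (phi (a, u0))`. No incidence is missing. -/
theorem splitOne (E : Emb P N) (a : P) (u0 : N) (k : ℕ) (hk : 2 ≤ k)
    (hn : Fintype.card N % 4 = 1) (hn' : 5 ≤ Fintype.card N)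
    (hrow : E.RowsTr) (hf : E.FaceAt (a, u0) k) :
    ∃ E' : Emb (Option P) N, E'.RowsTr ∧
      (∀ x, Tr (E.pi x) → Tr (E'.pi x)) ∧ (∀ x, Two (E.pi x) → Two (E'.pi x)) ∧
      E'.FaceAt (some a, u0) (k + 1) ∧
      (∀ i, 1 ≤ i → i < k → (E'.phi^[i + 1] (some a, u0)).2 = (E.phi^[i] (a, u0)).2) ∧
      (∀ x y, E.Cov x y → ¬ (x = u0 ∧ y = E.rho a u0) → ¬ (y = u0 ∧ x = E.rho a u0) →
        E'.Cov x y) := by
  obtain ⟨S, κ, θ, hH, hcov, hT1, hT2, -⟩ := split_perm_one (E.rho a) (hrow a) hn hn' u0
  have hZ : u0 ∈ ({u0} : Finset N) := Finset.mem_singleton_self u0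
  have hw : κ⁻¹ u0 ∈ S ∨ κ⁻¹ u0 ∈ ({u0} : Finset N) := by
    have h1 : κ (κ⁻¹ u0) = u0 := by simp
    rw [← splitHyp_mem_iff E a S {u0} κ θ hH, h1]
    exact Or.inr hZ
  have htau0 : tau a S {u0} (a, u0) = (some a, u0) := by
    simp [tau]
  obtain ⟨hk1, hper, hdis, hgood⟩ := hf
  obtain ⟨hZ1, hZ2⟩ := split_phi_Z E a S {u0} κ θ hH u0 hZ
  have hinj : Function.Injective (splitEmb E a S {u0} κ θ).phi := Emb.phi_injective _
  -- arcs different from the special one
  have hne : ∀ e : P × N, e ≠ (a, u0) → ¬ (e.1 = a ∧ e.2 ∈ ({u0} : Finset N)) := by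
    rintro ⟨b, x⟩ he ⟨h1, h2⟩
    rw [Finset.mem_singleton] at h2
    exact he (Prod.ext h1 h2)
  have hstep : ∀ i, 1 ≤ i → i ≤ k →
      (splitEmb E a S {u0} κ θ).phi^[i + 1] (some a, u0) = tau a S {u0} (E.phi^[i] (a, u0)) := by
    intro i hi
    induction i, hi using Nat.le_induction with
    | base =>
      intro _
      rw [Function.iterate_succ_apply', Function.iterate_one, hZ1, hZ2, Function.iterate_one]
    | succ i hi ih =>
      intro hik
      rw [Function.iterate_succ_apply', ih (by omega), Function.iterate_succ_apply' E.phi]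
      refine split_phi_tau E a S {u0} κ θ hH _ (hne _ fun h0 => ?_)
      exact hdis 0 i (by omega) (by omega) h0.symm
  have hper' : (splitEmb E a S {u0} κ θ).phi^[k + 1] (some a, u0) = (some a, u0) := by
    rw [hstep k hk1 (le_refl k), hper, htau0]
  have hret : ∀ j, 0 < j → j < k + 1 →
      (splitEmb E a S {u0} κ θ).phi^[j] (some a, u0) ≠ (some a, u0) := by
    intro j hj hjk h0
    rcases Nat.lt_or_ge 1 j with h1 | h1
    · obtain ⟨m, rfl⟩ : ∃ m, j = m + 1 := ⟨j - 1, by omega⟩
      rw [hstep m (by omega) (by omega), ← htau0] at h0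
      exact hdis 0 m (by omega) (by omega) (tau_injective a S {u0} h0).symm
    · have hj1 : j = 1 := by omega
      rw [hj1, Function.iterate_one, hZ1] at h0
      exact absurd (congrArg Prod.fst h0) (by simp)
  refine ⟨splitEmb E a S {u0} κ θ, ?_, ?_, ?_, ⟨by omega, hper', ?_, ?_⟩, ?_, ?_⟩
  · -- rows
    intro b
    rcases b with _ | b
    · exact hT1
    · change Tr (if b = a then κ⁻¹ * θ else E.rho b)
      split_ifs
      · exact hT2
      · exact hrow b
  · -- columns
    intro x hx
    change Tr (if x ∈ S ∨ x ∈ ({u0} : Finset N) then colE (E.pi x) a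
      else if (E.rho a)⁻¹ x ∈ S then colO (E.pi x) a else colT (E.pi x) a)
    split_ifs with h1 h2
    · exact colE_Tr hx a
    · exact colO_Tr hx a
    · rcases hcov x with h3 | h3 | h3
      · exact absurd (Or.inl h3) h1
      · exact absurd h3 h2
      · exact absurd (Or.inr (Finset.mem_singleton.2 h3)) h1
  · intro x hx
    change Two (if x ∈ S ∨ x ∈ ({u0} : Finset N) then colE (E.pi x) a
      else if (E.rho a)⁻¹ x ∈ S then colO (E.pi x) a else colT (E.pi x) a)
    split_ifs with h1 h2
    · exact colE_Two hx a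
    · exact colO_Two hx a
    · rcases hcov x with h3 | h3 | h3
      · exact absurd (Or.inl h3) h1
      · exact absurd h3 h2
      · exact absurd (Or.inr (Finset.mem_singleton.2 h3)) h1
  · -- the arcs of the special face are different
    intro i j hij hj h0
    have h1 : (splitEmb E a S {u0} κ θ).phi^[i]
        ((splitEmb E a S {u0} κ θ).phi^[j - i] (some a, u0)) =
        (splitEmb E a S {u0} κ θ).phi^[i] (some a, u0) := by
      rw [← Function.iterate_add_apply, h0]
      congr 2
      omega
    exact hret (j - i) (by omega) (by omega) (hinj.iterate i h1)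
  · -- the other arcs are good
    intro e he
    rcases split_arc_cases E a S {u0} κ θ hH e with ⟨f, rfl⟩ | ⟨x, hx1, hx2, hx3⟩ |
      ⟨z, hz, hz2⟩ | ⟨x, h1, h2, h3, -⟩
    · have hf0 : ∀ i, i < k → f ≠ E.phi^[i] (a, u0) := by
        rintro i hi rfl
        rcases Nat.eq_zero_or_pos i with h1 | h1
        · refine he 0 (by omega) ?_
          rw [h1, Function.iterate_zero_apply, Function.iterate_zero_apply, htau0]
        · exact he (i + 1) (by omega) (hstep i h1 hi.le).symm
      have hfg : E.phi (E.phi f) = f := hgood f hf0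
      have h1 : E.phi f ≠ (a, u0) := by
        intro h2
        apply hf0 (k - 1) (by omega)
        apply E.phi_injective
        rw [h2, ← Function.iterate_succ_apply' E.phi]
        have : (k - 1).succ = k := by omega
        rw [this, hper]
      change (splitEmb E a S {u0} κ θ).phi ((splitEmb E a S {u0} κ θ).phi (tau a S {u0} f)) =
        tau a S {u0} f
      rw [split_phi_tau E a S {u0} κ θ hH f (hne f (hf0 0 (by omega))),
        split_phi_tau E a S {u0} κ θ hH _ (hne _ h1), hfg]
    · obtain ⟨h1, h2⟩ := split_phi_new E a S {u0} κ θ hH x hx1 hx2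
      rcases hx3 with rfl | rfl
      · change (splitEmb E a S {u0} κ θ).phi ((splitEmb E a S {u0} κ θ).phi (none, x)) = (none, x)
        rw [h1, h2]
      · change (splitEmb E a S {u0} κ θ).phi ((splitEmb E a S {u0} κ θ).phi
          (some a, E.rho a (κ x))) = (some a, E.rho a (κ x))
        rw [h2, h1]
    · rw [Finset.mem_singleton] at hz
      exfalso
      apply he 1 (by omega)
      rw [hz2, hz, Function.iterate_one, hZ1]
    · exfalso
      rcases hcov x with h4 | h4 | h4
      · exact h1 h4
      · exact h3 h4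
      · exact h2 (Finset.mem_singleton.2 h4)
  · -- second components
    intro i hi hik
    rw [hstep i hi hik.le]
    unfold tau
    split_ifs <;> rfl
  · -- coverage
    have hdir : ∀ b x y, E.rho b x = y → ¬ (x = u0 ∧ y = E.rho a u0) →
        ∃ b', (splitEmb E a S {u0} κ θ).rho b' x = y := by
      intro b x y hxy hne
      by_cases hb : b = a
      · subst hb
        have hxu : x ≠ u0 := fun h => hne ⟨h, by rw [← hxy, h]⟩
        by_cases hxS : x ∈ S
        · refine ⟨some b, ?_⟩
          change (if b = b then κ⁻¹ * θ else E.rho b) x = y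
          rw [if_pos rfl, Perm.mul_apply, (hH.hθS x hxS).1, hxy, Perm.inv_eq_iff_eq]
          obtain ⟨h1, h2⟩ := hH.hS x hxS
          rw [hxy] at h1 h2
          exact (hH.hκ y h1 h2).symm
        · refine ⟨none, ?_⟩
          change (E.rho b * κ) x = y
          rw [Perm.mul_apply, hH.hκ x hxS (fun h => hxu (Finset.mem_singleton.1 h)), hxy]
      · refine ⟨some b, ?_⟩
        change (if b = a then κ⁻¹ * θ else E.rho b) x = y
        rw [if_neg hb, hxy]
    rintro x y ⟨b, hb | hb⟩ h1 h2
    · obtain ⟨b', hb'⟩ := hdir b x y hb h1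
      exact ⟨b', Or.inl hb'⟩
    · obtain ⟨b', hb'⟩ := hdir b y x hb h2
      exact ⟨b', Or.inr hb'⟩

end Pool.Agent.W_MP_43c969_h13
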