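import Pool.Agent.W_MP_43c969_h13.Defs
import Pool.Agent.W_MP_43c969_h13.Basic
import Pool.Agent.W_MP_43c969_h13.Merge
import Pool.Agent.W_MP_43c969_h13.SplitOne

/-!
# Task P5: from a pinched embedding with `p` rows to one with `p + 1` rows, `n = 1 mod 4`

`PSt.st5` (`n = 1 mod 4`, `n ≥ 5`). Let `v` be the pinched column, `a` any row. Apply `splitOne` to
the arc `(a, v)` (whose face has `2` arcs). The new face has three arcs
`e'_0 = (some a, v)`, `e'_1 = (none, w)`, `e'_2`, with `e'_2.2 = u1 = rho a v` and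
`phi' e'_2 = e'_0`, so `rho' e'_2.1 u1 = v`; it is the only arc of the face which ends at `v`
(the ends of the three arcs are `w`, `u1`, `v`; they are pairwise different since consecutive
columns of a row are different and `w ≠ v` because of the first arc).
Rotate the face (`FaceAt e'_2 3`) and use `merge_pinched` (`Two.not_same` gives `d`). All the pairs
covered by `E` are covered: the pair `v, u1` by the arc `e'_2`.
-/

set_option autoImplicit false

namespace Pool.Agent.W_MP_43c969_h13

open Equiv

variable {P N : Type*} [Fintype P] [Fintype N] [DecidableEq P] [DecidableEq N]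

omit [Fintype P] [Fintype N] [DecidableEq P] [DecidableEq N] in
theorem p5_no_fix {f : Perm N} (h : Tr f) (hN : 2 ≤ Nat.card N) (x : N) : f x ≠ x := by
  intro hx
  have hall : ∀ y, y = x := by
    intro y
    obtain ⟨i, hi⟩ := h x y
    rw [← hi]
    exact Equiv.Perm.zpow_apply_eq_self_of_apply_eq_self hx i
  have hf : Finite N := Nat.finite_of_card_ne_zero (by omega)
  have h1 : Nat.card N ≤ 1 := by
    have : Subsingleton N := ⟨fun a b => by rw [hall a, hall b]⟩
    exact Finite.card_le_one_iff_subsingleton.mpr this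
  omega

omit [Fintype P] [Fintype N] [DecidableEq P] [DecidableEq N] in
theorem p5_rotate (E : Emb P N) (e0 : P × N) (h : E.FaceAt e0 3) :
    E.FaceAt (E.phi (E.phi e0)) 3 := by
  obtain ⟨_, h3, hne, hg⟩ := h
  have h3' : E.phi (E.phi (E.phi e0)) = e0 := h3
  have h01 : e0 ≠ E.phi e0 := hne 0 1 (by norm_num) (by norm_num)
  have h02 : e0 ≠ E.phi (E.phi e0) := hne 0 2 (by norm_num) (by norm_num)
  have h12 : E.phi e0 ≠ E.phi (E.phi e0) := hne 1 2 (by norm_num) (by norm_num)
  have i1 : E.phi^[1] (E.phi (E.phi e0)) = e0 := h3'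
  have i2 : E.phi^[2] (E.phi (E.phi e0)) = E.phi e0 := by
    show E.phi (E.phi (E.phi (E.phi e0))) = _
    rw [h3']
  refine ⟨by norm_num, ?_, ?_, ?_⟩
  · show E.phi (E.phi (E.phi (E.phi (E.phi e0)))) = _
    rw [h3']
  · intro i j hij hj
    interval_cases j
    · omega
    · obtain rfl : i = 0 := by omega
      rw [i1]
      exact h02.symm
    · interval_cases i
      · rw [i2]
        exact h12.symm
      · rw [i1, i2]
        exact h01
  · intro e he
    apply hg
    intro i hi
    interval_cases i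
    · have h5 := he 1 (by norm_num)
      rw [i1] at h5
      exact h5
    · have h5 := he 2 (by norm_num)
      rw [i2] at h5
      exact h5
    · exact he 0 (by norm_num)

theorem PSt.st5 {C : N → N → Prop} (h : PSt P N C) (hn : Fintype.card N % 4 = 1)
    (hn' : 5 ≤ Fintype.card N) : St (Option P) N C 5 := by
  obtain ⟨E, v, hrow, hcol, htwo, hg, hC⟩ := h
  have hN : 2 ≤ Nat.card N := by
    rw [Nat.card_eq_fintype_card]
    omega
  obtain ⟨a, _, _⟩ := id htwo
  have hu1 : E.rho a v ≠ v := p5_no_fix (hrow a) hN v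
  have hf2 : E.FaceAt (a, v) 2 := E.faceAt_two hg (a, v) hu1
  obtain ⟨E', hrow', hTr, hTwo, hf3, hsnd, hcov⟩ := splitOne E a v 2 le_rfl hn hn' hrow hf2
  have hp3 : E'.phi (E'.phi (E'.phi (some a, v))) = (some a, v) := hf3.2.1
  have hs2 : (E'.phi (E'.phi (some a, v))).2 = E.rho a v := hsnd 1 le_rfl (by norm_num)
  have hrot := p5_rotate E' _ hf3
  obtain ⟨b, hb⟩ : ∃ b, E'.phi (E'.phi (some a, v)) = (b, E.rho a v) :=
    ⟨(E'.phi (E'.phi (some a, v))).1, Prod.ext rfl hs2⟩
  rw [hb] at hp3 hrot
  have hbv : E'.rho b (E.rho a v) = v := congrArg Prod.snd hp3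
  obtain ⟨d, hd, _⟩ := Two.not_same (hTwo v htwo) b
  have hm := merge_pinched E' v b d (E.rho a v) 3 (by norm_num) hrow'
    (fun w hw => hTr w (hcol w hw)) (hTwo v htwo) hbv hrot hd (by
      intro i hi hiv
      interval_cases i
      · exact Equiv.Perm.SameCycle.refl _ _
      · exfalso
        have h1 : E'.phi^[1] (b, E.rho a v) = (some a, v) := hp3
        rw [h1] at hiv
        exact p5_no_fix (hrow' (some a)) hN v hiv
      · exfalso
        have h2 : E'.phi^[2] (b, E.rho a v) = E'.phi (some a, v) := by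
          show E'.phi (E'.phi (b, E.rho a v)) = _
          rw [hp3]
        rw [h2] at hiv
        have h3 : E'.rho (E'.phi (some a, v)).1 (E'.phi (some a, v)).2 = E.rho a v := by
          have := congrArg Prod.snd hb
          exact this
        rw [h3] at hiv
        exact hu1 hiv) hN
  obtain ⟨m1, m2, m3, m4⟩ := hm
  refine ⟨colSwap E' v b d, m1, m2, Emb.FaceAt.bound _ m3, ?_⟩
  intro x y hxy
  apply m4
  by_cases c1 : x = v ∧ y = E.rho a v
  · exact ⟨b, Or.inr (by rw [c1.1, c1.2]; exact hbv)⟩
  · by_cases c2 : y = v ∧ x = E.rho a v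
    · exact ⟨b, Or.inl (by rw [c2.1, c2.2]; exact hbv)⟩
    · exact hcov x y (hC x y hxy) c1 c2

end Pool.Agent.W_MP_43c969_h13
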