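import Pool.Agent.W_MP_43c969_h13.Defs
import Pool.Agent.W_MP_43c969_h13.Basic

/-!
# Task RingB: embeddings with four rows

The rows `0, 1, 2, 3` have rotations `ρ, ρ⁻¹, ρ, ρ⁻¹` with `ρ` a full cycle on `Fin n`, say
`ρ = finRotate n` (`n ≥ 2`). Every edge `x → ρ x` of the cycle is given a type `1` or `2`: type `1`
pairs the rows `{0, 1}` and `{2, 3}` (the arc `(0, x)` with the arc `(1, ρ x)`, the arc `(2, x)` with
`(3, ρ x)`), type `2` pairs `{0, 3}` and `{2, 1}`. In the column `x` let `s` be the type of the edge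
entering `x` and `t` the type of the edge leaving `x`. The rotation of the column `x` is:
`0 ↦ 1, 2 ↦ 3` if `s = 1` and `0 ↦ 3, 2 ↦ 1` if `s = 2`; `1 ↦ 0, 3 ↦ 2` if `t = 1` and
`1 ↦ 2, 3 ↦ 0` if `t = 2`. If `s ≠ t` this is one cycle; if `s = t` it has exactly two cycles.
All the arcs are good. We give the type `1` to the edges leaving the columns of even index and the
type `2` to the others. If `n` is even all the columns are one cycle; if `n` is odd the column `0`
(entered from `n - 1`, even) has `s = t = 1` and the other columns are one cycle.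
-/

set_option autoImplicit false

namespace Pool.Agent.W_MP_43c969_h13

open Equiv

/-- the rotation of a column: `s` is the type of the entering edge, `t` of the leaving edge -/
def ringPi (s t : Bool) : Perm (Fin 4) :=
  if s then (if t then swap 0 1 * swap 2 3 else finRotate 4)
  else (if t then (finRotate 4)⁻¹ else swap 0 3 * swap 1 2)

theorem ringPi_zero (s t : Bool) : ringPi s t 0 = if s then 1 else 3 := by
  revert s t; decide

theorem ringPi_two (s t : Bool) : ringPi s t 2 = if s then 3 else 1 := by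
  revert s t; decide

theorem ringPi_one (s t : Bool) : ringPi s t 1 = if t then 0 else 2 := by
  revert s t; decide

theorem ringPi_three (s t : Bool) : ringPi s t 3 = if t then 2 else 0 := by
  revert s t; decide

theorem ringPi_pow : ∀ s t : Bool, s ≠ t → ∀ x y : Fin 4, ∃ i : Fin 4,
    (ringPi s t ^ (i : ℕ)) x = y := by
  decide

theorem ringPi_Tr (s t : Bool) (h : s ≠ t) : Tr (ringPi s t) := by
  intro x y
  obtain ⟨i, hi⟩ := ringPi_pow s t h x y
  exact ⟨((i : ℕ) : ℤ), by rw [zpow_natCast]; exact hi⟩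

theorem ringPi_inv_tt : ∀ x : Fin 4, (x = 0 ∨ x = 1) ↔
    (ringPi true true x = 0 ∨ ringPi true true x = 1) := by
  decide

theorem ringPi_Two_tt : Two (ringPi true true) := by
  refine ⟨0, 2, ?_, ?_⟩
  · intro h
    obtain ⟨i, _, h2⟩ := h.exists_pow_eq_of_mem_support (by decide)
    have h3 : ∀ i : ℕ, ((ringPi true true) ^ i) 0 = 0 ∨ ((ringPi true true) ^ i) 0 = 1 := by
      intro i
      induction i with
      | zero => left; rfl
      | succ n ih =>
        rw [pow_succ', Perm.mul_apply]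
        exact (ringPi_inv_tt _).1 ih
    rcases h3 i with h4 | h4
    · rw [h2] at h4; exact absurd h4 (by decide)
    · rw [h2] at h4; exact absurd h4 (by decide)
  · have h5 : ∀ c : Fin 4, (∃ i : Fin 2, (ringPi true true ^ (i : ℕ)) c = 0) ∨
        (∃ i : Fin 2, (ringPi true true ^ (i : ℕ)) c = 2) := by decide
    intro c
    rcases h5 c with ⟨i, hi⟩ | ⟨i, hi⟩
    · left; exact ⟨((i : ℕ) : ℤ), by rw [zpow_natCast]; exact hi⟩
    · right; exact ⟨((i : ℕ) : ℤ), by rw [zpow_natCast]; exact hi⟩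

theorem ring_inv_apply {N : Type*} (ρ : Perm N) (x : N) : ρ⁻¹ (ρ x) = x := by simp

/-- the embedding with four rows -/
def ringEmb {N : Type*} (ρ : Perm N) (τ : N → Bool) : Emb (Fin 4) N where
  rho a := if a = 0 ∨ a = 2 then ρ else ρ⁻¹
  pi x := ringPi (τ (ρ⁻¹ x)) (τ x)

section
variable {N : Type*} (ρ : Perm N) (τ : N → Bool)

theorem ringEmb_rho0 : (ringEmb ρ τ).rho 0 = ρ := by simp [ringEmb]
theorem ringEmb_rho1 : (ringEmb ρ τ).rho 1 = ρ⁻¹ := by
  have h : ¬ ((1 : Fin 4) = 0 ∨ (1 : Fin 4) = 2) := by decide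
  simp only [ringEmb, if_neg h]
theorem ringEmb_rho2 : (ringEmb ρ τ).rho 2 = ρ := by simp [ringEmb]
theorem ringEmb_rho3 : (ringEmb ρ τ).rho 3 = ρ⁻¹ := by
  have h : ¬ ((3 : Fin 4) = 0 ∨ (3 : Fin 4) = 2) := by decide
  simp only [ringEmb, if_neg h]
theorem ringEmb_pi (x : N) : (ringEmb ρ τ).pi x = ringPi (τ (ρ⁻¹ x)) (τ x) := rfl

theorem ringEmb_phi0 (x : N) : (ringEmb ρ τ).phi (0, x) = (if τ x then 1 else 3, ρ x) := by
  simp only [Emb.phi, ringEmb_rho0, ringEmb_pi, ringPi_zero, ring_inv_apply]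

theorem ringEmb_phi2 (x : N) : (ringEmb ρ τ).phi (2, x) = (if τ x then 3 else 1, ρ x) := by
  simp only [Emb.phi, ringEmb_rho2, ringEmb_pi, ringPi_two, ring_inv_apply]

theorem ringEmb_phi1 (x : N) : (ringEmb ρ τ).phi (1, ρ x) = (if τ x then 0 else 2, x) := by
  simp only [Emb.phi, ringEmb_rho1, ringEmb_pi, ringPi_one, ring_inv_apply]

theorem ringEmb_phi3 (x : N) : (ringEmb ρ τ).phi (3, ρ x) = (if τ x then 2 else 0, x) := by
  simp only [Emb.phi, ringEmb_rho3, ringEmb_pi, ringPi_three, ring_inv_apply]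

theorem ringEmb_allGood : (ringEmb ρ τ).AllGood := by
  have h0 : ∀ x, (ringEmb ρ τ).Good (0, x) := by
    intro x
    change (ringEmb ρ τ).phi ((ringEmb ρ τ).phi (0, x)) = (0, x)
    rw [ringEmb_phi0]
    cases h : τ x with
    | true =>
      have := ringEmb_phi1 ρ τ x
      rw [h] at this
      exact this
    | false =>
      have := ringEmb_phi3 ρ τ x
      rw [h] at this
      exact this
  have h2 : ∀ x, (ringEmb ρ τ).Good (2, x) := by
    intro x
    change (ringEmb ρ τ).phi ((ringEmb ρ τ).phi (2, x)) = (2, x)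
    rw [ringEmb_phi2]
    cases h : τ x with
    | true =>
      have := ringEmb_phi3 ρ τ x
      rw [h] at this
      exact this
    | false =>
      have := ringEmb_phi1 ρ τ x
      rw [h] at this
      exact this
  have h1 : ∀ x, (ringEmb ρ τ).Good (1, ρ x) := by
    intro x
    change (ringEmb ρ τ).phi ((ringEmb ρ τ).phi (1, ρ x)) = (1, ρ x)
    rw [ringEmb_phi1]
    cases h : τ x with
    | true =>
      have := ringEmb_phi0 ρ τ x
      rw [h] at this
      exact this
    | false =>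
      have := ringEmb_phi2 ρ τ x
      rw [h] at this
      exact this
  have h3 : ∀ x, (ringEmb ρ τ).Good (3, ρ x) := by
    intro x
    change (ringEmb ρ τ).phi ((ringEmb ρ τ).phi (3, ρ x)) = (3, ρ x)
    rw [ringEmb_phi3]
    cases h : τ x with
    | true =>
      have := ringEmb_phi2 ρ τ x
      rw [h] at this
      exact this
    | false =>
      have := ringEmb_phi0 ρ τ x
      rw [h] at this
      exact this
  rintro ⟨a, x⟩
  have hx : ρ (ρ⁻¹ x) = x := by simp
  fin_cases a
  · exact h0 x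
  · rw [← hx]; exact h1 _
  · exact h2 x
  · rw [← hx]; exact h3 _

theorem ringEmb_rowsTr (h : Tr ρ) : (ringEmb ρ τ).RowsTr := by
  have h' : Tr ρ⁻¹ := fun x y => Perm.sameCycle_inv.2 (h x y)
  intro a
  fin_cases a
  · rw [show (ringEmb ρ τ).rho ((fun i => i) ⟨0, by decide⟩) = ρ from ringEmb_rho0 ρ τ]; exact h
  · rw [show (ringEmb ρ τ).rho ((fun i => i) ⟨1, by decide⟩) = ρ⁻¹ from ringEmb_rho1 ρ τ]; exact h'
  · rw [show (ringEmb ρ τ).rho ((fun i => i) ⟨2, by decide⟩) = ρ from ringEmb_rho2 ρ τ]; exact h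
  · rw [show (ringEmb ρ τ).rho ((fun i => i) ⟨3, by decide⟩) = ρ⁻¹ from ringEmb_rho3 ρ τ]; exact h'

end

theorem ring_finRotate_Tr (m : ℕ) : Tr (finRotate (m + 2)) := by
  intro x y
  have h : ∀ z, finRotate (m + 2) z ≠ z := by
    intro z
    have h1 : z ∈ (finRotate (m + 2)).support := by
      rw [support_finRotate]; exact Finset.mem_univ _
    exact Perm.mem_support.1 h1
  exact isCycle_finRotate.sameCycle (h x) (h y)

/-- the types of the edges: even index -/
def ringTau (n : ℕ) (x : Fin n) : Bool := decide (x.val % 2 = 0)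

theorem ringTau_succ (m : ℕ) (y : Fin (m + 2)) (hy : y ≠ Fin.last (m + 1)) :
    ringTau (m + 2) y ≠ ringTau (m + 2) (finRotate (m + 2) y) := by
  have h1 : (finRotate (m + 2) y).val = y.val + 1 := coe_finRotate_of_ne_last hy
  simp only [ringTau, h1, ne_eq, decide_eq_decide]
  omega

theorem ringTau_last (m : ℕ) : ringTau (m + 2) (Fin.last (m + 1)) = decide ((m + 1) % 2 = 0) := rfl

theorem ringTau_zero (m : ℕ) : ringTau (m + 2) 0 = true := rfl

theorem ring_cols (m : ℕ) (x : Fin (m + 2)) (hx : x ≠ 0 ∨ (m + 1) % 2 = 1) :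
    Tr ((ringEmb (finRotate (m + 2)) (ringTau (m + 2))).pi x) := by
  rw [ringEmb_pi]
  apply ringPi_Tr
  obtain ⟨y, rfl⟩ : ∃ y, finRotate (m + 2) y = x := ⟨(finRotate (m + 2)).symm x, by simp⟩
  rw [ring_inv_apply]
  by_cases hy : y = Fin.last (m + 1)
  · subst hy
    rw [finRotate_last] at hx ⊢
    rcases hx with hx | hx
    · exact absurd rfl hx
    · rw [ringTau_last, ringTau_zero, hx]
      decide
  · exact ringTau_succ m y hy

theorem ring_four_even (n : ℕ) (hn : Even n) (hn' : 2 ≤ n) :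
    Ex (Fin 4) (Fin n) (fun _ _ => False) := by
  obtain ⟨m, rfl⟩ : ∃ m, n = m + 2 := ⟨n - 2, by omega⟩
  have hm : (m + 1) % 2 = 1 := by
    rcases hn with ⟨k, hk⟩
    omega
  exact ⟨ringEmb (finRotate (m + 2)) (ringTau (m + 2)),
    ringEmb_rowsTr _ _ (ring_finRotate_Tr m), fun x => ring_cols m x (Or.inr hm),
    ringEmb_allGood _ _, fun _ _ h => h.elim⟩

theorem ring_four_odd (n : ℕ) (hn : Odd n) (hn' : 3 ≤ n) :
    PSt (Fin 4) (Fin n) (fun _ _ => False) := by
  obtain ⟨m, rfl⟩ : ∃ m, n = m + 2 := ⟨n - 2, by omega⟩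
  have hm : (m + 1) % 2 = 0 := by
    rcases hn with ⟨k, hk⟩
    omega
  refine ⟨ringEmb (finRotate (m + 2)) (ringTau (m + 2)), 0,
    ringEmb_rowsTr _ _ (ring_finRotate_Tr m), fun x hx => ring_cols m x (Or.inl hx), ?_,
    ringEmb_allGood _ _, fun _ _ h => h.elim⟩
  have h0 : (finRotate (m + 2))⁻¹ 0 = Fin.last (m + 1) := by
    rw [Perm.inv_eq_iff_eq, finRotate_last]
  rw [ringEmb_pi, h0, ringTau_last, ringTau_zero, hm]
  exact ringPi_Two_tt

end Pool.Agent.W_MP_43c969_h13
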