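import Pool.Agent.W_MP_43c969_h13.Defs
import Pool.Agent.W_MP_43c969_h13.Basic
import Pool.Agent.W_MP_43c969_h13.RingA
import Pool.Agent.W_MP_43c969_h13.SplitA
import Pool.Agent.W_MP_43c969_h13.SplitOne

/-!
# Task RingC: embeddings with three rows, `n = 1, 2` modulo `4`

`ring_two`: two rows `ρ`, `ρ⁻¹` (a full cycle on `Fin n`, for instance `finRotate n`) and all the
columns equal to the exchange of the two rows. All arcs are good. Every pair `x, ρ x` is covered.

`ring_three` (no coverage). Start from `ring_two`, `a` the first row, `ρ = rho a`.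
* `n = 2 mod 4`: `splitA` with `t = 0`, `j = 0` and `S` the columns of even index (`n / 2` of them,
  an odd number). Exact.
* `n = 1 mod 4` (`n ≥ 5`): `splitOne` with `k = 2`: three bad arcs.
-/

set_option autoImplicit false

namespace Pool.Agent.W_MP_43c969_h13

open Equiv

/-- the standard rotation is one cycle. -/
theorem ringC_tr (n : ℕ) (hn : 2 ≤ n) : Tr (finRotate n) := by
  obtain ⟨m, rfl⟩ := Nat.exists_eq_add_of_le' hn
  have h1 := isCycle_finRotate (n := m)
  have h2 := support_finRotate (n := m)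
  intro x y
  refine h1.sameCycle ?_ ?_
  · have : x ∈ (finRotate (m + 2)).support := by rw [h2]; simp
    exact Perm.mem_support.1 this
  · have : y ∈ (finRotate (m + 2)).support := by rw [h2]; simp
    exact Perm.mem_support.1 this

theorem ringC_val (n : ℕ) (hn : 2 ≤ n) (x : Fin n) :
    (finRotate n x).val = if x.val + 1 = n then 0 else x.val + 1 := by
  obtain ⟨m, rfl⟩ := Nat.exists_eq_add_of_le' hn
  rw [finRotate_apply]
  have h := Fin.val_add_one (n := m + 1) x
  rw [h]
  have e : (x = Fin.last (m + 1)) ↔ (x.val + 1 = m + 2) := by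
    rw [Fin.ext_iff, Fin.val_last]
    omega
  by_cases h1 : x.val + 1 = m + 2
  · rw [if_pos (e.2 h1), if_pos h1]
  · rw [if_neg (fun h => h1 (e.1 h)), if_neg h1]

theorem ringC_val_ne (n : ℕ) (hn : 2 ≤ n) (x : Fin n) : finRotate n x ≠ x := by
  intro h
  have h1 := ringC_val n hn x
  rw [h] at h1
  split_ifs at h1 <;> omega

/-- number of columns with an even index. -/
theorem ringC_card (m : ℕ) :
    (Finset.univ.filter (fun x : Fin (2 * m) => x.val % 2 = 0)).card = m := by
  have h : (Finset.univ.filter (fun x : Fin (2 * m) => x.val % 2 = 0)).card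
      = (Finset.univ : Finset (Fin m)).card := by
    symm
    refine Finset.card_bij (fun i _ => (⟨2 * i.val, by omega⟩ : Fin (2 * m))) ?_ ?_ ?_
    · intro i _
      simp
    · intro i _ j _ hij
      have := congrArg Fin.val hij
      simp only at this
      exact Fin.ext (by omega)
    · intro x hx
      have hx' := (Finset.mem_filter.1 hx).2
      refine ⟨⟨x.val / 2, by omega⟩, Finset.mem_univ _, Fin.ext ?_⟩
      simp only
      omega
  rw [h, Finset.card_univ, Fintype.card_fin]

theorem ring_three_two (n : ℕ) (hn : n % 4 = 2) : Ex (Fin 3) (Fin n) (fun _ _ => False) := by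
  obtain ⟨m, rfl⟩ : ∃ m, n = 2 * m := ⟨n / 2, by omega⟩
  have hm : m % 2 = 1 := by omega
  have hn2 : 2 ≤ 2 * m := by omega
  obtain ⟨E, hr, hc, hg, h0⟩ := ring_two (finRotate (2 * m)) (ringC_tr _ hn2)
  have hv := ringC_val (2 * m) hn2
  let u0 : Fin (2 * m) := ⟨0, by omega⟩
  let S : Finset (Fin (2 * m)) := Finset.univ.filter (fun x => x.val % 2 = 0)
  have hmem : ∀ x, x ∈ S ↔ x.val % 2 = 0 := by
    intro x
    simp [S]
  have hf : E.FaceAt ((0 : Fin 2), u0) (0 + 2 + 0) := by
    refine E.faceAt_two hg _ ?_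
    rw [h0]
    exact ringC_val_ne _ hn2 _
  obtain ⟨E', hr', hc', -, hf', -, -, -⟩ := splitA E 0 u0 0 0 S hr hf
    ((hmem _).2 rfl) (by
      have : S.card = m := ringC_card m
      rw [this]
      exact Nat.odd_iff.2 hm) (by
      intro x hx
      rw [hmem] at hx ⊢
      rw [h0, hv x]
      split_ifs <;> omega) (by
      intro x
      rw [hmem, hmem, h0]
      by_cases hx : x.val % 2 = 0
      · exact Or.inl hx
      · right
        left
        have e := hv ((finRotate (2 * m))⁻¹ x)
        have e0 : finRotate (2 * m) ((finRotate (2 * m))⁻¹ x) = x :=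
          Equiv.apply_symm_apply (finRotate (2 * m)) x
        rw [e0] at e
        have hlt := ((finRotate (2 * m))⁻¹ x).isLt
        split_ifs at e with h1
        · omega
        · omega) (by intro i h1 h2; omega) (by intro i i' h1 h2 h3; omega)
  have hall : E'.AllGood := Emb.FaceAt.allGood E' hf'
  have h3 : Ex (Option (Fin 2)) (Fin (2 * m)) (fun _ _ => False) :=
    ⟨E', hr', fun x => hc' x (hc x), hall, fun x y h => h.elim⟩
  exact h3.map (Fintype.equivFinOfCardEq (by simp)) (Equiv.refl _) (fun x y h => h)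

theorem ring_three_one (n : ℕ) (hn : n % 4 = 1) (hn' : 5 ≤ n) :
    St (Fin 3) (Fin n) (fun _ _ => False) 3 := by
  have hn2 : 2 ≤ n := by omega
  obtain ⟨E, hr, hc, hg, h0⟩ := ring_two (finRotate n) (ringC_tr _ hn2)
  let u0 : Fin n := ⟨0, by omega⟩
  have hf : E.FaceAt ((0 : Fin 2), u0) 2 := by
    refine E.faceAt_two hg _ ?_
    rw [h0]
    exact ringC_val_ne _ hn2 _
  obtain ⟨E', hr', hc', -, hf', -, -⟩ := splitOne E 0 u0 2 le_rfl
    (by rw [Fintype.card_fin]; exact hn) (by rw [Fintype.card_fin]; exact hn') hr hf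
  have h3 : St (Option (Fin 2)) (Fin n) (fun _ _ => False) 3 :=
    ⟨E', hr', fun x => hc' x (hc x), Emb.FaceAt.bound E' hf', fun x y h => h.elim⟩
  exact h3.map (Fintype.equivFinOfCardEq (by simp)) (Equiv.refl _) (fun x y h => h)

end Pool.Agent.W_MP_43c969_h13
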