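import Pool.Agent.W_MP_43c969_h13.Defs
import Pool.Agent.W_MP_43c969_h13.Basic
import Pool.Agent.W_MP_43c969_h13.Merge
import Pool.Agent.W_MP_43c969_h13.Split
import Pool.Agent.W_MP_43c969_h13.SplitCyc
import Pool.Agent.W_MP_43c969_h13.Insert
import Pool.Agent.W_MP_43c969_h13.RingA

/-!
# Task RingD: embeddings with three rows, `n = 0, 3` modulo `4`

`ring_two`: two rows `ρ`, `ρ⁻¹` (a full cycle on `Fin n`, for instance `finRotate n`) and all the
columns equal to the exchange of the two rows. All arcs are good. Every pair `x, ρ x` is covered.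

`ring_three` (no coverage). Start from `ring_two`, `a` the first row, `ρ = rho a`.
* `n = 2 mod 4`: `splitA` with `t = 0`, `j = 0` and `S` the columns of even index (`n / 2` of them,
  an odd number). Exact.
* `n = 1 mod 4` (`n ≥ 5`): `splitOne` with `k = 2`: three bad arcs.
* `n = 3 mod 4`: split with the same data as in `splitA`, but with one missing column, and insert
  it in an arbitrary place. Precisely: let `x0` be the column `0`, `S` the columns of odd index
  (`1, 3, …, n - 2`, `(n - 1) / 2` of them, an odd number), so `N = S ∪ ρ(S) ∪ {x0}`;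
  `κ, θ` from `split_perm`, `E1 = splitEmb E a S ∅ κ θ`. All the arcs of `E1` are good
  (the incidence `(some a, x0)` is missing). Now insert it with `insEmb E1 (some a) x0 u c`, where
  `c = none` and `u` is chosen so that the arc `(some a, u)` and the arc of the row `none` ending at
  `x0` are in different quadrilaterals: the row `none` has rotation `ρ κ`, the arc ending at `x0`
  starts at `v = n - 1` (the index before `0`, which is in `ρ(S)`), and its quadrilateral is
  `{(none, n - 1), (some b, 0)}` with `b` the second row; so any `u` in `S` works. The result has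
  one face with `5` arcs (`ins_face_merge`).
* `n = 0 mod 4`: let `S` be the columns of even index (`n / 2` of them, an even number), `κ` the
  cyclic shift by two on `S`. `E1 = splitEmb E a S ∅ κ θ` has all its arcs good, the row
  `some a` is one cycle, the row `none` (rotation `ρ κ`: `2 i ↦ 2 i + 3`, `2 i + 1 ↦ 2 i + 2`) has
  two cycles, distinguished by the class modulo `4` (the first cycle contains the `4 i` and
  `4 i + 3`, the second contains the `4 i + 1`, `4 i + 2`). `rowSwap E1 none 1 3` joins the two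
  cycles (1 is in the second cycle and 3 in the first) and joins the two quadrilaterals of the arcs
  `(none, 1)`, `(none, 3)` (their partners are the arcs `(some b, 2)`, `(some b, 4)` of the second
  row) in one face with four arcs.
-/

set_option autoImplicit false

namespace Pool.Agent.W_MP_43c969_h13

open Equiv

section good
variable {P N : Type*} [DecidableEq P] [DecidableEq N]

/-- splitting with `Z = ∅` keeps all the arcs good -/
theorem rd_good (E : Emb P N) (a : P) (S : Finset N) (κ θ : Perm N)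
    (h : SplitHyp (E.rho a) S ∅ κ θ) (hg : E.AllGood) : (splitEmb E a S ∅ κ θ).AllGood := by
  intro e
  change (splitEmb E a S ∅ κ θ).phi ((splitEmb E a S ∅ κ θ).phi e) = e
  rcases split_arc_cases E a S ∅ κ θ h e with ⟨f, rfl⟩ | ⟨x, hx1, hx2, hx3⟩ | ⟨z, hz, -⟩ |
    ⟨x, h1, h2, h3, rfl⟩
  · rw [split_phi_tau E a S ∅ κ θ h f (fun h0 => Finset.notMem_empty _ h0.2),
      split_phi_tau E a S ∅ κ θ h _ (fun h0 => Finset.notMem_empty _ h0.2)]
    exact congrArg _ (hg f)
  · obtain ⟨h1, h2⟩ := split_phi_new E a S ∅ κ θ h x hx1 hx2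
    rcases hx3 with rfl | rfl
    · rw [h1, h2]
    · rw [h2, h1]
  · exact absurd hz (Finset.notMem_empty _)
  · obtain ⟨e1, e2⟩ := split_missing E a S ∅ κ θ h x h1 h2 h3
    have e3 : (splitEmb E a S ∅ κ θ).phi (some a, x) = (some a, x) := by
      simp only [Emb.phi, e1, e2]
    rw [e3, e3]

theorem rd_col [Finite P] (E : Emb P N) (a : P) (S : Finset N) (κ θ : Perm N) (x : N)
    (hx : x ∈ S ∨ (E.rho a)⁻¹ x ∈ S) (ht : Tr (E.pi x)) :
    Tr ((splitEmb E a S ∅ κ θ).pi x) := by
  change Tr (if x ∈ S ∨ x ∈ (∅ : Finset N) then colE (E.pi x) a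
    else if (E.rho a)⁻¹ x ∈ S then colO (E.pi x) a else colT (E.pi x) a)
  split_ifs with h1 h2
  · exact colE_Tr ht a
  · exact colO_Tr ht a
  · rcases hx with h3 | h3
    · exact absurd (Or.inl h3) h1
    · exact absurd h3 h2

/-- exchanging two images in a row changes at most four arcs -/
theorem rd_swap (E : Emb P N) (a : P) (x y : N) (hg : E.AllGood) :
    ∃ B : Finset (P × N), B.card ≤ 4 ∧ ∀ e, e ∉ B → (rowSwap E a x y).Good e := by
  obtain ⟨-, -, h3⟩ := rowSwap_phi E a x y
  refine ⟨{(a, x), (a, y), E.phi (a, x), E.phi (a, y)}, Finset.card_le_four, ?_⟩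
  intro e he
  simp only [Finset.mem_insert, Finset.mem_singleton, not_or] at he
  obtain ⟨h4, h5, h6, h7⟩ := he
  have hgg : ∀ f, E.phi (E.phi f) = f := hg
  change (rowSwap E a x y).phi ((rowSwap E a x y).phi e) = e
  rw [h3 e h4 h5, h3 (E.phi e), hgg]
  · intro h
    apply h6
    rw [← h, hgg]
  · intro h
    apply h7
    rw [← h, hgg]

end good

/-! ### `n = 3` modulo `4` -/

/-- the shift by one -/
def rd_shift (n : ℕ) : Perm (ZMod n) := Equiv.addRight 1

theorem rd_shift_apply (n : ℕ) (x : ZMod n) : rd_shift n x = x + 1 := rfl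

theorem rd_shift_inv (n : ℕ) (x : ZMod n) : (rd_shift n)⁻¹ x = x - 1 := by
  rw [Perm.inv_eq_iff_eq, rd_shift_apply, sub_add_cancel]

theorem rd_shift_pow (n : ℕ) (k : ℕ) (x : ZMod n) : (rd_shift n ^ k) x = x + k := by
  induction k with
  | zero => simp
  | succ k ih =>
    rw [pow_succ', Perm.mul_apply, ih, rd_shift_apply]
    push_cast
    ring

theorem rd_shift_Tr (n : ℕ) [NeZero n] : Tr (rd_shift n) := by
  intro x y
  refine ⟨((y - x).val : ℤ), ?_⟩
  rw [zpow_natCast, rd_shift_pow, ZMod.natCast_zmod_val]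
  ring

theorem ring_three_three (n : ℕ) (hn : n % 4 = 3) :
    St (Fin 3) (Fin n) (fun _ _ => False) 5 := by
  obtain ⟨s, rfl⟩ : ∃ s, n = 4 * s + 3 := ⟨n / 4, by omega⟩
  have hnz : NeZero (4 * s + 3) := ⟨by omega⟩
  obtain ⟨E, hr, hc, hg, hρ⟩ := ring_two (rd_shift (4 * s + 3)) (rd_shift_Tr (4 * s + 3))
  have hval : ∀ a : ℕ, a < 4 * s + 3 → ((a : ZMod (4 * s + 3))).val = a := fun a ha =>
    ZMod.val_natCast_of_lt ha
  -- the set of the columns of odd index
  let S : Finset (ZMod (4 * s + 3)) :=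
    (Finset.range (2 * s + 1)).image (fun i : ℕ => ((2 * i + 1 : ℕ) : ZMod (4 * s + 3)))
  have hmem : ∀ x, x ∈ S ↔ ∃ i < 2 * s + 1, ((2 * i + 1 : ℕ) : ZMod (4 * s + 3)) = x := by
    intro x
    simp only [S, Finset.mem_image, Finset.mem_range]
  have hSc : S.card = 2 * s + 1 := by
    rw [Finset.card_image_of_injOn, Finset.card_range]
    intro i hi j hj hij
    have hi' : i < 2 * s + 1 := Finset.mem_range.1 hi
    have hj' : j < 2 * s + 1 := Finset.mem_range.1 hj
    have h1 := congrArg ZMod.val hij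
    rw [hval _ (by omega), hval _ (by omega)] at h1
    omega
  have hS : ∀ x ∈ S, rd_shift (4 * s + 3) x ∉ S := by
    intro x hx hx'
    obtain ⟨i, hi, rfl⟩ := (hmem x).1 hx
    obtain ⟨j, hj, hij⟩ := (hmem _).1 hx'
    rw [rd_shift_apply, ← Nat.cast_add_one] at hij
    have h1 := congrArg ZMod.val hij
    rw [hval _ (by omega), hval _ (by omega)] at h1
    omega
  have hodd : Odd S.card := by
    rw [hSc]
    exact ⟨s, rfl⟩
  obtain ⟨κ, θ, hH, hT1, hT2, -⟩ := split_perm (rd_shift (4 * s + 3)) (rd_shift_Tr _) S hS hodd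
  rw [← hρ] at hH hT1 hT2
  have hcov : ∀ x, x ∈ S ∨ (E.rho 0)⁻¹ x ∈ S ∨ x = 0 := by
    intro x
    rw [hρ, rd_shift_inv, hmem, hmem]
    have hv : ((x.val : ℕ) : ZMod (4 * s + 3)) = x := ZMod.natCast_zmod_val x
    have hlt : x.val < 4 * s + 3 := ZMod.val_lt x
    generalize x.val = v at hv hlt
    subst hv
    rcases Nat.eq_zero_or_pos v with h0 | h0
    · right; right
      rw [h0, Nat.cast_zero]
    · rcases Nat.even_or_odd v with ⟨w, hw⟩ | ⟨w, hw⟩
      · right; left
        refine ⟨w - 1, by omega, ?_⟩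
        have h1 : v = (2 * (w - 1) + 1) + 1 := by omega
        rw [h1, Nat.cast_add_one (2 * (w - 1) + 1), add_sub_cancel_right]
      · left
        exact ⟨w, by omega, by rw [hw]⟩
  have h0S : (0 : ZMod (4 * s + 3)) ∉ S := by
    intro h0
    obtain ⟨i, hi, h1⟩ := (hmem _).1 h0
    have h2 := congrArg ZMod.val h1
    rw [hval _ (by omega), ZMod.val_zero] at h2
    omega
  have h0S' : (E.rho 0)⁻¹ (0 : ZMod (4 * s + 3)) ∉ S := by
    intro h0
    rw [hρ, rd_shift_inv] at h0
    obtain ⟨i, hi, h1⟩ := (hmem _).1 h0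
    have h2 : ((2 * i + 1 + 1 : ℕ) : ZMod (4 * s + 3)) = 0 := by
      rw [Nat.cast_add_one, h1]
      ring
    have h3 := congrArg ZMod.val h2
    rw [hval _ (by omega), ZMod.val_zero] at h3
    omega
  have h1S : (1 : ZMod (4 * s + 3)) ∈ S := (hmem _).2 ⟨0, by omega, by simp⟩
  have hgood := rd_good E 0 S κ θ hH hg
  obtain ⟨m1, m2⟩ := split_missing E 0 S ∅ κ θ hH 0 h0S (Finset.notMem_empty _) h0S'
  have hu : (1 : ZMod (4 * s + 3)) ≠ 0 := fun h => h0S (h ▸ h1S)
  -- the arc ending at the missing incidence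
  have hv : (splitEmb E 0 S ∅ κ θ).rho none ((E.rho 0)⁻¹ 0) = 0 := by
    change (E.rho 0 * κ) ((E.rho 0)⁻¹ 0) = 0
    rw [Perm.mul_apply, hH.hκ _ h0S' (Finset.notMem_empty _)]
    simp
  have hpi : ∀ y, E.pi y 0 = 1 := by
    intro y
    have h1 : E.pi y 0 ≠ 0 := by
      intro h2
      obtain ⟨k, hk⟩ := hc y 0 1
      rw [Perm.zpow_apply_eq_self_of_apply_eq_self h2] at hk
      exact absurd hk (by decide)
    omega
  have hphi : (splitEmb E 0 S ∅ κ θ).phi (some 0, 1) = (some 1, E.rho 0 1) := by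
    rw [split_phi_S E 0 S ∅ κ θ hH 1 h1S]
    simp only [Emb.phi, hpi, tau]
    rw [if_neg (by decide)]
  have hρ1 : E.rho 0 1 ≠ 1 := by
    intro h
    exact (hH.hS 1 h1S).1 (by rw [h]; exact h1S)
  have hface := ins_face_merge (splitEmb E 0 S ∅ κ θ) (some 0) 0 1 ((E.rho 0)⁻¹ 0) none m1 m2 hu
    (by simp) hv hgood
    (by
      rw [hphi]
      intro h
      exact hρ1 (congrArg Prod.snd h))
    (by
      intro h
      have h1 : (splitEmb E 0 S ∅ κ θ).rho none ((E.rho 0)⁻¹ 0) = (E.rho 0)⁻¹ 0 :=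
        congrArg Prod.snd h
      rw [hv] at h1
      have h2 : E.rho 0 0 = 0 := by
        conv_lhs => rw [h1]
        simp
      rw [hρ, rd_shift_apply, zero_add] at h2
      exact hu h2)
    (by simp)
    (by
      rw [hphi]
      intro h
      exact absurd (congrArg Prod.fst h) (by simp))
  have hSt : St (Option (Fin 2)) (ZMod (4 * s + 3)) (fun _ _ => False) 5 := by
    refine ⟨insEmb (splitEmb E 0 S ∅ κ θ) (some 0) 0 1 none, ?_, ?_, hface.bound, by simp⟩
    · intro b
      change Tr (if b = some 0 then (splitEmb E 0 S ∅ κ θ).rho (some 0) * swap 1 0 else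
        (splitEmb E 0 S ∅ κ θ).rho b)
      split_ifs with hb
      · have h1 : TrOn ((splitEmb E 0 S ∅ κ θ).rho (some 0)) {x | x ∈ S ∨ (E.rho 0)⁻¹ x ∈ S} := hT2
        have h2 := insert_TrOn _ 0 1 m1 _ (by
          rintro (h3 | h3)
          · exact h0S h3
          · exact h0S' h3) (Or.inl h1S) h1
        intro x y
        have h4 : ∀ x, x ∈ insert (0 : ZMod (4 * s + 3)) {x | x ∈ S ∨ (E.rho 0)⁻¹ x ∈ S} := by
          intro x
          rcases hcov x with h5 | h5 | h5
          · exact Or.inr (Or.inl h5)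
          · exact Or.inr (Or.inr h5)
          · exact Or.inl h5
        exact h2 x (h4 x) y (h4 y)
      · rcases b with _ | b
        · exact hT1
        · change Tr (if b = 0 then κ⁻¹ * θ else E.rho b)
          rw [if_neg (fun h => hb (by rw [h]))]
          exact hr b
    · intro x
      change Tr (if x = 0 then (splitEmb E 0 S ∅ κ θ).pi 0 * swap none (some 0) else
        (splitEmb E 0 S ∅ κ θ).pi x)
      split_ifs with hx
      · have h1 : (splitEmb E 0 S ∅ κ θ).pi 0 = colT (E.pi 0) 0 := by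
          change (if (0 : ZMod (4 * s + 3)) ∈ S ∨ 0 ∈ (∅ : Finset (ZMod (4 * s + 3))) then
            colE (E.pi 0) 0 else if (E.rho 0)⁻¹ 0 ∈ S then colO (E.pi 0) 0 else colT (E.pi 0) 0) = _
          rw [if_neg (by
            rintro (h2 | h2)
            · exact h0S h2
            · exact Finset.notMem_empty _ h2), if_neg h0S']
        rw [h1]
        exact colT_insert_Tr (hc 0) 0 none (by simp)
      · refine rd_col E 0 S κ θ x ?_ (hc x)
        rcases hcov x with h5 | h5 | h5
        · exact Or.inl h5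
        · exact Or.inr h5
        · exact absurd h5 hx
  exact hSt.map (finSuccEquiv 2).symm (Fintype.equivFinOfCardEq (ZMod.card _)) (fun _ _ h => h)

/-! ### `n = 0` modulo `4` -/

section zero
variable (m : ℕ)

/-- the columns: `(i, false)` has the index `2 i` and `(i, true)` the index `2 i + 1` -/
def rd_rho : Perm (ZMod (2 * m) × Bool) where
  toFun x := (if x.2 then x.1 + 1 else x.1, !x.2)
  invFun x := (if x.2 then x.1 else x.1 - 1, !x.2)
  left_inv := by rintro ⟨i, b⟩; cases b <;> simp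
  right_inv := by rintro ⟨i, b⟩; cases b <;> simp

def rd_kap : Perm (ZMod (2 * m) × Bool) where
  toFun x := (if x.2 then x.1 else x.1 + 1, x.2)
  invFun x := (if x.2 then x.1 else x.1 - 1, x.2)
  left_inv := by rintro ⟨i, b⟩; cases b <;> simp
  right_inv := by rintro ⟨i, b⟩; cases b <;> simp

def rd_the : Perm (ZMod (2 * m) × Bool) where
  toFun x := (x.1, !x.2)
  invFun x := (x.1, !x.2)
  left_inv := by rintro ⟨i, b⟩; cases b <;> simp
  right_inv := by rintro ⟨i, b⟩; cases b <;> simp

theorem rd_rho_f (i : ZMod (2 * m)) : rd_rho m (i, false) = (i, true) := rfl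
theorem rd_rho_t (i : ZMod (2 * m)) : rd_rho m (i, true) = (i + 1, false) := rfl
theorem rd_kap_f (i : ZMod (2 * m)) : rd_kap m (i, false) = (i + 1, false) := rfl
theorem rd_kap_t (i : ZMod (2 * m)) : rd_kap m (i, true) = (i, true) := rfl
theorem rd_kapi_f (i : ZMod (2 * m)) : (rd_kap m)⁻¹ (i, false) = (i - 1, false) := rfl
theorem rd_kapi_t (i : ZMod (2 * m)) : (rd_kap m)⁻¹ (i, true) = (i, true) := rfl
theorem rd_the_a (i : ZMod (2 * m)) (b : Bool) : rd_the m (i, b) = (i, !b) := rfl
theorem rd_rhoi_t (i : ZMod (2 * m)) : (rd_rho m)⁻¹ (i, true) = (i, false) := rfl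

theorem rd_step {X : Type*} {f : Perm X} {x y : X} (h : f x = y) : f.SameCycle x y :=
  ⟨1, by rw [zpow_one, h]⟩

theorem rd_f_apply (i : ZMod (2 * m)) (b : Bool) :
    (rd_rho m * rd_kap m) (i, b) = (i + 1, !b) := by
  cases b
  · rw [Perm.mul_apply, rd_kap_f, rd_rho_f]; rfl
  · rw [Perm.mul_apply, rd_kap_t, rd_rho_t]; rfl

variable [NeZero m]

instance rd_nz : NeZero (2 * m) := ⟨by have := NeZero.ne m; omega⟩

theorem rd_rho_Tr : Tr (rd_rho m) := by
  have h1 : ∀ k : ℕ, (rd_rho m).SameCycle (0, false) (((k : ℕ) : ZMod (2 * m)), false) := by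
    intro k
    induction k with
    | zero => rw [Nat.cast_zero]
    | succ k ih =>
      rw [Nat.cast_add_one]
      exact (ih.trans (rd_step (rd_rho_f m _))).trans (rd_step (rd_rho_t m _))
  have h2 : ∀ x, (rd_rho m).SameCycle (0, false) x := by
    rintro ⟨i, b⟩
    have h3 := h1 i.val
    rw [ZMod.natCast_zmod_val] at h3
    cases b
    · exact h3
    · exact h3.trans (rd_step (rd_rho_f m _))
  exact fun x y => (h2 x).symm.trans (h2 y)

theorem rd_g_Tr : Tr ((rd_kap m)⁻¹ * rd_the m) := by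
  have e1 : ∀ i, ((rd_kap m)⁻¹ * rd_the m) (i, false) = (i, true) := by
    intro i
    rw [Perm.mul_apply, rd_the_a]
    rfl
  have e2 : ∀ i, ((rd_kap m)⁻¹ * rd_the m) (i, true) = (i - 1, false) := by
    intro i
    rw [Perm.mul_apply, rd_the_a]
    rfl
  have h1 : ∀ k : ℕ, ((rd_kap m)⁻¹ * rd_the m).SameCycle (((k : ℕ) : ZMod (2 * m)), false)
      (0, false) := by
    intro k
    induction k with
    | zero => rw [Nat.cast_zero]
    | succ k ih =>
      refine ((rd_step (e1 _)).trans (rd_step (e2 _))).trans ?_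
      rw [Nat.cast_add_one, add_sub_cancel_right]
      exact ih
  have h2 : ∀ x, ((rd_kap m)⁻¹ * rd_the m).SameCycle x (0, false) := by
    rintro ⟨i, b⟩
    have h3 := h1 i.val
    rw [ZMod.natCast_zmod_val] at h3
    cases b
    · exact h3
    · exact (rd_step (e1 i)).symm.trans h3
  exact fun x y => (h2 x).trans (h2 y).symm

theorem rd_f_pow (k : ℕ) (x : ZMod (2 * m) × Bool) :
    (((rd_rho m * rd_kap m) ^ k) x).1 = x.1 + k := by
  induction k with
  | zero => simp
  | succ k ih =>
    rw [pow_succ', Perm.mul_apply]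
    have h1 := rd_f_apply m (((rd_rho m * rd_kap m) ^ k) x).1 (((rd_rho m * rd_kap m) ^ k) x).2
    have h2 : (((rd_rho m * rd_kap m) ^ k) x).1 + 1 = x.1 + ((k + 1 : ℕ) : ZMod (2 * m)) := by
      rw [ih]
      push_cast
      ring
    exact (congrArg Prod.fst h1).trans h2

theorem rd_f_two : ∀ c, (rd_rho m * rd_kap m).SameCycle c (0, true) ∨
    (rd_rho m * rd_kap m).SameCycle c (1, true) := by
  intro c
  have h1 : (((rd_rho m * rd_kap m) ^ ((-c.1).val)) c).1 = 0 := by
    rw [rd_f_pow, ZMod.natCast_zmod_val]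
    ring
  have h2 : (rd_rho m * rd_kap m).SameCycle c (((rd_rho m * rd_kap m) ^ ((-c.1).val)) c) :=
    ⟨((-c.1).val : ℤ), by rw [zpow_natCast]⟩
  generalize ((rd_rho m * rd_kap m) ^ ((-c.1).val)) c = d at h1 h2
  obtain ⟨i, b⟩ := d
  have h3 : i = 0 := h1
  subst h3
  cases b
  · right
    refine h2.trans (rd_step ?_)
    rw [rd_f_apply, zero_add]
    rfl
  · exact Or.inl h2

/-- the class modulo two -/
def rd_par (x : ZMod (2 * m) × Bool) : ZMod 2 :=
  ZMod.castHom (dvd_mul_right 2 m) (ZMod 2) x.1 + (if x.2 then 1 else 0)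

theorem rd_par_f (x : ZMod (2 * m) × Bool) :
    rd_par m ((rd_rho m * rd_kap m) x) = rd_par m x := by
  obtain ⟨i, b⟩ := x
  rw [rd_f_apply]
  unfold rd_par
  rw [map_add, map_one]
  have h2 : (1 : ZMod 2) + 1 = 0 := by decide
  cases b
  · simp only [Bool.not_false, if_true, Bool.false_eq_true, if_false, add_assoc, h2]
  · simp

theorem rd_par_same {x y : ZMod (2 * m) × Bool} (h : (rd_rho m * rd_kap m).SameCycle x y) :
    rd_par m x = rd_par m y := by
  obtain ⟨k, -, hk⟩ := h.exists_pow_eq'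
  rw [← hk]
  clear hk
  induction k with
  | zero => rfl
  | succ k ih => rw [pow_succ', Perm.mul_apply, rd_par_f, ← ih]

theorem rd_f_not : ¬ (rd_rho m * rd_kap m).SameCycle (0, true) (1, true) := by
  intro h
  have h1 := rd_par_same m h
  unfold rd_par at h1
  simp only [map_zero, map_one, if_true] at h1
  exact absurd h1 (by decide)

theorem rd_hyp : SplitHyp (rd_rho m) (Finset.univ.filter fun x => x.2 = false) ∅ (rd_kap m)
    (rd_the m) where
  hS := by
    rintro ⟨i, b⟩ h
    simp only [Finset.mem_filter, Finset.mem_univ, true_and] at h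
    subst h
    rw [rd_rho_f]
    simp
  hSZ := by simp
  hκ := by
    rintro ⟨i, b⟩ h _
    simp only [Finset.mem_filter, Finset.mem_univ, true_and, Bool.not_eq_false] at h
    subst h
    rfl
  hθS := by
    rintro ⟨i, b⟩ h
    simp only [Finset.mem_filter, Finset.mem_univ, true_and] at h
    subst h
    exact ⟨rfl, rfl⟩
  hθ := by
    rintro ⟨i, b⟩ h h'
    exfalso
    simp only [Finset.mem_filter, Finset.mem_univ, true_and, Bool.not_eq_false] at h
    subst h
    rw [rd_rhoi_t] at h'
    simp at h'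

theorem rd_zero : St (Option (Fin 2)) (ZMod (2 * m) × Bool) (fun _ _ => False) 4 := by
  obtain ⟨E, hr, hc, hg, hρ⟩ := ring_two (rd_rho m) (rd_rho_Tr m)
  have hH : SplitHyp (E.rho 0) (Finset.univ.filter fun x => x.2 = false) ∅ (rd_kap m)
    (rd_the m) := by
    rw [hρ]
    exact rd_hyp m
  have hgood := rd_good E 0 _ _ _ hH hg
  obtain ⟨B, hB1, hB2⟩ := rd_swap _ none (0, true) (1, true) hgood
  refine ⟨_, ?_, ?_, ⟨B, hB1, hB2⟩, by simp⟩
  · intro b
    change Tr (if b = none then (E.rho 0 * rd_kap m) * swap (0, true) (1, true) else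
      (splitEmb E 0 _ ∅ (rd_kap m) (rd_the m)).rho b)
    split_ifs with hb
    · rw [hρ]
      exact merge_Tr _ _ _ (rd_f_not m) (rd_f_two m)
    · obtain ⟨b', rfl⟩ := Option.ne_none_iff_exists'.1 hb
      change Tr (if b' = 0 then (rd_kap m)⁻¹ * rd_the m else E.rho b')
      split_ifs
      · exact rd_g_Tr m
      · exact hr b'
  · intro x
    refine rd_col E 0 _ (rd_kap m) (rd_the m) x ?_ (hc x)
    obtain ⟨i, b⟩ := x
    cases b
    · left
      simp
    · right
      rw [hρ, rd_rhoi_t]
      simp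

end zero

theorem ring_three_zero (n : ℕ) (hn : n % 4 = 0) (hn' : 4 ≤ n) :
    St (Fin 3) (Fin n) (fun _ _ => False) 4 := by
  obtain ⟨m, rfl⟩ : ∃ m, n = 4 * m := ⟨n / 4, by omega⟩
  have hm : NeZero m := ⟨by omega⟩
  have hcard : Fintype.card (ZMod (2 * m) × Bool) = 4 * m := by
    rw [Fintype.card_prod, ZMod.card, Fintype.card_bool]
    ring
  exact (rd_zero m).map (finSuccEquiv 2).symm (Fintype.equivFinOfCardEq hcard) (fun _ _ h => h)

end Pool.Agent.W_MP_43c969_h13
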