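import Pool.Agent.W_MP_43c969_h13.Defs
import Pool.Agent.W_MP_43c969_h13.Cyc
import Pool.Agent.W_MP_43c969_h13.Basic

/-!
# Task Sphere: from a pinched embedding with `p` rows to an exact one with `p + 2` rows, `n` odd

Let `v` be the pinched column of `E`, `a` a row, `d` a row which is not in the cycle of `a` in
the column `v` (`Two.not_same`), `c = pi v d`, `x2 = rho c v`. Since all arcs are good and
`rho d ((rho d)⁻¹ v) = v`, we have `x2 = (rho d)⁻¹ v`, `pi x2 c = d`. Let `u_i = (rho a)^i v`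
(`0 ≤ i < n`) and `x2 = u_j`, `0 < j < n`.

*We may assume that `j` is odd*: in the mirror image of `E` (same `v`, `a`; the row `d` is replaced
by `d* = c`, for which `pi* v c = d` and `rho* d v = x2`) the number `j` becomes `n - j`.

*The new rows.* The cyclic order `w_0, …, w_{n-1}`:
`w_0 = x1 := u_{n-1}`, `w_1 = v`, `w_2 = x2 = u_j`, `w_i = u_{i-2}` for `3 ≤ i ≤ j + 1`,
`w_i = u_{i-1}` for `j + 2 ≤ i ≤ n - 1`. The new row `r` (`Sum.inr true`) has rotation
`w_i ↦ w_{i+1}` (indices modulo `n`), the new row `s` (`Sum.inr false`) has the inverse rotation.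
Note that `w_{i+1} = rho a w_i` for `i` odd, `3 ≤ i ≤ n - 2`, and for `i = 0`.

*The new columns.* For a column `y` write `a1 → b1 → c1` for: `b1` is put between `a1` and `c1`.
* `y = w_i`, `i` odd, `i ≥ 3`, or `i = 0` (start type): `(pi y)⁻¹ a → r → s → a`.
* `y = w_i`, `i` even, `i ≥ 4` (end type): `a → s → r → pi y a`.
* `y = x2 = w_2`: `c → s → r → pi x2 c = d`.
* `y = v`: `a → s → c` and `d → r → pi v a`; that is, the new permutation sends `a` to `s`, `s` to
  `c = pi v d`, `d` to `r`, `r` to `pi v a`, and agrees with `pi v` elsewhere.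

*All arcs are good.* The arcs of old rows which are not listed below keep their quadrilateral.
* `i` odd, `i ≥ 3`, or `i = 0`; `x = w_i`, `y = w_{i+1} = rho a x`, `h = pi y a` (so `rho h y = x`,
  `pi x h = a`): the quadrilaterals `{(r, x), (h, y)}` and `{(s, y), (a, x)}`.
  (For `i = 0`: `x = x1`, `y = v`, `h = pi v a`.)
* `i = 1`: `{(r, v), (d, x2)}` and `{(s, x2), (c, v)}`.
* `i` even, `2 ≤ i ≤ n - 1`: `{(r, w_i), (s, w_{i+1})}`.

*Cycles.* In the columns `y ≠ v` two points are inserted in a cycle. In the column `v`: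
`pi v a → … → a → s → c → … → d → r → pi v a` goes through both old cycles.
The rows `r`, `s` are cycles by construction. The old rows do not change, so nothing is lost in the
coverage.
-/

set_option autoImplicit false

namespace Pool.Agent.W_MP_43c969_h13

open Equiv

variable {P N : Type*} [Fintype P] [Fintype N] [DecidableEq P] [DecidableEq N]

/-- a permutation of the old rows, extended to the new rows -/
def sphB (f : Perm P) : Perm (P ⊕ Bool) := Equiv.sumCongr f (Equiv.refl Bool)

omit [Fintype P] [DecidableEq P] in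
theorem sphB_inl (f : Perm P) (x : P) : sphB f (Sum.inl x) = Sum.inl (f x) := rfl

omit [Fintype P] [DecidableEq P] in
theorem sphB_inr (f : Perm P) (b : Bool) : sphB f (Sum.inr b) = Sum.inr b := rfl

omit [Fintype P] [DecidableEq P] in
theorem sphB_pow (f : Perm P) (n : ℕ) (x : P) :
    ((sphB f) ^ n) (Sum.inl x) = Sum.inl ((f ^ n) x) := by
  induction n with
  | zero => rfl
  | succ n ih =>
    rw [pow_succ', Perm.mul_apply, ih, pow_succ', Perm.mul_apply]
    rfl

omit [DecidableEq P] in
theorem sphB_TrOn {f : Perm P} (h : Tr f) : TrOn (sphB f) (Set.range Sum.inl) := by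
  rintro _ ⟨x, rfl⟩ _ ⟨y, rfl⟩
  obtain ⟨n, hn⟩ := (h x y).exists_nat_pow_eq
  refine ⟨n, ?_⟩
  rw [zpow_natCast, sphB_pow, hn]

/-- two insertions -/
def sphI (f : Perm P) (u : P) (b : Bool) (u2 : P ⊕ Bool) : Perm (P ⊕ Bool) :=
  sphB f * swap (Sum.inl u) (Sum.inr b) * swap u2 (Sum.inr (!b))

theorem sphI_Tr {f : Perm P} (h : Tr f) (u : P) (b : Bool) (u2 : P ⊕ Bool)
    (hu2 : u2 ≠ Sum.inr (!b)) : Tr (sphI f u b u2) := by
  have h1 := insert_TrOn (sphB f) (Sum.inr b) (Sum.inl u) rfl (Set.range Sum.inl) (by simp)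
    ⟨u, rfl⟩ (sphB_TrOn h)
  have h2 : (sphB f * swap (Sum.inl u) (Sum.inr b)) (Sum.inr (!b)) = Sum.inr (!b) := by
    rw [Perm.mul_apply, swap_apply_of_ne_of_ne (by simp) (by cases b <;> simp)]
    rfl
  have hall : ∀ z : P ⊕ Bool, z ≠ Sum.inr (!b) → z ∈ insert (Sum.inr b) (Set.range Sum.inl) := by
    rintro (z | z) hz
    · exact Or.inr ⟨z, rfl⟩
    · left
      cases b <;> cases z <;> simp_all
  have h3 := insert_TrOn _ (Sum.inr (!b)) u2 h2 (insert (Sum.inr b) (Set.range Sum.inl))
    (by cases b <;> simp) (hall u2 hu2) h1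
  intro x y
  refine h3 x ?_ y ?_
  · by_cases hx : x = Sum.inr (!b)
    · exact Or.inl hx
    · exact Or.inr (hall x hx)
  · by_cases hy : y = Sum.inr (!b)
    · exact Or.inl hy
    · exact Or.inr (hall y hy)

section core

variable (E : Emb P N) (v x2 : N) (a c d : P) (S : N → Prop) [DecidablePred S]

/-- the new columns -/
def sphPi (y : N) : Perm (P ⊕ Bool) :=
  if y = v then sphI (E.pi v * swap a d) a false (Sum.inl d)
  else if y = x2 then sphI (E.pi y) c false (Sum.inr false)
  else if S y then sphI (E.pi y) ((E.pi y)⁻¹ a) true (Sum.inr true)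
  else sphI (E.pi y) a false (Sum.inr false)

end core

omit [Fintype P] in
theorem sphI_eval1 (f : Perm P) (u : P) (b : Bool) :
    sphI f u b (Sum.inr b) (Sum.inl u) = Sum.inr b ∧
    sphI f u b (Sum.inr b) (Sum.inr b) = Sum.inr (!b) ∧
    sphI f u b (Sum.inr b) (Sum.inr (!b)) = Sum.inl (f u) ∧
    ∀ g, g ≠ u → sphI f u b (Sum.inr b) (Sum.inl g) = Sum.inl (f g) := by
  have hb : (Sum.inr b : P ⊕ Bool) ≠ Sum.inr (!b) := by cases b <;> simp
  refine ⟨?_, ?_, ?_, fun g hg => ?_⟩
  · rw [sphI, Perm.mul_apply, swap_apply_of_ne_of_ne (by simp) (by simp), Perm.mul_apply,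
      swap_apply_left]
    rfl
  · rw [sphI, Perm.mul_apply, swap_apply_left, Perm.mul_apply,
      swap_apply_of_ne_of_ne (by simp) hb.symm]
    rfl
  · rw [sphI, Perm.mul_apply, swap_apply_right, Perm.mul_apply, swap_apply_right]
    rfl
  · rw [sphI, Perm.mul_apply, swap_apply_of_ne_of_ne (by simp) (by simp), Perm.mul_apply,
      swap_apply_of_ne_of_ne (by simpa using hg) (by simp)]
    rfl

omit [Fintype P] in
theorem sphI_eval2 (f : Perm P) (a d : P) (had : a ≠ d) :
    sphI (f * swap a d) a false (Sum.inl d) (Sum.inl a) = Sum.inr false ∧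
    sphI (f * swap a d) a false (Sum.inl d) (Sum.inr false) = Sum.inl (f d) ∧
    sphI (f * swap a d) a false (Sum.inl d) (Sum.inl d) = Sum.inr true ∧
    sphI (f * swap a d) a false (Sum.inl d) (Sum.inr true) = Sum.inl (f a) ∧
    ∀ g, g ≠ a → g ≠ d →
      sphI (f * swap a d) a false (Sum.inl d) (Sum.inl g) = Sum.inl (f g) := by
  refine ⟨?_, ?_, ?_, ?_, fun g hg hg2 => ?_⟩
  · rw [sphI, Perm.mul_apply, swap_apply_of_ne_of_ne (by simpa using had) (by simp),
      Perm.mul_apply, swap_apply_left]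
    rfl
  · rw [sphI, Perm.mul_apply, swap_apply_of_ne_of_ne (by simp) (by simp), Perm.mul_apply,
      swap_apply_right, sphB_inl, Perm.mul_apply, swap_apply_left]
  · rw [sphI, Perm.mul_apply, swap_apply_left, Perm.mul_apply,
      swap_apply_of_ne_of_ne (by simp) (by simp)]
    rfl
  · rw [sphI, Perm.mul_apply]
    change (sphB (f * swap a d) * swap (Sum.inl a) (Sum.inr false))
      (swap (Sum.inl d) (Sum.inr true) (Sum.inr true)) = _
    rw [swap_apply_right, Perm.mul_apply,
      swap_apply_of_ne_of_ne (by simpa using had.symm) (by simp), sphB_inl, Perm.mul_apply,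
      swap_apply_right]
  · rw [sphI, Perm.mul_apply, swap_apply_of_ne_of_ne (by simpa using hg2) (by simp),
      Perm.mul_apply, swap_apply_of_ne_of_ne (by simpa using hg) (by simp), sphB_inl,
      Perm.mul_apply, swap_apply_of_ne_of_ne hg hg2]

/-- The verification, for a set `S` of start type. -/
theorem sph_core (E : Emb P N) (v x2 : N) (a c d : P) (S : N → Prop) [DecidablePred S]
    (tau : Perm N) (hrow : E.RowsTr) (hcol : ∀ w, w ≠ v → Tr (E.pi w)) (htwo : Two (E.pi v))
    (hg : E.AllGood) (had : ¬ (E.pi v).SameCycle a d)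
    (hc : E.pi v d = c) (hx : E.rho c v = x2) (hx' : E.rho d x2 = v) (hdc : E.pi x2 c = d)
    (hvx : v ≠ x2) (hS1 : ∀ y, S y → ¬ S (E.rho a y)) (hS2 : ∀ y, S y → E.rho a y ≠ x2)
    (hS3 : ∀ y, ¬ S (E.rho a y) → E.rho a y ≠ x2 → S y) (hSv : ¬ S v) (hSx : ¬ S x2)
    (hT : Tr tau) (hT1 : ∀ y, S y → tau y = E.rho a y) (hT2 : tau v = x2)
    (hT3 : ∀ y, y ≠ v → ¬ S y → S (tau y)) : Ex (P ⊕ Bool) N E.Cov := by
  have hne : a ≠ d := by
    intro h
    apply had
    rw [h]
  -- values of the new columns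
  have pv := sphI_eval2 (E.pi v) a d hne
  have px := sphI_eval1 (E.pi x2) c false
  obtain ⟨pv1, pv2, pv3, pv4, pv5⟩ := pv
  obtain ⟨px1, px2, px3, px4⟩ := px
  have ev : sphPi E v x2 a c d S v = sphI (E.pi v * swap a d) a false (Sum.inl d) := by
    rw [sphPi, if_pos rfl]
  have ex : sphPi E v x2 a c d S x2 = sphI (E.pi x2) c false (Sum.inr false) := by
    rw [sphPi, if_neg hvx.symm, if_pos rfl]
  have es : ∀ y, S y → sphPi E v x2 a c d S y
      = sphI (E.pi y) ((E.pi y)⁻¹ a) true (Sum.inr true) := by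
    intro y hy
    rw [sphPi, if_neg (fun h : y = v => hSv (h ▸ hy)), if_neg (fun h : y = x2 => hSx (h ▸ hy)),
      if_pos hy]
  have ee : ∀ y, ¬ S y → y ≠ v → y ≠ x2 → sphPi E v x2 a c d S y
      = sphI (E.pi y) a false (Sum.inr false) := by
    intro y hy h1 h2
    rw [sphPi, if_neg h1, if_neg h2, if_neg hy]
  rw [← ev] at pv1 pv2 pv3 pv4 pv5
  rw [← ex] at px1 px2 px3 px4
  rw [hc] at pv2
  rw [hdc] at px3
  simp only [Bool.not_false] at px2 px3
  have qs : ∀ y, S y → (∀ h, E.pi y h = a → sphPi E v x2 a c d S y (Sum.inl h) = Sum.inr true) ∧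
      sphPi E v x2 a c d S y (Sum.inr true) = Sum.inr false ∧
      sphPi E v x2 a c d S y (Sum.inr false) = Sum.inl a ∧
      ∀ g, E.pi y g ≠ a → sphPi E v x2 a c d S y (Sum.inl g) = Sum.inl (E.pi y g) := by
    intro y hy
    obtain ⟨h1, h2, h3, h4⟩ := sphI_eval1 (E.pi y) ((E.pi y)⁻¹ a) true
    rw [← es y hy] at h1 h2 h3 h4
    simp only [Bool.not_true] at h2 h3
    refine ⟨fun h hh => ?_, h2, ?_, fun g hg => h4 g fun h => hg ?_⟩
    · rw [← h1, ← hh]
      simp
    · rw [h3]
      simp
    · rw [h]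
      simp
  have qe : ∀ y, ¬ S y → y ≠ v → y ≠ x2 →
      sphPi E v x2 a c d S y (Sum.inl a) = Sum.inr false ∧
      sphPi E v x2 a c d S y (Sum.inr false) = Sum.inr true ∧
      sphPi E v x2 a c d S y (Sum.inr true) = Sum.inl (E.pi y a) ∧
      ∀ g, g ≠ a → sphPi E v x2 a c d S y (Sum.inl g) = Sum.inl (E.pi y g) := by
    intro y hy h1 h2
    have h := sphI_eval1 (E.pi y) a false
    rw [← ee y hy h1 h2] at h
    exact h
  -- values common to the end type and `v`
  have qr : ∀ y, S y → sphPi E v x2 a c d S (E.rho a y) (Sum.inr true)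
      = Sum.inl (E.pi (E.rho a y) a) := by
    intro y hy
    by_cases h : E.rho a y = v
    · rw [h, pv4]
    · exact (qe _ (hS1 y hy) h (hS2 y hy)).2.2.1
  have qa : ∀ y, S y → sphPi E v x2 a c d S (E.rho a y) (Sum.inl a) = Sum.inr false := by
    intro y hy
    by_cases h : E.rho a y = v
    · rw [h, pv1]
    · exact (qe _ (hS1 y hy) h (hS2 y hy)).1
  have qt : ∀ y, y ≠ v → ¬ S y → sphPi E v x2 a c d S y (Sum.inr false) = Sum.inr true := by
    intro y h1 h2
    by_cases h : y = x2
    · rw [h]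
      exact px2
    · exact (qe _ h2 h1 h).2.1
  have hT2' : tau⁻¹ x2 = v := by rw [Perm.inv_eq_iff_eq, hT2]
  have hT1' : ∀ y, S y → tau⁻¹ (E.rho a y) = y := by
    intro y hy
    rw [Perm.inv_eq_iff_eq, hT1 y hy]
  have hGood : ∀ g x, E.rho (E.pi (E.rho g x) g) (E.rho g x) = x ∧
      E.pi x (E.pi (E.rho g x) g) = g := fun g x => (E.good_iff g x).1 (hg (g, x))
  refine ⟨⟨Sum.elim E.rho (fun b => if b then tau else tau⁻¹), sphPi E v x2 a c d S⟩,
    ?_, ?_, ?_, ?_⟩
  · rintro (g | b)
    · exact hrow g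
    · cases b
      · exact hT.inv
      · exact hT
  · intro y
    show Tr (sphPi E v x2 a c d S y)
    by_cases h1 : y = v
    · rw [h1, ev]
      exact sphI_Tr (htwo.merge a d had) _ _ _ (by simp)
    by_cases h2 : y = x2
    · rw [h2, ex]
      exact sphI_Tr (hcol _ hvx.symm) _ _ _ (by simp)
    by_cases h3 : S y
    · rw [es y h3]
      exact sphI_Tr (hcol _ h1) _ _ _ (by simp)
    · rw [ee y h3 h1 h2]
      exact sphI_Tr (hcol _ h1) _ _ _ (by simp)
  · rintro ⟨g, x⟩
    rw [Emb.good_iff]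
    rcases g with g | b
    · -- old rows
      obtain ⟨e1, e2⟩ := hGood g x
      show (Sum.elim E.rho (fun b => if b then tau else tau⁻¹)
          (sphPi E v x2 a c d S (E.rho g x) (Sum.inl g)) : Perm N) (E.rho g x) = x ∧
        sphPi E v x2 a c d S x (sphPi E v x2 a c d S (E.rho g x) (Sum.inl g)) = Sum.inl g
      generalize hy : E.rho g x = y at *
      generalize hg' : E.pi y g = g' at *
      by_cases hyS : S y
      · by_cases hga : g' = a
        · rw [(qs y hyS).1 g (hg'.trans hga)]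
          rw [hga] at e1 e2
          constructor
          · show tau y = x
            rw [hT1 y hyS, e1]
          · rw [← e1, qr y hyS, e1, e2]
        · rw [(qs y hyS).2.2.2 g (by rw [hg']; exact hga), hg']
          refine ⟨e1, ?_⟩
          by_cases hxS : S x
          · rw [(qs x hxS).2.2.2 g' ?_, e2]
            rw [e2]
            intro h
            rw [h] at hy
            exact hS1 x hxS (hy ▸ hyS)
          by_cases hxv : x = v
          · subst hxv
            rw [pv5 g' hga ?_, e2]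
            intro h
            rw [h] at e1
            have : y = x2 := (E.rho d).injective (e1.trans hx'.symm)
            exact hSx (this ▸ hyS)
          by_cases hxx : x = x2
          · subst hxx
            rw [px4 g' ?_, e2]
            intro h
            rw [h] at e1
            have : y = v := (E.rho c).injective (e1.trans hx.symm)
            exact hSv (this ▸ hyS)
          rw [(qe x hxS hxv hxx).2.2.2 g' hga, e2]
      by_cases hyv : y = v
      · subst hyv
        by_cases hga : g = a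
        · subst hga
          have hxS : S x := hS3 x (by rw [hy]; exact hyS) (by rw [hy]; exact hvx)
          rw [pv1]
          constructor
          · show tau⁻¹ y = x
            rw [← hy, hT1' x hxS]
          · exact (qs x hxS).2.2.1
        by_cases hgd : g = d
        · subst hgd
          have : x = x2 := (E.rho g).injective (hy.trans hx'.symm)
          subst this
          rw [pv3]
          exact ⟨hT2, px3⟩
        rw [pv5 g hga hgd, hg']
        refine ⟨e1, ?_⟩
        by_cases hxS : S x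
        · rw [(qs x hxS).2.2.2 g' (by rw [e2]; exact hga), e2]
        by_cases hxv : x = y
        · subst hxv
          rw [pv5 g' ?_ ?_, e2]
          · intro h
            rw [h] at e1
            exact hSv (hS3 x (by rw [e1]; exact hSv) (by rw [e1]; exact hvx))
          · intro h
            rw [h] at e1
            exact hvx ((E.rho d).injective (e1.trans hx'.symm))
        by_cases hxx : x = x2
        · subst hxx
          rw [px4 g' ?_, e2]
          intro h
          rw [← h] at hc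
          exact hgd ((E.pi y).injective (hg'.trans hc.symm))
        rw [(qe x hxS hxv hxx).2.2.2 g' ?_, e2]
        intro h
        rw [h] at e1
        exact hSv (hS3 y (by rw [e1]; exact hxS) (by rw [e1]; exact hxx))
      by_cases hyx : y = x2
      · subst hyx
        by_cases hgc : g = c
        · subst hgc
          have : x = v := (E.rho g).injective (hy.trans hx.symm)
          subst this
          rw [px1]
          exact ⟨hT2', pv2⟩
        rw [px4 g hgc, hg']
        refine ⟨e1, ?_⟩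
        by_cases hxS : S x
        · rw [(qs x hxS).2.2.2 g' ?_, e2]
          rw [e2]
          intro h
          rw [h] at hy
          exact hS2 x hxS hy
        by_cases hxv : x = v
        · subst hxv
          rw [pv5 g' ?_ ?_, e2]
          · intro h
            rw [h] at e1
            exact hSx (hS3 y (by rw [e1]; exact hSv) (by rw [e1]; exact hvx))
          · intro h
            rw [h] at hg'
            exact hgc ((E.pi y).injective (hg'.trans hdc.symm))
        by_cases hxx : x = y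
        · subst hxx
          rw [px4 g' ?_, e2]
          intro h
          rw [h] at e1
          exact hvx ((E.rho c).injective (hx.trans e1.symm))
        rw [(qe x hxS hxv hxx).2.2.2 g' ?_, e2]
        intro h
        rw [h] at e1
        exact hSx (hS3 y (by rw [e1]; exact hxS) (by rw [e1]; exact hxx))
      by_cases hga : g = a
      · subst hga
        have hxS : S x := hS3 x (by rw [hy]; exact hyS) (by rw [hy]; exact hyx)
        rw [(qe y hyS hyv hyx).1]
        constructor
        · show tau⁻¹ y = x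
          rw [← hy, hT1' x hxS]
        · exact (qs x hxS).2.2.1
      rw [(qe y hyS hyv hyx).2.2.2 g hga, hg']
      refine ⟨e1, ?_⟩
      by_cases hxS : S x
      · rw [(qs x hxS).2.2.2 g' (by rw [e2]; exact hga), e2]
      by_cases hxv : x = v
      · subst hxv
        rw [pv5 g' ?_ ?_, e2]
        · intro h
          rw [h] at e1
          exact hyS (hS3 y (by rw [e1]; exact hSv) (by rw [e1]; exact hvx))
        · intro h
          rw [h] at e1
          exact hyx ((E.rho d).injective (e1.trans hx'.symm))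
      by_cases hxx : x = x2
      · subst hxx
        rw [px4 g' ?_, e2]
        intro h
        rw [h] at e1
        exact hyv ((E.rho c).injective (e1.trans hx.symm))
      rw [(qe x hxS hxv hxx).2.2.2 g' ?_, e2]
      intro h
      rw [h] at e1
      exact hyS (hS3 y (by rw [e1]; exact hxS) (by rw [e1]; exact hxx))
    · cases b
      · -- the row `s`
        obtain ⟨y, rfl⟩ : ∃ y, tau y = x := tau.surjective x
        have e0 : tau⁻¹ (tau y) = y := by simp
        show (Sum.elim E.rho (fun b => if b then tau else tau⁻¹)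
            (sphPi E v x2 a c d S (tau⁻¹ (tau y)) (Sum.inr false)) : Perm N) (tau⁻¹ (tau y))
              = tau y ∧
          sphPi E v x2 a c d S (tau y)
            (sphPi E v x2 a c d S (tau⁻¹ (tau y)) (Sum.inr false)) = Sum.inr false
        rw [e0]
        by_cases hyS : S y
        · rw [(qs y hyS).2.2.1, hT1 y hyS]
          exact ⟨rfl, qa y hyS⟩
        by_cases hyv : y = v
        · subst hyv
          rw [pv2, hT2]
          exact ⟨hx, px1⟩
        · rw [qt y hyv hyS]
          exact ⟨rfl, (qs _ (hT3 y hyv hyS)).2.1⟩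
      · -- the row `r`
        show (Sum.elim E.rho (fun b => if b then tau else tau⁻¹)
            (sphPi E v x2 a c d S (tau x) (Sum.inr true)) : Perm N) (tau x) = x ∧
          sphPi E v x2 a c d S x (sphPi E v x2 a c d S (tau x) (Sum.inr true)) = Sum.inr true
        by_cases hxS : S x
        · rw [hT1 x hxS, qr x hxS]
          exact ⟨(hGood a x).1, (qs x hxS).1 _ (hGood a x).2⟩
        by_cases hxv : x = v
        · subst hxv
          rw [hT2, px3]
          exact ⟨hx', pv3⟩
        · rw [(qs _ (hT3 x hxv hxS)).2.1]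
          refine ⟨?_, qt x hxv hxS⟩
          show tau⁻¹ (tau x) = x
          simp
  · rintro x y ⟨g, h⟩
    exact ⟨Sum.inl g, h⟩

/-! ### The set of start type and the new row -/

omit [DecidableEq N] in
/-- The position of `x` in the row `s`, starting at `v`. -/
theorem sph_idx (s : Perm N) (hs : Tr s) (v : N) :
    ∃ k : N → ℕ, (∀ x, k x < Fintype.card N) ∧ (∀ x, (s ^ (k x)) v = x) ∧
      ∀ x i, i < Fintype.card N → (s ^ i) v = x → i = k x := by
  have hc : s.IsCycleOn (Finset.univ : Finset N) :=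
    ⟨by simp, fun x _ y _ => hs x y⟩
  have h1 : ∀ x, ∃ k, k < (Finset.univ : Finset N).card ∧ (s ^ k) v = x := fun x =>
    hc.exists_pow_eq (Finset.mem_univ v) (Finset.mem_univ x)
  choose k hk1 hk2 using h1
  refine ⟨k, hk1, hk2, fun x i hi hx => ?_⟩
  have h2 : (s ^ i) v = (s ^ (k x)) v := hx.trans (hk2 x).symm
  have h3 := (hc.pow_apply_eq_pow_apply (Finset.mem_univ v)).1 h2
  exact Nat.ModEq.eq_of_lt_of_lt h3 hi (hk1 x)

omit [DecidableEq N] in
theorem sph_idx_succ (s : Perm N) (v : N) (k : N → ℕ) (hk1 : ∀ x, k x < Fintype.card N)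
    (hk2 : ∀ x, (s ^ (k x)) v = x) (hk3 : ∀ x i, i < Fintype.card N → (s ^ i) v = x → i = k x)
    (hs : Tr s) (x : N) :
    (k x + 1 < Fintype.card N ∧ k (s x) = k x + 1) ∨
      (k x + 1 = Fintype.card N ∧ s x = v ∧ k (s x) = 0) := by
  have h0 : (s ^ (k x + 1)) v = s x := by
    rw [pow_succ', Perm.mul_apply, hk2]
  rcases lt_or_ge (k x + 1) (Fintype.card N) with h | h
  · exact Or.inl ⟨h, (hk3 (s x) _ h h0).symm⟩
  · right
    have h1 : k x + 1 = Fintype.card N := le_antisymm (hk1 x) h
    have hc : s.IsCycleOn (Finset.univ : Finset N) :=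
      ⟨by simp, fun x _ y _ => hs x y⟩
    have h2 : (s ^ (Finset.univ : Finset N).card) v = v := hc.pow_card_apply (Finset.mem_univ v)
    have h3 : s x = v := by
      rw [← h0, h1]
      exact h2
    refine ⟨h1, h3, ?_⟩
    rw [h3]
    exact (hk3 v 0 (lt_of_le_of_lt (Nat.zero_le _) (hk1 v)) rfl).symm

/-- The set of start type and the rotation of the new row. -/
theorem sph_new (s : Perm N) (hs : Tr s) (v x2 : N) (hn : Odd (Fintype.card N))
    (hn3 : 3 ≤ Fintype.card N) (j : ℕ) (hj0 : 0 < j) (hj : j < Fintype.card N)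
    (hjo : Odd j) (hx : (s ^ j) v = x2) : v ≠ x2 ∧
    ∃ (S : N → Prop) (tau : Perm N), (∀ y, S y → ¬ S (s y)) ∧ (∀ y, S y → s y ≠ x2) ∧
      (∀ y, ¬ S (s y) → s y ≠ x2 → S y) ∧ ¬ S v ∧ ¬ S x2 ∧ Tr tau ∧ (∀ y, S y → tau y = s y) ∧
      tau v = x2 ∧ ∀ y, y ≠ v → ¬ S y → S (tau y) := by
  obtain ⟨k, hk1, hk2, hk3⟩ := sph_idx s hs v
  have hks := sph_idx_succ s v k hk1 hk2 hk3 hs
  have hkv : k v = 0 := (hk3 v 0 (by omega) rfl).symm
  have hkx : k x2 = j := (hk3 x2 j hj hx).symm
  have hkinj : ∀ x y, k x = k y → x = y := by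
    intro x y h
    rw [← hk2 x, ← hk2 y, h]
  have hvx : v ≠ x2 := by
    intro h
    have := congrArg k h
    omega
  refine ⟨hvx, ?_⟩
  obtain ⟨p, hpx⟩ : ∃ p, s p = x2 := s.surjective x2
  have hkp : k p + 1 = j := by
    rcases hks p with h | h
    · rw [hpx] at h
      omega
    · rw [hpx] at h
      omega
  have hpne : p ≠ x2 := by
    intro h
    have := congrArg k h
    omega
  let F : Perm N := s * swap p x2
  have hF : F x2 = x2 := by
    show (s * swap p x2) x2 = x2
    rw [Perm.mul_apply, swap_apply_right, hpx]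
  have hFF : F * swap p x2 = s := by
    show s * swap p x2 * swap p x2 = s
    rw [mul_assoc, swap_mul_self, mul_one]
  have hT : Tr (F * swap v x2) := by
    refine cyc_insert_Tr F x2 v hF hvx ?_
    intro x y hx1 hy1
    rw [← insert_sameCycle_iff F x2 p hF x y hx1 hy1, hFF]
    exact hs x y
  have t1 : ∀ y, y ≠ v → y ≠ x2 → y ≠ p → (F * swap v x2) y = s y := by
    intro y h1 h2 h3
    rw [Perm.mul_apply, swap_apply_of_ne_of_ne h1 h2]
    show (s * swap p x2) y = s y
    rw [Perm.mul_apply, swap_apply_of_ne_of_ne h3 h2]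
  have t2 : (F * swap v x2) v = x2 := by
    rw [Perm.mul_apply, swap_apply_left, hF]
  have t3 : p ≠ v → (F * swap v x2) p = s x2 := by
    intro h
    rw [Perm.mul_apply, swap_apply_of_ne_of_ne h hpne]
    show (s * swap p x2) p = s x2
    rw [Perm.mul_apply, swap_apply_left]
  have t4 : p ≠ v → (F * swap v x2) x2 = s v := by
    intro h
    rw [Perm.mul_apply, swap_apply_right]
    show (s * swap p x2) v = s v
    rw [Perm.mul_apply, swap_apply_of_ne_of_ne h.symm hvx]
  have t5 : p = v → (F * swap v x2) x2 = s x2 := by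
    intro h
    rw [Perm.mul_apply, swap_apply_right]
    show (s * swap p x2) v = s x2
    rw [Perm.mul_apply, ← h, swap_apply_left]
  have hnn : ∀ y, k y + 1 = Fintype.card N → Even (k y) := by
    intro y h
    rw [← h] at hn
    rcases Nat.even_or_odd (k y) with h1 | h1
    · exact h1
    · exact absurd (h1.add_one) (Nat.not_even_iff_odd.2 hn)
  obtain ⟨r, hr⟩ := hjo
  refine ⟨fun y => (Odd (k y) ∧ k y < j) ∨ (Even (k y) ∧ j < k y), F * swap v x2,
    ?_, ?_, ?_, ?_, ?_, hT, ?_, t2, ?_⟩
  · -- `S y → ¬ S (s y)`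
    intro y hy hy'
    rcases hks y with h | h
    · rcases hy with ⟨⟨q, hq⟩, h2⟩ | ⟨⟨q, hq⟩, h2⟩ <;>
      rcases hy' with ⟨⟨q', hq'⟩, h2'⟩ | ⟨⟨q', hq'⟩, h2'⟩ <;> omega
    · rcases hy' with ⟨⟨q', hq'⟩, h2'⟩ | ⟨⟨q', hq'⟩, h2'⟩ <;> omega
  · -- `S y → s y ≠ x2`
    intro y hy h0
    have h1 := congrArg k h0
    rw [hkx] at h1
    rcases hks y with h | h
    · rcases hy with ⟨⟨q, hq⟩, h2⟩ | ⟨⟨q, hq⟩, h2⟩ <;> omega
    · omega
  · -- the other direction
    intro y hy hy'
    have hne : k (s y) ≠ j := by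
      intro h
      exact hy' (hkinj _ _ (h.trans hkx.symm))
    rcases hks y with h | h
    · rcases Nat.even_or_odd' (k y) with ⟨q, hq | hq⟩
      · rcases lt_trichotomy (k y) j with h2 | h2 | h2
        · exfalso
          refine hy (Or.inl ⟨⟨q, ?_⟩, ?_⟩) <;> omega
        · omega
        · exact Or.inr ⟨⟨q, by omega⟩, h2⟩
      · rcases lt_trichotomy (k y) j with h2 | h2 | h2
        · exact Or.inl ⟨⟨q, hq⟩, h2⟩
        · exfalso
          refine hy (Or.inr ⟨⟨q + 1, ?_⟩, ?_⟩) <;> omega
        · exfalso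
          refine hy (Or.inr ⟨⟨q + 1, ?_⟩, ?_⟩) <;> omega
    · have h3 := hnn y h.1
      refine Or.inr ⟨h3, ?_⟩
      obtain ⟨q, hq⟩ := h3
      omega
  · rintro (⟨⟨q, hq⟩, h⟩ | ⟨-, h⟩) <;> omega
  · rintro (⟨-, h⟩ | ⟨-, h⟩) <;> omega
  · -- `tau = s` on `S`
    intro y hy
    refine t1 y ?_ ?_ ?_
    · intro h
      rw [h] at hy
      rcases hy with ⟨⟨q, hq⟩, h⟩ | ⟨-, h⟩ <;> omega
    · intro h
      rw [h] at hy
      rcases hy with ⟨-, h⟩ | ⟨-, h⟩ <;> omega
    · intro h
      rw [h] at hy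
      rcases hy with ⟨⟨q, hq⟩, h⟩ | ⟨-, h⟩ <;> omega
  · intro y hyv hyS
    have hkne : k y ≠ 0 := fun h => hyv (hkinj _ _ (h.trans hkv.symm))
    by_cases hyx : y = x2
    · subst hyx
      by_cases hpv : p = v
      · rw [t5 hpv]
        rw [hpv, hkv] at hkp
        have h1 := hks y
        refine Or.inr ⟨⟨1, ?_⟩, ?_⟩ <;> omega
      · rw [t4 hpv]
        have h1 := hks v
        have h2 : k p ≠ 0 := fun h => hpv (hkinj _ _ (h.trans hkv.symm))
        refine Or.inl ⟨⟨0, ?_⟩, ?_⟩ <;> omega
    have hkyj : k y ≠ j := fun h => hyx (hkinj _ _ (h.trans hkx.symm))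
    by_cases hyp : y = p
    · subst hyp
      rw [t3 hyv]
      have h1 := hks x2
      have h2 : k x2 + 1 ≠ Fintype.card N := by
        intro h
        obtain ⟨q, hq⟩ := hnn x2 h
        omega
      refine Or.inr ⟨⟨r + 1, ?_⟩, ?_⟩ <;> omega
    have hkyp : k y ≠ k p := fun h => hyp (hkinj _ _ h)
    rw [t1 y hyv hyx hyp]
    rcases hks y with h | h
    · rcases Nat.even_or_odd' (k y) with ⟨q, hq | hq⟩
      · have h2 : ¬ j < k y := fun h2 => hyS (Or.inr ⟨⟨q, by omega⟩, h2⟩)
        refine Or.inl ⟨⟨q, ?_⟩, ?_⟩ <;> omega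
      · have h2 : ¬ k y < j := fun h2 => hyS (Or.inl ⟨⟨q, hq⟩, h2⟩)
        refine Or.inr ⟨⟨q + 1, ?_⟩, ?_⟩ <;> omega
    · exfalso
      obtain ⟨q, hq⟩ := hnn y h.1
      have h2 : ¬ j < k y := fun h2 => hyS (Or.inr ⟨⟨q, hq⟩, h2⟩)
      omega

/-- The case `j` odd. -/
theorem sphere_odd (E : Emb P N) (v : N) (hrow : E.RowsTr) (hcol : ∀ w, w ≠ v → Tr (E.pi w))
    (htwo : Two (E.pi v)) (hg : E.AllGood) (hn : Odd (Fintype.card N))
    (hn3 : 3 ≤ Fintype.card N) (a d : P)
    (had : ¬ (E.pi v).SameCycle a d) (j : ℕ) (hj0 : 0 < j) (hj : j < Fintype.card N)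
    (hjo : Odd j) (hx : ((E.rho a) ^ j) v = E.rho (E.pi v d) v) :
    Ex (P ⊕ Bool) N E.Cov := by
  classical
  obtain ⟨hvx, S, tau, s1, s2, s3, s4, s5, s6, s7, s8, s9⟩ :=
    sph_new (E.rho a) (hrow a) v _ hn hn3 j hj0 hj hjo hx
  -- the arc `(d, (rho d)⁻¹ v)`
  obtain ⟨e1, e2⟩ : E.rho (E.pi v d) v = (E.rho d)⁻¹ v ∧ E.pi ((E.rho d)⁻¹ v) (E.pi v d) = d := by
    have h := (E.good_iff d ((E.rho d)⁻¹ v)).1 (hg _)
    have h0 : E.rho d ((E.rho d)⁻¹ v) = v := by simp
    rw [h0] at h
    exact h
  refine sph_core E v _ a _ d S tau hrow hcol htwo hg had rfl rfl ?_ ?_ hvx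
    s1 s2 s3 s4 s5 s6 s7 s8 s9
  · rw [e1]
    simp
  · rw [e1]
    exact e2

theorem PSt.ex2 {C : N → N → Prop} (h : PSt P N C) (hn : Odd (Fintype.card N))
    (hn3 : 3 ≤ Fintype.card N) : Ex (P ⊕ Bool) N C := by
  obtain ⟨E, v, hrow, hcol, htwo, hg, hC⟩ := h
  obtain ⟨a, -, -, -⟩ := id htwo
  obtain ⟨d, had, -⟩ := htwo.not_same a
  obtain ⟨k, hk1, hk2, hk3⟩ := sph_idx (E.rho a) (hrow a) v
  set x2 := E.rho (E.pi v d) v with hx2
  have hxd : E.rho d x2 = v ∧ E.pi x2 (E.pi v d) = d := by
    have h := (E.good_iff d ((E.rho d)⁻¹ v)).1 (hg _)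
    have h0 : E.rho d ((E.rho d)⁻¹ v) = v := by simp
    rw [h0] at h
    rw [hx2, h.1]
    exact ⟨h0, h.2⟩
  have hvx : v ≠ x2 := by
    intro h
    have h1 : E.rho d v = v := by
      have := hxd.1
      rwa [← h] at this
    have h2 : ∀ y, y = v := by
      intro y
      refine cyc_of_step (E.rho d) (fun x y => (x = v ↔ y = v)) ⟨fun _ => Iff.rfl,
        fun h => h.symm, fun h h' => h.trans h'⟩ ?_ v y (hrow d v y) |>.1 rfl
      intro z
      constructor
      · rintro rfl
        exact h1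
      · intro hz
        exact (E.rho d).injective (hz.trans h1.symm)
    have h3 : Fintype.card N ≤ 1 := Fintype.card_le_one_iff.2 fun x y => (h2 x).trans (h2 y).symm
    omega
  have hk0 : k x2 ≠ 0 := by
    intro h
    have := hk2 x2
    rw [h] at this
    exact hvx this
  rcases Nat.even_or_odd (k x2) with he | ho
  · -- the mirror image
    have key : Ex (P ⊕ Bool) N E.mirror.Cov := by
      have hdd : E.mirror.pi v (E.pi v d) = d := by
        show (E.pi v)⁻¹ (E.pi v d) = d
        simp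
      refine sphere_odd E.mirror v (fun b => (hrow b).inv) (fun w hw => (hcol w hw).inv) htwo.inv
        (E.mirror_allGood hg) hn hn3 a (E.pi v d) ?_ (Fintype.card N - k x2) ?_ ?_ ?_ ?_
      · show ¬ ((E.pi v)⁻¹).SameCycle a (E.pi v d)
        rw [Perm.sameCycle_inv, Perm.sameCycle_apply_right]
        exact had
      · have := hk1 x2
        omega
      · omega
      · exact Nat.Odd.sub_even (hk1 x2).le hn he
      · rw [hdd]
        show (((E.rho a)⁻¹) ^ (Fintype.card N - k x2)) v = (E.rho d)⁻¹ v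
        have h1 : (E.rho d)⁻¹ v = x2 := by
          rw [Perm.inv_eq_iff_eq]
          exact hxd.1.symm
        have hc : (E.rho a).IsCycleOn (Finset.univ : Finset N) :=
          ⟨by simp, fun x _ y _ => hrow a x y⟩
        have h2 : ((E.rho a) ^ Fintype.card N) v = v := hc.pow_card_apply (Finset.mem_univ v)
        rw [h1, inv_pow, Perm.inv_eq_iff_eq]
        have h3 : ((E.rho a) ^ (Fintype.card N - k x2)) (((E.rho a) ^ (k x2)) v) = v := by
          rw [← Perm.mul_apply, ← pow_add, Nat.sub_add_cancel (hk1 x2).le, h2]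
        rw [hk2] at h3
        exact h3.symm
    obtain ⟨E', e1, e2, e3, e4⟩ := key
    exact ⟨E', e1, e2, e3, fun x y hxy => e4 x y (E.mirror_cov x y (hC x y hxy))⟩
  · obtain ⟨E', e1, e2, e3, e4⟩ := sphere_odd E v hrow hcol htwo hg hn hn3 a d had (k x2)
      (Nat.pos_of_ne_zero hk0) (hk1 x2) ho (hk2 x2)
    exact ⟨E', e1, e2, e3, fun x y hxy => e4 x y (hC x y hxy)⟩

end Pool.Agent.W_MP_43c969_h13
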