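import Pool.Agent.W_MP_43c969_h13.Defs
import Pool.Agent.W_MP_43c969_h13.Basic
import Pool.Agent.W_MP_43c969_h13.Merge
import Pool.Agent.W_MP_43c969_h13.P5
import Pool.Agent.W_MP_43c969_h13.P3
import Pool.Agent.W_MP_43c969_h13.Sphere
import Pool.Agent.W_MP_43c969_h13.Glue
import Pool.Agent.W_MP_43c969_h13.RingA
import Pool.Agent.W_MP_43c969_h13.RingB
import Pool.Agent.W_MP_43c969_h13.RingC
import Pool.Agent.W_MP_43c969_h13.RingD

/-!
# Task Extend: minimum embeddings of complete bipartite graphs, and extension to more rows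

`ringel`: for all `p ≥ 2`, `n ≥ 2` there is an embedding with `p` rows, `n` columns and at most
`kk p n` bad arcs (no coverage). Strong induction on `p`, using `glue_St` with an exact embedding:
* `p = 2`: `ring_two_ex`. `p = 3`: `ring_three_*` (`kk 3 n = 0, 3, 5, 4` for `n = 2, 1, 3, 0 mod 4`;
  `n = 2` is in the first case, `n = 3` in the third one).
* `n = 2 mod 4`: glue `ring_three_two` with the embedding with `p - 1` rows.
* `n = 0 mod 4`: `p = 4`: `ring_four_even`. `p ≥ 5`: glue `ring_four_even` with `p - 2` rows.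
* `n` odd (`n ≥ 3`): `p = 4`: `PSt.st` applied to `ring_four_odd`; `p = 5`: `PSt.st5` (`n = 1 mod 4`,
  `n ≥ 5`) or `PSt.st3` (`n = 3 mod 4`); `p = 6`: `PSt.ex2`, exact. `p ≥ 7`: glue the exact
  embedding with `6` rows and the one with `p - 4` rows.
In each case the arithmetic of `kk` is: `kk p n` depends only on `p mod 4`, `n mod 4`
(for `p, n ≥ 2`), and in the gluing `Fin (p1 + p2 - 2)` the number `exc` is that of `p2`.

`extend_ex`: if `C` is covered by an exact embedding with `p1` rows and `exc p1 n = 0`, then for all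
`p ≥ p1` there is an embedding with `p` rows covering `C` with at most `kk p n` bad arcs: glue it
with `ringel (p - p1 + 2)`; `(p - 2)(n - 2) = (p1 - 2)(n - 2) + (p - p1)(n - 2)`, so
`kk p n = kk (p - p1 + 2) n`.

`extend_pst`: `n` odd, `4 ∣ p1`, pinched embedding with `p1` rows. `p = p1`: `PSt.st`
(`kk p1 n = 4`); `p = p1 + 1`: `kk = 5` if `n = 1 mod 4` (`PSt.st5`) and `kk = 3` if `n = 3 mod 4`
(`PSt.st3`); `p ≥ p1 + 2`: `PSt.ex2` and `extend_ex` (`exc (p1 + 2) n = 0`).
-/

set_option autoImplicit false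

namespace Pool.Agent.W_MP_43c969_h13

open Equiv

theorem kk_congr (p p' n n' : ℕ) (hp : 2 ≤ p) (hp' : 2 ≤ p') (hn : 2 ≤ n) (hn' : 2 ≤ n')
    (h : p % 4 = p' % 4) (h' : n % 4 = n' % 4) : kk p n = kk p' n' := by
  have h1 : (p - 2) % 4 = (p' - 2) % 4 := by omega
  have h2 : (n - 2) % 4 = (n' - 2) % 4 := by omega
  have h3 : ((p - 2) * (n - 2)) % 4 = ((p' - 2) * (n' - 2)) % 4 := by
    rw [Nat.mul_mod, h1, h2, ← Nat.mul_mod]
  unfold kk exc
  rw [h3]

/-- the value of `kk` in terms of the residues. -/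
theorem ext_kk_val (p n a b : ℕ) (h : (p - 2) % 4 = a) (h' : (n - 2) % 4 = b) :
    kk p n = (if (4 - (a * b) % 4) % 4 = 0 then 0 else (4 - (a * b) % 4) % 4 + 2) := by
  have h3 : ((p - 2) * (n - 2)) % 4 = (a * b) % 4 := by
    rw [Nat.mul_mod, h, h']
  unfold kk exc
  rw [h3]

theorem ext_kk_eq_of (p p' n : ℕ) (h : ((p - 2) * (n - 2)) % 4 = ((p' - 2) * (n - 2)) % 4) :
    kk p n = kk p' n := by
  unfold kk exc
  rw [h]

theorem ext_st_rows {P N : Type*} [Fintype P] {C : N → N → Prop} {k p : ℕ} (h : St P N C k)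
    (hp : Fintype.card P = p) : St (Fin p) N C k :=
  h.map (Fintype.equivFinOfCardEq hp) (Equiv.refl N) (fun _ _ h => h)

theorem ext_ex_rows {P N : Type*} [Fintype P] {C : N → N → Prop} {p : ℕ} (h : Ex P N C)
    (hp : Fintype.card P = p) : Ex (Fin p) N C :=
  h.map (Fintype.equivFinOfCardEq hp) (Equiv.refl N) (fun _ _ h => h)

theorem ringel (p n : ℕ) (hp : 2 ≤ p) (hn : 2 ≤ n) :
    St (Fin p) (Fin n) (fun _ _ => False) (kk p n) := by
  classical
  induction p using Nat.strong_induction_on with
  | _ p ih =>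
    rcases Nat.eq_or_lt_of_le hp with h2 | h2
    · subst h2
      exact (ring_two_ex n).st _
    have hn4 : n % 4 = 0 ∨ n % 4 = 1 ∨ n % 4 = 2 ∨ n % 4 = 3 := by omega
    rcases Nat.eq_or_lt_of_le h2 with h3 | h3
    · -- three rows
      subst h3
      rcases hn4 with h | h | h | h
      · have hk : kk (2 + 1) n = 4 := ext_kk_val _ n 1 2 (by omega) (by omega)
        rw [Nat.succ_eq_add_one, hk]
        exact ring_three_zero n h (by omega)
      · have hk : kk (2 + 1) n = 3 := ext_kk_val _ n 1 3 (by omega) (by omega)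
        rw [Nat.succ_eq_add_one, hk]
        exact ring_three_one n h (by omega)
      · exact (ring_three_two n h).st _
      · have hk : kk (2 + 1) n = 5 := ext_kk_val _ n 1 1 (by omega) (by omega)
        rw [Nat.succ_eq_add_one, hk]
        exact ring_three_three n h
    have hp4 : 4 ≤ p := h3
    by_cases hn2 : n % 4 = 2
    · have h := glue_St (p1 := 3) (p2 := p - 1) (by omega) (by omega) (ring_three_two n hn2)
        (ih (p - 1) (by omega) (by omega))
      have e1 : 3 + (p - 1) - 2 = p := by omega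
      have e2 : kk (p - 1) n = kk p n := by
        apply ext_kk_eq_of
        rw [Nat.mul_mod, show (n - 2) % 4 = 0 by omega, Nat.mul_mod (p - 2),
          show (n - 2) % 4 = 0 by omega, Nat.mul_zero, Nat.mul_zero]
      rw [e1, e2] at h
      exact h
    by_cases hn0 : n % 4 = 0
    · have hf := ring_four_even n (Nat.even_iff.mpr (by omega)) hn
      rcases Nat.eq_or_lt_of_le hp4 with h4 | h4
      · subst h4
        exact hf.st _
      · have h := glue_St (p1 := 4) (p2 := p - 2) (by omega) (by omega) hf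
          (ih (p - 2) (by omega) (by omega))
        have e1 : 4 + (p - 2) - 2 = p := by omega
        have e2 : kk (p - 2) n = kk p n := by
          apply ext_kk_eq_of
          obtain ⟨m, hm⟩ : ∃ m, p = m + 4 := ⟨p - 4, by omega⟩
          obtain ⟨l, hl⟩ : ∃ l, n = 4 * l + 4 := ⟨n / 4 - 1, by omega⟩
          subst hm hl
          have e3 : (m + 4 - 2 - 2) * (4 * l + 4 - 2) = m * (4 * l + 2) := by
            congr 1
          have e4 : (m + 4 - 2) * (4 * l + 4 - 2) = m * (4 * l + 2) + 4 * (2 * l + 1) := by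
            have : (m + 4 - 2) * (4 * l + 4 - 2) = (m + 2) * (4 * l + 2) := by
              congr 1
            rw [this]
            ring
          rw [e3, e4]
          omega
        rw [e1, e2] at h
        exact h
    -- n odd
    have hodd : Odd n := Nat.odd_iff.mpr (by omega)
    have hn3 : 3 ≤ n := by omega
    have hP := ring_four_odd n hodd hn3
    have hc : Fintype.card (Fin n) = n := Fintype.card_fin n
    rcases Nat.eq_or_lt_of_le hp4 with h4 | h4
    · subst h4
      have hk : kk 4 n = 4 := by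
        rcases hn4 with h | h | h | h
        · omega
        · exact ext_kk_val _ n 2 3 (by omega) (by omega)
        · omega
        · exact ext_kk_val _ n 2 1 (by omega) (by omega)
      rw [hk]
      exact hP.st (by rw [Nat.card_eq_fintype_card, hc]; omega)
    rcases Nat.eq_or_lt_of_le h4 with h5 | h5
    · subst h5
      rcases hn4 with h | h | h | h
      · omega
      · have hk : kk (4 + 1) n = 5 := ext_kk_val _ n 3 3 (by omega) (by omega)
        rw [Nat.succ_eq_add_one, hk]
        exact ext_st_rows (hP.st5 (by rw [hc]; exact h) (by rw [hc]; omega)) (by simp)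
      · omega
      · have hk : kk (4 + 1) n = 3 := ext_kk_val _ n 3 1 (by omega) (by omega)
        rw [Nat.succ_eq_add_one, hk]
        exact ext_st_rows (hP.st3 (by rw [hc]; exact h)) (by simp)
    have h6 : Ex (Fin 6) (Fin n) (fun _ _ => False) :=
      ext_ex_rows (hP.ex2 (by rw [hc]; exact hodd) (by rw [hc]; exact hn3)) (by simp)
    rcases Nat.eq_or_lt_of_le h5 with h7 | h7
    · subst h7
      exact h6.st _
    · have h := glue_St (p1 := 6) (p2 := p - 4) (by omega) (by omega) h6
        (ih (p - 4) (by omega) (by omega))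
      have e1 : 6 + (p - 4) - 2 = p := by omega
      have e2 : kk (p - 4) n = kk p n := kk_congr _ _ _ _ (by omega) hp hn hn (by omega) rfl
      rw [e1, e2] at h
      exact h

theorem extend_ex {N : Type*} [Fintype N] {C : N → N → Prop} {p1 : ℕ} (h1 : 2 ≤ p1)
    (hn : 2 ≤ Fintype.card N) (he : exc p1 (Fintype.card N) = 0) (h : Ex (Fin p1) N C) (p : ℕ)
    (hp : p1 ≤ p) : St (Fin p) N C (kk p (Fintype.card N)) := by
  classical
  have hr := ringel (p - p1 + 2) (Fintype.card N) (by omega) hn
  have hr' : St (Fin (p - p1 + 2)) N (fun _ _ => False) (kk (p - p1 + 2) (Fintype.card N)) :=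
    hr.map (Equiv.refl _) (Fintype.equivFin N).symm (fun _ _ h => h)
  have hg := glue_St h1 (by omega) h hr'
  have e1 : p1 + (p - p1 + 2) - 2 = p := by omega
  have e2 : kk (p - p1 + 2) (Fintype.card N) = kk p (Fintype.card N) := by
    apply ext_kk_eq_of
    set n := Fintype.card N
    have hd : ((p1 - 2) * (n - 2)) % 4 = 0 := by
      have h4 : ((p1 - 2) * (n - 2)) % 4 < 4 := Nat.mod_lt _ (by norm_num)
      unfold exc at he
      omega
    have e3 : (p - 2) * (n - 2) = (p1 - 2) * (n - 2) + (p - p1 + 2 - 2) * (n - 2) := by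
      rw [← Nat.add_mul]
      congr 1
      omega
    rw [e3, Nat.add_mod, hd, Nat.zero_add, Nat.mod_mod]
  rw [e1, e2] at hg
  exact hg

theorem extend_pst {N : Type*} [Fintype N] {C : N → N → Prop} {p1 : ℕ} (h1 : 4 ∣ p1)
    (h1' : 4 ≤ p1) (hn : Odd (Fintype.card N)) (hn3 : 3 ≤ Fintype.card N)
    (h : PSt (Fin p1) N C) (p : ℕ) (hp : p1 ≤ p) :
    St (Fin p) N C (kk p (Fintype.card N)) := by
  classical
  have hn' : Fintype.card N % 2 = 1 := Nat.odd_iff.mp hn
  have hn4 : Fintype.card N % 4 = 1 ∨ Fintype.card N % 4 = 3 := by omega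
  rcases Nat.eq_or_lt_of_le hp with h2 | h2
  · subst h2
    have hk : kk p1 (Fintype.card N) = 4 := by
      rcases hn4 with h | h
      · exact ext_kk_val _ _ 2 3 (by omega) (by omega)
      · exact ext_kk_val _ _ 2 1 (by omega) (by omega)
    rw [hk]
    exact h.st (by rw [Nat.card_eq_fintype_card]; omega)
  rcases Nat.eq_or_lt_of_le h2 with h3 | h3
  · subst h3
    rcases hn4 with h4 | h4
    · have hk : kk (p1 + 1) (Fintype.card N) = 5 := ext_kk_val _ _ 3 3 (by omega) (by omega)
      rw [Nat.succ_eq_add_one, hk]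
      exact ext_st_rows (h.st5 h4 (by omega)) (by simp)
    · have hk : kk (p1 + 1) (Fintype.card N) = 3 := ext_kk_val _ _ 3 1 (by omega) (by omega)
      rw [Nat.succ_eq_add_one, hk]
      exact ext_st_rows (h.st3 h4) (by simp)
  · have h6 : Ex (Fin (p1 + 2)) N C := ext_ex_rows (h.ex2 hn hn3) (by simp)
    refine extend_ex (by omega) (by omega) ?_ h6 p h3
    obtain ⟨m, rfl⟩ := h1
    have e : (4 * m + 2 - 2) * (Fintype.card N - 2) = 4 * (m * (Fintype.card N - 2)) := by
      rw [Nat.add_sub_cancel, Nat.mul_assoc]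
    unfold exc
    rw [e]
    omega

end Pool.Agent.W_MP_43c969_h13
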