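import Pool.Agent.W_MP_43c969_h13.Defs
import Pool.Agent.W_MP_43c969_h13.Basic

/-!
# Task Small: a checker for explicit embeddings given by lists

`d.rho` is the list of the rows, `d.pi` the list of the columns; the columns are numbered
`0, …, q - 1` (the left class) and `q, …, q + r - 1` (the right class). `chkSt` checks that the
rows and the columns are cycles, that at most `k` arcs are bad and that all the pairs `(y, z)` with
`y < q ≤ z` are consecutive in a row. `chkPSt` is the same with all arcs good and two cycles in the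
column `v` (the cycle of `0` and the cycle of `w`).

The soundness proofs: define `Emb (Fin p) (Fin n)` from the lists (`Equiv.ofBijective`, a surjective
map of a finite type is bijective), the cycles from the lists of iterates, and transport by an
equivalence `Fin (q + r) ≃ Fin q ⊕ Fin r` (`finSumFinEquiv`).
-/

set_option autoImplicit false

namespace Pool.Agent.W_MP_43c969_h13

/-- explicit data. -/
structure SD where
  rho : List (List ℕ)
  pi : List (List ℕ)

/-- entry of a list of lists. -/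
def get2 (l : List (List ℕ)) (i j : ℕ) : ℕ := (l.getD i []).getD j 0

/-- the next arc. -/
def SD.phi (d : SD) (a x : ℕ) : ℕ × ℕ :=
  let y := get2 d.rho a x
  (get2 d.pi y a, y)

/-- `f` maps `{0, …, m - 1}` onto itself. -/
def chkPerm (m : ℕ) (f : ℕ → ℕ) : Bool :=
  (List.range m).all (fun i => Nat.blt (f i) m) &&
  (List.range m).all (fun j => (List.range m).any (fun i => Nat.beq (f i) j))

/-- the iterates `s, f s, …` (`m` of them). -/
def iter (f : ℕ → ℕ) : ℕ → ℕ → List ℕ
  | 0, _ => []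
  | m + 1, s => s :: iter f m (f s)

def memN (l : List ℕ) (j : ℕ) : Bool := l.any (fun i => Nat.beq i j)

/-- `f` is one cycle on `{0, …, m - 1}`. -/
def chkCyc (m : ℕ) (f : ℕ → ℕ) : Bool :=
  chkPerm m f && (let l := iter f m 0; (List.range m).all (fun j => memN l j))

/-- `f` has exactly two cycles on `{0, …, m - 1}`, those of `0` and of `w`. -/
def chkTwo (m : ℕ) (f : ℕ → ℕ) (w : ℕ) : Bool :=
  chkPerm m f && Nat.blt w m && Nat.blt 0 m &&
  (let l := iter f m 0; let l' := iter f m w
   !(memN l w) && (List.range m).all (fun j => memN l j || memN l' j))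

def eqPair (e f : ℕ × ℕ) : Bool := Nat.beq e.1 f.1 && Nat.beq e.2 f.2

/-- the arc `(a, x)` is good. -/
def SD.good (d : SD) (a x : ℕ) : Bool :=
  let e := d.phi a x
  eqPair (d.phi e.1 e.2) (a, x)

/-- number of bad arcs. -/
def SD.nbad (d : SD) (p n : ℕ) : ℕ :=
  ((List.range p).map (fun a => ((List.range n).filter (fun x => !(d.good a x))).length)).sum

/-- `x`, `y` are consecutive in a row. -/
def SD.cov (d : SD) (p x y : ℕ) : Bool :=
  (List.range p).any (fun a => Nat.beq (get2 d.rho a x) y || Nat.beq (get2 d.rho a y) x)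

def chkSt (d : SD) (p q r k : ℕ) : Bool :=
  (List.range p).all (fun a => chkCyc (q + r) (get2 d.rho a)) &&
  (List.range (q + r)).all (fun x => chkCyc p (get2 d.pi x)) &&
  Nat.ble (d.nbad p (q + r)) k &&
  (List.range q).all (fun y => (List.range r).all (fun z => d.cov p y (q + z)))

def chkPSt (d : SD) (p q r v w : ℕ) : Bool :=
  (List.range p).all (fun a => chkCyc (q + r) (get2 d.rho a)) &&
  Nat.blt v (q + r) &&
  (List.range (q + r)).all (fun x => Nat.beq x v || chkCyc p (get2 d.pi x)) &&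
  chkTwo p (get2 d.pi v) w &&
  Nat.beq (d.nbad p (q + r)) 0 &&
  (List.range q).all (fun y => (List.range r).all (fun z => d.cov p y (q + z)))

theorem chkPerm_lt {m : ℕ} {f : ℕ → ℕ} (h : chkPerm m f = true) (i : ℕ) (hi : i < m) :
    f i < m := by
  simp only [chkPerm, Bool.and_eq_true, List.all_eq_true, List.mem_range, Nat.blt_eq] at h
  exact h.1 i hi

theorem chkPerm_surj {m : ℕ} {f : ℕ → ℕ} (h : chkPerm m f = true) (j : ℕ) (hj : j < m) :
    ∃ i < m, f i = j := by
  simp only [chkPerm, Bool.and_eq_true, List.all_eq_true, List.mem_range, Nat.blt_eq,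
    List.any_eq_true, Nat.beq_eq] at h
  obtain ⟨i, hi, hij⟩ := h.2 j hj
  exact ⟨i, hi, hij⟩

/-- the permutation of a checked function. -/
noncomputable def mkPm (m : ℕ) (f : ℕ → ℕ) : Equiv.Perm (Fin m) :=
  if h : chkPerm m f = true then
    Equiv.ofBijective (fun i : Fin m => (⟨f i, chkPerm_lt h i i.2⟩ : Fin m))
      (Finite.surjective_iff_bijective.1 (fun j => by
        obtain ⟨i, hi, hij⟩ := chkPerm_surj h j j.2
        exact ⟨⟨i, hi⟩, Fin.ext hij⟩))
  else 1

theorem mkPm_val {m : ℕ} {f : ℕ → ℕ} (h : chkPerm m f = true) (i : Fin m) :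
    ((mkPm m f i : Fin m) : ℕ) = f i := by
  rw [mkPm, dif_pos h]
  rfl

theorem mkPm_pow_val {m : ℕ} {f : ℕ → ℕ} (h : chkPerm m f = true) (n : ℕ) (i : Fin m) :
    (((mkPm m f ^ n) i : Fin m) : ℕ) = f^[n] i := by
  induction n with
  | zero => simp
  | succ n ih =>
    rw [pow_succ', Equiv.Perm.mul_apply, mkPm_val h, ih, Function.iterate_succ_apply']

theorem mem_iter {f : ℕ → ℕ} (m s j : ℕ) : j ∈ iter f m s ↔ ∃ i < m, f^[i] s = j := by
  induction m generalizing s with
  | zero => simp [iter]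
  | succ m ih =>
    rw [iter, List.mem_cons, ih]
    constructor
    · rintro (h | ⟨i, hi, h⟩)
      · exact ⟨0, Nat.succ_pos _, h.symm⟩
      · exact ⟨i + 1, Nat.succ_lt_succ hi, by rw [Function.iterate_succ_apply]; exact h⟩
    · rintro ⟨i, hi, h⟩
      rcases i with _ | i
      · exact Or.inl h.symm
      · exact Or.inr ⟨i, Nat.lt_of_succ_lt_succ hi, by
          rw [Function.iterate_succ_apply] at h; exact h⟩

theorem memN_iff (l : List ℕ) (j : ℕ) : memN l j = true ↔ j ∈ l := by
  rw [memN, List.any_eq_true]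
  constructor
  · rintro ⟨i, hi, h⟩
    rw [Nat.beq_eq] at h
    exact h ▸ hi
  · intro h
    exact ⟨j, h, by rw [Nat.beq_eq]⟩

theorem sameCycle_of_iter {m : ℕ} {f : ℕ → ℕ} (h : chkPerm m f = true) (s j : Fin m)
    (hj : (j : ℕ) ∈ iter f m s) : (mkPm m f).SameCycle s j := by
  obtain ⟨i, _, hi⟩ := (mem_iter m s j).1 hj
  refine ⟨i, ?_⟩
  rw [zpow_natCast]
  apply Fin.ext
  rw [mkPm_pow_val h, hi]

theorem iter_of_sameCycle {m : ℕ} {f : ℕ → ℕ} (h : chkPerm m f = true) (s j : Fin m)
    (hj : (mkPm m f).SameCycle s j) : (j : ℕ) ∈ iter f m s := by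
  classical
  rw [mem_iter]
  by_cases hs : s ∈ (mkPm m f).support
  · obtain ⟨i, hi, hij⟩ := hj.exists_pow_eq_of_mem_support hs
    refine ⟨i, lt_of_lt_of_le hi ?_, ?_⟩
    · have := Finset.card_le_univ (((mkPm m f).cycleOf s).support)
      rwa [Fintype.card_fin] at this
    · rw [← mkPm_pow_val h, hij]
  · refine ⟨0, Fin.pos s, ?_⟩
    have h1 : Function.IsFixedPt (mkPm m f) s := Equiv.Perm.notMem_support.1 hs
    have h2 := hj.eq_of_left h1
    rw [Function.iterate_zero_apply, h2]

theorem chkCyc_perm {m : ℕ} {f : ℕ → ℕ} (h : chkCyc m f = true) : chkPerm m f = true := by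
  simp only [chkCyc, Bool.and_eq_true] at h
  exact h.1

theorem chkCyc_tr {m : ℕ} {f : ℕ → ℕ} (h : chkCyc m f = true) : Tr (mkPm m f) := by
  have h0 := chkCyc_perm h
  simp only [chkCyc, Bool.and_eq_true, List.all_eq_true, List.mem_range, memN_iff] at h
  intro x y
  have hm : 0 < m := Fin.pos x
  have key : ∀ z : Fin m, (mkPm m f).SameCycle ⟨0, hm⟩ z := fun z =>
    sameCycle_of_iter h0 ⟨0, hm⟩ z (h.2 z z.2)
  exact (key x).symm.trans (key y)

theorem chkTwo_perm {m w : ℕ} {f : ℕ → ℕ} (h : chkTwo m f w = true) : chkPerm m f = true := by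
  simp only [chkTwo, Bool.and_eq_true] at h
  exact h.1.1.1

theorem chkTwo_two {m w : ℕ} {f : ℕ → ℕ} (h : chkTwo m f w = true) : Two (mkPm m f) := by
  have h0 := chkTwo_perm h
  simp only [chkTwo, Bool.and_eq_true, List.all_eq_true, List.mem_range, memN_iff,
    Bool.or_eq_true, Nat.blt_eq, Bool.not_eq_true'] at h
  obtain ⟨⟨⟨_, hw⟩, hm⟩, h1, h2⟩ := h
  refine ⟨⟨0, hm⟩, ⟨w, hw⟩, ?_, ?_⟩
  · intro hc
    have h3 := (memN_iff _ _).2 (iter_of_sameCycle h0 _ _ hc)
    rw [h3] at h1
    exact Bool.noConfusion h1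
  · intro c
    rcases h2 c c.2 with h3 | h3
    · exact Or.inl (sameCycle_of_iter h0 ⟨0, hm⟩ c h3).symm
    · exact Or.inr (sameCycle_of_iter h0 ⟨w, hw⟩ c h3).symm

/-- the embedding of the data. -/
noncomputable def SD.emb (d : SD) (p n : ℕ) : Emb (Fin p) (Fin n) where
  rho a := mkPm n (get2 d.rho a)
  pi x := mkPm p (get2 d.pi x)

theorem SD.emb_phi (d : SD) (p n : ℕ) (hr : ∀ a < p, chkPerm n (get2 d.rho a) = true)
    (hc : ∀ x < n, chkPerm p (get2 d.pi x) = true) (a : Fin p) (x : Fin n) :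
    ((((d.emb p n).phi (a, x)).1 : ℕ), (((d.emb p n).phi (a, x)).2 : ℕ)) = d.phi a x := by
  have h1 : (((d.emb p n).rho a x : Fin n) : ℕ) = get2 d.rho a x := mkPm_val (hr a a.2) x
  have h2 : (((d.emb p n).pi ((d.emb p n).rho a x) a : Fin p) : ℕ)
      = get2 d.pi ((d.emb p n).rho a x) a := mkPm_val (hc _ ((d.emb p n).rho a x).2) a
  change ((((d.emb p n).pi ((d.emb p n).rho a x) a : Fin p) : ℕ),
    (((d.emb p n).rho a x : Fin n) : ℕ)) = (get2 d.pi (get2 d.rho a x) a, get2 d.rho a x)
  rw [h2, h1]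

theorem SD.emb_good (d : SD) (p n : ℕ) (hr : ∀ a < p, chkPerm n (get2 d.rho a) = true)
    (hc : ∀ x < n, chkPerm p (get2 d.pi x) = true) (a : Fin p) (x : Fin n)
    (hg : d.good a x = true) : (d.emb p n).Good (a, x) := by
  have h1 := d.emb_phi p n hr hc a x
  have h2 := d.emb_phi p n hr hc ((d.emb p n).phi (a, x)).1 ((d.emb p n).phi (a, x)).2
  simp only [SD.good, eqPair, Bool.and_eq_true, Nat.beq_eq] at hg
  rw [← h1] at hg
  simp only at hg
  rw [← h2] at hg
  simp only at hg
  exact Prod.ext (Fin.ext hg.1) (Fin.ext hg.2)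

theorem small_sum (g : ℕ → ℕ) (p : ℕ) :
    ((List.range p).map g).sum = ∑ a ∈ Finset.range p, g a := by
  induction p with
  | zero => simp
  | succ p ih =>
    rw [List.range_succ, List.map_append, List.sum_append, ih, Finset.sum_range_succ]
    simp

theorem SD.emb_bad (d : SD) (p n : ℕ) (hr : ∀ a < p, chkPerm n (get2 d.rho a) = true)
    (hc : ∀ x < n, chkPerm p (get2 d.pi x) = true) :
    ∃ B : Finset (Fin p × Fin n), B.card ≤ d.nbad p n ∧ ∀ e, e ∉ B → (d.emb p n).Good e := by
  classical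
  refine ⟨Finset.univ.filter (fun e : Fin p × Fin n => d.good e.1 e.2 = false), ?_, ?_⟩
  · have h1 : d.nbad p n = ∑ a ∈ Finset.range p,
        ((Finset.range n).filter (fun x => d.good a x = false)).card := by
      rw [SD.nbad, small_sum]
      apply Finset.sum_congr rfl
      intro a _
      have h2 : ((List.range n).filter (fun x => !(d.good a x))).Nodup :=
        (List.nodup_range).filter _
      rw [← List.toFinset_card_of_nodup h2, List.toFinset_filter, List.toFinset_range]
      congr 1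
      ext x
      simp
    rw [h1]
    have h3 : (Finset.univ.filter (fun e : Fin p × Fin n => d.good e.1 e.2 = false)).card
        = ∑ a : Fin p, (Finset.univ.filter (fun x : Fin n => d.good a x = false)).card := by
      rw [Finset.card_filter, Fintype.sum_prod_type]
      apply Finset.sum_congr rfl
      intro a _
      rw [Finset.card_filter]
    rw [h3, Finset.sum_range]
    apply Finset.sum_le_sum
    intro a _
    rw [Finset.card_filter, Finset.card_filter, Finset.sum_range]
  · intro e he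
    have h4 : d.good e.1 e.2 = true := by
      by_contra h
      apply he
      rw [Finset.mem_filter]
      exact ⟨Finset.mem_univ _, Bool.eq_false_of_not_eq_true h⟩
    exact d.emb_good p n hr hc e.1 e.2 h4

theorem SD.emb_cov (d : SD) (p n : ℕ) (hr : ∀ a < p, chkPerm n (get2 d.rho a) = true)
    (x y : Fin n) (h : d.cov p x y = true) : (d.emb p n).Cov x y := by
  simp only [SD.cov, List.any_eq_true, List.mem_range, Bool.or_eq_true, Nat.beq_eq] at h
  obtain ⟨a, ha, h⟩ := h
  refine ⟨⟨a, ha⟩, ?_⟩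
  rcases h with h | h
  · left
    apply Fin.ext
    rw [← h]
    exact mkPm_val (hr a ha) x
  · right
    apply Fin.ext
    rw [← h]
    exact mkPm_val (hr a ha) y

theorem small_across (q r : ℕ) (x y : Fin q ⊕ Fin r) (h : Across x y) :
    ((finSumFinEquiv.symm.symm x : Fin (q + r)) : ℕ) < q ∧
      q ≤ ((finSumFinEquiv.symm.symm y : Fin (q + r)) : ℕ) := by
  obtain ⟨y', z', rfl, rfl⟩ := h
  rw [Equiv.symm_symm, finSumFinEquiv_apply_left, finSumFinEquiv_apply_right]
  exact ⟨y'.2, Nat.le_add_right _ _⟩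

theorem small_cov (d : SD) (p q r : ℕ)
    (hr : ∀ a < p, chkPerm (q + r) (get2 d.rho a) = true)
    (h : ∀ y < q, ∀ z < r, d.cov p y (q + z) = true) (x y : Fin (q + r))
    (hxy : (x : ℕ) < q ∧ q ≤ (y : ℕ)) : (d.emb p (q + r)).Cov x y := by
  apply d.emb_cov p (q + r) hr
  have h1 := h x hxy.1 ((y : ℕ) - q) (by omega)
  rwa [Nat.add_sub_cancel' hxy.2] at h1

theorem chkSt_sound (d : SD) (p q r k : ℕ) (hp : 1 ≤ p) (hn : 1 ≤ q + r)
    (h : chkSt d p q r k = true) : St (Fin p) (Fin q ⊕ Fin r) Across k := by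
  simp only [chkSt, Bool.and_eq_true, List.all_eq_true, List.mem_range, Nat.ble_eq] at h
  obtain ⟨⟨⟨h1, h2⟩, h3⟩, h4⟩ := h
  have hr : ∀ a < p, chkPerm (q + r) (get2 d.rho a) = true := fun a ha => chkCyc_perm (h1 a ha)
  have hc : ∀ x < q + r, chkPerm p (get2 d.pi x) = true := fun x hx => chkCyc_perm (h2 x hx)
  have key : St (Fin p) (Fin (q + r)) (fun x y => (x : ℕ) < q ∧ q ≤ (y : ℕ)) k := by
    refine ⟨d.emb p (q + r), fun a => chkCyc_tr (h1 a a.2), fun x => chkCyc_tr (h2 x x.2), ?_,
      small_cov d p q r hr h4⟩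
    obtain ⟨B, hB, hB'⟩ := d.emb_bad p (q + r) hr hc
    exact ⟨B, hB.trans h3, hB'⟩
  exact key.map (Equiv.refl _) finSumFinEquiv.symm (small_across q r)

theorem chkPSt_sound (d : SD) (p q r v w : ℕ) (hp : 1 ≤ p) (hn : 1 ≤ q + r)
    (h : chkPSt d p q r v w = true) : PSt (Fin p) (Fin q ⊕ Fin r) Across := by
  simp only [chkPSt, Bool.and_eq_true, List.all_eq_true, List.mem_range, Nat.beq_eq,
    Nat.blt_eq, Bool.or_eq_true] at h
  obtain ⟨⟨⟨⟨⟨h1, hv⟩, h2⟩, h3⟩, h4⟩, h5⟩ := h
  have hr : ∀ a < p, chkPerm (q + r) (get2 d.rho a) = true := fun a ha => chkCyc_perm (h1 a ha)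
  have hc : ∀ x < q + r, chkPerm p (get2 d.pi x) = true := by
    intro x hx
    rcases h2 x hx with h | h
    · rw [h]
      exact chkTwo_perm h3
    · exact chkCyc_perm h
  have key : PSt (Fin p) (Fin (q + r)) (fun x y => (x : ℕ) < q ∧ q ≤ (y : ℕ)) := by
    refine ⟨d.emb p (q + r), ⟨v, hv⟩, fun a => chkCyc_tr (h1 a a.2), ?_, chkTwo_two h3, ?_,
      small_cov d p q r hr h5⟩
    · intro x hx
      rcases h2 x x.2 with h | h
      · exact absurd (Fin.ext h) hx
      · exact chkCyc_tr h
    · obtain ⟨B, hB, hB'⟩ := d.emb_bad p (q + r) hr hc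
      rw [h4] at hB
      have hB0 : B = ∅ := Finset.card_eq_zero.1 (Nat.le_zero.1 hB)
      intro e
      apply hB'
      rw [hB0]
      exact Finset.notMem_empty e
  exact key.map (Equiv.refl _) finSumFinEquiv.symm (small_across q r)

end Pool.Agent.W_MP_43c969_h13
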