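import Pool.Agent.W_MP_43c969_h13.WinDefs
import Pool.Agent.W_MP_43c969_h13.WinBool
import Pool.Agent.W_MP_43c969_h13.WinTab
import Pool.Agent.W_MP_43c969_h13.WinWord
import Pool.Agent.W_MP_43c969_h13.WinCert
import Pool.Agent.W_MP_43c969_h13.WinFace

/-!
# Task WinCertB: the pins, the flags and the face of a table with a certificate

See the text of `WinCert`: `cert_pin`, `cert_nofl`, `cert_face`.
-/

set_option autoImplicit false

namespace Pool.Agent.W_MP_43c969_h13

open Equiv

section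
variable {w : ℕ}

theorem wcb_allF {n : ℕ} {f : Fin n → Bool} (h : allF n f = true) (i : Fin n) : f i = true := by
  unfold allF at h
  rw [List.all_eq_true] at h
  exact h i (List.mem_finRange i)

theorem wcb_allArc {f : Fin 5 ⊕ Fin w → Bool} (h : allArc f = true) (α : Fin 5 ⊕ Fin w) :
    f α = true := by
  unfold allArc at h
  rw [Bool.and_eq_true] at h
  rcases α with s | z
  · exact wcb_allF h.1 s
  · exact wcb_allF h.2 z

theorem wcb_eqArc {e f : ℤ × (Fin 5 ⊕ Fin w)} (h : eqArc e f = true) : e = f := by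
  rcases e with ⟨j, s | s⟩ <;> rcases f with ⟨k, t | t⟩ <;>
    simp only [eqArc, Bool.and_eq_true, decide_eq_true_eq, Bool.false_eq_true, and_false] at h
  · rw [h.1, h.2]
  · rw [h.1, h.2]

theorem wcb_eqArc_self (e : ℤ × (Fin 5 ⊕ Fin w)) : eqArc e e = true := by
  rcases e with ⟨j, s | s⟩ <;> simp [eqArc]

theorem wcb_word (T : Tab w) (q a : ℕ) :
    (∃ r, T.L[a]? = some r ∧ T.word q a = r) ∨
      (T.L[a]? = none ∧ ∃ r, T.Rt[q - a - 1]? = some r ∧ T.word q a = r) ∨
        ∃ i, T.word q a = T.B i := by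
  unfold Tab.word
  rcases h1 : T.L[a]? with _ | r
  · rcases h2 : T.Rt[q - a - 1]? with _ | r
    · right; right
      exact ⟨_, rfl⟩
    · right; left
      exact ⟨rfl, r, rfl, rfl⟩
  · left
    exact ⟨r, rfl, rfl⟩

theorem wcb_zero (T : Tab w) (r : RD w) (l : List (RD w)) (h : T.L = r :: l) (L : ℕ) :
    tabD T L 0 = r := by
  unfold tabD Tab.word
  rw [ZMod.val_zero, h]
  rfl

theorem cert_pin (T : Tab w) (odd : Bool) (cz : Fin w → Bool) (qm : ℕ) (pinned : Bool)
    (h : certB T odd cz qm pinned = true) (L : ℕ) (hL : 1 ≤ L) :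
    (tabD T L 0).pin = pinned ∧ ∀ a, a ≠ 0 → (tabD T L a).pin = false := by
  unfold certB at h
  rw [Bool.and_eq_true] at h
  have hp := h.2
  unfold pinB at hp
  rw [Bool.and_eq_true, Bool.and_eq_true] at hp
  obtain ⟨⟨h1, h2⟩, h3⟩ := hp
  rcases hTL : T.L with _ | ⟨r, l⟩
  · rw [hTL] at h1
    simp at h1
  · rw [hTL] at h1
    simp only [Bool.and_eq_true, beq_iff_eq] at h1
    refine ⟨by rw [wcb_zero T r l hTL]; exact h1.1, ?_⟩
    intro a ha
    have hv : a.val ≠ 0 := fun h0 => ha ((ZMod.val_eq_zero a).1 h0)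
    unfold tabD
    rcases wcb_word T (2 * L + 5) a.val with ⟨r', hr, he⟩ | ⟨-, r', hr, he⟩ | ⟨i, he⟩
    · rw [he]
      rw [hTL] at hr
      obtain ⟨k, hk⟩ := Nat.exists_eq_succ_of_ne_zero hv
      rw [hk, Nat.succ_eq_add_one, List.getElem?_cons_succ] at hr
      have hm : r' ∈ l := List.mem_of_getElem? hr
      have := (List.all_eq_true.1 h1.2) r' hm
      simpa using this
    · rw [he]
      have hm : r' ∈ T.Rt := List.mem_of_getElem? hr
      have := (List.all_eq_true.1 h2) r' hm
      simpa using this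
    · rw [he]
      have := wcb_allF h3 i
      simpa using this

/-- the first row. -/
theorem tabD_zero (T : Tab w) (r : RD w) (l : List (RD w)) (h : T.L = r :: l) (L : ℕ) :
    tabD T L 0 = r := wcb_zero T r l h L

theorem wcb_fget (fl : List (ℤ × (Fin 5 ⊕ Fin w))) (i : ℕ) (hi : i < fl.length) :
    fget fl i = fl[i] := List.getD_eq_getElem fl _ hi

theorem wcb_range {n : ℕ} {f : ℕ → Bool} (h : (List.range n).all f = true) (i : ℕ) (hi : i < n) :
    f i = true := (List.all_eq_true.1 h) i (List.mem_range.2 hi)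

theorem wcb_nextArc (R R' : ℤ → RD w) (e : ℤ × (Fin 5 ⊕ Fin w)) (h : R e.1 = R' e.1) :
    nextArc R e = nextArc R' e := by
  rcases e with ⟨j, s | z⟩
  · simp only at h
    simp only [nextArc, h]
  · simp only at h
    simp only [nextArc, h]

theorem wcb_chain (T : Tab w) (hL : T.L.length ≤ 5) (hR : T.Rt.length ≤ 5) (qm : ℕ)
    (fl : List (ℤ × (Fin 5 ⊕ Fin w))) (h7 : 7 ≤ qm) (h11 : qm ≤ 11)
    (hbd : ∀ i, i < fl.length → -6 ≤ (fget fl i).1 ∧ (fget fl i).1 ≤ 6)
    (hc : (steps4 qm 15).all (fun q => chB T fl q) = true) : ∀ q, qm ≤ q → q % 4 = qm % 4 →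
      ∀ i, i < fl.length →
        nextArc (fun j => T.wordZ q j) (fget fl i) = fget fl ((i + 1) % fl.length) := by
  intro q
  induction q using Nat.strong_induction_on with
  | _ q ih =>
    intro hq hq4 i hi
    by_cases h15 : q ≤ 15
    · have hm : q ∈ steps4 qm 15 := by
        unfold steps4
        rw [List.mem_filter, List.mem_range]
        refine ⟨by omega, ?_⟩
        rw [Bool.and_eq_true, Nat.ble_eq, Nat.beq_eq]
        exact ⟨hq, hq4⟩
      have h1 := (List.all_eq_true.1 hc) q hm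
      unfold chB at h1
      exact wcb_eqArc (wcb_range h1 i hi)
    · have h1 := ih (q - 4) (by omega) (by omega) (by omega) i hi
      rw [← h1]
      apply wcb_nextArc
      have h2 := wordZ_left T hL hR (q - 4) (by omega) (fget fl i).1 (hbd i hi).1 (by
        have := (hbd i hi).2
        have h3 : 12 ≤ q - 4 := by omega
        have h4 : (12 : ℤ) ≤ ((q - 4 : ℕ) : ℤ) := by exact_mod_cast h3
        omega)
      rw [show q - 4 + 4 = q by omega] at h2
      exact h2

theorem cert_face (T : Tab w) (odd : Bool) (cz : Fin w → Bool) (qm : ℕ) (pinned : Bool)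
    (h : certB T odd cz qm pinned = true) (fl : List (ℤ × (Fin 5 ⊕ Fin w)))
    (hf : faceB T qm fl = true) (L : ℕ) (hq : qm ≤ 2 * L + 5)
    (hq4 : (2 * L + 5) % 4 = qm % 4) : FaceOK L (tabD T L) fl := by
  unfold certB at h
  simp only [Bool.and_eq_true] at h
  obtain ⟨⟨⟨⟨⟨-, -⟩, hstd⟩, -⟩, -⟩, -⟩ := h
  have hS := stdB_sound T hstd
  unfold faceB at hf
  simp only [Bool.and_eq_true, Nat.ble_eq] at hf
  obtain ⟨⟨⟨h7, h11⟩, hfl⟩, hch⟩ := hf
  unfold flB at hfl
  simp only [Bool.and_eq_true, Nat.ble_eq, decide_eq_true_eq] at hfl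
  obtain ⟨⟨⟨⟨⟨⟨f1, f2⟩, f3⟩, f4⟩, f5⟩, f6⟩, f7⟩ := hfl
  have hbd : ∀ i, i < fl.length → -6 ≤ (fget fl i).1 ∧ (fget fl i).1 ≤ 6 := by
    intro i hi
    have := wcb_range f4 i hi
    simpa [bd6] using this
  have hpair : ∀ i i', i < fl.length → i' < fl.length →
      (i = i' ∨ fget fl i ≠ fget fl i') ∧ (fget fl i).1 - (fget fl i').1 ≤ 6 := by
    intro i i' hi hi'
    have h1 := wcb_range (wcb_range f3 i hi) i' hi'
    rw [Bool.and_eq_true, Bool.or_eq_true, Nat.beq_eq, decide_eq_true_eq] at h1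
    refine ⟨?_, h1.2⟩
    rcases h1.1 with h2 | h2
    · exact Or.inl h2
    · right
      intro h3
      rw [h3, wcb_eqArc_self] at h2
      simp at h2
  refine ⟨f1, f2, ?_, ?_, ?_, ?_⟩
  · intro i hi
    have h1 := wcb_chain T hS.hL hS.hR qm fl h7 h11 hbd hch (2 * L + 5) hq hq4 i hi
    rw [← h1]
    apply wcb_nextArc
    exact tabD_cast T L _
  · rw [List.nodup_iff_injective_getElem]
    intro i i' he
    simp only at he
    rcases (hpair i i' i.2 i'.2).1 with h1 | h1
    · exact Fin.ext h1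
    · rw [wcb_fget fl i i.2, wcb_fget fl i' i'.2] at h1
      exact absurd he h1
  · intro e he e' he'
    obtain ⟨i, hi, rfl⟩ := List.mem_iff_getElem.1 he
    obtain ⟨i', hi', rfl⟩ := List.mem_iff_getElem.1 he'
    have := (hpair i i' hi hi').2
    rwa [wcb_fget fl i hi, wcb_fget fl i' hi'] at this
  · intro a α ha
    unfold tabD at ha
    rcases wcb_word T (2 * L + 5) a.val with ⟨r', hr, he⟩ | ⟨-, r', hr, he⟩ | ⟨i, he⟩
    · rw [he] at ha
      have hlt : a.val < T.L.length := (List.getElem?_eq_some_iff.1 hr).1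
      have h1 := wcb_range f5 a.val hlt
      rw [hr] at h1
      have h2 := wcb_allArc h1 α
      rw [ha, Bool.or_eq_true] at h2
      rcases h2 with h2 | h2
      · simp at h2
      · unfold inFl at h2
        rw [List.any_eq_true] at h2
        obtain ⟨e, he1, he2⟩ := h2
        have he3 := wcb_eqArc he2
        refine ⟨e, he1, ?_, ?_⟩
        · rw [he3]
          simp
        · rw [he3]
    · rw [he] at ha
      have hlt : 2 * L + 5 - a.val - 1 < T.Rt.length := (List.getElem?_eq_some_iff.1 hr).1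
      have h1 := wcb_range f6 (2 * L + 5 - a.val - 1) hlt
      rw [hr] at h1
      have h2 := wcb_allArc h1 α
      rw [ha, Bool.or_eq_true] at h2
      rcases h2 with h2 | h2
      · simp at h2
      · unfold inFl at h2
        rw [List.any_eq_true] at h2
        obtain ⟨e, he1, he2⟩ := h2
        have he3 := wcb_eqArc he2
        refine ⟨e, he1, ?_, ?_⟩
        · rw [he3]
          have hlt2 : a.val < 2 * L + 5 := ZMod.val_lt a
          have h4 : (-1 - ((2 * L + 5 - a.val - 1 : ℕ) : ℤ)) =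
              (a.val : ℤ) - ((2 * L + 5 : ℕ) : ℤ) := by
            omega
          rw [h4, Int.cast_sub, Int.cast_natCast, Int.cast_natCast, ZMod.natCast_self, sub_zero,
            ZMod.natCast_zmod_val]
        · rw [he3]
    · rw [he] at ha
      have h1 := wcb_allArc (wcb_allF f7 i) α
      rw [ha] at h1
      simp at h1

theorem cert_nofl (T : Tab w) (h : noflB T = true) (L : ℕ) (a : ZMod (2 * L + 5))
    (α : Fin 5 ⊕ Fin w) : (tabD T L a).flag α = false := by
  unfold noflB at h
  rw [Bool.and_eq_true, Bool.and_eq_true] at h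
  obtain ⟨⟨h1, h2⟩, h3⟩ := h
  unfold tabD
  rcases wcb_word T (2 * L + 5) a.val with ⟨r', hr, he⟩ | ⟨-, r', hr, he⟩ | ⟨i, he⟩
  · rw [he]
    have := wcb_allArc ((List.all_eq_true.1 h1) r' (List.mem_of_getElem? hr)) α
    simpa using this
  · rw [he]
    have := wcb_allArc ((List.all_eq_true.1 h2) r' (List.mem_of_getElem? hr)) α
    simpa using this
  · rw [he]
    have := wcb_allArc (wcb_allF h3 i) α
    simpa using this

end

end Pool.Agent.W_MP_43c969_h13
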