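import Pool.Agent.W_MP_43c969_h13.Basic
import Pool.Agent.W_MP_43c969_h13.WinEmb

/-!
# Task WinColTr: the columns of the vertices

Fix the vertex `y`, `π = (winEmb h).pi (inl y)`. A row is written `a = y - τ` with `τ` a target
value: `τ = tgtOff t`, or `τ = 4 + 2 i` (up), or `τ = -6 - 2 i` (down), `i < L` (`tgt_cases` applied to
`a`, `y`). Denote by `t` (`t : Fin 5`) the row `y - tgtOff t`, by `U_i`, `V_i` the rows
`y - (4 + 2 i)`, `y - (-6 - 2 i)` for `0 ≤ i < L`.
1. `π` sends the row `t` to `y - srcOff s`, `s = (D (y - tgtOff t)).cs t` (`pi_tgt`). If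
   `s = 2, 3, 4`, this is the row of index `s` (`srcOff s = tgtOff s`). If `s = 0`, the row is `y + 3`,
   which is `U_{L-1}` (`-3 = 4 + 2 (L - 1)` modulo `q`). If `s = 1`, the row is `y - 1 = V_{L-1}`.
2. `π U_i = y - (2 + 2 i)` if `i < c`: this is `U_{i-1}` if `i ≥ 1` and the row of index `1` if
   `i = 0`. `π U_i = y - (-4 - 2 i)` if `i ≥ c`: this is `V_{i-1}` if `i ≥ 1` and the row of index `0`
   if `i = 0`. Symmetrically `π V_i` is `V_{i-1}` (or the index `0`) if `i < c` and `U_{i-1}` (or the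
   index `1`) if `i ≥ c` (`pi_up_lt`, `pi_up_ge`, `pi_dn_lt`, `pi_dn_ge`).
3. Hence from `U_{L-1}` one follows `L - c` exchanges of the side and then goes down: if `L - c` is
   even one arrives at the index `1`, if it is odd at the index `0`; from `V_{L-1}` the opposite. By
   `par`, the row `t` is in the same cycle as the row of index `colStep odd R t`, with
   `R j = D (y + j)` (`colStep` uses `R (-(tgtOff t)) = D (y - tgtOff t)`).
   All the `U_i`, `V_i` are on these two paths.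
4. With `col_cyc` all the rows are in the cycle of the index `0`. With `col_two`: the cycles of
   the indices `0` and `j0` cover everything; to see that they are different define the class of a
   row: the class of `t` is `A` if `t` is in the orbit of `0` under `colStep odd R` and `B` if not;
   the class of `U_i`, `V_i` is the class of the end of the path from this row (if `i < c`, the side
   does not change anymore: `U_i` ends at the index `1`, `V_i` at `0`; if `i ≥ c` the side is changed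
   `i + 1 - c` times). The class is invariant under `π`.
   (A possible formulation: define `f : ZMod q → Fin 5` with `f (row t) = t`,
   `f U_i = ` the end of the path; then `f (π a) = f a` for `a = U_i, V_i` and
   `f (π (row t)) = colStep odd R t`.)
-/

set_option autoImplicit false

namespace Pool.Agent.W_MP_43c969_h13

open Equiv

section
variable {w L c : ℕ} {odd : Bool} {cz : Fin w → Bool} {D : ZMod (2 * L + 5) → RD w}

/-- The end of the path of a coordinate. -/
def wctEnd (L c : ℕ) : Fin 5 ⊕ (Fin L ⊕ Fin L) → Fin 5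
  | Sum.inl t => t
  | Sum.inr (Sum.inl i) => if (i.val + 1 - c) % 2 = 0 then 1 else 0
  | Sum.inr (Sum.inr i) => if (i.val + 1 - c) % 2 = 0 then 0 else 1

/-- The retraction. -/
noncomputable def wctF (L c : ℕ) (hL : 1 ≤ L) (y a : ZMod (2 * L + 5)) : Fin 5 :=
  wctEnd L c ((tgtE L hL).symm (y - a))

theorem wctF_t (hL : 1 ≤ L) (y : ZMod (2 * L + 5)) (t : Fin 5) :
    wctF L c hL y (y - ((tgtOff t : ℤ) : ZMod (2 * L + 5))) = t := by
  have h1 : y - (y - ((tgtOff t : ℤ) : ZMod (2 * L + 5))) = tgtVal L (Sum.inl t) := by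
    show _ = ((tgtOff t : ℤ) : ZMod (2 * L + 5))
    ring
  unfold wctF
  rw [h1, tgtE_symm_val]
  rfl

theorem wctF_u (hL : 1 ≤ L) (y : ZMod (2 * L + 5)) (i : ℕ) (hi : i < L) :
    wctF L c hL y (y - (4 + 2 * (i : ZMod (2 * L + 5)))) =
      if (i + 1 - c) % 2 = 0 then 1 else 0 := by
  have h1 : y - (y - (4 + 2 * (i : ZMod (2 * L + 5)))) =
      tgtVal L (Sum.inr (Sum.inl ⟨i, hi⟩)) := by
    show _ = ((4 + 2 * (i : ℤ) : ℤ) : ZMod (2 * L + 5))
    push_cast
    ring
  unfold wctF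
  rw [h1, tgtE_symm_val]
  rfl

theorem wctF_v (hL : 1 ≤ L) (y : ZMod (2 * L + 5)) (i : ℕ) (hi : i < L) :
    wctF L c hL y (y - (-6 - 2 * (i : ZMod (2 * L + 5)))) =
      if (i + 1 - c) % 2 = 0 then 0 else 1 := by
  have h1 : y - (y - (-6 - 2 * (i : ZMod (2 * L + 5)))) =
      tgtVal L (Sum.inr (Sum.inr ⟨i, hi⟩)) := by
    show _ = ((-6 - 2 * (i : ℤ) : ℤ) : ZMod (2 * L + 5))
    push_cast
    ring
  unfold wctF
  rw [h1, tgtE_symm_val]
  rfl

/-- the step at a row with target index `t`. -/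
theorem wct_pi_t (h : WOK L c odd cz D) (y : ZMod (2 * L + 5)) (t : Fin 5) :
    (winEmb h).pi (Sum.inl y) (y - ((tgtOff t : ℤ) : ZMod (2 * L + 5))) =
      y - ((srcOff ((D (y - ((tgtOff t : ℤ) : ZMod (2 * L + 5)))).cs t) : ℤ) :
        ZMod (2 * L + 5)) := by
  have h1 := pi_tgt h (y - ((tgtOff t : ℤ) : ZMod (2 * L + 5))) t
  rw [sub_add_cancel] at h1
  rw [h1]
  push_cast
  ring

theorem wct_pi_u_lt (h : WOK L c odd cz D) (y : ZMod (2 * L + 5)) (i : ℕ) (hi : i < c) :
    (winEmb h).pi (Sum.inl y) (y - (4 + 2 * (i : ZMod (2 * L + 5)))) =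
      y - (2 + 2 * (i : ZMod (2 * L + 5))) := by
  have h1 := pi_up_lt h (y - (4 + 2 * (i : ZMod (2 * L + 5)))) i hi
  rw [sub_add_cancel] at h1
  rw [h1]
  ring

theorem wct_pi_u_ge (h : WOK L c odd cz D) (y : ZMod (2 * L + 5)) (i : ℕ) (hi : c ≤ i)
    (hi' : i < L) :
    (winEmb h).pi (Sum.inl y) (y - (4 + 2 * (i : ZMod (2 * L + 5)))) =
      y - (-4 - 2 * (i : ZMod (2 * L + 5))) := by
  have h1 := pi_up_ge h (y - (4 + 2 * (i : ZMod (2 * L + 5)))) i hi hi'
  rw [sub_add_cancel] at h1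
  rw [h1]
  ring

theorem wct_pi_v_lt (h : WOK L c odd cz D) (y : ZMod (2 * L + 5)) (i : ℕ) (hi : i < c) :
    (winEmb h).pi (Sum.inl y) (y - (-6 - 2 * (i : ZMod (2 * L + 5)))) =
      y - (-4 - 2 * (i : ZMod (2 * L + 5))) := by
  have h1 := pi_dn_lt h (y - (-6 - 2 * (i : ZMod (2 * L + 5)))) i hi
  rw [sub_add_cancel] at h1
  rw [h1]
  ring

theorem wct_pi_v_ge (h : WOK L c odd cz D) (y : ZMod (2 * L + 5)) (i : ℕ) (hi : c ≤ i)
    (hi' : i < L) :
    (winEmb h).pi (Sum.inl y) (y - (-6 - 2 * (i : ZMod (2 * L + 5)))) =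
      y - (2 + 2 * (i : ZMod (2 * L + 5))) := by
  have h1 := pi_dn_ge h (y - (-6 - 2 * (i : ZMod (2 * L + 5)))) i hi hi'
  rw [sub_add_cancel] at h1
  rw [h1]
  ring

/-- `y - (2 + 2 i)` is the row before `U_i`. -/
theorem wct_dec_u (y : ZMod (2 * L + 5)) :
    y - (2 + 2 * ((0 : ℕ) : ZMod (2 * L + 5))) = y - ((tgtOff 1 : ℤ) : ZMod (2 * L + 5)) := by
  simp [tgtOff]

theorem wct_dec_u' (y : ZMod (2 * L + 5)) (i : ℕ) :
    y - (2 + 2 * ((i + 1 : ℕ) : ZMod (2 * L + 5))) = y - (4 + 2 * (i : ZMod (2 * L + 5))) := by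
  push_cast
  ring

theorem wct_dec_v (y : ZMod (2 * L + 5)) :
    y - (-4 - 2 * ((0 : ℕ) : ZMod (2 * L + 5))) = y - ((tgtOff 0 : ℤ) : ZMod (2 * L + 5)) := by
  simp [tgtOff]

theorem wct_dec_v' (y : ZMod (2 * L + 5)) (i : ℕ) :
    y - (-4 - 2 * ((i + 1 : ℕ) : ZMod (2 * L + 5))) = y - (-6 - 2 * (i : ZMod (2 * L + 5))) := by
  push_cast
  ring

/-- the value of the retraction at the two rows before `U_i`, `V_i`. -/
theorem wctF_pu (hL : 1 ≤ L) (y : ZMod (2 * L + 5)) (i : ℕ) (hi : i < L) :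
    wctF L c hL y (y - (2 + 2 * (i : ZMod (2 * L + 5)))) =
      if (i - c) % 2 = 0 then 1 else 0 := by
  rcases i with _ | i
  · rw [wct_dec_u, wctF_t]
    simp
  · rw [wct_dec_u', wctF_u hL y i (by omega)]

theorem wctF_pv (hL : 1 ≤ L) (y : ZMod (2 * L + 5)) (i : ℕ) (hi : i < L) :
    wctF L c hL y (y - (-4 - 2 * (i : ZMod (2 * L + 5)))) =
      if (i - c) % 2 = 0 then 0 else 1 := by
  rcases i with _ | i
  · rw [wct_dec_v, wctF_t]
    simp
  · rw [wct_dec_v', wctF_v hL y i (by omega)]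

/-- the retraction does not change along the lanes. -/
theorem wct_inv_u (h : WOK L c odd cz D) (y : ZMod (2 * L + 5)) (i : ℕ) (hi : i < L) :
    wctF L c h.hL y ((winEmb h).pi (Sum.inl y) (y - (4 + 2 * (i : ZMod (2 * L + 5))))) =
      wctF L c h.hL y (y - (4 + 2 * (i : ZMod (2 * L + 5)))) := by
  rw [wctF_u h.hL y i hi]
  rcases lt_or_ge i c with hc | hc
  · rw [wct_pi_u_lt h y i hc, wctF_pu h.hL y i hi]
    have h1 : (i - c) % 2 = 0 := by omega
    have h2 : (i + 1 - c) % 2 = 0 := by omega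
    rw [if_pos h1, if_pos h2]
  · rw [wct_pi_u_ge h y i hc hi, wctF_pv h.hL y i hi]
    by_cases h1 : (i - c) % 2 = 0
    · have h2 : ¬ (i + 1 - c) % 2 = 0 := by omega
      rw [if_pos h1, if_neg h2]
    · have h2 : (i + 1 - c) % 2 = 0 := by omega
      rw [if_neg h1, if_pos h2]

theorem wct_inv_v (h : WOK L c odd cz D) (y : ZMod (2 * L + 5)) (i : ℕ) (hi : i < L) :
    wctF L c h.hL y ((winEmb h).pi (Sum.inl y) (y - (-6 - 2 * (i : ZMod (2 * L + 5))))) =
      wctF L c h.hL y (y - (-6 - 2 * (i : ZMod (2 * L + 5)))) := by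
  rw [wctF_v h.hL y i hi]
  rcases lt_or_ge i c with hc | hc
  · rw [wct_pi_v_lt h y i hc, wctF_pv h.hL y i hi]
    have h1 : (i - c) % 2 = 0 := by omega
    have h2 : (i + 1 - c) % 2 = 0 := by omega
    rw [if_pos h1, if_pos h2]
  · rw [wct_pi_v_ge h y i hc hi, wctF_pu h.hL y i hi]
    by_cases h1 : (i - c) % 2 = 0
    · have h2 : ¬ (i + 1 - c) % 2 = 0 := by omega
      rw [if_pos h1, if_neg h2]
    · have h2 : (i + 1 - c) % 2 = 0 := by omega
      rw [if_neg h1, if_pos h2]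

/-- a row and its image are in the same cycle. -/
theorem wct_step {X : Type*} (σ : Perm X) (a b : X) (hb : σ a = b) : σ.SameCycle a b :=
  ⟨1, by rw [zpow_one, hb]⟩

theorem wct_same (h : WOK L c odd cz D) (y : ZMod (2 * L + 5)) (i : ℕ) (hi : i < L) :
    ((winEmb h).pi (Sum.inl y)).SameCycle (y - (4 + 2 * (i : ZMod (2 * L + 5))))
      (y - ((tgtOff (wctF L c h.hL y (y - (4 + 2 * (i : ZMod (2 * L + 5))))) : ℤ) :
        ZMod (2 * L + 5))) ∧
    ((winEmb h).pi (Sum.inl y)).SameCycle (y - (-6 - 2 * (i : ZMod (2 * L + 5))))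
      (y - ((tgtOff (wctF L c h.hL y (y - (-6 - 2 * (i : ZMod (2 * L + 5))))) : ℤ) :
        ZMod (2 * L + 5))) := by
  induction i with
  | zero =>
    constructor
    · rw [← wct_inv_u h y 0 hi]
      have key : (winEmb h).pi (Sum.inl y) (y - (4 + 2 * ((0 : ℕ) : ZMod (2 * L + 5)))) =
          y - ((tgtOff 1 : ℤ) : ZMod (2 * L + 5)) ∨
          (winEmb h).pi (Sum.inl y) (y - (4 + 2 * ((0 : ℕ) : ZMod (2 * L + 5)))) =
          y - ((tgtOff 0 : ℤ) : ZMod (2 * L + 5)) := by
        rcases lt_or_ge 0 c with hc | hc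
        · left
          rw [wct_pi_u_lt h y 0 hc, wct_dec_u]
        · right
          rw [wct_pi_u_ge h y 0 hc hi, wct_dec_v]
      rcases key with h1 | h1
      · rw [h1, wctF_t]
        exact wct_step _ _ _ h1
      · rw [h1, wctF_t]
        exact wct_step _ _ _ h1
    · rw [← wct_inv_v h y 0 hi]
      have key : (winEmb h).pi (Sum.inl y) (y - (-6 - 2 * ((0 : ℕ) : ZMod (2 * L + 5)))) =
          y - ((tgtOff 1 : ℤ) : ZMod (2 * L + 5)) ∨
          (winEmb h).pi (Sum.inl y) (y - (-6 - 2 * ((0 : ℕ) : ZMod (2 * L + 5)))) =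
          y - ((tgtOff 0 : ℤ) : ZMod (2 * L + 5)) := by
        rcases lt_or_ge 0 c with hc | hc
        · right
          rw [wct_pi_v_lt h y 0 hc, wct_dec_v]
        · left
          rw [wct_pi_v_ge h y 0 hc hi, wct_dec_u]
      rcases key with h1 | h1
      · rw [h1, wctF_t]
        exact wct_step _ _ _ h1
      · rw [h1, wctF_t]
        exact wct_step _ _ _ h1
  | succ i ih =>
    obtain ⟨ih1, ih2⟩ := ih (by omega)
    constructor
    · rw [← wct_inv_u h y (i + 1) hi]
      rcases lt_or_ge (i + 1) c with hc | hc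
      · have h1 := wct_pi_u_lt h y (i + 1) hc
        rw [wct_dec_u'] at h1
        rw [h1]
        exact (wct_step _ _ _ h1).trans ih1
      · have h1 := wct_pi_u_ge h y (i + 1) hc hi
        rw [wct_dec_v'] at h1
        rw [h1]
        exact (wct_step _ _ _ h1).trans ih2
    · rw [← wct_inv_v h y (i + 1) hi]
      rcases lt_or_ge (i + 1) c with hc | hc
      · have h1 := wct_pi_v_lt h y (i + 1) hc
        rw [wct_dec_v'] at h1
        rw [h1]
        exact (wct_step _ _ _ h1).trans ih2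
      · have h1 := wct_pi_v_ge h y (i + 1) hc hi
        rw [wct_dec_u'] at h1
        rw [h1]
        exact (wct_step _ _ _ h1).trans ih1

/-- Every row has one of the three shapes. -/
theorem wct_cases (hL : 1 ≤ L) (y a : ZMod (2 * L + 5)) :
    (∃ t : Fin 5, a = y - ((tgtOff t : ℤ) : ZMod (2 * L + 5))) ∨
    (∃ i : ℕ, i < L ∧ a = y - (4 + 2 * (i : ZMod (2 * L + 5)))) ∨
    (∃ i : ℕ, i < L ∧ a = y - (-6 - 2 * (i : ZMod (2 * L + 5)))) := by
  rcases tgt_cases hL a y with ⟨t, ht⟩ | ⟨i, hi, ht⟩ | ⟨i, hi, ht⟩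
  · left
    exact ⟨t, by rw [ht]; ring⟩
  · right
    left
    exact ⟨i, hi, by rw [ht]; ring⟩
  · right
    right
    exact ⟨i, hi, by rw [ht]; ring⟩

/-- the step on the indices. -/
theorem wct_colStep (h : WOK L c odd cz D) (y : ZMod (2 * L + 5)) (t : Fin 5) :
    wctF L c h.hL y
      ((winEmb h).pi (Sum.inl y) (y - ((tgtOff t : ℤ) : ZMod (2 * L + 5)))) =
        colStep odd (fun j : ℤ => D (y + (j : ZMod (2 * L + 5)))) t := by
  rw [wct_pi_t h y t]
  have hD : D (y - ((tgtOff t : ℤ) : ZMod (2 * L + 5))) =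
      (fun j : ℤ => D (y + (j : ZMod (2 * L + 5)))) (-(tgtOff t)) := by
    show _ = D (y + ((-(tgtOff t) : ℤ) : ZMod (2 * L + 5)))
    congr 1
    push_cast
    ring
  unfold colStep
  rw [hD]
  generalize ((fun j : ℤ => D (y + (j : ZMod (2 * L + 5)))) (-(tgtOff t))).cs t = s
  have hL := h.hL
  have hpar := h.par
  have hq := winCoord_hq L
  have hLc : ((L - 1 : ℕ) : ZMod (2 * L + 5)) = (L : ZMod (2 * L + 5)) - 1 := by
    rw [Nat.cast_sub hL]
    norm_num
  by_cases h0 : s = 0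
  · subst h0
    have e1 : y - ((srcOff 0 : ℤ) : ZMod (2 * L + 5)) =
        y - (4 + 2 * ((L - 1 : ℕ) : ZMod (2 * L + 5))) := by
      rw [hLc]
      have e2 : ((srcOff 0 : ℤ) : ZMod (2 * L + 5)) = -3 := by simp [srcOff]
      rw [e2]
      linear_combination hq
    rw [e1, wctF_u hL y (L - 1) (by omega)]
    have e3 : L - 1 + 1 - c = L - c := by omega
    rw [e3, hpar]
    cases odd
    · simp [sw01]
    · simp
  by_cases h1 : s = 1
  · subst h1
    have e1 : y - ((srcOff 1 : ℤ) : ZMod (2 * L + 5)) =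
        y - (-6 - 2 * ((L - 1 : ℕ) : ZMod (2 * L + 5))) := by
      rw [hLc]
      have e2 : ((srcOff 1 : ℤ) : ZMod (2 * L + 5)) = 1 := by simp [srcOff]
      rw [e2]
      linear_combination -hq
    rw [e1, wctF_v hL y (L - 1) (by omega)]
    have e3 : L - 1 + 1 - c = L - c := by omega
    rw [e3, hpar]
    cases odd
    · simp [sw01]
    · simp
  · have e1 : srcOff s = tgtOff s := by
      fin_cases s
      · exact absurd rfl h0
      · exact absurd rfl h1
      · rfl
      · rfl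
      · rfl
    rw [e1, wctF_t]
    have e2 : sw01 s = s := by
      unfold sw01
      rw [if_neg h0, if_neg h1]
    show s = if odd then s else sw01 s
    rw [e2, ite_self]

/-- The retraction of the column on the indices of the targets. -/
theorem col_retract (h : WOK L c odd cz D) (y : ZMod (2 * L + 5)) :
    ∃ f : ZMod (2 * L + 5) → Fin 5,
      (∀ t : Fin 5, f (y - ((tgtOff t : ℤ) : ZMod (2 * L + 5))) = t) ∧
      (∀ a, ((winEmb h).pi (Sum.inl y)).SameCycle a
        (y - ((tgtOff (f a) : ℤ) : ZMod (2 * L + 5)))) ∧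
      (∀ a, (∀ t : Fin 5, a ≠ y - ((tgtOff t : ℤ) : ZMod (2 * L + 5))) →
        f ((winEmb h).pi (Sum.inl y) a) = f a) ∧
      (∀ t : Fin 5, f ((winEmb h).pi (Sum.inl y) (y - ((tgtOff t : ℤ) : ZMod (2 * L + 5)))) =
        colStep odd (fun j : ℤ => D (y + (j : ZMod (2 * L + 5)))) t) := by
  refine ⟨wctF L c h.hL y, wctF_t h.hL y, ?_, ?_, wct_colStep h y⟩
  · intro a
    rcases wct_cases h.hL y a with ⟨t, rfl⟩ | ⟨i, hi, rfl⟩ | ⟨i, hi, rfl⟩
    · rw [wctF_t]
    · exact (wct_same h y i hi).1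
    · exact (wct_same h y i hi).2
  · intro a ha
    rcases wct_cases h.hL y a with ⟨t, rfl⟩ | ⟨i, hi, rfl⟩ | ⟨i, hi, rfl⟩
    · exact absurd rfl (ha t)
    · exact wct_inv_u h y i hi
    · exact wct_inv_v h y i hi

/-- For a pinched column: two rows `y - tgtOff t`, `y - tgtOff t'` are in the same cycle iff the
indices are in the same cycle of `colStep`. -/
theorem win_col_same (h : WOK L c odd cz D) (y : ZMod (2 * L + 5)) (t t' : Fin 5)
    (k : ℕ) (hk : (colStep odd (fun j : ℤ => D (y + (j : ZMod (2 * L + 5)))))^[k] t = t') :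
    ((winEmb h).pi (Sum.inl y)).SameCycle (y - ((tgtOff t : ℤ) : ZMod (2 * L + 5)))
      (y - ((tgtOff t' : ℤ) : ZMod (2 * L + 5))) := by
  obtain ⟨f, hf1, hf2, hf3, hf4⟩ := col_retract h y
  induction k generalizing t with
  | zero =>
    have h1 : t = t' := hk
    rw [h1]
  | succ k ih =>
    rw [Function.iterate_succ_apply] at hk
    refine Equiv.Perm.SameCycle.trans ?_ (ih _ hk)
    rw [← hf4 t]
    exact (wct_step _ _ _ rfl).trans (hf2 _)

theorem win_colTr (h : WOK L c odd cz D) (y : ZMod (2 * L + 5)) (hp : (D y).pin = false) :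
    Tr ((winEmb h).pi (Sum.inl y)) := by
  obtain ⟨f, hf1, hf2, hf3, hf4⟩ := col_retract h y
  have hD : ((fun j : ℤ => D (y + (j : ZMod (2 * L + 5)))) 0).pin = false := by
    show (D (y + ((0 : ℤ) : ZMod (2 * L + 5)))).pin = false
    rw [Int.cast_zero, add_zero]
    exact hp
  have hc := (h.loc y).col_cyc hD
  have h0 : ∀ a, ((winEmb h).pi (Sum.inl y)).SameCycle (y - ((tgtOff 0 : ℤ) : ZMod (2 * L + 5)))
      a := by
    intro a
    obtain ⟨k, -, hk⟩ := hc (f a)
    exact (win_col_same h y 0 (f a) k hk).trans (hf2 a).symm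
  intro a b
  exact (h0 a).symm.trans (h0 b)

/-- The orbit of a point of `Fin 5` is reached in less than `5` steps. -/
theorem wct_orbit (g : Fin 5 → Fin 5) (x : Fin 5) (k : ℕ) : ∃ m, m < 5 ∧ g^[m] x = g^[k] x := by
  have hp : ∃ i j : ℕ, i < j ∧ j ≤ 5 ∧ g^[i] x = g^[j] x := by
    obtain ⟨i, j, hij, he⟩ := Fintype.exists_ne_map_eq_of_card_lt
      (fun i : Fin 6 => g^[i.val] x) (by simp)
    have hne : i.val ≠ j.val := fun h1 => hij (Fin.ext h1)
    have hi := i.isLt
    have hj := j.isLt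
    rcases lt_or_gt_of_ne hne with h1 | h1
    · exact ⟨i.val, j.val, h1, by omega, he⟩
    · exact ⟨j.val, i.val, h1, by omega, he.symm⟩
  obtain ⟨i, j, hij, hj, he⟩ := hp
  induction k using Nat.strong_induction_on with
  | _ k ih =>
    rcases lt_or_ge k 5 with hk | hk
    · exact ⟨k, hk, rfl⟩
    · obtain ⟨m, hm, hm'⟩ := ih (k - j + i) (by omega)
      refine ⟨m, hm, ?_⟩
      rw [hm', Function.iterate_add_apply, he, ← Function.iterate_add_apply]
      congr 2
      omega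

theorem win_colTwo (h : WOK L c odd cz D) (y : ZMod (2 * L + 5)) (hp : (D y).pin = true) :
    Two ((winEmb h).pi (Sum.inl y)) := by
  obtain ⟨f, hf1, hf2, hf3, hf4⟩ := col_retract h y
  have hD : ((fun j : ℤ => D (y + (j : ZMod (2 * L + 5)))) 0).pin = true := by
    show (D (y + ((0 : ℤ) : ZMod (2 * L + 5)))).pin = true
    rw [Int.cast_zero, add_zero]
    exact hp
  obtain ⟨j0, hj0, hj1⟩ := (h.loc y).col_two hD
  have hfin : NeZero (2 * L + 5) := ⟨by omega⟩
  refine ⟨y - ((tgtOff 0 : ℤ) : ZMod (2 * L + 5)), y - ((tgtOff j0 : ℤ) : ZMod (2 * L + 5)),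
    ?_, ?_⟩
  · intro hs
    obtain ⟨n, hn⟩ := hs.exists_nat_pow_eq
    have inv : ∀ m : ℕ, ∃ k : ℕ, (colStep odd (fun j : ℤ => D (y + (j : ZMod (2 * L + 5)))))^[k] 0 =
        f ((((winEmb h).pi (Sum.inl y)) ^ m) (y - ((tgtOff 0 : ℤ) : ZMod (2 * L + 5)))) := by
      intro m
      induction m with
      | zero => exact ⟨0, by rw [pow_zero, Equiv.Perm.one_apply, hf1]; rfl⟩
      | succ m ih =>
        obtain ⟨k, hk⟩ := ih
        rw [pow_succ', Equiv.Perm.mul_apply]
        by_cases ha : ∃ t : Fin 5, (((winEmb h).pi (Sum.inl y)) ^ m)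
            (y - ((tgtOff 0 : ℤ) : ZMod (2 * L + 5))) =
              y - ((tgtOff t : ℤ) : ZMod (2 * L + 5))
        · obtain ⟨t, ht⟩ := ha
          rw [ht, hf1] at hk
          refine ⟨k + 1, ?_⟩
          rw [ht, hf4, Function.iterate_succ_apply', hk]
        · push Not at ha
          exact ⟨k, by rw [hf3 _ ha, hk]⟩
    obtain ⟨k, hk⟩ := inv n
    rw [hn, hf1] at hk
    obtain ⟨m, hm, hm'⟩ := wct_orbit
      (colStep odd (fun j : ℤ => D (y + (j : ZMod (2 * L + 5))))) 0 k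
    exact hj0 m hm (hm'.trans hk)
  · intro a
    rcases hj1 (f a) with ⟨k, -, hk⟩ | ⟨k, -, hk⟩
    · left
      exact (hf2 a).trans (win_col_same h y 0 (f a) k hk).symm
    · right
      exact (hf2 a).trans (win_col_same h y j0 (f a) k hk).symm

end

end Pool.Agent.W_MP_43c969_h13
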