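import Pool.Agent.W_MP_43c969_h13.Defs

/-!
# Definitions for the window families (`q` odd)

The rows are `ZMod q`, `q = 2 L + 5`, the columns are `ZMod q` together with `w` active extra
columns and `2 c` lane extra columns (`u_i`, `d_i`, `i < c`, `c ≤ L`).

*Offsets.* In the row `a` a column `x : ZMod q` is described by its offset `x - a`. The up lane is
`E_i = 2 + 2 i`, the down lane is `F_i = -4 - 2 i` (`0 ≤ i ≤ L`), `E_L = -3`, `F_L = 1` modulo `q`.
The lane arcs `a + E_i → a + E_{i+1}` and `a + F_i → a + F_{i+1}` (`i < L`) are in every row `a`,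
directly if `i ≥ c`, through `u_i`, resp. `d_i`, if `i < c`. The other arcs of the row (window
arcs) start at the offsets `-3, 1, -2, -1, 0` (`srcOff`) and end at the offsets `-4, 2, -2, -1, 0`
(`tgtOff`), directly or through an active extra column; they are described by the data `RD` of the
row.
-/

set_option autoImplicit false

namespace Pool.Agent.W_MP_43c969_h13

open Equiv

/-- the offsets of the sources of the window arcs. -/
def srcOff (s : Fin 5) : ℤ := [-3, 1, -2, -1, 0].getD s.val 0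

/-- the offsets of the targets of the window arcs. -/
def tgtOff (t : Fin 5) : ℤ := [-4, 2, -2, -1, 0].getD t.val 0

/-- Data of a row. `sg s` is the index of the target of the window arc starting at the source `s`;
`lab s` is the active column crossed by this arc, if any; `pz z` is the source of the arc crossing
the active column `z`. `cs t` is the index of the source of the next arc in the column of the
target `t`; `dz z` is the difference between the next row and this row in the column `z`. `bs s`,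
`bz z` tell that the arc starting at the source `s`, resp. at the column `z`, is bad; `pin` tells
that the column `inl a` is pinched. -/
structure RD (w : ℕ) where
  sg : Fin 5 → Fin 5
  lab : Fin 5 → Option (Fin w)
  pz : Fin w → Fin 5
  cs : Fin 5 → Fin 5
  dz : Fin w → ℤ
  bs : Fin 5 → Bool
  bz : Fin w → Bool
  pin : Bool

/-- is the arc bad? -/
def RD.flag {w : ℕ} (r : RD w) : Fin 5 ⊕ Fin w → Bool
  | Sum.inl s => r.bs s
  | Sum.inr z => r.bz z

/-- The next window arc, computed with the data `R j` of the rows `a + j`; an arc is `(j, inl s)`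
(row `a + j`, source of index `s`) or `(j, inr z)` (row `a + j`, starting at the active column
`z`). -/
def nextArc {w : ℕ} (R : ℤ → RD w) (e : ℤ × (Fin 5 ⊕ Fin w)) : ℤ × (Fin 5 ⊕ Fin w) :=
  match e with
  | (j, Sum.inl s) =>
    match (R j).lab s with
    | some z => (j + (R j).dz z, Sum.inr z)
    | none => (j + tgtOff ((R j).sg s) - srcOff ((R j).cs ((R j).sg s)),
        Sum.inl ((R j).cs ((R j).sg s)))
  | (j, Sum.inr z) => (j + tgtOff ((R j).sg ((R j).pz z)) -
        srcOff ((R j).cs ((R j).sg ((R j).pz z))), Sum.inl ((R j).cs ((R j).sg ((R j).pz z))))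

/-- exchange of `0` and `1` in `Fin 5`. -/
def sw01 (t : Fin 5) : Fin 5 := if t = 0 then 1 else if t = 1 then 0 else t

/-- The row of the sources of the windows: the lanes go from the target `-4` to the source `1` and
from the target `2` to the source `-3`. -/
def rowStep {w : ℕ} (R : ℤ → RD w) (s : Fin 5) : Fin 5 := sw01 ((R 0).sg s)

/-- The column of the targets: `odd` is the parity of the number of kept ladders. -/
def colStep {w : ℕ} (odd : Bool) (R : ℤ → RD w) (t : Fin 5) : Fin 5 :=
  let s := (R (-(tgtOff t))).cs t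
  if odd then s else sw01 s

/-- `f` is one cycle on `Fin 5`. -/
def Cyc5 (f : Fin 5 → Fin 5) : Prop := ∀ j, ∃ k : ℕ, k < 5 ∧ f^[k] 0 = j

/-- `f` has exactly two cycles. -/
def Cyc5Two (f : Fin 5 → Fin 5) : Prop :=
  ∃ j0, (∀ k : ℕ, k < 5 → f^[k] 0 ≠ j0) ∧
    ∀ j, (∃ k : ℕ, k < 5 ∧ f^[k] 0 = j) ∨ (∃ k : ℕ, k < 5 ∧ f^[k] j0 = j)

/-- The local conditions at the row (and at the column) of index `0` of `R`. -/
structure LOK {w : ℕ} (odd : Bool) (cz : Fin w → Bool) (R : ℤ → RD w) : Prop where
  sg_surj : ∀ t, ∃ s, (R 0).sg s = t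
  lab_pz : ∀ z, (R 0).lab ((R 0).pz z) = some z
  pz_lab : ∀ s z, (R 0).lab s = some z → (R 0).pz z = s
  dz_surj : ∀ z, ∃ j : ℤ, -6 ≤ j ∧ j ≤ 6 ∧ j + (R j).dz z = 0
  cs_surj : ∀ s, ∃ t, (R (-(tgtOff t))).cs t = s
  next_bd : ∀ α, -6 ≤ (nextArc R (0, α)).1 ∧ (nextArc R (0, α)).1 ≤ 6
  good : ∀ α, (R 0).flag α = false → nextArc R (nextArc R (0, α)) = (0, α)
  row_cyc : Cyc5 (rowStep R)
  col_cyc : (R 0).pin = false → Cyc5 (colStep odd R)
  col_two : (R 0).pin = true → Cyc5Two (colStep odd R)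
  cover : ∀ z, cz z = true → ∃ j : ℤ, -4 ≤ j ∧ j ≤ 4 ∧ ∃ s, (R j).lab s = some z ∧
    (j + srcOff s = 0 ∨ j + tgtOff ((R j).sg s) = 0)

/-- A word: seams on the left and on the right, and a part of period `4`. -/
structure Tab (w : ℕ) where
  L : List (RD w)
  Rt : List (RD w)
  B : Fin 4 → RD w

/-- The data of the row `a`, `0 ≤ a < q`. -/
def Tab.word {w : ℕ} (T : Tab w) (q a : ℕ) : RD w :=
  match T.L[a]? with
  | some r => r
  | none => match T.Rt[q - a - 1]? with
    | some r => r
    | none => T.B ⟨a % 4, Nat.mod_lt _ (by norm_num)⟩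

/-- The data of the row `b` modulo `q`. -/
def Tab.wordZ {w : ℕ} (T : Tab w) (q : ℕ) (b : ℤ) : RD w := T.word q (b % (q : ℤ)).toNat

/-- the successor of the row `a` in the column `z`. -/
def Tab.zf {w : ℕ} (T : Tab w) (q : ℕ) (z : Fin w) (a : ℕ) : ℕ :=
  (((a : ℤ) + (T.word q a).dz z) % (q : ℤ)).toNat

/-- the rows are connected in the column `z` (the column is one cycle). -/
def Tab.ZCon {w : ℕ} (T : Tab w) (q : ℕ) : Prop :=
  ∀ z : Fin w, ∀ a : ℕ, a < q →
    Relation.EqvGen (fun x y : ℕ => x < q ∧ y = T.zf q z x) 0 a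

/-- The word satisfies all the conditions for the value `q`. -/
def Tab.OK {w : ℕ} (T : Tab w) (odd : Bool) (cz : Fin w → Bool) (q : ℕ) : Prop :=
  (∀ a : ℕ, a < q → LOK odd cz (fun j => T.wordZ q (a + j))) ∧ T.ZCon q

/-- In the periodic part the rows `a` and `a + 4` are connected in every active column by a chain
with partial sums at most `6`. -/
def Tab.chain {w : ℕ} (T : Tab w) (z : Fin w) (ρ : ℕ) : Prop :=
  ∃ (k : ℕ) (x : ℕ → ℤ), x 0 = 0 ∧
    (x k = 4 ∨ x k = -4) ∧ (∀ i, i ≤ k → -6 ≤ x i ∧ x i ≤ 6) ∧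
    ∀ i, i < k → x (i + 1) = x i +
      (T.B ⟨(((ρ : ℤ) + x i) % 4).toNat % 4, Nat.mod_lt _ (by norm_num)⟩).dz z

/-- The seams are short, the periodic part satisfies `chain`, all the steps are at most `6`. -/
structure Tab.Std {w : ℕ} (T : Tab w) : Prop where
  hL : T.L.length ≤ 5
  hR : T.Rt.length ≤ 5
  bL : ∀ r ∈ T.L, ∀ z, -6 ≤ r.dz z ∧ r.dz z ≤ 6
  bR : ∀ r ∈ T.Rt, ∀ z, -6 ≤ r.dz z ∧ r.dz z ≤ 6
  bB : ∀ i, ∀ z, -6 ≤ (T.B i).dz z ∧ (T.B i).dz z ≤ 6
  chain : ∀ (z : Fin w) (ρ : ℕ), ρ < 4 → T.chain z ρ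

end Pool.Agent.W_MP_43c969_h13
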