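import Pool.Agent.W_MP_43c969_h13.Basic
import Pool.Agent.W_MP_43c969_h13.WinEmb

/-!
# Task WinZTr: the extra columns are cycles; coverage

* Column `z`: `pi_act`; every step `x → x + dz z` of the relation of `WOK.zc` is a step of the
  permutation, so `EqvGen` implies `SameCycle`.
* Columns `u_i`, `d_i`: translations by `-2`, `2` on `ZMod (2 L + 5)`; `2` is invertible:
  `2 * (L + 3) = 1` modulo `2 L + 5`, so `a = b + 2 k` with `k` the class of a natural number.
* `win_cov`: the vertex `y` and the extra column `n`. For `n = u_i` take the row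
  `a = y - (2 + 2 i)` and `rho_up_lt`; for `n = d_i` the row `a = y - (-4 - 2 i)` and `rho_dn_lt`; for
  `n = z` use `cover` at `y`: there are `j`, `s` with `(D (y + j)).lab s = some z` and
  `j + srcOff s = 0` (the row `y + j` goes from `y` to `z`, `rho_src_some`) or
  `j + tgtOff (sg s) = 0` (the row `y + j` goes from `z` to `y`, `rho_act` with `pz z = s`).
-/

set_option autoImplicit false

namespace Pool.Agent.W_MP_43c969_h13

open Equiv

section
variable {w L c : ℕ} {odd : Bool} {cz : Fin w → Bool} {D : ZMod (2 * L + 5) → RD w}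

theorem win_extraTr (h : WOK L c odd cz D) (n : WX w c) : Tr ((winEmb h).pi (Sum.inr n)) := by
  have key : ∀ (f : Perm (ZMod (2 * L + 5))) (e : ZMod (2 * L + 5)), (∀ a, f a = a + e) →
      ∀ (k : ℕ) (a : ZMod (2 * L + 5)), f.SameCycle a (a + k * e) := by
    intro f e hf k a
    refine ⟨(k : ℤ), ?_⟩
    rw [zpow_natCast]
    induction k with
    | zero => simp
    | succ k ih => rw [pow_succ', Perm.mul_apply, ih, hf]; push_cast; ring
  have h2 : (2 : ZMod (2 * L + 5)) * ((L + 3 : ℕ) : ZMod (2 * L + 5)) = 1 := by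
    have : ((2 * L + 5 : ℕ) : ZMod (2 * L + 5)) = 0 := ZMod.natCast_self _
    push_cast at this ⊢
    linear_combination this
  rcases n with z | i | i
  · intro a b
    have := h.zc z a b
    induction this with
    | rel x y hxy =>
      have : (winEmb h).pi (Sum.inr (Sum.inl z)) x = y := by rw [pi_act]; exact hxy.symm
      rw [← this]
      exact (Perm.sameCycle_apply_right).mpr (Perm.SameCycle.refl _ _)
    | refl x => exact Perm.SameCycle.refl _ _
    | symm x y _ ih => exact ih.symm
    | trans x y z _ _ ih1 ih2 => exact ih1.trans ih2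
  · intro a b
    have h1 := key ((winEmb h).pi (Sum.inr (Sum.inr (Sum.inl i)))) (-2)
      (fun a => by rw [pi_u]; ring) ((-(b - a) * ((L + 3 : ℕ) : ZMod (2 * L + 5))).val) a
    have h3 : a + (((-(b - a) * ((L + 3 : ℕ) : ZMod (2 * L + 5))).val : ℕ) :
        ZMod (2 * L + 5)) * (-2) = b := by
      rw [ZMod.natCast_zmod_val]
      linear_combination (b - a) * h2
    rwa [h3] at h1
  · intro a b
    have h1 := key ((winEmb h).pi (Sum.inr (Sum.inr (Sum.inr i)))) 2
      (fun a => by rw [pi_d]) (((b - a) * ((L + 3 : ℕ) : ZMod (2 * L + 5))).val) a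
    have h3 : a + ((((b - a) * ((L + 3 : ℕ) : ZMod (2 * L + 5))).val : ℕ) :
        ZMod (2 * L + 5)) * 2 = b := by
      rw [ZMod.natCast_zmod_val]
      linear_combination (b - a) * h2
    rwa [h3] at h1

theorem win_cov (h : WOK L c odd cz D) (y : ZMod (2 * L + 5)) (n : WX w c)
    (hn : ∀ z, n = Sum.inl z → cz z = true) : (winEmb h).Cov (Sum.inl y) (Sum.inr n) := by
  rcases n with z | i | i
  · obtain ⟨j, -, -, s, hs, hj⟩ := (h.loc y).cover z (hn z rfl)
    have hs' : (D (y + (j : ZMod (2 * L + 5)))).lab s = some z := hs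
    refine ⟨y + (j : ZMod (2 * L + 5)), ?_⟩
    rcases hj with hj | hj
    · left
      have := rho_src_some h (y + (j : ZMod (2 * L + 5))) s z hs'
      have e : y + (j : ZMod (2 * L + 5)) + ((srcOff s : ℤ) : ZMod (2 * L + 5)) = y := by
        have : ((j + srcOff s : ℤ) : ZMod (2 * L + 5)) = 0 := by rw [hj]; simp
        push_cast at this
        rw [add_assoc, this, add_zero]
      rwa [e] at this
    · right
      rw [rho_act]
      have hpz : (D (y + (j : ZMod (2 * L + 5)))).pz z = s := by
        have := (h.loc (y + (j : ZMod (2 * L + 5)))).pz_lab s z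
        simp only [Int.cast_zero, add_zero] at this
        exact this hs'
      rw [hpz]
      congr 1
      have : ((j + tgtOff ((D (y + (j : ZMod (2 * L + 5)))).sg s) : ℤ) :
          ZMod (2 * L + 5)) = 0 := by
        have hj' : j + tgtOff ((D (y + (j : ZMod (2 * L + 5)))).sg s) = 0 := hj
        rw [hj']; simp
      push_cast at this
      rw [add_assoc, this, add_zero]
  · refine ⟨y - (2 + 2 * (i.val : ZMod (2 * L + 5))), Or.inl ?_⟩
    have := rho_up_lt h (y - (2 + 2 * (i.val : ZMod (2 * L + 5)))) i
    rwa [sub_add_cancel] at this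
  · refine ⟨y - (-4 - 2 * (i.val : ZMod (2 * L + 5))), Or.inl ?_⟩
    have := rho_dn_lt h (y - (-4 - 2 * (i.val : ZMod (2 * L + 5)))) i
    rwa [sub_add_cancel] at this

end

end Pool.Agent.W_MP_43c969_h13
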