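import Pool.Agent.W_MP_43c969_h13.Basic
import Pool.Agent.W_MP_43c969_h13.Merge
import Pool.Agent.W_MP_43c969_h13.WinEmb
import Pool.Agent.W_MP_43c969_h13.WinPhi
import Pool.Agent.W_MP_43c969_h13.WinFace
import Pool.Agent.W_MP_43c969_h13.WinColTr
import Pool.Agent.W_MP_43c969_h13.WinRowTr
import Pool.Agent.W_MP_43c969_h13.WinZTr

/-!
# Task WinMerge: merging the special face with a quadrilateral at the pinched column `0`

`FaceAt.rotate`: clear from the definition.
`win_merge`: the column `inl 0` is pinched, the first arc of the special face (`k` arcs) starts at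
`inl 0` (source `4`, of offset `0`, of the row `0`), the other arcs of the face do not start at
`inl 0`. So the last arc `e` of the face, `e = phi^[k-1] e0`, ends at `inl 0` and it is the only arc of
the face which ends at `inl 0` (the end of an arc is the start of the next one). Rotate the face so
that it starts at `e` (`FaceAt e k`, since `FaceAt (phi^[i] e0) k` for all `i`), take a row `d` which is
not in the cycle of `e.1` in the column `inl 0` (`Two.not_same` with `win_colTwo`), and apply
`merge_pinched` (`hcyc`: the only index is `i = 0`). Bad arcs: `FaceAt.bound`. Coverage: `win_cov`.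
-/

set_option autoImplicit false

namespace Pool.Agent.W_MP_43c969_h13

open Equiv

/-- the pairs which are covered. -/
def covC {w : ℕ} (L c : ℕ) (cz : Fin w → Bool) (x y : WN w c L) : Prop :=
  ∃ (y' : ZMod (2 * L + 5)) (n : WX w c), x = Sum.inl y' ∧ y = Sum.inr n ∧
    ∀ z, n = Sum.inl z → cz z = true

theorem winMerge_rotate_one {P N : Type*} {E : Emb P N} {e0 : P × N} {k : ℕ}
    (h : E.FaceAt e0 k) : E.FaceAt (E.phi e0) k := by
  obtain ⟨h1, h2, h3, h4⟩ := h
  refine ⟨h1, ?_, ?_, ?_⟩
  · rw [← Function.iterate_succ_apply, Function.iterate_succ_apply', h2]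
  · intro i j hij hj he
    rw [← Function.iterate_succ_apply, ← Function.iterate_succ_apply,
      Function.iterate_succ_apply', Function.iterate_succ_apply'] at he
    exact h3 i j hij hj (E.phi_injective he)
  · intro e he
    refine h4 e fun j hj => ?_
    rcases Nat.eq_zero_or_pos j with rfl | hj0
    · have h5 := he (k - 1) (by omega)
      rw [← Function.iterate_succ_apply, Nat.succ_eq_add_one, Nat.sub_add_cancel h1, h2] at h5
      exact h5
    · have h5 := he (j - 1) (by omega)
      rw [← Function.iterate_succ_apply, Nat.succ_eq_add_one, Nat.sub_add_cancel hj0] at h5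
      exact h5

theorem Emb.FaceAt.rotate {P N : Type*} [Finite P] [Finite N] {E : Emb P N} {e0 : P × N} {k : ℕ}
    (h : E.FaceAt e0 k) (i : ℕ) : E.FaceAt (E.phi^[i] e0) k := by
  induction i with
  | zero => exact h
  | succ i ih =>
    rw [Function.iterate_succ_apply']
    exact winMerge_rotate_one ih

section
variable {w L c : ℕ} {odd : Bool} {cz : Fin w → Bool} {D : ZMod (2 * L + 5) → RD w}

theorem win_merge (h : WOK L c odd cz D) (fl : List (ℤ × (Fin 5 ⊕ Fin w)))
    (hf : FaceOK L D fl) (hlen : 2 ≤ fl.length) (hp0 : (D 0).pin = true)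
    (hp : ∀ a, a ≠ 0 → (D a).pin = false) (h0 : (fget fl 0).2 = Sum.inl 4)
    (hne : ∀ i, 1 ≤ i → i < fl.length → ∀ s, (fget fl i).2 = Sum.inl s →
      (fget fl i).1 + srcOff s ≠ 0 ∧ -6 ≤ (fget fl i).1 + srcOff s ∧
        (fget fl i).1 + srcOff s ≤ 6) :
    St (ZMod (2 * L + 5)) (WN w c L) (covC L c cz) (fl.length + 2) := by
  classical
  have hfin : Finite (ZMod (2 * L + 5)) := by
    have : NeZero (2 * L + 5) := ⟨by omega⟩
    exact inferInstance
  obtain ⟨k, hk⟩ : ∃ k, k = fl.length := ⟨_, rfl⟩
  rw [← hk] at hlen hne ⊢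
  have hF := win_face h fl hf
  rw [← hk] at hF
  have hit : ∀ i, i < k → (winEmb h).phi^[i] (0, pt w c L 0 (fget fl 0).2) =
      (((fget fl i).1 : ZMod (2 * L + 5)),
        pt w c L ((fget fl i).1 : ZMod (2 * L + 5)) (fget fl i).2) := fun i hi =>
    win_iter h fl hf i (by rw [← hk]; exact hi)
  obtain ⟨e0, he0⟩ : ∃ e0 : ZMod (2 * L + 5) × WN w c L,
      e0 = (0, pt w c L 0 (fget fl 0).2) := ⟨_, rfl⟩
  rw [← he0] at hF
  have he2 : e0.2 = Sum.inl 0 := by
    rw [he0, h0]
    simp [pt, srcOff]
  obtain ⟨e, he⟩ : ∃ e, e = (winEmb h).phi^[k - 1] e0 := ⟨_, rfl⟩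
  have hFe : (winEmb h).FaceAt e k := by
    rw [he]
    exact hF.rotate (k - 1)
  have hphi : (winEmb h).phi e = e0 := by
    rw [he, ← Function.iterate_succ_apply' (winEmb h).phi, Nat.succ_eq_add_one,
      Nat.sub_add_cancel (by omega)]
    exact hF.2.1
  have hx : (winEmb h).rho e.1 e.2 = Sum.inl 0 := by
    rw [← he2, ← hphi]
    rfl
  obtain ⟨d, hd, -⟩ := (win_colTwo h 0 hp0).not_same e.1
  have hcyc : ∀ i, i < k → (winEmb h).rho ((winEmb h).phi^[i] e).1 ((winEmb h).phi^[i] e).2 =
      Sum.inl 0 → ((winEmb h).pi (Sum.inl 0)).SameCycle e.1 ((winEmb h).phi^[i] e).1 := by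
    intro i hi hr
    rcases Nat.eq_zero_or_pos i with rfl | hi0
    · exact Perm.SameCycle.refl _ _
    · exfalso
      have h1 : (winEmb h).phi ((winEmb h).phi^[i] e) = (winEmb h).phi^[i] e0 := by
        rw [← Function.iterate_succ_apply' (winEmb h).phi, Function.iterate_succ_apply, hphi]
      have h2 : ((winEmb h).phi^[i] e0).2 = Sum.inl 0 := by
        rw [← h1]
        exact hr
      rw [he0, hit i hi] at h2
      have h3 := hne i hi0 hi
      rcases h4 : (fget fl i).2 with s | z
      · rw [h4] at h2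
        obtain ⟨h5, h6, h7⟩ := h3 s h4
        have h8 : (((fget fl i).1 + srcOff s : ℤ) : ZMod (2 * L + 5)) = 0 := by
          push_cast
          exact Sum.inl_injective h2
        rw [ZMod.intCast_zmod_eq_zero_iff_dvd] at h8
        obtain ⟨m, hm⟩ := h8
        have hL := h.hL
        have hm0 : m ≠ 0 := by
          rintro rfl
          rw [mul_zero] at hm
          exact h5 hm
        rcases lt_or_gt_of_ne hm0 with hm1 | hm1
        · have h9 : ((2 * L + 5 : ℕ) : ℤ) * m ≤ ((2 * L + 5 : ℕ) : ℤ) * (-1) :=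
            mul_le_mul_of_nonneg_left (by omega) (by positivity)
          push_cast at h9 hm
          omega
        · have h9 : ((2 * L + 5 : ℕ) : ℤ) * 1 ≤ ((2 * L + 5 : ℕ) : ℤ) * m :=
            mul_le_mul_of_nonneg_left (by omega) (by positivity)
          push_cast at h9 hm
          omega
      · rw [h4] at h2
        cases h2
  have hcol : ∀ n, n ≠ Sum.inl 0 → Tr ((winEmb h).pi n) := by
    rintro (y | n) hn
    · exact win_colTr h y (hp y fun hy => hn (by rw [hy]))
    · exact win_extraTr h n
  have hN : 2 ≤ Nat.card (WN w c L) := by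
    have : NeZero (2 * L + 5) := ⟨by omega⟩
    rw [Nat.card_sum, Nat.card_zmod]
    omega
  obtain ⟨g1, g2, g3, g4⟩ := merge_pinched (winEmb h) (Sum.inl 0) e.1 d e.2 k hlen
    (win_rowsTr h) hcol (win_colTwo h 0 hp0) hx hFe hd hcyc hN
  refine ⟨_, g1, g2, g3.bound, ?_⟩
  rintro x y ⟨y', n, rfl, rfl, hn⟩
  exact g4 _ _ (win_cov h y' n hn)

end

end Pool.Agent.W_MP_43c969_h13
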