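import Pool.Agent.W_MP_43c969_h13.Basic
import Pool.Agent.W_MP_43c969_h13.WinEmb
import Pool.Agent.W_MP_43c969_h13.WinPhi
import Pool.Agent.W_MP_43c969_h13.WinFace
import Pool.Agent.W_MP_43c969_h13.WinCol
import Pool.Agent.W_MP_43c969_h13.WinRowTr
import Pool.Agent.W_MP_43c969_h13.WinColTr
import Pool.Agent.W_MP_43c969_h13.WinZTr
import Pool.Agent.W_MP_43c969_h13.WinSplit
import Pool.Agent.W_MP_43c969_h13.WinMerge

/-!
# Task WinSum: summary of the window embeddings

Direct consequences of the imported files: rows `win_rowsTr`, columns `win_colTr`, `win_colTwo`,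
`win_extraTr`, coverage `win_cov`, arcs `win_allGood`, `win_face` with `FaceAt.bound`, `win_split`.

`sum_star_ex`, `sum_star_pst`: here `w = 2`, `c = 0`, `z`, `z'` are the two active columns, and
`x = inr (inl z0)` is covered with all the other columns: with the vertices by `win_cov` (and
`Cov` is symmetric by definition), with the other active column by the last conclusion of
`win_split` (`{z, z'} = {0, 1}`).
-/

set_option autoImplicit false

namespace Pool.Agent.W_MP_43c969_h13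

open Equiv

section
variable {w L c : ℕ} {odd : Bool} {cz : Fin w → Bool} {D : ZMod (2 * L + 5) → RD w}

theorem sum_ex (h : WOK L c odd cz D) (hp : ∀ a, (D a).pin = false)
    (hf : ∀ a α, (D a).flag α = false) :
    Ex (ZMod (2 * L + 5)) (WN w c L) (covC L c cz) := by
  refine ⟨winEmb h, win_rowsTr h, ?_, win_allGood h hf, ?_⟩
  · intro x
    rcases x with y | n
    · exact win_colTr h y (hp y)
    · exact win_extraTr h n
  · rintro x y ⟨y', n, rfl, rfl, hn⟩
    exact win_cov h y' n hn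

theorem sum_st (h : WOK L c odd cz D) (hp : ∀ a, (D a).pin = false)
    (fl : List (ℤ × (Fin 5 ⊕ Fin w))) (hf : FaceOK L D fl) :
    St (ZMod (2 * L + 5)) (WN w c L) (covC L c cz) fl.length := by
  classical
  refine ⟨winEmb h, win_rowsTr h, ?_, (win_face h fl hf).bound, ?_⟩
  · intro x
    rcases x with y | n
    · exact win_colTr h y (hp y)
    · exact win_extraTr h n
  · rintro x y ⟨y', n, rfl, rfl, hn⟩
    exact win_cov h y' n hn

theorem sum_split_ex (h : WOK L c odd cz D) (hp : ∀ a, (D a).pin = false)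
    (fl : List (ℤ × (Fin 5 ⊕ Fin w))) (hf : FaceOK L D fl) (t : ℕ) (sd : SDat w) (s0 : Fin 5)
    (hs : SplitOK odd (D 0) fl t sd s0) (hcard : (2 * L + 5 + w + 2 * c) % 4 = (t + 2) % 4) :
    Ex (Option (ZMod (2 * L + 5))) (WN w c L) (covC L c cz) := by
  obtain ⟨E', h1, h2, _, h4, h5, _⟩ := win_split h fl hf t sd s0 hs hcard
  refine ⟨E', h1, ?_, h4, ?_⟩
  · intro x
    rcases x with y | n
    · exact h2 _ (win_colTr h y (hp y))
    · exact h2 _ (win_extraTr h n)
  · rintro x y ⟨y', n, rfl, rfl, hn⟩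
    exact h5 y' n (win_cov h y' n hn)

theorem sum_split_pst (h : WOK L c odd cz D) (hp0 : (D 0).pin = true)
    (hp : ∀ a, a ≠ 0 → (D a).pin = false)
    (fl : List (ℤ × (Fin 5 ⊕ Fin w))) (hf : FaceOK L D fl) (t : ℕ) (sd : SDat w) (s0 : Fin 5)
    (hs : SplitOK odd (D 0) fl t sd s0) (hcard : (2 * L + 5 + w + 2 * c) % 4 = (t + 2) % 4) :
    PSt (Option (ZMod (2 * L + 5))) (WN w c L) (covC L c cz) := by
  obtain ⟨E', h1, h2, h3, h4, h5, _⟩ := win_split h fl hf t sd s0 hs hcard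
  refine ⟨E', Sum.inl 0, h1, ?_, h3 _ (win_colTwo h 0 hp0), h4, ?_⟩
  · intro x hx
    rcases x with y | n
    · exact h2 _ (win_colTr h y (hp y (fun h0 => hx (by rw [h0]))))
    · exact h2 _ (win_extraTr h n)
  · rintro x y ⟨y', n, rfl, rfl, hn⟩
    exact h5 y' n (win_cov h y' n hn)

end

section
variable {L : ℕ} {odd : Bool} {D : ZMod (2 * L + 5) → RD 2}

/-- the data of the star: the pair of the two active columns is covered after the splitting. -/
structure StarOK (r : RD 2) (sd : SDat 2) (z z' : Fin 2) (s1 s2 : Fin 5) : Prop where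
  hzz : z ≠ z'
  hkz : sd.kZ z = true
  hs1 : r.sg (r.pz z) = s1
  h10 : s1 ≠ 0
  h11 : s1 ≠ 1
  hl1 : r.lab s1 = none
  hs2 : r.sg s1 = s2
  h20 : s2 ≠ 0
  h21 : s2 ≠ 1
  hl2 : r.lab s2 = some z'
  hk1 : sd.kS s1 = false
  hk2 : sd.kS s2 = true

theorem sum_star_ex (h : WOK L 0 odd (fun z : Fin 2 => decide (z = 0)) D)
    (hp : ∀ a, (D a).pin = false)
    (fl : List (ℤ × (Fin 5 ⊕ Fin 2))) (hf : FaceOK L D fl) (t : ℕ) (sd : SDat 2) (s0 : Fin 5)
    (hs : SplitOK odd (D 0) fl t sd s0) (hcard : (2 * L + 5 + 2 + 2 * 0) % 4 = (t + 2) % 4)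
    (z z' : Fin 2) (s1 s2 : Fin 5) (hst : StarOK (D 0) sd z z' s1 s2) :
    Ex (Option (ZMod (2 * L + 5))) (WN 2 0 L)
      (fun x y => x = Sum.inr (Sum.inl 0) ∧ y ≠ Sum.inr (Sum.inl 0)) := by
  obtain ⟨E', h1, h2, _, h4, h5, h6⟩ := win_split h fl hf t sd s0 hs hcard
  have hcov : ∀ y : WN 2 0 L, y ≠ Sum.inr (Sum.inl 0) →
      E'.Cov (Sum.inr (Sum.inl 0)) y := by
    intro y hy
    have hsymm : ∀ x y, E'.Cov x y → E'.Cov y x := by
      rintro x y ⟨a, ha⟩
      exact ⟨a, ha.symm⟩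
    have hzz := h6 z z' s1 s2 hst.hkz hst.hs1 hst.h10 hst.h11 hst.hl1 hst.hs2 hst.h20 hst.h21
      hst.hl2 hst.hk1 hst.hk2
    rcases y with y | n
    · refine hsymm _ _ (h5 y (Sum.inl 0) (win_cov h y (Sum.inl 0) ?_))
      intro z0 hz0
      cases hz0
      rfl
    · rcases n with z0 | i | i
      · have hz0 : z0 ≠ 0 := fun h0 => hy (by rw [h0])
        have hne := hst.hzz
        have c1 : z0 = 1 := by omega
        subst c1
        have c2 : (z = 0 ∧ z' = 1) ∨ (z = 1 ∧ z' = 0) := by omega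
        rcases c2 with ⟨rfl, rfl⟩ | ⟨rfl, rfl⟩
        · exact hzz
        · exact hsymm _ _ hzz
      · exact i.elim0
      · exact i.elim0
  refine ⟨E', h1, ?_, h4, ?_⟩
  · intro x
    rcases x with y | n
    · exact h2 _ (win_colTr h y (hp y))
    · exact h2 _ (win_extraTr h n)
  · rintro x y ⟨rfl, hy⟩
    exact hcov y hy

theorem sum_star_pst (h : WOK L 0 odd (fun z : Fin 2 => decide (z = 0)) D)
    (hp0 : (D 0).pin = true) (hp : ∀ a, a ≠ 0 → (D a).pin = false)
    (fl : List (ℤ × (Fin 5 ⊕ Fin 2))) (hf : FaceOK L D fl) (t : ℕ) (sd : SDat 2) (s0 : Fin 5)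
    (hs : SplitOK odd (D 0) fl t sd s0) (hcard : (2 * L + 5 + 2 + 2 * 0) % 4 = (t + 2) % 4)
    (z z' : Fin 2) (s1 s2 : Fin 5) (hst : StarOK (D 0) sd z z' s1 s2) :
    PSt (Option (ZMod (2 * L + 5))) (WN 2 0 L)
      (fun x y => x = Sum.inr (Sum.inl 0) ∧ y ≠ Sum.inr (Sum.inl 0)) := by
  obtain ⟨E', h1, h2, h3, h4, h5, h6⟩ := win_split h fl hf t sd s0 hs hcard
  have hcov : ∀ y : WN 2 0 L, y ≠ Sum.inr (Sum.inl 0) →
      E'.Cov (Sum.inr (Sum.inl 0)) y := by
    intro y hy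
    have hsymm : ∀ x y, E'.Cov x y → E'.Cov y x := by
      rintro x y ⟨a, ha⟩
      exact ⟨a, ha.symm⟩
    have hzz := h6 z z' s1 s2 hst.hkz hst.hs1 hst.h10 hst.h11 hst.hl1 hst.hs2 hst.h20 hst.h21
      hst.hl2 hst.hk1 hst.hk2
    rcases y with y | n
    · refine hsymm _ _ (h5 y (Sum.inl 0) (win_cov h y (Sum.inl 0) ?_))
      intro z0 hz0
      cases hz0
      rfl
    · rcases n with z0 | i | i
      · have hz0 : z0 ≠ 0 := fun h0 => hy (by rw [h0])
        have hne := hst.hzz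
        have c1 : z0 = 1 := by omega
        subst c1
        have c2 : (z = 0 ∧ z' = 1) ∨ (z = 1 ∧ z' = 0) := by omega
        rcases c2 with ⟨rfl, rfl⟩ | ⟨rfl, rfl⟩
        · exact hzz
        · exact hsymm _ _ hzz
      · exact i.elim0
      · exact i.elim0
  refine ⟨E', Sum.inl 0, h1, ?_, h3 _ (win_colTwo h 0 hp0), h4, ?_⟩
  · intro x hx
    rcases x with y | n
    · exact h2 _ (win_colTr h y (hp y (fun h0 => hx (by rw [h0]))))
    · exact h2 _ (win_extraTr h n)
  · rintro x y ⟨rfl, hy⟩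
    exact hcov y hy

end

end Pool.Agent.W_MP_43c969_h13
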