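import Pool.Agent.W_MP_43c969_h13.WinCert
import Pool.Agent.W_MP_43c969_h13.WinCertB
import Pool.Agent.W_MP_43c969_h13.WinCertC
import Pool.Agent.W_MP_43c969_h13.WinSum

/-!
# The window families: consequences of a certificate
-/

set_option autoImplicit false

namespace Pool.Agent.W_MP_43c969_h13

open Equiv

section
variable {w : ℕ}

theorem card_WX (w c : ℕ) : Fintype.card (WX w c) = w + 2 * c := by
  simp [WX, Fintype.card_sum]; omega

theorem covC_of_across {L c : ℕ} (x y : WN w c L) (h : Across x y) :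
    covC L c (fun _ : Fin w => true) x y := by
  obtain ⟨y', z', hx, hy⟩ := h
  exact ⟨y', z', hx, hy, fun _ _ => rfl⟩

theorem tabD_first (T : Tab w) (pinned : Bool) (hp : pinB T pinned = true) (L : ℕ) :
    tabD T L 0 = T.word 0 0 := by
  rcases hL : T.L with _ | ⟨r, l⟩
  · simp [pinB, hL] at hp
  · rw [tabD_zero T r l hL L]
    simp [Tab.word, hL]

theorem cert_pinB (T : Tab w) (odd : Bool) (cz : Fin w → Bool) (qm : ℕ) (pinned : Bool)
    (h : certB T odd cz qm pinned = true) : pinB T pinned = true := by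
  unfold certB at h
  simp only [Bool.and_eq_true] at h
  exact h.2

theorem fam_wok (T : Tab w) (odd : Bool) (cz : Fin w → Bool) (qm : ℕ) (pinned : Bool)
    (h : certB T odd cz qm pinned = true) (L c : ℕ) (hL : 1 ≤ L) (hq : qm ≤ 2 * L + 5)
    (hq4 : (2 * L + 5) % 4 = qm % 4) (hc : c ≤ L) (hpar : (L - c) % 2 = if odd then 1 else 0) :
    WOK L c odd cz (tabD T L) :=
  wok_of_tab T L c odd cz hL hc hpar (cert_ok T odd cz qm pinned h _ hq hq4)

theorem fam_nopin (T : Tab w) (odd : Bool) (cz : Fin w → Bool) (qm : ℕ)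
    (h : certB T odd cz qm false = true) (L : ℕ) (hL : 1 ≤ L) (a : ZMod (2 * L + 5)) :
    (tabD T L a).pin = false := by
  by_cases ha : a = 0
  · subst ha; exact (cert_pin T odd cz qm false h L hL).1
  · exact (cert_pin T odd cz qm false h L hL).2 a ha

/-- exact families. -/
theorem fam_ex (T : Tab w) (odd : Bool) (qm : ℕ)
    (h1 : certB T odd (fun _ => true) qm false = true) (h2 : noflB T = true)
    (q r c : ℕ) (hq : qm ≤ q) (hq7 : 7 ≤ q) (hq2 : q % 2 = 1) (hq4 : q % 4 = qm % 4)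
    (hr : w + 2 * c = r) (hc : 2 * c + 5 ≤ q)
    (hpar : ((q - 5) / 2 - c) % 2 = if odd then 1 else 0) :
    Ex (Fin q) (Fin q ⊕ Fin r) Across := by
  obtain ⟨L, rfl⟩ : ∃ L, q = 2 * L + 5 := ⟨(q - 5) / 2, by omega⟩
  have e : (2 * L + 5 - 5) / 2 = L := by omega
  rw [e] at hpar
  have h := fam_wok T odd (fun _ => true) qm false h1 L c (by omega) hq hq4 (by omega) hpar
  have := sum_ex h (fam_nopin T odd _ qm h1 L (by omega)) (cert_nofl T h2 L)
  have h' : Ex (ZMod (2 * L + 5)) (WN w c L) Across := by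
    obtain ⟨E, a1, a2, a3, a4⟩ := this
    exact ⟨E, a1, a2, a3, fun x y hxy => a4 x y (covC_of_across x y hxy)⟩
  exact h'.toFin (ZMod.card _) (ZMod.card _) (by rw [card_WX]; exact hr)

/-- the special face only. -/
theorem fam_st (T : Tab w) (odd : Bool) (qm : ℕ) (fl : List (ℤ × (Fin 5 ⊕ Fin w)))
    (h1 : certB T odd (fun _ => true) qm false = true) (h2 : faceB T qm fl = true)
    (q r c : ℕ) (hq : qm ≤ q) (hq7 : 7 ≤ q) (hq2 : q % 2 = 1) (hq4 : q % 4 = qm % 4)
    (hr : w + 2 * c = r) (hc : 2 * c + 5 ≤ q)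
    (hpar : ((q - 5) / 2 - c) % 2 = if odd then 1 else 0) :
    St (Fin q) (Fin q ⊕ Fin r) Across fl.length := by
  obtain ⟨L, rfl⟩ : ∃ L, q = 2 * L + 5 := ⟨(q - 5) / 2, by omega⟩
  have e : (2 * L + 5 - 5) / 2 = L := by omega
  rw [e] at hpar
  have h := fam_wok T odd (fun _ => true) qm false h1 L c (by omega) hq hq4 (by omega) hpar
  have := sum_st h (fam_nopin T odd _ qm h1 L (by omega)) fl
    (cert_face T odd _ qm false h1 fl h2 L hq hq4)
  exact (this.mono le_rfl covC_of_across).toFin (ZMod.card _) (ZMod.card _)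
    (by rw [card_WX]; exact hr)

/-- splitting, no pinched column. -/
theorem fam_split (T : Tab w) (odd : Bool) (qm : ℕ) (fl : List (ℤ × (Fin 5 ⊕ Fin w)))
    (t : ℕ) (sd : SDat w) (s0 : Fin 5)
    (h1 : certB T odd (fun _ => true) qm false = true) (h2 : faceB T qm fl = true)
    (h3 : splitB odd (T.word 0 0) fl t sd s0 = true)
    (q r c : ℕ) (hq : qm ≤ q) (hq7 : 7 ≤ q) (hq2 : q % 2 = 1) (hq4 : q % 4 = qm % 4)
    (hr : w + 2 * c = r) (hc : 2 * c + 5 ≤ q)
    (hpar : ((q - 5) / 2 - c) % 2 = if odd then 1 else 0)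
    (hcard : (q + r) % 4 = (t + 2) % 4) :
    Ex (Fin (q + 1)) (Fin q ⊕ Fin r) Across := by
  obtain ⟨L, rfl⟩ : ∃ L, q = 2 * L + 5 := ⟨(q - 5) / 2, by omega⟩
  have e : (2 * L + 5 - 5) / 2 = L := by omega
  rw [e] at hpar
  have h := fam_wok T odd (fun _ => true) qm false h1 L c (by omega) hq hq4 (by omega) hpar
  have hsp : SplitOK odd (tabD T L 0) fl t sd s0 := by
    rw [tabD_first T false (cert_pinB T odd _ qm false h1) L]
    exact splitB_sound odd _ fl t sd s0 h3
  have := sum_split_ex h (fam_nopin T odd _ qm h1 L (by omega)) fl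
    (cert_face T odd _ qm false h1 fl h2 L hq hq4) t sd s0 hsp (by omega)
  have h' : Ex (Option (ZMod (2 * L + 5))) (WN w c L) Across := by
    obtain ⟨E, a1, a2, a3, a4⟩ := this
    exact ⟨E, a1, a2, a3, fun x y hxy => a4 x y (covC_of_across x y hxy)⟩
  exact h'.toFin (by rw [Fintype.card_option, ZMod.card]) (ZMod.card _)
    (by rw [card_WX]; exact hr)

/-- splitting, the column `0` is pinched. -/
theorem fam_split_pst (T : Tab w) (odd : Bool) (qm : ℕ) (fl : List (ℤ × (Fin 5 ⊕ Fin w)))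
    (t : ℕ) (sd : SDat w) (s0 : Fin 5)
    (h1 : certB T odd (fun _ => true) qm true = true) (h2 : faceB T qm fl = true)
    (h3 : splitB odd (T.word 0 0) fl t sd s0 = true)
    (q r c : ℕ) (hq : qm ≤ q) (hq7 : 7 ≤ q) (hq2 : q % 2 = 1) (hq4 : q % 4 = qm % 4)
    (hr : w + 2 * c = r) (hc : 2 * c + 5 ≤ q)
    (hpar : ((q - 5) / 2 - c) % 2 = if odd then 1 else 0)
    (hcard : (q + r) % 4 = (t + 2) % 4) :
    PSt (Fin (q + 1)) (Fin q ⊕ Fin r) Across := by
  obtain ⟨L, rfl⟩ : ∃ L, q = 2 * L + 5 := ⟨(q - 5) / 2, by omega⟩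
  have e : (2 * L + 5 - 5) / 2 = L := by omega
  rw [e] at hpar
  have h := fam_wok T odd (fun _ => true) qm true h1 L c (by omega) hq hq4 (by omega) hpar
  have hpin := cert_pin T odd _ qm true h1 L (by omega)
  have hsp : SplitOK odd (tabD T L 0) fl t sd s0 := by
    rw [tabD_first T true (cert_pinB T odd _ qm true h1) L]
    exact splitB_sound odd _ fl t sd s0 h3
  have := sum_split_pst h hpin.1 hpin.2 fl
    (cert_face T odd _ qm true h1 fl h2 L hq hq4) t sd s0 hsp (by omega)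
  have h' : PSt (Option (ZMod (2 * L + 5))) (WN w c L) Across := by
    obtain ⟨E, v, a1, a2, a3, a4, a5⟩ := this
    exact ⟨E, v, a1, a2, a3, a4, fun x y hxy => a5 x y (covC_of_across x y hxy)⟩
  exact h'.toFin (by rw [Fintype.card_option, ZMod.card]) (ZMod.card _)
    (by rw [card_WX]; exact hr)

/-- check for the merging. -/
def mergeB (fl : List (ℤ × (Fin 5 ⊕ Fin w))) : Bool :=
  Nat.ble 2 fl.length &&
  (match (fget fl 0).2 with
    | Sum.inl s => decide (s = 4)
    | Sum.inr _ => false) &&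
  (List.range fl.length).all (fun i => Nat.beq i 0 || (match (fget fl i).2 with
    | Sum.inl s => !(decide ((fget fl i).1 + srcOff s = 0)) && bd6 ((fget fl i).1 + srcOff s)
    | Sum.inr _ => true))

/-- merging at the pinched column. -/
theorem fam_merge (T : Tab w) (odd : Bool) (qm : ℕ) (fl : List (ℤ × (Fin 5 ⊕ Fin w)))
    (h1 : certB T odd (fun _ => true) qm true = true) (h2 : faceB T qm fl = true)
    (h3 : mergeB fl = true)
    (q r c : ℕ) (hq : qm ≤ q) (hq7 : 7 ≤ q) (hq2 : q % 2 = 1) (hq4 : q % 4 = qm % 4)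
    (hr : w + 2 * c = r) (hc : 2 * c + 5 ≤ q)
    (hpar : ((q - 5) / 2 - c) % 2 = if odd then 1 else 0) :
    St (Fin q) (Fin q ⊕ Fin r) Across (fl.length + 2) := by
  obtain ⟨L, rfl⟩ : ∃ L, q = 2 * L + 5 := ⟨(q - 5) / 2, by omega⟩
  have e : (2 * L + 5 - 5) / 2 = L := by omega
  rw [e] at hpar
  have h := fam_wok T odd (fun _ => true) qm true h1 L c (by omega) hq hq4 (by omega) hpar
  have hpin := cert_pin T odd _ qm true h1 L (by omega)
  unfold mergeB at h3
  simp only [Bool.and_eq_true] at h3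
  obtain ⟨⟨g1, g2⟩, g3⟩ := h3
  have g1' : 2 ≤ fl.length := Nat.le_of_ble_eq_true g1
  have g2' : (fget fl 0).2 = Sum.inl 4 := by
    rcases hx : (fget fl 0).2 with s | z
    · rw [hx] at g2; simp only [decide_eq_true_eq] at g2; rw [g2]
    · rw [hx] at g2; simp at g2
  have g3' : ∀ i, 1 ≤ i → i < fl.length → ∀ s, (fget fl i).2 = Sum.inl s →
      (fget fl i).1 + srcOff s ≠ 0 ∧ -6 ≤ (fget fl i).1 + srcOff s ∧
        (fget fl i).1 + srcOff s ≤ 6 := by
    intro i hi hi' s hs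
    have := (List.all_eq_true.mp g3) i (List.mem_range.mpr hi')
    rw [hs] at this
    simp only [Bool.or_eq_true, Bool.and_eq_true, Bool.not_eq_true', bd6,
      decide_eq_true_eq, decide_eq_false_iff_not] at this
    rcases this with h0 | h0
    · have := Nat.eq_of_beq_eq_true h0
      omega
    · exact ⟨h0.1, h0.2.1, h0.2.2⟩
  have := win_merge h fl (cert_face T odd _ qm true h1 fl h2 L hq hq4) g1' hpin.1 hpin.2 g2' g3'
  exact (this.mono le_rfl covC_of_across).toFin (ZMod.card _) (ZMod.card _)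
    (by rw [card_WX]; exact hr)

end

/-- check for the star. -/
def starB (r : RD 2) (sd : SDat 2) (z z' : Fin 2) (s1 s2 : Fin 5) : Bool :=
  !(decide (z = z')) && sd.kZ z && decide (r.sg (r.pz z) = s1) && !(decide (s1 = 0)) &&
  !(decide (s1 = 1)) && decide (r.lab s1 = none) && decide (r.sg s1 = s2) &&
  !(decide (s2 = 0)) && !(decide (s2 = 1)) && decide (r.lab s2 = some z') && !(sd.kS s1) &&
  sd.kS s2

theorem starB_sound (r : RD 2) (sd : SDat 2) (z z' : Fin 2) (s1 s2 : Fin 5)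
    (h : starB r sd z z' s1 s2 = true) : StarOK r sd z z' s1 s2 := by
  unfold starB at h
  simp only [Bool.and_eq_true, Bool.not_eq_true', decide_eq_true_eq,
    decide_eq_false_iff_not] at h
  obtain ⟨⟨⟨⟨⟨⟨⟨⟨⟨⟨⟨a1, a2⟩, a3⟩, a4⟩, a5⟩, a6⟩, a7⟩, a8⟩, a9⟩, a10⟩, a11⟩, a12⟩ := h
  exact ⟨a1, a2, a3, a4, a5, a6, a7, a8, a9, a10, a11, a12⟩

theorem fam_star_ex (T : Tab 2) (odd : Bool) (qm : ℕ) (fl : List (ℤ × (Fin 5 ⊕ Fin 2)))
    (t : ℕ) (sd : SDat 2) (s0 : Fin 5) (z z' : Fin 2) (s1 s2 : Fin 5)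
    (h1 : certB T odd (fun z => decide (z = 0)) qm false = true) (h2 : faceB T qm fl = true)
    (h3 : splitB odd (T.word 0 0) fl t sd s0 = true)
    (h4 : starB (T.word 0 0) sd z z' s1 s2 = true)
    (q : ℕ) (hq : qm ≤ q) (hq7 : 7 ≤ q) (hq2 : q % 2 = 1) (hq4 : q % 4 = qm % 4)
    (hpar : ((q - 5) / 2) % 2 = if odd then 1 else 0)
    (hcard : (q + 2) % 4 = (t + 2) % 4) :
    Ex (Fin (q + 1)) (Fin (q + 1) ⊕ Fin 1) Across := by
  obtain ⟨L, rfl⟩ : ∃ L, q = 2 * L + 5 := ⟨(q - 5) / 2, by omega⟩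
  have e : (2 * L + 5 - 5) / 2 = L := by omega
  rw [e] at hpar
  have h := fam_wok T odd (fun z => decide (z = 0)) qm false h1 L 0 (by omega) hq hq4 (by omega)
    (by simpa using hpar)
  have e0 := tabD_first T false (cert_pinB T odd _ qm false h1) L
  have hsp : SplitOK odd (tabD T L 0) fl t sd s0 := by
    rw [e0]; exact splitB_sound odd _ fl t sd s0 h3
  have hst : StarOK (tabD T L 0) sd z z' s1 s2 := by
    rw [e0]; exact starB_sound _ sd z z' s1 s2 h4
  have := sum_star_ex h (fam_nopin T odd _ qm h1 L (by omega)) fl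
    (cert_face T odd _ qm false h1 fl h2 L hq hq4) t sd s0 hsp (by omega) z z' s1 s2 hst
  exact this.toFin_star (Sum.inr (Sum.inl 0)) (by rw [Fintype.card_option, ZMod.card])
    (by rw [Fintype.card_sum, ZMod.card, card_WX])

theorem fam_star_pst (T : Tab 2) (odd : Bool) (qm : ℕ) (fl : List (ℤ × (Fin 5 ⊕ Fin 2)))
    (t : ℕ) (sd : SDat 2) (s0 : Fin 5) (z z' : Fin 2) (s1 s2 : Fin 5)
    (h1 : certB T odd (fun z => decide (z = 0)) qm true = true) (h2 : faceB T qm fl = true)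
    (h3 : splitB odd (T.word 0 0) fl t sd s0 = true)
    (h4 : starB (T.word 0 0) sd z z' s1 s2 = true)
    (q : ℕ) (hq : qm ≤ q) (hq7 : 7 ≤ q) (hq2 : q % 2 = 1) (hq4 : q % 4 = qm % 4)
    (hpar : ((q - 5) / 2) % 2 = if odd then 1 else 0)
    (hcard : (q + 2) % 4 = (t + 2) % 4) :
    PSt (Fin (q + 1)) (Fin (q + 1) ⊕ Fin 1) Across := by
  obtain ⟨L, rfl⟩ : ∃ L, q = 2 * L + 5 := ⟨(q - 5) / 2, by omega⟩
  have e : (2 * L + 5 - 5) / 2 = L := by omega
  rw [e] at hpar
  have h := fam_wok T odd (fun z => decide (z = 0)) qm true h1 L 0 (by omega) hq hq4 (by omega)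
    (by simpa using hpar)
  have hpin := cert_pin T odd _ qm true h1 L (by omega)
  have e0 := tabD_first T true (cert_pinB T odd _ qm true h1) L
  have hsp : SplitOK odd (tabD T L 0) fl t sd s0 := by
    rw [e0]; exact splitB_sound odd _ fl t sd s0 h3
  have hst : StarOK (tabD T L 0) sd z z' s1 s2 := by
    rw [e0]; exact starB_sound _ sd z z' s1 s2 h4
  have := sum_star_pst h hpin.1 hpin.2 fl
    (cert_face T odd _ qm true h1 fl h2 L hq hq4) t sd s0 hsp (by omega) z z' s1 s2 hst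
  exact this.toFin_star (Sum.inr (Sum.inl 0)) (by rw [Fintype.card_option, ZMod.card])
    (by rw [Fintype.card_sum, ZMod.card, card_WX])

end Pool.Agent.W_MP_43c969_h13
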