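import Pool.Agent.W_MP_43c969_h13.WinBool

/-!
# The tables of the window families (found by computer)
-/

set_option autoImplicit false

namespace Pool.Agent.W_MP_43c969_h13

/-- the table `T1`. -/
def tabT1 : Tab 1 where
  L := [
    mkRD 1 [0, 3, 4, 2, 1] [0, 0, 1, 0, 0] [2] [3, 1, 0, 4, 2] [-1] [false, false, false, false, false] [false] false,
    mkRD 1 [2, 3, 0, 4, 1] [0, 0, 1, 0, 0] [2] [2, 1, 3, 4, 0] [2] [false, false, false, false, false] [false] false,
    mkRD 1 [0, 3, 4, 2, 1] [0, 0, 1, 0, 0] [2] [3, 1, 0, 4, 2] [-2] [false, false, false, false, false] [false] false,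
    mkRD 1 [2, 3, 0, 4, 1] [0, 0, 1, 0, 0] [2] [2, 1, 3, 4, 0] [2] [false, false, false, false, false] [false] false]
  Rt := [
    mkRD 1 [0, 2, 3, 4, 1] [0, 0, 1, 0, 0] [2] [3, 1, 3, 2, 0] [2] [false, false, false, false, false] [false] false,
    mkRD 1 [4, 3, 0, 1, 2] [0, 0, 1, 0, 0] [2] [2, 1, 4, 4, 1] [-1] [false, false, false, false, false] [false] false,
    mkRD 1 [0, 2, 3, 4, 1] [0, 0, 1, 0, 0] [2] [3, 1, 0, 2, 0] [-2] [false, false, false, false, false] [false] false,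
    mkRD 1 [2, 3, 0, 4, 1] [0, 0, 1, 0, 0] [2] [2, 4, 3, 4, 0] [2] [false, false, false, false, false] [false] false]
  B i := [
    mkRD 1 [0, 3, 4, 2, 1] [0, 0, 1, 0, 0] [2] [3, 1, 0, 4, 2] [-2] [false, false, false, false, false] [false] false,
    mkRD 1 [2, 3, 0, 4, 1] [0, 0, 1, 0, 0] [2] [2, 1, 3, 4, 0] [2] [false, false, false, false, false] [false] false,
    mkRD 1 [0, 3, 4, 2, 1] [0, 0, 1, 0, 0] [2] [3, 1, 0, 4, 2] [-2] [false, false, false, false, false] [false] false,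
    mkRD 1 [2, 3, 0, 4, 1] [0, 0, 1, 0, 0] [2] [2, 1, 3, 4, 0] [2] [false, false, false, false, false] [false] false].getD i.val (mkRD 1 [0, 3, 4, 2, 1] [0, 0, 1, 0, 0] [2] [3, 1, 0, 4, 2] [-2] [false, false, false, false, false] [false] false)

/-- the table `T2`. -/
def tabT2 : Tab 2 where
  L := [
    mkRD 2 [3, 1, 4, 2, 0] [0, 0, 0, 2, 1] [4, 3] [2, 1, 4, 2, 1] [1, -1] [false, true, false, false, false] [false, false] false,
    mkRD 2 [2, 3, 0, 4, 1] [0, 1, 0, 2, 0] [1, 3] [0, 2, 1, 4, 3] [-2, -3] [false, true, false, false, false] [false, false] false,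
    mkRD 2 [0, 3, 1, 4, 2] [1, 0, 0, 2, 0] [0, 3] [3, 4, 0, 2, 0] [1, -1] [false, false, false, false, false] [false, false] false,
    mkRD 2 [3, 1, 4, 2, 0] [0, 2, 0, 0, 1] [4, 1] [0, 1, 0, 4, 1] [2, 2] [false, false, false, false, false] [false, false] false,
    mkRD 2 [2, 3, 4, 1, 0] [0, 2, 1, 0, 0] [2, 1] [2, 3, 3, 0, 3] [2, -1] [false, false, false, false, false] [false, false] false]
  Rt := [
    mkRD 2 [2, 3, 4, 1, 0] [0, 0, 2, 1, 0] [3, 2] [2, 1, 1, 2, 3] [3, -2] [false, false, false, false, false] [true, false] false,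
    mkRD 2 [2, 4, 3, 0, 1] [0, 0, 1, 0, 2] [2, 4] [3, 3, 3, 4, 0] [2, 2] [false, false, false, false, false] [false, false] false,
    mkRD 2 [4, 3, 1, 2, 0] [2, 0, 0, 0, 1] [4, 0] [2, 4, 0, 4, 2] [1, -2] [false, false, false, false, false] [false, false] false,
    mkRD 2 [3, 4, 0, 2, 1] [2, 0, 0, 1, 0] [3, 0] [4, 1, 4, 1, 0] [-1, -3] [false, false, false, false, false] [false, false] false]
  B i := [
    mkRD 2 [2, 3, 4, 1, 0] [0, 2, 1, 0, 0] [2, 1] [2, 3, 4, 0, 3] [2, -1] [false, false, false, false, false] [false, false] false,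
    mkRD 2 [3, 4, 0, 2, 1] [2, 0, 0, 1, 0] [3, 0] [4, 2, 4, 1, 2] [-1, -3] [false, false, false, false, false] [false, false] false,
    mkRD 2 [4, 2, 1, 0, 3] [2, 0, 0, 1, 0] [3, 0] [2, 4, 0, 0, 0] [1, -2] [false, false, false, false, false] [false, false] false,
    mkRD 2 [4, 1, 3, 0, 2] [0, 2, 0, 0, 1] [4, 1] [3, 1, 3, 1, 1] [2, 2] [false, false, false, false, false] [false, false] false].getD i.val (mkRD 2 [2, 3, 4, 1, 0] [0, 2, 1, 0, 0] [2, 1] [2, 3, 4, 0, 3] [2, -1] [false, false, false, false, false] [false, false] false)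

/-- the table `T2s`. -/
def tabT2s : Tab 2 where
  L := [
    mkRD 2 [3, 2, 4, 0, 1] [0, 1, 0, 0, 2] [1, 4] [0, 4, 3, 1, 2] [3, -2] [false, false, false, true, false] [false, false] false,
    mkRD 2 [3, 4, 1, 0, 2] [0, 0, 0, 1, 2] [3, 4] [3, 4, 4, 1, 0] [1, 1] [false, false, false, false, false] [false, false] false,
    mkRD 2 [2, 4, 0, 1, 3] [1, 0, 0, 0, 2] [0, 4] [2, 3, 3, 4, 3] [-3, -2] [false, false, false, false, false] [false, false] false,
    mkRD 2 [3, 2, 1, 4, 0] [0, 1, 2, 0, 0] [1, 2] [2, 4, 1, 2, 1] [2, -4] [false, false, false, false, false] [false, false] false,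
    mkRD 2 [2, 3, 0, 4, 1] [0, 1, 0, 2, 0] [1, 3] [0, 2, 1, 0, 2] [3, 1] [false, false, false, false, false] [false, false] false]
  Rt := [
    mkRD 2 [2, 3, 0, 4, 1] [0, 0, 0, 1, 2] [3, 4] [4, 2, 4, 0, 0] [1, 2] [true, false, false, false, false] [false, false] false,
    mkRD 2 [4, 3, 1, 2, 0] [0, 0, 2, 1, 0] [3, 2] [2, 4, 1, 0, 1] [3, -1] [false, false, false, false, false] [false, false] false,
    mkRD 2 [0, 2, 3, 4, 1] [1, 0, 2, 0, 0] [0, 2] [0, 3, 0, 2, 1] [-2, -2] [false, false, false, false, true] [false, false] false,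
    mkRD 2 [3, 4, 1, 0, 2] [1, 0, 0, 0, 2] [0, 4] [3, 4, 3, 1, 3] [1, -2] [false, false, false, false, false] [false, false] false]
  B i := [
    mkRD 2 [2, 3, 0, 4, 1] [0, 1, 0, 2, 0] [1, 3] [4, 2, 4, 0, 2] [3, 1] [false, false, false, false, false] [false, false] false,
    mkRD 2 [3, 4, 1, 0, 2] [1, 0, 0, 0, 2] [0, 4] [3, 4, 3, 1, 2] [1, -2] [false, false, false, false, false] [false, false] false,
    mkRD 2 [0, 2, 4, 1, 3] [1, 0, 2, 0, 0] [0, 2] [0, 3, 0, 0, 3] [-2, -2] [false, false, false, false, false] [false, false] false,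
    mkRD 2 [4, 2, 3, 1, 0] [0, 1, 0, 2, 0] [1, 3] [2, 4, 1, 1, 1] [2, -1] [false, false, false, false, false] [false, false] false].getD i.val (mkRD 2 [2, 3, 0, 4, 1] [0, 1, 0, 2, 0] [1, 3] [4, 2, 4, 0, 2] [3, 1] [false, false, false, false, false] [false, false] false)

/-- the table `T3`. -/
def tabT3 : Tab 3 where
  L := [
    mkRD 3 [2, 4, 0, 1, 3] [1, 0, 3, 2, 0] [0, 3, 2] [2, 1, 3, 1, 3] [-2, -1, 2] [false, false, false, false, true] [false, false, false] false,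
    mkRD 3 [3, 1, 0, 4, 2] [0, 2, 3, 0, 1] [4, 1, 2] [2, 4, 0, 1, 1] [-2, -1, 2] [false, false, false, false, false] [false, false, false] false,
    mkRD 3 [2, 4, 0, 1, 3] [1, 0, 3, 2, 0] [0, 3, 2] [2, 4, 0, 0, 3] [-1, 1, 2] [false, false, false, false, false] [false, false, false] false,
    mkRD 3 [3, 1, 0, 4, 2] [1, 0, 3, 0, 2] [0, 4, 2] [2, 4, 3, 0, 1] [-1, -2, 2] [false, false, false, false, false] [false, false, false] false]
  Rt := [
    mkRD 3 [4, 3, 0, 1, 2] [2, 0, 3, 1, 0] [3, 0, 2] [2, 4, 4, 0, 3] [1, -2, 2] [false, false, false, false, false] [false, false, false] false,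
    mkRD 3 [3, 4, 0, 2, 1] [1, 0, 3, 0, 2] [0, 4, 2] [2, 4, 3, 0, 1] [-1, -2, 2] [false, true, false, false, false] [false, true, false] false,
    mkRD 3 [2, 3, 0, 4, 1] [1, 2, 3, 0, 0] [0, 1, 2] [2, 4, 0, 0, 3] [-2, 1, 2] [false, true, false, false, false] [false, false, false] false,
    mkRD 3 [4, 1, 0, 2, 3] [1, 2, 3, 0, 0] [0, 1, 2] [2, 4, 3, 1, 1] [-2, -1, 2] [false, false, false, false, false] [false, false, false] false]
  B i := [
    mkRD 3 [2, 3, 0, 4, 1] [0, 1, 3, 0, 2] [1, 4, 2] [2, 1, 4, 0, 3] [1, -2, 2] [false, false, false, false, false] [false, false, false] false,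
    mkRD 3 [4, 1, 0, 2, 3] [1, 2, 3, 0, 0] [0, 1, 2] [2, 4, 3, 1, 1] [-2, -1, 2] [false, false, false, false, false] [false, false, false] false,
    mkRD 3 [2, 4, 0, 1, 3] [1, 0, 3, 2, 0] [0, 3, 2] [2, 4, 0, 0, 3] [-2, 1, 2] [false, false, false, false, false] [false, false, false] false,
    mkRD 3 [3, 1, 0, 4, 2] [1, 0, 3, 0, 2] [0, 4, 2] [2, 4, 3, 0, 1] [-1, -2, 2] [false, false, false, false, false] [false, false, false] false].getD i.val (mkRD 3 [2, 3, 0, 4, 1] [0, 1, 3, 0, 2] [1, 4, 2] [2, 1, 4, 0, 3] [1, -2, 2] [false, false, false, false, false] [false, false, false] false)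

/-- the table `T4`. -/
def tabT4 : Tab 4 where
  L := [
    mkRD 4 [2, 1, 3, 4, 0] [2, 3, 0, 4, 1] [4, 0, 1, 3] [3, 4, 0, 4, 3] [4, -2, -1, 3] [false, false, true, false, false] [false, false, false, false] false,
    mkRD 4 [4, 2, 1, 0, 3] [2, 1, 3, 4, 0] [1, 0, 2, 3] [2, 2, 1, 2, 0] [1, -1, -4, -1] [false, false, false, false, false] [false, false, false, false] false,
    mkRD 4 [0, 2, 3, 4, 1] [4, 2, 0, 1, 3] [3, 1, 4, 0] [2, 1, 0, 4, 1] [1, 2, -2, -3] [false, false, false, false, false] [false, false, false, true] false,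
    mkRD 4 [3, 1, 0, 4, 2] [2, 3, 4, 0, 1] [4, 0, 1, 2] [3, 1, 3, 0, 3] [2, -1, -1, 2] [false, false, false, false, false] [false, false, false, false] false]
  Rt := [
    mkRD 4 [2, 1, 4, 0, 3] [0, 3, 4, 1, 2] [3, 4, 1, 2] [4, 1, 3, 1, 0] [-1, -3, -1, 2] [false, false, false, false, true] [false, false, false, false] false,
    mkRD 4 [3, 4, 0, 2, 1] [2, 1, 4, 0, 3] [1, 0, 4, 2] [0, 1, 0, 0, 3] [3, -1, -2, 4] [false, false, true, false, false] [false, false, false, false] false,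
    mkRD 4 [0, 2, 3, 4, 1] [4, 2, 0, 1, 3] [3, 1, 4, 0] [2, 2, 0, 4, 1] [3, 2, -2, 1] [false, false, false, false, false] [false, false, false, false] false,
    mkRD 4 [4, 2, 1, 0, 3] [2, 1, 3, 4, 0] [1, 0, 2, 3] [2, 4, 4, 2, 2] [1, -2, -4, -1] [false, false, false, false, false] [false, true, false, false] false]
  B i := [
    mkRD 4 [3, 1, 4, 2, 0] [2, 3, 4, 0, 1] [4, 0, 1, 2] [4, 4, 3, 1, 3] [4, -3, -1, 2] [false, false, false, false, false] [false, false, false, false] false,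
    mkRD 4 [4, 2, 1, 0, 3] [2, 1, 3, 4, 0] [1, 0, 2, 3] [2, 2, 4, 2, 0] [1, -2, -4, -1] [false, false, false, false, false] [false, false, false, false] false,
    mkRD 4 [0, 2, 3, 4, 1] [4, 2, 0, 1, 3] [3, 1, 4, 0] [2, 1, 0, 4, 1] [1, 2, -2, 1] [false, false, false, false, false] [false, false, false, false] false,
    mkRD 4 [3, 1, 0, 4, 2] [2, 3, 4, 0, 1] [4, 0, 1, 2] [0, 1, 3, 0, 3] [2, -1, -1, 2] [false, false, false, false, false] [false, false, false, false] false].getD i.val (mkRD 4 [3, 1, 4, 2, 0] [2, 3, 4, 0, 1] [4, 0, 1, 2] [4, 4, 3, 1, 3] [4, -3, -1, 2] [false, false, false, false, false] [false, false, false, false] false)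

/-- the table `U1`. -/
def tabU1 : Tab 1 where
  L := [
    mkRD 1 [4, 2, 1, 0, 3] [0, 0, 0, 0, 1] [4] [3, 3, 0, 4, 1] [2] [false, false, true, false, false] [false] false,
    mkRD 1 [4, 1, 0, 2, 3] [0, 0, 1, 0, 0] [2] [1, 0, 1, 0, 1] [-3] [false, false, true, false, false] [false] false,
    mkRD 1 [0, 2, 4, 1, 3] [0, 1, 0, 0, 0] [1] [3, 3, 4, 2, 2] [1] [false, false, false, false, false] [false] false,
    mkRD 1 [2, 4, 3, 0, 1] [0, 1, 0, 0, 0] [1] [2, 4, 4, 4, 1] [3] [false, false, false, true, false] [false] false,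
    mkRD 1 [2, 4, 0, 1, 3] [1, 0, 0, 0, 0] [0] [2, 3, 0, 2, 0] [-5] [false, false, false, false, false] [false] false]
  Rt := [
    mkRD 1 [0, 2, 3, 4, 1] [0, 0, 0, 0, 1] [4] [1, 0, 0, 1, 0] [1] [false, false, false, false, false] [false] false,
    mkRD 1 [4, 1, 3, 0, 2] [1, 0, 0, 0, 0] [0] [3, 3, 4, 4, 2] [-1] [false, false, false, false, false] [true] false,
    mkRD 1 [2, 4, 0, 1, 3] [1, 0, 0, 0, 0] [0] [2, 3, 0, 2, 2] [-3] [false, false, false, false, false] [false] false,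
    mkRD 1 [2, 4, 3, 0, 1] [0, 1, 0, 0, 0] [1] [3, 4, 1, 4, 1] [5] [false, false, false, false, false] [false] false]
  B i := [
    mkRD 1 [2, 4, 0, 1, 3] [1, 0, 0, 0, 0] [0] [2, 3, 0, 2, 0] [-3] [false, false, false, false, false] [false] false,
    mkRD 1 [4, 1, 3, 0, 2] [1, 0, 0, 0, 0] [0] [3, 0, 4, 4, 0] [-1] [false, false, false, false, false] [false] false,
    mkRD 1 [0, 2, 4, 1, 3] [0, 1, 0, 0, 0] [1] [1, 3, 1, 2, 2] [1] [false, false, false, false, false] [false] false,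
    mkRD 1 [2, 4, 3, 0, 1] [0, 1, 0, 0, 0] [1] [3, 4, 1, 4, 1] [3] [false, false, false, false, false] [false] false].getD i.val (mkRD 1 [2, 4, 0, 1, 3] [1, 0, 0, 0, 0] [0] [2, 3, 0, 2, 0] [-3] [false, false, false, false, false] [false] false)

/-- the table `U2`. -/
def tabU2 : Tab 2 where
  L := [
    mkRD 2 [3, 1, 0, 4, 2] [0, 1, 2, 0, 0] [1, 2] [2, 4, 3, 4, 0] [-1, 2] [false, false, false, false, true] [false, false] true,
    mkRD 2 [0, 4, 3, 1, 2] [0, 0, 0, 1, 2] [3, 4] [3, 4, 0, 1, 3] [1, 2] [false, false, false, false, false] [false, false] false,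
    mkRD 2 [0, 3, 1, 4, 2] [2, 0, 0, 0, 1] [4, 0] [2, 4, 3, 0, 1] [-2, -1] [false, false, false, false, false] [false, false] false,
    mkRD 2 [0, 2, 3, 4, 1] [0, 2, 0, 0, 1] [4, 1] [3, 1, 4, 0, 3] [-2, 1] [false, false, false, false, false] [false, false] false]
  Rt := [
    mkRD 2 [3, 4, 1, 0, 2] [0, 0, 1, 2, 0] [2, 3] [2, 1, 0, 4, 2] [-1, -1] [false, false, false, true, false] [false, false] false,
    mkRD 2 [0, 3, 1, 4, 2] [0, 1, 2, 0, 0] [1, 2] [2, 4, 0, 2, 0] [-1, 2] [false, false, false, false, false] [false, true] false,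
    mkRD 2 [3, 1, 4, 2, 0] [0, 1, 2, 0, 0] [1, 2] [2, 1, 3, 1, 1] [-1, 2] [false, false, false, false, false] [false, false] false,
    mkRD 2 [0, 2, 3, 4, 1] [0, 2, 0, 0, 1] [4, 1] [2, 1, 4, 0, 3] [-2, 1] [false, false, false, false, false] [false, false] false]
  B i := [
    mkRD 2 [3, 1, 4, 2, 0] [0, 1, 2, 0, 0] [1, 2] [2, 4, 3, 1, 1] [-1, 2] [false, false, false, false, false] [false, false] false,
    mkRD 2 [0, 4, 3, 1, 2] [0, 0, 0, 1, 2] [3, 4] [2, 4, 0, 0, 3] [1, 2] [false, false, false, false, false] [false, false] false,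
    mkRD 2 [0, 3, 1, 4, 2] [2, 0, 0, 0, 1] [4, 0] [2, 4, 3, 0, 1] [-2, -1] [false, false, false, false, false] [false, false] false,
    mkRD 2 [0, 2, 3, 4, 1] [0, 2, 0, 0, 1] [4, 1] [2, 1, 4, 0, 3] [-2, 1] [false, false, false, false, false] [false, false] false].getD i.val (mkRD 2 [3, 1, 4, 2, 0] [0, 1, 2, 0, 0] [1, 2] [2, 4, 3, 1, 1] [-1, 2] [false, false, false, false, false] [false, false] false)

/-- the table `U3`. -/
def tabU3 : Tab 3 where
  L := [
    mkRD 3 [4, 1, 0, 2, 3] [0, 1, 2, 3, 0] [1, 2, 3] [3, 4, 1, 1, 3] [1, -1, -1] [true, false, false, false, false] [false, false, false] false,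
    mkRD 3 [2, 1, 3, 4, 0] [0, 0, 2, 1, 3] [3, 2, 4] [2, 4, 0, 1, 1] [-3, 2, 2] [false, false, false, true, false] [false, false, false] false,
    mkRD 3 [0, 2, 3, 4, 1] [0, 3, 0, 2, 1] [4, 3, 1] [0, 4, 0, 0, 3] [-2, 3, 3] [false, false, false, false, false] [false, false, false] false,
    mkRD 3 [2, 1, 4, 0, 3] [3, 0, 1, 2, 0] [2, 3, 0] [2, 4, 4, 1, 2] [-4, -1, -1] [false, false, false, false, false] [false, false, false] false]
  Rt := [
    mkRD 3 [0, 3, 4, 2, 1] [0, 2, 3, 0, 1] [4, 1, 2] [2, 2, 0, 2, 3] [-2, 2, 2] [false, false, false, true, false] [false, false, false] false,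
    mkRD 3 [2, 1, 4, 0, 3] [3, 0, 1, 2, 0] [2, 3, 0] [3, 4, 1, 1, 3] [-2, -1, -1] [false, false, false, false, false] [true, false, false] false,
    mkRD 3 [0, 2, 3, 4, 1] [0, 3, 0, 2, 1] [4, 3, 1] [2, 4, 0, 0, 3] [-2, 3, 3] [false, false, false, false, false] [false, false, false] false,
    mkRD 3 [2, 1, 4, 0, 3] [3, 0, 1, 2, 0] [2, 3, 0] [3, 4, 1, 1, 2] [-2, -1, -1] [false, false, false, false, false] [false, false, false] false]
  B i := [
    mkRD 3 [0, 2, 3, 4, 1] [0, 3, 0, 2, 1] [4, 3, 1] [2, 4, 0, 0, 3] [-2, 3, 3] [false, false, false, false, false] [false, false, false] false,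
    mkRD 3 [2, 1, 4, 0, 3] [3, 0, 1, 2, 0] [2, 3, 0] [3, 4, 1, 1, 2] [-2, -1, -1] [false, false, false, false, false] [false, false, false] false,
    mkRD 3 [0, 2, 3, 4, 1] [0, 3, 0, 2, 1] [4, 3, 1] [2, 4, 0, 0, 3] [-2, 3, 3] [false, false, false, false, false] [false, false, false] false,
    mkRD 3 [2, 1, 4, 0, 3] [3, 0, 1, 2, 0] [2, 3, 0] [3, 4, 1, 1, 2] [-2, -1, -1] [false, false, false, false, false] [false, false, false] false].getD i.val (mkRD 3 [0, 2, 3, 4, 1] [0, 3, 0, 2, 1] [4, 3, 1] [2, 4, 0, 0, 3] [-2, 3, 3] [false, false, false, false, false] [false, false, false] false)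

/-- the table `Upa`. -/
def tabUpa : Tab 2 where
  L := [
    mkRD 2 [3, 4, 0, 2, 1] [0, 0, 0, 2, 1] [4, 3] [2, 3, 1, 1, 2] [-2, 1] [false, true, false, false, false] [false, false] false,
    mkRD 2 [0, 2, 4, 1, 3] [0, 2, 1, 0, 0] [2, 1] [1, 3, 3, 1, 3] [2, 1] [false, false, false, false, false] [false, false] false,
    mkRD 2 [0, 2, 4, 1, 3] [0, 0, 2, 1, 0] [3, 2] [3, 4, 0, 0, 1] [-1, 1] [false, false, true, false, false] [false, false] false,
    mkRD 2 [4, 1, 3, 0, 2] [0, 0, 0, 1, 2] [3, 4] [2, 4, 1, 0, 1] [-3, 2] [false, false, false, false, false] [false, true] false]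
  Rt := [
    mkRD 2 [3, 1, 0, 4, 2] [1, 0, 0, 0, 2] [0, 4] [2, 4, 3, 4, 0] [-2, -2] [false, false, false, false, false] [false, false] false,
    mkRD 2 [0, 3, 4, 2, 1] [0, 0, 0, 2, 1] [4, 3] [2, 4, 4, 0, 2] [1, 1] [false, false, false, false, false] [false, false] false,
    mkRD 2 [2, 1, 4, 0, 3] [0, 2, 0, 0, 1] [4, 1] [3, 4, 4, 0, 2] [-2, 3] [false, false, false, false, false] [false, false] false,
    mkRD 2 [4, 1, 3, 0, 2] [0, 0, 0, 1, 2] [3, 4] [2, 0, 1, 0, 1] [-3, 2] [false, false, false, false, false] [false, false] false]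
  B i := [
    mkRD 2 [2, 4, 3, 0, 1] [0, 2, 0, 0, 1] [4, 1] [3, 3, 4, 0, 2] [-2, 3] [false, false, false, false, false] [false, false] false,
    mkRD 2 [0, 2, 4, 1, 3] [0, 2, 1, 0, 0] [2, 1] [2, 3, 4, 1, 3] [2, 1] [false, false, false, false, false] [false, false] false,
    mkRD 2 [0, 2, 4, 1, 3] [0, 0, 2, 1, 0] [3, 2] [2, 4, 0, 0, 1] [-1, -2] [false, false, false, false, false] [false, false] false,
    mkRD 2 [4, 1, 3, 0, 2] [0, 0, 0, 1, 2] [3, 4] [2, 4, 1, 0, 1] [-3, 2] [false, false, false, false, false] [false, false] false].getD i.val (mkRD 2 [2, 4, 3, 0, 1] [0, 2, 0, 0, 1] [4, 1] [3, 3, 4, 0, 2] [-2, 3] [false, false, false, false, false] [false, false] false)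

/-- the table `Upb`. -/
def tabUpb : Tab 2 where
  L := [
    mkRD 2 [0, 2, 3, 4, 1] [1, 2, 0, 0, 0] [0, 1] [2, 4, 1, 0, 3] [-3, 3] [false, false, false, false, true] [false, false] true,
    mkRD 2 [4, 1, 0, 2, 3] [1, 0, 2, 0, 0] [0, 2] [2, 0, 3, 4, 3] [-2, -4] [false, false, false, false, true] [false, true] false,
    mkRD 2 [0, 3, 1, 4, 2] [0, 0, 0, 1, 2] [3, 4] [2, 4, 1, 0, 2] [-1, -1] [false, false, false, false, true] [false, false] false,
    mkRD 2 [0, 3, 1, 4, 2] [1, 0, 0, 0, 2] [0, 4] [4, 4, 1, 0, 3] [-5, 2] [false, false, false, false, false] [false, false] false]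
  Rt := [
    mkRD 2 [0, 4, 1, 2, 3] [0, 2, 0, 0, 1] [4, 1] [1, 4, 3, 0, 1] [4, 3] [false, false, true, false, false] [false, false] false,
    mkRD 2 [3, 2, 1, 4, 0] [0, 2, 1, 0, 0] [2, 1] [2, 0, 4, 1, 3] [2, 1] [false, false, false, false, false] [false, false] false,
    mkRD 2 [3, 1, 4, 2, 0] [0, 2, 1, 0, 0] [2, 1] [2, 2, 3, 1, 0] [-2, 3] [false, false, false, false, false] [false, false] false,
    mkRD 2 [0, 3, 1, 4, 2] [1, 0, 0, 0, 2] [0, 4] [2, 4, 1, 0, 3] [-3, 2] [false, false, false, false, false] [false, false] false]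
  B i := [
    mkRD 2 [3, 1, 4, 2, 0] [0, 2, 1, 0, 0] [2, 1] [2, 4, 3, 1, 0] [-2, 3] [false, false, false, false, false] [false, false] false,
    mkRD 2 [3, 1, 4, 2, 0] [0, 0, 1, 2, 0] [2, 3] [2, 0, 4, 1, 3] [2, 1] [false, false, false, false, false] [false, false] false,
    mkRD 2 [0, 3, 1, 4, 2] [0, 0, 0, 1, 2] [3, 4] [1, 4, 3, 0, 2] [-1, -2] [false, false, false, false, false] [false, false] false,
    mkRD 2 [0, 3, 1, 4, 2] [1, 0, 0, 0, 2] [0, 4] [2, 4, 1, 0, 3] [-3, 2] [false, false, false, false, false] [false, false] false].getD i.val (mkRD 2 [3, 1, 4, 2, 0] [0, 2, 1, 0, 0] [2, 1] [2, 4, 3, 1, 0] [-2, 3] [false, false, false, false, false] [false, false] false)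

/-- the table `Upsb`. -/
def tabUpsb : Tab 2 where
  L := [
    mkRD 2 [4, 3, 1, 2, 0] [0, 2, 1, 0, 0] [2, 1] [2, 3, 1, 4, 1] [-1, 2] [false, false, false, false, true] [false, false] true,
    mkRD 2 [0, 4, 3, 1, 2] [2, 0, 0, 0, 1] [4, 0] [1, 3, 1, 0, 3] [2, -3] [false, false, false, false, false] [false, false] false,
    mkRD 2 [0, 3, 1, 4, 2] [0, 2, 1, 0, 0] [2, 1] [3, 4, 4, 1, 1] [-4, 1] [false, false, false, false, true] [false, false] false,
    mkRD 2 [0, 4, 1, 2, 3] [0, 2, 0, 1, 0] [3, 1] [2, 4, 4, 0, 1] [-3, 2] [false, false, false, false, false] [false, false] false,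
    mkRD 2 [2, 4, 3, 0, 1] [0, 2, 0, 0, 1] [4, 1] [3, 3, 4, 0, 2] [-2, 3] [true, false, false, false, false] [false, false] false]
  Rt := [
    mkRD 2 [3, 2, 1, 4, 0] [1, 0, 0, 0, 2] [0, 4] [2, 0, 0, 2, 0] [-2, 1] [false, false, true, false, false] [false, false] false,
    mkRD 2 [2, 1, 3, 4, 0] [0, 1, 0, 2, 0] [1, 3] [2, 2, 4, 2, 0] [3, -1] [false, false, true, false, false] [false, false] false,
    mkRD 2 [2, 1, 4, 0, 3] [0, 0, 2, 0, 1] [4, 2] [3, 3, 4, 0, 3] [-2, 2] [false, false, false, false, false] [false, false] false,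
    mkRD 2 [4, 2, 1, 0, 3] [0, 2, 0, 1, 0] [3, 1] [2, 4, 1, 0, 1] [-3, 5] [false, false, false, false, false] [false, false] false]
  B i := [
    mkRD 2 [2, 4, 3, 0, 1] [0, 2, 0, 0, 1] [4, 1] [3, 3, 4, 0, 2] [-2, 3] [false, false, false, false, false] [false, false] false,
    mkRD 2 [2, 3, 4, 1, 0] [0, 2, 1, 0, 0] [2, 1] [2, 3, 4, 1, 3] [2, 1] [false, false, false, false, false] [false, false] false,
    mkRD 2 [0, 2, 4, 1, 3] [0, 0, 2, 1, 0] [3, 2] [2, 4, 0, 0, 1] [-1, -2] [false, false, false, false, false] [false, false] false,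
    mkRD 2 [4, 2, 1, 0, 3] [0, 2, 0, 1, 0] [3, 1] [2, 4, 1, 0, 1] [-3, 2] [false, false, false, false, false] [false, false] false].getD i.val (mkRD 2 [2, 4, 3, 0, 1] [0, 2, 0, 0, 1] [4, 1] [3, 3, 4, 0, 2] [-2, 3] [false, false, false, false, false] [false, false] false)

/-- the table `U4a`. -/
def tabU4a : Tab 4 where
  L := [
    mkRD 4 [0, 4, 1, 2, 3] [2, 1, 3, 0, 4] [1, 0, 2, 4] [3, 2, 3, 2, 2] [-1, 1, -2, -2] [false, false, false, true, false] [false, false, false, false] false,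
    mkRD 4 [2, 1, 4, 0, 3] [0, 1, 4, 2, 3] [1, 3, 4, 2] [0, 4, 0, 1, 2] [1, 1, 1, -1] [false, false, false, false, false] [false, false, false, false] false,
    mkRD 4 [0, 3, 4, 2, 1] [0, 3, 1, 2, 4] [2, 3, 1, 4] [0, 4, 3, 4, 1] [-2, 3, 1, 1] [false, false, false, false, false] [false, false, false, false] false,
    mkRD 4 [2, 4, 3, 0, 1] [0, 3, 4, 2, 1] [4, 3, 1, 2] [3, 1, 0, 4, 1] [-2, 1, 2, -2] [false, false, false, false, false] [false, true, false, false] false]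
  Rt := [
    mkRD 4 [2, 4, 3, 0, 1] [0, 3, 4, 2, 1] [4, 3, 1, 2] [0, 1, 3, 1, 1] [-2, 4, 2, -4] [false, false, false, true, false] [false, false, false, false] false,
    mkRD 4 [0, 4, 1, 2, 3] [2, 3, 4, 0, 1] [4, 0, 1, 2] [3, 4, 0, 4, 2] [-2, 1, 1, -1] [false, false, false, false, false] [false, false, false, false] false,
    mkRD 4 [0, 3, 4, 2, 1] [0, 4, 3, 2, 1] [4, 3, 2, 1] [0, 4, 3, 2, 1] [1, 3, -4, 2] [false, false, false, false, false] [false, false, false, false] false,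
    mkRD 4 [2, 4, 3, 0, 1] [0, 3, 4, 2, 1] [4, 3, 1, 2] [3, 4, 0, 4, 1] [-2, 1, 1, -2] [false, false, false, false, false] [false, false, false, false] false,
    mkRD 4 [0, 3, 4, 2, 1] [0, 3, 1, 2, 4] [2, 3, 1, 4] [0, 2, 3, 4, 1] [-2, 3, 1, 1] [false, false, false, false, false] [false, false, false, false] false]
  B i := [
    mkRD 4 [0, 4, 1, 2, 3] [0, 1, 3, 2, 4] [1, 3, 2, 4] [0, 2, 3, 2, 2] [-1, 3, -4, -2] [false, false, false, false, false] [false, false, false, false] false,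
    mkRD 4 [2, 1, 4, 0, 3] [0, 1, 4, 2, 3] [1, 3, 4, 2] [3, 4, 0, 1, 2] [1, 1, 1, -1] [false, false, false, false, false] [false, false, false, false] false,
    mkRD 4 [0, 3, 4, 2, 1] [0, 3, 1, 2, 4] [2, 3, 1, 4] [0, 4, 3, 4, 1] [-2, 3, 1, 1] [false, false, false, false, false] [false, false, false, false] false,
    mkRD 4 [2, 4, 3, 0, 1] [0, 3, 4, 2, 1] [4, 3, 1, 2] [3, 1, 0, 4, 1] [-2, 1, 2, -2] [false, false, false, false, false] [false, false, false, false] false].getD i.val (mkRD 4 [0, 4, 1, 2, 3] [0, 1, 3, 2, 4] [1, 3, 2, 4] [0, 2, 3, 2, 2] [-1, 3, -4, -2] [false, false, false, false, false] [false, false, false, false] false)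

/-- the table `U4b`. -/
def tabU4b : Tab 4 where
  L := [
    mkRD 4 [0, 4, 1, 2, 3] [2, 4, 1, 0, 3] [2, 0, 4, 1] [3, 2, 3, 0, 2] [-4, 1, 1, 1] [false, false, false, true, false] [false, false, false, false] true,
    mkRD 4 [0, 3, 4, 2, 1] [2, 3, 4, 1, 0] [3, 0, 1, 2] [0, 4, 3, 4, 1] [1, 1, 2, -2] [false, false, false, false, false] [true, false, false, false] false,
    mkRD 4 [3, 2, 4, 0, 1] [3, 1, 4, 2, 0] [1, 3, 0, 2] [0, 4, 3, 0, 3] [3, 3, -2, -2] [false, false, false, false, false] [false, false, false, false] false,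
    mkRD 4 [0, 3, 1, 4, 2] [2, 3, 1, 4, 0] [2, 0, 1, 3] [4, 2, 4, 1, 2] [-4, 1, 2, -1] [false, false, false, false, false] [false, false, false, false] false]
  Rt := [
    mkRD 4 [3, 2, 1, 4, 0] [3, 0, 1, 4, 2] [2, 4, 0, 3] [0, 2, 3, 4, 2] [2, 4, -2, -2] [false, false, true, true, false] [false, false, false, false] false,
    mkRD 4 [0, 2, 4, 1, 3] [2, 1, 4, 0, 3] [1, 0, 4, 2] [3, 1, 1, 1, 1] [-1, 1, 1, -2] [false, false, false, false, false] [false, false, false, false] false,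
    mkRD 4 [3, 4, 1, 0, 2] [3, 4, 1, 2, 0] [2, 3, 0, 1] [0, 1, 4, 0, 2] [-4, 3, -2, 1] [false, false, false, false, false] [false, false, false, true] false,
    mkRD 4 [0, 3, 1, 4, 2] [2, 3, 1, 4, 0] [2, 0, 1, 3] [3, 2, 4, 1, 2] [-4, 1, 2, -1] [false, false, false, false, false] [false, false, false, false] false]
  B i := [
    mkRD 4 [3, 4, 1, 0, 2] [3, 4, 1, 2, 0] [2, 3, 0, 1] [0, 2, 4, 0, 2] [-4, 3, -2, 1] [false, false, false, false, false] [false, false, false, false] false,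
    mkRD 4 [0, 3, 4, 2, 1] [2, 3, 4, 1, 0] [3, 0, 1, 2] [3, 4, 1, 1, 1] [1, 1, 2, -2] [false, false, false, false, false] [false, false, false, false] false,
    mkRD 4 [3, 2, 4, 0, 1] [3, 1, 4, 2, 0] [1, 3, 0, 2] [0, 4, 3, 0, 3] [3, 3, -2, -2] [false, false, false, false, false] [false, false, false, false] false,
    mkRD 4 [0, 3, 1, 4, 2] [2, 3, 1, 4, 0] [2, 0, 1, 3] [3, 2, 4, 1, 2] [-4, 1, 2, -1] [false, false, false, false, false] [false, false, false, false] false].getD i.val (mkRD 4 [3, 4, 1, 0, 2] [3, 4, 1, 2, 0] [2, 3, 0, 1] [0, 2, 4, 0, 2] [-4, 3, -2, 1] [false, false, false, false, false] [false, false, false, false] false)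

end Pool.Agent.W_MP_43c969_h13
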